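import Pool.Agent.Work.MP_b30479_gt.LT.Near

/-!
# Pointwise limits on the scale `1/√n`, at a critical point near the centre
-/

namespace Pool.Agent.Work.MP_b30479_gt.LT

open Finset VOL AX MeasureTheory Filter Topology

/-! ### elementary facts -/

theorem sqrt_tendsto : Tendsto (fun n : ℕ => √(n : ℝ)) atTop atTop :=
  Real.tendsto_sqrt_atTop.comp tendsto_natCast_atTop_atTop

theorem div_sqrt_tendsto (X : ℝ) : Tendsto (fun n : ℕ => X / √(n : ℝ)) atTop (𝓝 0) :=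
  sqrt_tendsto.const_div_atTop X

theorem div_sqrt_tendsto_c (X : ℝ) : Tendsto (fun n : ℕ => ((X / √(n : ℝ) : ℝ) : ℂ)) atTop (𝓝 0) := by
  have h := (Complex.continuous_ofReal.tendsto 0).comp (div_sqrt_tendsto X)
  rw [Complex.ofReal_zero] at h
  exact h

theorem zt_eq {ζ : ℂ} {u : ℝ} (h : |ζ.re + u| ≤ 1 / 4) : zt ζ.im (ζ.re + u) = ζ + (u : ℂ) := by
  have h1 : th (ζ.re + u) = 1 := by
    unfold th
    exact min_eq_left (by linarith only [h])
  unfold zt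
  rw [h1, mul_one]
  apply Complex.ext <;> simp

theorem eventually_abs_le {x : ℝ} (h : |x| < 1 / 4) (X : ℝ) :
    ∀ᶠ n : ℕ in atTop, |x + X / √(n : ℝ)| < 1 / 4 := by
  have h1 : Tendsto (fun n : ℕ => |x + X / √(n : ℝ)|) atTop (𝓝 |x + 0|) :=
    ((div_sqrt_tendsto X).const_add x).abs
  rw [add_zero] at h1
  exact h1.eventually_lt_const h

theorem sqrt_cast_sq {n : ℕ} (hn : 0 < n) : ((√(n : ℝ) : ℝ) : ℂ) * ((√(n : ℝ) : ℝ) : ℂ) = (n : ℂ) := by
  rw [← Complex.ofReal_mul, Real.mul_self_sqrt (by positivity)]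
  simp

/-- `n (ζ + X/√n)² = n ζ² + 2 √n X ζ + X²` -/
theorem sq_expand {n : ℕ} (hn : 0 < n) (ζ : ℂ) (X : ℝ) :
    (n : ℂ) * (ζ + ((X / √(n : ℝ) : ℝ) : ℂ)) ^ 2 =
      n * ζ ^ 2 + 2 * (√(n : ℝ) : ℝ) * X * ζ + X ^ 2 := by
  have hs : ((√(n : ℝ) : ℝ) : ℂ) ≠ 0 := by
    rw [Complex.ofReal_ne_zero]
    positivity
  have h := sqrt_cast_sq hn
  push_cast
  rw [← h]
  field_simp
  ring

theorem inv_sin_sq {z : ℂ} (hz : 0 < z.im) {n : ℕ} (hn : 0 < n) :
    1 / Complex.sin (Real.pi * n * z) ^ 2 = -4 * Complex.exp (2 * Real.pi * Complex.I * n * z) /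
      (1 - Complex.exp (2 * Real.pi * Complex.I * n * z)) ^ 2 := by
  set e := Complex.exp (Real.pi * Complex.I * n * z) with he
  have h1 : Complex.exp (2 * Real.pi * Complex.I * n * z) = e ^ 2 := by
    rw [he, ← Complex.exp_nat_mul]
    congr 1
    push_cast
    ring
  have h0 : e ≠ 0 := Complex.exp_ne_zero _
  have h2 : Complex.exp (-(Real.pi * n * z) * Complex.I) = e⁻¹ ∧
      Complex.exp (Real.pi * n * z * Complex.I) = e := by
    constructor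
    · rw [he, ← Complex.exp_neg]
      congr 1
      ring
    · rw [he]
      congr 1
      ring
  have h3 : Complex.sin (Real.pi * n * z) = (e⁻¹ - e) * Complex.I / 2 := by
    unfold Complex.sin
    rw [h2.1]
    congr 3
    rw [← h2.2]
  have hn1 : ‖Complex.exp (2 * Real.pi * Complex.I * n * z)‖ < 1 := by
    rw [Complex.norm_exp]
    have : (2 * Real.pi * Complex.I * n * z : ℂ).re = -(2 * Real.pi * n * z.im) := by
      simp
    rw [this, Real.exp_lt_one_iff]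
    have : 0 < 2 * Real.pi * n * z.im := by positivity
    linarith only [this]
  have hne : (1 : ℂ) - e ^ 2 ≠ 0 := by
    rw [← h1]
    intro h
    have : Complex.exp (2 * Real.pi * Complex.I * n * z) = 1 := by
      linear_combination -h
    rw [this] at hn1
    simp at hn1
  rw [h1, h3]
  have h4 : ((e⁻¹ - e) * Complex.I / 2) ^ 2 = -(1 - e ^ 2) ^ 2 / (4 * e ^ 2) := by
    rw [div_pow, mul_pow, Complex.I_sq]
    field_simp
    ring
  rw [h4]
  have h5 : e ^ 2 ≠ 0 := pow_ne_zero 2 h0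
  have h6 : (1 - e ^ 2) ^ 2 ≠ 0 := pow_ne_zero 2 hne
  field_simp

theorem EE_lim {b : ℤ} {ζ : ℂ} (h0 : 0 < ζ.im) (h1 : |ζ.re| < 1 / 4) (X : ℝ) :
    Tendsto (fun n : ℕ => Complex.exp (-(n * (Real.pi * Complex.I * b * ζ ^ 2 +
        2 * Real.pi * Complex.I * ζ) + √(n : ℝ) * (2 * Real.pi * Complex.I * (b * ζ + 1)) * X)) *
      EE n b ζ.im (ζ.re + X / √(n : ℝ))) atTop
      (𝓝 (-4 * Complex.sin (2 * Real.pi * ζ) * Complex.exp (Real.pi * Complex.I * b * X ^ 2))) := by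
  have hz : Tendsto (fun n : ℕ => ζ + ((X / √(n : ℝ) : ℝ) : ℂ)) atTop (𝓝 ζ) := by
    simpa using (div_sqrt_tendsto_c X).const_add ζ
  have hs : Tendsto (fun n : ℕ => Complex.sin (2 * Real.pi * (ζ + ((X / √(n : ℝ) : ℝ) : ℂ)))) atTop
      (𝓝 (Complex.sin (2 * Real.pi * ζ))) := by
    have : Continuous fun z : ℂ => Complex.sin (2 * Real.pi * z) := by fun_prop
    exact (this.tendsto ζ).comp hz
  have hq : Tendsto (fun n : ℕ => Complex.exp (2 * Real.pi * Complex.I * n *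
      (ζ + ((X / √(n : ℝ) : ℝ) : ℂ)))) atTop (𝓝 0) := by
    rw [tendsto_zero_iff_norm_tendsto_zero]
    have e : (fun n : ℕ => ‖Complex.exp (2 * Real.pi * Complex.I * n *
        (ζ + ((X / √(n : ℝ) : ℝ) : ℂ)))‖) = fun n : ℕ => Real.exp (-(2 * Real.pi * ζ.im * n)) := by
      funext n
      rw [Complex.norm_exp]
      congr 1
      simp
      ring
    rw [e]
    refine Real.tendsto_exp_atBot.comp ?_
    refine tendsto_neg_atTop_atBot.comp ?_
    exact tendsto_natCast_atTop_atTop.const_mul_atTop (by positivity)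
  have hlim : Tendsto (fun n : ℕ => -4 * Complex.sin (2 * Real.pi * (ζ + ((X / √(n : ℝ) : ℝ) : ℂ))) *
      Complex.exp (Real.pi * Complex.I * b * X ^ 2) / (1 - Complex.exp (2 * Real.pi * Complex.I * n *
      (ζ + ((X / √(n : ℝ) : ℝ) : ℂ)))) ^ 2) atTop
      (𝓝 (-4 * Complex.sin (2 * Real.pi * ζ) * Complex.exp (Real.pi * Complex.I * b * X ^ 2) /
        (1 - 0) ^ 2)) := by
    refine Tendsto.div ((hs.const_mul (-4)).mul_const _) ?_ (by simp)
    exact (hq.const_sub 1).pow 2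
  rw [sub_zero, one_pow, div_one] at hlim
  refine hlim.congr' ?_
  filter_upwards [eventually_abs_le h1 X, eventually_gt_atTop 0] with n hn hn0
  have hzt := zt_eq hn.le
  have hd : dzt ζ.im (ζ.re + X / √(n : ℝ)) = 1 := by
    unfold dzt
    rw [if_pos hn]
    simp
  unfold EE
  rw [hzt, hd, mul_one]
  set z : ℂ := ζ + ((X / √(n : ℝ) : ℝ) : ℂ) with hzdef
  have him : 0 < z.im := by
    rw [hzdef]
    simpa using h0
  rw [div_eq_mul_one_div (Complex.exp (Real.pi * Complex.I * b * n * z ^ 2) * Complex.sin (2 * Real.pi * z)),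
    inv_sin_sq him hn0]
  have e1 : Complex.exp (Real.pi * Complex.I * b * X ^ 2) =
      Complex.exp (-(n * (Real.pi * Complex.I * b * ζ ^ 2 +
        2 * Real.pi * Complex.I * ζ) + √(n : ℝ) * (2 * Real.pi * Complex.I * (b * ζ + 1)) * X)) *
      Complex.exp (Real.pi * Complex.I * b * n * z ^ 2) *
      Complex.exp (2 * Real.pi * Complex.I * n * z) := by
    rw [← Complex.exp_add, ← Complex.exp_add]
    congr 1
    have k1 := sq_expand hn0 ζ X
    rw [← hzdef] at k1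
    have k2 : (n : ℂ) * z = n * ζ + (√(n : ℝ) : ℝ) * X := by
      rw [hzdef, mul_add]
      congr 1
      have hs : ((√(n : ℝ) : ℝ) : ℂ) ≠ 0 := by
        rw [Complex.ofReal_ne_zero]
        positivity
      rw [← sqrt_cast_sq hn0]
      push_cast
      field_simp
    linear_combination (-(Real.pi * Complex.I * b)) * k1 - 2 * Real.pi * Complex.I * k2
  rw [e1]
  ring

/-- mixed second derivative -/
noncomputable def twz (w ζ : ℂ) : ℂ := ph' (w + 1 / 2 + ζ) - ph' (w + 1 / 2 - ζ)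

/-- second derivative with respect to `ζ` -/
noncomputable def tzz (w ζ : ℂ) : ℂ := ph' (w + 1 / 2 + ζ) + ph' (w + 1 / 2 - ζ)

/-- second derivative with respect to `w` -/
noncomputable def tww (w ζ ζ' : ℂ) : ℂ := tzz w ζ + tzz w ζ' - 4 * ph' w

/-! ### second order expansion -/

theorem Fh_taylor_loc {z : ℂ} (hz : z ∈ strip) {ε : ℝ} (hε : 0 < ε) : ∃ δ : ℝ, 0 < δ ∧ ∀ u : ℂ,
    ‖u‖ < δ → ‖Fh (z + u) - Fh z - ph z * u - ph' z * u ^ 2 / 2‖ ≤ ε * ‖u‖ ^ 2 := by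
  have h1 := hasDerivAt_ph hz
  rw [hasDerivAt_iff_isLittleO, Asymptotics.isLittleO_iff] at h1
  have h2 := h1 hε
  rw [Metric.eventually_nhds_iff] at h2
  obtain ⟨δ₁, hδ₁, h2⟩ := h2
  obtain ⟨δ₂, hδ₂, h3⟩ := Metric.isOpen_iff.mp strip_open z hz
  refine ⟨min δ₁ δ₂, lt_min hδ₁ hδ₂, ?_⟩
  intro u hu
  have hball : ∀ v ∈ Metric.closedBall (0 : ℂ) ‖u‖, dist (z + v) z < δ₁ ∧ z + v ∈ strip := by
    intro v hv
    have hv' : ‖v‖ ≤ ‖u‖ := by simpa using hv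
    have hd : dist (z + v) z = ‖v‖ := by
      rw [Complex.dist_eq]
      simp
    refine ⟨?_, h3 ?_⟩
    · rw [hd]
      exact (hv'.trans_lt hu).trans_le (min_le_left _ _)
    · rw [Metric.mem_ball, hd]
      exact (hv'.trans_lt hu).trans_le (min_le_right _ _)
  have hder : ∀ v ∈ Metric.closedBall (0 : ℂ) ‖u‖, HasDerivWithinAt
      (fun v => Fh (z + v) - Fh z - ph z * v - ph' z * v ^ 2 / 2)
      (ph (z + v) - ph z - ph' z * v) (Metric.closedBall (0 : ℂ) ‖u‖) v := by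
    intro v hv
    have k1 : HasDerivAt (fun v : ℂ => Fh (z + v)) (ph (z + v)) v := by
      have := (hasDerivAt_Fh (hball v hv).2).comp_const_add z v
      exact this
    have k2 : HasDerivAt (fun v : ℂ => ph z * v) (ph z) v := by
      simpa using (hasDerivAt_id v).const_mul (ph z)
    have k3 : HasDerivAt (fun v : ℂ => ph' z * v ^ 2 / 2) (ph' z * v) v := by
      have := ((hasDerivAt_pow 2 v).const_mul (ph' z)).div_const 2
      refine this.congr_deriv ?_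
      push_cast
      ring
    exact (((k1.sub_const (Fh z)).sub k2).sub k3).hasDerivWithinAt
  have hbd : ∀ v ∈ Metric.closedBall (0 : ℂ) ‖u‖, ‖ph (z + v) - ph z - ph' z * v‖ ≤ ε * ‖u‖ := by
    intro v hv
    have h4 := h2 (hball v hv).1
    have e : z + v - z = v := by ring
    rw [e, smul_eq_mul] at h4
    have hv' : ‖v‖ ≤ ‖u‖ := by simpa using hv
    calc ‖ph (z + v) - ph z - ph' z * v‖ = ‖ph (z + v) - ph z - v * ph' z‖ := by
          rw [mul_comm v]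
      _ ≤ ε * ‖v‖ := h4
      _ ≤ ε * ‖u‖ := by gcongr
  have h5 := Convex.norm_image_sub_le_of_norm_hasDerivWithin_le hder hbd
    (convex_closedBall (0 : ℂ) ‖u‖) (x := 0) (y := u) (by simp) (by simp)
  simp only [add_zero, mul_zero, sub_zero, sub_self, ne_eq, OfNat.ofNat_ne_zero, not_false_eq_true,
    zero_pow, zero_div] at h5
  calc _ ≤ ε * ‖u‖ * ‖u‖ := h5
    _ = ε * ‖u‖ ^ 2 := by ring

theorem Fh_quad {z : ℂ} (hz : z ∈ strip) (h : ℝ) :
    Tendsto (fun n : ℕ => (n : ℂ) * (Fh (z + ((h / √(n : ℝ) : ℝ) : ℂ)) - Fh z) -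
      (√(n : ℝ) : ℝ) * (ph z * h)) atTop (𝓝 (ph' z * h ^ 2 / 2)) := by
  rw [Metric.tendsto_atTop']
  intro ε hε
  obtain ⟨δ, hδ, hd⟩ := Fh_taylor_loc hz (ε := ε / (2 * (h ^ 2 + 1))) (by positivity)
  have h1 : ∀ᶠ n : ℕ in atTop, ‖((h / √(n : ℝ) : ℝ) : ℂ)‖ < δ := by
    have := (div_sqrt_tendsto_c h).norm
    rw [norm_zero] at this
    exact this.eventually_lt_const hδ
  obtain ⟨N, hN⟩ := eventually_atTop.mp h1
  refine ⟨N, fun n hn => ?_⟩
  have hn0 : 0 < n := by omega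
  have h2 := hd _ (hN n hn.le)
  set u : ℂ := ((h / √(n : ℝ) : ℝ) : ℂ) with hu
  have hs : ((√(n : ℝ) : ℝ) : ℂ) ≠ 0 := by
    rw [Complex.ofReal_ne_zero]
    positivity
  have e1 : (n : ℂ) * u = (√(n : ℝ) : ℝ) * h := by
    rw [hu, ← sqrt_cast_sq hn0]
    push_cast
    field_simp
  have e2 : (n : ℂ) * u ^ 2 = h ^ 2 := by
    rw [hu, ← sqrt_cast_sq hn0]
    push_cast
    field_simp
  rw [Complex.dist_eq]
  have e3 : (n : ℂ) * (Fh (z + u) - Fh z) - (√(n : ℝ) : ℝ) * (ph z * h) - ph' z * h ^ 2 / 2 =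
      n * (Fh (z + u) - Fh z - ph z * u - ph' z * u ^ 2 / 2) := by
    linear_combination ph z * e1 + (ph' z / 2) * e2
  have hun : ‖u‖ ^ 2 = h ^ 2 / n := by
    rw [hu, Complex.norm_real, Real.norm_eq_abs, sq_abs, div_pow, Real.sq_sqrt (by positivity)]
  rw [e3, norm_mul, Complex.norm_natCast]
  have hnp : (0 : ℝ) < n := by exact_mod_cast hn0
  calc (n : ℝ) * ‖Fh (z + u) - Fh z - ph z * u - ph' z * u ^ 2 / 2‖ ≤
        n * (ε / (2 * (h ^ 2 + 1)) * ‖u‖ ^ 2) := by gcongr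
    _ = ε / 2 * (h ^ 2 / (h ^ 2 + 1)) := by
        rw [hun]
        field_simp
    _ ≤ ε / 2 * 1 := by
        gcongr
        rw [div_le_one (by positivity)]
        linarith only []
    _ < ε := by linarith only [hε]

theorem tp_quad {w ζ ζ' : ℂ} (h0 : 0 < w.re) (h1 : w.re ≤ 3 / 8) (h2 : |ζ.re| ≤ 1 / 16)
    (h3 : |ζ'.re| ≤ 1 / 16) (Y X X' : ℝ) :
    Tendsto (fun n : ℕ => (n : ℂ) * (tp (w + ((Y / √(n : ℝ) : ℝ) : ℂ)) (ζ + ((X / √(n : ℝ) : ℝ) : ℂ))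
      (ζ' + ((X' / √(n : ℝ) : ℝ) : ℂ)) - tp w ζ ζ') -
      (√(n : ℝ) : ℝ) * (tw w ζ ζ' * Y + tz w ζ * X + tz w ζ' * X')) atTop
      (𝓝 (tww w ζ ζ' * Y ^ 2 / 2 + tzz w ζ * X ^ 2 / 2 + tzz w ζ' * X' ^ 2 / 2 +
        (twz w ζ * X + twz w ζ' * X') * Y)) := by
  rw [abs_le] at h2 h3
  have m1 : w + 1 / 2 + ζ ∈ strip := by
    refine ⟨?_, ?_⟩ <;> simp only [Complex.add_re] <;> norm_num <;> linarith only [h0, h1, h2, h2.1, h2.2]
  have m2 : w + 1 / 2 - ζ ∈ strip := by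
    refine ⟨?_, ?_⟩ <;> simp only [Complex.add_re, Complex.sub_re] <;> norm_num <;>
      linarith only [h0, h1, h2, h2.1, h2.2]
  have m3 : w + 1 / 2 + ζ' ∈ strip := by
    refine ⟨?_, ?_⟩ <;> simp only [Complex.add_re] <;> norm_num <;> linarith only [h0, h1, h3, h3.1, h3.2]
  have m4 : w + 1 / 2 - ζ' ∈ strip := by
    refine ⟨?_, ?_⟩ <;> simp only [Complex.add_re, Complex.sub_re] <;> norm_num <;>
      linarith only [h0, h1, h3, h3.1, h3.2]
  have m5 : w ∈ strip := ⟨h0, by linarith only [h0, h1]⟩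
  have k1 := Fh_quad m1 (Y + X)
  have k2 := Fh_quad m2 (Y - X)
  have k3 := Fh_quad m3 (Y + X')
  have k4 := Fh_quad m4 (Y - X')
  have k5 := Fh_quad m5 Y
  have k := (((k1.add k2).add k3).add k4).sub (k5.const_mul 4)
  have e : tww w ζ ζ' * Y ^ 2 / 2 + tzz w ζ * X ^ 2 / 2 + tzz w ζ' * X' ^ 2 / 2 +
        (twz w ζ * X + twz w ζ' * X') * Y =
      ph' (w + 1 / 2 + ζ) * ((Y + X : ℝ) : ℂ) ^ 2 / 2 + ph' (w + 1 / 2 - ζ) * ((Y - X : ℝ) : ℂ) ^ 2 / 2 +
      ph' (w + 1 / 2 + ζ') * ((Y + X' : ℝ) : ℂ) ^ 2 / 2 +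
      ph' (w + 1 / 2 - ζ') * ((Y - X' : ℝ) : ℂ) ^ 2 / 2 - 4 * (ph' w * Y ^ 2 / 2) := by
    unfold tww tzz twz
    push_cast
    ring
  rw [e]
  refine k.congr fun n => ?_
  unfold tp tw tz
  have a1 : w + ((Y / √(n : ℝ) : ℝ) : ℂ) + 1 / 2 + (ζ + ((X / √(n : ℝ) : ℝ) : ℂ)) =
      w + 1 / 2 + ζ + (((Y + X) / √(n : ℝ) : ℝ) : ℂ) := by
    push_cast
    ring
  have a2 : w + ((Y / √(n : ℝ) : ℝ) : ℂ) + 1 / 2 - (ζ + ((X / √(n : ℝ) : ℝ) : ℂ)) =
      w + 1 / 2 - ζ + (((Y - X) / √(n : ℝ) : ℝ) : ℂ) := by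
    push_cast
    ring
  have a3 : w + ((Y / √(n : ℝ) : ℝ) : ℂ) + 1 / 2 + (ζ' + ((X' / √(n : ℝ) : ℝ) : ℂ)) =
      w + 1 / 2 + ζ' + (((Y + X') / √(n : ℝ) : ℝ) : ℂ) := by
    push_cast
    ring
  have a4 : w + ((Y / √(n : ℝ) : ℝ) : ℂ) + 1 / 2 - (ζ' + ((X' / √(n : ℝ) : ℝ) : ℂ)) =
      w + 1 / 2 - ζ' + (((Y - X') / √(n : ℝ) : ℝ) : ℂ) := by
    push_cast
    ring
  rw [a1, a2, a3, a4]
  push_cast
  ring

/-! ### the centre -/

theorem tp_near {ε : ℝ} (hε : 0 < ε) : ∃ η : ℝ, 0 < η ∧ η ≤ 1 / 16 ∧ ∀ w ζ ζ' : ℂ,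
    ‖w - 1 / 4‖ ≤ η → ‖ζ‖ ≤ η → ‖ζ'‖ ≤ η → ‖tp w ζ ζ' - ((ts : ℝ) : ℂ)‖ ≤ ε := by
  have hc : ContinuousOn (fun p : ℂ × ℂ × ℂ => tp p.1 p.2.1 p.2.2) Kc := by
    refine tp_continuousOn.mono ?_
    rintro p ⟨h1, h2, _, h4, h5⟩
    exact ⟨by linarith only [h1], h2, (Complex.abs_re_le_norm _).trans h4, (Complex.abs_re_le_norm _).trans h5⟩
  have hu := Kc_compact.uniformContinuousOn_of_continuous hc
  rw [Metric.uniformContinuousOn_iff] at hu
  obtain ⟨δ, hδ, hd⟩ := hu ε hε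
  refine ⟨min (δ / 2) (1 / 16), by positivity, min_le_right _ _, ?_⟩
  intro w ζ ζ' h1 h2 h3
  have g1 : min (δ / 2) (1 / 16) ≤ δ / 2 := min_le_left _ _
  have g2 : min (δ / 2) (1 / 16 : ℝ) ≤ 1 / 16 := min_le_right _ _
  have a1 := (Complex.abs_re_le_norm (w - 1 / 4)).trans (h1.trans g2)
  have a2 := (Complex.abs_im_le_norm (w - 1 / 4)).trans (h1.trans g2)
  have r1 : (w - 1 / 4).re = w.re - 1 / 4 := by
    simp
  have r2 : (w - 1 / 4).im = w.im := by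
    simp
  rw [r1, abs_le] at a1
  rw [r2] at a2
  have h := hd (w, ζ, ζ') ⟨by linarith only [a1, a1.1], by linarith only [a1, a1.2], a2, h2.trans g2, h3.trans g2⟩
    (1 / 4, 0, 0) ⟨by norm_num, by norm_num, by norm_num, by simp, by simp⟩ (by
      rw [Prod.dist_eq, Prod.dist_eq]
      simp only [dist_zero_right, Complex.dist_eq]
      refine max_lt ?_ (max_lt ?_ ?_)
      · linarith only [hδ, h1, g1]
      · linarith only [hδ, h2, g1]
      · linarith only [hδ, h3, g1])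
  rw [Complex.dist_eq] at h
  simp only at h
  rw [tp_center] at h
  exact h.le

theorem ph_bdd : ∃ P : ℝ, 0 ≤ P ∧ ∀ w : ℂ, 1 / 8 ≤ w.re → w.re ≤ 3 / 8 → |w.im| ≤ 1 / 16 →
    ‖ph w‖ ≤ P := by
  have h1 : IsCompact ((Set.Icc (1 / 8 : ℝ) (3 / 8)) ×ℂ (Set.Icc (-(1 / 16) : ℝ) (1 / 16))) :=
    isCompact_Icc.reProdIm isCompact_Icc
  have h2 : ContinuousOn ph ((Set.Icc (1 / 8 : ℝ) (3 / 8)) ×ℂ (Set.Icc (-(1 / 16) : ℝ) (1 / 16))) := by
    intro w hw
    rw [Complex.mem_reProdIm] at hw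
    exact (continuousAt_ph ⟨by linarith only [hw, hw.1.1], by linarith only [hw, hw.1.2]⟩).continuousWithinAt
  obtain ⟨P, hP⟩ := h1.exists_bound_of_continuousOn h2
  refine ⟨max P 0, le_max_right _ _, ?_⟩
  intro w a1 a2 a3
  refine (hP w ?_).trans (le_max_left _ _)
  rw [Complex.mem_reProdIm]
  exact ⟨⟨a1, a2⟩, abs_le.mp a3⟩

theorem ph'_quarter : ph' (1 / 4) = Real.pi := by
  unfold ph'
  have e : (Real.pi : ℂ) * (1 / 4) = ((Real.pi / 4 : ℝ) : ℂ) := by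
    push_cast
    ring
  rw [e, ← Complex.ofReal_cos, ← Complex.ofReal_sin, Real.cos_pi_div_four, Real.sin_pi_div_four]
  have : ((√2 / 2 : ℝ) : ℂ) ≠ 0 := by
    rw [Complex.ofReal_ne_zero]
    positivity
  field_simp

theorem ph'_one_sub (z : ℂ) : ph' (1 - z) = -ph' z := by
  unfold ph'
  rw [show (Real.pi : ℂ) * (1 - z) = Real.pi - Real.pi * z by ring, Complex.sin_pi_sub,
    Complex.cos_pi_sub]
  ring

theorem tww_center : tww (1 / 4) 0 0 = -(8 * Real.pi) := by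
  have h : ph' (3 / 4) = -Real.pi := by
    rw [show (3 / 4 : ℂ) = 1 - 1 / 4 by norm_num, ph'_one_sub, ph'_quarter]
  unfold tww tzz
  rw [show (1 / 4 + 1 / 2 + 0 : ℂ) = 3 / 4 by norm_num, show (1 / 4 + 1 / 2 - 0 : ℂ) = 3 / 4 by norm_num,
    h, ph'_quarter]
  ring

theorem tww_near : ∃ η : ℝ, 0 < η ∧ ∀ w ζ ζ' : ℂ, ‖w - 1 / 4‖ ≤ η → ‖ζ‖ ≤ η → ‖ζ'‖ ≤ η →
    (tww w ζ ζ').re < 0 := by
  have hc : ContinuousAt (fun p : ℂ × ℂ × ℂ => (tww p.1 p.2.1 p.2.2).re) (1 / 4, 0, 0) := by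
    apply Complex.continuous_re.continuousAt.comp
    have m : (3 / 4 : ℂ) ∈ strip := ⟨by norm_num, by norm_num⟩
    have m' : (1 / 4 : ℂ) ∈ strip := ⟨by norm_num, by norm_num⟩
    have k1 : ContinuousAt (fun p : ℂ × ℂ × ℂ => ph' (p.1 + 1 / 2 + p.2.1)) (1 / 4, 0, 0) := by
      apply ContinuousAt.comp (g := ph') (f := fun p : ℂ × ℂ × ℂ => p.1 + 1 / 2 + p.2.1)
      · simp only
        rw [show (1 / 4 + 1 / 2 + 0 : ℂ) = 3 / 4 by norm_num]
        exact continuousAt_ph' m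
      · fun_prop
    have k2 : ContinuousAt (fun p : ℂ × ℂ × ℂ => ph' (p.1 + 1 / 2 - p.2.1)) (1 / 4, 0, 0) := by
      apply ContinuousAt.comp (g := ph') (f := fun p : ℂ × ℂ × ℂ => p.1 + 1 / 2 - p.2.1)
      · simp only
        rw [show (1 / 4 + 1 / 2 - 0 : ℂ) = 3 / 4 by norm_num]
        exact continuousAt_ph' m
      · fun_prop
    have k3 : ContinuousAt (fun p : ℂ × ℂ × ℂ => ph' (p.1 + 1 / 2 + p.2.2)) (1 / 4, 0, 0) := by
      apply ContinuousAt.comp (g := ph') (f := fun p : ℂ × ℂ × ℂ => p.1 + 1 / 2 + p.2.2)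
      · simp only
        rw [show (1 / 4 + 1 / 2 + 0 : ℂ) = 3 / 4 by norm_num]
        exact continuousAt_ph' m
      · fun_prop
    have k4 : ContinuousAt (fun p : ℂ × ℂ × ℂ => ph' (p.1 + 1 / 2 - p.2.2)) (1 / 4, 0, 0) := by
      apply ContinuousAt.comp (g := ph') (f := fun p : ℂ × ℂ × ℂ => p.1 + 1 / 2 - p.2.2)
      · simp only
        rw [show (1 / 4 + 1 / 2 - 0 : ℂ) = 3 / 4 by norm_num]
        exact continuousAt_ph' m
      · fun_prop
    have k5 : ContinuousAt (fun p : ℂ × ℂ × ℂ => ph' p.1) (1 / 4, 0, 0) := by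
      apply ContinuousAt.comp (g := ph') (f := fun p : ℂ × ℂ × ℂ => p.1)
      · exact continuousAt_ph' m'
      · fun_prop
    exact ((k1.add k2).add (k3.add k4)).sub (continuousAt_const.mul k5)
  have h0 : (fun p : ℂ × ℂ × ℂ => (tww p.1 p.2.1 p.2.2).re) (1 / 4, 0, 0) < 0 := by
    simp only
    rw [tww_center]
    simp
    positivity
  have h1 := hc.eventually_lt_const h0
  rw [Metric.eventually_nhds_iff] at h1
  obtain ⟨δ, hδ, hd⟩ := h1
  refine ⟨δ / 2, by positivity, ?_⟩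
  intro w ζ ζ' a1 a2 a3
  refine hd (y := (w, ζ, ζ')) ?_
  rw [Prod.dist_eq, Prod.dist_eq]
  simp only [dist_zero_right, Complex.dist_eq]
  refine max_lt ?_ (max_lt ?_ ?_) <;> linarith only [hδ, a1, a2, a3]

/-! ### domination -/

theorem dom : ∃ η c C : ℝ, 0 < η ∧ η ≤ 1 / 32 ∧ 0 < c ∧ ∀ w ζ ζ' : ℂ, tw w ζ ζ' = 0 →
    ‖w - 1 / 4‖ ≤ η → ‖ζ‖ ≤ η → ‖ζ'‖ ≤ η → ∀ X X' : ℝ, ∀ᶠ n : ℕ in atTop, ∀ Y : ℝ,
    1 / 8 ≤ w.re + Y / √(n : ℝ) → w.re + Y / √(n : ℝ) ≤ 3 / 8 →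
    (Tn n (w + ((Y / √(n : ℝ) : ℝ) : ℂ)) (ζ + ((X / √(n : ℝ) : ℝ) : ℂ))
      (ζ' + ((X' / √(n : ℝ) : ℝ) : ℂ)) -
      (n * tp w ζ ζ' + (√(n : ℝ) : ℝ) * (tz w ζ * X + tz w ζ' * X'))).re ≤ C - c * Y ^ 2 := by
  obtain ⟨r, hr, hr', hconc⟩ := conc
  obtain ⟨ε₁, c₁, hε₁, hε₁', hc₁, hmid⟩ := tp_mid (δ := r / 4) (by positivity)
  obtain ⟨η₂, hη₂, hη₂', hcl⟩ := tp_near (ε := c₁ / 4) (by positivity)
  obtain ⟨D, hD, hexp⟩ := Tn_expand
  obtain ⟨P, hP, hph⟩ := ph_bdd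
  refine ⟨min (r / 4) (min (ε₁ / 2) (min η₂ (1 / 32))), min 1 (c₁ / 2), 2 * P + D, by positivity,
    (min_le_right _ _).trans ((min_le_right _ _).trans (min_le_right _ _)), by positivity, ?_⟩
  intro w ζ ζ' hcrit h1 h2 h3 X X'
  set η := min (r / 4) (min (ε₁ / 2) (min η₂ (1 / 32))) with hη
  have g1 : η ≤ r / 4 := min_le_left _ _
  have g2 : η ≤ ε₁ / 2 := (min_le_right _ _).trans (min_le_left _ _)
  have g3 : η ≤ η₂ := (min_le_right _ _).trans ((min_le_right _ _).trans (min_le_left _ _))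
  have g4 : η ≤ 1 / 32 := (min_le_right _ _).trans ((min_le_right _ _).trans (min_le_right _ _))
  have him : |w.im| ≤ η := by
    have := (Complex.abs_im_le_norm (w - 1 / 4)).trans h1
    simpa using this
  have hre : |w.re - 1 / 4| ≤ η := by
    have := (Complex.abs_re_le_norm (w - 1 / 4)).trans h1
    simpa using this
  set K := |(tz w ζ * X + tz w ζ' * X').re| with hK
  have b1 : ∀ᶠ n : ℕ in atTop, ‖((X / √(n : ℝ) : ℝ) : ℂ)‖ < min (r / 4) (min (ε₁ / 2) (1 / 32)) := by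
    have := (div_sqrt_tendsto_c X).norm
    rw [norm_zero] at this
    exact this.eventually_lt_const (by positivity)
  have b2 : ∀ᶠ n : ℕ in atTop, ‖((X' / √(n : ℝ) : ℝ) : ℂ)‖ < min (r / 4) (min (ε₁ / 2) (1 / 32)) := by
    have := (div_sqrt_tendsto_c X').norm
    rw [norm_zero] at this
    exact this.eventually_lt_const (by positivity)
  have b3 : ∀ᶠ n : ℕ in atTop, 4 * K / c₁ ≤ √(n : ℝ) := sqrt_tendsto.eventually_ge_atTop _
  filter_upwards [b1, b2, b3, eventually_ge_atTop 8] with n n1 n2 n3 n8 Y y1 y2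
  have hn0 : 0 < n := by omega
  have hnp : (0 : ℝ) < n := by exact_mod_cast hn0
  have hsp : 0 < √(n : ℝ) := by positivity
  have hss : √(n : ℝ) * √(n : ℝ) = n := Real.mul_self_sqrt hnp.le
  set u : ℝ := X / √(n : ℝ) with hu
  set u' : ℝ := X' / √(n : ℝ) with hu'
  set v : ℝ := Y / √(n : ℝ) with hv
  have eu : √(n : ℝ) * X = n * u := by
    rw [hu, mul_div_assoc', eq_div_iff hsp.ne']
    linear_combination X * hss
  have eu' : √(n : ℝ) * X' = n * u' := by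
    rw [hu', mul_div_assoc', eq_div_iff hsp.ne']
    linear_combination X' * hss
  have ev : Y ^ 2 = n * v ^ 2 := by
    rw [hv, div_pow, Real.sq_sqrt hnp.le]
    field_simp
  have m1 : min (r / 4) (min (ε₁ / 2) (1 / 32)) ≤ r / 4 := min_le_left _ _
  have m2 : min (r / 4) (min (ε₁ / 2) (1 / 32)) ≤ ε₁ / 2 := (min_le_right _ _).trans (min_le_left _ _)
  have m3 : min (r / 4) (min (ε₁ / 2) (1 / 32)) ≤ 1 / 32 := (min_le_right _ _).trans (min_le_right _ _)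
  have z1 : ‖ζ + (u : ℂ)‖ ≤ ‖ζ‖ + ‖(u : ℂ)‖ := norm_add_le _ _
  have z2 : ‖ζ' + (u' : ℂ)‖ ≤ ‖ζ'‖ + ‖(u' : ℂ)‖ := norm_add_le _ _
  have wre : (w + (v : ℂ)).re = w.re + v := by simp
  have wim : (w + (v : ℂ)).im = w.im := by simp
  -- the expansion
  have hE := hexp n n8 (w + (v : ℂ)) (ζ + (u : ℂ)) (ζ' + (u' : ℂ)) (by rw [wre]; exact y1)
    (by rw [wre]; exact y2) ((Complex.abs_re_le_norm _).trans (by linarith only [hr, hr', h2, g1, n1, m1, z1]))
    ((Complex.abs_re_le_norm _).trans (by linarith only [hr, hr', h3, g1, n2, m1, z2]))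
  have hE2 := (Complex.re_le_norm _).trans hE
  have hDn : D / n ≤ D := div_le_self hD (by exact_mod_cast hn0)
  have hph2 := (Complex.abs_re_le_norm _).trans (hph (w + (v : ℂ)) (by rw [wre]; exact y1)
    (by rw [wre]; exact y2) (by rw [wim]; linarith only [hr, hr', g1, him]))
  rw [abs_le] at hph2
  have e1 : (Tn n (w + (v : ℂ)) (ζ + (u : ℂ)) (ζ' + (u' : ℂ)) -
      (n * tp (w + (v : ℂ)) (ζ + (u : ℂ)) (ζ' + (u' : ℂ)) - 2 * ph (w + (v : ℂ)))).re =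
      (Tn n (w + (v : ℂ)) (ζ + (u : ℂ)) (ζ' + (u' : ℂ))).re -
      (n * (tp (w + (v : ℂ)) (ζ + (u : ℂ)) (ζ' + (u' : ℂ))).re - 2 * (ph (w + (v : ℂ))).re) := by
    simp
  rw [e1] at hE2
  have e2 : (Tn n (w + (v : ℂ)) (ζ + (u : ℂ)) (ζ' + (u' : ℂ)) -
      (n * tp w ζ ζ' + (√(n : ℝ) : ℝ) * (tz w ζ * X + tz w ζ' * X'))).re =
      (Tn n (w + (v : ℂ)) (ζ + (u : ℂ)) (ζ' + (u' : ℂ))).re -
      (n * (tp w ζ ζ').re + √(n : ℝ) * (tz w ζ * X + tz w ζ' * X').re) := by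
    simp
  rw [e2]
  -- the main inequality
  have main : n * (tp (w + (v : ℂ)) (ζ + (u : ℂ)) (ζ' + (u' : ℂ))).re - (n * (tp w ζ ζ').re +
      √(n : ℝ) * (tz w ζ * X + tz w ζ' * X').re) ≤ -(min 1 (c₁ / 2) * Y ^ 2) := by
    by_cases hcase : ‖w + (v : ℂ) - 1 / 4‖ ≤ r
    · have h4 := hconc w ζ ζ' v u u' (by linarith only [hr, h1, g1]) (by linarith only [hr, h2, g1]) (by linarith only [hr, h3, g1]) hcase
        (by linarith only [hr, h2, g1, n1, m1, z1]) (by linarith only [hr, h3, g1, n2, m1, z2])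
      rw [hcrit, Complex.zero_re, zero_mul, add_zero] at h4
      have e3 : (tz w ζ * X + tz w ζ' * X').re = (tz w ζ).re * X + (tz w ζ').re * X' := by
        simp
      rw [e3]
      have h5 := mul_le_mul_of_nonneg_left h4 hnp.le
      have e4 : √(n : ℝ) * ((tz w ζ).re * X + (tz w ζ').re * X') =
          n * ((tz w ζ).re * u + (tz w ζ').re * u') := by
        linear_combination (tz w ζ).re * eu + (tz w ζ').re * eu'
      rw [e4]
      have h6 : min 1 (c₁ / 2) * Y ^ 2 ≤ n * v ^ 2 := by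
        rw [ev]
        have : min 1 (c₁ / 2) ≤ 1 := min_le_left _ _
        exact mul_le_of_le_one_left (by positivity) this
      have h7 : 0 ≤ (n : ℝ) * u ^ 2 := by positivity
      have h8 : 0 ≤ (n : ℝ) * u' ^ 2 := by positivity
      linarith only [h5, h6, h7, h8]
    · rw [not_le] at hcase
      have h4 : r / 4 ≤ |(w + (v : ℂ)).re - 1 / 4| := by
        have h5 := Complex.norm_le_abs_re_add_abs_im (w + (v : ℂ) - 1 / 4)
        have e5 : (w + (v : ℂ) - 1 / 4).re = (w + (v : ℂ)).re - 1 / 4 := by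
          simp
        have e6 : (w + (v : ℂ) - 1 / 4).im = w.im := by
          simp
        rw [e5, e6] at h5
        linarith only [hr, g1, him, hcase, h5]
      have h6 := hmid (w + (v : ℂ)) (ζ + (u : ℂ)) (ζ' + (u' : ℂ)) (by rw [wre]; exact y1)
        (by rw [wre]; exact y2) h4 (by rw [wim]; linarith only [hε₁, g2, him]) (by linarith only [h2, g2, n1, m2, z1]) (by linarith only [h3, g2, n2, m2, z2])
      have h7 := hcl w ζ ζ' (h1.trans g3) (h2.trans g3) (h3.trans g3)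
      have h8 := (Complex.abs_re_le_norm _).trans h7
      rw [Complex.sub_re, Complex.ofReal_re, abs_le] at h8
      have h9 : √(n : ℝ) * K ≤ c₁ / 4 * n := by
        have : 4 * K ≤ c₁ * √(n : ℝ) := by
          have := n3
          rw [div_le_iff₀ hc₁] at this
          linarith only [this]
        calc √(n : ℝ) * K = √(n : ℝ) * (4 * K) / 4 := by ring
          _ ≤ √(n : ℝ) * (c₁ * √(n : ℝ)) / 4 := by gcongr
          _ = c₁ / 4 * (√(n : ℝ) * √(n : ℝ)) := by ring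
          _ = c₁ / 4 * n := by rw [hss]
      have h10 : -(√(n : ℝ) * (tz w ζ * X + tz w ζ' * X').re) ≤ √(n : ℝ) * K := by
        rw [← mul_neg, hK]
        exact mul_le_mul_of_nonneg_left (neg_le_abs _) hsp.le
      have h11 : min 1 (c₁ / 2) * Y ^ 2 ≤ c₁ / 2 * n := by
        have hv1 : |v| ≤ 1 := by
          rw [abs_le] at hre ⊢
          constructor <;> linarith only [hr, hr', g1, hre, y1, y2, hre.1, hre.2]
        have hv2 : v ^ 2 ≤ 1 := by
          rw [← sq_abs]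
          exact pow_le_one₀ (abs_nonneg v) hv1
        rw [ev]
        have : min 1 (c₁ / 2) ≤ c₁ / 2 := min_le_right _ _
        calc min 1 (c₁ / 2) * (n * v ^ 2) ≤ c₁ / 2 * (n * 1) := by gcongr
          _ = c₁ / 2 * n := by ring
      have h12 : n * (tp (w + (v : ℂ)) (ζ + (u : ℂ)) (ζ' + (u' : ℂ))).re ≤ n * (ts - c₁) := by
        gcongr
      have h13 : (n : ℝ) * (ts - c₁ / 4) ≤ n * (tp w ζ ζ').re := by
        gcongr
        linarith only [h8, h8.1]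
      linarith only [h9, h10, h11, h12, h13]
  linarith only [hE2, hDn, hph2, main, hph2.1, hph2.2]

/-! ### the limit of the main part -/

/-- the exponent on the scale `1/√n` -/
noncomputable def EX (n : ℕ) (w ζ ζ' : ℂ) (X X' Y : ℝ) : ℂ :=
  Tn n (w + ((Y / √(n : ℝ) : ℝ) : ℂ)) (ζ + ((X / √(n : ℝ) : ℝ) : ℂ))
    (ζ' + ((X' / √(n : ℝ) : ℝ) : ℂ)) -
    (n * tp w ζ ζ' + (√(n : ℝ) : ℝ) * (tz w ζ * X + tz w ζ' * X'))

/-- the limit of the exponent -/
noncomputable def QX (w ζ ζ' : ℂ) (X X' Y : ℝ) : ℂ :=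
  tww w ζ ζ' * Y ^ 2 / 2 + tzz w ζ * X ^ 2 / 2 + tzz w ζ' * X' ^ 2 / 2 +
    (twz w ζ * X + twz w ζ' * X') * Y

theorem eventually_small {ζ : ℂ} (h : ‖ζ‖ ≤ 1 / 32) (X : ℝ) :
    ∀ᶠ n : ℕ in atTop, |(ζ + ((X / √(n : ℝ) : ℝ) : ℂ)).re| ≤ 1 / 16 := by
  have h1 := (div_sqrt_tendsto_c X).norm
  rw [norm_zero] at h1
  filter_upwards [h1.eventually_lt_const (show (0 : ℝ) < 1 / 32 by norm_num)] with n hn
  refine (Complex.abs_re_le_norm _).trans ((norm_add_le _ _).trans ?_)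
  linarith only [h, hn]

theorem EX_lim {w ζ ζ' : ℂ} (hcrit : tw w ζ ζ' = 0) (h1 : ‖w - 1 / 4‖ ≤ 1 / 32) (h2 : ‖ζ‖ ≤ 1 / 32)
    (h3 : ‖ζ'‖ ≤ 1 / 32) (X X' Y : ℝ) :
    Tendsto (fun n : ℕ => EX n w ζ ζ' X X' Y) atTop (𝓝 (-(2 * ph w) + QX w ζ ζ' X X' Y)) := by
  obtain ⟨D, hD, hexp⟩ := Tn_expand
  have hre : |w.re - 1 / 4| ≤ 1 / 32 := by
    have := (Complex.abs_re_le_norm (w - 1 / 4)).trans h1
    simpa using this
  rw [abs_le] at hre
  have hwn : Tendsto (fun n : ℕ => w + ((Y / √(n : ℝ) : ℝ) : ℂ)) atTop (𝓝 w) := by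
    simpa using (div_sqrt_tendsto_c Y).const_add w
  have k1 : Tendsto (fun n : ℕ => ph (w + ((Y / √(n : ℝ) : ℝ) : ℂ))) atTop (𝓝 (ph w)) :=
    (continuousAt_ph ⟨by linarith only [hre], by linarith only [hre]⟩).tendsto.comp hwn
  have k2 := tp_quad (w := w) (ζ := ζ) (ζ' := ζ') (by linarith only [hre]) (by linarith only [hre])
    ((Complex.abs_re_le_norm _).trans (by linarith only [h2])) ((Complex.abs_re_le_norm _).trans (by linarith only [h3]))
    Y X X'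
  rw [hcrit] at k2
  have k3 : Tendsto (fun n : ℕ => Tn n (w + ((Y / √(n : ℝ) : ℝ) : ℂ)) (ζ + ((X / √(n : ℝ) : ℝ) : ℂ))
      (ζ' + ((X' / √(n : ℝ) : ℝ) : ℂ)) - (n * tp (w + ((Y / √(n : ℝ) : ℝ) : ℂ))
      (ζ + ((X / √(n : ℝ) : ℝ) : ℂ)) (ζ' + ((X' / √(n : ℝ) : ℝ) : ℂ)) -
      2 * ph (w + ((Y / √(n : ℝ) : ℝ) : ℂ)))) atTop (𝓝 0) := by
    rw [tendsto_zero_iff_norm_tendsto_zero]
    have hD0 : Tendsto (fun n : ℕ => D / (n : ℝ)) atTop (𝓝 0) :=
      tendsto_natCast_atTop_atTop.const_div_atTop D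
    refine squeeze_zero' (Eventually.of_forall fun n => norm_nonneg _) ?_ hD0
    have hv := (div_sqrt_tendsto Y).abs
    rw [abs_zero] at hv
    filter_upwards [eventually_small h2 X, eventually_small h3 X', eventually_ge_atTop 8,
      hv.eventually_lt_const (show (0 : ℝ) < 1 / 32 by norm_num)] with n n1 n2 n3 n4
    rw [abs_lt] at n4
    have wre : (w + ((Y / √(n : ℝ) : ℝ) : ℂ)).re = w.re + Y / √(n : ℝ) := by
      rw [Complex.add_re, Complex.ofReal_re]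
    exact hexp n n3 _ _ _ (by rw [wre]; linarith only [hre, n4, n4.1]) (by rw [wre]; linarith only [hre, n4, n4.2]) n1 n2
  have k := (k3.add k2).sub (k1.const_mul 2)
  rw [zero_add] at k
  have e : -(2 * ph w) + QX w ζ ζ' X X' Y = tww w ζ ζ' * ↑Y ^ 2 / 2 + tzz w ζ * ↑X ^ 2 / 2 +
      tzz w ζ' * ↑X' ^ 2 / 2 + (twz w ζ * ↑X + twz w ζ' * ↑X') * ↑Y - 2 * ph w := by
    unfold QX
    ring
  rw [e]
  refine k.congr fun n => ?_
  unfold EX
  ring

theorem rpow_three_half {n : ℕ} (hn : 0 < n) : ((n : ℝ) ^ (3 / 2 : ℝ)) = n * √(n : ℝ) := by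
  have hnp : (0 : ℝ) < n := by exact_mod_cast hn
  rw [show (3 / 2 : ℝ) = 1 + 1 / 2 by norm_num, Real.rpow_add hnp, Real.rpow_one, Real.sqrt_eq_rpow]

theorem MM_eq {n : ℕ} (hn : 0 < n) (w ζ ζ' : ℂ) (X X' : ℝ) :
    (((n : ℝ) ^ (3 / 2 : ℝ) : ℝ) : ℂ) *
      Complex.exp (-(n * tp w ζ ζ' + (√(n : ℝ) : ℝ) * (tz w ζ * X + tz w ζ' * X'))) *
      MM n w.im (ζ + ((X / √(n : ℝ) : ℝ) : ℂ)) (ζ' + ((X' / √(n : ℝ) : ℝ) : ℂ)) =
    ∫ Y : ℝ, (Set.Ioc (√(n : ℝ) * (1 / 8 - w.re)) (√(n : ℝ) * (3 / 8 - w.re))).indicator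
      (fun Y => Complex.exp (EX n w ζ ζ' X X' Y)) Y := by
  have hnp : (0 : ℝ) < n := by exact_mod_cast hn
  have hsp : 0 < √(n : ℝ) := by positivity
  have hss : √(n : ℝ) * √(n : ℝ) = n := Real.mul_self_sqrt hnp.le
  have h := intervalIntegral.integral_comp_div_add (a := √(n : ℝ) * (1 / 8 - w.re))
    (b := √(n : ℝ) * (3 / 8 - w.re)) (c := √(n : ℝ))
    (fun x : ℝ => Complex.exp (Tn n ((x : ℂ) + w.im * Complex.I) (ζ + ((X / √(n : ℝ) : ℝ) : ℂ))
      (ζ' + ((X' / √(n : ℝ) : ℝ) : ℂ)))) hsp.ne' w.re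
  rw [mul_div_cancel_left₀ _ hsp.ne', mul_div_cancel_left₀ _ hsp.ne', sub_add_cancel,
    sub_add_cancel] at h
  have hle : √(n : ℝ) * (1 / 8 - w.re) ≤ √(n : ℝ) * (3 / 8 - w.re) := by
    gcongr
    norm_num
  rw [integral_indicator measurableSet_Ioc, ← intervalIntegral.integral_of_le hle]
  have e : ∀ Y : ℝ, Complex.exp (EX n w ζ ζ' X X' Y) =
      Complex.exp (-(n * tp w ζ ζ' + (√(n : ℝ) : ℝ) * (tz w ζ * X + tz w ζ' * X'))) *
      Complex.exp (Tn n (((Y / √(n : ℝ) + w.re : ℝ) : ℂ) + w.im * Complex.I)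
        (ζ + ((X / √(n : ℝ) : ℝ) : ℂ)) (ζ' + ((X' / √(n : ℝ) : ℝ) : ℂ))) := by
    intro Y
    rw [← Complex.exp_add]
    congr 1
    unfold EX
    have : ((Y / √(n : ℝ) + w.re : ℝ) : ℂ) + w.im * Complex.I = w + ((Y / √(n : ℝ) : ℝ) : ℂ) := by
      apply Complex.ext
      · simp
        ring
      · simp
    rw [this]
    ring
  simp_rw [e]
  rw [intervalIntegral.integral_const_mul, h, Complex.real_smul, rpow_three_half hn]
  unfold MM
  push_cast
  have hnc : (n : ℂ) ≠ 0 := by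
    exact_mod_cast hn.ne'
  field_simp

theorem MM_lim : ∃ η : ℝ, 0 < η ∧ ∀ w ζ ζ' : ℂ, tw w ζ ζ' = 0 → ‖w - 1 / 4‖ ≤ η →
    ‖ζ‖ ≤ η → ‖ζ'‖ ≤ η → (tww w ζ ζ').re < 0 ∧ ∀ X X' : ℝ,
    Tendsto (fun n : ℕ => (((n : ℝ) ^ (3 / 2 : ℝ) : ℝ) : ℂ) *
      Complex.exp (-(n * tp w ζ ζ' + (√(n : ℝ) : ℝ) * (tz w ζ * X + tz w ζ' * X'))) *
      MM n w.im (ζ + ((X / √(n : ℝ) : ℝ) : ℂ)) (ζ' + ((X' / √(n : ℝ) : ℝ) : ℂ))) atTop
      (𝓝 (Complex.exp (-(2 * ph w)) * (Real.pi / -(tww w ζ ζ' / 2)) ^ (1 / 2 : ℂ) *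
        Complex.exp (tzz w ζ * X ^ 2 / 2 + tzz w ζ' * X' ^ 2 / 2 -
        (twz w ζ * X + twz w ζ' * X') ^ 2 / (2 * tww w ζ ζ')))) := by
  obtain ⟨η₁, c, C, hη₁, hη₁', hc, hdom⟩ := dom
  obtain ⟨η₂, hη₂, htww⟩ := tww_near
  refine ⟨min η₁ η₂, by positivity, ?_⟩
  intro w ζ ζ' hcrit h1 h2 h3
  have g1 : min η₁ η₂ ≤ η₁ := min_le_left _ _
  have g2 : min η₁ η₂ ≤ η₂ := min_le_right _ _
  have hneg := htww w ζ ζ' (h1.trans g2) (h2.trans g2) (h3.trans g2)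
  refine ⟨hneg, ?_⟩
  intro X X'
  have hre : |w.re - 1 / 4| ≤ 1 / 32 := by
    have := (Complex.abs_re_le_norm (w - 1 / 4)).trans (h1.trans (g1.trans hη₁'))
    simpa using this
  rw [abs_le] at hre
  -- the Gaussian integral
  have hG : ∫ Y : ℝ, Complex.exp (-(2 * ph w) + QX w ζ ζ' X X' Y) =
      Complex.exp (-(2 * ph w)) * (Real.pi / -(tww w ζ ζ' / 2)) ^ (1 / 2 : ℂ) *
        Complex.exp (tzz w ζ * X ^ 2 / 2 + tzz w ζ' * X' ^ 2 / 2 -
        (twz w ζ * X + twz w ζ' * X') ^ 2 / (2 * tww w ζ ζ')) := by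
    have hq := integral_cexp_quadratic (b := tww w ζ ζ' / 2) (by
      rw [Complex.div_ofNat_re]
      linarith only [hneg]) (twz w ζ * X + twz w ζ' * X')
      (-(2 * ph w) + (tzz w ζ * X ^ 2 / 2 + tzz w ζ' * X' ^ 2 / 2))
    have e1 : ∀ Y : ℝ, -(2 * ph w) + QX w ζ ζ' X X' Y = tww w ζ ζ' / 2 * (Y : ℂ) ^ 2 +
        (twz w ζ * X + twz w ζ' * X') * Y +
        (-(2 * ph w) + (tzz w ζ * X ^ 2 / 2 + tzz w ζ' * X' ^ 2 / 2)) := by
      intro Y
      unfold QX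
      ring
    simp_rw [e1]
    rw [hq]
    have e2 : -(2 * ph w) + (tzz w ζ * X ^ 2 / 2 + tzz w ζ' * X' ^ 2 / 2) -
        (twz w ζ * X + twz w ζ' * X') ^ 2 / (4 * (tww w ζ ζ' / 2)) =
        -(2 * ph w) + (tzz w ζ * X ^ 2 / 2 + tzz w ζ' * X' ^ 2 / 2 -
        (twz w ζ * X + twz w ζ' * X') ^ 2 / (2 * tww w ζ ζ')) := by
      rw [show 4 * (tww w ζ ζ' / 2) = 2 * tww w ζ ζ' by ring]
      ring
    rw [e2, Complex.exp_add]
    ring
  rw [← hG]
  -- dominated convergence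
  have hlim := tendsto_integral_filter_of_dominated_convergence (μ := volume) (l := atTop)
    (F := fun (n : ℕ) (Y : ℝ) =>
      (Set.Ioc (√(n : ℝ) * (1 / 8 - w.re)) (√(n : ℝ) * (3 / 8 - w.re))).indicator
      (fun Y => Complex.exp (EX n w ζ ζ' X X' Y)) Y)
    (f := fun Y : ℝ => Complex.exp (-(2 * ph w) + QX w ζ ζ' X X' Y))
    (fun Y => Real.exp C * Real.exp (-c * Y ^ 2)) ?_ ?_ ?_ ?_
  · refine hlim.congr' ?_
    filter_upwards [eventually_gt_atTop 0] with n hn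
    exact (MM_eq hn w ζ ζ' X X').symm
  · -- measurability
    filter_upwards [eventually_small (h2.trans (g1.trans hη₁')) X,
      eventually_small (h3.trans (g1.trans hη₁')) X', eventually_ge_atTop 8] with n n1 n2 n3
    rw [aestronglyMeasurable_indicator_iff measurableSet_Ioc]
    refine ContinuousOn.aestronglyMeasurable ?_ measurableSet_Ioc
    have hn0 : 0 < n := by omega
    have hnp : (0 : ℝ) < n := by exact_mod_cast hn0
    have hsp : 0 < √(n : ℝ) := by positivity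
    refine Complex.continuous_exp.comp_continuousOn ?_
    unfold EX
    refine ContinuousOn.sub ?_ continuousOn_const
    have hT := (Tn_continuousOn n3).comp (f := fun Y : ℝ => (w + ((Y / √(n : ℝ) : ℝ) : ℂ),
      ζ + ((X / √(n : ℝ) : ℝ) : ℂ), ζ' + ((X' / √(n : ℝ) : ℝ) : ℂ)))
      (s := Set.Ioc (√(n : ℝ) * (1 / 8 - w.re)) (√(n : ℝ) * (3 / 8 - w.re))) (by fun_prop) (by
        intro Y hY
        have hY1 : 1 / 8 < w.re + Y / √(n : ℝ) := by
          have := hY.1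
          rw [← sub_lt_iff_lt_add', lt_div_iff₀ hsp]
          linarith only [this]
        have hY2 : w.re + Y / √(n : ℝ) ≤ 3 / 8 := by
          have := hY.2
          rw [← le_sub_iff_add_le', div_le_iff₀ hsp]
          linarith only [this]
        have wre : (w + ((Y / √(n : ℝ) : ℝ) : ℂ)).re = w.re + Y / √(n : ℝ) := by
          rw [Complex.add_re, Complex.ofReal_re]
        refine ⟨?_, ?_, n1, n2⟩
        · simp only [wre]
          linarith only [hη₁, hη₁', hY1]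
        · simp only [wre]
          exact hY2)
    exact hT
  · -- the bound
    filter_upwards [hdom w ζ ζ' hcrit (h1.trans g1) (h2.trans g1) (h3.trans g1) X X',
      eventually_gt_atTop 0] with n hn hn0
    refine Eventually.of_forall fun Y => ?_
    have hnp : (0 : ℝ) < n := by exact_mod_cast hn0
    have hsp : 0 < √(n : ℝ) := by positivity
    by_cases hY : Y ∈ Set.Ioc (√(n : ℝ) * (1 / 8 - w.re)) (√(n : ℝ) * (3 / 8 - w.re))
    · rw [Set.indicator_of_mem hY]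
      have hY1 : 1 / 8 ≤ w.re + Y / √(n : ℝ) := by
        have := hY.1
        rw [← sub_le_iff_le_add', le_div_iff₀ hsp]
        linarith only [this]
      have hY2 : w.re + Y / √(n : ℝ) ≤ 3 / 8 := by
        have := hY.2
        rw [← le_sub_iff_add_le', div_le_iff₀ hsp]
        linarith only [this]
      have h4 := hn Y hY1 hY2
      rw [Complex.norm_exp, ← Real.exp_add]
      refine Real.exp_le_exp.mpr ?_
      unfold EX
      linarith only [h4]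
    · rw [Set.indicator_of_notMem hY, norm_zero]
      positivity
  · exact (integrable_exp_neg_mul_sq hc).const_mul _
  · -- pointwise convergence
    refine Eventually.of_forall fun Y => ?_
    have hE := (Complex.continuous_exp.tendsto _).comp (EX_lim hcrit (h1.trans (g1.trans hη₁'))
      (h2.trans (g1.trans hη₁')) (h3.trans (g1.trans hη₁')) X X' Y)
    refine hE.congr' ?_
    have a1 : ∀ᶠ n : ℕ in atTop, √(n : ℝ) * (1 / 8 - w.re) < Y := by
      have : Tendsto (fun n : ℕ => √(n : ℝ) * (1 / 8 - w.re)) atTop atBot :=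
        sqrt_tendsto.atTop_mul_const_of_neg (by linarith only [hη₁, hη₁', hre])
      exact this.eventually_lt_atBot Y
    have a2 : ∀ᶠ n : ℕ in atTop, Y ≤ √(n : ℝ) * (3 / 8 - w.re) := by
      have : Tendsto (fun n : ℕ => √(n : ℝ) * (3 / 8 - w.re)) atTop atTop :=
        sqrt_tendsto.atTop_mul_const (by linarith only [hη₁, hη₁', hre])
      exact this.eventually_ge_atTop Y
    filter_upwards [a1, a2] with n n1 n2
    have hm : Y ∈ Set.Ioc (√(n : ℝ) * (1 / 8 - w.re)) (√(n : ℝ) * (3 / 8 - w.re)) := ⟨n1, n2⟩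
    rw [Set.indicator_of_mem hm]
    rfl

theorem rpow_exp_tendsto {a K : ℝ} (ha : 0 < a) :
    Tendsto (fun n : ℕ => (n : ℝ) ^ (3 / 2 : ℝ) * Real.exp (√(n : ℝ) * K - a * n)) atTop (𝓝 0) := by
  have h1 : Tendsto (fun n : ℕ => (n : ℝ) ^ (3 / 2 : ℝ) * Real.exp (-(a / 2) * n)) atTop (𝓝 0) :=
    (tendsto_rpow_mul_exp_neg_mul_atTop_nhds_zero (3 / 2) (a / 2) (by positivity)).comp
      tendsto_natCast_atTop_atTop
  refine squeeze_zero' (Eventually.of_forall fun n => by positivity) ?_ h1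
  filter_upwards [sqrt_tendsto.eventually_ge_atTop (2 * K / a), eventually_gt_atTop 0] with n hn hn0
  have hnp : (0 : ℝ) < n := by exact_mod_cast hn0
  have hss : √(n : ℝ) * √(n : ℝ) = n := Real.mul_self_sqrt hnp.le
  gcongr
  rw [div_le_iff₀ ha] at hn
  have h2 : √(n : ℝ) * (2 * K) ≤ √(n : ℝ) * (√(n : ℝ) * a) := by gcongr
  have h3 : √(n : ℝ) * (√(n : ℝ) * a) = n * a := by
    rw [← mul_assoc, hss]
  linarith only [h2, h3]

/-- The limit of the kernel: a Gaussian in `X, X'` with a nonzero constant. -/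
theorem SS_lim : ∃ η : ℝ, 0 < η ∧ ∀ w ζ ζ' : ℂ, tw w ζ ζ' = 0 → ‖w - 1 / 4‖ ≤ η →
    ‖ζ‖ ≤ η → ‖ζ'‖ ≤ η → 0 < ζ.im → 0 < ζ'.im → tww w ζ ζ' ≠ 0 ∧ ∃ A : ℂ, A ≠ 0 ∧ ∀ X X' : ℝ,
    Tendsto (fun n : ℕ => (((n : ℝ) ^ (3 / 2 : ℝ) : ℝ) : ℂ) *
      Complex.exp (-(n * tp w ζ ζ' + √(n : ℝ) * (tz w ζ * X + tz w ζ' * X'))) *
      SS n (zt ζ.im (ζ.re + X / √(n : ℝ))) (zt ζ'.im (ζ'.re + X' / √(n : ℝ)))) atTop
      (𝓝 (A * Complex.exp (tzz w ζ * X ^ 2 / 2 + tzz w ζ' * X' ^ 2 / 2 -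
        (twz w ζ * X + twz w ζ' * X') ^ 2 / (2 * tww w ζ ζ')))) := by
  obtain ⟨κ, δ, c, C, N, hκ, hδ, hδ', hc, hC, hN, hnear⟩ := SS_near
  obtain ⟨η₁, hη₁, hMM⟩ := MM_lim
  obtain ⟨η₂, hη₂, hη₂', hcl⟩ := tp_near (ε := c / 2) (by positivity)
  refine ⟨min κ (min (δ / 2) (min η₁ η₂)), by positivity, ?_⟩
  intro w ζ ζ' hcrit h1 h2 h3 h4 h5
  set η := min κ (min (δ / 2) (min η₁ η₂)) with hη
  have g1 : η ≤ κ := min_le_left _ _
  have g2 : η ≤ δ / 2 := (min_le_right _ _).trans (min_le_left _ _)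
  have g3 : η ≤ η₁ := (min_le_right _ _).trans ((min_le_right _ _).trans (min_le_left _ _))
  have g4 : η ≤ η₂ := (min_le_right _ _).trans ((min_le_right _ _).trans (min_le_right _ _))
  obtain ⟨hneg, hlim⟩ := hMM w ζ ζ' hcrit (h1.trans g3) (h2.trans g3) (h3.trans g3)
  have hne : tww w ζ ζ' ≠ 0 := by
    intro h
    rw [h] at hneg
    simp at hneg
  refine ⟨hne, Complex.exp (-(2 * ph w)) * (Real.pi / -(tww w ζ ζ' / 2)) ^ (1 / 2 : ℂ), ?_, ?_⟩
  · refine mul_ne_zero (Complex.exp_ne_zero _) ?_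
    rw [Complex.cpow_ne_zero_iff]
    left
    refine div_ne_zero (by exact_mod_cast Real.pi_ne_zero) ?_
    exact neg_ne_zero.mpr (div_ne_zero hne two_ne_zero)
  intro X X'
  have him : |w.im| ≤ κ := by
    have := (Complex.abs_im_le_norm (w - 1 / 4)).trans (h1.trans g1)
    simpa using this
  have hts : ts - c / 2 ≤ (tp w ζ ζ').re := by
    have := (Complex.abs_re_le_norm _).trans (hcl w ζ ζ' (h1.trans g4) (h2.trans g4) (h3.trans g4))
    rw [Complex.sub_re, Complex.ofReal_re, abs_le] at this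
    linarith only [this, this.1]
  set K := |(tz w ζ * X + tz w ζ' * X').re| with hK
  -- the difference tends to zero
  have hdiff : Tendsto (fun n : ℕ => (((n : ℝ) ^ (3 / 2 : ℝ) : ℝ) : ℂ) *
      Complex.exp (-(n * tp w ζ ζ' + √(n : ℝ) * (tz w ζ * X + tz w ζ' * X'))) *
      (SS n (zt ζ.im (ζ.re + X / √(n : ℝ))) (zt ζ'.im (ζ'.re + X' / √(n : ℝ))) -
      MM n w.im (ζ + ((X / √(n : ℝ) : ℝ) : ℂ)) (ζ' + ((X' / √(n : ℝ) : ℝ) : ℂ)))) atTop (𝓝 0) := by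
    rw [tendsto_zero_iff_norm_tendsto_zero]
    have hz := (rpow_exp_tendsto (a := c / 2) (K := K) (by positivity)).const_mul C
    rw [mul_zero] at hz
    refine squeeze_zero' (Eventually.of_forall fun n => norm_nonneg _) ?_ hz
    have hX := (div_sqrt_tendsto_c X).norm
    have hX' := (div_sqrt_tendsto_c X').norm
    rw [norm_zero] at hX hX'
    have hre : |ζ.re| < 1 / 4 := by
      have := (Complex.abs_re_le_norm ζ).trans h2
      linarith only [hδ', g2, this]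
    have hre' : |ζ'.re| < 1 / 4 := by
      have := (Complex.abs_re_le_norm ζ').trans h3
      linarith only [hδ', g2, this]
    filter_upwards [hX.eventually_lt_const (show (0 : ℝ) < δ / 2 by positivity),
      hX'.eventually_lt_const (show (0 : ℝ) < δ / 2 by positivity), eventually_ge_atTop N,
      eventually_abs_le hre X, eventually_abs_le hre' X'] with n n1 n2 n3 n4 n5
    have hnp : (0 : ℝ) < n := by
      have : 0 < n := by omega
      exact_mod_cast this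
    rw [zt_eq n4.le, zt_eq n5.le, norm_mul, norm_mul, Complex.norm_real, Real.norm_eq_abs,
      abs_of_nonneg (by positivity), Complex.norm_exp]
    have b1 := hnear n n3 w.im him (ζ + ((X / √(n : ℝ) : ℝ) : ℂ)) (ζ' + ((X' / √(n : ℝ) : ℝ) : ℂ))
      ((norm_add_le _ _).trans (by linarith only [h2, g2, n1])) ((norm_add_le _ _).trans (by linarith only [h3, g2, n2]))
    have e1 : (-(n * tp w ζ ζ' + √(n : ℝ) * (tz w ζ * X + tz w ζ' * X')) : ℂ).re =
        -(n * (tp w ζ ζ').re + √(n : ℝ) * (tz w ζ * X + tz w ζ' * X').re) := by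
      simp
    rw [e1]
    have b2 : -(√(n : ℝ) * (tz w ζ * X + tz w ζ' * X').re) ≤ √(n : ℝ) * K := by
      rw [← mul_neg, hK]
      exact mul_le_mul_of_nonneg_left (neg_le_abs _) (Real.sqrt_nonneg _)
    have b3 : (n : ℝ) * (ts - c / 2) ≤ n * (tp w ζ ζ').re := by gcongr
    calc (n : ℝ) ^ (3 / 2 : ℝ) * Real.exp (-(n * (tp w ζ ζ').re +
          √(n : ℝ) * (tz w ζ * X + tz w ζ' * X').re)) * _ ≤
          (n : ℝ) ^ (3 / 2 : ℝ) * Real.exp (√(n : ℝ) * K - n * (ts - c / 2)) *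
          (C * Real.exp (n * (ts - c))) := by
          gcongr
          linarith only [b2, b3]
      _ = C * ((n : ℝ) ^ (3 / 2 : ℝ) * (Real.exp (√(n : ℝ) * K - n * (ts - c / 2)) *
          Real.exp (n * (ts - c)))) := by ring
      _ = C * ((n : ℝ) ^ (3 / 2 : ℝ) * Real.exp (√(n : ℝ) * K - c / 2 * n)) := by
          rw [← Real.exp_add]
          congr 3
          ring
  have := (hlim X X').add hdiff
  rw [add_zero] at this
  refine this.congr fun n => ?_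
  ring

end Pool.Agent.Work.MP_b30479_gt.LT
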