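import Pool.Agent.Work.MP_b30479_gt.LT.Conc

/-!
# Existence and uniqueness of the critical point for long twist regions
-/

namespace Pool.Agent.Work.MP_b30479_gt.LT

open Finset VOL AX MeasureTheory

/-- constants near the centre -/
lemma sadA_consts : ∃ R K : ℝ, 0 < R ∧ R ≤ 1 / 16 ∧ 0 ≤ K ∧
    (∀ w w₁ ζ ζ₁ : ℂ, ∀ d : ℝ, ‖w - 1 / 4‖ ≤ R → ‖w₁ - 1 / 4‖ ≤ R → ‖ζ‖ ≤ R → ‖ζ₁‖ ≤ R →
      ‖w - w₁‖ ≤ d → ‖ζ - ζ₁‖ ≤ d → ‖tz w ζ - tz w₁ ζ₁‖ ≤ K * d) ∧
    (∀ w w₁ ζ ζ₁ ζ' ζ'₁ : ℂ, ‖w - 1 / 4‖ ≤ R → ‖w₁ - 1 / 4‖ ≤ R → ‖ζ‖ ≤ R → ‖ζ₁‖ ≤ R →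
      ‖ζ'‖ ≤ R → ‖ζ'₁‖ ≤ R → ‖tw w ζ ζ' - tw w₁ ζ₁ ζ'₁ + 8 * Real.pi * (w - w₁)‖ ≤
      ‖w - w₁‖ + ‖ζ - ζ₁‖ + ‖ζ' - ζ'₁‖) ∧
    (∀ w ζ : ℂ, ‖w - 1 / 4‖ ≤ R → ‖ζ‖ ≤ R → ‖tz w ζ + 2 * Real.pi * ζ‖ ≤ ‖ζ‖) := by
  obtain ⟨r1, hr1, hr1', h1⟩ := tz_approx one_pos
  obtain ⟨r2, C, hr2, hr2', hC, h2⟩ := tz_approx_w
  obtain ⟨r3, hr3, hr3', h3⟩ := tw_approx one_pos
  have hpi := Real.pi_pos
  set R := min (min r1 r2) r3 with hR
  have R1 : R ≤ r1 := (min_le_left _ _).trans (min_le_left _ _)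
  have R2 : R ≤ r2 := (min_le_left _ _).trans (min_le_right _ _)
  have R3 : R ≤ r3 := min_le_right _ _
  refine ⟨R, 2 * Real.pi + 1 + C, by positivity, R1.trans hr1', by positivity, ?_, ?_, ?_⟩
  · intro w w₁ ζ ζ₁ d a1 a2 a3 a4 a5 a6
    have b1 := h1 w ζ ζ₁ (a1.trans R1) (a3.trans R1) (a4.trans R1)
    have b2 := h2 w w₁ ζ₁ (a1.trans R2) (a2.trans R2) (a4.trans R2)
    have hd : 0 ≤ d := (norm_nonneg _).trans a6
    have c1 : ‖tz w ζ - tz w ζ₁‖ ≤ (2 * Real.pi + 1) * d := by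
      have e : tz w ζ - tz w ζ₁ = (tz w ζ - tz w ζ₁ + 2 * Real.pi * (ζ - ζ₁)) -
        2 * Real.pi * (ζ - ζ₁) := by ring
      rw [e]
      refine (norm_sub_le _ _).trans ?_
      have e2 : ‖(2 * Real.pi * (ζ - ζ₁) : ℂ)‖ = 2 * Real.pi * ‖ζ - ζ₁‖ := by
        rw [norm_mul, norm_mul, Complex.norm_ofNat, Complex.norm_real,
          Real.norm_of_nonneg hpi.le]
      rw [e2]
      nlinarith only [a6, b1, hr1, hr1', hpi, norm_nonneg (ζ - ζ₁)]
    have c2 : ‖tz w ζ₁ - tz w₁ ζ₁‖ ≤ C * d := by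
      refine b2.trans ?_
      have h5 : ‖ζ₁‖ ≤ 1 := by linarith only [hr1, hr1', R1, a4]
      calc C * ‖ζ₁‖ * ‖w - w₁‖ ≤ C * 1 * d := by gcongr
        _ = C * d := by ring
    have e : tz w ζ - tz w₁ ζ₁ = (tz w ζ - tz w ζ₁) + (tz w ζ₁ - tz w₁ ζ₁) := by ring
    rw [e]
    refine (norm_add_le _ _).trans ?_
    linarith only [c1, c2]
  · intro w w₁ ζ ζ₁ ζ' ζ'₁ a1 a2 a3 a4 a5 a6
    have := h3 w w₁ ζ ζ₁ ζ' ζ'₁ (a1.trans R3) (a2.trans R3) (a3.trans R3) (a4.trans R3)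
      (a5.trans R3) (a6.trans R3)
    linarith only [this]
  · intro w ζ a1 a2
    have := h1 w ζ 0 (a1.trans R1) (a2.trans R1) (by rw [norm_zero]; exact hr1.le)
    have e : tz w 0 = 0 := by
      unfold tz
      simp
    rw [e] at this
    simpa using this

lemma sadA_sum {M : ℕ} {g : Fin M → Fin (M + 1)} (hg : Function.Injective g) (f : Fin M → ℂ)
    (i : Fin (M + 1)) {K : ℝ} (hK : 0 ≤ K) (hf : ∀ j, g j = i → ‖f j‖ ≤ K) :
    ‖∑ j, (if g j = i then f j else 0)‖ ≤ K := by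
  by_cases h : ∃ j0, g j0 = i
  · obtain ⟨j0, hj0⟩ := h
    have e : ∑ j, (if g j = i then f j else 0) = ∑ j, (if j = j0 then f j else 0) := by
      apply Finset.sum_congr rfl
      intro j _
      have : g j = i ↔ j = j0 := by
        rw [← hj0]
        exact hg.eq_iff
      simp only [this]
    rw [e, Finset.sum_ite_eq' univ j0 f]
    simp only [mem_univ, if_true]
    exact hf j0 hj0
  · have e : ∑ j, (if g j = i then f j else 0) = 0 := by
      apply Finset.sum_eq_zero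
      intro j _
      rw [if_neg]
      intro hj
      exact h ⟨j, hj⟩
    rw [e, norm_zero]
    exact hK

lemma sadA_dz_sub {M : ℕ} (y y' : Fin M → ℂ) (ζ ζ' : Fin (M + 1) → ℂ) (i : Fin (M + 1)) {K : ℝ}
    (hK : 0 ≤ K) (h : ∀ j, ‖tz (y j) (ζ i) - tz (y' j) (ζ' i)‖ ≤ K) :
    ‖dz y ζ i - dz y' ζ' i‖ ≤ 2 * K := by
  unfold dz
  have e : (∑ j : Fin M, ((if j.castSucc = i then tz (y j) (ζ i) else 0) +
      (if j.succ = i then tz (y j) (ζ i) else 0))) -
      (∑ j : Fin M, ((if j.castSucc = i then tz (y' j) (ζ' i) else 0) +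
      (if j.succ = i then tz (y' j) (ζ' i) else 0))) =
      (∑ j : Fin M, (if j.castSucc = i then tz (y j) (ζ i) - tz (y' j) (ζ' i) else 0)) +
      (∑ j : Fin M, (if j.succ = i then tz (y j) (ζ i) - tz (y' j) (ζ' i) else 0)) := by
    rw [← Finset.sum_sub_distrib, ← Finset.sum_add_distrib]
    apply Finset.sum_congr rfl
    intro j _
    split_ifs <;> ring
  rw [e]
  refine (norm_add_le _ _).trans ?_
  have h1 := sadA_sum (Fin.castSucc_injective M) (fun j => tz (y j) (ζ i) - tz (y' j) (ζ' i)) i hK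
    (fun j _ => h j)
  have h2 := sadA_sum (Fin.succ_injective M) (fun j => tz (y j) (ζ i) - tz (y' j) (ζ' i)) i hK
    (fun j _ => h j)
  linarith only [h1, h2]

/-- number of neighbours -/
noncomputable def nbr {M : ℕ} (i : Fin (M + 1)) : ℝ :=
  ∑ j : Fin M, ((if j.castSucc = i then (1 : ℝ) else 0) + (if j.succ = i then 1 else 0))

lemma nbr_ge {M : ℕ} (hM : 1 ≤ M) (i : Fin (M + 1)) : 1 ≤ nbr i := by
  unfold nbr
  rcases Nat.eq_zero_or_pos i.val with h | h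
  · have h1 : (⟨0, hM⟩ : Fin M).castSucc = i := by
      apply Fin.ext
      simp [h]
    refine le_trans ?_ (Finset.single_le_sum (f := fun j : Fin M =>
      ((if j.castSucc = i then (1 : ℝ) else 0) + (if j.succ = i then 1 else 0)))
      (fun j _ => by split_ifs <;> norm_num) (mem_univ (⟨0, hM⟩ : Fin M)))
    simp only [h1, if_true]
    split_ifs <;> norm_num
  · have hi : i.val - 1 < M := by
      have := i.isLt
      omega
    have h1 : (⟨i.val - 1, hi⟩ : Fin M).succ = i := by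
      apply Fin.ext
      simp
      omega
    refine le_trans ?_ (Finset.single_le_sum (f := fun j : Fin M =>
      ((if j.castSucc = i then (1 : ℝ) else 0) + (if j.succ = i then 1 else 0)))
      (fun j _ => by split_ifs <;> norm_num) (mem_univ (⟨i.val - 1, hi⟩ : Fin M)))
    simp only [h1, if_true]
    split_ifs <;> norm_num

lemma sadA_dz_lin {M : ℕ} (y : Fin M → ℂ) (ζ : Fin (M + 1) → ℂ) (i : Fin (M + 1))
    (h : ∀ j, ‖tz (y j) (ζ i) + 2 * Real.pi * ζ i‖ ≤ ‖ζ i‖) :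
    ‖dz y ζ i + 2 * Real.pi * nbr i * ζ i‖ ≤ 2 * ‖ζ i‖ := by
  unfold dz nbr
  have e : (∑ j : Fin M, ((if j.castSucc = i then tz (y j) (ζ i) else 0) +
      (if j.succ = i then tz (y j) (ζ i) else 0))) +
      2 * Real.pi * ((∑ j : Fin M, ((if j.castSucc = i then (1 : ℝ) else 0) +
        (if j.succ = i then 1 else 0)) : ℝ) : ℂ) * ζ i =
      (∑ j : Fin M, (if j.castSucc = i then tz (y j) (ζ i) + 2 * Real.pi * ζ i else 0)) +
      (∑ j : Fin M, (if j.succ = i then tz (y j) (ζ i) + 2 * Real.pi * ζ i else 0)) := by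
    rw [Complex.ofReal_sum, Finset.mul_sum, Finset.sum_mul, ← Finset.sum_add_distrib,
      ← Finset.sum_add_distrib]
    apply Finset.sum_congr rfl
    intro j _
    split_ifs <;> push_cast <;> ring
  rw [e]
  refine (norm_add_le _ _).trans ?_
  have h1 := sadA_sum (Fin.castSucc_injective M) (fun j => tz (y j) (ζ i) + 2 * Real.pi * ζ i) i
    (norm_nonneg (ζ i)) (fun j _ => h j)
  have h2 := sadA_sum (Fin.succ_injective M) (fun j => tz (y j) (ζ i) + 2 * Real.pi * ζ i) i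
    (norm_nonneg (ζ i)) (fun j _ => h j)
  linarith only [h1, h2]

/-- the polydisc -/
def pd (M : ℕ) (δ : ℝ) : Set ((Fin M → ℂ) × (Fin (M + 1) → ℂ)) :=
  {x | (∀ j, ‖x.1 j - 1 / 4‖ ≤ δ) ∧ ∀ i, ‖x.2 i‖ ≤ δ}

lemma isClosed_pd (M : ℕ) (δ : ℝ) : IsClosed (pd M δ) := by
  have h1 : IsClosed {x : (Fin M → ℂ) × (Fin (M + 1) → ℂ) | ∀ j, ‖x.1 j - 1 / 4‖ ≤ δ} := by
    have e : {x : (Fin M → ℂ) × (Fin (M + 1) → ℂ) | ∀ j, ‖x.1 j - 1 / 4‖ ≤ δ} =
        ⋂ j, {x | ‖x.1 j - 1 / 4‖ ≤ δ} := by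
      ext x
      simp
    rw [e]
    apply isClosed_iInter
    intro j
    exact isClosed_le (by fun_prop) continuous_const
  have h2 : IsClosed {x : (Fin M → ℂ) × (Fin (M + 1) → ℂ) | ∀ i, ‖x.2 i‖ ≤ δ} := by
    have e : {x : (Fin M → ℂ) × (Fin (M + 1) → ℂ) | ∀ i, ‖x.2 i‖ ≤ δ} =
        ⋂ i, {x | ‖x.2 i‖ ≤ δ} := by
      ext x
      simp
    rw [e]
    apply isClosed_iInter
    intro i
    exact isClosed_le (by fun_prop) continuous_const
  exact h1.inter h2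

/-- the contraction -/
noncomputable def ct {M : ℕ} (b : Fin (M + 1) → ℤ) (x : (Fin M → ℂ) × (Fin (M + 1) → ℂ)) :
    (Fin M → ℂ) × (Fin (M + 1) → ℂ) :=
  (fun j => x.1 j + tw (x.1 j) (x.2 j.castSucc) (x.2 j.succ) / (8 * Real.pi),
    fun i => -(1 + dz x.1 x.2 i / (2 * Real.pi * Complex.I)) / b i)

lemma ct_fixed_iff {M : ℕ} {b : Fin (M + 1) → ℤ} (hb : ∀ i, b i ≠ 0)
    (x : (Fin M → ℂ) × (Fin (M + 1) → ℂ)) : ct b x = x ↔ Crit b x.1 x.2 := by
  have hpic : (Real.pi : ℂ) ≠ 0 := by exact_mod_cast Real.pi_ne_zero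
  have hI := Complex.I_ne_zero
  have e1 : ∀ j, (ct b x).1 j = x.1 j ↔ tw (x.1 j) (x.2 j.castSucc) (x.2 j.succ) = 0 := by
    intro j
    have e : (ct b x).1 j = x.1 j + tw (x.1 j) (x.2 j.castSucc) (x.2 j.succ) / (8 * Real.pi) :=
      rfl
    rw [e, add_eq_left, div_eq_zero_iff]
    constructor
    · intro h
      exact h.resolve_right (by simp [hpic])
    · intro h
      exact Or.inl h
  have e2 : ∀ i, (ct b x).2 i = x.2 i ↔
      2 * Real.pi * Complex.I * (b i * x.2 i + 1) + dz x.1 x.2 i = 0 := by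
    intro i
    have hbi : (b i : ℂ) ≠ 0 := by exact_mod_cast hb i
    have e : (ct b x).2 i = -(1 + dz x.1 x.2 i / (2 * Real.pi * Complex.I)) / b i := rfl
    rw [e]
    constructor
    · intro h
      rw [← h]
      field_simp
      ring
    · intro h
      have h3 : dz x.1 x.2 i = -(2 * Real.pi * Complex.I * (b i * x.2 i + 1)) := by
        linear_combination h
      rw [h3]
      field_simp
      ring
  constructor
  · intro h
    exact ⟨fun j => (e1 j).mp (by rw [h]), fun i => (e2 i).mp (by rw [h])⟩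
  · intro h
    apply Prod.ext
    · funext j
      exact (e1 j).mpr (h.crit_y j)
    · funext i
      exact (e2 i).mpr (h.crit_z i)

lemma sadA_lip {R K : ℝ} (_ : 0 < R) (hK : 0 ≤ K)
    (h1 : ∀ w w₁ ζ ζ₁ : ℂ, ∀ d : ℝ, ‖w - 1 / 4‖ ≤ R → ‖w₁ - 1 / 4‖ ≤ R → ‖ζ‖ ≤ R → ‖ζ₁‖ ≤ R →
      ‖w - w₁‖ ≤ d → ‖ζ - ζ₁‖ ≤ d → ‖tz w ζ - tz w₁ ζ₁‖ ≤ K * d)
    (h2 : ∀ w w₁ ζ ζ₁ ζ' ζ'₁ : ℂ, ‖w - 1 / 4‖ ≤ R → ‖w₁ - 1 / 4‖ ≤ R → ‖ζ‖ ≤ R → ‖ζ₁‖ ≤ R →
      ‖ζ'‖ ≤ R → ‖ζ'₁‖ ≤ R → ‖tw w ζ ζ' - tw w₁ ζ₁ ζ'₁ + 8 * Real.pi * (w - w₁)‖ ≤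
      ‖w - w₁‖ + ‖ζ - ζ₁‖ + ‖ζ' - ζ'₁‖)
    {M : ℕ} {b : Fin (M + 1) → ℤ} (hb : ∀ i, 2 * K + 1 ≤ |(b i : ℝ)|)
    {x y : (Fin M → ℂ) × (Fin (M + 1) → ℂ)} (hx : x ∈ pd M R) (hy : y ∈ pd M R) :
    dist (ct b x) (ct b y) ≤ 1 / 2 * dist x y := by
  have hpi := Real.pi_gt_three
  have hpi0 := Real.pi_pos
  set d := dist x y with hd
  have hd0 : 0 ≤ d := dist_nonneg
  have g1 : ∀ j, ‖x.1 j - y.1 j‖ ≤ d := fun j => by
    rw [← dist_eq_norm]
    exact (dist_le_pi_dist x.1 y.1 j).trans (le_max_left _ _)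
  have g2 : ∀ i, ‖x.2 i - y.2 i‖ ≤ d := fun i => by
    rw [← dist_eq_norm]
    exact (dist_le_pi_dist x.2 y.2 i).trans (le_max_right _ _)
  rw [Prod.dist_eq]
  apply max_le
  · rw [dist_pi_le_iff (by positivity)]
    intro j
    rw [dist_eq_norm]
    have b1 := h2 (x.1 j) (y.1 j) (x.2 j.castSucc) (y.2 j.castSucc) (x.2 j.succ) (y.2 j.succ)
      (hx.1 j) (hy.1 j) (hx.2 _) (hy.2 _) (hx.2 _) (hy.2 _)
    have hpic : (Real.pi : ℂ) ≠ 0 := by exact_mod_cast Real.pi_ne_zero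
    have e : (ct b x).1 j - (ct b y).1 j = (tw (x.1 j) (x.2 j.castSucc) (x.2 j.succ) -
        tw (y.1 j) (y.2 j.castSucc) (y.2 j.succ) + 8 * Real.pi * (x.1 j - y.1 j)) /
        (8 * Real.pi) := by
      unfold ct
      simp only
      field_simp
      ring
    rw [e, norm_div]
    have e2 : ‖(8 * Real.pi : ℂ)‖ = 8 * Real.pi := by
      rw [norm_mul, Complex.norm_ofNat, Complex.norm_real, Real.norm_of_nonneg hpi0.le]
    rw [e2, div_le_iff₀ (by positivity)]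
    have k1 := g1 j
    have k2 := g2 j.castSucc
    have k3 := g2 j.succ
    nlinarith only [hd0, b1, k1, k2, k3, hpi]
  · rw [dist_pi_le_iff (by positivity)]
    intro i
    rw [dist_eq_norm]
    have k := sadA_dz_sub x.1 y.1 x.2 y.2 i (K := K * d) (by positivity) (fun j =>
      h1 _ _ _ _ d (hx.1 j) (hy.1 j) (hx.2 i) (hy.2 i) (g1 j) (g2 i))
    have hbi : 0 < |(b i : ℝ)| := lt_of_lt_of_le (by linarith only [hK]) (hb i)
    have hbr : (b i : ℝ) ≠ 0 := abs_pos.mp hbi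
    have hbc : (b i : ℂ) ≠ 0 := by exact_mod_cast hbr
    have hpic : (Real.pi : ℂ) ≠ 0 := by exact_mod_cast Real.pi_ne_zero
    have hI := Complex.I_ne_zero
    have e : (ct b x).2 i - (ct b y).2 i = -(dz x.1 x.2 i - dz y.1 y.2 i) /
        (2 * Real.pi * Complex.I * b i) := by
      unfold ct
      simp only
      field_simp
      ring
    have e2 : ‖(2 * Real.pi * Complex.I * b i : ℂ)‖ = 2 * Real.pi * |(b i : ℝ)| := by
      rw [norm_mul, norm_mul, norm_mul, Complex.norm_I, Complex.norm_ofNat, Complex.norm_real,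
        Real.norm_of_nonneg hpi0.le, mul_one, Complex.norm_intCast]
    rw [e, norm_div, norm_neg, e2, div_le_iff₀ (by positivity)]
    have hbi' := hb i
    have h5 : 2 * (K * d) ≤ 1 / 2 * d * (2 * Real.pi * (2 * K + 1)) := by
      have : 0 ≤ K * d := by positivity
      nlinarith only [hd0, this, hpi]
    have h6 : 1 / 2 * d * (2 * Real.pi * (2 * K + 1)) ≤
        1 / 2 * d * (2 * Real.pi * |(b i : ℝ)|) := by gcongr
    linarith only [k, h5, h6]

lemma pd_mono {M : ℕ} {δ R : ℝ} (h : δ ≤ R) : pd M δ ⊆ pd M R := fun _ hx =>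
  ⟨fun j => (hx.1 j).trans h, fun i => (hx.2 i).trans h⟩

lemma center_pd (M : ℕ) {δ : ℝ} (hδ : 0 ≤ δ) :
    ((fun _ => 1 / 4, fun _ => 0) : (Fin M → ℂ) × (Fin (M + 1) → ℂ)) ∈ pd M δ := by
  refine ⟨fun j => ?_, fun i => ?_⟩
  · simpa using hδ
  · simpa using hδ

lemma sadA_abs {A : ℕ} {b : ℤ} (h : (A : ℤ) ≤ |b|) : (A : ℝ) ≤ |(b : ℝ)| := by
  have h2 : ((A : ℤ) : ℝ) ≤ ((|b| : ℤ) : ℝ) := by exact_mod_cast h
  rw [Int.cast_abs] at h2
  simpa using h2

/-- smallness of `b_i Im ζ_i` at a critical point near the centre -/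
theorem crit_small {ε : ℝ} (hε : 0 < ε) : ∃ η : ℝ, 0 < η ∧ ∀ (M : ℕ) (b : Fin (M + 1) → ℤ)
    (y : Fin M → ℂ) (ζ : Fin (M + 1) → ℂ), Crit b y ζ → (∀ j, ‖y j - 1 / 4‖ ≤ η) →
    (∀ i, ‖ζ i‖ ≤ η) → ∀ i, |(b i : ℝ) * (ζ i).im| ≤ ε ∧ ‖(b i : ℂ) * ζ i + 1‖ ≤ ε := by
  obtain ⟨R, K, hR, hR', hK, h1, _, h3⟩ := sadA_consts
  have hpi := Real.pi_gt_three
  have hpi0 := Real.pi_pos
  refine ⟨min R (ε / (K + 1)), by positivity, fun M b y ζ hc hy hζ i => ?_⟩
  have hηR : min R (ε / (K + 1)) ≤ R := min_le_left _ _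
  have hηε : min R (ε / (K + 1)) ≤ ε / (K + 1) := min_le_right _ _
  have hzi := hζ i
  have hd0 : ‖dz y ζ i - dz y (fun _ => 0) i‖ ≤ 2 * (K * ‖ζ i‖) := by
    apply sadA_dz_sub y y ζ (fun _ => 0) i (by positivity)
    intro j
    apply h1
    · exact (hy j).trans hηR
    · exact (hy j).trans hηR
    · exact hzi.trans hηR
    · rw [norm_zero]
      exact hR.le
    · simp
    · simp
  have hz0 : dz y (fun _ => 0) i = 0 := by
    unfold dz
    apply Finset.sum_eq_zero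
    intro j _
    have : tz (y j) 0 = 0 := by
      unfold tz
      simp
    simp [this]
  rw [hz0, sub_zero] at hd0
  have hcz := hc.crit_z i
  have e1 : 2 * Real.pi * Complex.I * ((b i : ℂ) * ζ i + 1) = -dz y ζ i := by
    linear_combination hcz
  have e2 : 2 * Real.pi * ‖(b i : ℂ) * ζ i + 1‖ = ‖dz y ζ i‖ := by
    have := congrArg norm e1
    rw [norm_neg, norm_mul, norm_mul, norm_mul, Complex.norm_I, Complex.norm_ofNat,
      Complex.norm_real, Real.norm_of_nonneg hpi0.le, mul_one] at this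
    exact this
  have h4 : ‖(b i : ℂ) * ζ i + 1‖ ≤ ε := by
    have h5 : K * ‖ζ i‖ ≤ ε := by
      have h6 : ‖ζ i‖ ≤ ε / (K + 1) := hzi.trans hηε
      calc K * ‖ζ i‖ ≤ (K + 1) * (ε / (K + 1)) := by
            apply mul_le_mul (by linarith only [hR, hR']) h6 (norm_nonneg _) (by positivity)
        _ = ε := by field_simp
    have h7 := norm_nonneg ((b i : ℂ) * ζ i + 1)
    nlinarith only [hd0, e2, h5, hε, hR, hR', h7, hpi]
  refine ⟨?_, h4⟩
  have e3 : ((b i : ℂ) * ζ i + 1).im = (b i : ℝ) * (ζ i).im := by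
    simp
  rw [← e3]
  exact (Complex.abs_im_le_norm _).trans h4

theorem exists_crit {η : ℝ} (hη : 0 < η) : ∃ A : ℕ, ∀ (M : ℕ) (b : Fin (M + 1) → ℤ), 1 ≤ M →
    (∀ i, (A : ℤ) ≤ |b i|) → ∃ (y : Fin M → ℂ) (ζ : Fin (M + 1) → ℂ), Crit b y ζ ∧
      (∀ j, ‖y j - 1 / 4‖ ≤ η) ∧ (∀ i, ‖ζ i‖ ≤ η) ∧ (∀ i, 0 < (ζ i).im) := by
  obtain ⟨R, K, hR, hR', hK, h1, h2, h3⟩ := sadA_consts
  obtain ⟨η₁, hη₁, hcs⟩ := crit_small (ε := 1 / 4) (by norm_num)
  have hpi := Real.pi_gt_three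
  have hpi0 := Real.pi_pos
  set δ := min (min R η) (min η₁ (1 / 16)) with hδd
  have hδ : 0 < δ := by positivity
  have δR : δ ≤ R := (min_le_left _ _).trans (min_le_left _ _)
  have δη : δ ≤ η := (min_le_left _ _).trans (min_le_right _ _)
  have δη₁ : δ ≤ η₁ := (min_le_right _ _).trans (min_le_left _ _)
  obtain ⟨A, hA⟩ := exists_nat_ge (max (max (2 * K + 1) ((1 + K) / δ)) 6)
  refine ⟨A, fun M b hM hb => ?_⟩
  have hbr : ∀ i, (A : ℝ) ≤ |(b i : ℝ)| := fun i => sadA_abs (hb i)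
  have hb1 : ∀ i, 2 * K + 1 ≤ |(b i : ℝ)| := fun i =>
    (((le_max_left _ _).trans (le_max_left _ _)).trans hA).trans (hbr i)
  have hb2 : ∀ i, (1 + K) / δ ≤ |(b i : ℝ)| := fun i =>
    (((le_max_right _ _).trans (le_max_left _ _)).trans hA).trans (hbr i)
  have hb3 : ∀ i, 6 ≤ |(b i : ℝ)| := fun i =>
    ((le_max_right _ _).trans hA).trans (hbr i)
  have hb0 : ∀ i, b i ≠ 0 := by
    intro i h0
    have := hb3 i
    rw [h0] at this
    norm_num at this
  -- the contraction maps the polydisc to itself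
  have hlip : ∀ x ∈ pd M δ, ∀ y ∈ pd M δ, dist (ct b x) (ct b y) ≤ 1 / 2 * dist x y :=
    fun x hx y hy => sadA_lip hR hK h1 h2 hb1 (pd_mono δR hx) (pd_mono δR hy)
  have hmaps : Set.MapsTo (ct b) (pd M δ) (pd M δ) := by
    intro x hx
    refine ⟨fun j => ?_, fun i => ?_⟩
    · have h4 := hlip x hx _ (center_pd M hδ.le)
      have h5 : ‖(ct b x).1 j - (ct b (fun _ => 1 / 4, fun _ => 0)).1 j‖ ≤
          dist (ct b x) (ct b (fun _ => 1 / 4, fun _ => 0)) := by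
        rw [← dist_eq_norm]
        exact (dist_le_pi_dist (ct b x).1 _ j).trans (le_max_left _ _)
      have h6 : (ct b (fun _ => 1 / 4, fun _ => 0)).1 j = 1 / 4 := by
        unfold ct
        simp only
        rw [tw_center]
        simp
      rw [h6] at h5
      have h7 : dist x ((fun _ => 1 / 4, fun _ => 0) : (Fin M → ℂ) × (Fin (M + 1) → ℂ)) ≤ δ := by
        rw [Prod.dist_eq]
        apply max_le
        · rw [dist_pi_le_iff hδ.le]
          intro j
          rw [dist_eq_norm]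
          exact hx.1 j
        · rw [dist_pi_le_iff hδ.le]
          intro i
          rw [dist_eq_norm, sub_zero]
          exact hx.2 i
      linarith only [hδ, h4, h5, h7]
    · have hd0 : ‖dz x.1 x.2 i - dz x.1 (fun _ => 0) i‖ ≤ 2 * (K * 1) := by
        apply sadA_dz_sub x.1 x.1 x.2 (fun _ => 0) i (by positivity)
        intro j
        apply h1
        · exact (hx.1 j).trans δR
        · exact (hx.1 j).trans δR
        · exact (hx.2 i).trans δR
        · rw [norm_zero]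
          exact hR.le
        · simp
        · rw [sub_zero]
          have := (hx.2 i).trans δR
          linarith only [hR, hR', this]
      have hz0 : dz x.1 (fun _ => 0) i = 0 := by
        unfold dz
        apply Finset.sum_eq_zero
        intro j _
        have : tz (x.1 j) 0 = 0 := by
          unfold tz
          simp
        simp [this]
      rw [hz0, sub_zero] at hd0
      have e : (ct b x).2 i = -(1 + dz x.1 x.2 i / (2 * Real.pi * Complex.I)) / b i := rfl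
      have hbi : 0 < |(b i : ℝ)| := lt_of_lt_of_le (by norm_num) (hb3 i)
      have e2 : ‖(2 * Real.pi * Complex.I : ℂ)‖ = 2 * Real.pi := by
        rw [norm_mul, norm_mul, Complex.norm_I, Complex.norm_ofNat, Complex.norm_real,
          Real.norm_of_nonneg hpi0.le, mul_one]
      rw [e, norm_div, norm_neg, Complex.norm_intCast, div_le_iff₀ hbi]
      have h4 : ‖1 + dz x.1 x.2 i / (2 * Real.pi * Complex.I)‖ ≤ 1 + K := by
        refine (norm_add_le _ _).trans ?_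
        rw [norm_one, norm_div, e2]
        have h5 : ‖dz x.1 x.2 i‖ / (2 * Real.pi) ≤ K := by
          rw [div_le_iff₀ (by positivity)]
          nlinarith only [hK, hd0, hR, hR', hpi]
        linarith only [h5]
      have h5 := hb2 i
      rw [div_le_iff₀ hδ] at h5
      linarith only [h4, h5]
  have hc : IsComplete (pd M δ) := (isClosed_pd M δ).isComplete
  have hk : ContractingWith (1 / 2) (hmaps.restrict (ct b) (pd M δ) (pd M δ)) := by
    refine ⟨by norm_num, ?_⟩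
    apply LipschitzWith.of_dist_le_mul
    intro x y
    have h1 := hlip x x.2 y y.2
    have e : (((1 / 2 : NNReal)) : ℝ) = 1 / 2 := by norm_num
    rw [e]
    exact h1
  obtain ⟨x, hx, hf, _⟩ := hk.exists_fixedPoint' hc hmaps (center_pd M hδ.le) (edist_ne_top _ _)
  have hcrit : Crit b x.1 x.2 := (ct_fixed_iff hb0 x).mp hf
  refine ⟨x.1, x.2, hcrit, fun j => (hx.1 j).trans δη, fun i => (hx.2 i).trans δη, fun i => ?_⟩
  -- positivity of the imaginary parts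
  obtain ⟨s1, s2⟩ := hcs M b x.1 x.2 hcrit (fun j => (hx.1 j).trans δη₁)
    (fun i => (hx.2 i).trans δη₁) i
  have hlin := sadA_dz_lin x.1 x.2 i (fun j => h3 _ _ ((hx.1 j).trans δR) ((hx.2 i).trans δR))
  have hn := nbr_ge hM i
  set z := x.2 i with hz
  set B : ℝ := (b i : ℝ) with hB
  have hcz := hcrit.crit_z i
  set E : ℂ := dz x.1 x.2 i + 2 * Real.pi * nbr i * z with hE
  have e1 : 2 * Real.pi * Complex.I * ((b i : ℂ) * z + 1) = 2 * Real.pi * nbr i * z - E := by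
    rw [hE]
    linear_combination hcz
  have e2 : -(2 * Real.pi * (B * z.im)) = 2 * Real.pi * nbr i * z.re - E.re := by
    have h5 := congrArg Complex.re e1
    have l1 : (2 * Real.pi * Complex.I * ((b i : ℂ) * z + 1)).re = -(2 * Real.pi * (B * z.im)) := by
      have : (2 * Real.pi * Complex.I * ((b i : ℂ) * z + 1)) =
          ((2 * Real.pi : ℝ) : ℂ) * (Complex.I * (((B : ℝ) : ℂ) * z + 1)) := by
        rw [hB]
        push_cast
        ring
      rw [this, Complex.re_ofReal_mul, Complex.I_mul_re]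
      simp
    have l2 : (2 * Real.pi * (nbr i : ℂ) * z - E).re = 2 * Real.pi * nbr i * z.re - E.re := by
      have : (2 * Real.pi * (nbr i : ℂ) * z) = ((2 * Real.pi * nbr i : ℝ) : ℂ) * z := by
        push_cast
        ring
      rw [Complex.sub_re, this, Complex.re_ofReal_mul]
    rw [l1, l2] at h5
    exact h5
  have hEr : |E.re| ≤ 2 * ‖z‖ := (Complex.abs_re_le_norm _).trans hlin
  -- real part of `b z`
  have s3 : |B * z.re + 1| ≤ 1 / 4 := by
    have h5 : ((b i : ℂ) * z + 1).re = B * z.re + 1 := by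
      simp [hB]
    rw [← h5]
    exact (Complex.abs_re_le_norm _).trans s2
  rw [abs_le] at s1 s3 hEr
  have hzn : ‖z‖ ≤ |z.re| + |z.im| := Complex.norm_le_abs_re_add_abs_im z
  have hB6 := hb3 i
  rw [← hB] at hB6
  -- the two signs of `b`
  rcases le_total 0 B with hs | hs
  · rw [abs_of_nonneg hs] at hB6
    have hre : z.re < 0 := by
      by_contra hcon
      push Not at hcon
      nlinarith only [hR', s3, hcon, hR, hB6, s3.2]
    rw [abs_of_neg hre] at hzn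
    -- |im| ≤ |re| / 2
    have him : |z.im| ≤ -z.re / 2 := by
      have h6 : |B * z.im| ≤ 1 / 4 := abs_le.mpr s1
      rw [abs_mul, abs_of_nonneg hs] at h6
      have h7 : 3 / 4 ≤ B * (-z.re) := by linarith only [s3, s3.2]
      have h8 : B * |z.im| ≤ B * (-z.re / 2) := by linarith only [hR, hR', s3, h6]
      exact le_of_mul_le_mul_left h8 (by linarith only [hR, hR', hB6])
    have h9 : 2 * Real.pi * (B * z.im) ≥ 2 * Real.pi * (-z.re) - 3 * (-z.re) := by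
      have h10 : 2 * Real.pi * nbr i * z.re ≤ 2 * Real.pi * z.re := by
        have : 2 * Real.pi * (nbr i - 1) * z.re ≤ 0 :=
          mul_nonpos_of_nonneg_of_nonpos (by
            have : 0 ≤ nbr i - 1 := by linarith only [hn]
            positivity) hre.le
        linarith only [this]
      linarith only [e2, hEr, hzn, him, h10, hEr.1]
    have h11 : 0 < B * z.im := by
      have : 0 < (2 * Real.pi - 3) * (-z.re) := mul_pos (by linarith only [hR, hR', hpi]) (by linarith only [hre])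
      nlinarith only [h9, hR, hre, hR', hpi]
    by_contra hcon
    push Not at hcon
    have h12 := mul_nonpos_of_nonneg_of_nonpos hs hcon
    linarith only [h11, h12]
  · rw [abs_of_nonpos hs] at hB6
    have hre : 0 < z.re := by
      by_contra hcon
      push Not at hcon
      nlinarith only [hR', s3, hcon, hR, hB6, s3.2]
    rw [abs_of_pos hre] at hzn
    have him : |z.im| ≤ z.re / 2 := by
      have h6 : |B * z.im| ≤ 1 / 4 := abs_le.mpr s1
      rw [abs_mul, abs_of_nonpos hs] at h6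
      have h7 : 3 / 4 ≤ (-B) * z.re := by linarith only [s3, s3.2]
      have h8 : (-B) * |z.im| ≤ (-B) * (z.re / 2) := by linarith only [hR, hR', s3, h6]
      exact le_of_mul_le_mul_left h8 (by linarith only [hR, hR', hB6])
    have h9 : 2 * Real.pi * ((-B) * z.im) ≥ 2 * Real.pi * z.re - 3 * z.re := by
      have h10 : 2 * Real.pi * z.re ≤ 2 * Real.pi * nbr i * z.re := by
        have : 0 ≤ 2 * Real.pi * (nbr i - 1) * z.re :=
          mul_nonneg (by
            have : 0 ≤ nbr i - 1 := by linarith only [hn]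
            positivity) hre.le
        linarith only [this]
      linarith only [e2, hEr, hzn, him, h10, hEr.2]
    have h11 : 0 < (-B) * z.im := by
      have : 0 < (2 * Real.pi - 3) * z.re := mul_pos (by linarith only [hR, hR', hpi]) hre
      nlinarith only [h9, hR, hre, hR', hpi]
    by_contra hcon
    push Not at hcon
    have h12 := mul_nonpos_of_nonneg_of_nonpos (by linarith only [hR, hR', hB6] : 0 ≤ -B) hcon
    linarith only [h11, h12]

theorem unique_crit : ∃ η : ℝ, 0 < η ∧ ∃ A : ℕ, ∀ (M : ℕ) (b : Fin (M + 1) → ℤ),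
    (∀ i, (A : ℤ) ≤ |b i|) → ∀ (y y' : Fin M → ℂ) (ζ ζ' : Fin (M + 1) → ℂ),
    Crit b y ζ → Crit b y' ζ' → (∀ j, ‖y j - 1 / 4‖ ≤ η) → (∀ j, ‖y' j - 1 / 4‖ ≤ η) →
    (∀ i, ‖ζ i‖ ≤ η) → (∀ i, ‖ζ' i‖ ≤ η) → y = y' ∧ ζ = ζ' := by
  obtain ⟨R, K, hR, hR', hK, h1, h2, h3⟩ := sadA_consts
  obtain ⟨A, hA⟩ := exists_nat_ge (2 * K + 1)
  refine ⟨R, hR, A, fun M b hb y y' ζ ζ' c c' a1 a2 a3 a4 => ?_⟩
  have hb1 : ∀ i, 2 * K + 1 ≤ |(b i : ℝ)| := fun i => hA.trans (sadA_abs (hb i))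
  have hb0 : ∀ i, b i ≠ 0 := by
    intro i h0
    have := hb1 i
    rw [h0] at this
    norm_num at this
    linarith only [hR, hR', hK, this]
  have h := sadA_lip hR hK h1 h2 hb1 (x := (y, ζ)) (y := (y', ζ')) ⟨a1, a3⟩ ⟨a2, a4⟩
  rw [(ct_fixed_iff hb0 (y, ζ)).mpr c, (ct_fixed_iff hb0 (y', ζ')).mpr c'] at h
  have h4 : dist (y, ζ) (y', ζ') ≤ 0 := by linarith only [h]
  have h5 := dist_le_zero.mp h4
  exact ⟨congrArg Prod.fst h5, congrArg Prod.snd h5⟩

end Pool.Agent.Work.MP_b30479_gt.LT
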