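import Pool.Agent.Work.MP_b30479_gt.LT.Blk
import Pool.Agent.Work.MP_b30479_gt.LT.Lim
import Pool.Agent.Work.MP_b30479_gt.LT.Sad
import Pool.Agent.Work.MP_b30479_gt.VC.LapN

/-!
# Asymptotics of the integral over the cube
-/

namespace Pool.Agent.Work.MP_b30479_gt.LT

open Finset VOL AX MeasureTheory Filter Topology

/-! ### measurability -/

theorem continuous_th : Continuous th := by
  unfold th
  fun_prop

theorem continuous_zt (ρ : ℝ) : Continuous (zt ρ) := by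
  unfold zt
  have := continuous_th
  fun_prop

theorem measurable_dzt (ρ : ℝ) : Measurable (dzt ρ) := by
  have h1 : MeasurableSet {σ : ℝ | |σ| < 1 / 4} :=
    (isOpen_lt continuous_abs continuous_const).measurableSet
  have h2 : MeasurableSet {σ : ℝ | 0 < σ} := measurableSet_Ioi
  have h3 : Measurable fun σ : ℝ => (if |σ| < 1 / 4 then (0 : ℝ) else if 0 < σ then -4 else 4) :=
    Measurable.ite h1 measurable_const (Measurable.ite h2 measurable_const measurable_const)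
  unfold dzt
  exact ((Complex.measurable_ofReal.comp (h3.const_mul ρ)).mul_const _).const_add _

theorem measurable_EE (n : ℕ) (b : ℤ) (ρ : ℝ) : Measurable (EE n b ρ) := by
  have h1 := continuous_zt ρ
  have h2 : Continuous fun σ => Complex.exp (Real.pi * Complex.I * b * n * zt ρ σ ^ 2) *
      Complex.sin (2 * Real.pi * zt ρ σ) := by fun_prop
  have h3 : Continuous fun σ => Complex.sin (Real.pi * n * zt ρ σ) ^ 2 := by fun_prop
  exact (h2.measurable.div h3.measurable).mul (measurable_dzt ρ)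

theorem continuous_PP (n y : ℕ) : Continuous (PP n y) := by
  unfold PP
  fun_prop

theorem continuous_SS (n : ℕ) : Continuous fun p : ℂ × ℂ => SS n p.1 p.2 := by
  unfold SS term
  have h := continuous_PP n
  refine continuous_finset_sum _ fun y _ => ?_
  have h1 : Continuous fun p : ℂ × ℂ => PP n y p.1 := (h y).comp continuous_fst
  have h2 : Continuous fun p : ℂ × ℂ => PP n y p.2 := (h y).comp continuous_snd
  exact (h1.mul h2).div_const _

theorem measurable_SS (n : ℕ) : Measurable fun p : ℂ × ℂ => SS n p.1 p.2 :=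
  (continuous_SS n).measurable

theorem measurable_SS2 (n : ℕ) {M : ℕ} (ρ : Fin (M + 1) → ℝ) (j : Fin M) :
    Measurable fun σ : Fin (M + 1) → ℝ =>
      SS n (zt (ρ j.castSucc) (σ j.castSucc)) (zt (ρ j.succ) (σ j.succ)) := by
  have h1 : Measurable fun σ : Fin (M + 1) → ℝ =>
      (zt (ρ j.castSucc) (σ j.castSucc), zt (ρ j.succ) (σ j.succ)) :=
    Measurable.prodMk ((continuous_zt _).measurable.comp (measurable_pi_apply _))
      ((continuous_zt _).measurable.comp (measurable_pi_apply _))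
  have h3 := (measurable_SS n).comp h1
  exact h3

/-- the integrand on the cube -/
noncomputable def ig (n : ℕ) {M : ℕ} (b : Fin (M + 1) → ℤ) (ρ : Fin (M + 1) → ℝ)
    (σ : Fin (M + 1) → ℝ) : ℂ :=
  (∏ i, EE n (b i) (ρ i) (σ i)) *
    ∏ j : Fin M, SS n (zt (ρ j.castSucc) (σ j.castSucc)) (zt (ρ j.succ) (σ j.succ))

theorem measurable_ig (n : ℕ) {M : ℕ} (b : Fin (M + 1) → ℤ) (ρ : Fin (M + 1) → ℝ) :
    Measurable (ig n b ρ) := by
  unfold ig
  refine Measurable.mul ?_ ?_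
  · refine Finset.measurable_prod _ fun i _ => ?_
    exact (measurable_EE n (b i) (ρ i)).comp (measurable_pi_apply i)
  · refine Finset.measurable_prod _ fun j _ => ?_
    exact measurable_SS2 n ρ j

/-! ### the cube -/

theorem measurableSet_box (M : ℕ) : MeasurableSet (box M) :=
  MeasurableSet.univ_pi fun _ => measurableSet_Icc

theorem box_mem_nhds {M : ℕ} {x : Fin (M + 1) → ℝ} (h : ∀ i, |x i| < 1 / 2) : box M ∈ 𝓝 x := by
  refine set_pi_mem_nhds Set.finite_univ fun i _ => ?_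
  have := abs_lt.mp (h i)
  exact Icc_mem_nhds this.1 this.2

/-! ### sums -/

theorem sum_dz {M : ℕ} (y : Fin M → ℂ) (ζ f : Fin (M + 1) → ℂ) :
    ∑ i, dz y ζ i * f i = ∑ j : Fin M, (tz (y j) (ζ j.castSucc) * f j.castSucc +
      tz (y j) (ζ j.succ) * f j.succ) := by
  unfold dz
  simp_rw [Finset.sum_mul]
  rw [Finset.sum_comm]
  refine Finset.sum_congr rfl fun j _ => ?_
  simp_rw [add_mul]
  rw [Finset.sum_add_distrib]
  congr 1
  · rw [Finset.sum_eq_single j.castSucc]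
    · simp
    · intro i _ hi
      rw [if_neg (Ne.symm hi), zero_mul]
    · intro h
      exact absurd (Finset.mem_univ _) h
  · rw [Finset.sum_eq_single j.succ]
    · simp
    · intro i _ hi
      rw [if_neg (Ne.symm hi), zero_mul]
    · intro h
      exact absurd (Finset.mem_univ _) h

theorem sum_le_sum_pairs {M : ℕ} (hM : 1 ≤ M) {f : Fin (M + 1) → ℝ} (hf : ∀ i, 0 ≤ f i) :
    ∑ i, f i ≤ ∑ j : Fin M, (f j.castSucc + f j.succ) := by
  obtain ⟨m, rfl⟩ : ∃ m, M = m + 1 := ⟨M - 1, by omega⟩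
  rw [Fin.sum_univ_castSucc, Finset.sum_add_distrib]
  refine add_le_add le_rfl ?_
  have h := Finset.single_le_sum (f := fun j : Fin (m + 1) => f j.succ)
    (fun j _ => hf _) (Finset.mem_univ (Fin.last m))
  simpa using h

/-! ### the theorem -/

/-- the exponent of the limit -/
noncomputable def Qf {M : ℕ} (b : Fin (M + 1) → ℤ) (y : Fin M → ℂ) (ζ : Fin (M + 1) → ℂ)
    (X : Fin (M + 1) → ℝ) : ℂ :=
  ∑ i, Real.pi * Complex.I * b i * (X i : ℂ) ^ 2 +
    ∑ j : Fin M, (tzz (y j) (ζ j.castSucc) * (X j.castSucc : ℂ) ^ 2 / 2 +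
      tzz (y j) (ζ j.succ) * (X j.succ : ℂ) ^ 2 / 2 -
      (twz (y j) (ζ j.castSucc) * X j.castSucc + twz (y j) (ζ j.succ) * X j.succ) ^ 2 /
        (2 * tww (y j) (ζ j.castSucc) (ζ j.succ)))

theorem isQ_Qf {M : ℕ} (b : Fin (M + 1) → ℤ) (y : Fin M → ℂ) (ζ : Fin (M + 1) → ℂ) :
    VC.IsQ (Qf b y ζ) := by
  unfold Qf
  refine VC.IsQ.add ?_ ?_
  · exact VC.IsQ.sum _ fun i _ => (VC.IsQ.apply_sq i).const_mul _
  · refine VC.IsQ.sum _ fun j _ => VC.IsQ.sub (VC.IsQ.add ?_ ?_) ?_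
    · have := (VC.IsQ.apply_sq (ι := Fin (M + 1)) j.castSucc).const_mul
        (tzz (y j) (ζ j.castSucc) / 2)
      refine cast (congrArg VC.IsQ (funext fun X => ?_)) this
      ring
    · have := (VC.IsQ.apply_sq (ι := Fin (M + 1)) j.succ).const_mul (tzz (y j) (ζ j.succ) / 2)
      refine cast (congrArg VC.IsQ (funext fun X => ?_)) this
      ring
    · have := (VC.IsQ.lin_sq (ι := Fin (M + 1)) j.castSucc j.succ (twz (y j) (ζ j.castSucc))
        (twz (y j) (ζ j.succ))).const_mul (2 * tww (y j) (ζ j.castSucc) (ζ j.succ))⁻¹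
      refine cast (congrArg VC.IsQ (funext fun X => ?_)) this
      rw [div_eq_inv_mul]

/-- the linear terms cancel at a critical point -/
theorem lin_zero {M : ℕ} {b : Fin (M + 1) → ℤ} {y : Fin M → ℂ} {ζ : Fin (M + 1) → ℂ}
    (h : Crit b y ζ) (f : Fin (M + 1) → ℂ) :
    ∑ i, 2 * Real.pi * Complex.I * (b i * ζ i + 1) * f i +
      ∑ j : Fin M, (tz (y j) (ζ j.castSucc) * f j.castSucc +
        tz (y j) (ζ j.succ) * f j.succ) = 0 := by
  rw [← sum_dz, ← Finset.sum_add_distrib]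
  refine Finset.sum_eq_zero fun i _ => ?_
  rw [← add_mul, h.crit_z i, zero_mul]

theorem re_wt (b : ℤ) (ζ : ℂ) : (Real.pi * Complex.I * b * ζ ^ 2 + 2 * Real.pi * Complex.I * ζ).re =
    -(2 * Real.pi * ζ.im * (1 + b * ζ.re)) := by
  have h : (Real.pi * Complex.I * b * ζ ^ 2 + 2 * Real.pi * Complex.I * ζ) =
      ((Real.pi * b : ℝ) : ℂ) * (Complex.I * ζ ^ 2) + ((2 * Real.pi : ℝ) : ℂ) * (Complex.I * ζ) := by
    push_cast
    ring
  rw [h, Complex.add_re, Complex.re_ofReal_mul, Complex.re_ofReal_mul, Complex.I_mul_re,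
    Complex.I_mul_re, pow_two, Complex.mul_im]
  ring

theorem re_lin (b : ℤ) (ζ : ℂ) (t : ℝ) : (2 * Real.pi * Complex.I * (b * ζ + 1) * (t : ℂ)).re =
    -(2 * Real.pi * ζ.im * (b * t)) := by
  have h : (2 * Real.pi * Complex.I * (b * ζ + 1) * (t : ℂ)) =
      ((2 * Real.pi * t : ℝ) : ℂ) * (Complex.I * (((b : ℝ) : ℂ) * ζ + 1)) := by
    push_cast
    ring
  rw [h, Complex.re_ofReal_mul, Complex.I_mul_re, Complex.add_im, Complex.im_ofReal_mul,
    Complex.one_im]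
  ring

/-- the tangent planes add up to the critical value -/
theorem re_sum {M : ℕ} {b : Fin (M + 1) → ℤ} {y : Fin M → ℂ} {ζ : Fin (M + 1) → ℂ}
    (h : Crit b y ζ) (σ : Fin (M + 1) → ℝ) :
    ∑ i, -(2 * Real.pi * (ζ i).im * (1 + b i * σ i)) +
      ∑ j : Fin M, ((tp (y j) (ζ j.castSucc) (ζ j.succ)).re +
        (tz (y j) (ζ j.castSucc)).re * (σ j.castSucc - (ζ j.castSucc).re) +
        (tz (y j) (ζ j.succ)).re * (σ j.succ - (ζ j.succ).re)) = (TT b y ζ).re := by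
  have h1 := congrArg Complex.re (lin_zero h fun i => ((σ i - (ζ i).re : ℝ) : ℂ))
  rw [Complex.add_re, Complex.re_sum, Complex.re_sum, Complex.zero_re] at h1
  rw [TT, Complex.add_re, Complex.re_sum, Complex.re_sum]
  have h2 : ∀ i, -(2 * Real.pi * (ζ i).im * (1 + b i * σ i)) =
      (Real.pi * Complex.I * b i * ζ i ^ 2 + 2 * Real.pi * Complex.I * ζ i).re +
        (2 * Real.pi * Complex.I * (b i * ζ i + 1) * ((σ i - (ζ i).re : ℝ) : ℂ)).re := by
    intro i
    rw [re_wt, re_lin]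
    ring
  have h3 : ∀ j : Fin M, (tp (y j) (ζ j.castSucc) (ζ j.succ)).re +
        (tz (y j) (ζ j.castSucc)).re * (σ j.castSucc - (ζ j.castSucc).re) +
        (tz (y j) (ζ j.succ)).re * (σ j.succ - (ζ j.succ).re) =
      (tp (y j) (ζ j.castSucc) (ζ j.succ)).re +
      (tz (y j) (ζ j.castSucc) * ((σ j.castSucc - (ζ j.castSucc).re : ℝ) : ℂ) +
        tz (y j) (ζ j.succ) * ((σ j.succ - (ζ j.succ).re : ℝ) : ℂ)).re := by
    intro j
    rw [Complex.add_re, Complex.re_mul_ofReal, Complex.re_mul_ofReal]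
    ring
  simp_rw [h2, h3]
  rw [Finset.sum_add_distrib, Finset.sum_add_distrib]
  linarith

/-- Gaussian domination of the integrand -/
theorem ig_bound : ∃ η c : ℝ, 0 < η ∧ 0 < c ∧ ∀ (M : ℕ) (b : Fin (M + 1) → ℤ) (y : Fin M → ℂ)
    (ζ : Fin (M + 1) → ℂ), 1 ≤ M → Crit b y ζ → (∀ j, ‖y j - 1 / 4‖ ≤ η) → (∀ i, ‖ζ i‖ ≤ η) →
    (∀ i, 0 < (ζ i).im) → ∃ (C : ℝ) (N : ℕ), 0 ≤ C ∧ ∀ n : ℕ, N ≤ n → Odd n → ∀ σ ∈ box M,
    ‖ig n b (fun i => (ζ i).im) σ‖ ≤ C * ((n : ℝ) ^ (-(3 / 2) : ℝ)) ^ M *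
      Real.exp (n * ((TT b y ζ).re - c * ∑ i, (σ i - (ζ i).re) ^ 2)) := by
  obtain ⟨ηS, cS, hηS, hcS, hS⟩ := SS_bound
  obtain ⟨ηE, ε, hηE, hε, hE⟩ := EE_bound (c := cS / 2) (by positivity)
  obtain ⟨ηK, hηK, hK⟩ := crit_small hε
  refine ⟨min ηS (min ηE ηK), cS / 2, lt_min hηS (lt_min hηE hηK), by positivity, ?_⟩
  intro M b y ζ hM hcr hy hζ him
  have l1 : min ηS (min ηE ηK) ≤ ηS := min_le_left _ _
  have l2 : min ηS (min ηE ηK) ≤ ηE := (min_le_right _ _).trans (min_le_left _ _)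
  have l3 : min ηS (min ηE ηK) ≤ ηK := (min_le_right _ _).trans (min_le_right _ _)
  have hsm := hK M b y ζ hcr (fun j => (hy j).trans l3) (fun i => (hζ i).trans l3)
  choose CE NE hCE hE' using fun i => hE (b i) (ζ i) (him i) ((hζ i).trans l2) (hsm i).1
  choose CS NS hCS hS' using fun j : Fin M => hS (y j) (ζ j.castSucc) (ζ j.succ) (hcr.crit_y j)
    ((hy j).trans l1) ((hζ _).trans l1) ((hζ _).trans l1) (him _) (him _)
  refine ⟨(∏ i, CE i) * ∏ j, CS j, (Finset.univ.sup NE) ⊔ (Finset.univ.sup NS),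
    mul_nonneg (Finset.prod_nonneg fun i _ => hCE i) (Finset.prod_nonneg fun j _ => hCS j),
    fun n hn hodd σ hσ => ?_⟩
  have hσ' : ∀ i, |σ i| ≤ 1 / 2 := fun i => abs_le.mpr (hσ i (Set.mem_univ i))
  have hnE : ∀ i, NE i ≤ n := fun i =>
    (Finset.le_sup (Finset.mem_univ i)).trans (le_sup_left.trans hn)
  have hnS : ∀ j, NS j ≤ n := fun j =>
    (Finset.le_sup (Finset.mem_univ j)).trans (le_sup_right.trans hn)
  rw [ig, norm_mul, norm_prod, norm_prod]
  have p1 := Finset.prod_le_prod (s := Finset.univ) (fun i _ => norm_nonneg _)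
    (fun i _ => hE' i n (hnE i) hodd (σ i) (hσ' i))
  have p2 := Finset.prod_le_prod (s := Finset.univ) (fun j _ => norm_nonneg _)
    (fun j _ => hS' j n (hnS j) (σ j.castSucc) (σ j.succ) (hσ' _) (hσ' _))
  refine (mul_le_mul p1 p2 (Finset.prod_nonneg fun j _ => norm_nonneg _)
    (Finset.prod_nonneg fun i _ => mul_nonneg (hCE i) (Real.exp_pos _).le)).trans ?_
  rw [Finset.prod_mul_distrib, Finset.prod_mul_distrib, Finset.prod_mul_distrib,
    ← Real.exp_sum, ← Real.exp_sum, Finset.prod_const, Finset.card_univ, Fintype.card_fin,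
    ← Finset.mul_sum, ← Finset.mul_sum]
  have hA : 0 ≤ (∏ i, CE i) * (∏ j, CS j) * ((n : ℝ) ^ (-(3 / 2) : ℝ)) ^ M :=
    mul_nonneg (mul_nonneg (Finset.prod_nonneg fun i _ => hCE i)
      (Finset.prod_nonneg fun j _ => hCS j)) (pow_nonneg (Real.rpow_nonneg (Nat.cast_nonneg n) _) _)
  have hex : ∀ (P Q R u v : ℝ), P * Real.exp u * (Q * R * Real.exp v) =
      P * Q * R * Real.exp (u + v) := fun P Q R u v => by rw [Real.exp_add]; ring
  rw [hex, ← mul_add]
  refine mul_le_mul_of_nonneg_left (Real.exp_le_exp.mpr ?_) hA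
  refine mul_le_mul_of_nonneg_left ?_ (Nat.cast_nonneg n)
  have h1 := re_sum hcr σ
  have h2 := sum_le_sum_pairs hM (f := fun i => (σ i - (ζ i).re) ^ 2) (fun i => sq_nonneg _)
  rw [Finset.sum_add_distrib, Finset.sum_sub_distrib, ← Finset.mul_sum, ← Finset.mul_sum]
  nlinarith [h1, h2]

theorem prod_mul_exp {κ : Type*} (s : Finset κ) (f g : κ → ℂ) :
    ∏ i ∈ s, f i * Complex.exp (g i) = (∏ i ∈ s, f i) * Complex.exp (∑ i ∈ s, g i) := by
  rw [Finset.prod_mul_distrib, Complex.exp_sum]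

/-- pointwise limit of the integrand -/
theorem ig_lim : ∃ η : ℝ, 0 < η ∧ ∀ (M : ℕ) (b : Fin (M + 1) → ℤ) (y : Fin M → ℂ)
    (ζ : Fin (M + 1) → ℂ), Crit b y ζ → (∀ j, ‖y j - 1 / 4‖ ≤ η) → (∀ i, ‖ζ i‖ ≤ η) →
    (∀ i, 0 < (ζ i).im) → ∃ K : ℂ, K ≠ 0 ∧ ∀ X : Fin (M + 1) → ℝ,
    Tendsto (fun n : ℕ => (((n : ℝ) ^ (3 / 2 : ℝ) : ℝ) : ℂ) ^ M *
      Complex.exp (-(n * TT b y ζ)) *
      ig n b (fun i => (ζ i).im) (fun i => (ζ i).re + X i / √(n : ℝ))) atTop
      (𝓝 (K * Complex.exp (Qf b y ζ X))) := by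
  obtain ⟨η, hη, h⟩ := SS_lim
  refine ⟨min η (1 / 8), lt_min hη (by norm_num), ?_⟩
  intro M b y ζ hcr hy hζ him
  have l1 : min η (1 / 8) ≤ η := min_le_left _ _
  have l2 : min η (1 / 8) ≤ 1 / 8 := min_le_right _ _
  have h' := fun j : Fin M => h (y j) (ζ j.castSucc) (ζ j.succ) (hcr.crit_y j)
    ((hy j).trans l1) ((hζ _).trans l1) ((hζ _).trans l1) (him _) (him _)
  choose hww A hA hAX using h'
  have hre : ∀ i, |(ζ i).re| < 1 / 4 := fun i =>
    ((Complex.abs_re_le_norm _).trans ((hζ i).trans l2)).trans_lt (by norm_num)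
  refine ⟨(∏ i, (-4 * Complex.sin (2 * Real.pi * ζ i))) * ∏ j, A j, ?_, fun X => ?_⟩
  · refine mul_ne_zero (Finset.prod_ne_zero_iff.mpr fun i _ => ?_)
      (Finset.prod_ne_zero_iff.mpr fun j _ => hA j)
    refine mul_ne_zero (by norm_num) fun h0 => ?_
    obtain ⟨k, hk⟩ := Complex.sin_eq_zero_iff.mp h0
    have h1 := congrArg Complex.im hk
    have h2 : (2 * (Real.pi : ℂ) * ζ i).im = 2 * Real.pi * (ζ i).im := by
      rw [show (2 * (Real.pi : ℂ) * ζ i) = ((2 * Real.pi : ℝ) : ℂ) * ζ i by push_cast; ring,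
        Complex.im_ofReal_mul]
    have h3 : ((k : ℂ) * (Real.pi : ℂ)).im = 0 := by
      rw [show ((k : ℂ) * (Real.pi : ℂ)) = ((k * Real.pi : ℝ) : ℂ) by push_cast; ring,
        Complex.ofReal_im]
    rw [h2, h3] at h1
    have := him i
    have : 0 < 2 * Real.pi * (ζ i).im := by positivity
    linarith
  · have t1 := tendsto_finset_prod (Finset.univ : Finset (Fin (M + 1)))
      fun i _ => EE_lim (b := b i) (him i) (hre i) (X i)
    have t2 := tendsto_finset_prod (Finset.univ : Finset (Fin M))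
      fun j _ => hAX j (X j.castSucc) (X j.succ)
    have t3 := t1.mul t2
    have e1 : (∏ i, (-4 * Complex.sin (2 * Real.pi * ζ i) *
          Complex.exp (Real.pi * Complex.I * b i * (X i : ℂ) ^ 2))) *
        ∏ j : Fin M, (A j * Complex.exp (tzz (y j) (ζ j.castSucc) * (X j.castSucc : ℂ) ^ 2 / 2 +
          tzz (y j) (ζ j.succ) * (X j.succ : ℂ) ^ 2 / 2 -
          (twz (y j) (ζ j.castSucc) * X j.castSucc + twz (y j) (ζ j.succ) * X j.succ) ^ 2 /
            (2 * tww (y j) (ζ j.castSucc) (ζ j.succ)))) =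
        (∏ i, (-4 * Complex.sin (2 * Real.pi * ζ i))) * (∏ j, A j) *
          Complex.exp (Qf b y ζ X) := by
      rw [prod_mul_exp, prod_mul_exp, Qf, Complex.exp_add]
      ring
    rw [e1] at t3
    refine t3.congr fun n => ?_
    rw [Finset.prod_mul_distrib, Finset.prod_mul_distrib, Finset.prod_mul_distrib,
      Finset.prod_const, Finset.card_univ, Fintype.card_fin, ← Complex.exp_sum, ← Complex.exp_sum,
      ig]
    have e2 : Complex.exp (-(n * TT b y ζ)) =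
        Complex.exp (∑ i, -(n * (Real.pi * Complex.I * b i * ζ i ^ 2 +
          2 * Real.pi * Complex.I * ζ i) +
          ((√(n : ℝ) : ℝ) : ℂ) * (2 * Real.pi * Complex.I * (b i * ζ i + 1)) * X i)) *
        Complex.exp (∑ j : Fin M, -(n * tp (y j) (ζ j.castSucc) (ζ j.succ) +
          ((√(n : ℝ) : ℝ) : ℂ) * (tz (y j) (ζ j.castSucc) * X j.castSucc +
            tz (y j) (ζ j.succ) * X j.succ))) := by
      rw [← Complex.exp_add]
      congr 1
      have h1 := lin_zero hcr fun i => (X i : ℂ)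
      have h2 : ∑ i, -(n * (Real.pi * Complex.I * b i * ζ i ^ 2 +
          2 * Real.pi * Complex.I * ζ i) +
          ((√(n : ℝ) : ℝ) : ℂ) * (2 * Real.pi * Complex.I * (b i * ζ i + 1)) * X i) =
          -(n * ∑ i, (Real.pi * Complex.I * b i * ζ i ^ 2 + 2 * Real.pi * Complex.I * ζ i)) -
          ((√(n : ℝ) : ℝ) : ℂ) * ∑ i, 2 * Real.pi * Complex.I * (b i * ζ i + 1) * X i := by
        rw [Finset.mul_sum, Finset.mul_sum, ← Finset.sum_neg_distrib, ← Finset.sum_sub_distrib]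
        exact Finset.sum_congr rfl fun i _ => by ring
      have h3 : ∑ j : Fin M, -(n * tp (y j) (ζ j.castSucc) (ζ j.succ) +
          ((√(n : ℝ) : ℝ) : ℂ) * (tz (y j) (ζ j.castSucc) * X j.castSucc +
            tz (y j) (ζ j.succ) * X j.succ)) =
          -(n * ∑ j : Fin M, tp (y j) (ζ j.castSucc) (ζ j.succ)) -
          ((√(n : ℝ) : ℝ) : ℂ) * ∑ j : Fin M, (tz (y j) (ζ j.castSucc) * X j.castSucc +
            tz (y j) (ζ j.succ) * X j.succ) := by
        rw [Finset.mul_sum, Finset.mul_sum, ← Finset.sum_neg_distrib, ← Finset.sum_sub_distrib]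
        exact Finset.sum_congr rfl fun i _ => by ring
      rw [h2, h3, TT]
      linear_combination ((√(n : ℝ) : ℝ) : ℂ) * h1
    rw [e2]
    ring

theorem core : ∃ η : ℝ, 0 < η ∧ ∀ (M : ℕ) (b : Fin (M + 1) → ℤ) (y : Fin M → ℂ)
    (ζ : Fin (M + 1) → ℂ), 1 ≤ M → Crit b y ζ → (∀ j, ‖y j - 1 / 4‖ ≤ η) → (∀ i, ‖ζ i‖ ≤ η) →
    (∀ i, 0 < (ζ i).im) → ∃ L : ℂ, L ≠ 0 ∧
    Tendsto (fun s : ℕ => ((((2 * s + 1 : ℕ) : ℝ) ^ (2 * (M : ℝ) + 1 / 2) : ℝ) : ℂ) *
      Complex.exp (-(((2 * s + 1 : ℕ) : ℂ) * TT b y ζ)) *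
      II (2 * s + 1) b (fun i => (ζ i).im)) atTop (𝓝 L) := by
  obtain ⟨η1, c, hη1, hc, hB⟩ := ig_bound
  obtain ⟨η2, hη2, hL⟩ := ig_lim
  refine ⟨min η1 (min η2 (1 / 8)), lt_min hη1 (lt_min hη2 (by norm_num)), ?_⟩
  intro M b y ζ hM hcr hy hζ him
  have l1 : min η1 (min η2 (1 / 8)) ≤ η1 := min_le_left _ _
  have l2 : min η1 (min η2 (1 / 8)) ≤ η2 := (min_le_right _ _).trans (min_le_left _ _)
  have l3 : min η1 (min η2 (1 / 8)) ≤ 1 / 8 := (min_le_right _ _).trans (min_le_right _ _)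
  obtain ⟨C, N, hC, hB'⟩ := hB M b y ζ hM hcr (fun j => (hy j).trans l1)
    (fun i => (hζ i).trans l1) him
  obtain ⟨K, hK, hL'⟩ := hL M b y ζ hcr (fun j => (hy j).trans l2)
    (fun i => (hζ i).trans l2) him
  have hx : box M ∈ 𝓝 (fun i => (ζ i).re) := box_mem_nhds fun i =>
    ((Complex.abs_re_le_norm _).trans ((hζ i).trans l3)).trans_lt (by norm_num)
  have hodd : Tendsto (fun s : ℕ => 2 * s + 1) atTop atTop :=
    tendsto_atTop_mono (fun s => by simp only [id]; omega) tendsto_id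
  have hν : Tendsto (fun s : ℕ => ((2 * s + 1 : ℕ) : ℝ)) atTop atTop :=
    tendsto_natCast_atTop_atTop.comp hodd
  set F : ℕ → (Fin (M + 1) → ℝ) → ℂ := fun s x =>
    ((((2 * s + 1 : ℕ) : ℝ) ^ (3 / 2 : ℝ) : ℝ) : ℂ) ^ M *
      Complex.exp (-(((2 * s + 1 : ℕ) : ℂ) * TT b y ζ)) *
      ig (2 * s + 1) b (fun i => (ζ i).im) x with hF
  have hb : ∀ᶠ s in atTop, ∀ x ∈ box M, ‖F s x‖ ≤
      C * Real.exp (-(((2 * s + 1 : ℕ) : ℝ) * (c * ∑ i, (x i - (ζ i).re) ^ 2))) := by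
    filter_upwards [hodd.eventually_ge_atTop N] with s hs x hx'
    have h1 := hB' (2 * s + 1) hs ⟨s, rfl⟩ x hx'
    have hn0 : (0 : ℝ) < ((2 * s + 1 : ℕ) : ℝ) := by positivity
    rw [hF]
    simp only
    rw [norm_mul, norm_mul, norm_pow, Complex.norm_real, Complex.norm_exp, Real.norm_eq_abs,
      abs_of_nonneg (Real.rpow_nonneg hn0.le _)]
    refine (mul_le_mul_of_nonneg_left h1 (by positivity)).trans (le_of_eq ?_)
    have h2 : ((2 * s + 1 : ℕ) : ℝ) ^ (3 / 2 : ℝ) * ((2 * s + 1 : ℕ) : ℝ) ^ (-(3 / 2) : ℝ) = 1 := by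
      rw [← Real.rpow_add hn0]
      norm_num
    have h3 : (-(((2 * s + 1 : ℕ) : ℂ) * TT b y ζ)).re =
        -(((2 * s + 1 : ℕ) : ℝ) * (TT b y ζ).re) := by
      rw [Complex.neg_re, ← Complex.ofReal_natCast, Complex.re_ofReal_mul]
    rw [h3]
    have h4 : ∀ P Q R u v : ℝ, P ^ M * Real.exp u * (R * Q ^ M * Real.exp v) =
        R * (P * Q) ^ M * Real.exp (u + v) := fun P Q R u v => by
      rw [Real.exp_add, mul_pow]; ring
    rw [h4, h2, one_pow, mul_one]
    congr 2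
    ring
  have hG : ∀ X : Fin (M + 1) → ℝ, Tendsto (fun s => F s (fun i => (ζ i).re + X i /
      √(((2 * s + 1 : ℕ) : ℝ)))) atTop (𝓝 (K * Complex.exp (Qf b y ζ X))) := fun X =>
    (hL' X).comp hodd
  have hlap := VC.laplace_nd (measurableSet_box M) hx hν (F := F)
    (fun s => (measurable_ig _ _ _).const_mul _) hc hb hG
  have hbd := VC.laplace_nd_bound hx hν (F := F) hb hG
  refine ⟨∫ X, K * Complex.exp (Qf b y ζ X), ?_, ?_⟩
  · rw [integral_const_mul]
    refine mul_ne_zero hK ((isQ_Qf b y ζ).integral_ne_zero (C := C / ‖K‖) hc fun X => ?_)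
    have h1 := hbd X
    rw [norm_mul, Complex.norm_exp] at h1
    have hK0 : 0 < ‖K‖ := norm_pos_iff.mpr hK
    rw [div_mul_eq_mul_div, le_div_iff₀ hK0, mul_comm]
    exact h1
  · refine hlap.congr fun s => ?_
    have hn0 : (0 : ℝ) < ((2 * s + 1 : ℕ) : ℝ) := by positivity
    rw [hF]
    simp only
    rw [integral_const_mul, ← mul_assoc, ← mul_assoc, Fintype.card_fin]
    congr 2
    rw [← Complex.ofReal_pow, ← Complex.ofReal_mul]
    congr 1
    rw [← Real.rpow_natCast, ← Real.rpow_mul hn0.le, ← Real.rpow_add hn0]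
    congr 1
    push_cast
    ring

end Pool.Agent.Work.MP_b30479_gt.LT
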