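import Mathlib

/-!
# The cube of the continuous variables
-/

namespace Pool.Agent.Work.MP_b30479_gt.LT

open Filter Topology

/-- the cube -/
def cube (V : Type*) : Set (V → ℝ) := Set.univ.pi fun _ => Set.Icc (-(1 / 2)) (1 / 2)

theorem measurableSet_cube {V : Type*} [Finite V] : MeasurableSet (cube V) :=
  MeasurableSet.univ_pi fun _ => measurableSet_Icc

theorem cube_mem_nhds {V : Type*} [Finite V] {x : V → ℝ} (h : ∀ i, |x i| < 1 / 2) :
    cube V ∈ 𝓝 x := by
  refine set_pi_mem_nhds Set.finite_univ fun i _ => ?_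
  have := abs_lt.mp (h i)
  exact Icc_mem_nhds this.1 this.2

end Pool.Agent.Work.MP_b30479_gt.LT
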