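import Pool.Agent.Work.MP_b30479_gt.LT.Core
import Pool.Agent.Work.MP_b30479_gt.LT.Cube

/-!
# Asymptotics of the integral over the cube: general graphs, general paths, total domination as
hypothesis
-/

namespace Pool.Agent.Work.MP_b30479_gt.LT

open Finset VOL AX MeasureTheory Filter Topology

/-! ### the weight at a complex point -/

/-- the weight at a complex point -/
noncomputable def Ec (n : ℕ) (b : ℤ) (z : ℂ) : ℂ :=
  Complex.exp (Real.pi * Complex.I * b * n * z ^ 2) * Complex.sin (2 * Real.pi * z) /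
    Complex.sin (Real.pi * n * z) ^ 2

theorem EE_eq (n : ℕ) (b : ℤ) (ρ σ : ℝ) : EE n b ρ σ = Ec n b (zt ρ σ) * dzt ρ σ := rfl

theorem measurable_Ec (n : ℕ) (b : ℤ) : Measurable (Ec n b) := by
  have h2 : Continuous fun z : ℂ => Complex.exp (Real.pi * Complex.I * b * n * z ^ 2) *
      Complex.sin (2 * Real.pi * z) := by fun_prop
  have h3 : Continuous fun z : ℂ => Complex.sin (Real.pi * n * z) ^ 2 := by fun_prop
  exact h2.measurable.div h3.measurable

theorem div_sqrt_tendsto_cc (Z : ℂ) :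
    Tendsto (fun n : ℕ => Z / ((√(n : ℝ) : ℝ) : ℂ)) atTop (𝓝 0) := by
  have h := (div_sqrt_tendsto_c 1).const_mul Z
  rw [mul_zero] at h
  refine h.congr fun n => ?_
  push_cast
  ring

theorem Ec_lim {b : ℤ} {ζ : ℂ} (h0 : 0 < ζ.im) (Z : ℂ) :
    Tendsto (fun n : ℕ => Complex.exp (-(n * (Real.pi * Complex.I * b * ζ ^ 2 +
        2 * Real.pi * Complex.I * ζ) + (√(n : ℝ) : ℝ) * (2 * Real.pi * Complex.I * (b * ζ + 1)) * Z)) *
      Ec n b (ζ + Z / ((√(n : ℝ) : ℝ) : ℂ))) atTop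
      (𝓝 (-4 * Complex.sin (2 * Real.pi * ζ) * Complex.exp (Real.pi * Complex.I * b * Z ^ 2))) := by
  have hz : Tendsto (fun n : ℕ => ζ + Z / ((√(n : ℝ) : ℝ) : ℂ)) atTop (𝓝 ζ) := by
    simpa using (div_sqrt_tendsto_cc Z).const_add ζ
  have hs : Tendsto (fun n : ℕ => Complex.sin (2 * Real.pi * (ζ + Z / ((√(n : ℝ) : ℝ) : ℂ)))) atTop
      (𝓝 (Complex.sin (2 * Real.pi * ζ))) := by
    have : Continuous fun z : ℂ => Complex.sin (2 * Real.pi * z) := by fun_prop
    exact (this.tendsto ζ).comp hz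
  have hev : ∀ᶠ n : ℕ in atTop, ζ.im / 2 < (ζ + Z / ((√(n : ℝ) : ℝ) : ℂ)).im := by
    have h1 := (Complex.continuous_im.tendsto ζ).comp hz
    exact h1.eventually_const_lt (by linarith)
  have hq : Tendsto (fun n : ℕ => Complex.exp (2 * Real.pi * Complex.I * n *
      (ζ + Z / ((√(n : ℝ) : ℝ) : ℂ)))) atTop (𝓝 0) := by
    rw [tendsto_zero_iff_norm_tendsto_zero]
    have hg : Tendsto (fun n : ℕ => Real.exp (-(Real.pi * ζ.im * n))) atTop (𝓝 0) := by
      refine Real.tendsto_exp_atBot.comp ?_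
      refine tendsto_neg_atTop_atBot.comp ?_
      exact tendsto_natCast_atTop_atTop.const_mul_atTop (by positivity)
    refine squeeze_zero' (Eventually.of_forall fun n => norm_nonneg _) ?_ hg
    filter_upwards [hev] with n hn
    rw [Complex.norm_exp]
    apply Real.exp_le_exp.mpr
    have e : (2 * Real.pi * Complex.I * n * (ζ + Z / ((√(n : ℝ) : ℝ) : ℂ))).re =
        -(2 * Real.pi * n * (ζ + Z / ((√(n : ℝ) : ℝ) : ℂ)).im) := by
      have : (2 * Real.pi * Complex.I * n * (ζ + Z / ((√(n : ℝ) : ℝ) : ℂ))) =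
          ((2 * Real.pi * n : ℝ) : ℂ) * (Complex.I * (ζ + Z / ((√(n : ℝ) : ℝ) : ℂ))) := by
        push_cast
        ring
      rw [this, Complex.re_ofReal_mul, Complex.I_mul_re]
      ring
    rw [e]
    have h3 : (0 : ℝ) ≤ 2 * Real.pi * n := by positivity
    nlinarith [mul_le_mul_of_nonneg_left hn.le h3]
  have hlim : Tendsto (fun n : ℕ => -4 * Complex.sin (2 * Real.pi *
        (ζ + Z / ((√(n : ℝ) : ℝ) : ℂ))) *
      Complex.exp (Real.pi * Complex.I * b * Z ^ 2) / (1 - Complex.exp (2 * Real.pi * Complex.I * n *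
      (ζ + Z / ((√(n : ℝ) : ℝ) : ℂ)))) ^ 2) atTop
      (𝓝 (-4 * Complex.sin (2 * Real.pi * ζ) * Complex.exp (Real.pi * Complex.I * b * Z ^ 2) /
        (1 - 0) ^ 2)) := by
    refine Tendsto.div ((hs.const_mul (-4)).mul_const _) ?_ (by simp)
    exact (hq.const_sub 1).pow 2
  rw [sub_zero, one_pow, div_one] at hlim
  refine hlim.congr' ?_
  filter_upwards [hev, eventually_gt_atTop 0] with n hn hn0
  unfold Ec
  set z : ℂ := ζ + Z / ((√(n : ℝ) : ℝ) : ℂ) with hzdef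
  have him : 0 < z.im := by linarith
  rw [div_eq_mul_one_div (Complex.exp (Real.pi * Complex.I * b * n * z ^ 2) *
    Complex.sin (2 * Real.pi * z)), inv_sin_sq him hn0]
  have hs0 : ((√(n : ℝ) : ℝ) : ℂ) ≠ 0 := by
    rw [Complex.ofReal_ne_zero]
    positivity
  have e1 : Complex.exp (Real.pi * Complex.I * b * Z ^ 2) =
      Complex.exp (-(n * (Real.pi * Complex.I * b * ζ ^ 2 +
        2 * Real.pi * Complex.I * ζ) + (√(n : ℝ) : ℝ) * (2 * Real.pi * Complex.I * (b * ζ + 1)) * Z)) *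
      Complex.exp (Real.pi * Complex.I * b * n * z ^ 2) *
      Complex.exp (2 * Real.pi * Complex.I * n * z) := by
    rw [← Complex.exp_add, ← Complex.exp_add]
    congr 1
    have k2 : (n : ℂ) * z = n * ζ + (√(n : ℝ) : ℝ) * Z := by
      rw [hzdef, mul_add]
      congr 1
      rw [← sqrt_cast_sq hn0]
      field_simp
    have k1 : (n : ℂ) * z ^ 2 = n * ζ ^ 2 + 2 * (√(n : ℝ) : ℝ) * Z * ζ + Z ^ 2 := by
      rw [hzdef, ← sqrt_cast_sq hn0]
      field_simp
      ring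
    linear_combination (-(Real.pi * Complex.I * b)) * k1 - 2 * Real.pi * Complex.I * k2
  rw [e1]
  ring

/-! ### paths -/

/-- a path `z` with derivative `d`, affine with direction `δ` near the parameter `s`, where it
passes through `ζ` -/
structure PathAt (z d : ℝ → ℂ) (s : ℝ) (ζ δ : ℂ) : Prop where
  mz : Measurable z
  md : Measurable d
  ne : δ ≠ 0
  near : ∃ r : ℝ, 0 < r ∧ ∀ σ : ℝ, |σ - s| < r → z σ = ζ + δ * ((σ - s : ℝ) : ℂ) ∧ d σ = δ

theorem pathAt_zt {ζ : ℂ} (h : |ζ.re| < 1 / 4) : PathAt (zt ζ.im) (dzt ζ.im) ζ.re ζ 1 := by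
  refine ⟨(continuous_zt _).measurable, measurable_dzt _, one_ne_zero, 1 / 4 - |ζ.re|,
    by linarith, fun σ hσ => ?_⟩
  have h1 : |σ| < 1 / 4 := by
    have := abs_add_le (σ - ζ.re) ζ.re
    rw [sub_add_cancel] at this
    linarith
  constructor
  · have := zt_eq (ζ := ζ) (u := σ - ζ.re) (by rw [add_sub_cancel]; exact h1.le)
    rw [add_sub_cancel] at this
    rw [this, one_mul]
  · unfold dzt
    rw [if_pos h1]
    simp

/-! ### the hypotheses -/

/-- the exponent of the limit of a hinge -/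
noncomputable def Qh (w ζ ζ' Z Z' : ℂ) : ℂ :=
  tzz w ζ * Z ^ 2 / 2 + tzz w ζ' * Z' ^ 2 / 2 - (twz w ζ * Z + twz w ζ' * Z') ^ 2 /
    (2 * tww w ζ ζ')

/-- the limit of the kernel at a hinge along the directions `δ`, `δ'` -/
def HLim (w ζ ζ' δ δ' : ℂ) : Prop :=
  ∃ A : ℂ, A ≠ 0 ∧ ∀ X X' : ℝ,
    Tendsto (fun n : ℕ => (((n : ℝ) ^ (3 / 2 : ℝ) : ℝ) : ℂ) *
      Complex.exp (-(n * tp w ζ ζ' + (√(n : ℝ) : ℝ) * (tz w ζ * (δ * X) + tz w ζ' * (δ' * X')))) *
      SS n (ζ + δ * X / ((√(n : ℝ) : ℝ) : ℂ)) (ζ' + δ' * X' / ((√(n : ℝ) : ℝ) : ℂ))) atTop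
      (𝓝 (A * Complex.exp (Qh w ζ ζ' (δ * X) (δ' * X'))))

/-- The limit of the kernel, in the form of `SS_lim`, gives `HLim`. -/
theorem hLim_of_zt {w ζ ζ' : ℂ} (h : |ζ.re| < 1 / 4) (h' : |ζ'.re| < 1 / 4) {A : ℂ} (hA : A ≠ 0)
    (hlim : ∀ X X' : ℝ, Tendsto (fun n : ℕ => (((n : ℝ) ^ (3 / 2 : ℝ) : ℝ) : ℂ) *
      Complex.exp (-(n * tp w ζ ζ' + √(n : ℝ) * (tz w ζ * X + tz w ζ' * X'))) *
      SS n (zt ζ.im (ζ.re + X / √(n : ℝ))) (zt ζ'.im (ζ'.re + X' / √(n : ℝ)))) atTop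
      (𝓝 (A * Complex.exp (tzz w ζ * X ^ 2 / 2 + tzz w ζ' * X' ^ 2 / 2 -
        (twz w ζ * X + twz w ζ' * X') ^ 2 / (2 * tww w ζ ζ'))))) : HLim w ζ ζ' 1 1 := by
  refine ⟨A, hA, fun X X' => ?_⟩
  have h1 := hlim X X'
  simp only [Qh, one_mul]
  refine h1.congr' ?_
  filter_upwards [eventually_abs_le h X, eventually_abs_le h' X'] with n hn hn'
  rw [zt_eq hn.le, zt_eq hn'.le]
  push_cast
  rfl

/-! ### graphs -/

section graph

variable {V E : Type*} [Fintype V] [Fintype E]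

/-- the potential of a graph with edges `src e` --- `tgt e` -/
noncomputable def TG (src tgt : E → V) (b : V → ℤ) (y : E → ℂ) (ζ : V → ℂ) : ℂ :=
  ∑ v, (Real.pi * Complex.I * b v * ζ v ^ 2 + 2 * Real.pi * Complex.I * ζ v) +
    ∑ e, tp (y e) (ζ (src e)) (ζ (tgt e))

/-- the derivative of the second sum of `TG` with respect to `ζ v` -/
noncomputable def dG [DecidableEq V] (src tgt : E → V) (y : E → ℂ) (ζ : V → ℂ) (v : V) : ℂ :=
  ∑ e, ((if src e = v then tz (y e) (ζ v) else 0) + (if tgt e = v then tz (y e) (ζ v) else 0))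

/-- critical points of `TG` -/
structure CritG [DecidableEq V] (src tgt : E → V) (b : V → ℤ) (y : E → ℂ) (ζ : V → ℂ) : Prop where
  crit_y : ∀ e, tw (y e) (ζ (src e)) (ζ (tgt e)) = 0
  crit_z : ∀ v, 2 * Real.pi * Complex.I * (b v * ζ v + 1) + dG src tgt y ζ v = 0

/-- the integrand on the cube -/
noncomputable def igG (n : ℕ) (src tgt : E → V) (b : V → ℤ) (z d : V → ℝ → ℂ) (σ : V → ℝ) : ℂ :=
  (∏ v, Ec n (b v) (z v (σ v)) * d v (σ v)) *
    ∏ e, SS n (z (src e) (σ (src e))) (z (tgt e) (σ (tgt e)))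

/-- the integral over the cube -/
noncomputable def IG (n : ℕ) (src tgt : E → V) (b : V → ℤ) (z d : V → ℝ → ℂ) : ℂ :=
  ∫ σ in cube V, igG n src tgt b z d σ

theorem measurable_igG (n : ℕ) (src tgt : E → V) (b : V → ℤ) {z d : V → ℝ → ℂ}
    (hz : ∀ i, Measurable (z i)) (hd : ∀ i, Measurable (d i)) :
    Measurable (igG n src tgt b z d) := by
  unfold igG
  refine Measurable.mul ?_ ?_
  · refine Finset.measurable_prod _ fun i _ => ?_
    have h1 : Measurable fun σ : V → ℝ => z i (σ i) := (hz i).comp (measurable_pi_apply i)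
    have h2 : Measurable fun σ : V → ℝ => d i (σ i) := (hd i).comp (measurable_pi_apply i)
    exact ((measurable_Ec n (b i)).comp h1).mul h2
  · refine Finset.measurable_prod _ fun e _ => ?_
    have h1 : Measurable fun σ : V → ℝ => (z (src e) (σ (src e)), z (tgt e) (σ (tgt e))) :=
      Measurable.prodMk ((hz _).comp (measurable_pi_apply _)) ((hz _).comp (measurable_pi_apply _))
    have h3 := (measurable_SS n).comp h1
    exact h3

/-- the exponent of the limit -/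
noncomputable def QG (src tgt : E → V) (b : V → ℤ) (y : E → ℂ) (ζ Z : V → ℂ) : ℂ :=
  ∑ v, Real.pi * Complex.I * b v * Z v ^ 2 +
    ∑ e, Qh (y e) (ζ (src e)) (ζ (tgt e)) (Z (src e)) (Z (tgt e))

theorem isQ_QG (src tgt : E → V) (b : V → ℤ) (y : E → ℂ) (ζ δ : V → ℂ) :
    VC.IsQ fun X => QG src tgt b y ζ fun i => δ i * X i := by
  classical
  unfold QG Qh
  refine VC.IsQ.add ?_ ?_
  · refine VC.IsQ.sum _ fun i _ => ?_
    have := (VC.IsQ.apply_sq (ι := V) i).const_mul (Real.pi * Complex.I * b i * δ i ^ 2)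
    refine cast (congrArg VC.IsQ (funext fun X => ?_)) this
    ring
  · refine VC.IsQ.sum _ fun e _ => VC.IsQ.sub (VC.IsQ.add ?_ ?_) ?_
    · have := (VC.IsQ.apply_sq (ι := V) (src e)).const_mul
        (tzz (y e) (ζ (src e)) * δ (src e) ^ 2 / 2)
      refine cast (congrArg VC.IsQ (funext fun X => ?_)) this
      ring
    · have := (VC.IsQ.apply_sq (ι := V) (tgt e)).const_mul
        (tzz (y e) (ζ (tgt e)) * δ (tgt e) ^ 2 / 2)
      refine cast (congrArg VC.IsQ (funext fun X => ?_)) this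
      ring
    · have := (VC.IsQ.lin_sq (ι := V) (src e) (tgt e)
        (twz (y e) (ζ (src e)) * δ (src e))
        (twz (y e) (ζ (tgt e)) * δ (tgt e))).const_mul (2 * tww (y e) (ζ (src e)) (ζ (tgt e)))⁻¹
      refine cast (congrArg VC.IsQ (funext fun X => ?_)) this
      rw [div_eq_inv_mul]
      ring

theorem sum_dG [DecidableEq V] (src tgt : E → V) (y : E → ℂ) (ζ f : V → ℂ) :
    ∑ v, dG src tgt y ζ v * f v = ∑ e, (tz (y e) (ζ (src e)) * f (src e) +
      tz (y e) (ζ (tgt e)) * f (tgt e)) := by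
  unfold dG
  simp_rw [Finset.sum_mul]
  rw [Finset.sum_comm]
  refine Finset.sum_congr rfl fun e _ => ?_
  simp_rw [add_mul]
  rw [Finset.sum_add_distrib]
  congr 1
  · rw [Finset.sum_eq_single (src e)]
    · simp
    · intro i _ hi
      rw [if_neg (Ne.symm hi), zero_mul]
    · intro h
      exact absurd (Finset.mem_univ _) h
  · rw [Finset.sum_eq_single (tgt e)]
    · simp
    · intro i _ hi
      rw [if_neg (Ne.symm hi), zero_mul]
    · intro h
      exact absurd (Finset.mem_univ _) h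

/-- the linear terms cancel at a critical point -/
theorem linG_zero [DecidableEq V] {src tgt : E → V} {b : V → ℤ} {y : E → ℂ} {ζ : V → ℂ}
    (h : CritG src tgt b y ζ) (f : V → ℂ) :
    ∑ v, 2 * Real.pi * Complex.I * (b v * ζ v + 1) * f v +
      ∑ e, (tz (y e) (ζ (src e)) * f (src e) + tz (y e) (ζ (tgt e)) * f (tgt e)) = 0 := by
  rw [← sum_dG, ← Finset.sum_add_distrib]
  refine Finset.sum_eq_zero fun i _ => ?_
  rw [← add_mul, h.crit_z i, zero_mul]

/-- the tangent planes (real parts, along real displacements of the `ζ v`) add up to the critical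
value -/
theorem reG_sum [DecidableEq V] {src tgt : E → V} {b : V → ℤ} {y : E → ℂ} {ζ : V → ℂ}
    (h : CritG src tgt b y ζ) (σ : V → ℝ) :
    ∑ v, -(2 * Real.pi * (ζ v).im * (1 + b v * σ v)) +
      ∑ e, ((tp (y e) (ζ (src e)) (ζ (tgt e))).re +
        (tz (y e) (ζ (src e))).re * (σ (src e) - (ζ (src e)).re) +
        (tz (y e) (ζ (tgt e))).re * (σ (tgt e) - (ζ (tgt e)).re)) =
      (TG src tgt b y ζ).re := by
  have h1 := congrArg Complex.re (linG_zero h fun i => ((σ i - (ζ i).re : ℝ) : ℂ))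
  rw [Complex.add_re, Complex.re_sum, Complex.re_sum, Complex.zero_re] at h1
  rw [TG, Complex.add_re, Complex.re_sum, Complex.re_sum]
  have h2 : ∀ i, -(2 * Real.pi * (ζ i).im * (1 + b i * σ i)) =
      (Real.pi * Complex.I * b i * ζ i ^ 2 + 2 * Real.pi * Complex.I * ζ i).re +
        (2 * Real.pi * Complex.I * (b i * ζ i + 1) * ((σ i - (ζ i).re : ℝ) : ℂ)).re := by
    intro i
    rw [re_wt, re_lin]
    ring
  have h3 : ∀ e, (tp (y e) (ζ (src e)) (ζ (tgt e))).re +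
        (tz (y e) (ζ (src e))).re * (σ (src e) - (ζ (src e)).re) +
        (tz (y e) (ζ (tgt e))).re * (σ (tgt e) - (ζ (tgt e)).re) =
      (tp (y e) (ζ (src e)) (ζ (tgt e))).re +
      (tz (y e) (ζ (src e)) * ((σ (src e) - (ζ (src e)).re : ℝ) : ℂ) +
        tz (y e) (ζ (tgt e)) * ((σ (tgt e) - (ζ (tgt e)).re : ℝ) : ℂ)).re := by
    intro e
    rw [Complex.add_re, Complex.re_mul_ofReal, Complex.re_mul_ofReal]
    ring
  simp_rw [h2, h3]
  rw [Finset.sum_add_distrib, Finset.sum_add_distrib]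
  linarith

/-- pointwise limit of the integrand -/
theorem igG_lim [DecidableEq V] {src tgt : E → V} {b : V → ℤ} {y : E → ℂ} {ζ : V → ℂ}
    (hcr : CritG src tgt b y ζ) (him : ∀ i, 0 < (ζ i).im) {z d : V → ℝ → ℂ}
    {s : V → ℝ} {δ : V → ℂ} (hp : ∀ i, PathAt (z i) (d i) (s i) (ζ i) (δ i))
    (hH : ∀ e, HLim (y e) (ζ (src e)) (ζ (tgt e)) (δ (src e)) (δ (tgt e))) :
    ∃ K : ℂ, K ≠ 0 ∧ ∀ X : V → ℝ,
    Tendsto (fun n : ℕ => (((n : ℝ) ^ (3 / 2 : ℝ) : ℝ) : ℂ) ^ Fintype.card E *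
      Complex.exp (-(n * TG src tgt b y ζ)) *
      igG n src tgt b z d (fun i => s i + X i / √(n : ℝ))) atTop
      (𝓝 (K * Complex.exp (QG src tgt b y ζ fun i => δ i * X i))) := by
  choose A hA hAX using hH
  refine ⟨(∏ i, (-4 * Complex.sin (2 * Real.pi * ζ i) * δ i)) * ∏ j, A j, ?_, fun X => ?_⟩
  · refine mul_ne_zero (Finset.prod_ne_zero_iff.mpr fun i _ => ?_)
      (Finset.prod_ne_zero_iff.mpr fun j _ => hA j)
    refine mul_ne_zero (mul_ne_zero (by norm_num) fun h0 => ?_) (hp i).ne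
    obtain ⟨k, hk⟩ := Complex.sin_eq_zero_iff.mp h0
    have h1 := congrArg Complex.im hk
    have h2 : (2 * (Real.pi : ℂ) * ζ i).im = 2 * Real.pi * (ζ i).im := by
      rw [show (2 * (Real.pi : ℂ) * ζ i) = ((2 * Real.pi : ℝ) : ℂ) * ζ i by push_cast; ring,
        Complex.im_ofReal_mul]
    have h3 : ((k : ℂ) * (Real.pi : ℂ)).im = 0 := by
      rw [show ((k : ℂ) * (Real.pi : ℂ)) = ((k * Real.pi : ℝ) : ℂ) by push_cast; ring,
        Complex.ofReal_im]
    rw [h2, h3] at h1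
    have := him i
    have : 0 < 2 * Real.pi * (ζ i).im := by positivity
    linarith
  · have t1 := tendsto_finset_prod (Finset.univ : Finset V)
      fun i _ => (Ec_lim (b := b i) (him i) (δ i * X i)).mul_const (δ i)
    have t2 := tendsto_finset_prod (Finset.univ : Finset E)
      fun e _ => hAX e (X (src e)) (X (tgt e))
    have t3 := t1.mul t2
    have e1 : (∏ i, (-4 * Complex.sin (2 * Real.pi * ζ i) *
          Complex.exp (Real.pi * Complex.I * b i * (δ i * X i) ^ 2) * δ i)) *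
        ∏ e, (A e * Complex.exp (Qh (y e) (ζ (src e)) (ζ (tgt e))
          (δ (src e) * X (src e)) (δ (tgt e) * X (tgt e)))) =
        (∏ i, (-4 * Complex.sin (2 * Real.pi * ζ i) * δ i)) * (∏ j, A j) *
          Complex.exp (QG src tgt b y ζ fun i => δ i * X i) := by
      rw [prod_mul_exp, QG, Complex.exp_add]
      have : ∀ i, -4 * Complex.sin (2 * Real.pi * ζ i) *
          Complex.exp (Real.pi * Complex.I * b i * (δ i * X i) ^ 2) * δ i =
          (-4 * Complex.sin (2 * Real.pi * ζ i) * δ i) *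
          Complex.exp (Real.pi * Complex.I * b i * (δ i * X i) ^ 2) := fun i => by ring
      simp_rw [this]
      rw [prod_mul_exp]
      ring
    rw [e1] at t3
    have hev : ∀ᶠ n : ℕ in atTop, ∀ i, z i (s i + X i / √(n : ℝ)) =
        ζ i + δ i * X i / ((√(n : ℝ) : ℝ) : ℂ) ∧ d i (s i + X i / √(n : ℝ)) = δ i := by
      rw [eventually_all]
      intro i
      obtain ⟨r, hr, hnear⟩ := (hp i).near
      have h1 := (div_sqrt_tendsto (X i)).abs
      rw [abs_zero] at h1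
      filter_upwards [h1.eventually_lt_const hr] with n hn
      have h2 := hnear (s i + X i / √(n : ℝ)) (by rw [add_sub_cancel_left]; exact hn)
      refine ⟨?_, h2.2⟩
      rw [h2.1, add_sub_cancel_left]
      push_cast
      ring
    refine t3.congr' ?_
    filter_upwards [hev] with n hn
    have h0 : igG n src tgt b z d (fun i => s i + X i / √(n : ℝ)) =
        (∏ i, Ec n (b i) (ζ i + δ i * X i / ((√(n : ℝ) : ℝ) : ℂ)) * δ i) *
        ∏ e, SS n (ζ (src e) + δ (src e) * X (src e) / ((√(n : ℝ) : ℝ) : ℂ))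
          (ζ (tgt e) + δ (tgt e) * X (tgt e) / ((√(n : ℝ) : ℝ) : ℂ)) := by
      unfold igG
      congr 1
      · exact Finset.prod_congr rfl fun i _ => by rw [(hn i).1, (hn i).2]
      · exact Finset.prod_congr rfl fun e _ => by rw [(hn (src e)).1, (hn (tgt e)).1]
    rw [h0]
    have e2 : Complex.exp (-(n * TG src tgt b y ζ)) =
        Complex.exp (∑ i, -(n * (Real.pi * Complex.I * b i * ζ i ^ 2 +
          2 * Real.pi * Complex.I * ζ i) +
          ((√(n : ℝ) : ℝ) : ℂ) * (2 * Real.pi * Complex.I * (b i * ζ i + 1)) * (δ i * X i))) *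
        Complex.exp (∑ e, -(n * tp (y e) (ζ (src e)) (ζ (tgt e)) +
          ((√(n : ℝ) : ℝ) : ℂ) * (tz (y e) (ζ (src e)) * (δ (src e) * X (src e)) +
            tz (y e) (ζ (tgt e)) * (δ (tgt e) * X (tgt e))))) := by
      rw [← Complex.exp_add]
      congr 1
      have h1 := linG_zero hcr fun i => δ i * X i
      have h2 : ∑ i, -(n * (Real.pi * Complex.I * b i * ζ i ^ 2 +
          2 * Real.pi * Complex.I * ζ i) +
          ((√(n : ℝ) : ℝ) : ℂ) * (2 * Real.pi * Complex.I * (b i * ζ i + 1)) * (δ i * X i)) =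
          -(n * ∑ i, (Real.pi * Complex.I * b i * ζ i ^ 2 + 2 * Real.pi * Complex.I * ζ i)) -
          ((√(n : ℝ) : ℝ) : ℂ) * ∑ i, 2 * Real.pi * Complex.I * (b i * ζ i + 1) *
            (δ i * X i) := by
        rw [Finset.mul_sum, Finset.mul_sum, ← Finset.sum_neg_distrib, ← Finset.sum_sub_distrib]
        exact Finset.sum_congr rfl fun i _ => by ring
      have h3 : ∑ e, -(n * tp (y e) (ζ (src e)) (ζ (tgt e)) +
          ((√(n : ℝ) : ℝ) : ℂ) * (tz (y e) (ζ (src e)) * (δ (src e) * X (src e)) +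
            tz (y e) (ζ (tgt e)) * (δ (tgt e) * X (tgt e)))) =
          -(n * ∑ e, tp (y e) (ζ (src e)) (ζ (tgt e))) -
          ((√(n : ℝ) : ℝ) : ℂ) * ∑ e, (tz (y e) (ζ (src e)) *
            (δ (src e) * X (src e)) + tz (y e) (ζ (tgt e)) * (δ (tgt e) * X (tgt e))) := by
        rw [Finset.mul_sum, Finset.mul_sum, ← Finset.sum_neg_distrib, ← Finset.sum_sub_distrib]
        exact Finset.sum_congr rfl fun i _ => by ring
      rw [h2, h3, TG]
      linear_combination ((√(n : ℝ) : ℝ) : ℂ) * h1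
    rw [e2, Complex.exp_sum, Complex.exp_sum]
    simp only [Finset.prod_mul_distrib, Finset.prod_const, Finset.card_univ]
    ring

/-- The total domination hypothesis; `s v` is the parameter of the saddle on the path `z v`. -/
def DomG (src tgt : E → V) (b : V → ℤ) (y : E → ℂ) (ζ : V → ℂ) (z d : V → ℝ → ℂ) (s : V → ℝ) :
    Prop :=
  ∃ (C c : ℝ) (N : ℕ), 0 < c ∧ ∀ n : ℕ, N ≤ n → Odd n → ∀ σ ∈ cube V,
    ‖igG n src tgt b z d σ‖ ≤ C * ((n : ℝ) ^ (-(3 / 2) : ℝ)) ^ Fintype.card E *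
      Real.exp (n * ((TG src tgt b y ζ).re - c * ∑ i, (σ i - s i) ^ 2))

/-- Asymptotics of the integral: any graph, general paths. -/
theorem core_graph [DecidableEq V] {src tgt : E → V} {b : V → ℤ} {y : E → ℂ} {ζ : V → ℂ}
    (hcr : CritG src tgt b y ζ) (him : ∀ i, 0 < (ζ i).im) {z d : V → ℝ → ℂ}
    {s : V → ℝ} {δ : V → ℂ}
    (hp : ∀ i, PathAt (z i) (d i) (s i) (ζ i) (δ i)) (hs : ∀ i, |s i| < 1 / 2)
    (hH : ∀ e, HLim (y e) (ζ (src e)) (ζ (tgt e)) (δ (src e)) (δ (tgt e)))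
    (hD : DomG src tgt b y ζ z d s) :
    ∃ L : ℂ, L ≠ 0 ∧ Tendsto (fun k : ℕ => ((((2 * k + 1 : ℕ) : ℝ) ^
        (((Fintype.card V : ℝ) + 3 * (Fintype.card E : ℝ)) / 2) : ℝ) : ℂ) *
      Complex.exp (-(((2 * k + 1 : ℕ) : ℂ) * TG src tgt b y ζ)) *
      IG (2 * k + 1) src tgt b z d) atTop (𝓝 L) := by
  obtain ⟨C, c, N, hc, hB'⟩ := hD
  obtain ⟨K, hK, hL'⟩ := igG_lim hcr him hp hH
  have hx : cube V ∈ 𝓝 s := cube_mem_nhds hs
  have hodd : Tendsto (fun s : ℕ => 2 * s + 1) atTop atTop :=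
    tendsto_atTop_mono (fun s => by simp only [id]; omega) tendsto_id
  have hν : Tendsto (fun s : ℕ => ((2 * s + 1 : ℕ) : ℝ)) atTop atTop :=
    tendsto_natCast_atTop_atTop.comp hodd
  set F : ℕ → (V → ℝ) → ℂ := fun k x =>
    ((((2 * k + 1 : ℕ) : ℝ) ^ (3 / 2 : ℝ) : ℝ) : ℂ) ^ Fintype.card E *
      Complex.exp (-(((2 * k + 1 : ℕ) : ℂ) * TG src tgt b y ζ)) *
      igG (2 * k + 1) src tgt b z d x with hF
  have hb : ∀ᶠ k in atTop, ∀ x ∈ cube V, ‖F k x‖ ≤
      C * Real.exp (-(((2 * k + 1 : ℕ) : ℝ) * (c * ∑ i, (x i - s i) ^ 2))) := by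
    filter_upwards [hodd.eventually_ge_atTop N] with k hk x hx'
    have h1 := hB' (2 * k + 1) hk ⟨k, rfl⟩ x hx'
    have hn0 : (0 : ℝ) < ((2 * k + 1 : ℕ) : ℝ) := by positivity
    rw [hF]
    simp only
    rw [norm_mul, norm_mul, norm_pow, Complex.norm_real, Complex.norm_exp, Real.norm_eq_abs,
      abs_of_nonneg (Real.rpow_nonneg hn0.le _)]
    refine (mul_le_mul_of_nonneg_left h1 (by positivity)).trans (le_of_eq ?_)
    have h2 : ((2 * k + 1 : ℕ) : ℝ) ^ (3 / 2 : ℝ) * ((2 * k + 1 : ℕ) : ℝ) ^ (-(3 / 2) : ℝ) = 1 := by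
      rw [← Real.rpow_add hn0]
      norm_num
    have h3 : (-(((2 * k + 1 : ℕ) : ℂ) * TG src tgt b y ζ)).re =
        -(((2 * k + 1 : ℕ) : ℝ) * (TG src tgt b y ζ).re) := by
      rw [Complex.neg_re, ← Complex.ofReal_natCast, Complex.re_ofReal_mul]
    rw [h3]
    have h4 : ∀ (P Q R u v : ℝ) (M : ℕ), P ^ M * Real.exp u * (R * Q ^ M * Real.exp v) =
        R * (P * Q) ^ M * Real.exp (u + v) := fun P Q R u v M => by
      rw [Real.exp_add, mul_pow]; ring
    rw [h4, h2, one_pow, mul_one]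
    congr 2
    ring
  have hG : ∀ X : V → ℝ, Tendsto (fun k => F k (fun i => s i + X i /
      √(((2 * k + 1 : ℕ) : ℝ)))) atTop
      (𝓝 (K * Complex.exp (QG src tgt b y ζ fun i => δ i * X i))) :=
    fun X => (hL' X).comp hodd
  have hlap := VC.laplace_nd measurableSet_cube hx hν (F := F)
    (fun k => (measurable_igG _ _ _ _ (fun i => (hp i).mz) (fun i => (hp i).md)).const_mul _)
    hc hb hG
  have hbd := VC.laplace_nd_bound hx hν (F := F) hb hG
  refine ⟨∫ X : V → ℝ, K * Complex.exp (QG src tgt b y ζ fun i => δ i * X i), ?_, ?_⟩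
  · rw [integral_const_mul]
    refine mul_ne_zero hK ((isQ_QG src tgt b y ζ δ).integral_ne_zero (C := C / ‖K‖) hc
      fun X => ?_)
    have h1 := hbd X
    rw [norm_mul, Complex.norm_exp] at h1
    have hK0 : 0 < ‖K‖ := norm_pos_iff.mpr hK
    rw [div_mul_eq_mul_div, le_div_iff₀ hK0, mul_comm]
    exact h1
  · refine hlap.congr fun k => ?_
    have hn0 : (0 : ℝ) < ((2 * k + 1 : ℕ) : ℝ) := by positivity
    rw [hF]
    simp only
    rw [integral_const_mul, ← mul_assoc, ← mul_assoc, IG]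
    congr 2
    rw [← Complex.ofReal_pow, ← Complex.ofReal_mul]
    congr 1
    rw [← Real.rpow_natCast, ← Real.rpow_mul hn0.le, ← Real.rpow_add hn0]
    congr 1
    ring

end graph

/-! ### chains -/

theorem critG_of_crit {M : ℕ} {b : Fin (M + 1) → ℤ} {y : Fin M → ℂ} {ζ : Fin (M + 1) → ℂ}
    (h : Crit b y ζ) : CritG Fin.castSucc Fin.succ b y ζ := ⟨h.crit_y, h.crit_z⟩

theorem TG_chain {M : ℕ} (b : Fin (M + 1) → ℤ) (y : Fin M → ℂ) (ζ : Fin (M + 1) → ℂ) :
    TG Fin.castSucc Fin.succ b y ζ = TT b y ζ := rfl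

theorem IG_chain (n : ℕ) {M : ℕ} (b : Fin (M + 1) → ℤ) (ρ : Fin (M + 1) → ℝ) :
    IG n Fin.castSucc Fin.succ b (fun i => zt (ρ i)) (fun i => dzt (ρ i)) = II n b ρ := rfl

/-- Asymptotics of the integral for chains and trapezoids, total domination as hypothesis. -/
theorem core_of_dom {M : ℕ} {b : Fin (M + 1) → ℤ} {y : Fin M → ℂ} {ζ : Fin (M + 1) → ℂ}
    (hcr : Crit b y ζ) (him : ∀ i, 0 < (ζ i).im) (hre : ∀ i, |(ζ i).re| < 1 / 4)
    (hH : ∀ j : Fin M, HLim (y j) (ζ j.castSucc) (ζ j.succ) 1 1)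
    (hD : ∃ (C c : ℝ) (N : ℕ), 0 ≤ C ∧ 0 < c ∧ ∀ n : ℕ, N ≤ n → Odd n →
      ∀ σ : Fin (M + 1) → ℝ, σ ∈ box M → (∏ i, ‖EE n (b i) (ζ i).im (σ i)‖) *
      (∏ j : Fin M, ‖SS n (zt (ζ j.castSucc).im (σ j.castSucc)) (zt (ζ j.succ).im (σ j.succ))‖) ≤
      C * (n : ℝ) ^ (-(3 / 2 * (M : ℝ))) *
        Real.exp (n * ((TT b y ζ).re - c * ∑ i, (σ i - (ζ i).re) ^ 2))) :
    ∃ L : ℂ, L ≠ 0 ∧ Tendsto (fun s : ℕ => ((((2 * s + 1 : ℕ) : ℝ) ^ (2 * (M : ℝ) + 1 / 2) : ℝ) : ℂ) *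
      Complex.exp (-(((2 * s + 1 : ℕ) : ℂ) * TT b y ζ)) *
      II (2 * s + 1) b (fun i => (ζ i).im)) atTop (𝓝 L) := by
  have hD' : DomG Fin.castSucc Fin.succ b y ζ (fun i => zt (ζ i).im) (fun i => dzt (ζ i).im)
      fun i => (ζ i).re := by
    obtain ⟨C, c, N, -, hc, h⟩ := hD
    refine ⟨C, c, N, hc, fun n hn hodd σ hσ => ?_⟩
    have h1 := h n hn hodd σ hσ
    have e : ((n : ℝ) ^ (-(3 / 2) : ℝ)) ^ M = (n : ℝ) ^ (-(3 / 2 * (M : ℝ))) := by
      rw [← Real.rpow_natCast, ← Real.rpow_mul (Nat.cast_nonneg n)]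
      congr 1
      ring
    rw [Fintype.card_fin, e, TG_chain, igG, norm_mul, norm_prod, norm_prod]
    exact h1
  obtain ⟨L, hL, h⟩ := core_graph (critG_of_crit hcr) him (δ := fun _ => 1)
    (fun i => pathAt_zt (hre i)) (fun i => (hre i).trans (by norm_num)) hH hD'
  refine ⟨L, hL, ?_⟩
  refine h.congr fun k => ?_
  rw [IG_chain, TG_chain, Fintype.card_fin, Fintype.card_fin]
  congr 4
  push_cast
  ring

end Pool.Agent.Work.MP_b30479_gt.LT
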