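import Pool.Agent.Work.MP_b30479_gt.LT.BWG

/-!
# The critical value as a sum of values of the extended Rogers dilogarithm
-/

namespace Pool.Agent.Work.MP_b30479_gt.LT

open Finset VOL Filter Topology

/-- The dilogarithm `Li₂(z) = -∫₀¹ log(1-tz) dt/t`, for `z` outside `[1,∞)`. -/
noncomputable def li2 (z : ℂ) : ℂ := -∫ t in (0 : ℝ)..1, Complex.log (1 - t * z) / t

/-! ### the dilogarithm and the function `Fh` -/

/-- a primitive of `-2πi log(1-e^{2πiw})` -/
private noncomputable def Hh (w : ℂ) : ℂ :=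
  -(2 * Real.pi * Complex.I) * Fh w + Real.pi ^ 2 * (w - 1 / 2) ^ 2 - Real.pi ^ 2 / 12

private theorem hasDerivAt_Hh {w : ℂ} (hw : w ∈ strip) :
    HasDerivAt Hh (-(2 * Real.pi * Complex.I) * Complex.log (1 - ee w)) w := by
  have h1 := (hasDerivAt_Fh hw).const_mul (-(2 * Real.pi * Complex.I) : ℂ)
  have h2 := ((((hasDerivAt_id w).sub_const (1 / 2 : ℂ)).pow 2).const_mul (Real.pi ^ 2 : ℂ))
  have h3 := (h1.add h2).sub_const ((Real.pi : ℂ) ^ 2 / 12)
  refine h3.congr_deriv ?_
  rw [log_one_sub_ee hw]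
  simp only [id_eq, Nat.add_one_sub_one, pow_one, mul_one, Nat.cast_ofNat]
  linear_combination (2 * (Real.pi : ℂ) ^ 2 * (w - 1 / 2)) * Complex.I_sq

private lemma summable_inv2 : Summable fun k : ℕ => (1 : ℝ) / ((k : ℝ) + 1) ^ 2 := by
  have := (summable_nat_add_iff 1).2 (Real.summable_one_div_nat_pow.2 one_lt_two)
  simpa using this

private lemma norm_term2_le {z : ℂ} (hz : ‖z‖ ≤ 1) (k : ℕ) :
    ‖z ^ (k + 1) / ((k : ℂ) + 1) ^ 2‖ ≤ 1 / ((k : ℝ) + 1) ^ 2 := by
  rw [norm_div, norm_pow, norm_pow]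
  have : ‖(k : ℂ) + 1‖ = (k : ℝ) + 1 := by
    have := Complex.norm_natCast (k + 1)
    push_cast at this
    exact this
  rw [this]
  gcongr
  exact pow_le_one₀ (norm_nonneg _) hz

private lemma summable_dl2 {z : ℂ} (hz : ‖z‖ ≤ 1) :
    Summable fun k : ℕ => z ^ (k + 1) / ((k : ℂ) + 1) ^ 2 :=
  Summable.of_norm_bounded summable_inv2 (norm_term2_le hz)

private lemma tsum_log2 {z : ℂ} (hz : ‖z‖ < 1) :
    ∑' k : ℕ, z ^ (k + 1) / ((k : ℂ) + 1) = -Complex.log (1 - z) := by
  have h := Complex.hasSum_taylorSeries_neg_log hz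
  have h2 := (hasSum_nat_add_iff' 1).2 h
  simp only [sum_range_one, CharP.cast_eq_zero, div_zero, sub_zero, Nat.cast_add,
    Nat.cast_one] at h2
  exact h2.tsum_eq

/-- the dilogarithm series -/
private noncomputable def dl (z : ℂ) : ℂ := ∑' k : ℕ, z ^ (k + 1) / ((k : ℂ) + 1) ^ 2

private lemma continuousOn_dl : ContinuousOn dl {z | ‖z‖ ≤ 1} := by
  unfold dl
  refine continuousOn_tsum (u := fun k : ℕ => (1 : ℝ) / ((k : ℝ) + 1) ^ 2) ?_ summable_inv2 ?_
  · intro k
    apply Continuous.continuousOn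
    fun_prop
  · intro k z hz
    exact norm_term2_le hz k

private lemma hasDerivAt_ee (w : ℂ) : HasDerivAt ee (ee w * (2 * Real.pi * Complex.I)) w := by
  unfold ee
  have h1 : HasDerivAt (fun w : ℂ => 2 * Real.pi * Complex.I * w) (2 * Real.pi * Complex.I * 1) w :=
    (hasDerivAt_id w).const_mul _
  simpa using h1.cexp

private lemma norm_ee_lt {w : ℂ} (h : 0 < w.im) : ‖ee w‖ < 1 := by
  rw [norm_ee, Real.exp_lt_one_iff]
  have := Real.pi_pos
  have : 0 < 2 * Real.pi * w.im := by positivity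
  linarith only [this]

private lemma hasDerivAt_dl {w : ℂ} (hw : 0 < w.im) :
    HasDerivAt (fun w => dl (ee w)) (-(2 * Real.pi * Complex.I) * Complex.log (1 - ee w)) w := by
  have hp := Real.pi_pos
  set r : ℝ := Real.exp (-(2 * Real.pi * (w.im / 2))) with hr
  have hr1 : r < 1 := by
    rw [hr, Real.exp_lt_one_iff]
    have : 0 < 2 * Real.pi * (w.im / 2) := by positivity
    linarith only [this]
  have hr0 : 0 < r := Real.exp_pos _
  have hs : Summable fun k : ℕ => 2 * Real.pi * r ^ (k + 1) := by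
    apply Summable.mul_left
    exact (summable_nat_add_iff 1).2 (summable_geometric_of_lt_one hr0.le hr1)
  set D : Set ℂ := {z | w.im / 2 < z.im} with hD
  have hDo : IsOpen D := isOpen_lt continuous_const Complex.continuous_im
  have hDc : Convex ℝ D := convex_halfSpace_im_gt _
  have hn : ∀ z ∈ D, ‖ee z‖ ≤ r := by
    intro z hz
    rw [norm_ee, hr]
    apply Real.exp_le_exp.mpr
    have : w.im / 2 < z.im := hz
    nlinarith only [hp, this]
  have hd : ∀ (k : ℕ), ∀ z ∈ D, HasDerivAt (fun z : ℂ => ee z ^ (k + 1) / ((k : ℂ) + 1) ^ 2)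
      ((2 * Real.pi * Complex.I) * (ee z ^ (k + 1) / ((k : ℂ) + 1))) z := by
    intro k z _
    have h1 := ((hasDerivAt_ee z).pow (k + 1)).div_const (((k : ℂ) + 1) ^ 2)
    refine h1.congr_deriv ?_
    have hk : ((k : ℂ) + 1) ≠ 0 := by exact_mod_cast Nat.succ_ne_zero k
    simp only [Nat.add_sub_cancel, Nat.cast_add, Nat.cast_one]
    field_simp
    ring
  have hb : ∀ (k : ℕ), ∀ z ∈ D, ‖(2 * Real.pi * Complex.I) * (ee z ^ (k + 1) / ((k : ℂ) + 1))‖ ≤
      2 * Real.pi * r ^ (k + 1) := by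
    intro k z hz
    have hk : ‖(k : ℂ) + 1‖ = (k : ℝ) + 1 := by
      have := Complex.norm_natCast (k + 1)
      push_cast at this
      exact this
    rw [norm_mul, norm_div, norm_pow, hk]
    have e : ‖(2 * Real.pi * Complex.I : ℂ)‖ = 2 * Real.pi := by
      simp [abs_of_pos Real.pi_pos]
    rw [e]
    have h4 : (1 : ℝ) ≤ (k : ℝ) + 1 := by
      have : (0 : ℝ) ≤ k := Nat.cast_nonneg k
      linarith only []
    have h5 : ‖ee z‖ ^ (k + 1) / ((k : ℝ) + 1) ≤ ‖ee z‖ ^ (k + 1) :=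
      div_le_self (by positivity) h4
    have h6 : ‖ee z‖ ^ (k + 1) ≤ r ^ (k + 1) := pow_le_pow_left₀ (norm_nonneg _) (hn z hz) _
    have := h5.trans h6
    gcongr
  have hwD : w ∈ D := by
    show w.im / 2 < w.im
    linarith only [hw]
  have h := hasDerivAt_tsum_of_isPreconnected hs hDo hDc.isPreconnected hd hb hwD
    (summable_dl2 (norm_ee_lt hw).le) hwD
  refine h.congr_deriv ?_
  rw [tsum_mul_left, tsum_log2 (norm_ee_lt hw)]
  ring

private lemma dl_neg_one : dl (-1) = -(Real.pi ^ 2 / 12 : ℂ) := by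
  have h0 : HasSum (fun k : ℕ => (1 : ℝ) / ((k : ℝ) + 1) ^ 2) (Real.pi ^ 2 / 6) := by
    have h1 := (hasSum_nat_add_iff' 1).2 hasSum_zeta_two
    simpa using h1
  have h2 : HasSum (fun k : ℕ => (1 : ℝ) / (((2 * k + 1 : ℕ) : ℝ) + 1) ^ 2) (Real.pi ^ 2 / 24) := by
    have h3 := h0.div_const 4
    have e : Real.pi ^ 2 / 6 / 4 = Real.pi ^ 2 / 24 := by ring
    rw [e] at h3
    refine h3.congr_fun ?_
    intro k
    push_cast
    have hk : (k : ℝ) + 1 ≠ 0 := by positivity
    rw [show (2 * (k : ℝ) + 1 + 1) = 2 * ((k : ℝ) + 1) by ring, mul_pow]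
    field_simp
    norm_num
  have h4 : Summable (fun k : ℕ => (1 : ℝ) / (((2 * k : ℕ) : ℝ) + 1) ^ 2) :=
    h0.summable.comp_injective (i := fun k : ℕ => 2 * k) (fun a b h => by simpa using h)
  have h5 := h4.hasSum.even_add_odd (f := fun k : ℕ => (1 : ℝ) / ((k : ℝ) + 1) ^ 2) h2
  have h6 := h5.unique h0
  have h7 : HasSum (fun k : ℕ => (-1 : ℝ) ^ (k + 1) / ((k : ℝ) + 1) ^ 2)
      (-(∑' k : ℕ, (1 : ℝ) / (((2 * k : ℕ) : ℝ) + 1) ^ 2) + Real.pi ^ 2 / 24) := by
    refine HasSum.even_add_odd (f := fun k : ℕ => (-1 : ℝ) ^ (k + 1) / ((k : ℝ) + 1) ^ 2) ?_ ?_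
    · refine h4.hasSum.neg.congr_fun ?_
      intro k
      rw [pow_succ, pow_mul]
      simp [neg_div]
    · refine h2.congr_fun ?_
      intro k
      rw [show 2 * k + 1 + 1 = 2 * (k + 1) by ring, pow_mul]
      simp
  have h8 : (-(∑' k : ℕ, (1 : ℝ) / (((2 * k : ℕ) : ℝ) + 1) ^ 2) + Real.pi ^ 2 / 24) =
      -(Real.pi ^ 2 / 12) := by linarith only [h6]
  rw [h8] at h7
  have h9 := (Complex.hasSum_ofReal.mpr h7).tsum_eq
  unfold dl
  push_cast at h9
  exact h9

private lemma Hh_eq {w : ℂ} (hw : w ∈ strip) (h : 0 < w.im) : Hh w = dl (ee w) := by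
  set D : Set ℂ := strip ∩ {z | 0 < z.im} with hD
  have hDo : IsOpen D := strip_open.inter (isOpen_lt continuous_const Complex.continuous_im)
  have hDc : Convex ℝ D := strip_convex.inter (convex_halfSpace_im_gt 0)
  have hd : ∀ z ∈ D, HasDerivAt (fun z => Hh z - dl (ee z)) 0 z := by
    intro z hz
    refine ((hasDerivAt_Hh hz.1).sub (hasDerivAt_dl hz.2)).congr_deriv ?_
    ring
  have hconst : ∀ z ∈ D, Hh z - dl (ee z) = Hh w - dl (ee w) := by
    intro z hz
    exact IsOpen.is_const_of_deriv_eq_zero hDo hDc.isPreconnected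
      (fun a ha => (hd a ha).differentiableAt.differentiableWithinAt)
      (fun a ha => (hd a ha).deriv) hz ⟨hw, h⟩
  -- approach `1/2`
  have hc : ContinuousWithinAt (fun ρ : ℝ => Hh (1 / 2 + ρ * Complex.I) -
      dl (ee (1 / 2 + ρ * Complex.I))) (Set.Ici 0) 0 := by
    apply ContinuousWithinAt.sub
    · apply ContinuousAt.continuousWithinAt
      apply ContinuousAt.comp (g := Hh)
      · simp only [Complex.ofReal_zero, zero_mul, add_zero]
        exact (hasDerivAt_Hh half_mem_strip).continuousAt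
      · fun_prop
    · have h1 : ContinuousWithinAt (fun ρ : ℝ => ee (1 / 2 + ρ * Complex.I)) (Set.Ici 0) 0 := by
        unfold ee
        fun_prop
      refine ContinuousWithinAt.comp (g := dl) (t := {z | ‖z‖ ≤ 1}) ?_ h1 ?_
      · apply continuousOn_dl
        simp only [Set.mem_ofPred_eq, norm_ee]
        simp
      · intro ρ hρ
        simp only [Set.mem_ofPred_eq, norm_ee]
        rw [Real.exp_le_one_iff]
        have := Real.pi_pos
        have h2 : (0 : ℝ) ≤ ρ := hρ
        simp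
        positivity
  have e0 : Hh (1 / 2 + ((0 : ℝ) : ℂ) * Complex.I) - dl (ee (1 / 2 + ((0 : ℝ) : ℂ) * Complex.I)) = 0 := by
    simp only [Complex.ofReal_zero, zero_mul, add_zero]
    rw [ee_half, dl_neg_one]
    unfold Hh
    rw [Fh_half]
    ring
  have h1 : Tendsto (fun ρ : ℝ => Hh (1 / 2 + ρ * Complex.I) -
      dl (ee (1 / 2 + ρ * Complex.I))) (𝓝[>] 0) (𝓝 0) := by
    have := hc.mono_left (nhdsWithin_mono (0 : ℝ) (Set.Ioi_subset_Ici_self (a := (0 : ℝ))))
    rw [← e0]
    exact this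
  have h2 : Tendsto (fun ρ : ℝ => Hh (1 / 2 + ρ * Complex.I) -
      dl (ee (1 / 2 + ρ * Complex.I))) (𝓝[>] 0) (𝓝 (Hh w - dl (ee w))) := by
    apply tendsto_const_nhds.congr'
    filter_upwards [self_mem_nhdsWithin] with ρ hρ
    have h3 : (0 : ℝ) < ρ := hρ
    refine (hconst _ ⟨?_, ?_⟩).symm
    · constructor
      · simp
      · simp
        norm_num
    · simpa using h3
  have := tendsto_nhds_unique h1 h2
  linear_combination -this

private lemma slit_ee {w : ℂ} (hw : w ∈ strip) : 1 - ee w ∈ Complex.slitPlane := by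
  have h := (arg_one_sub_ee hw).2
  rw [Complex.mem_slitPlane_iff_arg]
  refine ⟨(abs_lt.mp h).2.ne, ?_⟩
  rw [one_sub_ee' hw]
  exact Complex.exp_ne_zero _

/-- points on the vertical line over `w` -/
private noncomputable def vl (w : ℂ) (t : ℝ) : ℂ :=
  w - ((Real.log t / (2 * Real.pi) : ℝ) : ℂ) * Complex.I

private lemma vl_re (w : ℂ) (t : ℝ) : (vl w t).re = w.re := by
  unfold vl
  simp only [Complex.sub_re, Complex.mul_re, Complex.ofReal_re, Complex.ofReal_im, Complex.I_re,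
    Complex.I_im, mul_zero, mul_one, sub_zero]

private lemma vl_strip {w : ℂ} (hw : w ∈ strip) (t : ℝ) : vl w t ∈ strip := by
  obtain ⟨h1, h2⟩ := hw
  constructor
  · rwa [vl_re]
  · rwa [vl_re]

private lemma ee_vl (w : ℂ) {t : ℝ} (ht : 0 < t) : ee (vl w t) = t * ee w := by
  have hp : (Real.pi : ℂ) ≠ 0 := by exact_mod_cast Real.pi_ne_zero
  have h1 : ((t : ℝ) : ℂ) = Complex.exp ((Real.log t : ℝ) : ℂ) := by
    rw [← Complex.ofReal_exp, Real.exp_log ht]
  rw [h1]
  unfold ee vl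
  rw [← Complex.exp_add]
  congr 1
  push_cast
  field_simp
  linear_combination (-((Real.log t : ℝ) : ℂ)) * Complex.I_sq

theorem li2_ee {w : ℂ} (hw : w ∈ strip) : li2 (ee w) =
    -(2 * Real.pi * Complex.I) * Fh w + Real.pi ^ 2 * (w - 1 / 2) ^ 2 - Real.pi ^ 2 / 12 := by
  have hpi := Real.pi_pos
  have hp : (Real.pi : ℂ) ≠ 0 := by exact_mod_cast Real.pi_ne_zero
  set z := ee w with hz
  have hvd : ∀ t : ℝ, 0 < t → HasDerivAt (vl w) (-((1 / (2 * Real.pi * t) : ℝ) : ℂ) * Complex.I) t := by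
    intro t ht
    unfold vl
    have h1 := (Real.hasDerivAt_log ht.ne').div_const (2 * Real.pi)
    have h2 := (h1.ofReal_comp.mul_const Complex.I).const_sub w
    refine h2.congr_deriv ?_
    push_cast
    field_simp
  have hderiv : ∀ t ∈ Set.Ioi (0 : ℝ), HasDerivAt (fun t : ℝ => Hh (vl w t))
      (-(Complex.log (1 - t * z) / t)) t := by
    intro t ht
    have ht' : (0 : ℝ) < t := ht
    have h1 := (hasDerivAt_Hh (vl_strip hw t)).comp_of_eq t (hvd t ht') rfl
    refine h1.congr_deriv ?_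
    rw [ee_vl w ht', ← hz]
    have : (t : ℂ) ≠ 0 := by exact_mod_cast ht'.ne'
    push_cast
    field_simp
    linear_combination (Complex.log (1 - t * z)) * Complex.I_sq
  have hslit : ∀ t ∈ Set.Icc (0 : ℝ) 1, 1 - t * z ∈ Complex.slitPlane := by
    intro t ht
    rcases ht.1.eq_or_lt with h | h
    · rw [← h]
      simp
    · have := slit_ee (vl_strip hw t)
      rwa [ee_vl w h] at this
  -- integrability
  set F : ℝ → ℂ := fun t => Complex.log (1 - t * z) with hF
  have hc : ContinuousOn (dslope F 0) (Set.Icc 0 1) := by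
    set U : Set ℝ := {t : ℝ | 1 - (t : ℂ) * z ∈ Complex.slitPlane} with hU
    have hUo : IsOpen U := Complex.isOpen_slitPlane.preimage (by fun_prop)
    have hU0 : (0 : ℝ) ∈ U := by simp [hU]
    have hFd : ∀ t ∈ U, DifferentiableAt ℝ F t := by
      intro t ht
      have h1 : HasDerivAt (fun t : ℝ => (1 : ℂ) - t * z) (-z) t := by
        have h3 : HasDerivAt (fun t : ℝ => ((t : ℝ) : ℂ)) 1 t := Complex.ofRealCLM.hasDerivAt
        have h4 := (h3.mul_const z).const_sub (1 : ℂ)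
        simpa using h4
      exact (h1.clog_real ht).differentiableAt
    have h2 : ContinuousOn (dslope F 0) U := by
      rw [continuousOn_dslope (hUo.mem_nhds hU0)]
      exact ⟨fun t ht => (hFd t ht).continuousAt.continuousWithinAt, hFd 0 hU0⟩
    exact h2.mono fun t ht => hslit t ht
  have hds : ∀ t : ℝ, t ≠ 0 → dslope F 0 t = F t / t := by
    intro t ht
    rw [dslope_of_ne _ ht, slope_def_module]
    simp only [hF, Complex.ofReal_zero, zero_mul, sub_zero, Complex.log_one]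
    rw [Complex.real_smul, Complex.ofReal_inv]
    ring
  have hint : IntervalIntegrable (fun t : ℝ => -(Complex.log (1 - t * z) / t)) MeasureTheory.volume 0 1 := by
    have h1 : IntervalIntegrable (dslope F 0) MeasureTheory.volume 0 1 :=
      ContinuousOn.intervalIntegrable (by rwa [Set.uIcc_of_le zero_le_one])
    refine (h1.congr ?_).neg
    intro t ht
    rw [Set.uIoc_of_le zero_le_one] at ht
    exact hds t ht.1.ne'
  -- limits
  have hb : Tendsto (fun t : ℝ => Hh (vl w t)) (𝓝[<] 1) (𝓝 (Hh w)) := by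
    have h1 := (hderiv 1 (Set.mem_Ioi.mpr one_pos)).continuousAt.tendsto
    have h2 : vl w 1 = w := by simp [vl]
    rw [h2] at h1
    exact h1.mono_left nhdsWithin_le_nhds
  have ha : Tendsto (fun t : ℝ => Hh (vl w t)) (𝓝[>] 0) (𝓝 0) := by
    have h1 : Tendsto (fun t : ℝ => dl (t * z)) (𝓝[>] 0) (𝓝 (dl 0)) := by
      have h2 : ContinuousAt dl 0 := by
        apply continuousOn_dl.continuousAt
        have : Metric.closedBall (0 : ℂ) 1 ∈ 𝓝 (0 : ℂ) := Metric.closedBall_mem_nhds 0 one_pos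
        refine Filter.mem_of_superset this fun x hx => ?_
        simpa using hx
      have h3 : Tendsto (fun t : ℝ => (t : ℂ) * z) (𝓝[>] 0) (𝓝 0) := by
        have : Continuous fun t : ℝ => (t : ℂ) * z := by fun_prop
        have h4 := this.tendsto 0
        simp only [Complex.ofReal_zero, zero_mul] at h4
        exact h4.mono_left nhdsWithin_le_nhds
      exact h2.tendsto.comp h3
    have h0 : dl 0 = 0 := by
      unfold dl
      simp
    rw [h0] at h1
    refine h1.congr' ?_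
    have h5 : ∀ᶠ t : ℝ in 𝓝[>] 0, Real.log t < 2 * Real.pi * w.im := by
      have := Real.tendsto_log_nhdsGT_zero
      exact this.eventually_lt_atBot _
    filter_upwards [h5, self_mem_nhdsWithin] with t h6 h7
    have h8 : (0 : ℝ) < t := h7
    rw [Hh_eq (vl_strip hw t), ee_vl w h8]
    unfold vl
    simp only [Complex.sub_im, Complex.mul_im, Complex.ofReal_re, Complex.I_im, mul_one,
      Complex.ofReal_im, Complex.I_re, mul_zero, add_zero]
    rw [sub_pos, div_lt_iff₀ (by positivity)]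
    linarith only [h6]
  have h := intervalIntegral.integral_eq_sub_of_hasDerivAt_of_tendsto zero_lt_one
    (fun t ht => hderiv t ht.1) hint ha hb
  rw [intervalIntegral.integral_neg, sub_zero] at h
  unfold li2
  rw [h]
  rfl

/-! ### Neumann's formula -/

/-- Neumann's extended Rogers dilogarithm `ℛ(z; p, q)`. -/
noncomputable def rog (z : ℂ) (p q : ℤ) : ℂ :=
  li2 z + Complex.log z * Complex.log (1 - z) / 2 +
    Real.pi * Complex.I / 2 * (p * Complex.log (1 - z) + q * Complex.log z) - Real.pi ^ 2 / 6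

/-- The sum over the four tetrahedra of an octahedron, with shapes `x`, `x`, `-q/x`, `-1/(qx)`. -/
noncomputable def roct (x q : ℂ) : ℂ :=
  rog x (-1) 0 + rog x (-1) 1 + rog (-(q / x)) 0 0 + rog (-(1 / (q * x))) 0 0

private lemma log_ee {w : ℂ} (h0 : 0 < w.re) (h1 : w.re < 1 / 2) :
    Complex.log (ee w) = 2 * Real.pi * Complex.I * w := by
  have hp := Real.pi_pos
  have him : (2 * Real.pi * Complex.I * w).im = 2 * Real.pi * w.re := by
    simp [Complex.mul_re, Complex.mul_im]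
  unfold ee
  rw [Complex.log_exp]
  · rw [him]
    have : 0 < 2 * Real.pi * w.re := by positivity
    linarith only [hp, this]
  · rw [him]
    nlinarith only [h1, hp]

private lemma rog_ee {w : ℂ} (h0 : 0 < w.re) (h1 : w.re < 1 / 2) (p q : ℤ) :
    rog (ee w) p q = -(2 * Real.pi * Complex.I) * Fh w + Real.pi ^ 2 * (w - 1 / 2) ^ 2 -
      Real.pi ^ 2 / 12 + Real.pi * Complex.I * (w + p / 2) * (ph w + Real.pi * (w - 1 / 2) * Complex.I) -
      Real.pi ^ 2 * q * w - Real.pi ^ 2 / 6 := by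
  have hs : w ∈ strip := ⟨h0, by linarith only [h0, h1]⟩
  unfold rog
  rw [li2_ee hs, log_ee h0 h1, log_one_sub_ee hs]
  linear_combination (Real.pi ^ 2 * q * w : ℂ) * Complex.I_sq

/-- the octahedron -/
theorem roct_eq {w ζ : ℂ} (h : Pos w ζ) : 2 * Real.pi * Complex.I *
    (Fh (w + 1 / 2 + ζ) + Fh (w + 1 / 2 - ζ) - 2 * Fh w) =
    roct (ee w) (ee ζ) + Real.pi ^ 2 + Real.pi * Complex.I * (ph w + ζ * tz w ζ + w * (ph (w + 1 / 2 + ζ) +
      ph (w + 1 / 2 - ζ) - 2 * ph w) - (ph (w + 1 / 2 + ζ) + ph (w + 1 / 2 - ζ)) / 2) := by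
  obtain ⟨a1, a2⟩ := h
  have a3 := abs_lt.mp a1
  have a4 := abs_lt.mp a2
  have hw0 : 0 < w.re := by linarith only [a3]
  have hw1 : w.re < 1 / 2 := by linarith only [a4]
  unfold roct tz
  rw [shape_one, shape_two, rog_ee hw0 hw1, rog_ee hw0 hw1, rog_ee, rog_ee,
    show (1 / 2 - w + ζ) = 1 - (w + 1 / 2 - ζ) by ring, Fh_one_sub, ph_one_sub,
    show (1 / 2 - w - ζ) = 1 - (w + 1 / 2 + ζ) by ring, Fh_one_sub, ph_one_sub]
  · push_cast
    linear_combination (-(Real.pi : ℂ) ^ 2 * (2 * (w - 1 / 2) ^ 2 +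
      (1 / 2 - w + ζ) * (-w + ζ) + (1 / 2 - w - ζ) * (-w - ζ))) * Complex.I_sq
  · simp
    linarith only [a4]
  · simp
    linarith only [a3]
  · simp
    linarith only [a4]
  · simp
    linarith only [a3]

/-- both octahedra at a turning point -/
theorem tp_eq_rog {w ζ ζ' : ℂ} (h : Pos w ζ) (h' : Pos w ζ') (ht : tw w ζ ζ' = 0) :
    2 * Real.pi * Complex.I * tp w ζ ζ' = roct (ee w) (ee ζ) + roct (ee w) (ee ζ') +
      2 * Real.pi ^ 2 + Real.pi * Complex.I * (tz w ζ * ζ + tz w ζ' * ζ') := by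
  have h1 := roct_eq h
  have h2 := roct_eq h'
  unfold tw at ht
  unfold tp
  linear_combination h1 + h2 + Real.pi * Complex.I * (w - 1 / 2) * ht

variable {V E : Type*} [Fintype V] [Fintype E]

/-- Neumann's formula for `vol + i CS`: minus `i` times the sum of the values of the extended Rogers
dilogarithm over the tetrahedra, minus `π/2` times the sum of the complex lengths `-4πiζ_v` of the
core curves. -/
noncomputable def cvolG (src tgt : E → V) (y : E → ℂ) (ζ : V → ℂ) : ℂ :=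
  -Complex.I * ∑ e, (roct (ee (y e)) (ee (ζ (src e))) + roct (ee (y e)) (ee (ζ (tgt e)))) -
    Real.pi / 2 * ∑ v, -(4 * Real.pi * Complex.I * ζ v)

/-- the critical value is given by Neumann's formula -/
theorem two_pi_TG [DecidableEq V] {src tgt : E → V} {b : V → ℤ} {y : E → ℂ} {ζ : V → ℂ}
    (h : GeomG src tgt b y ζ) : 2 * Real.pi * TG src tgt b y ζ =
      cvolG src tgt y ζ - 2 * Real.pi ^ 2 * Complex.I * Fintype.card E := by
  have hc := (geomG_iff h.pos_src h.pos_tgt).mp h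
  have hI := Complex.I_sq
  -- the sum over the edges
  have e1 : 2 * Real.pi * Complex.I * ∑ e, tp (y e) (ζ (src e)) (ζ (tgt e)) =
      ∑ e, (roct (ee (y e)) (ee (ζ (src e))) + roct (ee (y e)) (ee (ζ (tgt e)))) +
      2 * Real.pi ^ 2 * Fintype.card E + Real.pi * Complex.I * ∑ v, dG src tgt y ζ v * ζ v := by
    rw [sum_dG, mul_sum, mul_sum, show (2 * Real.pi ^ 2 * (Fintype.card E : ℂ)) =
      ∑ _e : E, (2 * Real.pi ^ 2 : ℂ) by simp [mul_comm], ← sum_add_distrib, ← sum_add_distrib]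
    refine sum_congr rfl fun e _ => ?_
    exact tp_eq_rog (h.pos_src e) (h.pos_tgt e) (hc.crit_y e)
  -- the sum over the vertices
  have e2 : Real.pi * Complex.I * ∑ v, dG src tgt y ζ v * ζ v +
      2 * Real.pi * Complex.I * ∑ v, (Real.pi * Complex.I * b v * ζ v ^ 2 +
        2 * Real.pi * Complex.I * ζ v) = -(2 * Real.pi ^ 2) * ∑ v, ζ v := by
    rw [mul_sum, mul_sum, mul_sum, ← sum_add_distrib]
    refine sum_congr rfl fun v _ => ?_
    have := hc.crit_z v
    linear_combination Real.pi * Complex.I * ζ v * this + (2 * Real.pi ^ 2 * ζ v) * hI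
  have e3 : 2 * Real.pi * Complex.I * TG src tgt b y ζ =
      ∑ e, (roct (ee (y e)) (ee (ζ (src e))) + roct (ee (y e)) (ee (ζ (tgt e)))) +
      2 * Real.pi ^ 2 * Fintype.card E - (2 * Real.pi ^ 2) * ∑ v, ζ v := by
    unfold TG
    linear_combination e1 + e2
  unfold cvolG
  have e4 : ∑ v, -(4 * Real.pi * Complex.I * ζ v) = -(4 * Real.pi * Complex.I) * ∑ v, ζ v := by
    rw [mul_sum]
    refine sum_congr rfl fun v _ => ?_
    ring
  rw [e4]
  linear_combination (-Complex.I) * e3 + (2 * Real.pi * TG src tgt b y ζ) * hI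

theorem exp_two_TG [DecidableEq V] {src tgt : E → V} {b : V → ℤ} {y : E → ℂ} {ζ : V → ℂ}
    (h : GeomG src tgt b y ζ) :
    Complex.exp (2 * TG src tgt b y ζ) = Complex.exp (cvolG src tgt y ζ / Real.pi) := by
  have hp : (Real.pi : ℂ) ≠ 0 := by exact_mod_cast Real.pi_ne_zero
  have e : 2 * TG src tgt b y ζ = cvolG src tgt y ζ / Real.pi +
      ((-(Fintype.card E : ℤ) : ℤ) : ℂ) * (2 * Real.pi * Complex.I) := by
    have := two_pi_TG h
    push_cast
    field_simp
    linear_combination this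
  rw [e, Complex.exp_add, Complex.exp_int_mul_two_pi_mul_I, mul_one]

theorem re_cvolG [DecidableEq V] {src tgt : E → V} {b : V → ℤ} {y : E → ℂ} {ζ : V → ℂ}
    (h : GeomG src tgt b y ζ) : (cvolG src tgt y ζ).re = volG src tgt y ζ := by
  have hc := (geomG_iff h.pos_src h.pos_tgt).mp h
  have h1 : ∀ {w z : ℂ}, Pos w z → 0 < w.re ∧ w.re + |z.re| < 1 / 2 := by
    intro w z hp
    exact ⟨(abs_nonneg _).trans_lt hp.1, by linarith only [hp, hp.2]⟩
  rw [← vol_TG hc (fun e => (h1 (h.pos_src e)).1) (fun e => (h1 (h.pos_src e)).2)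
    (fun e => (h1 (h.pos_tgt e)).2)]
  have e := congrArg Complex.re (two_pi_TG h)
  have e2 : (2 * Real.pi * TG src tgt b y ζ).re = 2 * Real.pi * (TG src tgt b y ζ).re := by
    simp [Complex.mul_re, Complex.mul_im]
  have e3 : (2 * Real.pi ^ 2 * Complex.I * (Fintype.card E : ℂ)).re = 0 := by
    have : (2 * Real.pi ^ 2 * Complex.I * (Fintype.card E : ℂ)) =
        ((2 * Real.pi ^ 2 * (Fintype.card E : ℝ) : ℝ) : ℂ) * Complex.I := by
      push_cast
      ring
    rw [this, Complex.re_ofReal_mul, Complex.I_re, mul_zero]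
  rw [e2, Complex.sub_re, e3, sub_zero] at e
  exact e.symm

/-- Neumann's formula for `vol + i CS` with the correction `-(iπ²/2) b_v` for the `b_v` crossings
(half twists) of the twist regions. -/
noncomputable def volCS (src tgt : E → V) (b : V → ℤ) (y : E → ℂ) (ζ : V → ℂ) : ℂ :=
  -Complex.I * ∑ e, (roct (ee (y e)) (ee (ζ (src e))) + roct (ee (y e)) (ee (ζ (tgt e)))) -
    Real.pi / 2 * ∑ v, (-(4 * Real.pi * Complex.I * ζ v) + Real.pi * Complex.I * b v)

theorem volCS_eq (src tgt : E → V) (b : V → ℤ) (y : E → ℂ) (ζ : V → ℂ) :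
    volCS src tgt b y ζ = cvolG src tgt y ζ -
      Real.pi * (Real.pi * Complex.I / 2 * ((∑ v, b v : ℤ) : ℂ)) := by
  have e : ∑ v, (-(4 * Real.pi * Complex.I * ζ v) + Real.pi * Complex.I * b v) =
      ∑ v, -(4 * Real.pi * Complex.I * ζ v) + Real.pi * Complex.I * ((∑ v, b v : ℤ) : ℂ) := by
    push_cast
    rw [sum_add_distrib, ← mul_sum]
  unfold volCS cvolG
  rw [e]
  ring

/-- the limit of the ratios -/
theorem limit_eq [DecidableEq V] {src tgt : E → V} {b : V → ℤ} {y : E → ℂ} {ζ : V → ℂ}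
    (h : GeomG src tgt b y ζ) :
    (-Complex.I) ^ (∑ v, b v) * Complex.exp (2 * TG src tgt b y ζ) =
      Complex.exp (volCS src tgt b y ζ / Real.pi) := by
  have hp : (Real.pi : ℂ) ≠ 0 := by exact_mod_cast Real.pi_ne_zero
  have e : volCS src tgt b y ζ / Real.pi = ((∑ v, b v : ℤ) : ℂ) * (-(Real.pi / 2 * Complex.I)) +
      cvolG src tgt y ζ / Real.pi := by
    rw [volCS_eq]
    field_simp
    ring
  rw [exp_two_TG h, e, Complex.exp_add, Complex.exp_int_mul, Complex.exp_neg,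
    Complex.exp_pi_div_two_mul_I, Complex.inv_I]

theorem re_volCS [DecidableEq V] {src tgt : E → V} {b : V → ℤ} {y : E → ℂ} {ζ : V → ℂ}
    (h : GeomG src tgt b y ζ) : (volCS src tgt b y ζ).re = volG src tgt y ζ := by
  rw [volCS_eq, ← re_cvolG h, Complex.sub_re]
  have : (Real.pi * (Real.pi * Complex.I / 2 * ((∑ v, b v : ℤ) : ℂ))) =
      ((Real.pi * (Real.pi / 2 * ((∑ v, b v : ℤ) : ℝ)) : ℝ) : ℂ) * Complex.I := by
    push_cast
    ring
  rw [this, Complex.re_ofReal_mul, Complex.I_re, mul_zero, sub_zero]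

/-! ### chains -/

/-- Neumann's formula for `vol + i CS`: minus `i` times the sum of the values of the extended Rogers
dilogarithm over the tetrahedra, minus `π/2` times the sum of the complex lengths `-4πiζ_i` of the
core curves. -/
noncomputable def cvolL {M : ℕ} (y : Fin M → ℂ) (ζ : Fin (M + 1) → ℂ) : ℂ :=
  -Complex.I * ∑ j : Fin M, (roct (ee (y j)) (ee (ζ j.castSucc)) + roct (ee (y j)) (ee (ζ j.succ))) -
    Real.pi / 2 * ∑ i, -(4 * Real.pi * Complex.I * ζ i)

theorem cvolL_eq {M : ℕ} (y : Fin M → ℂ) (ζ : Fin (M + 1) → ℂ) :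
    cvolL y ζ = cvolG Fin.castSucc Fin.succ y ζ := rfl

theorem geomG_of_geom {M : ℕ} {b : Fin (M + 1) → ℤ} {y : Fin M → ℂ} {ζ : Fin (M + 1) → ℂ}
    (h : Geom b y ζ) : GeomG Fin.castSucc Fin.succ b y ζ :=
  ⟨h.pos_left, h.pos_right, h.edge, h.filling⟩

theorem exp_two_TT {M : ℕ} {b : Fin (M + 1) → ℤ} {y : Fin M → ℂ} {ζ : Fin (M + 1) → ℂ}
    (h : Geom b y ζ) : Complex.exp (2 * TT b y ζ) = Complex.exp (cvolL y ζ / Real.pi) := by
  have := exp_two_TG (geomG_of_geom h)
  rwa [TG_chain] at this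

theorem re_cvolL {M : ℕ} {b : Fin (M + 1) → ℤ} {y : Fin M → ℂ} {ζ : Fin (M + 1) → ℂ}
    (h : Geom b y ζ) : (cvolL y ζ).re = volL y ζ :=
  re_cvolG (geomG_of_geom h)

end Pool.Agent.Work.MP_b30479_gt.LT
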