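import Pool.Agent.Work.MP_b30479_gt.LT.Defs

/-!
# Gaussian domination of the weights
-/

namespace Pool.Agent.Work.MP_b30479_gt.LT

open Finset VOL AX MeasureTheory

lemma th_nonneg {σ : ℝ} (h : |σ| ≤ 1 / 2) : 0 ≤ th σ := by
  unfold th
  refine le_min zero_le_one ?_
  linarith only [h]

lemma th_le_one (σ : ℝ) : th σ ≤ 1 := min_le_left _ _

lemma th_eq_one {σ : ℝ} (h : |σ| ≤ 1 / 4) : th σ = 1 := by
  unfold th
  exact min_eq_left (by linarith only [h])

lemma zt_re (ρ σ : ℝ) : (zt ρ σ).re = σ := by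
  simp [zt]

lemma zt_im (ρ σ : ℝ) : (zt ρ σ).im = ρ * th σ := by
  simp [zt]

lemma zt_mid {ρ σ : ℝ} (h : |σ| ≤ 1 / 4) : zt ρ σ = (σ : ℂ) + (ρ : ℂ) * Complex.I := by
  simp [zt, th_eq_one h]

lemma norm_dzt_le {ρ : ℝ} (h : 0 ≤ ρ) (σ : ℝ) : ‖dzt ρ σ‖ ≤ 1 + 4 * ρ := by
  unfold dzt
  refine (norm_add_le _ _).trans ?_
  rw [norm_one, norm_mul, Complex.norm_I, mul_one, Complex.norm_real, norm_mul,
    Real.norm_of_nonneg h, mul_comm 4 ρ]
  gcongr
  split_ifs <;> norm_num

/-- `|sin (x + iy)|² = sin² x + sinh² y` -/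
lemma norm_sin_sq (z : ℂ) : ‖Complex.sin z‖ ^ 2 = Real.sin z.re ^ 2 + Real.sinh z.im ^ 2 := by
  have e : z = (z.re : ℂ) + (z.im : ℂ) * Complex.I := (Complex.re_add_im z).symm
  rw [Complex.sq_norm, Complex.normSq_apply]
  conv_lhs => rw [e]
  rw [Complex.sin_add_mul_I, ← Complex.ofReal_sin, ← Complex.ofReal_cosh,
    ← Complex.ofReal_cos, ← Complex.ofReal_sinh]
  simp only [Complex.add_re, Complex.add_im, Complex.mul_re, Complex.mul_im, Complex.ofReal_re,
    Complex.ofReal_im, Complex.I_re, Complex.I_im]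
  have c1 := Real.sin_sq_add_cos_sq z.re
  have c2 := Real.cosh_sq z.im
  have hb : Real.cos z.re ^ 2 = 1 - Real.sin z.re ^ 2 := by linarith only [c1]
  ring_nf
  rw [hb, c2]
  ring

lemma norm_sin_le (z : ℂ) : ‖Complex.sin z‖ ≤ Real.cosh z.im := by
  apply le_of_sq_le_sq _ (Real.cosh_pos _).le
  rw [norm_sin_sq, Real.cosh_sq]
  have := Real.sin_sq_le_one z.re
  linarith only [this]

lemma sinh_exp_lower {a x : ℝ} (hx : a ≤ x) :
    (1 - Real.exp (-(2 * a))) / 2 * Real.exp x ≤ Real.sinh x := by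
  rw [Real.sinh_eq]
  have h1 : Real.exp (-x) = Real.exp (-(2 * x)) * Real.exp x := by
    rw [← Real.exp_add]; congr 1; ring
  have h2 : Real.exp (-(2 * x)) ≤ Real.exp (-(2 * a)) := Real.exp_le_exp.mpr (by linarith only [hx])
  rw [h1]
  have := Real.exp_pos x
  nlinarith only [h2, this]

/-- lower bound for the denominator in the whole range -/
lemma sin_lower_all {n : ℕ} (hn : Odd n) {ρ σ : ℝ} (hρ : 0 < ρ) (hσ : |σ| ≤ 1 / 2) :
    min (1 / 2) ((Real.pi * ρ) ^ 2) ≤ ‖Complex.sin (Real.pi * n * zt ρ σ)‖ ^ 2 := by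
  have hpi := Real.pi_pos
  have hn1 : (1 : ℝ) ≤ n := by
    have := hn.pos
    exact_mod_cast this
  have e : (Real.pi : ℂ) * n * zt ρ σ = ((Real.pi * n : ℝ) : ℂ) * zt ρ σ := by push_cast; ring
  rw [norm_sin_sq, e, Complex.re_ofReal_mul, Complex.im_ofReal_mul, zt_re, zt_im]
  -- `x = n (1/2 - |σ|)`
  by_cases hx : (n : ℝ) * (1 / 2 - |σ|) ≤ 1 / 4
  · -- the cosine is large
    have h1 : Real.sin (Real.pi * n * σ) ^ 2 =
        Real.cos (Real.pi * (n * (1 / 2 - |σ|))) ^ 2 := by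
      have h2 : Real.sin (Real.pi * n * σ) ^ 2 = Real.sin (Real.pi * n * |σ|) ^ 2 := by
        rcases abs_cases σ with h | h
        · rw [h.1]
        · rw [h.1, mul_neg, Real.sin_neg, neg_sq]
      obtain ⟨k, hk⟩ := hn
      have h3 : Real.pi * n * |σ| = Real.pi / 2 - Real.pi * (n * (1 / 2 - |σ|)) + k * Real.pi := by
        have : (n : ℝ) = 2 * k + 1 := by rw [hk]; push_cast; ring
        rw [this]
        ring
      rw [h2, h3, Real.sin_add_nat_mul_pi, mul_pow, Real.sin_pi_div_two_sub]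
      have : ((-1 : ℝ) ^ k) ^ 2 = 1 := by
        rw [← pow_mul, mul_comm, pow_mul]; simp
      rw [this, one_mul]
    have h4 : 0 ≤ (n : ℝ) * (1 / 2 - |σ|) := by
      apply mul_nonneg (by linarith only [hn1])
      linarith only [hσ]
    have h5 : 1 / 2 ≤ Real.cos (Real.pi * (n * (1 / 2 - |σ|))) ^ 2 := by
      have h6 : Real.cos (Real.pi / 4) ≤ Real.cos (Real.pi * (n * (1 / 2 - |σ|))) := by
        apply Real.cos_le_cos_of_nonneg_of_le_pi
        · positivity
        · linarith only [hpi]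
        · nlinarith only [hpi, hx]
      rw [Real.cos_pi_div_four] at h6
      have h7 : (√2 / 2) ^ 2 = 1 / 2 := by
        rw [div_pow, Real.sq_sqrt (by norm_num)]; norm_num
      exact h7.symm.le.trans (pow_le_pow_left₀ (by positivity) h6 2)
    rw [h1]
    refine (min_le_left _ _).trans ?_
    have := sq_nonneg (Real.sinh (Real.pi * n * (ρ * th σ)))
    linarith only [h5, this]
  · push Not at hx
    have h1 : 1 ≤ (n : ℝ) * th σ := by
      unfold th
      rcases le_total (1 : ℝ) (2 - 4 * |σ|) with h | h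
      · rw [min_eq_left h]; linarith only [hn1]
      · rw [min_eq_right h]; linarith only [hx]
    have h2 : Real.pi * ρ ≤ Real.pi * n * (ρ * th σ) := by
      have : Real.pi * n * (ρ * th σ) = (Real.pi * ρ) * (n * th σ) := by ring
      rw [this]
      exact le_mul_of_one_le_right (by positivity) h1
    have h3 : Real.pi * ρ ≤ Real.sinh (Real.pi * n * (ρ * th σ)) := by
      refine h2.trans ?_
      exact Real.self_le_sinh_iff.mpr (le_trans (by positivity) h2)
    have h4 : (Real.pi * ρ) ^ 2 ≤ Real.sinh (Real.pi * n * (ρ * th σ)) ^ 2 :=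
      pow_le_pow_left₀ (by positivity) h3 2
    refine (min_le_right _ _).trans ?_
    have := sq_nonneg (Real.sin (Real.pi * n * σ))
    linarith only [h4, this]

lemma norm_exp_weight (n : ℕ) (b : ℤ) (ρ σ : ℝ) :
    ‖Complex.exp (Real.pi * Complex.I * b * n * zt ρ σ ^ 2)‖ =
      Real.exp (n * (-(2 * Real.pi * b * ρ * σ * th σ))) := by
  rw [Complex.norm_exp]
  congr 1
  have e : (Real.pi : ℂ) * Complex.I * b * n * zt ρ σ ^ 2 =
      ((Real.pi * b * n : ℝ) : ℂ) * (Complex.I * zt ρ σ ^ 2) := by push_cast; ring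
  rw [e, Complex.re_ofReal_mul, Complex.mul_re, Complex.I_re, Complex.I_im, sq, Complex.mul_im,
    zt_re, zt_im]
  ring

/-- domination of the weight -/
theorem EE_bound {c : ℝ} (hc : 0 < c) : ∃ η ε : ℝ, 0 < η ∧ 0 < ε ∧ ∀ (b : ℤ) (ζ : ℂ), 0 < ζ.im →
    ‖ζ‖ ≤ η → |(b : ℝ) * ζ.im| ≤ ε → ∃ (C : ℝ) (N : ℕ), 0 ≤ C ∧ ∀ n : ℕ, N ≤ n → Odd n → ∀ σ : ℝ,
    |σ| ≤ 1 / 2 → ‖EE n b ζ.im σ‖ ≤ C * Real.exp (n * (-(2 * Real.pi * ζ.im * (1 + b * σ)) +
      c * (σ - ζ.re) ^ 2)) := by
  have hpi := Real.pi_pos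
  have hpi4 : Real.pi < 4 := Real.pi_lt_four
  refine ⟨min (1 / 8) (c / 1024), c / 1024, by positivity, by positivity, ?_⟩
  intro b ζ hζ hη hb
  set ρ := ζ.im with hρ
  have hη1 : ‖ζ‖ ≤ 1 / 8 := hη.trans (min_le_left _ _)
  have hη2 : ‖ζ‖ ≤ c / 1024 := hη.trans (min_le_right _ _)
  have hρ1 : ρ ≤ ‖ζ‖ := (le_abs_self _).trans (Complex.abs_im_le_norm ζ)
  have hre : |ζ.re| ≤ 1 / 8 := (Complex.abs_re_le_norm ζ).trans hη1
  set q := min (1 / 2) ((Real.pi * ρ) ^ 2) with hq
  have hq0 : 0 < q := by positivity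
  set u := (1 - Real.exp (-(2 * (Real.pi * ρ)))) / 2 with hu
  have hu0 : 0 < u := by
    rw [hu]
    have : Real.exp (-(2 * (Real.pi * ρ))) < 1 := by
      rw [Real.exp_lt_one_iff]
      have : 0 < Real.pi * ρ := by positivity
      linarith only [this]
    linarith only [this]
  set K := Real.cosh (2 * Real.pi * ρ) * (1 + 4 * ρ) with hK
  have hK0 : 0 ≤ K := by positivity
  refine ⟨K * (1 / q + 1 / u ^ 2), 1, by positivity, ?_⟩
  intro n hn hodd σ hσ
  have hn1 : (1 : ℝ) ≤ n := by exact_mod_cast hn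
  have hth0 := th_nonneg hσ
  have hth1 := th_le_one σ
  -- the numerator
  have h1 : ‖Complex.sin (2 * Real.pi * zt ρ σ)‖ ≤ Real.cosh (2 * Real.pi * ρ) := by
    refine (norm_sin_le _).trans ?_
    have e : (2 : ℂ) * Real.pi * zt ρ σ = ((2 * Real.pi : ℝ) : ℂ) * zt ρ σ := by push_cast; ring
    rw [e, Complex.im_ofReal_mul, zt_im, Real.cosh_le_cosh, abs_of_nonneg (by positivity),
      abs_of_nonneg (by positivity)]
    have : ρ * th σ ≤ ρ * 1 := mul_le_mul_of_nonneg_left hth1 hζ.le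
    nlinarith only [hpi, this]
  have h2 := norm_dzt_le hζ.le σ
  have h3 : ‖EE n b ρ σ‖ = Real.exp (n * (-(2 * Real.pi * b * ρ * σ * th σ))) *
      ‖Complex.sin (2 * Real.pi * zt ρ σ)‖ / ‖Complex.sin (Real.pi * n * zt ρ σ)‖ ^ 2 *
      ‖dzt ρ σ‖ := by
    unfold EE
    rw [norm_mul, norm_div, norm_mul, norm_pow, norm_exp_weight]
  have hmain : ∀ R E : ℝ, 0 ≤ R → (‖Complex.sin (Real.pi * n * zt ρ σ)‖ ^ 2)⁻¹ ≤
      R * Real.exp (n * E) →
      -(2 * Real.pi * b * ρ * σ * th σ) + E ≤ -(2 * Real.pi * ρ * (1 + b * σ)) +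
        c * (σ - ζ.re) ^ 2 → ‖EE n b ρ σ‖ ≤ K * R * Real.exp (n * (-(2 * Real.pi * ρ * (1 + b * σ)) +
        c * (σ - ζ.re) ^ 2)) := by
    intro R E hR hden hexp
    rw [h3, div_eq_mul_inv]
    calc _ ≤ Real.exp (n * (-(2 * Real.pi * b * ρ * σ * th σ))) *
          Real.cosh (2 * Real.pi * ρ) * (R * Real.exp (n * E)) * (1 + 4 * ρ) := by gcongr
      _ = K * R * (Real.exp (n * (-(2 * Real.pi * b * ρ * σ * th σ))) * Real.exp (n * E)) := by
          rw [hK]; ring
      _ = K * R * Real.exp (n * (-(2 * Real.pi * b * ρ * σ * th σ) + E)) := by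
          rw [← Real.exp_add]; congr 2; ring
      _ ≤ _ := by gcongr
  by_cases hs : |σ| ≤ 1 / 4
  · -- the middle part
    have hth := th_eq_one hs
    have hden : (‖Complex.sin (Real.pi * n * zt ρ σ)‖ ^ 2)⁻¹ ≤
        1 / u ^ 2 * Real.exp (n * (-(2 * Real.pi * ρ))) := by
      have h4 : u ^ 2 * Real.exp (n * (2 * Real.pi * ρ)) ≤
          ‖Complex.sin (Real.pi * n * zt ρ σ)‖ ^ 2 := by
        have e : (Real.pi : ℂ) * n * zt ρ σ = ((Real.pi * n : ℝ) : ℂ) * zt ρ σ := by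
          push_cast; ring
        rw [norm_sin_sq, e, Complex.im_ofReal_mul, zt_im, hth, mul_one]
        have h5 : Real.pi * ρ ≤ Real.pi * n * ρ := by
          have : Real.pi * n * ρ = Real.pi * ρ * n := by ring
          rw [this]
          exact le_mul_of_one_le_right (by positivity) hn1
        have h6 := sinh_exp_lower h5
        have h7 : (u * Real.exp (Real.pi * n * ρ)) ^ 2 ≤ Real.sinh (Real.pi * n * ρ) ^ 2 :=
          pow_le_pow_left₀ (by positivity) h6 2
        have h8 : (u * Real.exp (Real.pi * n * ρ)) ^ 2 =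
            u ^ 2 * Real.exp (n * (2 * Real.pi * ρ)) := by
          rw [mul_pow, ← Real.exp_nat_mul]
          congr 2
          push_cast
          ring
        rw [← h8]
        refine h7.trans ?_
        have := sq_nonneg (Real.sin (((Real.pi * n : ℝ) : ℂ) * zt ρ σ).re)
        linarith only [this]
      have h9 : (0 : ℝ) < u ^ 2 * Real.exp (n * (2 * Real.pi * ρ)) := by positivity
      refine (inv_anti₀ h9 h4).trans (le_of_eq ?_)
      rw [mul_inv, ← Real.exp_neg, one_div]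
      congr 2
      ring
    have h10 := hmain (1 / u ^ 2) (-(2 * Real.pi * ρ)) (by positivity) hden (by
      rw [hth]
      have : 0 ≤ c * (σ - ζ.re) ^ 2 := by positivity
      nlinarith only [this])
    refine h10.trans ?_
    gcongr
    have : 0 ≤ 1 / q := by positivity
    linarith only [this]
  · push Not at hs
    have hden : (‖Complex.sin (Real.pi * n * zt ρ σ)‖ ^ 2)⁻¹ ≤ 1 / q * Real.exp (n * 0) := by
      rw [mul_zero, Real.exp_zero, mul_one, one_div]
      exact inv_anti₀ hq0 (sin_lower_all hodd hζ hσ)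
    have h10 := hmain (1 / q) 0 (by positivity) hden (by
      have h11 : 1 / 64 ≤ (σ - ζ.re) ^ 2 := by
        have h12 : 1 / 8 ≤ |σ - ζ.re| := by
          have := abs_sub_abs_le_abs_sub σ ζ.re
          linarith only [hre, hs, this]
        rw [← sq_abs]
        nlinarith only [h12]
      have h13 : c / 64 ≤ c * (σ - ζ.re) ^ 2 := by
        have := mul_le_mul_of_nonneg_left h11 hc.le
        linarith only [this]
      -- bound of `b ρ σ`
      have h14 : |(b : ℝ) * ρ * σ| ≤ c / 1024 * (1 / 2) := by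
        rw [abs_mul]
        gcongr
      have h15 := abs_le.mp h14
      have h16 : |(b : ℝ) * ρ * σ * th σ| ≤ c / 1024 * (1 / 2) * 1 := by
        rw [abs_mul, abs_of_nonneg hth0]
        gcongr
      have h17 := abs_le.mp h16
      have h18 : ρ ≤ c / 1024 := hρ1.trans hη2
      have e1 : 2 * Real.pi * b * ρ * σ * th σ = 2 * Real.pi * (b * ρ * σ * th σ) := by ring
      have e2 : 2 * Real.pi * ρ * (1 + b * σ) = 2 * Real.pi * (ρ + b * ρ * σ) := by ring
      rw [e1, e2]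
      have h19 : 2 * Real.pi * (ρ + b * ρ * σ - b * ρ * σ * th σ) ≤ c / 64 := by
        have h20 : ρ + b * ρ * σ - b * ρ * σ * th σ ≤ c / 512 := by linarith only [hη2, hρ1, h15, h17]
        have h21 : 2 * Real.pi * (ρ + b * ρ * σ - b * ρ * σ * th σ) ≤ 2 * Real.pi * (c / 512) :=
          mul_le_mul_of_nonneg_left h20 (by positivity)
        nlinarith only [h21, hc, hpi4]
      linarith only [h13, h19])
    refine h10.trans ?_
    gcongr
    have : 0 ≤ 1 / u ^ 2 := by positivity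
    linarith only [this]

end Pool.Agent.Work.MP_b30479_gt.LT
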