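import Pool.Agent.Work.MP_b30479_gt.LT.Mid
import Pool.Agent.Work.MP_b30479_gt.VC.AbelPlanaF

/-!
# The kernel near the maximum
-/

namespace Pool.Agent.Work.MP_b30479_gt.LT

open Finset VOL AX MeasureTheory

/-- midpoint summation formula on a finite rectangle (for example from `VC.AbelPlana` or directly):
`∑_{k=a}^{b-1} g k` is the integral over `[a-1/2, b-1/2]` at height `t`, up to the integrals over the
sides (up to the heights `±H`) and the integrals over top and bottom with the factor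
`e^{-2πH}` -/
theorem sum_rect {g : ℂ → ℂ} {a b : ℕ} (hab : a ≤ b) {H t : ℝ} (hH : 1 ≤ H) (ht : |t| ≤ H)
    (hg : DifferentiableOn ℂ g {z | (a : ℝ) - 1 ≤ z.re ∧ z.re ≤ b}) {B1 B2 : ℝ}
    (hside : ∀ y : ℝ, |y| ≤ H → ‖g (((a : ℝ) - 1 / 2 : ℝ) + y * Complex.I)‖ ≤ B1 ∧
      ‖g (((b : ℝ) - 1 / 2 : ℝ) + y * Complex.I)‖ ≤ B1)
    (htop : ∀ x : ℝ, (a : ℝ) - 1 / 2 ≤ x → x ≤ (b : ℝ) - 1 / 2 →
      ‖g (x + H * Complex.I)‖ ≤ B2 ∧ ‖g (x - H * Complex.I)‖ ≤ B2) :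
    ‖∑ k ∈ Ico a b, g k - ∫ x in ((a : ℝ) - 1 / 2)..((b : ℝ) - 1 / 2), g (x + t * Complex.I)‖ ≤
      8 * H * B1 + 4 * ((b : ℝ) - a) * Real.exp (-(2 * Real.pi * H)) * B2 := by
  have hpi := Real.pi_gt_three
  have hH0 : 0 < H := by linarith only [hH]
  have hba : ((b : ℝ) - a) = ((b - a : ℕ) : ℝ) := by
    rw [Nat.cast_sub hab]
  have habR : (a : ℝ) ≤ b := by exact_mod_cast hab
  have hadm : VC.AdmF g (((a : ℤ) : ℝ) - 1 / 2) (((a : ℤ) : ℝ) + ((b - a : ℕ) : ℝ) - 1 / 2) := by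
    have hsub : ∀ z : ℂ, z ∈ VC.strip (((a : ℤ) : ℝ) - 1 / 2)
        (((a : ℤ) : ℝ) + ((b - a : ℕ) : ℝ) - 1 / 2) →
        z ∈ {z : ℂ | (a : ℝ) - 1 ≤ z.re ∧ z.re ≤ b} := by
      intro z hz
      have h1 := hz.1
      have h2 := hz.2
      rw [← hba] at h2
      push_cast at h1 h2
      constructor <;> linarith only [h1, h2]
    exact ⟨(hg.mono hsub).continuousOn, hg.mono fun z hz => hsub z (VC.ostrip_subset_strip _ _ hz)⟩
  have h := VC.abel_planaF (g := g) (a : ℤ) (b - a) hadm hH0 hH0 t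
  have hsum : ∑ j ∈ range (b - a), g (((a : ℤ) : ℂ) + j) = ∑ k ∈ Ico a b, g k := by
    rw [Finset.sum_Ico_eq_sum_range]
    refine Finset.sum_congr rfl fun j _ => ?_
    push_cast
    rfl
  rw [hsum, ← hba] at h
  have e1 : ((a : ℤ) : ℝ) - 1 / 2 = (a : ℝ) - 1 / 2 := by push_cast; rfl
  have e2 : ((a : ℤ) : ℝ) + ((b : ℝ) - a) - 1 / 2 = (b : ℝ) - 1 / 2 := by push_cast; ring
  rw [e1, e2] at h
  rw [h]
  have e3 : ∀ X Y Z : ℂ, X + Y + Z - X = Y + Z := fun X Y Z => by ring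
  rw [e3]
  have hB1 : 0 ≤ B1 := (norm_nonneg _).trans (hside 0 (by simpa using hH0.le)).1
  have hB2 : 0 ≤ B2 := (norm_nonneg _).trans (htop ((a : ℝ) - 1 / 2) le_rfl (by linarith only [hba])).1
  have hm := VC.norm_modeF_le (g := g) (a := (a : ℝ) - 1 / 2) (b := (b : ℝ) - 1 / 2)
    (K := B2) (K' := B2) (by linarith only [hba]) hH0 hH0 (fun x h1 h2 => (htop x h1 h2).1)
    (fun x h1 h2 => (htop x h1 h2).2)
  have hrho : ∀ y : ℝ, VC.rho y ≤ 1 := VC.rho_le_one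
  have ht' := abs_le.mp ht
  have hs : ∀ ξ : ℝ, (∀ y : ℝ, |y| ≤ H → ‖g ((ξ : ℂ) + y * Complex.I)‖ ≤ B1) →
      ‖VC.sideF g H H t ξ‖ ≤ (H + H) * B1 := by
    intro ξ hξ
    refine VC.norm_sideF_le ht'.2 ht'.1 ?_ ?_
    · intro y h1 h2
      have h3 := hξ y (abs_le.mpr ⟨by linarith only [ht'.1, ht', h1], h2⟩)
      calc VC.rho y * ‖g ((ξ : ℂ) + y * Complex.I)‖ ≤ 1 * B1 :=
            mul_le_mul (hrho y) h3 (norm_nonneg _) zero_le_one
        _ = B1 := one_mul _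
    · intro y h1 h2
      have h3 := hξ y (abs_le.mpr ⟨h1, by linarith only [ht'.2, ht', h2]⟩)
      calc VC.rho (-y) * ‖g ((ξ : ℂ) + y * Complex.I)‖ ≤ 1 * B1 :=
            mul_le_mul (hrho (-y)) h3 (norm_nonneg _) zero_le_one
        _ = B1 := one_mul _
  have hs1 := hs ((a : ℝ) - 1 / 2) fun y hy => (hside y hy).1
  have hs2 := hs ((b : ℝ) - 1 / 2) fun y hy => (hside y hy).2
  refine (norm_add_le _ _).trans ?_
  have h4 : ‖Complex.I • (VC.sideF g H H t ((b : ℝ) - 1 / 2) -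
      VC.sideF g H H t ((a : ℝ) - 1 / 2))‖ ≤ 8 * H * B1 := by
    rw [norm_smul, Complex.norm_I, one_mul]
    refine (norm_sub_le _ _).trans ?_
    nlinarith only [mul_nonneg hH0.le hB1, hs1, hs2, hH0, hB1]
  have h5 : Real.exp (-(2 * Real.pi) * H) / (1 - Real.exp (-(2 * Real.pi) * H)) ≤
      2 * Real.exp (-(2 * Real.pi * H)) := by
    have e4 : -(2 * Real.pi) * H = -(2 * Real.pi * H) := by ring
    rw [e4]
    have h6 : Real.exp (-(2 * Real.pi * H)) ≤ 1 / 2 := by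
      have h7 : Real.exp (-(2 * Real.pi * H)) ≤ Real.exp (-1) := by
        apply Real.exp_le_exp.mpr
        nlinarith only [hH, hpi]
      have h8 : Real.exp (-1) ≤ 1 / 2 := by
        rw [Real.exp_neg, inv_eq_one_div]
        apply one_div_le_one_div_of_le (by norm_num)
        have := Real.add_one_le_exp (1 : ℝ)
        linarith only [this]
      linarith only [h7, h8]
    have h9 := Real.exp_pos (-(2 * Real.pi * H))
    rw [div_le_iff₀ (by linarith only [h6, h9])]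
    nlinarith only [h6, h9]
  have h6 : ‖VC.modeF g H H ((a : ℝ) - 1 / 2) ((b : ℝ) - 1 / 2)‖ ≤
      4 * ((b : ℝ) - a) * Real.exp (-(2 * Real.pi * H)) * B2 := by
    refine hm.trans ?_
    have h7 : ((b : ℝ) - 1 / 2 - ((a : ℝ) - 1 / 2)) = (b : ℝ) - a := by ring
    rw [h7]
    have h8 : 0 ≤ (b : ℝ) - a := by linarith only [hba]
    calc ((b : ℝ) - a) * (Real.exp (-(2 * Real.pi) * H) / (1 - Real.exp (-(2 * Real.pi) * H)) * B2 +
          Real.exp (-(2 * Real.pi) * H) / (1 - Real.exp (-(2 * Real.pi) * H)) * B2)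
        ≤ ((b : ℝ) - a) * (2 * Real.exp (-(2 * Real.pi * H)) * B2 +
          2 * Real.exp (-(2 * Real.pi * H)) * B2) := by gcongr
      _ = 4 * ((b : ℝ) - a) * Real.exp (-(2 * Real.pi * H)) * B2 := by ring
  linarith only [h4, h6]

theorem norm_exp_ph_le {w : ℂ} (h0 : 1 / 8 ≤ w.re) (h1 : w.re ≤ 3 / 8) :
    ‖Complex.exp (-(2 * ph w))‖ ≤ 4 := by
  have hpi := Real.pi_pos
  have hw : w ∈ VOL.strip := ⟨by linarith only [h0], by linarith only [h1]⟩
  have h2 : 1 / 4 ≤ Real.sin (Real.pi * w.re) := by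
    have h3 := Real.mul_le_sin (x := Real.pi * w.re) (by positivity) (by nlinarith only [hpi, h1])
    have h4 : 2 / Real.pi * (Real.pi * w.re) = 2 * w.re := by
      field_simp
    linarith only [h0, h3, h4]
  have h3 : 1 / 2 ≤ ‖2 * Complex.sin (Real.pi * w)‖ := by
    rw [norm_mul, Complex.norm_ofNat]
    have h4 := Complex.re_le_norm (Complex.sin (Real.pi * w))
    rw [sin_pi_re] at h4
    have h5 := Real.one_le_cosh (Real.pi * w.im)
    nlinarith only [h2, h4, h5]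
  have h4 : Complex.exp (-(2 * ph w)) = ((2 * Complex.sin (Real.pi * w)) ^ 2)⁻¹ := by
    rw [Complex.exp_neg, ← exp_ph hw, ← Complex.exp_nat_mul]
    norm_num
  rw [h4, norm_inv, norm_pow]
  have h5 : 1 / 4 ≤ ‖2 * Complex.sin (Real.pi * w)‖ ^ 2 := by nlinarith only [h3]
  calc (‖2 * Complex.sin (Real.pi * w)‖ ^ 2)⁻¹ ≤ (1 / 4)⁻¹ := inv_anti₀ (by norm_num) h5
    _ = 4 := by norm_num

/-- upper bound for the integrand -/
theorem exp_Tn_le : ∃ K : ℝ, 0 ≤ K ∧ ∀ n : ℕ, 8 ≤ n → ∀ w ζ ζ' : ℂ, 1 / 8 ≤ w.re → w.re ≤ 3 / 8 →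
    |ζ.re| ≤ 1 / 16 → |ζ'.re| ≤ 1 / 16 →
    ‖Complex.exp (Tn n w ζ ζ')‖ ≤ K * Real.exp (n * (tp w ζ ζ').re) := by
  obtain ⟨C, hC, h⟩ := Tn_expand
  refine ⟨4 * Real.exp C, by positivity, ?_⟩
  intro n hn w ζ ζ' h0 h1 h2 h3
  have h4 := h n hn w ζ ζ' h0 h1 h2 h3
  have hn1 : (1 : ℝ) ≤ n := by exact_mod_cast (by omega : 1 ≤ n)
  have h5 : C / n ≤ C := div_le_self hC hn1
  have h6 : Tn n w ζ ζ' = (n * tp w ζ ζ' + -(2 * ph w)) +
      (Tn n w ζ ζ' - (n * tp w ζ ζ' - 2 * ph w)) := by ring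
  rw [h6, Complex.exp_add, Complex.exp_add, norm_mul, norm_mul]
  have h7 : ‖Complex.exp (n * tp w ζ ζ')‖ = Real.exp (n * (tp w ζ ζ').re) := by
    rw [Complex.norm_exp]
    simp
  have h8 : ‖Complex.exp (Tn n w ζ ζ' - (n * tp w ζ ζ' - 2 * ph w))‖ ≤ Real.exp C := by
    rw [Complex.norm_exp]
    exact Real.exp_le_exp.mpr ((Complex.re_le_norm _).trans (h4.trans h5))
  rw [h7]
  have h9 := norm_exp_ph_le h0 h1
  calc Real.exp (n * (tp w ζ ζ').re) * ‖Complex.exp (-(2 * ph w))‖ *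
        ‖Complex.exp (Tn n w ζ ζ' - (n * tp w ζ ζ' - 2 * ph w))‖
      ≤ Real.exp (n * (tp w ζ ζ').re) * 4 * Real.exp C := by gcongr
    _ = 4 * Real.exp C * Real.exp (n * (tp w ζ ζ').re) := by ring

theorem absorb {c : ℝ} (hc : 0 < c) (n : ℕ) (t : ℝ) :
    (n : ℝ) * Real.exp (n * (t - c)) ≤ 2 / c * Real.exp (n * (t - c / 2)) := by
  have h1 := Real.add_one_le_exp ((n : ℝ) * (c / 2))
  have h2 : (n : ℝ) ≤ 2 / c * Real.exp ((n : ℝ) * (c / 2)) := by
    have h3 : (n : ℝ) * (c / 2) ≤ Real.exp ((n : ℝ) * (c / 2)) := by linarith only [h1]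
    calc (n : ℝ) = 2 / c * ((n : ℝ) * (c / 2)) := by field_simp
      _ ≤ _ := by gcongr
  have h4 : Real.exp (n * (t - c / 2)) = Real.exp ((n : ℝ) * (c / 2)) * Real.exp (n * (t - c)) := by
    rw [← Real.exp_add]
    congr 1
    ring
  rw [h4, ← mul_assoc]
  exact mul_le_mul_of_nonneg_right h2 (Real.exp_pos _).le

theorem near_num {n κ K E e1 e2 a b : ℝ} (hn : 1 ≤ n) (hκ : 0 ≤ κ) (hK : 0 ≤ K) (hE : 0 ≤ E)
    (he : e1 * e2 = E) (ha : 0 ≤ a) (hb : b ≤ n) :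
    8 * (κ * n) * (1 / n ^ 2 * (K * E)) + 4 * (b - a) * e1 * (1 / n ^ 2 * (K * e2)) ≤
      (8 * κ * K + 4 * K) * E := by
  have hnpos : 0 < n := by linarith only [hn]
  have h4 : 4 * (b - a) * e1 * (1 / n ^ 2 * (K * e2)) = 4 * ((b - a) / n ^ 2) * K * E := by
    rw [← he]
    ring
  rw [h4]
  have h5 : (b - a) / n ^ 2 ≤ 1 := by
    rw [div_le_one (by positivity)]
    nlinarith only [hn, ha, hb]
  have h6 : 8 * (κ * n) * (1 / n ^ 2 * (K * E)) = 8 * κ * (1 / n) * (K * E) := by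
    field_simp
  rw [h6]
  have h7 : 1 / n ≤ 1 := by
    rw [div_le_one hnpos]
    exact hn
  have h8 : 0 ≤ K * E := by positivity
  have h9 : 8 * κ * (1 / n) * (K * E) ≤ 8 * κ * 1 * (K * E) := by gcongr
  have h10 : 4 * ((b - a) / n ^ 2) * K * E ≤ 4 * 1 * K * E := by gcongr
  linarith only [h9, h10]

theorem far_sum {n a b : ℕ} {ζ ζ' : ℂ} {B : ℝ} (hbn : b ≤ n) (hB : 0 ≤ B)
    (hterm : ∀ k < n, (k < a ∨ b ≤ k) → ‖term n k ζ ζ'‖ ≤ B) :
    ‖SS n ζ ζ' - ∑ k ∈ Ico a b, term n k ζ ζ'‖ ≤ n * B := by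
  have h1 : SS n ζ ζ' - ∑ k ∈ Ico a b, term n k ζ ζ' = ∑ k ∈ range n \ Ico a b, term n k ζ ζ' := by
    unfold SS
    rw [← Finset.sum_sdiff (s₁ := Ico a b) (s₂ := range n)]
    · ring
    · intro k hk
      rw [Finset.mem_Ico] at hk
      rw [Finset.mem_range]
      omega
  rw [h1]
  have h2 : ∀ k ∈ range n \ Ico a b, ‖term n k ζ ζ'‖ ≤ B := by
    intro k hk
    rw [Finset.mem_sdiff, Finset.mem_range, Finset.mem_Ico] at hk
    refine hterm k hk.1 ?_
    by_contra h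
    push Not at h
    exact hk.2 h
  refine (norm_sum_le _ _).trans ((Finset.sum_le_sum h2).trans ?_)
  rw [Finset.sum_const, nsmul_eq_mul]
  apply mul_le_mul_of_nonneg_right _ hB
  have h3 : (range n \ Ico a b).card ≤ n := by
    refine (Finset.card_le_card Finset.sdiff_subset).trans ?_
    rw [Finset.card_range]
  exact_mod_cast h3

theorem end_int {f : ℝ → ℂ} {A B B₀ : ℝ} (hfc : ContinuousOn f (Set.Icc (1 / 8) (3 / 8)))
    (hA : 1 / 8 ≤ A) (hA' : A ≤ 3 / 16) (hB : 5 / 16 ≤ B) (hB' : B ≤ 3 / 8) (hB₀ : 0 ≤ B₀)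
    (hfb : ∀ u : ℝ, 1 / 8 ≤ u → u ≤ 3 / 8 → 1 / 16 ≤ |u - 1 / 4| → ‖f u‖ ≤ B₀) :
    ‖(∫ u in (1 / 8 : ℝ)..(3 / 8), f u) - ∫ u in A..B, f u‖ ≤ 2 * B₀ := by
  have hii : ∀ u v : ℝ, 1 / 8 ≤ u → u ≤ 3 / 8 → 1 / 8 ≤ v → v ≤ 3 / 8 →
      IntervalIntegrable f volume u v := by
    intro u v h1 h2 h3 h4
    refine (hfc.mono ?_).intervalIntegrable
    intro x hx
    rw [Set.mem_uIcc] at hx
    rcases hx with hx | hx
    · exact ⟨h1.trans hx.1, hx.2.trans h4⟩
    · exact ⟨h3.trans hx.1, hx.2.trans h2⟩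
  have h2 := intervalIntegral.integral_add_adjacent_intervals
    (hii (1 / 8) A le_rfl (by norm_num) hA (by linarith only [hA']))
    (hii A B hA (by linarith only [hA']) (by linarith only [hB]) hB')
  have h3 := intervalIntegral.integral_add_adjacent_intervals
    (hii (1 / 8) B le_rfl (by norm_num) (by linarith only [hB]) hB')
    (hii B (3 / 8) (by linarith only [hB]) hB' (by norm_num) le_rfl)
  have h1 : (∫ u in (1 / 8 : ℝ)..(3 / 8), f u) - (∫ u in A..B, f u) =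
      (∫ u in (1 / 8 : ℝ)..A, f u) + ∫ u in B..(3 / 8 : ℝ), f u := by
    rw [← h3, ← h2]
    ring
  rw [h1]
  have h5 : ‖∫ u in (1 / 8 : ℝ)..A, f u‖ ≤ B₀ := by
    have h6 := intervalIntegral.norm_integral_le_of_norm_le_const (a := (1 / 8 : ℝ))
      (b := A) (C := B₀) (f := f) (by
        intro u hu
        rw [Set.uIoc_of_le hA] at hu
        exact hfb u hu.1.le (by linarith only [hu.2, hA', hu]) (by
          rw [abs_of_neg (by linarith only [hu.2, hA', hu])]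
          linarith only [hu.2, hA', hu]))
    refine h6.trans ?_
    rw [abs_of_nonneg (by linarith only [hA])]
    nlinarith only [hB₀, hA']
  have h6 : ‖∫ u in B..(3 / 8 : ℝ), f u‖ ≤ B₀ := by
    have h6 := intervalIntegral.norm_integral_le_of_norm_le_const (a := B)
      (b := (3 / 8 : ℝ)) (C := B₀) (f := f) (by
        intro u hu
        rw [Set.uIoc_of_le hB'] at hu
        exact hfb u (by linarith only [hu.1, hB, hu]) hu.2 (by
          rw [abs_of_pos (by linarith only [hu.1, hB, hu])]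
          linarith only [hu.1, hB, hu]))
    refine h6.trans ?_
    rw [abs_of_nonneg (by linarith only [hB'])]
    nlinarith only [hB₀, hB]
  refine (norm_add_le _ _).trans ?_
  linarith only [h5, h6]

theorem change_var {n : ℕ} (hn : 0 < n) (τ A B : ℝ) (ζ ζ' : ℂ) :
    (∫ x in A..B, (1 / (n : ℂ) ^ 2 * Complex.exp (Tn n (((x : ℂ) + ((τ * n : ℝ) : ℂ) *
      Complex.I) / n) ζ ζ'))) =
      1 / n * ∫ u in (A / n)..(B / n), Complex.exp (Tn n ((u : ℂ) + τ * Complex.I) ζ ζ') := by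
  have hnR : (n : ℝ) ≠ 0 := by exact_mod_cast hn.ne'
  have hnC : (n : ℂ) ≠ 0 := by exact_mod_cast hn.ne'
  have h1 : ∀ x : ℝ, ((x : ℂ) + ((τ * n : ℝ) : ℂ) * Complex.I) / n =
      ((x / n : ℝ) : ℂ) + τ * Complex.I := by
    intro x
    push_cast
    field_simp
  simp only [h1]
  rw [intervalIntegral.integral_const_mul,
    intervalIntegral.integral_comp_div (fun u : ℝ => Complex.exp (Tn n ((u : ℂ) + τ * Complex.I) ζ ζ'))
      hnR, Complex.real_smul]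
  push_cast
  field_simp

/-- the sum over the window against the integral -/
theorem near_window {n a b : ℕ} {κ τ B B' : ℝ} {ζ ζ' : ℂ} (hn64 : 64 ≤ n)
    (hκn : 1 ≤ κ * n) (hτ : |τ| ≤ κ) (hζre : |ζ.re| ≤ 1 / 16) (hζre' : |ζ'.re| ≤ 1 / 16)
    (ha1 : (n : ℝ) / 8 + 1 ≤ a) (ha2 : (a : ℝ) < n / 8 + 2) (hb1 : (b : ℝ) ≤ 3 * n / 8)
    (hb2 : 3 * (n : ℝ) / 8 - 1 < b)
    (hS : ∀ w : ℂ, 1 / 8 ≤ w.re → w.re ≤ 3 / 8 → 1 / 16 ≤ |w.re - 1 / 4| → |w.im| ≤ κ →
      ‖Complex.exp (Tn n w ζ ζ')‖ ≤ B)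
    (hT : ∀ w : ℂ, 1 / 8 ≤ w.re → w.re ≤ 3 / 8 → |w.im| = κ → ‖Complex.exp (Tn n w ζ ζ')‖ ≤ B') :
    ‖∑ k ∈ Ico a b, term n k ζ ζ' - MM n τ ζ ζ'‖ ≤
      8 * (κ * n) * (1 / (n : ℝ) ^ 2 * B) +
        4 * ((b : ℝ) - a) * Real.exp (-(2 * Real.pi * (κ * n))) * (1 / (n : ℝ) ^ 2 * B') +
        2 * B := by
  have hn64R : (64 : ℝ) ≤ n := by exact_mod_cast hn64
  have hnpos : (0 : ℝ) < n := by linarith only [hn64R]
  have hnpos' : 0 < n := by omega
  have hn8 : 8 ≤ n := by omega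
  have hκ : 0 ≤ κ := (abs_nonneg τ).trans hτ
  have habR : (a : ℝ) ≤ b := by linarith only [ha2, hb2, hn64R]
  have hab : a ≤ b := by exact_mod_cast habR
  have hbn : b ≤ n := by
    have : (b : ℝ) ≤ n := by linarith only [hb1, hn64R]
    exact_mod_cast this
  have hre : ∀ z : ℂ, (z / n).re = z.re / n := fun z => Complex.div_natCast_re z n
  have him : ∀ z : ℂ, (z / n).im = z.im / n := fun z => Complex.div_natCast_im z n
  have hx : ∀ x y : ℝ, ((x : ℂ) + y * Complex.I).re = x := fun x y => by simp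
  have hy' : ∀ x y : ℝ, ((x : ℂ) + y * Complex.I).im = y := fun x y => by simp
  have hB0 : 0 ≤ B := by
    have h1 := hS (((1 / 8 : ℝ) : ℂ) + (0 : ℝ) * Complex.I) (by rw [hx]) (by rw [hx]; norm_num)
      (by rw [hx, abs_of_neg (by norm_num)]; norm_num)
      (by rw [hy', abs_zero]; exact hκ)
    exact (norm_nonneg _).trans h1
  set g : ℂ → ℂ := fun z => 1 / (n : ℂ) ^ 2 * Complex.exp (Tn n (z / n) ζ ζ') with hg
  have hgd : DifferentiableOn ℂ g {z | (a : ℝ) - 1 ≤ z.re ∧ z.re ≤ b} := by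
    intro z hz
    have h1 : 0 < (z / n).re := by
      rw [hre]
      apply div_pos _ hnpos
      linarith only [hz.1, ha1, hn64R, hz]
    have h2 : (z / n).re < 3 / 8 + 1 / 32 := by
      rw [hre, div_lt_iff₀ hnpos]
      linarith only [hz.2, hb1, hn64R, hz]
    have h3 := Tn_differentiable hn8 h1 h2 hζre hζre'
    have h4 : DifferentiableAt ℂ (fun z : ℂ => Tn n (z / n) ζ ζ') z :=
      DifferentiableAt.comp (g := fun w => Tn n w ζ ζ') z h3 (by fun_prop)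
    exact ((h4.cexp).const_mul _).differentiableWithinAt
  have hn2 : ‖(1 / (n : ℂ) ^ 2 : ℂ)‖ = 1 / (n : ℝ) ^ 2 := by
    rw [norm_div, norm_one, norm_pow, Complex.norm_natCast]
  have hgn : ∀ z : ℂ, ‖g z‖ = 1 / (n : ℝ) ^ 2 * ‖Complex.exp (Tn n (z / n) ζ ζ')‖ := by
    intro z
    rw [hg]
    simp only
    rw [norm_mul, hn2]
  have hτ' := abs_le.mp hτ
  -- the sides
  have hside : ∀ x : ℝ, 1 / 8 ≤ x / n → x / n ≤ 3 / 8 → 1 / 16 ≤ |x / n - 1 / 4| → ∀ y : ℝ,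
      |y| ≤ κ * n → ‖g ((x : ℂ) + y * Complex.I)‖ ≤ 1 / (n : ℝ) ^ 2 * B := by
    intro x h1 h2 h3 y hy
    rw [hgn]
    refine mul_le_mul_of_nonneg_left (hS _ ?_ ?_ ?_ ?_) (by positivity)
    · rw [hre, hx]; exact h1
    · rw [hre, hx]; exact h2
    · rw [hre, hx]; exact h3
    · rw [him, hy', abs_div, abs_of_pos hnpos, div_le_iff₀ hnpos]
      exact hy
  have hA1 : 1 / 8 ≤ ((a : ℝ) - 1 / 2) / n := by
    rw [le_div_iff₀ hnpos]
    linarith only [ha1]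
  have hA2 : ((a : ℝ) - 1 / 2) / n ≤ 3 / 16 := by
    rw [div_le_iff₀ hnpos]
    linarith only [ha2, hn64R]
  have hB1 : 5 / 16 ≤ ((b : ℝ) - 1 / 2) / n := by
    rw [le_div_iff₀ hnpos]
    linarith only [hb2, hn64R]
  have hB2 : ((b : ℝ) - 1 / 2) / n ≤ 3 / 8 := by
    rw [div_le_iff₀ hnpos]
    linarith only [hb1]
  have hrect := sum_rect (g := g) hab (H := κ * n) (t := τ * n) hκn
    (by
      rw [abs_mul, abs_of_pos hnpos]
      exact mul_le_mul_of_nonneg_right hτ hnpos.le)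
    hgd (B1 := 1 / (n : ℝ) ^ 2 * B)
    (B2 := 1 / (n : ℝ) ^ 2 * B')
    (by
      intro y hy
      constructor
      · exact hside _ hA1 (by linarith only [hA2]) (by
          rw [abs_of_neg (by linarith only [hA2])]
          linarith only [hA2]) y hy
      · exact hside _ (by linarith only [hB1]) hB2 (by
          rw [abs_of_pos (by linarith only [hB1])]
          linarith only [hB1]) y hy)
    (by
      intro x h1 h2
      have h3 : 1 / 8 ≤ x / n := by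
        refine hA1.trans ?_
        gcongr
      have h4 : x / n ≤ 3 / 8 := by
        refine le_trans ?_ hB2
        gcongr
      have hcom : ∀ y : ℝ, |y| = κ * n → ‖g ((x : ℂ) + y * Complex.I)‖ ≤
          1 / (n : ℝ) ^ 2 * B' := by
        intro y hy
        rw [hgn]
        refine mul_le_mul_of_nonneg_left (hT _ ?_ ?_ ?_) (by positivity)
        · rw [hre, hx]; exact h3
        · rw [hre, hx]; exact h4
        · rw [him, hy', abs_div, abs_of_pos hnpos, hy, mul_div_assoc, div_self hnpos.ne', mul_one]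
      have hκnn : 0 ≤ κ * n := by positivity
      constructor
      · have := hcom (κ * n) (abs_of_nonneg hκnn)
        simpa using this
      · have := hcom (-(κ * n)) (by rw [abs_neg, abs_of_nonneg hκnn])
        have e : (x : ℂ) + ((-(κ * n) : ℝ) : ℂ) * Complex.I = x - ((κ * n : ℝ) : ℂ) * Complex.I := by
          push_cast
          ring
        rw [e] at this
        exact this)
  -- the sum over the window
  have hsum : ∑ k ∈ Ico a b, term n k ζ ζ' = ∑ k ∈ Ico a b, g k := by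
    refine Finset.sum_congr rfl fun k hk => ?_
    rw [Finset.mem_Ico] at hk
    have hkn : k < n := by omega
    have hk3 : (k : ℝ) / n ≤ 3 / 8 := by
      rw [div_le_iff₀ hnpos]
      have : (k : ℝ) ≤ b := by exact_mod_cast hk.2.le
      linarith only [hb1, this]
    rw [term_eq hnpos' hkn (by linarith only [hζre, hk3]) (by linarith only [hζre', hk3])]
  have hint : (∫ x in ((a : ℝ) - 1 / 2)..((b : ℝ) - 1 / 2),
      g ((x : ℂ) + ((τ * n : ℝ) : ℂ) * Complex.I)) =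
      1 / n * ∫ u in (((a : ℝ) - 1 / 2) / n)..(((b : ℝ) - 1 / 2) / n),
        Complex.exp (Tn n ((u : ℂ) + τ * Complex.I) ζ ζ') :=
    change_var hnpos' τ _ _ ζ ζ'
  have hfc : ContinuousOn (fun u : ℝ => Complex.exp (Tn n ((u : ℂ) + τ * Complex.I) ζ ζ'))
      (Set.Icc (1 / 8) (3 / 8)) := by
    intro u hu
    have h1 := Tn_differentiable (w := (u : ℂ) + τ * Complex.I) hn8
      (by rw [hx]; linarith only [hu.1, hu]) (by rw [hx]; linarith only [hu.2, hu]) hζre hζre'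
    have h2 : ContinuousAt (fun u : ℝ => Tn n ((u : ℂ) + τ * Complex.I) ζ ζ') u :=
      ContinuousAt.comp (g := fun w => Tn n w ζ ζ') (f := fun u : ℝ => (u : ℂ) + τ * Complex.I)
        h1.continuousAt (by fun_prop)
    exact h2.cexp.continuousWithinAt
  have hends : ‖MM n τ ζ ζ' - 1 / n *
      ∫ u in (((a : ℝ) - 1 / 2) / n)..(((b : ℝ) - 1 / 2) / n),
        Complex.exp (Tn n ((u : ℂ) + τ * Complex.I) ζ ζ')‖ ≤ 2 * B := by
    unfold MM
    rw [← mul_sub, norm_mul]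
    have h4 : ‖(1 / (n : ℂ))‖ ≤ 1 := by
      rw [norm_div, norm_one, Complex.norm_natCast, div_le_one hnpos]
      linarith only [hn64R]
    have h7 := end_int hfc hA1 hA2 hB1 hB2 hB0 (by
      intro u h1 h2 h3
      exact hS _ (by rw [hx]; exact h1) (by rw [hx]; exact h2) (by rw [hx]; exact h3)
        (by rw [hy']; exact hτ))
    calc _ ≤ 1 * (2 * B) := mul_le_mul h4 h7 (norm_nonneg _) zero_le_one
      _ = 2 * B := one_mul _
  rw [hint] at hrect
  rw [hsum]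
  have h1 : ∑ k ∈ Ico a b, g k - MM n τ ζ ζ' = (∑ k ∈ Ico a b, g k -
      1 / n * ∫ u in (((a : ℝ) - 1 / 2) / n)..(((b : ℝ) - 1 / 2) / n),
        Complex.exp (Tn n ((u : ℂ) + τ * Complex.I) ζ ζ')) -
      (MM n τ ζ ζ' - 1 / n * ∫ u in (((a : ℝ) - 1 / 2) / n)..(((b : ℝ) - 1 / 2) / n),
        Complex.exp (Tn n ((u : ℂ) + τ * Complex.I) ζ ζ')) := by
    ring
  rw [h1]
  exact (norm_sub_le _ _).trans (add_le_add hrect hends)

/-- near the maximum the kernel is the integral `MM`, up to an exponentially smaller error -/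
theorem SS_near : ∃ κ δ c C : ℝ, ∃ N : ℕ, 0 < κ ∧ 0 < δ ∧ δ ≤ 1 / 16 ∧ 0 < c ∧ 0 ≤ C ∧ 8 ≤ N ∧
    ∀ n : ℕ, N ≤ n → ∀ τ : ℝ, |τ| ≤ κ → ∀ ζ ζ' : ℂ, ‖ζ‖ ≤ δ → ‖ζ'‖ ≤ δ →
    ‖SS n ζ ζ' - MM n τ ζ ζ'‖ ≤ C * Real.exp (n * (ts - c)) := by
  obtain ⟨κ₀, hκ₀, htop⟩ := tp_top
  obtain ⟨ε₁, c₁, hε₁, hε₁', hc₁, hmid⟩ := tp_mid (δ := 1 / 16) (by norm_num)
  obtain ⟨ε₂, c₂, hε₂, hε₂', hc₂, htop⟩ := htop (min κ₀ ε₁) (lt_min hκ₀ hε₁) (min_le_left _ _)
  obtain ⟨ε₃, c₃, C₃, hε₃, hc₃, hC₃, hfar⟩ := term_far (δ := 1 / 16) (by norm_num)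
  obtain ⟨K, hK, hexp⟩ := exp_Tn_le
  set κ : ℝ := min κ₀ ε₁ with hκdef
  have hκ : 0 < κ := lt_min hκ₀ hε₁
  have hκε : κ ≤ ε₁ := min_le_right _ _
  set δ : ℝ := min ε₁ (min ε₂ ε₃) with hδdef
  have hδ : 0 < δ := lt_min hε₁ (lt_min hε₂ hε₃)
  have hδ1 : δ ≤ ε₁ := min_le_left _ _
  have hδ2 : δ ≤ ε₂ := (min_le_right _ _).trans (min_le_left _ _)
  have hδ3 : δ ≤ ε₃ := (min_le_right _ _).trans (min_le_right _ _)
  set c : ℝ := min c₁ (min c₂ c₃) with hcdef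
  have hc : 0 < c := lt_min hc₁ (lt_min hc₂ hc₃)
  have hcc1 : c ≤ c₁ := min_le_left _ _
  have hcc2 : c ≤ c₂ := (min_le_right _ _).trans (min_le_left _ _)
  have hcc3 : c ≤ c₃ := (min_le_right _ _).trans (min_le_right _ _)
  clear_value κ δ c
  obtain ⟨N₀, hN₀⟩ := exists_nat_gt (1 / κ)
  refine ⟨κ, δ, c / 2, (C₃ + (8 * κ * K + 4 * K) + 2 * K) * (2 / c), max N₀ 64, hκ, hδ,
    hδ1.trans hε₁', by positivity, by positivity, by
      have := le_max_right N₀ 64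
      omega, ?_⟩
  intro n hn τ hτ ζ ζ' hζ hζ'
  have hn64 : 64 ≤ n := (le_max_right _ _).trans hn
  have hn64R : (64 : ℝ) ≤ n := by exact_mod_cast hn64
  have hnpos : (0 : ℝ) < n := by linarith only [hε₁, hε₁', hn64R]
  have hnpos' : 0 < n := by omega
  have hn8 : 8 ≤ n := by omega
  have hκn : 1 ≤ κ * n := by
    have h1 : (N₀ : ℝ) ≤ n := by exact_mod_cast (le_max_left N₀ 64).trans hn
    have h2 : 1 / κ < n := hN₀.trans_le h1
    rw [div_lt_iff₀ hκ] at h2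
    linarith only [h2]
  have hζre : |ζ.re| ≤ 1 / 16 := (Complex.abs_re_le_norm ζ).trans (hζ.trans (hδ1.trans hε₁'))
  have hζre' : |ζ'.re| ≤ 1 / 16 := (Complex.abs_re_le_norm ζ').trans (hζ'.trans (hδ1.trans hε₁'))
  set E : ℝ := Real.exp (n * (ts - c)) with hE
  have hEpos : 0 < E := Real.exp_pos _
  have hexpE : ∀ {u v : ℝ}, c ≤ v → u ≤ ts - v → Real.exp (n * u) ≤ E := by
    intro u v hv hu
    apply Real.exp_le_exp.mpr
    exact mul_le_mul_of_nonneg_left (by linarith only [hv, hu]) hnpos.le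
  -- the window
  set a : ℕ := ⌈(n : ℝ) / 8⌉₊ + 1 with ha
  set b : ℕ := ⌊3 * (n : ℝ) / 8⌋₊ with hb
  have ha1 : (n : ℝ) / 8 + 1 ≤ a := by
    have := Nat.le_ceil ((n : ℝ) / 8)
    rw [ha]
    push_cast
    linarith only [this]
  have ha2 : (a : ℝ) < n / 8 + 2 := by
    have := Nat.ceil_lt_add_one (a := (n : ℝ) / 8) (by positivity)
    rw [ha]
    push_cast
    linarith only [this]
  have hb1 : (b : ℝ) ≤ 3 * n / 8 := Nat.floor_le (by positivity)
  have hb2 : 3 * (n : ℝ) / 8 - 1 < b := by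
    have := Nat.lt_floor_add_one (3 * (n : ℝ) / 8)
    linarith only [this]
  clear_value a b
  have hbn : b ≤ n := by
    have : (b : ℝ) ≤ n := by linarith only [hε₁, hε₁', hn64R, hb1]
    exact_mod_cast this
  have hwin := near_window (B := K * E) (B' := K * Real.exp (n * (ts - c + 2 * Real.pi * κ)))
    hn64 hκn hτ hζre hζre' ha1 ha2 hb1 hb2
    (by
      intro w h1 h2 h3 h4
      refine (hexp n hn8 w ζ ζ' h1 h2 hζre hζre').trans ?_
      have h5 := hmid w ζ ζ' h1 h2 h3 (h4.trans hκε) (hζ.trans hδ1) (hζ'.trans hδ1)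
      exact mul_le_mul_of_nonneg_left (hexpE hcc1 h5) hK)
    (by
      intro w h1 h2 h3
      refine (hexp n hn8 w ζ ζ' h1 h2 hζre hζre').trans ?_
      have h6 := htop w ζ ζ' h1 h2 h3 (hζ.trans hδ2) (hζ'.trans hδ2)
      refine mul_le_mul_of_nonneg_left ?_ hK
      apply Real.exp_le_exp.mpr
      exact mul_le_mul_of_nonneg_left (by linarith only [hcc2, h6]) hnpos.le)
  -- the other terms
  have hfarsum : ‖SS n ζ ζ' - ∑ k ∈ Ico a b, term n k ζ ζ'‖ ≤ n * (C₃ * E) := by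
    refine far_sum hbn (by positivity) ?_
    intro k hkn hk
    have h3 := hfar n k hnpos' hkn ζ ζ' (by linarith only [hε₁, hε₁', hζre]) (by linarith only [hε₁, hε₁', hζre'])
      ((Complex.abs_im_le_norm ζ).trans (hζ.trans hδ3))
      ((Complex.abs_im_le_norm ζ').trans (hζ'.trans hδ3)) (Or.inl (by
        rcases hk with h | h
        · have h4 : (k : ℝ) + 1 ≤ a := by exact_mod_cast h
          have h5 : (k : ℝ) / n ≤ 3 / 16 := by
            rw [div_le_iff₀ hnpos]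
            linarith only [hε₁, hε₁', hn64R, ha2, h4]
          rw [abs_of_neg (by linarith only [hε₁, hε₁', h5])]
          linarith only [h5]
        · have h4 : (b : ℝ) ≤ k := by exact_mod_cast h
          have h5 : 5 / 16 ≤ (k : ℝ) / n := by
            rw [le_div_iff₀ hnpos]
            linarith only [hε₁, hε₁', hn64R, hb2, h4]
          rw [abs_of_pos (by linarith only [hε₁, hε₁', h5])]
          linarith only [h5]))
    exact h3.trans (mul_le_mul_of_nonneg_left (hexpE hcc3 le_rfl) hC₃)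
  have hnum : 8 * (κ * n) * (1 / (n : ℝ) ^ 2 * (K * E)) +
      4 * ((b : ℝ) - a) * Real.exp (-(2 * Real.pi * (κ * n))) *
        (1 / (n : ℝ) ^ 2 * (K * Real.exp (n * (ts - c + 2 * Real.pi * κ)))) ≤
      (8 * κ * K + 4 * K) * E := by
    refine near_num (by linarith only [hε₁, hε₁', hn64R]) hκ.le hK hEpos.le ?_ (Nat.cast_nonneg a)
      (by exact_mod_cast hbn)
    rw [hE, ← Real.exp_add]
    congr 1
    ring
  have htot : ‖SS n ζ ζ' - MM n τ ζ ζ'‖ ≤ n * ((C₃ + (8 * κ * K + 4 * K) + 2 * K) * E) := by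
    have h1 : SS n ζ ζ' - MM n τ ζ ζ' = (SS n ζ ζ' - ∑ k ∈ Ico a b, term n k ζ ζ') +
        (∑ k ∈ Ico a b, term n k ζ ζ' - MM n τ ζ ζ') := by
      ring
    rw [h1]
    refine (norm_add_le _ _).trans ((add_le_add hfarsum (hwin.trans
      (add_le_add hnum le_rfl))).trans ?_)
    have h4 : (1 : ℝ) ≤ n := by linarith only [hε₁, hε₁', hn64R]
    have h5 : 0 ≤ (8 * κ * K + 4 * K) * E + 2 * (K * E) := by positivity
    nlinarith only [h5, hε₁, hε₁', hn64R]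
  refine htot.trans ?_
  have h1 := absorb hc n ts
  have h2 : 0 ≤ C₃ + (8 * κ * K + 4 * K) + 2 * K := by positivity
  calc (n : ℝ) * ((C₃ + (8 * κ * K + 4 * K) + 2 * K) * E)
      = (C₃ + (8 * κ * K + 4 * K) + 2 * K) * (n * E) := by ring
    _ ≤ (C₃ + (8 * κ * K + 4 * K) + 2 * K) * (2 / c * Real.exp (n * (ts - c / 2))) :=
        mul_le_mul_of_nonneg_left h1 h2
    _ = _ := by ring

end Pool.Agent.Work.MP_b30479_gt.LT
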