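import Pool.Agent.Work.MP_b30479_gt.LT.XDefs
import Pool.Agent.Work.MP_b30479_gt.LT.Near

/-!
# Explicit version: absolute values at arbitrary points of the paths

Polynomial factors are harmless here.
-/

namespace Pool.Agent.Work.MP_b30479_gt.LT

open Finset VOL AX MeasureTheory

/-! ### midpoint sums and total variation -/

theorem mid_cell {Φ φ φ' : ℝ → ℝ} (hΦ : ∀ v, HasDerivAt Φ (φ v) v)
    (hφ : ∀ v, HasDerivAt φ (φ' v) v) (hc : Continuous φ') {a b m : ℝ} (hab : a < b) (h1 : a ≤ m)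
    (h2 : m ≤ b) : φ m ≤ (Φ b - Φ a) / (b - a) + ∫ v in a..b, |φ' v| := by
  obtain ⟨c, hc1, hc2⟩ := exists_hasDerivAt_eq_slope Φ φ hab
    (fun v _ => (hΦ v).continuousAt.continuousWithinAt) (fun v _ => hΦ v)
  rw [← hc2]
  have hint : ∀ s t : ℝ, IntervalIntegrable φ' volume s t := fun s t => hc.intervalIntegrable s t
  have hint' : ∀ s t : ℝ, IntervalIntegrable (fun v => |φ' v|) volume s t := fun s t =>
    hc.abs.intervalIntegrable s t
  have h3 : φ m - φ c = ∫ v in c..m, φ' v :=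
    (intervalIntegral.integral_eq_sub_of_hasDerivAt (fun v _ => hφ v) (hint c m)).symm
  have h4 : φ m - φ c ≤ ∫ v in a..b, |φ' v| := by
    rw [h3]
    rcases le_total c m with h | h
    · calc ∫ v in c..m, φ' v ≤ |∫ v in c..m, φ' v| := le_abs_self _
        _ ≤ ∫ v in c..m, |φ' v| := intervalIntegral.abs_integral_le_integral_abs h
        _ ≤ ∫ v in a..b, |φ' v| := intervalIntegral.integral_mono_interval hc1.1.le h h2
            (Filter.Eventually.of_forall fun v => abs_nonneg _) (hint' a b)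
    · calc ∫ v in c..m, φ' v ≤ |∫ v in c..m, φ' v| := le_abs_self _
        _ = |∫ v in m..c, φ' v| := by rw [intervalIntegral.integral_symm, abs_neg]
        _ ≤ ∫ v in m..c, |φ' v| := intervalIntegral.abs_integral_le_integral_abs h
        _ ≤ ∫ v in a..b, |φ' v| := intervalIntegral.integral_mono_interval h1 h hc1.2.le
            (Filter.Eventually.of_forall fun v => abs_nonneg _) (hint' a b)
  linarith only [h4]

/-- midpoint sums against the integral, with the total variation as error -/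
theorem mid_sum_var {Φ φ φ' : ℝ → ℝ} (hΦ : ∀ v, HasDerivAt Φ (φ v) v)
    (hφ : ∀ v, HasDerivAt φ (φ' v) v) (hc : Continuous φ') {n : ℕ} (hn : 0 < n) (s : ℝ) (y : ℕ) :
    ∑ l ∈ range y, φ (s + ((l : ℝ) + 1 / 2) / n) ≤
      n * (Φ (s + (y : ℝ) / n) - Φ s) + ∫ v in s..(s + (y : ℝ) / n), |φ' v| := by
  have hn' : (0 : ℝ) < n := by exact_mod_cast hn
  induction y with
  | zero => simp
  | succ y ih =>
    rw [sum_range_succ]
    have hlt : s + (y : ℝ) / n < s + ((y + 1 : ℕ) : ℝ) / n := by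
      have : (y : ℝ) / n < ((y + 1 : ℕ) : ℝ) / n := by
        apply div_lt_div_of_pos_right _ hn'
        push_cast
        linarith only []
      linarith only [this]
    have e0 : s + ((y + 1 : ℕ) : ℝ) / n - (s + (y : ℝ) / n) = 1 / n := by
      push_cast
      ring
    have hpos : (0 : ℝ) < 1 / n := by positivity
    have h1 := mid_cell hΦ hφ hc (m := s + ((y : ℝ) + 1 / 2) / n) hlt
      (by
        have : ((y : ℝ) + 1 / 2) / n = (y : ℝ) / n + 1 / 2 * (1 / n) := by ring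
        rw [this]
        linarith only [hlt, e0])
      (by
        have : ((y : ℝ) + 1 / 2) / n = (y : ℝ) / n + 1 / 2 * (1 / n) := by ring
        have e : ((y + 1 : ℕ) : ℝ) / n = (y : ℝ) / n + 1 / n := by push_cast; ring
        rw [this, e]
        linarith only [hlt, e0])
    rw [e0, div_div_eq_mul_div, div_one, mul_comm _ (n : ℝ)] at h1
    have hint' : ∀ s t : ℝ, IntervalIntegrable (fun v => |φ' v|) volume s t := fun s t =>
      hc.abs.intervalIntegrable s t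
    have h2 := intervalIntegral.integral_add_adjacent_intervals (hint' s (s + (y : ℝ) / n))
      (hint' (s + (y : ℝ) / n) (s + ((y + 1 : ℕ) : ℝ) / n))
    rw [← h2]
    have e5 : (n : ℝ) * (Φ (s + ((y + 1 : ℕ) : ℝ) / n) - Φ s) = n * (Φ (s + (y : ℝ) / n) - Φ s) +
        n * (Φ (s + ((y + 1 : ℕ) : ℝ) / n) - Φ (s + (y : ℝ) / n)) := by ring
    rw [e5]
    linarith only [ih, h1]

/-! ### the total variation of `el ρ` on `[0, 2]` -/

theorem continuous_rr {ρ : ℝ} (hρ : 0 < ρ) : Continuous fun v => Real.pi * DT.rr ρ v := by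
  unfold DT.rr
  refine continuous_const.mul (Continuous.div (by fun_prop) (by fun_prop) fun v => ?_)
  have h1 : 1 < Real.cosh (2 * Real.pi * ρ) := Real.one_lt_cosh.2 (by positivity)
  have h2 := Real.cos_le_one (2 * Real.pi * v)
  linarith only [h1, h2]

theorem rr_sign {ρ : ℝ} (hρ : 0 < ρ) (v : ℝ) : (0 ≤ Real.sin (2 * Real.pi * v) → 0 ≤ Real.pi * DT.rr ρ v) ∧
    (Real.sin (2 * Real.pi * v) ≤ 0 → Real.pi * DT.rr ρ v ≤ 0) := by
  have h1 : 1 < Real.cosh (2 * Real.pi * ρ) := Real.one_lt_cosh.2 (by positivity)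
  have h2 := Real.cos_le_one (2 * Real.pi * v)
  have h3 : 0 < Real.cosh (2 * Real.pi * ρ) - Real.cos (2 * Real.pi * v) := by linarith only [h1, h2]
  unfold DT.rr
  refine ⟨fun h => mul_nonneg Real.pi_pos.le (div_nonneg h h3.le), fun h =>
    mul_nonpos_of_nonneg_of_nonpos Real.pi_pos.le (div_nonpos_of_nonpos_of_nonneg h h3.le)⟩

theorem var_up {ρ : ℝ} (hρ : 0 < ρ) {a b : ℝ} (hab : a ≤ b)
    (h : ∀ v, a ≤ v → v ≤ b → 0 ≤ Real.sin (2 * Real.pi * v)) :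
    ∫ v in a..b, |Real.pi * DT.rr ρ v| = DT.el ρ b - DT.el ρ a := by
  rw [← intervalIntegral.integral_eq_sub_of_hasDerivAt (f := fun v => DT.el ρ v)
    (fun v _ => DT.hasDerivAt_el hρ) ((continuous_rr hρ).intervalIntegrable a b)]
  refine intervalIntegral.integral_congr fun v hv => ?_
  rw [Set.uIcc_of_le hab] at hv
  exact abs_of_nonneg ((rr_sign hρ v).1 (h v hv.1 hv.2))

theorem var_down {ρ : ℝ} (hρ : 0 < ρ) {a b : ℝ} (hab : a ≤ b)
    (h : ∀ v, a ≤ v → v ≤ b → Real.sin (2 * Real.pi * v) ≤ 0) :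
    ∫ v in a..b, |Real.pi * DT.rr ρ v| = DT.el ρ a - DT.el ρ b := by
  have h1 : ∫ v in a..b, -(Real.pi * DT.rr ρ v) = DT.el ρ a - DT.el ρ b := by
    rw [intervalIntegral.integral_neg, intervalIntegral.integral_eq_sub_of_hasDerivAt
      (f := fun v => DT.el ρ v) (fun v _ => DT.hasDerivAt_el hρ)
      ((continuous_rr hρ).intervalIntegrable a b)]
    ring
  rw [← h1]
  refine intervalIntegral.integral_congr fun v hv => ?_
  rw [Set.uIcc_of_le hab] at hv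
  exact abs_of_nonpos ((rr_sign hρ v).2 (h v hv.1 hv.2))

theorem var_el {ρ : ℝ} (hρ : 0 < ρ) : ∫ v in (0 : ℝ)..2, |Real.pi * DT.rr ρ v| =
    4 * (DT.el ρ (1 / 2) - DT.el ρ 0) := by
  have hpi := Real.pi_pos
  have hint' : ∀ s t : ℝ, IntervalIntegrable (fun v => |Real.pi * DT.rr ρ v|) volume s t :=
    fun s t => (continuous_rr hρ).abs.intervalIntegrable s t
  have h1 := var_up hρ (a := 0) (b := 1 / 2) (by norm_num) (fun v h0 h1 =>
    Real.sin_nonneg_of_nonneg_of_le_pi (by positivity) (by nlinarith only [hpi, h1]))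
  have h2 := var_down hρ (a := 1 / 2) (b := 1) (by norm_num) (fun v h0 h1 => by
    have e : Real.sin (2 * Real.pi * v) = -Real.sin (2 * Real.pi * v - Real.pi) := by
      rw [Real.sin_sub_pi]; ring
    rw [e, neg_nonpos]
    exact Real.sin_nonneg_of_nonneg_of_le_pi (by nlinarith only [hpi, h0]) (by nlinarith only [hpi, h1]))
  have h3 := var_up hρ (a := 1) (b := 3 / 2) (by norm_num) (fun v h0 h1 => by
    have e : Real.sin (2 * Real.pi * v) = Real.sin (2 * Real.pi * v - 2 * Real.pi) := by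
      rw [Real.sin_sub_two_pi]
    rw [e]
    exact Real.sin_nonneg_of_nonneg_of_le_pi (by nlinarith only [hpi, h0]) (by nlinarith only [hpi, h1]))
  have h4 := var_down hρ (a := 3 / 2) (b := 2) (by norm_num) (fun v h0 h1 => by
    have e : Real.sin (2 * Real.pi * v) = -Real.sin (2 * Real.pi * v - 2 * Real.pi - Real.pi) := by
      rw [Real.sin_sub_pi, Real.sin_sub_two_pi]; ring
    rw [e, neg_nonpos]
    exact Real.sin_nonneg_of_nonneg_of_le_pi (by nlinarith only [hpi, h0]) (by nlinarith only [hpi, h1]))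
  have e1 : DT.el ρ 1 = DT.el ρ 0 := by
    have := DT.el_add_one ρ 0
    rwa [zero_add] at this
  have e2 : DT.el ρ (3 / 2) = DT.el ρ (1 / 2) := by
    have := DT.el_add_one ρ (1 / 2)
    rwa [show (1 / 2 + 1 : ℝ) = 3 / 2 by norm_num] at this
  have e3 : DT.el ρ 2 = DT.el ρ 0 := by
    have := DT.el_add_one ρ 1
    rw [show (1 + 1 : ℝ) = 2 by norm_num] at this
    rw [this, e1]
  have s1 := intervalIntegral.integral_add_adjacent_intervals (hint' 0 (1 / 2)) (hint' (1 / 2) 1)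
  have s2 := intervalIntegral.integral_add_adjacent_intervals (hint' 0 1) (hint' 1 (3 / 2))
  have s3 := intervalIntegral.integral_add_adjacent_intervals (hint' 0 (3 / 2)) (hint' (3 / 2) 2)
  rw [e1] at h2 h3
  rw [e2] at h3 h4
  rw [e3] at h4
  linarith only [h1, h2, h3, h4, s1, s2, s3]

/-- the size of the variation -/
theorem exp_var {ρ : ℝ} {n : ℕ} (hn : 0 < n) (h1 : 1 / (n : ℝ) ≤ ρ) (h2 : ρ ≤ 2) :
    Real.exp (4 * (DT.el ρ (1 / 2) - DT.el ρ 0)) ≤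
      ((2 * Real.cosh (4 * Real.pi) + 2) * (n : ℝ) ^ 2) ^ 2 := by
  have hpi := Real.pi_pos
  have hn' : (0 : ℝ) < n := by exact_mod_cast hn
  have hρ : 0 < ρ := lt_of_lt_of_le (by positivity) h1
  have hc := Real.one_lt_cosh.2 (show 2 * Real.pi * ρ ≠ 0 by positivity)
  set A := 2 * Real.cosh (2 * Real.pi * ρ) + 2 with hA
  set B := 2 * Real.cosh (2 * Real.pi * ρ) - 2 with hB
  have hA0 : 0 < A := by positivity
  have hB0 : 0 < B := by linarith only [hc]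
  have e1 : DT.el ρ (1 / 2) = Real.log A / 2 := by
    unfold DT.el
    rw [show 2 * Real.pi * (1 / 2) = Real.pi by ring, Real.cos_pi]
    congr 2
    rw [hA]
    ring
  have e2 : DT.el ρ 0 = Real.log B / 2 := by
    unfold DT.el
    rw [mul_zero, Real.cos_zero]
    congr 2
    rw [hB]
    ring
  have e3 : 4 * (DT.el ρ (1 / 2) - DT.el ρ 0) = 2 * Real.log (A / B) := by
    rw [e1, e2, Real.log_div hA0.ne' hB0.ne']
    ring
  rw [e3, two_mul, Real.exp_add, Real.exp_log (by positivity), ← pow_two]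
  -- bounds for `A` and `B`
  have hA1 : A ≤ 2 * Real.cosh (4 * Real.pi) + 2 := by
    have : Real.cosh (2 * Real.pi * ρ) ≤ Real.cosh (4 * Real.pi) := by
      rw [Real.cosh_le_cosh, abs_of_pos (by positivity), abs_of_pos (by positivity)]
      nlinarith only [h2, hpi]
    linarith only [this]
  have hB1 : 1 / (n : ℝ) ^ 2 ≤ B := by
    have h3 : Real.cosh (2 * Real.pi * ρ) = 1 + 2 * Real.sinh (Real.pi * ρ) ^ 2 := by
      rw [mul_assoc, Real.cosh_two_mul, Real.cosh_sq]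
      ring
    have h4 : Real.pi * ρ ≤ Real.sinh (Real.pi * ρ) :=
      Real.self_le_sinh_iff.mpr (by positivity)
    have h5 : ρ ≤ Real.pi * ρ := by
      have := Real.pi_gt_three
      nlinarith only [hρ, this]
    have h6 : 1 / (n : ℝ) ≤ Real.sinh (Real.pi * ρ) := by linarith only [h1, h4, h5]
    have h7 : (1 / (n : ℝ)) ^ 2 ≤ Real.sinh (Real.pi * ρ) ^ 2 :=
      pow_le_pow_left₀ (by positivity) h6 2
    rw [hB, h3]
    rw [div_pow, one_pow] at h7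
    have := sq_nonneg (Real.sinh (Real.pi * ρ))
    linarith only [hc, h3, h7]
  refine pow_le_pow_left₀ (by positivity) ?_ 2
  rw [div_le_iff₀ hB0]
  have h8 : 1 ≤ (n : ℝ) ^ 2 * B := by
    rw [div_le_iff₀ (by positivity)] at hB1
    linarith only [hB1]
  calc A ≤ 2 * Real.cosh (4 * Real.pi) + 2 := hA1
    _ = (2 * Real.cosh (4 * Real.pi) + 2) * 1 := by ring
    _ ≤ (2 * Real.cosh (4 * Real.pi) + 2) * ((n : ℝ) ^ 2 * B) := by gcongr
    _ = _ := by ring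

/-- midpoint sums of `el ρ`, `1/n ≤ ρ` -/
theorem exp_sum_el {ρ : ℝ} {n : ℕ} (hn : 0 < n) (h1 : 1 / (n : ℝ) ≤ ρ) (h2 : ρ ≤ 2) {s : ℝ}
    (hs0 : 0 ≤ s) (hs1 : s ≤ 1) {y : ℕ} (hy : y ≤ n) :
    Real.exp (∑ l ∈ range y, DT.el ρ (s + ((l : ℝ) + 1 / 2) / n)) ≤
      ((2 * Real.cosh (4 * Real.pi) + 2) * (n : ℝ) ^ 2) ^ 2 *
        Real.exp (n * (DT.Lr ρ (s + (y : ℝ) / n) - DT.Lr ρ s)) := by
  have hn' : (0 : ℝ) < n := by exact_mod_cast hn
  have hρ : 0 < ρ := lt_of_lt_of_le (by positivity) h1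
  have h3 := mid_sum_var (Φ := fun x => DT.Lr ρ x) (φ := fun v => DT.el ρ v)
    (φ' := fun v => Real.pi * DT.rr ρ v) (fun v => DT.hasDerivAt_Lr hρ)
    (fun v => DT.hasDerivAt_el hρ) (continuous_rr hρ) hn s y
  have hyn : (y : ℝ) / n ≤ 1 := by
    rw [div_le_one hn']
    exact_mod_cast hy
  have hy0 : 0 ≤ (y : ℝ) / n := by positivity
  have h4 : ∫ v in s..(s + (y : ℝ) / n), |Real.pi * DT.rr ρ v| ≤
      4 * (DT.el ρ (1 / 2) - DT.el ρ 0) := by
    rw [← var_el hρ]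
    exact intervalIntegral.integral_mono_interval hs0 (by linarith only [hy0]) (by linarith only [hs1, hyn])
      (Filter.Eventually.of_forall fun v => abs_nonneg _)
      ((continuous_rr hρ).abs.intervalIntegrable 0 2)
  have h5 := exp_var hn h1 h2
  calc Real.exp (∑ l ∈ range y, DT.el ρ (s + ((l : ℝ) + 1 / 2) / n)) ≤
        Real.exp (4 * (DT.el ρ (1 / 2) - DT.el ρ 0) +
          n * (DT.Lr ρ (s + (y : ℝ) / n) - DT.Lr ρ s)) := by
        apply Real.exp_le_exp.2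
        linarith only [h3, h4]
    _ = Real.exp (4 * (DT.el ρ (1 / 2) - DT.el ρ 0)) *
          Real.exp (n * (DT.Lr ρ (s + (y : ℝ) / n) - DT.Lr ρ s)) := Real.exp_add _ _
    _ ≤ _ := by gcongr

/-- upper bound for the product, uniform down to the real axis (sum of a unimodal function:
`el ρ` increases on `[0, 1/2]` and decreases on `[1/2, 1]`; cells next to the singularity cost
`log n + C`) -/
theorem PP_abs : ∃ C : ℝ, ∃ K : ℕ, 0 ≤ C ∧ ∀ n y : ℕ, 1 ≤ n → y ≤ n → ∀ ζ : ℂ, 0 ≤ ζ.im → ζ.im ≤ 1 →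
    |ζ.re| ≤ 1 / 2 → ‖PP n y ζ‖ ≤ C * (n : ℝ) ^ K *
      Real.exp (n * (DT.Lr ζ.im ((y : ℝ) / n + 1 / 2 + ζ.re) +
        DT.Lr ζ.im ((y : ℝ) / n + 1 / 2 - ζ.re) - Real.pi * ζ.im)) := by
  have hpi := Real.pi_pos
  refine ⟨(2 * Real.cosh (4 * Real.pi) + 2) ^ 4 * Real.exp (2 * Real.pi), 8, by positivity, ?_⟩
  intro n y hn hy ζ h0 h1 hσ
  have hn' : (0 : ℝ) < n := by exact_mod_cast hn
  have hn1 : (1 : ℝ) ≤ n := by exact_mod_cast hn
  have h1n : 1 / (n : ℝ) ≤ 1 := by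
    rw [div_le_one hn']
    exact hn1
  have h1n0 : 0 < 1 / (n : ℝ) := by positivity
  set σ := ζ.re
  set ρ := ζ.im with hρ
  set ρ' := ρ + 1 / (n : ℝ) with hρ'
  have hρ'0 : 0 < ρ' := by linarith only [h1n0, h0]
  obtain ⟨s0, s1⟩ := abs_le.mp hσ
  have hyn : (y : ℝ) / n ≤ 1 := by
    rw [div_le_one hn']
    exact_mod_cast hy
  -- the product at height `ρ'`
  have h2 : ‖PP n y ζ‖ ≤ Real.exp (∑ l ∈ range y, DT.el ρ' ((1 / 2 + σ) + ((l : ℝ) + 1 / 2) / n)) *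
      Real.exp (∑ l ∈ range y, DT.el ρ' ((1 / 2 - σ) + ((l : ℝ) + 1 / 2) / n)) := by
    unfold PP
    rw [norm_prod, Real.exp_sum, Real.exp_sum, ← Finset.prod_mul_distrib]
    apply prod_le_prod (fun _ _ => norm_nonneg _)
    intro l _
    have := factor_le hρ'0 (((l : ℝ) + 1 / 2) / n) (ζ := ζ) (by
      rw [abs_of_nonneg h0, hρ']
      linarith only [h1n0])
    rw [show 2 * Real.pi * (((l : ℝ) + 1 / 2) / n) = 2 * Real.pi * ((l : ℝ) + 1 / 2) / n by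
      ring, Real.exp_add, show ((l : ℝ) + 1 / 2) / n + 1 / 2 + ζ.re =
        (1 / 2 + σ) + ((l : ℝ) + 1 / 2) / n by ring, show ((l : ℝ) + 1 / 2) / n + 1 / 2 - ζ.re =
        (1 / 2 - σ) + ((l : ℝ) + 1 / 2) / n by ring] at this
    exact this
  have h3 := exp_sum_el (ρ := ρ') hn (by linarith only [h0]) (by linarith only [h1n, h1]) (s := 1 / 2 + σ) (by linarith only [s0])
    (by linarith only [s1]) hy
  have h4 := exp_sum_el (ρ := ρ') hn (by linarith only [h0]) (by linarith only [h1n, h1]) (s := 1 / 2 - σ) (by linarith only [s1])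
    (by linarith only [s0]) hy
  have h5 := DT.Lr_half_add hρ'0.le σ
  have h6 := Rr_height_one (σ := σ) h0 (show ρ ≤ ρ' by linarith only [h1n0]) hyn
  unfold Rr at h6
  have e6 : (n : ℝ) * (2 * Real.pi * (ρ' - ρ)) = 2 * Real.pi := by
    rw [hρ']
    field_simp
    ring
  have h7 := mul_le_mul_of_nonneg_left h6 hn'.le
  calc ‖PP n y ζ‖ ≤ _ := h2
    _ ≤ (((2 * Real.cosh (4 * Real.pi) + 2) * (n : ℝ) ^ 2) ^ 2 *
        Real.exp (n * (DT.Lr ρ' ((1 / 2 + σ) + (y : ℝ) / n) - DT.Lr ρ' (1 / 2 + σ)))) *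
        (((2 * Real.cosh (4 * Real.pi) + 2) * (n : ℝ) ^ 2) ^ 2 *
        Real.exp (n * (DT.Lr ρ' ((1 / 2 - σ) + (y : ℝ) / n) - DT.Lr ρ' (1 / 2 - σ)))) := by
        gcongr
    _ = (2 * Real.cosh (4 * Real.pi) + 2) ^ 4 * (n : ℝ) ^ 8 *
        Real.exp (n * (DT.Lr ρ' ((1 / 2 + σ) + (y : ℝ) / n) - DT.Lr ρ' (1 / 2 + σ)) +
        n * (DT.Lr ρ' ((1 / 2 - σ) + (y : ℝ) / n) - DT.Lr ρ' (1 / 2 - σ))) := by
        rw [Real.exp_add]
        ring
    _ ≤ (2 * Real.cosh (4 * Real.pi) + 2) ^ 4 * (n : ℝ) ^ 8 *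
        Real.exp (2 * Real.pi + n * (DT.Lr ρ ((y : ℝ) / n + 1 / 2 + σ) +
          DT.Lr ρ ((y : ℝ) / n + 1 / 2 - σ) - Real.pi * ρ)) := by
        refine mul_le_mul_of_nonneg_left (Real.exp_le_exp.2 ?_) (by positivity)
        rw [show (1 / 2 + σ) + (y : ℝ) / n = (y : ℝ) / n + 1 / 2 + σ by ring,
          show (1 / 2 - σ) + (y : ℝ) / n = (y : ℝ) / n + 1 / 2 - σ by ring]
        have h8 : (n : ℝ) * (DT.Lr ρ' (1 / 2 + σ) + DT.Lr ρ' (1 / 2 - σ)) = n * (Real.pi * ρ') := by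
          rw [h5]
        linarith only [e6, h7, h8]
    _ = _ := by
        rw [Real.exp_add]
        ring

theorem term_abs : ∃ C : ℝ, ∃ K : ℕ, 0 ≤ C ∧ ∀ n y : ℕ, 1 ≤ n → y < n → ∀ ζ ζ' : ℂ, 0 ≤ ζ.im →
    ζ.im ≤ 1 → |ζ.re| ≤ 1 / 2 → 0 ≤ ζ'.im → ζ'.im ≤ 1 → |ζ'.re| ≤ 1 / 2 →
    ‖term n y ζ ζ'‖ ≤ C * (n : ℝ) ^ K *
      Real.exp (n * (Rr ζ.im ((y : ℝ) / n) ζ.re + Rr ζ'.im ((y : ℝ) / n) ζ'.re)) := by
  obtain ⟨C, K, hC, hP⟩ := PP_abs
  obtain ⟨D, hD, hF⟩ := fS_lower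
  refine ⟨C ^ 2 * D ^ 4, 2 * K + 4, by positivity, ?_⟩
  intro n y hn hy ζ ζ' h1 h2 h3 h1' h2' h3'
  have hn0 : (0 : ℝ) < n := by exact_mod_cast hn
  have p1 := hP n y hn hy.le ζ h1 h2 h3
  have p2 := hP n y hn hy.le ζ' h1' h2' h3'
  have hf := fS_pos hy
  have f1 := hF n y hy
  have f2 : 1 / fS n y ^ 4 ≤ (D * n) ^ 4 * Real.exp (n * (-4 * DT.Lr 0 ((y : ℝ) / n))) := by
    have g1 : Real.exp (n * DT.Lr 0 ((y : ℝ) / n)) ^ 4 ≤ (D * n * fS n y) ^ 4 :=
      pow_le_pow_left₀ (Real.exp_pos _).le f1 4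
    have g2 : Real.exp (n * (-4 * DT.Lr 0 ((y : ℝ) / n))) =
        (Real.exp (n * DT.Lr 0 ((y : ℝ) / n)) ^ 4)⁻¹ := by
      rw [← Real.exp_nat_mul, ← Real.exp_neg]
      congr 1
      push_cast
      ring
    rw [g2, div_le_iff₀ (by positivity), ← div_eq_mul_inv, div_mul_eq_mul_div,
      le_div_iff₀ (by positivity), one_mul]
    calc _ ≤ (D * n * fS n y) ^ 4 := g1
      _ = (D * n) ^ 4 * fS n y ^ 4 := by ring
  have e1 : ‖term n y ζ ζ'‖ = ‖PP n y ζ‖ * ‖PP n y ζ'‖ * (1 / fS n y ^ 4) := by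
    unfold term
    rw [norm_div, norm_mul, Complex.norm_real, Real.norm_of_nonneg (by positivity)]
    ring
  rw [e1]
  have q0 : 0 ≤ C * (n : ℝ) ^ K * Real.exp (n * (DT.Lr ζ.im ((y : ℝ) / n + 1 / 2 + ζ.re) +
        DT.Lr ζ.im ((y : ℝ) / n + 1 / 2 - ζ.re) - Real.pi * ζ.im)) := by positivity
  have q1 := mul_le_mul p1 p2 (norm_nonneg _) q0
  refine (mul_le_mul q1 f2 (by positivity) (by positivity)).trans (le_of_eq ?_)
  unfold Rr
  have e2 : ∀ a b c : ℝ, Real.exp (n * a) * Real.exp (n * b) * Real.exp (n * c) =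
      Real.exp (n * (a + b + c)) := by
    intro a b c
    rw [← Real.exp_add, ← Real.exp_add]
    congr 1
    ring
  set A := DT.Lr ζ.im ((y : ℝ) / n + 1 / 2 + ζ.re) + DT.Lr ζ.im ((y : ℝ) / n + 1 / 2 - ζ.re) with hA
  set B := DT.Lr ζ'.im ((y : ℝ) / n + 1 / 2 + ζ'.re) +
    DT.Lr ζ'.im ((y : ℝ) / n + 1 / 2 - ζ'.re) with hB
  have e3 := e2 (A - Real.pi * ζ.im) (B - Real.pi * ζ'.im) (-4 * DT.Lr 0 ((y : ℝ) / n))
  have e4 : (A - Real.pi * ζ.im) + (B - Real.pi * ζ'.im) + (-4 * DT.Lr 0 ((y : ℝ) / n)) =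
      -2 * DT.Lr 0 ((y : ℝ) / n) + A - Real.pi * ζ.im +
        (-2 * DT.Lr 0 ((y : ℝ) / n) + B - Real.pi * ζ'.im) := by ring
  rw [e4] at e3
  rw [← e3]
  ring

/-- absolute values of all terms -/
theorem SS_abs : ∃ C : ℝ, ∃ K : ℕ, 0 ≤ C ∧ ∀ n : ℕ, 1 ≤ n → ∀ ζ ζ' : ℂ, 0 ≤ ζ.im →
    ζ.im ≤ 1 → |ζ.re| ≤ 1 / 2 → 0 ≤ ζ'.im → ζ'.im ≤ 1 → |ζ'.re| ≤ 1 / 2 → ∀ β : ℝ,
    (∀ x : ℝ, 0 ≤ x → x ≤ 1 → Rr ζ.im x ζ.re + Rr ζ'.im x ζ'.re ≤ β) →
    ‖SS n ζ ζ'‖ ≤ C * (n : ℝ) ^ K * Real.exp (n * β) := by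
  obtain ⟨C, K, hC, hT⟩ := term_abs
  refine ⟨C, K + 1, hC, ?_⟩
  intro n hn ζ ζ' h1 h2 h3 h1' h2' h3' β hβ
  have hn0 : (0 : ℝ) < n := by exact_mod_cast hn
  unfold SS
  refine (norm_sum_le _ _).trans ?_
  have h4 : ∀ y ∈ range n, ‖term n y ζ ζ'‖ ≤ C * (n : ℝ) ^ K * Real.exp (n * β) := by
    intro y hy
    rw [mem_range] at hy
    have hy' : (y : ℝ) ≤ n := by exact_mod_cast hy.le
    refine (hT n y hn hy ζ ζ' h1 h2 h3 h1' h2' h3').trans ?_
    apply mul_le_mul_of_nonneg_left _ (by positivity)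
    apply Real.exp_le_exp.2
    exact mul_le_mul_of_nonneg_left (hβ _ (by positivity) ((div_le_one hn0).2 hy')) hn0.le
  refine (Finset.sum_le_card_nsmul _ _ _ h4).trans (le_of_eq ?_)
  rw [card_range, nsmul_eq_mul]
  ring

end Pool.Agent.Work.MP_b30479_gt.LT
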