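import Pool.Agent.Work.MP_b30479_gt.LT.Defs
import Pool.Agent.Work.MP_b30479_gt.VOL.Ring

/-!
# The potential of a turning point near its critical point `(1/4, 0, 0)`
-/

namespace Pool.Agent.Work.MP_b30479_gt.LT

open Finset VOL AX MeasureTheory

lemma concA_re {u : ℂ} {x d : ℝ} (h : ‖u - x‖ ≤ d) : x - d ≤ u.re ∧ u.re ≤ x + d := by
  have h1 := (Complex.abs_re_le_norm (u - x)).trans h
  rw [Complex.sub_re, Complex.ofReal_re, abs_le] at h1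
  constructor <;> linarith only [h1, h1.1, h1.2]

lemma concA_strip_p {w ζ : ℂ} (h : |w.re - 1 / 4| ≤ 1 / 8) (h2 : |ζ.re| ≤ 1 / 16) :
    w + 1 / 2 + ζ ∈ strip := by
  rw [abs_le] at h h2
  have e : (w + 1 / 2 + ζ).re = w.re + 1 / 2 + ζ.re := by
    simp
  refine ⟨?_, ?_⟩
  · rw [e]
    linarith only [h.1, h2.1, h, h2]
  · rw [e]
    linarith only [h.2, h2.2, h, h2]

lemma concA_strip_m {w ζ : ℂ} (h : |w.re - 1 / 4| ≤ 1 / 8) (h2 : |ζ.re| ≤ 1 / 16) :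
    w + 1 / 2 - ζ ∈ strip := by
  have := concA_strip_p (ζ := -ζ) h (by simpa using h2)
  rwa [← sub_eq_add_neg] at this

lemma concA_strip_w {w : ℂ} (h : |w.re - 1 / 4| ≤ 1 / 8) : w ∈ strip := by
  rw [abs_le] at h
  exact ⟨by linarith only [h.1, h], by linarith only [h.2, h]⟩

theorem hasDerivAt_tp_w {w ζ ζ' : ℂ} (h : |w.re - 1 / 4| ≤ 1 / 8) (h2 : |ζ.re| ≤ 1 / 16)
    (h3 : |ζ'.re| ≤ 1 / 16) : HasDerivAt (fun w => tp w ζ ζ') (tw w ζ ζ') w := by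
  have d1 : HasDerivAt (fun w : ℂ => Fh (w + 1 / 2 + ζ)) (ph (w + 1 / 2 + ζ)) w := by
    have e : (fun w : ℂ => Fh (w + 1 / 2 + ζ)) = fun w => Fh (w + (1 / 2 + ζ)) := by
      funext x
      rw [add_assoc]
    rw [e]
    apply HasDerivAt.comp_add_const
    rw [← add_assoc]
    exact hasDerivAt_Fh (concA_strip_p h h2)
  have d2 : HasDerivAt (fun w : ℂ => Fh (w + 1 / 2 - ζ)) (ph (w + 1 / 2 - ζ)) w := by
    have e : (fun w : ℂ => Fh (w + 1 / 2 - ζ)) = fun w => Fh (w + (1 / 2 - ζ)) := by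
      funext x
      rw [add_sub_assoc]
    rw [e]
    apply HasDerivAt.comp_add_const
    rw [← add_sub_assoc]
    exact hasDerivAt_Fh (concA_strip_m h h2)
  have d3 : HasDerivAt (fun w : ℂ => Fh (w + 1 / 2 + ζ')) (ph (w + 1 / 2 + ζ')) w := by
    have e : (fun w : ℂ => Fh (w + 1 / 2 + ζ')) = fun w => Fh (w + (1 / 2 + ζ')) := by
      funext x
      rw [add_assoc]
    rw [e]
    apply HasDerivAt.comp_add_const
    rw [← add_assoc]
    exact hasDerivAt_Fh (concA_strip_p h h3)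
  have d4 : HasDerivAt (fun w : ℂ => Fh (w + 1 / 2 - ζ')) (ph (w + 1 / 2 - ζ')) w := by
    have e : (fun w : ℂ => Fh (w + 1 / 2 - ζ')) = fun w => Fh (w + (1 / 2 - ζ')) := by
      funext x
      rw [add_sub_assoc]
    rw [e]
    apply HasDerivAt.comp_add_const
    rw [← add_sub_assoc]
    exact hasDerivAt_Fh (concA_strip_m h h3)
  have d5 : HasDerivAt (fun w : ℂ => 4 * Fh w) (4 * ph w) w :=
    (hasDerivAt_Fh (concA_strip_w h)).const_mul 4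
  exact (((d1.add d2).add d3).add d4).sub d5

theorem hasDerivAt_tp_z {w ζ ζ' : ℂ} (h : |w.re - 1 / 4| ≤ 1 / 8) (h2 : |ζ.re| ≤ 1 / 16)
    (h3 : |ζ'.re| ≤ 1 / 16) : HasDerivAt (fun ζ => tp w ζ ζ') (tz w ζ) ζ := by
  have _ := h3
  have d1 : HasDerivAt (fun ζ : ℂ => Fh (w + 1 / 2 + ζ)) (ph (w + 1 / 2 + ζ)) ζ :=
    (hasDerivAt_Fh (concA_strip_p h h2)).comp_const_add (w + 1 / 2) ζ
  have d2 : HasDerivAt (fun ζ : ℂ => Fh (w + 1 / 2 - ζ)) (-ph (w + 1 / 2 - ζ)) ζ :=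
    (hasDerivAt_Fh (concA_strip_m h h2)).comp_const_sub (w + 1 / 2) ζ
  have d3 := (((d1.add d2).add_const (Fh (w + 1 / 2 + ζ'))).add_const
    (Fh (w + 1 / 2 - ζ'))).sub_const (4 * Fh w)
  have e : tz w ζ = ph (w + 1 / 2 + ζ) + -ph (w + 1 / 2 - ζ) := by
    unfold tz
    ring
  rw [e]
  exact d3

theorem tp_symm (w ζ ζ' : ℂ) : tp w ζ ζ' = tp w ζ' ζ := by
  unfold tp
  ring

theorem tw_center : tw (1 / 4) 0 0 = 0 := by
  unfold tw
  have e1 : (1 / 4 + 1 / 2 + 0 : ℂ) = 1 - 1 / 4 := by norm_num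
  have e2 : (1 / 4 + 1 / 2 - 0 : ℂ) = 1 - 1 / 4 := by norm_num
  rw [e1, e2, ph_one_sub]
  ring

lemma concA_ph'_3 : ph' (3 / 4) = -Real.pi := by
  unfold ph'
  have e : (Real.pi : ℂ) * (3 / 4) = Real.pi - Real.pi * (1 / 4) := by ring
  rw [e, Complex.cos_pi_sub, Complex.sin_pi_sub]
  have h := ph'_quarter
  unfold ph' at h
  rw [mul_neg, neg_div, h]

/-- the nonlinear part of `ph` has a small Lipschitz constant near any point -/
lemma concA_lip {x : ℂ} (hx : x ∈ strip) {ε : ℝ} (hε : 0 < ε) : ∃ r : ℝ, 0 < r ∧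
    (∀ u : ℂ, ‖u - x‖ ≤ r → u ∈ strip) ∧ ∀ u v : ℂ, ‖u - x‖ ≤ r → ‖v - x‖ ≤ r →
      ‖ph v - ph u - ph' x * (v - u)‖ ≤ ε * ‖v - u‖ := by
  have h1 := continuousAt_ph' hx
  rw [Metric.continuousAt_iff] at h1
  obtain ⟨δ, hδ, h2⟩ := h1 ε hε
  obtain ⟨δ', hδ', h3⟩ := Metric.isOpen_iff.mp strip_open x hx
  refine ⟨min (δ / 2) (δ' / 2), by positivity, ?_, ?_⟩
  · intro u hu
    apply h3
    rw [Metric.mem_ball, dist_eq_norm]
    have := min_le_right (δ / 2) (δ' / 2)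
    linarith only [hδ', hu, this]
  · intro u v hu hv
    have hb : ∀ w : ℂ, ‖w - x‖ ≤ min (δ / 2) (δ' / 2) → w ∈ strip := by
      intro w hw
      apply h3
      rw [Metric.mem_ball, dist_eq_norm]
      have := min_le_right (δ / 2) (δ' / 2)
      linarith only [hδ', hw, this]
    have hc : Convex ℝ (Metric.closedBall x (min (δ / 2) (δ' / 2))) := convex_closedBall _ _
    have key := hc.norm_image_sub_le_of_norm_hasDerivWithin_le (𝕜 := ℂ)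
      (f := fun w => ph w - ph' x * w) (f' := fun w => ph' w - ph' x) (C := ε) (x := u) (y := v)
      (fun w hw => by
        have hw' : ‖w - x‖ ≤ min (δ / 2) (δ' / 2) := by
          rw [← dist_eq_norm]
          exact hw
        have g1 : HasDerivAt (fun w : ℂ => ph' x * w) (ph' x * 1) w :=
          (hasDerivAt_id w).const_mul _
        rw [mul_one] at g1
        exact ((hasDerivAt_ph (hb w hw')).fun_sub g1).hasDerivWithinAt)
      (fun w hw => by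
        have hw' : ‖w - x‖ ≤ min (δ / 2) (δ' / 2) := by
          rw [← dist_eq_norm]
          exact hw
        have h4 : dist w x < δ := by
          rw [dist_eq_norm]
          have := min_le_left (δ / 2) (δ' / 2)
          linarith only [hδ, hw', this]
        have h5 := h2 h4
        rw [dist_eq_norm] at h5
        exact h5.le)
      (by rw [Metric.mem_closedBall, dist_eq_norm]; exact hu)
      (by rw [Metric.mem_closedBall, dist_eq_norm]; exact hv)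
    have e : ph v - ph u - ph' x * (v - u) = (ph v - ph' x * v) - (ph u - ph' x * u) := by ring
    rw [e]
    exact key

/-- second order expansion of `Fh` near any point -/
lemma concA_taylor {x : ℂ} (hx : x ∈ strip) {ε : ℝ} (hε : 0 < ε) : ∃ r : ℝ, 0 < r ∧
    ∀ u h : ℂ, ‖u - x‖ ≤ r → ‖u + h - x‖ ≤ r →
      ‖Fh (u + h) - Fh u - ph u * h - ph' x / 2 * h ^ 2‖ ≤ ε * ‖h‖ ^ 2 := by
  obtain ⟨r, hr, hs, hl⟩ := concA_lip hx hε
  refine ⟨r, hr, fun u h hu huh => ?_⟩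
  have hc : Convex ℝ (segment ℝ u (u + h)) := convex_segment _ _
  have hball : segment ℝ u (u + h) ⊆ Metric.closedBall x r :=
    (convex_closedBall x r).segment_subset
      (by rw [Metric.mem_closedBall, dist_eq_norm]; exact hu)
      (by rw [Metric.mem_closedBall, dist_eq_norm]; exact huh)
  have key := hc.norm_image_sub_le_of_norm_hasDerivWithin_le (𝕜 := ℂ)
    (f := fun w => Fh w - ph' x / 2 * w ^ 2 - (ph u - ph' x * u) * w)
    (f' := fun w => (ph w - ph' x * w) - (ph u - ph' x * u)) (C := ε * ‖h‖) (x := u) (y := u + h)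
    (fun w hw => by
      have hw' : ‖w - x‖ ≤ r := by
        rw [← dist_eq_norm]
        exact hball hw
      have g1 : HasDerivAt (fun w : ℂ => ph' x / 2 * w ^ 2) (ph' x / 2 * (2 * w)) w := by
        have := (hasDerivAt_pow 2 w).const_mul (ph' x / 2)
        simpa using this
      have g2 : HasDerivAt (fun w : ℂ => (ph u - ph' x * u) * w) ((ph u - ph' x * u) * 1) w :=
        (hasDerivAt_id w).const_mul _
      have g3 := ((hasDerivAt_Fh (hs w hw')).fun_sub g1).fun_sub g2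
      have e : ph w - ph' x / 2 * (2 * w) - (ph u - ph' x * u) * 1 =
          (ph w - ph' x * w) - (ph u - ph' x * u) := by ring
      rw [e] at g3
      exact g3.hasDerivWithinAt)
    (fun w hw => by
      have hw' : ‖w - x‖ ≤ r := by
        rw [← dist_eq_norm]
        exact hball hw
      have h1 := hl u w hu hw'
      have e : (ph w - ph' x * w) - (ph u - ph' x * u) = ph w - ph u - ph' x * (w - u) := by ring
      rw [e]
      refine h1.trans ?_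
      apply mul_le_mul_of_nonneg_left _ hε.le
      obtain ⟨t, ht, rfl⟩ : ∃ t ∈ Set.Icc (0 : ℝ) 1, u + t • (u + h - u) = w := by
        rw [segment_eq_image'] at hw
        exact hw
      have e2 : u + t • (u + h - u) - u = (t : ℂ) * h := by
        simp only [Complex.real_smul]
        ring
      rw [e2, norm_mul, Complex.norm_real, Real.norm_of_nonneg ht.1]
      exact mul_le_of_le_one_left (norm_nonneg _) ht.2)
    (left_mem_segment ℝ u (u + h)) (right_mem_segment ℝ u (u + h))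
  have e : Fh (u + h) - Fh u - ph u * h - ph' x / 2 * h ^ 2 =
      (Fh (u + h) - ph' x / 2 * (u + h) ^ 2 - (ph u - ph' x * u) * (u + h)) -
      (Fh u - ph' x / 2 * u ^ 2 - (ph u - ph' x * u) * u) := by ring
  rw [e]
  refine key.trans (le_of_eq ?_)
  have e2 : u + h - u = h := by ring
  rw [e2]
  ring

lemma concA_q1 : (3 / 4 : ℂ) ∈ strip := by
  refine ⟨?_, ?_⟩ <;> norm_num

lemma concA_q2 : (1 / 4 : ℂ) ∈ strip := by
  refine ⟨?_, ?_⟩ <;> norm_num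

lemma concA_near_p {w ζ : ℂ} {r r' : ℝ} (hr : r ≤ r' / 2) (h : ‖w - 1 / 4‖ ≤ r) (h2 : ‖ζ‖ ≤ r) :
    ‖w + 1 / 2 + ζ - 3 / 4‖ ≤ r' := by
  have e : w + 1 / 2 + ζ - 3 / 4 = (w - 1 / 4) + ζ := by ring
  rw [e]
  have := norm_add_le (w - 1 / 4) ζ
  linarith only [hr, h, h2, this]

lemma concA_near_m {w ζ : ℂ} {r r' : ℝ} (hr : r ≤ r' / 2) (h : ‖w - 1 / 4‖ ≤ r) (h2 : ‖ζ‖ ≤ r) :
    ‖w + 1 / 2 - ζ - 3 / 4‖ ≤ r' := by
  have e : w + 1 / 2 - ζ - 3 / 4 = (w - 1 / 4) - ζ := by ring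
  rw [e]
  have := norm_sub_le (w - 1 / 4) ζ
  linarith only [hr, h, h2, this]

/-- second order expansion: for every `ε` there is `r` such that on the polydisc of radius `r`
`tp (p + Δ) - tp p - ∇tp p Δ` is `-4π a² - π b² - π c²` up to `ε |Δ|²` (complex displacements) -/
theorem quad_tp {ε : ℝ} (hε : 0 < ε) : ∃ r : ℝ, 0 < r ∧ r ≤ 1 / 16 ∧ ∀ w ζ ζ' a b c : ℂ,
    ‖w - 1 / 4‖ ≤ r → ‖ζ‖ ≤ r → ‖ζ'‖ ≤ r → ‖w + a - 1 / 4‖ ≤ r → ‖ζ + b‖ ≤ r → ‖ζ' + c‖ ≤ r →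
    ‖tp (w + a) (ζ + b) (ζ' + c) - (tp w ζ ζ' + tw w ζ ζ' * a + tz w ζ * b + tz w ζ' * c -
      (4 * Real.pi * a ^ 2 + Real.pi * b ^ 2 + Real.pi * c ^ 2))‖ ≤
      ε * (‖a‖ ^ 2 + ‖b‖ ^ 2 + ‖c‖ ^ 2) := by
  obtain ⟨r1, hr1, h1⟩ := concA_taylor concA_q1 (ε := ε / 8) (by positivity)
  obtain ⟨r2, hr2, h2⟩ := concA_taylor concA_q2 (ε := ε / 8) (by positivity)
  set r := min (min (r1 / 2) r2) (1 / 16) with hr
  have hra : r ≤ r1 / 2 := (min_le_left _ _).trans (min_le_left _ _)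
  have hrb : r ≤ r2 := (min_le_left _ _).trans (min_le_right _ _)
  refine ⟨r, by positivity, min_le_right _ _, fun w ζ ζ' a b c a1 a2 a3 a4 a5 a6 => ?_⟩
  rw [concA_ph'_3] at h1
  rw [ph'_quarter] at h2
  have b1 := h1 (w + 1 / 2 + ζ) (a + b) (concA_near_p hra a1 a2) (by
    have := concA_near_p hra a4 a5
    have e : w + 1 / 2 + ζ + (a + b) - 3 / 4 = w + a + 1 / 2 + (ζ + b) - 3 / 4 := by ring
    rw [e]
    exact this)
  have b2 := h1 (w + 1 / 2 - ζ) (a - b) (concA_near_m hra a1 a2) (by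
    have := concA_near_m hra a4 a5
    have e : w + 1 / 2 - ζ + (a - b) - 3 / 4 = w + a + 1 / 2 - (ζ + b) - 3 / 4 := by ring
    rw [e]
    exact this)
  have b3 := h1 (w + 1 / 2 + ζ') (a + c) (concA_near_p hra a1 a3) (by
    have := concA_near_p hra a4 a6
    have e : w + 1 / 2 + ζ' + (a + c) - 3 / 4 = w + a + 1 / 2 + (ζ' + c) - 3 / 4 := by ring
    rw [e]
    exact this)
  have b4 := h1 (w + 1 / 2 - ζ') (a - c) (concA_near_m hra a1 a3) (by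
    have := concA_near_m hra a4 a6
    have e : w + 1 / 2 - ζ' + (a - c) - 3 / 4 = w + a + 1 / 2 - (ζ' + c) - 3 / 4 := by ring
    rw [e]
    exact this)
  have b5 := h2 w a (a1.trans hrb) (a4.trans hrb)
  have p1 : ‖a + b‖ ^ 2 + ‖a - b‖ ^ 2 = 2 * (‖a‖ ^ 2 + ‖b‖ ^ 2) := by
    have := parallelogram_law_with_norm ℝ a b
    nlinarith only [this]
  have p2 : ‖a + c‖ ^ 2 + ‖a - c‖ ^ 2 = 2 * (‖a‖ ^ 2 + ‖c‖ ^ 2) := by
    have := parallelogram_law_with_norm ℝ a c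
    nlinarith only [this]
  have e : tp (w + a) (ζ + b) (ζ' + c) - (tp w ζ ζ' + tw w ζ ζ' * a + tz w ζ * b + tz w ζ' * c -
      (4 * Real.pi * a ^ 2 + Real.pi * b ^ 2 + Real.pi * c ^ 2)) =
      (Fh (w + 1 / 2 + ζ + (a + b)) - Fh (w + 1 / 2 + ζ) - ph (w + 1 / 2 + ζ) * (a + b) -
        -Real.pi / 2 * (a + b) ^ 2) +
      (Fh (w + 1 / 2 - ζ + (a - b)) - Fh (w + 1 / 2 - ζ) - ph (w + 1 / 2 - ζ) * (a - b) -
        -Real.pi / 2 * (a - b) ^ 2) +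
      (Fh (w + 1 / 2 + ζ' + (a + c)) - Fh (w + 1 / 2 + ζ') - ph (w + 1 / 2 + ζ') * (a + c) -
        -Real.pi / 2 * (a + c) ^ 2) +
      (Fh (w + 1 / 2 - ζ' + (a - c)) - Fh (w + 1 / 2 - ζ') - ph (w + 1 / 2 - ζ') * (a - c) -
        -Real.pi / 2 * (a - c) ^ 2) -
      4 * (Fh (w + a) - Fh w - ph w * a - Real.pi / 2 * a ^ 2) := by
    unfold tp tw tz
    rw [show w + a + 1 / 2 + (ζ + b) = w + 1 / 2 + ζ + (a + b) by ring,
      show w + a + 1 / 2 - (ζ + b) = w + 1 / 2 - ζ + (a - b) by ring,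
      show w + a + 1 / 2 + (ζ' + c) = w + 1 / 2 + ζ' + (a + c) by ring,
      show w + a + 1 / 2 - (ζ' + c) = w + 1 / 2 - ζ' + (a - c) by ring]
    ring
  rw [e]
  refine (norm_sub_le _ _).trans ?_
  have n1 := norm_add₃_le (a := (Fh (w + 1 / 2 + ζ + (a + b)) - Fh (w + 1 / 2 + ζ) -
      ph (w + 1 / 2 + ζ) * (a + b) - -Real.pi / 2 * (a + b) ^ 2) +
      (Fh (w + 1 / 2 - ζ + (a - b)) - Fh (w + 1 / 2 - ζ) - ph (w + 1 / 2 - ζ) * (a - b) -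
        -Real.pi / 2 * (a - b) ^ 2))
    (b := (Fh (w + 1 / 2 + ζ' + (a + c)) - Fh (w + 1 / 2 + ζ') - ph (w + 1 / 2 + ζ') * (a + c) -
        -Real.pi / 2 * (a + c) ^ 2))
    (c := (Fh (w + 1 / 2 - ζ' + (a - c)) - Fh (w + 1 / 2 - ζ') - ph (w + 1 / 2 - ζ') * (a - c) -
        -Real.pi / 2 * (a - c) ^ 2))
  have n2 := norm_add_le (Fh (w + 1 / 2 + ζ + (a + b)) - Fh (w + 1 / 2 + ζ) -
      ph (w + 1 / 2 + ζ) * (a + b) - -Real.pi / 2 * (a + b) ^ 2)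
      (Fh (w + 1 / 2 - ζ + (a - b)) - Fh (w + 1 / 2 - ζ) - ph (w + 1 / 2 - ζ) * (a - b) -
        -Real.pi / 2 * (a - b) ^ 2)
  have n3 : ‖4 * (Fh (w + a) - Fh w - ph w * a - Real.pi / 2 * a ^ 2)‖ =
      4 * ‖Fh (w + a) - Fh w - ph w * a - Real.pi / 2 * a ^ 2‖ := by
    rw [norm_mul, Complex.norm_ofNat]
  rw [n3]
  have q := sq_nonneg ‖b‖
  have q2 := sq_nonneg ‖c‖
  nlinarith only [b1, b2, b3, b4, b5, n1, n2, hε, p1, p2]

/-- concavity along real displacements, near the centre -/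
theorem conc : ∃ r : ℝ, 0 < r ∧ r ≤ 1 / 16 ∧ ∀ w ζ ζ' : ℂ, ∀ a b c : ℝ,
    ‖w - 1 / 4‖ ≤ r → ‖ζ‖ ≤ r → ‖ζ'‖ ≤ r → ‖w + a - 1 / 4‖ ≤ r → ‖ζ + b‖ ≤ r → ‖ζ' + c‖ ≤ r →
    (tp (w + a) (ζ + b) (ζ' + c)).re ≤ (tp w ζ ζ').re + (tw w ζ ζ').re * a + (tz w ζ).re * b +
      (tz w ζ').re * c - (a ^ 2 + b ^ 2 + c ^ 2) := by
  have hpi := Real.pi_gt_three
  obtain ⟨r, hr, hr2, h⟩ := quad_tp (ε := 1) one_pos
  refine ⟨r, hr, hr2, fun w ζ ζ' a b c a1 a2 a3 a4 a5 a6 => ?_⟩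
  have h1 := (Complex.re_le_norm _).trans (h w ζ ζ' a b c a1 a2 a3 a4 a5 a6)
  have e1 : (tw w ζ ζ' * (a : ℂ)).re = (tw w ζ ζ').re * a := Complex.re_mul_ofReal _ _
  have e2 : (tz w ζ * (b : ℂ)).re = (tz w ζ).re * b := Complex.re_mul_ofReal _ _
  have e3 : (tz w ζ' * (c : ℂ)).re = (tz w ζ').re * c := Complex.re_mul_ofReal _ _
  have e4 : ((4 * Real.pi * (a : ℂ) ^ 2 + Real.pi * (b : ℂ) ^ 2 + Real.pi * (c : ℂ) ^ 2)).re =
      4 * Real.pi * a ^ 2 + Real.pi * b ^ 2 + Real.pi * c ^ 2 := by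
    have : (4 * Real.pi * (a : ℂ) ^ 2 + Real.pi * (b : ℂ) ^ 2 + Real.pi * (c : ℂ) ^ 2) =
        ((4 * Real.pi * a ^ 2 + Real.pi * b ^ 2 + Real.pi * c ^ 2 : ℝ) : ℂ) := by
      push_cast
      ring
    rw [this, Complex.ofReal_re]
  rw [Complex.sub_re, Complex.sub_re, Complex.add_re, Complex.add_re, Complex.add_re, e1, e2, e3,
    e4, Complex.norm_real, Complex.norm_real, Complex.norm_real, Real.norm_eq_abs,
    Real.norm_eq_abs, Real.norm_eq_abs, sq_abs, sq_abs, sq_abs] at h1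
  nlinarith only [sq_nonneg a, sq_nonneg b, sq_nonneg c, h1, hpi]

/-- the derivatives near the centre -/
theorem tz_approx {ε : ℝ} (hε : 0 < ε) : ∃ r : ℝ, 0 < r ∧ r ≤ 1 / 16 ∧ ∀ w ζ ζ₁ : ℂ,
    ‖w - 1 / 4‖ ≤ r → ‖ζ‖ ≤ r → ‖ζ₁‖ ≤ r →
    ‖tz w ζ - tz w ζ₁ + 2 * Real.pi * (ζ - ζ₁)‖ ≤ ε * ‖ζ - ζ₁‖ := by
  obtain ⟨r1, hr1, _, h1⟩ := concA_lip concA_q1 (ε := ε / 2) (by positivity)
  set r := min (r1 / 2) (1 / 16) with hr
  have hra : r ≤ r1 / 2 := min_le_left _ _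
  refine ⟨r, by positivity, min_le_right _ _, fun w ζ ζ₁ a1 a2 a3 => ?_⟩
  rw [concA_ph'_3] at h1
  have b1 := h1 (w + 1 / 2 + ζ₁) (w + 1 / 2 + ζ) (concA_near_p hra a1 a3) (concA_near_p hra a1 a2)
  have b2 := h1 (w + 1 / 2 - ζ₁) (w + 1 / 2 - ζ) (concA_near_m hra a1 a3) (concA_near_m hra a1 a2)
  have e1 : w + 1 / 2 + ζ - (w + 1 / 2 + ζ₁) = ζ - ζ₁ := by ring
  have e2 : w + 1 / 2 - ζ - (w + 1 / 2 - ζ₁) = -(ζ - ζ₁) := by ring
  rw [e1] at b1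
  rw [e2, norm_neg] at b2
  have e : tz w ζ - tz w ζ₁ + 2 * Real.pi * (ζ - ζ₁) =
      (ph (w + 1 / 2 + ζ) - ph (w + 1 / 2 + ζ₁) - -Real.pi * (ζ - ζ₁)) -
      (ph (w + 1 / 2 - ζ) - ph (w + 1 / 2 - ζ₁) - -Real.pi * -(ζ - ζ₁)) := by
    unfold tz
    ring
  rw [e]
  refine (norm_sub_le _ _).trans ?_
  linarith only [b1, b2]

theorem tz_approx_w : ∃ r C : ℝ, 0 < r ∧ r ≤ 1 / 16 ∧ 0 ≤ C ∧ ∀ w w₁ ζ : ℂ,
    ‖w - 1 / 4‖ ≤ r → ‖w₁ - 1 / 4‖ ≤ r → ‖ζ‖ ≤ r → ‖tz w ζ - tz w₁ ζ‖ ≤ C * ‖ζ‖ * ‖w - w₁‖ := by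
  -- `ph'` is Lipschitz near `3/4`
  have hd := (hasDerivAt_ph' concA_q1).continuousAt
  have hcont : ContinuousAt (fun w : ℂ => -(Real.pi ^ 2 / Complex.sin (Real.pi * w) ^ 2) : ℂ → ℂ)
      (3 / 4) := by
    apply ContinuousAt.neg
    apply ContinuousAt.div
    · fun_prop
    · fun_prop
    · exact pow_ne_zero 2 (sin_pi_ne concA_q1)
  rw [Metric.continuousAt_iff] at hcont
  obtain ⟨δ, hδ, h2⟩ := hcont 1 one_pos
  obtain ⟨δ', hδ', h3⟩ := Metric.isOpen_iff.mp strip_open (3 / 4) concA_q1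
  set R := min (δ / 2) (δ' / 2) with hR
  have hR0 : 0 < R := by positivity
  set L := ‖(-(Real.pi ^ 2 / Complex.sin (Real.pi * (3 / 4)) ^ 2) : ℂ)‖ + 1 with hL
  have hL0 : 0 ≤ L := by positivity
  have hlip : ∀ u v : ℂ, ‖u - 3 / 4‖ ≤ R → ‖v - 3 / 4‖ ≤ R → ‖ph' v - ph' u‖ ≤ L * ‖v - u‖ := by
    intro u v hu hv
    apply (convex_closedBall (3 / 4 : ℂ) R).norm_image_sub_le_of_norm_hasDerivWithin_le (𝕜 := ℂ)
      (f := ph') (f' := fun w => -(Real.pi ^ 2 / Complex.sin (Real.pi * w) ^ 2)) (C := L)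
    · intro w hw
      have hw' : ‖w - 3 / 4‖ ≤ R := by
        rw [← dist_eq_norm]
        exact hw
      apply HasDerivAt.hasDerivWithinAt
      apply hasDerivAt_ph'
      apply h3
      rw [Metric.mem_ball, dist_eq_norm]
      have := min_le_right (δ / 2) (δ' / 2)
      linarith only [hR0, hw', this]
    · intro w hw
      have hw' : ‖w - 3 / 4‖ ≤ R := by
        rw [← dist_eq_norm]
        exact hw
      have h4 : dist w (3 / 4) < δ := by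
        rw [dist_eq_norm]
        have := min_le_left (δ / 2) (δ' / 2)
        linarith only [hR0, hw', this]
      have h5 := h2 h4
      rw [dist_eq_norm] at h5
      have h6 := norm_sub_norm_le (-(Real.pi ^ 2 / Complex.sin (Real.pi * w) ^ 2) : ℂ)
        (-(Real.pi ^ 2 / Complex.sin (Real.pi * (3 / 4)) ^ 2))
      rw [hL]
      linarith only [h5, h6]
    · rw [Metric.mem_closedBall, dist_eq_norm]
      exact hu
    · rw [Metric.mem_closedBall, dist_eq_norm]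
      exact hv
  set r := min (R / 2) (1 / 16) with hr
  have hra : r ≤ R / 2 := min_le_left _ _
  have hrs : r ≤ 1 / 16 := min_le_right _ _
  refine ⟨r, 2 * L, by positivity, hrs, by positivity, fun w w₁ ζ a1 a2 a3 => ?_⟩
  have key := (convex_closedBall (1 / 4 : ℂ) r).norm_image_sub_le_of_norm_hasDerivWithin_le
    (𝕜 := ℂ) (f := fun w => tz w ζ)
    (f' := fun w => ph' (w + 1 / 2 + ζ) - ph' (w + 1 / 2 - ζ)) (C := 2 * L * ‖ζ‖) (x := w₁)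
    (y := w)
    (fun v hv => by
      have hv' : ‖v - 1 / 4‖ ≤ r := by
        rw [← dist_eq_norm]
        exact hv
      have s1 : |v.re - 1 / 4| ≤ 1 / 8 := by
        have := Complex.abs_re_le_norm (v - 1 / 4)
        have e : (v - 1 / 4 : ℂ).re = v.re - 1 / 4 := by simp
        rw [e] at this
        linarith only [hrs, hv', this]
      have s2 : |ζ.re| ≤ 1 / 16 := by
        have := Complex.abs_re_le_norm ζ
        linarith only [hrs, a3, this]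
      have d1 : HasDerivAt (fun w : ℂ => ph (w + 1 / 2 + ζ)) (ph' (v + 1 / 2 + ζ)) v := by
        have e : (fun w : ℂ => ph (w + 1 / 2 + ζ)) = fun w => ph (w + (1 / 2 + ζ)) := by
          funext x
          rw [add_assoc]
        rw [e]
        apply HasDerivAt.comp_add_const
        rw [← add_assoc]
        exact hasDerivAt_ph (concA_strip_p s1 s2)
      have d2 : HasDerivAt (fun w : ℂ => ph (w + 1 / 2 - ζ)) (ph' (v + 1 / 2 - ζ)) v := by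
        have e : (fun w : ℂ => ph (w + 1 / 2 - ζ)) = fun w => ph (w + (1 / 2 - ζ)) := by
          funext x
          rw [add_sub_assoc]
        rw [e]
        apply HasDerivAt.comp_add_const
        rw [← add_sub_assoc]
        exact hasDerivAt_ph (concA_strip_m s1 s2)
      exact (d1.sub d2).hasDerivWithinAt)
    (fun v hv => by
      have hv' : ‖v - 1 / 4‖ ≤ r := by
        rw [← dist_eq_norm]
        exact hv
      have h4 := hlip (v + 1 / 2 - ζ) (v + 1 / 2 + ζ) (concA_near_m hra hv' a3)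
        (concA_near_p hra hv' a3)
      have e : v + 1 / 2 + ζ - (v + 1 / 2 - ζ) = 2 * ζ := by ring
      rw [e, norm_mul, Complex.norm_ofNat] at h4
      refine h4.trans (le_of_eq ?_)
      ring)
    (by rw [Metric.mem_closedBall, dist_eq_norm]; exact a2)
    (by rw [Metric.mem_closedBall, dist_eq_norm]; exact a1)
  exact key

theorem tw_approx {ε : ℝ} (hε : 0 < ε) : ∃ r : ℝ, 0 < r ∧ r ≤ 1 / 16 ∧ ∀ w w₁ ζ ζ₁ ζ' ζ'₁ : ℂ,
    ‖w - 1 / 4‖ ≤ r → ‖w₁ - 1 / 4‖ ≤ r → ‖ζ‖ ≤ r → ‖ζ₁‖ ≤ r → ‖ζ'‖ ≤ r → ‖ζ'₁‖ ≤ r →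
    ‖tw w ζ ζ' - tw w₁ ζ₁ ζ'₁ + 8 * Real.pi * (w - w₁)‖ ≤
      ε * (‖w - w₁‖ + ‖ζ - ζ₁‖ + ‖ζ' - ζ'₁‖) := by
  obtain ⟨r1, hr1, _, h1⟩ := concA_lip concA_q1 (ε := ε / 8) (by positivity)
  obtain ⟨r2, hr2, _, h2⟩ := concA_lip concA_q2 (ε := ε / 8) (by positivity)
  set r := min (min (r1 / 2) r2) (1 / 16) with hr
  have hra : r ≤ r1 / 2 := (min_le_left _ _).trans (min_le_left _ _)
  have hrb : r ≤ r2 := (min_le_left _ _).trans (min_le_right _ _)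
  refine ⟨r, by positivity, min_le_right _ _, fun w w₁ ζ ζ₁ ζ' ζ'₁ a1 a2 a3 a4 a5 a6 => ?_⟩
  rw [concA_ph'_3] at h1
  rw [ph'_quarter] at h2
  have b1 := h1 (w₁ + 1 / 2 + ζ₁) (w + 1 / 2 + ζ) (concA_near_p hra a2 a4)
    (concA_near_p hra a1 a3)
  have b2 := h1 (w₁ + 1 / 2 - ζ₁) (w + 1 / 2 - ζ) (concA_near_m hra a2 a4)
    (concA_near_m hra a1 a3)
  have b3 := h1 (w₁ + 1 / 2 + ζ'₁) (w + 1 / 2 + ζ') (concA_near_p hra a2 a6)
    (concA_near_p hra a1 a5)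
  have b4 := h1 (w₁ + 1 / 2 - ζ'₁) (w + 1 / 2 - ζ') (concA_near_m hra a2 a6)
    (concA_near_m hra a1 a5)
  have b5 := h2 w₁ w (a2.trans hrb) (a1.trans hrb)
  have c1 : ‖w + 1 / 2 + ζ - (w₁ + 1 / 2 + ζ₁)‖ ≤ ‖w - w₁‖ + ‖ζ - ζ₁‖ := by
    have e : w + 1 / 2 + ζ - (w₁ + 1 / 2 + ζ₁) = (w - w₁) + (ζ - ζ₁) := by ring
    rw [e]
    exact norm_add_le _ _
  have c2 : ‖w + 1 / 2 - ζ - (w₁ + 1 / 2 - ζ₁)‖ ≤ ‖w - w₁‖ + ‖ζ - ζ₁‖ := by
    have e : w + 1 / 2 - ζ - (w₁ + 1 / 2 - ζ₁) = (w - w₁) - (ζ - ζ₁) := by ring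
    rw [e]
    exact norm_sub_le _ _
  have c3 : ‖w + 1 / 2 + ζ' - (w₁ + 1 / 2 + ζ'₁)‖ ≤ ‖w - w₁‖ + ‖ζ' - ζ'₁‖ := by
    have e : w + 1 / 2 + ζ' - (w₁ + 1 / 2 + ζ'₁) = (w - w₁) + (ζ' - ζ'₁) := by ring
    rw [e]
    exact norm_add_le _ _
  have c4 : ‖w + 1 / 2 - ζ' - (w₁ + 1 / 2 - ζ'₁)‖ ≤ ‖w - w₁‖ + ‖ζ' - ζ'₁‖ := by
    have e : w + 1 / 2 - ζ' - (w₁ + 1 / 2 - ζ'₁) = (w - w₁) - (ζ' - ζ'₁) := by ring
    rw [e]
    exact norm_sub_le _ _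
  have d1 := mul_le_mul_of_nonneg_left c1 (by positivity : 0 ≤ ε / 8)
  have d2 := mul_le_mul_of_nonneg_left c2 (by positivity : 0 ≤ ε / 8)
  have d3 := mul_le_mul_of_nonneg_left c3 (by positivity : 0 ≤ ε / 8)
  have d4 := mul_le_mul_of_nonneg_left c4 (by positivity : 0 ≤ ε / 8)
  have e : tw w ζ ζ' - tw w₁ ζ₁ ζ'₁ + 8 * Real.pi * (w - w₁) =
      (ph (w + 1 / 2 + ζ) - ph (w₁ + 1 / 2 + ζ₁) -
        -Real.pi * (w + 1 / 2 + ζ - (w₁ + 1 / 2 + ζ₁))) +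
      (ph (w + 1 / 2 - ζ) - ph (w₁ + 1 / 2 - ζ₁) -
        -Real.pi * (w + 1 / 2 - ζ - (w₁ + 1 / 2 - ζ₁))) +
      (ph (w + 1 / 2 + ζ') - ph (w₁ + 1 / 2 + ζ'₁) -
        -Real.pi * (w + 1 / 2 + ζ' - (w₁ + 1 / 2 + ζ'₁))) +
      (ph (w + 1 / 2 - ζ') - ph (w₁ + 1 / 2 - ζ'₁) -
        -Real.pi * (w + 1 / 2 - ζ' - (w₁ + 1 / 2 - ζ'₁))) -
      4 * (ph w - ph w₁ - Real.pi * (w - w₁)) := by
    unfold tw
    ring
  rw [e]
  refine (norm_sub_le _ _).trans ?_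
  have n1 := norm_add₃_le (a := (ph (w + 1 / 2 + ζ) - ph (w₁ + 1 / 2 + ζ₁) -
        -Real.pi * (w + 1 / 2 + ζ - (w₁ + 1 / 2 + ζ₁))) +
      (ph (w + 1 / 2 - ζ) - ph (w₁ + 1 / 2 - ζ₁) -
        -Real.pi * (w + 1 / 2 - ζ - (w₁ + 1 / 2 - ζ₁))))
    (b := (ph (w + 1 / 2 + ζ') - ph (w₁ + 1 / 2 + ζ'₁) -
        -Real.pi * (w + 1 / 2 + ζ' - (w₁ + 1 / 2 + ζ'₁))))
    (c := (ph (w + 1 / 2 - ζ') - ph (w₁ + 1 / 2 - ζ'₁) -
        -Real.pi * (w + 1 / 2 - ζ' - (w₁ + 1 / 2 - ζ'₁))))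
  have n2 := norm_add_le (ph (w + 1 / 2 + ζ) - ph (w₁ + 1 / 2 + ζ₁) -
        -Real.pi * (w + 1 / 2 + ζ - (w₁ + 1 / 2 + ζ₁)))
      (ph (w + 1 / 2 - ζ) - ph (w₁ + 1 / 2 - ζ₁) -
        -Real.pi * (w + 1 / 2 - ζ - (w₁ + 1 / 2 - ζ₁)))
  have n3 : ‖4 * (ph w - ph w₁ - Real.pi * (w - w₁))‖ =
      4 * ‖ph w - ph w₁ - Real.pi * (w - w₁)‖ := by
    rw [norm_mul, Complex.norm_ofNat]
  rw [n3]
  have q1 := norm_nonneg (ζ - ζ₁)
  have q2 := norm_nonneg (ζ' - ζ'₁)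
  have q3 := norm_nonneg (w - w₁)
  nlinarith only [b1, b2, b3, b4, b5, d1, d2, d3, d4, n1, n2, hε, q1, q2]

end Pool.Agent.Work.MP_b30479_gt.LT
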