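import Pool.Agent.Work.MP_b30479_gt.LT.Defs
import Pool.Agent.Work.MP_b30479_gt.DT.RealAx
import Pool.Agent.Work.MP_b30479_gt.DT.LrDer
import Pool.Agent.Work.MP_b30479_gt.DT.FBd
import Pool.Agent.Work.MP_b30479_gt.DT.RSum

/-!
# Bounds for the summand away from the maximum
-/

namespace Pool.Agent.Work.MP_b30479_gt.LT

open Finset VOL AX MeasureTheory

/-- upper bound for `log |term|` at real parts `x = y/n`, `σ`, `σ'` and imaginary parts at most `ρ` -/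
noncomputable def tr (ρ x σ σ' : ℝ) : ℝ :=
  -4 * DT.Lr 0 x + (DT.Lr ρ (x + 1 / 2 + σ) + DT.Lr ρ (x + 1 / 2 - σ)) +
    (DT.Lr ρ (x + 1 / 2 + σ') + DT.Lr ρ (x + 1 / 2 - σ')) - 2 * Real.pi * ρ

/-! ### values at real points -/

/-- `Fh` is `Lr 0` on the real axis -/
theorem Fh_real {x : ℝ} (h0 : 0 < x) (h1 : x < 1) : Fh x = ((DT.Lr 0 x : ℝ) : ℂ) := by
  have e1 : ∀ t ∈ Set.uIcc (0 : ℝ) 1, ph (1 / 2 + t * ((x : ℂ) - 1 / 2)) =
      ((DT.el 0 (1 / 2 + (x - 1 / 2) * t) : ℝ) : ℂ) := by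
    intro t ht
    rw [Set.uIcc_of_le zero_le_one] at ht
    have e2 : (1 / 2 + t * ((x : ℂ) - 1 / 2)) = ((1 / 2 + (x - 1 / 2) * t : ℝ) : ℂ) := by
      push_cast
      ring
    rw [e2, ph_ofReal, DT.el_zero]
    · unfold Lob.ff
      rfl
    · nlinarith only [h0, h1, ht, ht.1, ht.2]
    · nlinarith only [h0, h1, ht, ht.1, ht.2]
  unfold Fh
  rw [intervalIntegral.integral_congr e1, intervalIntegral.integral_ofReal]
  have e3 : ((x : ℂ) - 1 / 2) * ((∫ t in (0 : ℝ)..1, DT.el 0 (1 / 2 + (x - 1 / 2) * t) : ℝ) : ℂ) =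
      (((x - 1 / 2) * ∫ t in (0 : ℝ)..1, DT.el 0 (1 / 2 + (x - 1 / 2) * t) : ℝ) : ℂ) := by
    push_cast
    ring
  rw [e3, intervalIntegral.mul_integral_comp_add_mul]
  have h2 := DT.Lr_sub 0 (1 / 2) x
  have h3 := DT.Lr_half (ρ := 0) le_rfl
  have e4 : (1 / 2 + (x - 1 / 2) * 0 : ℝ) = 1 / 2 := by ring
  have e5 : (1 / 2 + (x - 1 / 2) * 1 : ℝ) = x := by ring
  rw [e4, e5, ← h2, h3]
  simp

/-- the ring function is the exponent `H` of `DT` at height zero -/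
theorem ring_eq (x σ : ℝ) : -2 * DT.Lr 0 x + (DT.Lr 0 (x + 1 / 2 + σ) + DT.Lr 0 (x + 1 / 2 - σ)) =
    DT.H 0 (1 / 2 - x) σ 0 := by
  have h1 := DT.Lr_one_sub (ρ := 0) le_rfl x
  have h2 := DT.Lr_one_sub (ρ := 0) le_rfl (x + 1 / 2 + σ)
  have h3 := DT.Lr_one_sub (ρ := 0) le_rfl (x + 1 / 2 - σ)
  unfold DT.H
  rw [show (1 / 2 + (1 / 2 - x) : ℝ) = 1 - x by ring,
    show (1 / 2 - x + σ : ℝ) = 1 - (x + 1 / 2 - σ) by ring,
    show (1 / 2 - x - σ : ℝ) = 1 - (x + 1 / 2 + σ) by ring, h1, h2, h3]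
  ring

theorem tr_zero (x σ σ' : ℝ) : tr 0 x σ σ' = DT.H 0 (1 / 2 - x) σ 0 + DT.H 0 (1 / 2 - x) σ' 0 := by
  rw [← ring_eq, ← ring_eq]
  unfold tr
  ring

theorem ts_eq : ts = tr 0 (1 / 4) 0 0 := by
  have h1 := Fh_real (x := 1 / 4) (by norm_num) (by norm_num)
  have h2 : (Fh (1 / 4)).re = DT.Lr 0 (1 / 4) := by
    have e : ((1 / 4 : ℝ) : ℂ) = 1 / 4 := by push_cast; rfl
    rw [e] at h1
    rw [h1, Complex.ofReal_re]
  have h3 := DT.Lr_one_sub (ρ := 0) le_rfl (1 / 4)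
  unfold ts tr
  rw [h2, show (1 / 4 + 1 / 2 + 0 : ℝ) = 1 - 1 / 4 by norm_num,
    show (1 / 4 + 1 / 2 - 0 : ℝ) = 1 - 1 / 4 by norm_num, h3]
  ring

/-- the ring function has its strict global maximum at `(1/4, 0)` -/
theorem ring_lt {η σ : ℝ} (h0 : |η| ≤ 1 / 2) (h1 : |σ| ≤ 1 / 2) (hne : η ≠ 1 / 4 ∨ σ ≠ 0) :
    DT.H 0 η σ 0 < DT.H 0 (1 / 4) 0 0 := by
  obtain ⟨a0, a1⟩ := abs_le.1 h0
  by_cases hK : 0 ≤ η ∧ |σ| ≤ min η (1 / 4)
  · apply DT.gap3
    · exact ⟨hK.1, a1, hK.2.trans (min_le_left _ _), hK.2.trans (min_le_right _ _)⟩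
    · intro h
      rw [Prod.mk.injEq] at h
      rcases hne with h' | h'
      · exact h' h.1
      · exact h' h.2
  · obtain ⟨η₁, e1, e2, -, e3, -⟩ := DT.H_zero_low 0
    have hL : DT.Low η σ := by
      refine ⟨h1, ?_⟩
      rcases le_total 0 η with h | h
      · left
        refine ⟨h, a1, ?_⟩
        by_contra h'
        exact hK ⟨h, (not_le.1 h').le⟩
      · right
        exact ⟨a0, h⟩
    refine lt_of_le_of_lt (e3 η σ hL) ?_
    apply DT.gap3
    · have : |(1 / 4 : ℝ)| = 1 / 4 := abs_of_pos (by norm_num)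
      exact ⟨by linarith only [e1, e2], e2.le, by simp only [this]; exact e1, by simp only [this]; exact le_rfl⟩
    · intro h
      rw [Prod.mk.injEq] at h
      have := h.2
      norm_num at this

theorem ring_pos : 0 < DT.H 0 (1 / 4) 0 0 := by
  have h := ring_lt (η := 0) (σ := 0) (by norm_num) (by norm_num) (Or.inl (by norm_num))
  have e : DT.H 0 0 0 0 = 0 := by
    have h3 := DT.Lr_half (ρ := 0) le_rfl
    unfold DT.H
    rw [add_zero, add_zero, sub_zero, h3, DT.Lr_zero_right]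
    ring
  rw [e] at h
  exact h

theorem ts_eq_H : ts = 2 * DT.H 0 (1 / 4) 0 0 := by
  rw [ts_eq, tr_zero, show (1 / 2 - 1 / 4 : ℝ) = 1 / 4 by norm_num]
  ring

theorem ts_pos : 0 < ts := by
  rw [ts_eq_H]
  have := ring_pos
  linarith only [this]

/-- the real function has its strict global maximum at `(1/4, 0, 0)` -/
theorem tr_lt {x σ σ' : ℝ} (h0 : 0 ≤ x) (h1 : x ≤ 1) (hσ : |σ| ≤ 1 / 2) (hσ' : |σ'| ≤ 1 / 2)
    (hne : x ≠ 1 / 4 ∨ σ ≠ 0 ∨ σ' ≠ 0) : tr 0 x σ σ' < ts := by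
  have hx : |1 / 2 - x| ≤ 1 / 2 := abs_le.2 ⟨by linarith only [h1], by linarith only [h0]⟩
  rw [tr_zero, ts_eq_H]
  have key : ∀ τ : ℝ, |τ| ≤ 1 / 2 → DT.H 0 (1 / 2 - x) τ 0 ≤ DT.H 0 (1 / 4) 0 0 := by
    intro τ hτ
    by_cases h : (1 / 2 - x) ≠ 1 / 4 ∨ τ ≠ 0
    · exact (ring_lt hx hτ h).le
    · push Not at h
      rw [h.1, h.2]
  rcases hne with h | h | h
  · have h' : 1 / 2 - x ≠ 1 / 4 := fun e => h (by linarith only [e])
    have i1 := ring_lt hx hσ (Or.inl h')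
    have i2 := ring_lt hx hσ' (Or.inl h')
    linarith only [i1, i2]
  · have i1 := ring_lt hx hσ (Or.inr h)
    have i2 := key σ' hσ'
    linarith only [i1, i2]
  · have i1 := key σ hσ
    have i2 := ring_lt hx hσ' (Or.inr h)
    linarith only [i1, i2]

/-! ### the products -/

/-- one factor of `PP` -/
theorem factor_le {ε : ℝ} (hε : 0 < ε) (v : ℝ) {ζ : ℂ} (h : |ζ.im| ≤ ε) :
    ‖2 * Complex.cos (2 * Real.pi * ζ) + ((2 * Real.cos (2 * Real.pi * v) : ℝ) : ℂ)‖ ≤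
      Real.exp (DT.el ε (v + 1 / 2 + ζ.re) + DT.el ε (v + 1 / 2 - ζ.re)) := by
  have hpi := Real.pi_pos
  have key : ∀ w ρ : ℝ, |ρ| ≤ ε →
      ‖2 * Complex.sin (Real.pi * (w + ρ * Complex.I))‖ ≤ Real.exp (DT.el ε w) := by
    intro w ρ hρ
    rw [DT.exp_el hε.ne', ← pow_le_pow_iff_left₀ (norm_nonneg _) (norm_nonneg _) two_ne_zero,
      DT.norm_two_sin, DT.norm_two_sin]
    have : Real.cosh (2 * Real.pi * ρ) ≤ Real.cosh (2 * Real.pi * ε) := by
      rw [Real.cosh_le_cosh, abs_mul (2 * Real.pi) ρ, abs_mul (2 * Real.pi) ε,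
        abs_of_pos (by positivity : 0 < 2 * Real.pi)]
      apply mul_le_mul_of_nonneg_left _ (by positivity)
      rw [abs_of_pos hε]
      exact hρ
    linarith only [this]
  have e1 : 2 * Complex.cos (2 * Real.pi * ζ) + ((2 * Real.cos (2 * Real.pi * v) : ℝ) : ℂ) =
      (2 * Complex.sin (Real.pi * (((v + 1 / 2 + ζ.re : ℝ) : ℂ) + ζ.im * Complex.I))) *
      (2 * Complex.sin (Real.pi * (((v + 1 / 2 - ζ.re : ℝ) : ℂ) + ((-ζ.im : ℝ) : ℂ) *
        Complex.I))) := by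
    have hz : ζ = ζ.re + ζ.im * Complex.I := (Complex.re_add_im ζ).symm
    have f1 : Real.pi * (((v + 1 / 2 + ζ.re : ℝ) : ℂ) + ζ.im * Complex.I) =
        Real.pi * (v + ζ) + Real.pi / 2 := by
      conv_rhs => rw [hz]
      push_cast
      ring
    have f2 : Real.pi * (((v + 1 / 2 - ζ.re : ℝ) : ℂ) + ((-ζ.im : ℝ) : ℂ) * Complex.I) =
        Real.pi * (v - ζ) + Real.pi / 2 := by
      conv_rhs => rw [hz]
      push_cast
      ring
    rw [f1, f2, Complex.sin_add_pi_div_two, Complex.sin_add_pi_div_two]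
    push_cast
    have g1 : (2 * Real.pi * ζ : ℂ) = Real.pi * (v + ζ) - Real.pi * (v - ζ) := by ring
    have g2 : (2 * Real.pi * v : ℂ) = Real.pi * (v + ζ) + Real.pi * (v - ζ) := by ring
    rw [g1, g2, Complex.cos_add, Complex.cos_sub]
    ring
  rw [e1, norm_mul, Real.exp_add]
  apply mul_le_mul (key _ _ h) (key _ _ (by rw [abs_neg]; exact h)) (norm_nonneg _)
    (Real.exp_pos _).le

/-- midpoint sums of a function with bounded derivative -/
theorem mid_sum_le {Φ φ φ' : ℝ → ℝ} {B : ℝ} (hΦ : ∀ v, HasDerivAt Φ (φ v) v)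
    (hφ : ∀ v, HasDerivAt φ (φ' v) v) (hB : ∀ v, |φ' v| ≤ B) {n : ℕ} (hn : 0 < n) (y : ℕ) :
    ∑ l ∈ range y, φ (((l : ℝ) + 1 / 2) / n) ≤
      n * (Φ ((y : ℝ) / n) - Φ 0) + B * y / n := by
  have hn' : (0 : ℝ) < n := by exact_mod_cast hn
  have hB0 : 0 ≤ B := (abs_nonneg _).trans (hB 0)
  induction y with
  | zero => simp
  | succ y ih =>
    rw [sum_range_succ]
    have hlt : (y : ℝ) / n < ((y + 1 : ℕ) : ℝ) / n := by
      apply div_lt_div_of_pos_right _ hn'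
      push_cast
      linarith only []
    obtain ⟨c, hc, hc'⟩ := exists_hasDerivAt_eq_slope Φ φ hlt
      (fun v _ => (hΦ v).continuousAt.continuousWithinAt) (fun v _ => hΦ v)
    have e1 : ((y + 1 : ℕ) : ℝ) / n - (y : ℝ) / n = 1 / n := by
      push_cast
      ring
    rw [e1, div_div_eq_mul_div, div_one, mul_comm] at hc'
    have h1 : |φ (((y : ℝ) + 1 / 2) / n) - φ c| ≤ B * (1 / n) := by
      have := DT.mvt_bound' hφ (fun v => by rw [Real.norm_eq_abs]; exact hB v) c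
        (((y : ℝ) + 1 / 2) / n)
      rw [Real.norm_eq_abs] at this
      refine this.trans (mul_le_mul_of_nonneg_left ?_ hB0)
      have i1 := hc.1
      have i2 := hc.2
      rw [abs_le]
      have e2 : ((y + 1 : ℕ) : ℝ) / n = (y : ℝ) / n + 1 / n := by push_cast; ring
      have e3 : ((y : ℝ) + 1 / 2) / n = (y : ℝ) / n + 1 / 2 * (1 / n) := by ring
      rw [e2] at i2
      rw [e3]
      have : (0 : ℝ) < 1 / n := by positivity
      constructor <;> linarith only [i1, i2]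
    have h2 := (abs_le.1 h1).2
    have e4 : B * ((y + 1 : ℕ) : ℝ) / n = B * y / n + B * (1 / n) := by push_cast; ring
    rw [e4]
    have e5 : (n : ℝ) * (Φ (((y + 1 : ℕ) : ℝ) / n) - Φ 0) = n * (Φ ((y : ℝ) / n) - Φ 0) +
        n * (Φ (((y + 1 : ℕ) : ℝ) / n) - Φ ((y : ℝ) / n)) := by ring
    rw [e5, ← hc']
    linarith only [ih, h2]

theorem abs_rr_le {ε : ℝ} (hε : 0 < ε) (v : ℝ) :
    |DT.rr ε v| ≤ 1 / (Real.cosh (2 * Real.pi * ε) - 1) := by
  have h1 : 1 < Real.cosh (2 * Real.pi * ε) := Real.one_lt_cosh.2 (by positivity)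
  have h2 := Real.cos_le_one (2 * Real.pi * v)
  unfold DT.rr
  rw [abs_div, abs_of_pos (by linarith only [h1, h2] : 0 < Real.cosh (2 * Real.pi * ε) -
    Real.cos (2 * Real.pi * v))]
  apply div_le_div₀ zero_le_one (Real.abs_sin_le_one _) (by linarith only [h1]) (by linarith only [h2])

theorem PP_le {ε : ℝ} (hε : 0 < ε) : ∃ C : ℝ, 0 ≤ C ∧ ∀ n y : ℕ, 0 < n → y ≤ n → ∀ ζ : ℂ,
    |ζ.im| ≤ ε → ‖PP n y ζ‖ ≤ C * Real.exp (n * (DT.Lr ε ((y : ℝ) / n + 1 / 2 + ζ.re) +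
      DT.Lr ε ((y : ℝ) / n + 1 / 2 - ζ.re) - Real.pi * ε)) := by
  have hpi := Real.pi_pos
  set B := 2 * (Real.pi * (1 / (Real.cosh (2 * Real.pi * ε) - 1))) with hBdef
  have h1 : 1 < Real.cosh (2 * Real.pi * ε) := Real.one_lt_cosh.2 (by positivity)
  have hB0 : 0 ≤ B := by
    have : 0 < Real.cosh (2 * Real.pi * ε) - 1 := by linarith only [h1]
    positivity
  refine ⟨Real.exp B, (Real.exp_pos _).le, ?_⟩
  intro n y hn hy ζ hζ
  have hn' : (0 : ℝ) < n := by exact_mod_cast hn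
  set σ := ζ.re
  have l1 : ∀ v : ℝ, HasDerivAt (fun v : ℝ => v + 1 / 2 + σ) 1 v := fun v =>
    ((hasDerivAt_id v).add_const (1 / 2)).add_const σ
  have l2 : ∀ v : ℝ, HasDerivAt (fun v : ℝ => v + 1 / 2 - σ) 1 v := fun v =>
    ((hasDerivAt_id v).add_const (1 / 2)).sub_const σ
  have hΦ : ∀ v : ℝ, HasDerivAt (fun v => DT.Lr ε (v + 1 / 2 + σ) + DT.Lr ε (v + 1 / 2 - σ))
      (DT.el ε (v + 1 / 2 + σ) + DT.el ε (v + 1 / 2 - σ)) v := by
    intro v
    have m1 := (DT.hasDerivAt_Lr (ρ := ε) (x := v + 1 / 2 + σ) hε).comp v (l1 v)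
    have m2 := (DT.hasDerivAt_Lr (ρ := ε) (x := v + 1 / 2 - σ) hε).comp v (l2 v)
    rw [mul_one] at m1 m2
    exact m1.add m2
  have hφ : ∀ v : ℝ, HasDerivAt (fun v => DT.el ε (v + 1 / 2 + σ) + DT.el ε (v + 1 / 2 - σ))
      (Real.pi * DT.rr ε (v + 1 / 2 + σ) + Real.pi * DT.rr ε (v + 1 / 2 - σ)) v := by
    intro v
    have m1 := (DT.hasDerivAt_el (ρ := ε) (v := v + 1 / 2 + σ) hε).comp v (l1 v)
    have m2 := (DT.hasDerivAt_el (ρ := ε) (v := v + 1 / 2 - σ) hε).comp v (l2 v)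
    rw [mul_one] at m1 m2
    exact m1.add m2
  have hB : ∀ v : ℝ, |Real.pi * DT.rr ε (v + 1 / 2 + σ) + Real.pi * DT.rr ε (v + 1 / 2 - σ)| ≤
      B := by
    intro v
    refine (abs_add_le _ _).trans ?_
    rw [abs_mul, abs_mul, abs_of_pos hpi]
    have i1 := mul_le_mul_of_nonneg_left (abs_rr_le hε (v + 1 / 2 + σ)) hpi.le
    have i2 := mul_le_mul_of_nonneg_left (abs_rr_le hε (v + 1 / 2 - σ)) hpi.le
    rw [hBdef]
    linarith only [i1, i2]
  have h2 : ‖PP n y ζ‖ ≤ Real.exp (∑ l ∈ range y,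
      (fun v => DT.el ε (v + 1 / 2 + σ) + DT.el ε (v + 1 / 2 - σ)) (((l : ℝ) + 1 / 2) / n)) := by
    unfold PP
    rw [norm_prod, Real.exp_sum]
    apply prod_le_prod (fun _ _ => norm_nonneg _)
    intro l _
    have := factor_le hε (((l : ℝ) + 1 / 2) / n) hζ
    rw [show 2 * Real.pi * (((l : ℝ) + 1 / 2) / n) = 2 * Real.pi * ((l : ℝ) + 1 / 2) / n by
      ring] at this
    exact this
  refine h2.trans ?_
  rw [← Real.exp_add]
  apply Real.exp_le_exp.2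
  have h3 := mid_sum_le hΦ hφ hB hn y
  have h4 := DT.Lr_half_add hε.le σ
  have e1 : DT.Lr ε (0 + 1 / 2 + σ) + DT.Lr ε (0 + 1 / 2 - σ) = Real.pi * ε := by
    rw [zero_add]; exact h4
  rw [e1] at h3
  have h5 : B * y / n ≤ B := by
    rw [div_le_iff₀ hn']
    apply mul_le_mul_of_nonneg_left _ hB0
    exact_mod_cast hy
  linarith only [h3, h5]

theorem fS_lower : ∃ C : ℝ, 0 < C ∧ ∀ n y : ℕ, y < n →
    Real.exp (n * DT.Lr 0 ((y : ℝ) / n)) ≤ C * n * fS n y := by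
  refine ⟨1, one_pos, ?_⟩
  intro n y hy
  have hpi := Real.pi_pos
  have hn : 0 < n := by omega
  have hn' : (0 : ℝ) < n := by exact_mod_cast hn
  have hn1 : (1 : ℝ) ≤ n := by exact_mod_cast hn
  have hf := fS_pos hy
  rcases Nat.eq_zero_or_pos y with h0 | h0
  · subst h0
    have e : fS n 0 = 1 := by unfold fS; simp
    rw [e]
    simp only [Nat.cast_zero, zero_div, DT.Lr_zero_right, mul_zero, Real.exp_zero, one_mul,
      mul_one]
    exact hn1
  set h : ℝ := Real.pi / n with hh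
  have hh0 : 0 < h := by positivity
  have hy1 : (1 : ℝ) ≤ y := by exact_mod_cast h0
  have hyn : (y : ℝ) + 1 ≤ n := by exact_mod_cast hy
  have hnh : n * h = Real.pi := by rw [hh]; field_simp
  -- the logarithm of `fS`
  have hlog : Real.log (fS n y) = Lob.SS h y := by
    unfold fS Lob.SS
    rw [Real.log_prod]
    · apply Finset.sum_congr rfl
      intro j _
      unfold Lob.ff
      rw [hh]
      congr 3
      ring
    · intro l hl
      rw [mem_range] at hl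
      have := sinF_pos (n := n) (l := l) (by omega)
      positivity
  have h1 := Lob.SS_lower hh0 y (by nlinarith only [hpi, hnh, hyn])
  have h2 := DT.LF_small_upper (y := h / 2) (by positivity) (by nlinarith only [hnh, hpi, hn', hn1])
  rw [show 2 * (h / 2) = h by ring] at h2
  rw [← hlog] at h1
  -- the half cell
  have h3 : h / 2 * Real.log (2 / n) ≤ Lob.LF ((y + 1 / 2) * h) - Lob.LF (y * h) := by
    rw [Lob.LF_sub]
    have e1 : h / 2 * Real.log (2 / n) = ∫ _ in (y * h)..((y + 1 / 2) * h), Real.log (2 / n) := by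
      rw [intervalIntegral.integral_const, smul_eq_mul]
      ring
    rw [e1]
    apply intervalIntegral.integral_mono_on (by nlinarith only [hh0]) intervalIntegrable_const
      (Lob.ii _ _)
    intro u hu
    unfold Lob.ff
    apply Real.log_le_log (by positivity)
    -- `1/n ≤ sin u`
    have hu1 : h / 2 ≤ u := by nlinarith only [hpi, hnh, hu, hy1, hu.1]
    have hu2 : u ≤ Real.pi - h / 2 := by nlinarith only [hnh, hu, hpi, hyn, hn', hu.2]
    have hs : 1 / (n : ℝ) ≤ Real.sin (h / 2) := by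
      have := Real.mul_le_sin (x := h / 2) (by positivity) (by nlinarith only [hu1, hu2])
      have e : 2 / Real.pi * (h / 2) = 1 / n := by rw [hh]; field_simp
      rw [e] at this
      exact this
    have hs2 : Real.sin (h / 2) ≤ Real.sin u := by
      rcases le_total u (Real.pi / 2) with hc | hc
      · exact Real.sin_le_sin_of_le_of_le_pi_div_two (by linarith only [hpi, hh0]) hc hu1
      · rw [← Real.sin_pi_sub u]
        exact Real.sin_le_sin_of_le_of_le_pi_div_two (by linarith only [hpi, hh0]) (by linarith only [hc]) (by linarith only [hu2])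
    have : (2 : ℝ) / n = 2 * (1 / n) := by ring
    rw [this]
    linarith only [hs, hs2]
  have h4 : Real.log (2 / n) = Real.log 2 - Real.log n := Real.log_div (by norm_num) hn'.ne'
  have h5 : Real.log h = Real.log Real.pi - Real.log n := by
    rw [hh, Real.log_div hpi.ne' hn'.ne']
  have h6 : Real.log Real.pi - Real.log 2 ≤ 1 := by
    rw [← Real.log_div hpi.ne' (by norm_num)]
    have := Real.log_le_sub_one_of_pos (x := Real.pi / 2) (by positivity)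
    have := Real.pi_le_four
    linarith
  have h7 : Lob.LF (y * h) ≤ h * Real.log (fS n y) := by
    have : h / 2 * Real.log (2 / n) - (h / 2 * Real.log h - h / 2) = h / 2 *
        (1 - (Real.log Real.pi - Real.log 2)) := by
      rw [h4, h5]; ring
    have h8 : 0 ≤ h / 2 * (1 - (Real.log Real.pi - Real.log 2)) :=
      mul_nonneg (by positivity) (by linarith only [h6])
    linarith only [h1, h2, h3, this, h8]
  have h9 : n * DT.Lr 0 ((y : ℝ) / n) ≤ Real.log (fS n y) := by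
    rw [DT.Lr_zero_left]
    have e1 : Real.pi * ((y : ℝ) / n) = y * h := by rw [hh]; ring
    rw [e1]
    have e2 : (n : ℝ) * (Lob.LF (y * h) / Real.pi) = Lob.LF (y * h) / h := by
      rw [← hnh]; field_simp
    rw [e2, div_le_iff₀ hh0]
    linarith only [h7]
  calc Real.exp (n * DT.Lr 0 ((y : ℝ) / n)) ≤ Real.exp (Real.log (fS n y)) :=
        Real.exp_le_exp.2 h9
    _ = fS n y := Real.exp_log hf
    _ ≤ 1 * n * fS n y := by nlinarith only [hn1, hf]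

/-! ### the summand and the kernel -/

theorem continuous_tr : Continuous fun p : ℝ × ℝ × ℝ × ℝ => tr p.1 p.2.1 p.2.2.1 p.2.2.2 := by
  have hL : ∀ {f g : ℝ × ℝ × ℝ × ℝ → ℝ}, Continuous f → Continuous g →
      Continuous fun p => DT.Lr (f p) (g p) := by
    intro f g hf hg
    exact Continuous.comp (g := fun q : ℝ × ℝ => DT.Lr q.1 q.2) (f := fun p => (f p, g p))
      DT.continuous_Lr (hf.prodMk hg)
  have cρ : Continuous fun p : ℝ × ℝ × ℝ × ℝ => p.1 := by fun_prop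
  have c0 : Continuous fun _ : ℝ × ℝ × ℝ × ℝ => (0 : ℝ) := continuous_const
  have cx : Continuous fun p : ℝ × ℝ × ℝ × ℝ => p.2.1 := by fun_prop
  have c1 : Continuous fun p : ℝ × ℝ × ℝ × ℝ => p.2.1 + 1 / 2 + p.2.2.1 := by fun_prop
  have c2 : Continuous fun p : ℝ × ℝ × ℝ × ℝ => p.2.1 + 1 / 2 - p.2.2.1 := by fun_prop
  have c3 : Continuous fun p : ℝ × ℝ × ℝ × ℝ => p.2.1 + 1 / 2 + p.2.2.2 := by fun_prop
  have c4 : Continuous fun p : ℝ × ℝ × ℝ × ℝ => p.2.1 + 1 / 2 - p.2.2.2 := by fun_prop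
  have c5 : Continuous fun p : ℝ × ℝ × ℝ × ℝ => 2 * Real.pi * p.1 := by fun_prop
  have d0 := hL c0 cx
  have d1 := hL cρ c1
  have d2 := hL cρ c2
  have d3 := hL cρ c3
  have d4 := hL cρ c4
  have d5 := ((continuous_const (y := (-4 : ℝ))).mul d0)
  exact ((d5.add (d1.add d2)).add (d3.add d4)).sub c5

/-- uniform gap away from the maximum -/
theorem tr_far {δ : ℝ} (hδ : 0 < δ) : ∃ ε c : ℝ, 0 < ε ∧ 0 < c ∧ ∀ x σ σ' : ℝ, 0 ≤ x → x ≤ 1 →
    |σ| ≤ 1 / 2 → |σ'| ≤ 1 / 2 → (δ ≤ |x - 1 / 4| ∨ δ ≤ |σ| ∨ δ ≤ |σ'|) →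
    tr ε x σ σ' ≤ ts - c := by
  set K : Set (ℝ × ℝ × ℝ) := (Set.Icc 0 1 ×ˢ (Set.Icc (-(1 / 2)) (1 / 2) ×ˢ
    Set.Icc (-(1 / 2)) (1 / 2))) ∩ {p | δ ≤ |p.1 - 1 / 4| ∨ δ ≤ |p.2.1| ∨ δ ≤ |p.2.2|} with hK
  have hKc : IsCompact K := by
    apply (isCompact_Icc.prod (isCompact_Icc.prod isCompact_Icc)).inter_right
    have c1 : IsClosed {p : ℝ × ℝ × ℝ | δ ≤ |p.1 - 1 / 4|} :=
      isClosed_le continuous_const (by fun_prop)
    have c2 : IsClosed {p : ℝ × ℝ × ℝ | δ ≤ |p.2.1|} :=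
      isClosed_le continuous_const (by fun_prop)
    have c3 : IsClosed {p : ℝ × ℝ × ℝ | δ ≤ |p.2.2|} :=
      isClosed_le continuous_const (by fun_prop)
    exact c1.union (c2.union c3)
  have hlt : ∀ p ∈ K, tr 0 p.1 p.2.1 p.2.2 < ts := by
    rintro ⟨x, σ, σ'⟩ ⟨⟨hx, hσ, hσ'⟩, hp⟩
    simp only [Set.mem_ofPred_eq] at hp
    apply tr_lt hx.1 hx.2 (abs_le.2 hσ) (abs_le.2 hσ')
    rcases hp with h | h | h
    · left
      intro e
      have e' : x = 1 / 4 := e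
      rw [e', sub_self, abs_zero] at h
      linarith only [hδ, h]
    · right; left
      intro e
      have e' : σ = 0 := e
      rw [e', abs_zero] at h
      linarith only [hδ, h]
    · right; right
      intro e
      have e' : σ' = 0 := e
      rw [e', abs_zero] at h
      linarith only [hδ, h]
  have hc0 : ∃ c : ℝ, 0 < c ∧ ∀ p ∈ K, tr 0 p.1 p.2.1 p.2.2 < ts - c := by
    rcases K.eq_empty_or_nonempty with he | he
    · exact ⟨1, one_pos, fun p hp => by rw [he] at hp; exact absurd hp (Set.notMem_empty p)⟩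
    · have hcont : Continuous fun p : ℝ × ℝ × ℝ => tr 0 p.1 p.2.1 p.2.2 := by
        have hc : Continuous fun p : ℝ × ℝ × ℝ => ((0, p.1, p.2.1, p.2.2) : ℝ × ℝ × ℝ × ℝ) := by
          fun_prop
        exact Continuous.comp continuous_tr hc
      obtain ⟨p0, hp0, hmax⟩ := hKc.exists_isMaxOn he hcont.continuousOn
      refine ⟨(ts - tr 0 p0.1 p0.2.1 p0.2.2) / 2, by linarith only [hlt, hp0, hlt p0 hp0], ?_⟩
      intro p hp
      have h1 : tr 0 p.1 p.2.1 p.2.2 ≤ tr 0 p0.1 p0.2.1 p0.2.2 := hmax hp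
      have h2 := hlt p0 hp0
      linarith only [h1, h2]
  obtain ⟨c, hc, hc'⟩ := hc0
  have hev := hKc.eventually_forall_of_forall_eventually (x₀ := (0 : ℝ))
    (P := fun ρ p => tr ρ p.1 p.2.1 p.2.2 < ts - c) (fun p hp => by
      have hopen : IsOpen {q : ℝ × ℝ × ℝ × ℝ | tr q.1 q.2.1 q.2.2.1 q.2.2.2 < ts - c} :=
        isOpen_lt continuous_tr continuous_const
      exact hopen.mem_nhds (hc' p hp))
  obtain ⟨r, hr, hr'⟩ := Metric.eventually_nhds_iff.1 hev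
  refine ⟨r / 2, c, by positivity, hc, ?_⟩
  intro x σ σ' h0 h1 hσ hσ' hne
  have := hr' (y := r / 2) (by rw [Real.dist_eq, sub_zero, abs_of_pos (by positivity)]; linarith only [hr])
    (x, σ, σ') ⟨⟨⟨h0, h1⟩, abs_le.1 hσ, abs_le.1 hσ'⟩, hne⟩
  exact this.le

/-- the summand away from the maximum -/
theorem term_far {δ : ℝ} (hδ : 0 < δ) : ∃ ε c C : ℝ, 0 < ε ∧ 0 < c ∧ 0 ≤ C ∧ ∀ n y : ℕ, 0 < n →
    y < n → ∀ ζ ζ' : ℂ, |ζ.re| ≤ 1 / 2 → |ζ'.re| ≤ 1 / 2 → |ζ.im| ≤ ε → |ζ'.im| ≤ ε →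
    (δ ≤ |(y : ℝ) / n - 1 / 4| ∨ δ ≤ |ζ.re| ∨ δ ≤ |ζ'.re|) →
    ‖term n y ζ ζ'‖ ≤ C * Real.exp (n * (ts - c)) := by
  obtain ⟨ε, c, hε, hc, htr⟩ := tr_far hδ
  obtain ⟨C₁, hC₁, hPP⟩ := PP_le hε
  obtain ⟨C₂, hC₂, hfS⟩ := fS_lower
  refine ⟨ε, c / 2, C₁ ^ 2 * C₂ ^ 4 * (24 / (c / 2) ^ 4), hε, by positivity, by positivity, ?_⟩
  intro n y hn hy ζ ζ' hζ hζ' hi hi' hne
  have hn' : (0 : ℝ) < n := by exact_mod_cast hn
  have hf := fS_pos hy
  have h1 := hPP n y hn hy.le ζ hi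
  have h2 := hPP n y hn hy.le ζ' hi'
  have h3 := hfS n y hy
  set x : ℝ := (y : ℝ) / n with hx
  have hx0 : 0 ≤ x := by positivity
  have hx1 : x ≤ 1 := by
    rw [hx, div_le_one hn']
    exact_mod_cast hy.le
  have h4 := htr x ζ.re ζ'.re hx0 hx1 hζ hζ' hne
  set E1 := Real.exp (n * (DT.Lr ε (x + 1 / 2 + ζ.re) + DT.Lr ε (x + 1 / 2 - ζ.re) -
    Real.pi * ε)) with hE1
  set E2 := Real.exp (n * (DT.Lr ε (x + 1 / 2 + ζ'.re) + DT.Lr ε (x + 1 / 2 - ζ'.re) -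
    Real.pi * ε)) with hE2
  have hE1p : 0 < E1 := Real.exp_pos _
  have hE2p : 0 < E2 := Real.exp_pos _
  -- the denominator
  have h5 : Real.exp (n * DT.Lr 0 x) ^ 4 ≤ (C₂ * n) ^ 4 * fS n y ^ 4 := by
    rw [← mul_pow]
    exact pow_le_pow_left₀ (Real.exp_pos _).le h3 4
  have h6 : 1 / fS n y ^ 4 ≤ (C₂ * n) ^ 4 * Real.exp (-4 * (n * DT.Lr 0 x)) := by
    rw [div_le_iff₀ (by positivity)]
    have e : Real.exp (-4 * (n * DT.Lr 0 x)) * Real.exp (n * DT.Lr 0 x) ^ 4 = 1 := by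
      rw [← Real.exp_nat_mul, ← Real.exp_add, ← Real.exp_zero]
      congr 1
      push_cast
      ring
    have := mul_le_mul_of_nonneg_left h5 (Real.exp_pos (-4 * (n * DT.Lr 0 x))).le
    rw [e] at this
    linarith only [this]
  have h7 : ‖term n y ζ ζ'‖ ≤ C₁ * E1 * (C₁ * E2) * ((C₂ * n) ^ 4 *
      Real.exp (-4 * (n * DT.Lr 0 x))) := by
    unfold term
    rw [norm_div, norm_mul, Complex.norm_real, Real.norm_of_nonneg (by positivity),
      div_eq_mul_one_div]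
    apply mul_le_mul _ h6 (by positivity) (by positivity)
    exact mul_le_mul h1 h2 (norm_nonneg _) (by positivity)
  have h8 : C₁ * E1 * (C₁ * E2) * ((C₂ * n) ^ 4 * Real.exp (-4 * (n * DT.Lr 0 x))) =
      C₁ ^ 2 * C₂ ^ 4 * ((n : ℝ) ^ 4 * Real.exp (n * tr ε x ζ.re ζ'.re)) := by
    have e : Real.exp (n * tr ε x ζ.re ζ'.re) = E1 * E2 * Real.exp (-4 * (n * DT.Lr 0 x)) := by
      rw [hE1, hE2, ← Real.exp_add, ← Real.exp_add]
      congr 1
      unfold tr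
      ring
    rw [e]
    ring
  rw [h8] at h7
  refine h7.trans ?_
  rw [mul_assoc (C₁ ^ 2 * C₂ ^ 4)]
  apply mul_le_mul_of_nonneg_left _ (by positivity)
  -- absorb the polynomial factor
  have h9 : (n : ℝ) ^ 4 ≤ 24 / (c / 2) ^ 4 * Real.exp (n * (c / 2)) := by
    have := Real.pow_div_factorial_le_exp (x := n * (c / 2)) (by positivity) 4
    have e : (Nat.factorial 4 : ℝ) = 24 := by norm_num [Nat.factorial]
    rw [e, div_le_iff₀ (by norm_num), mul_pow] at this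
    rw [div_mul_eq_mul_div, le_div_iff₀ (by positivity)]
    linarith only [this]
  calc (n : ℝ) ^ 4 * Real.exp (n * tr ε x ζ.re ζ'.re)
      ≤ (24 / (c / 2) ^ 4 * Real.exp (n * (c / 2))) * Real.exp (n * (ts - c)) := by
        apply mul_le_mul h9 _ (Real.exp_pos _).le (by positivity)
        apply Real.exp_le_exp.2
        exact mul_le_mul_of_nonneg_left h4 hn'.le
    _ = 24 / (c / 2) ^ 4 * Real.exp (n * (ts - c / 2)) := by
        rw [mul_assoc, ← Real.exp_add]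
        congr 2
        ring

/-- the kernel away from the maximum -/
theorem SS_far {δ : ℝ} (hδ : 0 < δ) : ∃ ε c C : ℝ, 0 < ε ∧ 0 < c ∧ 0 ≤ C ∧ ∀ n : ℕ, 0 < n →
    ∀ ζ ζ' : ℂ, |ζ.re| ≤ 1 / 2 → |ζ'.re| ≤ 1 / 2 → |ζ.im| ≤ ε → |ζ'.im| ≤ ε →
    (δ ≤ |ζ.re| ∨ δ ≤ |ζ'.re|) → ‖SS n ζ ζ'‖ ≤ C * Real.exp (n * (ts - c)) := by
  obtain ⟨ε, c, C, hε, hc, hC, h⟩ := term_far hδ
  refine ⟨ε, c / 2, C * (1 / (c / 2)), hε, by positivity, by positivity, ?_⟩
  intro n hn ζ ζ' hζ hζ' hi hi' hne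
  have hn' : (0 : ℝ) < n := by exact_mod_cast hn
  have h1 : ‖SS n ζ ζ'‖ ≤ n * (C * Real.exp (n * (ts - c))) := by
    unfold SS
    refine (norm_sum_le _ _).trans ?_
    have : ∑ y ∈ range n, ‖term n y ζ ζ'‖ ≤ ∑ _y ∈ range n, C * Real.exp (n * (ts - c)) := by
      apply sum_le_sum
      intro y hy
      rw [mem_range] at hy
      exact h n y hn hy ζ ζ' hζ hζ' hi hi' (Or.inr hne)
    refine this.trans (le_of_eq ?_)
    rw [sum_const, card_range, nsmul_eq_mul]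
  refine h1.trans ?_
  have h2 : (n : ℝ) ≤ 1 / (c / 2) * Real.exp (n * (c / 2)) := by
    have := Real.add_one_le_exp (n * (c / 2))
    rw [one_div, ← div_eq_inv_mul, le_div_iff₀ (by positivity)]
    linarith only [this]
  calc (n : ℝ) * (C * Real.exp (n * (ts - c)))
      ≤ (1 / (c / 2) * Real.exp (n * (c / 2))) * (C * Real.exp (n * (ts - c))) :=
        mul_le_mul_of_nonneg_right h2 (by positivity)
    _ = C * (1 / (c / 2)) * Real.exp (n * (ts - c / 2)) := by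
        have e : n * (ts - c / 2) = n * (c / 2) + n * (ts - c) := by ring
        rw [e, Real.exp_add]
        ring

end Pool.Agent.Work.MP_b30479_gt.LT
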