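import Pool.Agent.Work.MP_b30479_gt.LT.Interp
import Pool.Agent.Work.MP_b30479_gt.LT.Conc
import Pool.Agent.Work.MP_b30479_gt.LT.Far
import Pool.Agent.Work.MP_b30479_gt.DT.LrDer
import Pool.Agent.Work.MP_b30479_gt.VC.PhiCx

/-!
# Bounds for the real part of the potential, from the real function by continuity
-/

namespace Pool.Agent.Work.MP_b30479_gt.LT

open Finset VOL AX MeasureTheory

theorem Fh_ofReal {x : ℝ} (h0 : 0 < x) (h1 : x < 1) : Fh x = ((DT.Lr 0 x : ℝ) : ℂ) := by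
  have hd : ∀ t ∈ Set.Ioo (0 : ℝ) 1,
      HasDerivAt (fun t : ℝ => Fh (t : ℂ) - ((DT.Lr 0 t : ℝ) : ℂ)) 0 t := by
    intro t ht
    have hs : 0 < Real.sin (Real.pi * t) := sin_pi_pos ht.1 ht.2
    have hm : (t : ℂ) ∈ strip := ⟨by simpa using ht.1, by simpa using ht.2⟩
    have h2 : HasDerivAt (fun t : ℝ => ((t : ℝ) : ℂ)) 1 t := Complex.ofRealCLM.hasDerivAt
    have h3 : HasDerivAt (fun t : ℝ => Fh (t : ℂ)) (ph t * 1) t := (hasDerivAt_Fh hm).comp_of_eq t h2 rfl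
    have h4 : HasDerivAt (fun t : ℝ => ((DT.Lr 0 t : ℝ) : ℂ)) ((DT.el 0 t : ℝ) : ℂ) t :=
      (DT.hasDerivAt_Lr_zero hs.ne').ofReal_comp
    refine (h3.sub h4).congr_deriv ?_
    rw [mul_one, ph_ofReal ht.1 ht.2, DT.el_zero, Lob.ff, sub_self]
  have hc := IsOpen.is_const_of_deriv_eq_zero (isOpen_Ioo (a := (0 : ℝ)) (b := 1))
    isPreconnected_Ioo (fun t ht => (hd t ht).differentiableAt.differentiableWithinAt)
    (fun t ht => (hd t ht).deriv) (x := x) (y := 1 / 2) ⟨h0, h1⟩ ⟨by norm_num, by norm_num⟩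
  have h5 : Fh ((1 / 2 : ℝ) : ℂ) = 0 := by
    push_cast
    exact Fh_half
  have h6 : DT.Lr 0 (1 / 2) = 0 := by
    rw [DT.Lr_half le_rfl]
    ring
  rw [h5, h6] at hc
  simpa [sub_eq_zero] using hc

theorem tp_ofReal {x σ σ' : ℝ} (h0 : 0 < x) (h1 : x ≤ 3 / 8) (h2 : |σ| ≤ 1 / 16)
    (h3 : |σ'| ≤ 1 / 16) : tp x σ σ' = ((tr 0 x σ σ' : ℝ) : ℂ) := by
  rw [abs_le] at h2 h3
  have e1 := Fh_ofReal (x := x + 1 / 2 + σ) (by linarith only [h0, h1, h2, h2.1]) (by linarith only [h0, h1, h2, h2.2])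
  have e2 := Fh_ofReal (x := x + 1 / 2 - σ) (by linarith only [h0, h1, h2, h2.2]) (by linarith only [h0, h1, h2, h2.1])
  have e3 := Fh_ofReal (x := x + 1 / 2 + σ') (by linarith only [h0, h1, h3, h3.1]) (by linarith only [h0, h1, h3, h3.2])
  have e4 := Fh_ofReal (x := x + 1 / 2 - σ') (by linarith only [h0, h1, h3, h3.2]) (by linarith only [h0, h1, h3, h3.1])
  have e5 := Fh_ofReal (x := x) h0 (by linarith only [h0, h1])
  push_cast at e1 e2 e3 e4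
  unfold tp tr
  rw [e1, e2, e3, e4, e5]
  push_cast
  ring

theorem Fh_continuousAt {w : ℂ} (hw : w ∈ strip) : ContinuousAt Fh w :=
  (hasDerivAt_Fh hw).continuousAt

theorem tp_continuousOn : ContinuousOn (fun p : ℂ × ℂ × ℂ => tp p.1 p.2.1 p.2.2)
    {p | 0 < p.1.re ∧ p.1.re ≤ 3 / 8 ∧ |p.2.1.re| ≤ 1 / 16 ∧ |p.2.2.re| ≤ 1 / 16} := by
  intro p hp
  obtain ⟨h0, h1, h2, h3⟩ := hp
  rw [abs_le] at h2 h3
  apply ContinuousAt.continuousWithinAt
  have k1 : ContinuousAt (fun p : ℂ × ℂ × ℂ => Fh (p.1 + 1 / 2 + p.2.1)) p := by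
    apply ContinuousAt.comp (g := Fh) (f := fun p : ℂ × ℂ × ℂ => p.1 + 1 / 2 + p.2.1)
    · refine Fh_continuousAt ⟨?_, ?_⟩
      · simp only [Complex.add_re]
        norm_num
        linarith only [h0, h1, h2, h2.1]
      · simp only [Complex.add_re]
        norm_num
        linarith only [h0, h1, h2, h2.2]
    · fun_prop
  have k2 : ContinuousAt (fun p : ℂ × ℂ × ℂ => Fh (p.1 + 1 / 2 - p.2.1)) p := by
    apply ContinuousAt.comp (g := Fh) (f := fun p : ℂ × ℂ × ℂ => p.1 + 1 / 2 - p.2.1)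
    · refine Fh_continuousAt ⟨?_, ?_⟩
      · simp only [Complex.add_re, Complex.sub_re]
        norm_num
        linarith only [h0, h1, h2, h2.2]
      · simp only [Complex.add_re, Complex.sub_re]
        norm_num
        linarith only [h0, h1, h2, h2.1]
    · fun_prop
  have k3 : ContinuousAt (fun p : ℂ × ℂ × ℂ => Fh (p.1 + 1 / 2 + p.2.2)) p := by
    apply ContinuousAt.comp (g := Fh) (f := fun p : ℂ × ℂ × ℂ => p.1 + 1 / 2 + p.2.2)
    · refine Fh_continuousAt ⟨?_, ?_⟩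
      · simp only [Complex.add_re]
        norm_num
        linarith only [h0, h1, h3, h3.1]
      · simp only [Complex.add_re]
        norm_num
        linarith only [h0, h1, h3, h3.2]
    · fun_prop
  have k4 : ContinuousAt (fun p : ℂ × ℂ × ℂ => Fh (p.1 + 1 / 2 - p.2.2)) p := by
    apply ContinuousAt.comp (g := Fh) (f := fun p : ℂ × ℂ × ℂ => p.1 + 1 / 2 - p.2.2)
    · refine Fh_continuousAt ⟨?_, ?_⟩
      · simp only [Complex.add_re, Complex.sub_re]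
        norm_num
        linarith only [h0, h1, h3, h3.2]
      · simp only [Complex.add_re, Complex.sub_re]
        norm_num
        linarith only [h0, h1, h3, h3.1]
    · fun_prop
  have k5 : ContinuousAt (fun p : ℂ × ℂ × ℂ => Fh p.1) p := by
    apply ContinuousAt.comp (g := Fh) (f := fun p : ℂ × ℂ × ℂ => p.1)
    · exact Fh_continuousAt ⟨h0, by linarith only [h0, h1]⟩
    · fun_prop
  exact (((k1.add k2).add k3).add k4).sub (continuousAt_const.mul k5)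

/-- a compact neighbourhood -/
def Kc : Set (ℂ × ℂ × ℂ) := {p | 1 / 8 ≤ p.1.re ∧ p.1.re ≤ 3 / 8 ∧ |p.1.im| ≤ 1 / 16 ∧
  ‖p.2.1‖ ≤ 1 / 16 ∧ ‖p.2.2‖ ≤ 1 / 16}

theorem Kc_compact : IsCompact Kc := by
  have h1 : IsCompact ((Set.Icc (1 / 8 : ℝ) (3 / 8)) ×ℂ (Set.Icc (-(1 / 16) : ℝ) (1 / 16))) :=
    isCompact_Icc.reProdIm isCompact_Icc
  have h2 : IsCompact (Metric.closedBall (0 : ℂ) (1 / 16)) := isCompact_closedBall 0 _
  have h3 := h1.prod (h2.prod h2)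
  convert h3 using 1
  ext p
  simp only [Kc, Set.mem_ofPred_eq, Set.mem_prod, Complex.mem_reProdIm, Set.mem_Icc,
    Metric.mem_closedBall, dist_zero_right, abs_le]
  tauto

/-- uniform continuity in the form used below -/
theorem tp_unif {η : ℝ} (hη : 0 < η) : ∃ ε : ℝ, 0 < ε ∧ ε ≤ 1 / 16 ∧ ∀ w w₁ ζ ζ' : ℂ,
    1 / 8 ≤ w.re → w.re ≤ 3 / 8 → |w.im| ≤ 1 / 16 → 1 / 8 ≤ w₁.re → w₁.re ≤ 3 / 8 →
    |w₁.im| ≤ 1 / 16 → ‖w - w₁‖ ≤ ε → ‖ζ‖ ≤ ε → ‖ζ'‖ ≤ ε →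
    (tp w ζ ζ').re ≤ (tp w₁ 0 0).re + η := by
  have hc : ContinuousOn (fun p : ℂ × ℂ × ℂ => tp p.1 p.2.1 p.2.2) Kc := by
    refine tp_continuousOn.mono ?_
    rintro p ⟨h1, h2, _, h4, h5⟩
    exact ⟨by linarith only [h1], h2, (Complex.abs_re_le_norm _).trans h4, (Complex.abs_re_le_norm _).trans h5⟩
  have hu := Kc_compact.uniformContinuousOn_of_continuous hc
  rw [Metric.uniformContinuousOn_iff] at hu
  obtain ⟨δ, hδ, hd⟩ := hu η hη
  refine ⟨min (δ / 2) (1 / 16), by positivity, min_le_right _ _, ?_⟩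
  intro w w₁ ζ ζ' h1 h2 h3 h4 h5 h6 h7 h8 h9
  have g1 : min (δ / 2) (1 / 16) ≤ δ / 2 := min_le_left _ _
  have g2 : min (δ / 2) (1 / 16 : ℝ) ≤ 1 / 16 := min_le_right _ _
  have h := hd (w, ζ, ζ') ⟨h1, h2, h3, h8.trans g2, h9.trans g2⟩ (w₁, 0, 0)
    ⟨h4, h5, h6, by simp, by simp⟩ (by
      rw [Prod.dist_eq, Prod.dist_eq]
      simp only [dist_zero_right, Complex.dist_eq]
      refine max_lt ?_ (max_lt ?_ ?_)
      · linarith only [hδ, h7, g1]
      · linarith only [hδ, h8, g1]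
      · linarith only [hδ, h9, g1])
  rw [Complex.dist_eq] at h
  have h' := (le_abs_self _).trans (Complex.abs_re_le_norm (tp w ζ ζ' - tp w₁ 0 0))
  simp only [Complex.sub_re] at h' h
  linarith only [h, h']

/-- away from `re w = 1/4` -/
theorem tp_mid {δ : ℝ} (hδ : 0 < δ) : ∃ ε c : ℝ, 0 < ε ∧ ε ≤ 1 / 16 ∧ 0 < c ∧ ∀ w ζ ζ' : ℂ,
    1 / 8 ≤ w.re → w.re ≤ 3 / 8 → δ ≤ |w.re - 1 / 4| → |w.im| ≤ ε → ‖ζ‖ ≤ ε → ‖ζ'‖ ≤ ε →
    (tp w ζ ζ').re ≤ ts - c := by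
  -- the maximum over the real compact set
  have hcomp : IsCompact {x : ℝ | 1 / 8 ≤ x ∧ x ≤ 3 / 8 ∧ δ ≤ |x - 1 / 4|} := by
    have e : {x : ℝ | 1 / 8 ≤ x ∧ x ≤ 3 / 8 ∧ δ ≤ |x - 1 / 4|} =
        Set.Icc (1 / 8 : ℝ) (3 / 8) ∩ {x : ℝ | δ ≤ |x - 1 / 4|} := by
      ext x
      simp only [Set.mem_ofPred_eq, Set.mem_inter_iff, Set.mem_Icc]
      tauto
    rw [e]
    refine isCompact_Icc.inter_right ?_
    exact isClosed_le continuous_const (by fun_prop)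
  have hcont : ContinuousOn (fun x : ℝ => (tp x 0 0).re)
      {x : ℝ | 1 / 8 ≤ x ∧ x ≤ 3 / 8 ∧ δ ≤ |x - 1 / 4|} := by
    apply Complex.continuous_re.comp_continuousOn
    have h := tp_continuousOn.comp (f := fun x : ℝ => ((x : ℂ), (0 : ℂ), (0 : ℂ)))
      (s := {x : ℝ | 1 / 8 ≤ x ∧ x ≤ 3 / 8 ∧ δ ≤ |x - 1 / 4|}) (by fun_prop) (by
        rintro x ⟨h1, h2, -⟩
        refine ⟨?_, ?_, ?_, ?_⟩
        · simp
          linarith only [h1]
        · simpa using h2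
        · simp
        · simp)
    exact h
  have hex : ∃ c : ℝ, 0 < c ∧ ∀ x : ℝ, 1 / 8 ≤ x → x ≤ 3 / 8 → δ ≤ |x - 1 / 4| →
      (tp x 0 0).re ≤ ts - c := by
    by_cases hne : ({x : ℝ | 1 / 8 ≤ x ∧ x ≤ 3 / 8 ∧ δ ≤ |x - 1 / 4|}).Nonempty
    · obtain ⟨x₀, hx₀, hmax⟩ := hcomp.exists_isMaxOn hne hcont
      refine ⟨ts - (tp x₀ 0 0).re, ?_, ?_⟩
      · obtain ⟨a1, a2, a3⟩ := hx₀
        have e := tp_ofReal (x := x₀) (σ := 0) (σ' := 0) (by linarith only [a1]) a2 (by simp) (by simp)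
        rw [Complex.ofReal_zero] at e
        rw [e, Complex.ofReal_re]
        have := tr_lt (x := x₀) (σ := 0) (σ' := 0) (by linarith only [a1]) (by linarith only [a2]) (by simp) (by simp)
          (Or.inl (by
            rintro rfl
            simp at a3
            linarith only [hδ, a3]))
        linarith only [this]
      · intro x h1 h2 h3
        have := hmax ⟨h1, h2, h3⟩
        simp only [Set.mem_ofPred_eq] at this
        linarith only [this]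
    · refine ⟨1, one_pos, ?_⟩
      intro x h1 h2 h3
      exact absurd ⟨x, h1, h2, h3⟩ hne
  obtain ⟨c, hc, hb⟩ := hex
  obtain ⟨ε, hε, hε', hu⟩ := tp_unif (η := c / 2) (by positivity)
  refine ⟨ε, c / 2, hε, hε', by positivity, ?_⟩
  intro w ζ ζ' h1 h2 h3 h4 h5 h6
  have h7 := hu w (w.re : ℂ) ζ ζ' h1 h2 (h4.trans hε') (by simpa using h1) (by simpa using h2)
    (by simp) (by
      have e : w - (w.re : ℂ) = (w.im : ℂ) * Complex.I := by
        apply Complex.ext <;> simp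
      rw [e, norm_mul, Complex.norm_I, mul_one, Complex.norm_real, Real.norm_eq_abs]
      exact h4) h5 h6
  have h8 := hb w.re h1 h2 h3
  linarith only [h7, h8]

theorem sin_ge {x : ℝ} (h0 : 1 / 8 ≤ x) (h1 : x ≤ 7 / 8) : 1 / 4 ≤ Real.sin (Real.pi * x) := by
  have key : ∀ x : ℝ, 1 / 8 ≤ x → x ≤ 1 / 2 → 1 / 4 ≤ Real.sin (Real.pi * x) := by
    intro x h0 h1
    have h := Real.mul_le_sin (x := Real.pi * x) (by positivity) (by
      nlinarith only [h1, Real.pi_pos])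
    have e : 2 / Real.pi * (Real.pi * x) = 2 * x := by
      field_simp
    rw [e] at h
    linarith only [h0, h]
  rcases le_total x (1 / 2) with h | h
  · exact key x h0 h
  · have := key (1 - x) (by linarith only [h1]) (by linarith only [h])
    rwa [show Real.pi * (1 - x) = Real.pi - Real.pi * x by ring, Real.sin_pi_sub] at this

theorem cot_le {x : ℝ} (h0 : 1 / 8 ≤ x) (h1 : x ≤ 7 / 8) :
    |Real.cos (Real.pi * x) / Real.sin (Real.pi * x)| ≤ 4 := by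
  have hs := sin_ge h0 h1
  rw [abs_div, abs_of_pos (by linarith only [hs] : 0 < Real.sin (Real.pi * x)), div_le_iff₀ (by linarith only [hs])]
  have := Real.abs_cos_le_one (Real.pi * x)
  linarith only [hs, this]

theorem Fh_im_le {x : ℝ} (h0 : 1 / 8 ≤ x) (h1 : x ≤ 7 / 8) (y : ℝ) :
    |(Fh (x + y * Complex.I)).re - (Fh x).re| ≤ 2 * Real.pi * y ^ 2 := by
  have h := VC.abs_phr_sub_real_le (x := x) (by linarith only [h0]) (by linarith only [h1]) y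
  have h2 := cot_le h0 h1
  unfold VC.phr at h
  rw [show -(Fh (x + y * Complex.I)).re - -(Fh x).re =
    -((Fh (x + y * Complex.I)).re - (Fh x).re) by ring, abs_neg] at h
  refine h.trans ?_
  have h3 : 0 ≤ Real.pi * y ^ 2 / 2 := by positivity
  nlinarith only [h2, h3]

theorem tp_im_le {x : ℝ} (h0 : 1 / 8 ≤ x) (h1 : x ≤ 3 / 8) (y : ℝ) :
    (tp (x + y * Complex.I) 0 0).re ≤ (tp x 0 0).re + 16 * Real.pi * y ^ 2 := by
  have a1 := Fh_im_le (x := x + 1 / 2) (by linarith only [h0]) (by linarith only [h1]) y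
  have a2 := Fh_im_le (x := x) (by linarith only [h0]) (by linarith only [h1]) y
  unfold tp
  simp only [add_zero, sub_zero]
  rw [show (x + y * Complex.I + 1 / 2 : ℂ) = ((x + 1 / 2 : ℝ) : ℂ) + y * Complex.I by
    push_cast
    ring, show (x + 1 / 2 : ℂ) = ((x + 1 / 2 : ℝ) : ℂ) by push_cast; ring]
  generalize Fh (((x + 1 / 2 : ℝ) : ℂ) + y * Complex.I) = A at a1 ⊢
  generalize Fh ((x + 1 / 2 : ℝ) : ℂ) = B at a1 ⊢
  generalize Fh ((x : ℂ) + y * Complex.I) = C at a2 ⊢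
  generalize Fh (x : ℂ) = D at a2 ⊢
  have r1 : (A + A + A + A - 4 * C).re = 4 * A.re - 4 * C.re := by
    simp
    ring
  have r2 : (B + B + B + B - 4 * D).re = 4 * B.re - 4 * D.re := by
    simp
    ring
  rw [r1, r2]
  rw [abs_le] at a1 a2
  linarith only [a1, a2, a1.1, a1.2, a2.1, a2.2]

/-- high above and below the real axis -/
theorem tp_top : ∃ κ₀ : ℝ, 0 < κ₀ ∧ ∀ κ : ℝ, 0 < κ → κ ≤ κ₀ → ∃ ε c : ℝ, 0 < ε ∧ ε ≤ 1 / 16 ∧
    0 < c ∧ ∀ w ζ ζ' : ℂ, 1 / 8 ≤ w.re → w.re ≤ 3 / 8 → |w.im| = κ → ‖ζ‖ ≤ ε → ‖ζ'‖ ≤ ε →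
    (tp w ζ ζ').re - 2 * Real.pi * κ ≤ ts - c := by
  refine ⟨1 / 16, by norm_num, ?_⟩
  intro κ hκ hκ'
  obtain ⟨ε, hε, hε', hu⟩ := tp_unif (η := Real.pi * κ / 2) (by positivity)
  refine ⟨ε, Real.pi * κ / 2, hε, hε', by positivity, ?_⟩
  intro w ζ ζ' h1 h2 h3 h4 h5
  have h6 := hu w w ζ ζ' h1 h2 (h3 ▸ hκ') h1 h2 (h3 ▸ hκ') (by simpa using hε.le) h4 h5
  have h7 := tp_im_le h1 h2 w.im
  rw [Complex.re_add_im] at h7
  have h8 : (tp (w.re : ℂ) 0 0).re ≤ ts := by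
    have e := tp_ofReal (x := w.re) (σ := 0) (σ' := 0) (by linarith only [hκ, hκ', h1]) h2 (by simp) (by simp)
    rw [Complex.ofReal_zero] at e
    rw [e, Complex.ofReal_re]
    by_cases hq : w.re = 1 / 4
    · rw [hq, ts_eq]
    · exact (tr_lt (by linarith only [hκ, hκ', h1]) (by linarith only [hκ, hκ', h2]) (by simp) (by simp) (Or.inl hq)).le
  have h9 : w.im ^ 2 = κ ^ 2 := by
    rw [← h3, sq_abs]
  rw [h9] at h7
  have h10 : κ ^ 2 ≤ κ / 16 := by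
    nlinarith only [hκ, hκ']
  have h11 : 16 * Real.pi * κ ^ 2 ≤ Real.pi * κ := by
    nlinarith only [hκ, hκ', h10, Real.pi_pos]
  linarith only [h6, h7, h8, h11]

end Pool.Agent.Work.MP_b30479_gt.LT
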