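import Pool.Agent.Work.MP_b30479_gt.LT.XDefs
import Pool.Agent.Work.MP_b30479_gt.LT.Mid
import Pool.Agent.Work.MP_b30479_gt.VC.PhiCx

/-!
# Dependence of the ring exponent on the heights
-/

namespace Pool.Agent.Work.MP_b30479_gt.LT

open Finset VOL AX MeasureTheory

/-- `0 ≤ el ρ v - el 0 v`, whose integral over a period is `π ρ`; both intervals
`[1/2 ± σ, 1/2 ± σ + x]` have length at most `1` -/
theorem rl_height {x σ ρ : ℝ} (_h0 : 0 ≤ x) (h1 : x ≤ 1) (hρ : 0 ≤ ρ) :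
    Rr ρ x σ ≤ Rr 0 x σ + 2 * Real.pi * ρ := by
  have h := Rr_height_one (σ := σ) le_rfl hρ h1
  rwa [sub_zero] at h

/-! ### real heights -/

theorem Fh_re_height {x ρ : ℝ} (h0 : 0 < x) (h1 : x < 1) (hρ : 0 ≤ ρ) :
    (Fh (x + ρ * Complex.I)).re = DT.Lr ρ x - Real.pi * ρ / 2 := by
  have hd : ∀ t ∈ Set.Ioo (0 : ℝ) 1,
      HasDerivAt (fun t : ℝ => VC.phr (t + ρ * Complex.I) + DT.Lr ρ t) 0 t := by
    intro t ht
    have d1 := VC.hasDerivAt_phr_re ht.1 ht.2 ρ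
    have d2 : HasDerivAt (fun t : ℝ => DT.Lr ρ t) (DT.el ρ t) t := by
      rcases hρ.eq_or_lt with h | h
      · rw [← h]
        exact DT.hasDerivAt_Lr_zero (sin_pi_pos ht.1 ht.2).ne'
      · exact DT.hasDerivAt_Lr h
    refine (d1.add d2).congr_deriv ?_
    rw [DT.el_eq]
    ring
  have hc : ∀ t ∈ Set.Ioo (0 : ℝ) 1,
      VC.phr (t + ρ * Complex.I) + DT.Lr ρ t =
        VC.phr (((1 / 2 : ℝ) : ℂ) + ρ * Complex.I) + DT.Lr ρ (1 / 2) := by
    intro t ht
    exact (isOpen_Ioo (a := (0 : ℝ)) (b := 1)).is_const_of_deriv_eq_zero isPreconnected_Ioo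
      (f := fun t : ℝ => VC.phr (t + ρ * Complex.I) + DT.Lr ρ t)
      (fun s hs => (hd s hs).differentiableAt.differentiableWithinAt)
      (fun s hs => (hd s hs).deriv) ht ⟨by norm_num, by norm_num⟩
  have h2 := hc x ⟨h0, h1⟩
  have e : (((1 / 2 : ℝ)) : ℂ) = 1 / 2 := by push_cast; ring
  rw [e, VC.phr_half_im, DT.Lr_half hρ] at h2
  have h3 : (Fh (x + ρ * Complex.I)).re = -VC.phr (x + ρ * Complex.I) := by
    unfold VC.phr
    ring
  rw [h3]
  linarith only [h2]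

theorem Fh_re_height' {x ρ : ℝ} (h0 : 0 < x) (h1 : x < 1) (hρ : 0 ≤ ρ) :
    (Fh (x + ((-ρ : ℝ) : ℂ) * Complex.I)).re = DT.Lr ρ x - Real.pi * ρ / 2 := by
  have h := VC.phr_neg_im h0 h1 ρ
  unfold VC.phr at h
  rw [← Fh_re_height h0 h1 hρ]
  linarith only [h]

/-- the ring function in terms of `phr` -/
theorem rc_re_eq (x σ τ ρ : ℝ) :
    (rc (x + τ * Complex.I) (σ + ρ * Complex.I)).re =
      (Fh (((x + 1 / 2 + σ : ℝ) : ℂ) + ((τ + ρ : ℝ) : ℂ) * Complex.I)).re +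
      (Fh (((x + 1 / 2 - σ : ℝ) : ℂ) + ((τ - ρ : ℝ) : ℂ) * Complex.I)).re -
      2 * (Fh (x + τ * Complex.I)).re := by
  unfold rc
  have e1 : (x : ℂ) + τ * Complex.I + 1 / 2 + (σ + ρ * Complex.I) =
      ((x + 1 / 2 + σ : ℝ) : ℂ) + ((τ + ρ : ℝ) : ℂ) * Complex.I := by
    push_cast; ring
  have e2 : (x : ℂ) + τ * Complex.I + 1 / 2 - (σ + ρ * Complex.I) =
      ((x + 1 / 2 - σ : ℝ) : ℂ) + ((τ - ρ : ℝ) : ℂ) * Complex.I := by
    push_cast; ring
  rw [e1, e2, Complex.sub_re, Complex.add_re]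
  simp

/-- the ring function at a real hinge variable -/
theorem rc_real {x σ ρ : ℝ} (h0 : 0 < x) (h1 : x + |σ| < 1 / 2) (hρ : 0 ≤ ρ) :
    (rc x (σ + ρ * Complex.I)).re = Rr ρ x σ := by
  have h2 := abs_lt.mp (show |σ| < 1 / 2 - x by linarith only [h1])
  have e := rc_re_eq x σ 0 ρ
  have e0 : (x : ℂ) + ((0 : ℝ) : ℂ) * Complex.I = x := by simp
  rw [e0, zero_add, zero_sub, Fh_re_height (by linarith only [h0, h2, h2.1]) (by linarith only [h2, h2.2]) hρ,
    Fh_re_height' (by linarith only [h0, h2, h2.2]) (by linarith only [h2, h2.1]) hρ,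
    Fh_ofReal h0 (by linarith only [h0, h2, abs_nonneg σ]), Complex.ofReal_re] at e
  rw [e]
  unfold Rr
  ring

theorem phr_refl {x : ℝ} (y : ℝ) :
    (Fh (((1 / 2 + x : ℝ) : ℂ) + (y : ℂ) * Complex.I)).re =
      VC.phr (((1 / 2 - x : ℝ) : ℂ) + ((-y : ℝ) : ℂ) * Complex.I) := by
  have h := VC.phr_one_sub (((1 / 2 + x : ℝ) : ℂ) + (y : ℂ) * Complex.I)
  have e : 1 - (((1 / 2 + x : ℝ) : ℂ) + (y : ℂ) * Complex.I) =
      ((1 / 2 - x : ℝ) : ℂ) + ((-y : ℝ) : ℂ) * Complex.I := by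
    push_cast; ring
  rw [e] at h
  rw [h]
  unfold VC.phr
  ring

theorem phr_ge_real {x : ℝ} (h0 : 0 < x) (h1 : x ≤ 1 / 2) (y : ℝ) :
    VC.phr x ≤ VC.phr (x + y * Complex.I) := by
  have key : ∀ y : ℝ, 0 ≤ y → VC.phr x ≤ VC.phr (x + y * Complex.I) := by
    intro y hy
    have h := VC.phr_mono h0 h1 le_rfl hy
    simpa using h
  rcases le_total 0 y with hy | hy
  · exact key y hy
  · have h := key (-y) (by linarith only [hy])
    rwa [VC.phr_neg_im h0 (by linarith only [h0, h1]) y] at h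

/-- all real parts are in `(0, 1/2)` after reflection: `VC.phr_mono` -/
theorem rc_ge {x σ τ ρ : ℝ} (h0 : 0 < x) (h1 : x + |σ| < 1 / 2) (h2 : |σ| ≤ x) :
    Rr 0 x σ ≤ (rc (x + τ * Complex.I) (σ + ρ * Complex.I)).re := by
  have h3 := abs_lt.mp (show |σ| < 1 / 2 - x by linarith only [h1])
  have h4 := abs_le.mp h2
  have e := rc_re_eq x σ τ ρ
  have e0 := rc_re_eq x σ 0 0
  have z : ∀ z : ℂ, z + ((0 : ℝ) : ℂ) * Complex.I = z := by intro z; simp
  rw [z, z, add_zero, sub_zero, z, z] at e0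
  have e2 := rc_real (x := x) (σ := σ) (ρ := 0) h0 h1 le_rfl
  rw [z] at e2
  rw [e2] at e0
  have r1 : ∀ y : ℝ, (Fh ((x + 1 / 2 + σ : ℝ) : ℂ)).re ≤
      (Fh (((x + 1 / 2 + σ : ℝ) : ℂ) + (y : ℂ) * Complex.I)).re := by
    intro y
    have g1 := phr_refl (x := x + σ) y
    have g2 := phr_refl (x := x + σ) 0
    rw [z] at g2
    rw [neg_zero, z] at g2
    have g3 := phr_ge_real (x := 1 / 2 - (x + σ)) (by linarith only [h3, h3.2]) (by linarith only [h4, h4.1]) (-y)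
    rw [show x + 1 / 2 + σ = 1 / 2 + (x + σ) by ring, g1, g2]
    exact g3
  have r2 : ∀ y : ℝ, (Fh ((x + 1 / 2 - σ : ℝ) : ℂ)).re ≤
      (Fh (((x + 1 / 2 - σ : ℝ) : ℂ) + (y : ℂ) * Complex.I)).re := by
    intro y
    have g1 := phr_refl (x := x - σ) y
    have g2 := phr_refl (x := x - σ) 0
    rw [z] at g2
    rw [neg_zero, z] at g2
    have g3 := phr_ge_real (x := 1 / 2 - (x - σ)) (by linarith only [h3, h3.1]) (by linarith only [h4, h4.2]) (-y)
    rw [show x + 1 / 2 - σ = 1 / 2 + (x - σ) by ring, g1, g2]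
    exact g3
  have r3 : (Fh (x + τ * Complex.I)).re ≤ (Fh x).re := by
    have g := phr_ge_real (x := x) h0 (by linarith only [h3, abs_nonneg σ]) τ
    unfold VC.phr at g
    linarith only [g]
  rw [e, e0]
  have := r1 (τ + ρ)
  have := r2 (τ - ρ)
  linarith

/-! ### upper bound -/

theorem cot_bd {a δ : ℝ} (hδ : 0 < δ) (h0 : δ ≤ a) (h1 : a ≤ 1 - δ) :
    |Real.cos (Real.pi * a) / Real.sin (Real.pi * a)| ≤ 1 / (Real.pi * δ) := by
  have hpi := Real.pi_pos
  have key : ∀ c : ℝ, δ ≤ c → c ≤ 1 / 2 →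
      |Real.cos (Real.pi * c) / Real.sin (Real.pi * c)| ≤ 1 / (Real.pi * δ) := by
    intro c hc hc2
    have hc0 : 0 < c := by linarith only [hδ, hc]
    have hs := sin_pi_pos hc0 (by linarith only [hδ, h0, h1, hc2])
    have hcos : 0 ≤ Real.cos (Real.pi * c) := Real.cos_nonneg_of_neg_pi_div_two_le_of_le
      (by nlinarith only [hδ, hpi, h0, h1, hc]) (by nlinarith only [hδ, h0, h1, hpi, hc2])
    rw [abs_of_nonneg (div_nonneg hcos hs.le), div_le_div_iff₀ hs (by positivity), one_mul]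
    have h3 : Real.pi * c * Real.cos (Real.pi * c) ≤ Real.sin (Real.pi * c) := by
      rcases hcos.eq_or_lt with h | h
      · rw [← h, mul_zero]
        exact hs.le
      · have hlt : Real.pi * c < Real.pi / 2 := by
          rcases hc2.eq_or_lt with h5 | h5
          · exfalso
            rw [h5, show Real.pi * (1 / 2) = Real.pi / 2 by ring, Real.cos_pi_div_two] at h
            exact lt_irrefl _ h
          · nlinarith only [hpi, h5]
        have h4 := Real.le_tan (x := Real.pi * c) (by positivity) hlt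
        rw [Real.tan_eq_sin_div_cos, le_div_iff₀ h] at h4
        exact h4
    calc Real.cos (Real.pi * c) * (Real.pi * δ) ≤ Real.cos (Real.pi * c) * (Real.pi * c) := by
          apply mul_le_mul_of_nonneg_left _ hcos
          exact mul_le_mul_of_nonneg_left hc hpi.le
      _ = Real.pi * c * Real.cos (Real.pi * c) := by ring
      _ ≤ _ := h3
  rcases le_total a (1 / 2) with h | h
  · exact key a h0 h
  · have h2 := key (1 - a) (by linarith only [h1]) (by linarith only [h])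
    rw [show Real.pi * (1 - a) = Real.pi - Real.pi * a by ring, Real.cos_pi_sub, Real.sin_pi_sub,
      neg_div, abs_neg] at h2
    exact h2

theorem Fh_im_bd {x δ : ℝ} (hδ : 0 < δ) (h0 : δ ≤ x) (h1 : x ≤ 1 - δ) (y : ℝ) :
    |(Fh (x + y * Complex.I)).re - (Fh x).re| ≤ y ^ 2 / (2 * δ) := by
  have hpi := Real.pi_pos
  have h := VC.abs_phr_sub_real_le (x := x) (by linarith only [hδ, h0]) (by linarith only [hδ, h1]) y
  have h2 := cot_bd hδ h0 h1
  unfold VC.phr at h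
  rw [show -(Fh (x + y * Complex.I)).re - -(Fh x).re =
    -((Fh (x + y * Complex.I)).re - (Fh x).re) by ring, abs_neg] at h
  refine h.trans ?_
  calc _ ≤ 1 / (Real.pi * δ) * (Real.pi * y ^ 2 / 2) :=
        mul_le_mul_of_nonneg_right h2 (by positivity)
    _ = y ^ 2 / (2 * δ) := by
        field_simp

/-- `VC.abs_phr_sub_real_le` and `cot u ≤ 1/u`: `(π/2)(4.28 τ² + 13.27 ((τ+ρ)² + (τ-ρ)²))` -/
theorem rc_le {x σ τ ρ : ℝ} (hx : |x - 1 / 4| ≤ 101 / 1000) (hσ : |σ| ≤ 1 / 8) :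
    (rc (x + τ * Complex.I) (σ + ρ * Complex.I)).re ≤ Rr 0 x σ + 50 * (τ ^ 2 + ρ ^ 2) := by
  have h1 := abs_le.mp hx
  have h2 := abs_le.mp hσ
  have e := rc_re_eq x σ τ ρ
  have e0 := rc_re_eq x σ 0 0
  have z : ∀ z : ℂ, z + ((0 : ℝ) : ℂ) * Complex.I = z := by intro z; simp
  rw [z, z, add_zero, sub_zero, z, z] at e0
  have e2 := rc_real (x := x) (σ := σ) (ρ := 0) (by linarith only [h1, h1.1])
    (by linarith only [hσ, h1, h1.2]) le_rfl
  rw [z] at e2
  rw [e2] at e0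
  have r1 := (abs_le.mp (Fh_im_bd (x := x + 1 / 2 + σ) (δ := 24 / 1000) (by norm_num)
    (by linarith only [h1, h2, h1.1, h2.1]) (by linarith only [h1, h2, h1.2, h2.2]) (τ + ρ))).2
  have r2 := (abs_le.mp (Fh_im_bd (x := x + 1 / 2 - σ) (δ := 24 / 1000) (by norm_num)
    (by linarith only [h1, h2, h1.1, h2.2]) (by linarith only [h1, h2, h1.2, h2.1]) (τ - ρ))).2
  have r3 := (abs_le.mp (Fh_im_bd (x := x) (δ := 149 / 1000) (by norm_num)
    (by linarith only [h1, h1.1]) (by linarith only [h1, h1.2]) τ)).1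
  rw [e, e0]
  norm_num at r1 r2 r3 ⊢
  nlinarith only [r1, r2, r3, sq_nonneg τ, sq_nonneg ρ]

/-! ### strict concavity -/

theorem ph'_re {z : ℂ} (hz : z ∈ strip) : (ph' z).re =
    Real.pi * (Real.sin (Real.pi * z.re) * Real.cos (Real.pi * z.re)) /
      (Real.sin (Real.pi * z.re) ^ 2 + Real.sinh (Real.pi * z.im) ^ 2) := by
  have hs := sin_pi_pos hz.1 hz.2
  have hn : Complex.normSq (Complex.sin (Real.pi * z)) =
      Real.sin (Real.pi * z.re) ^ 2 + Real.sinh (Real.pi * z.im) ^ 2 := by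
    rw [Complex.normSq_apply, sin_pi_re, sin_pi_im]
    have h1 := Real.cosh_sq (Real.pi * z.im)
    have h2 := Real.sin_sq_add_cos_sq (Real.pi * z.re)
    linear_combination (Real.sin (Real.pi * z.re) ^ 2) * h1 +
      (Real.sinh (Real.pi * z.im) ^ 2) * h2
  unfold ph'
  rw [Complex.div_re, hn, Complex.re_ofReal_mul, Complex.im_ofReal_mul, cos_pi_re, cos_pi_im,
    sin_pi_re, sin_pi_im, ← add_div]
  congr 1
  have h1 := Real.cosh_sq (Real.pi * z.im)
  linear_combination (Real.pi * Real.sin (Real.pi * z.re) * Real.cos (Real.pi * z.re)) * h1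

theorem sinh_sq_le {t : ℝ} (ht : |t| ≤ 1) : Real.sinh t ^ 2 ≤ 4 * t ^ 2 := by
  have h1 := VC.abs_tanh_le t
  have h2 := Real.cosh_le_exp_half_sq t
  have h3 := Real.cosh_pos t
  have h4 : t ^ 2 ≤ 1 := by
    rw [← sq_abs]
    nlinarith only [ht, abs_nonneg t]
  have h5 : Real.cosh t ≤ 2 := by
    refine h2.trans ?_
    have h6 : Real.exp (t ^ 2 / 2) ≤ Real.exp (1 / 2) := Real.exp_le_exp.mpr (by linarith only [h4])
    have h7 : Real.exp (1 / 2) ≤ 2 := by
      have h8 := Real.exp_one_lt_d9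
      have h9 : Real.exp (1 / 2) ^ 2 = Real.exp 1 := by
        rw [← Real.exp_nat_mul]
        norm_num
      nlinarith only [h8, h9, h2, h3, h6, Real.exp_pos (1 / 2)]
    linarith only [h6, h7]
  rw [abs_div, abs_of_pos h3, div_le_iff₀ h3] at h1
  have h6 : |Real.sinh t| ≤ |t| * 2 := h1.trans (mul_le_mul_of_nonneg_left h5 (abs_nonneg t))
  calc Real.sinh t ^ 2 = |Real.sinh t| ^ 2 := (sq_abs _).symm
    _ ≤ (|t| * 2) ^ 2 := pow_le_pow_left₀ (abs_nonneg _) h6 2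
    _ = 4 * t ^ 2 := by rw [mul_pow, sq_abs]; ring

theorem sin_fortieth {s : ℝ} (h0 : 1 / 40 ≤ s) (h1 : s ≤ 1 / 2) :
    78 / 1000 ≤ Real.sin (Real.pi * s) := by
  have hpi := Real.pi_gt_d2
  have hpi2 := Real.pi_lt_d2
  have h2 := Real.sin_gt_sub_cube (x := Real.pi / 40) (by positivity)
  have h3 : Real.sin (Real.pi / 40) ≤ Real.sin (Real.pi * s) :=
    Real.sin_le_sin_of_le_of_le_pi_div_two (by linarith only [hpi, hpi2]) (by nlinarith only [h1, hpi]) (by nlinarith only [h0, hpi])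
  have h4 : (Real.pi / 40) ^ 3 ≤ (3.15 / 40) ^ 3 :=
    pow_le_pow_left₀ (by positivity) (by linarith only [hpi2]) 3
  norm_num at h4
  linarith only [hpi, hpi2, h2, h3, h4]

/-- the part `w + 1/2 ± ζ` -/
theorem ph'_re_le {z : ℂ} (h0 : 1 / 40 ≤ z.re - 1 / 2) (h1 : z.re - 1 / 2 ≤ 19 / 40)
    (h2 : |z.im| ≤ 1 / 500) : (ph' z).re ≤ -(1 / 5) := by
  have hpi := Real.pi_gt_d2
  have hpi2 := Real.pi_lt_d2
  have hz : z ∈ strip := ⟨by linarith only [h0, hpi, hpi2], by linarith only [h1, hpi, hpi2]⟩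
  set s := z.re - 1 / 2 with hs
  have e1 : Real.sin (Real.pi * z.re) = Real.cos (Real.pi * s) := by
    rw [show Real.pi * z.re = Real.pi * s + Real.pi / 2 by rw [hs]; ring,
      Real.sin_add_pi_div_two]
  have e2 : Real.cos (Real.pi * z.re) = -Real.sin (Real.pi * s) := by
    rw [show Real.pi * z.re = Real.pi * s + Real.pi / 2 by rw [hs]; ring,
      Real.cos_add_pi_div_two]
  have e3 : Real.cos (Real.pi * s) = Real.sin (Real.pi * (1 / 2 - s)) := by
    rw [show Real.pi * (1 / 2 - s) = Real.pi / 2 - Real.pi * s by ring,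
      Real.sin_pi_div_two_sub]
  have hS := sin_fortieth h0 (by linarith only [hpi, hpi2, h1])
  have hC := sin_fortieth (s := 1 / 2 - s) (by linarith only [h1]) (by linarith only [hpi, hpi2, h0])
  rw [← e3] at hC
  have hC1 := Real.cos_le_one (Real.pi * s)
  have hS1 := Real.sin_le_one (Real.pi * s)
  have ht : |Real.pi * z.im| ≤ 63 / 10000 := by
    rw [abs_mul, abs_of_pos Real.pi_pos]
    nlinarith only [h2, hpi2, hpi, abs_nonneg z.im]
  have hsh := sinh_sq_le (t := Real.pi * z.im) (by linarith only [hpi, hpi2, ht])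
  have ht2 : (Real.pi * z.im) ^ 2 ≤ (63 / 10000) ^ 2 := by
    rw [← sq_abs]
    exact pow_le_pow_left₀ (abs_nonneg _) ht 2
  have hsh0 : 0 ≤ Real.sinh (Real.pi * z.im) ^ 2 := sq_nonneg _
  rw [ph'_re hz, e1, e2]
  have hden : 0 < Real.cos (Real.pi * s) ^ 2 + Real.sinh (Real.pi * z.im) ^ 2 := by
    have : 0 < Real.cos (Real.pi * s) := by linarith only [hpi, hpi2, hC]
    positivity
  rw [div_le_iff₀ hden]
  set S := Real.sin (Real.pi * s)
  set C := Real.cos (Real.pi * s)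
  have h5 : 24 / 100 * C ≤ Real.pi * (S * C) := by
    have h6 : 24 / 100 ≤ Real.pi * S := by nlinarith only [hpi2, hS, hpi]
    nlinarith only [hS, hpi, hpi2, hC, h6]
  norm_num at ht2
  nlinarith only [hsh, hC, h5, ht2, hpi, hpi2, hC1]

theorem ph'_re_nonneg {z : ℂ} (h0 : 0 < z.re) (h1 : z.re ≤ 1 / 2) : 0 ≤ (ph' z).re := by
  have hpi := Real.pi_pos
  have hz : z ∈ strip := ⟨h0, by linarith only [h0, h1]⟩
  rw [ph'_re hz]
  have hs := sin_pi_pos hz.1 hz.2
  have hc : 0 ≤ Real.cos (Real.pi * z.re) := Real.cos_nonneg_of_neg_pi_div_two_le_of_le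
    (by nlinarith only [hpi, h0]) (by nlinarith only [h1, hpi])
  positivity

theorem second_order {g g' g'' : ℝ → ℝ} {K : ℝ}
    (h1 : ∀ t ∈ Set.Icc (0 : ℝ) 1, HasDerivAt g (g' t) t)
    (h2 : ∀ t ∈ Set.Icc (0 : ℝ) 1, HasDerivAt g' (g'' t) t)
    (h3 : ∀ t ∈ Set.Icc (0 : ℝ) 1, g'' t ≤ -K) : g 1 ≤ g 0 + g' 0 - K / 2 := by
  have m0 : (0 : ℝ) ∈ Set.Icc (0 : ℝ) 1 := ⟨le_rfl, zero_le_one⟩
  have m1 : (1 : ℝ) ∈ Set.Icc (0 : ℝ) 1 := ⟨zero_le_one, le_rfl⟩
  have s1 : AntitoneOn (fun t => g' t + K * t) (Set.Icc 0 1) := by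
    apply antitoneOn_of_hasDerivWithinAt_nonpos (convex_Icc _ _) (f' := fun t => g'' t + K)
    · intro t ht
      exact ((h2 t ht).continuousAt.add (by fun_prop)).continuousWithinAt
    · intro t ht
      rw [interior_Icc] at ht
      have hd := (h2 t ⟨ht.1.le, ht.2.le⟩).add ((hasDerivAt_id t).const_mul K)
      rw [mul_one] at hd
      exact hd.hasDerivWithinAt
    · intro t ht
      rw [interior_Icc] at ht
      have := h3 t ⟨ht.1.le, ht.2.le⟩
      linarith only [this]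
  have s2 : AntitoneOn (fun t => g t - g' 0 * t + K / 2 * t ^ 2) (Set.Icc 0 1) := by
    apply antitoneOn_of_hasDerivWithinAt_nonpos (convex_Icc _ _)
      (f' := fun t => g' t - g' 0 + K * t)
    · intro t ht
      exact (((h1 t ht).continuousAt.sub (by fun_prop)).add (by fun_prop)).continuousWithinAt
    · intro t ht
      rw [interior_Icc] at ht
      have hd := ((h1 t ⟨ht.1.le, ht.2.le⟩).sub ((hasDerivAt_id t).const_mul (g' 0))).add
        ((hasDerivAt_pow 2 t).const_mul (K / 2))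
      refine (hd.congr_deriv ?_).hasDerivWithinAt
      norm_num
      ring
    · intro t ht
      rw [interior_Icc] at ht
      have h := s1 m0 (⟨ht.1.le, ht.2.le⟩ : t ∈ Set.Icc (0 : ℝ) 1) ht.1.le
      simp only [mul_zero, add_zero] at h
      linarith only [h]
  have h := s2 m0 m1 zero_le_one
  simp only [mul_zero, sub_zero, mul_one, one_pow, ne_eq, OfNat.ofNat_ne_zero,
    not_false_eq_true, zero_pow, add_zero] at h
  linarith only [h]

theorem hasDerivAt_Fh_line {z : ℂ} {d t : ℝ} (hz : z + (t * d : ℝ) ∈ strip) :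
    HasDerivAt (fun t : ℝ => Fh (z + (t * d : ℝ))) (ph (z + (t * d : ℝ)) * d) t := by
  have h2 : HasDerivAt (fun t : ℝ => z + ((t * d : ℝ) : ℂ)) (d : ℂ) t := by
    have h := ((hasDerivAt_id t).mul_const d).ofReal_comp.const_add z
    simpa using h
  exact (hasDerivAt_Fh hz).comp t h2

theorem hasDerivAt_ph_line {z : ℂ} {d t : ℝ} (hz : z + (t * d : ℝ) ∈ strip) :
    HasDerivAt (fun t : ℝ => ph (z + (t * d : ℝ))) (ph' (z + (t * d : ℝ)) * d) t := by
  have h2 : HasDerivAt (fun t : ℝ => z + ((t * d : ℝ) : ℂ)) (d : ℂ) t := by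
    have h := ((hasDerivAt_id t).mul_const d).ofReal_comp.const_add z
    simpa using h
  exact HasDerivAt.comp (h₂ := ph) t (hasDerivAt_ph hz) h2

/-- strict concavity along real displacements on the box `|x - 1/4| ≤ 1/10`, `|σ| ≤ 1/8`, at any
heights (all of `x`, `x ± σ` are in `[1/40, 19/40]`): the second derivative along `(α, β)` is
`-π (P (α+β)² + Q (α-β)² + 2 C α²)` with `P, Q = Re tan π(w ± ζ)`, `C = Re cot π w`. For heights at
most `1/1000` one has `P, Q ≥ 7/100`. -/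
theorem rc_conc {w ζ : ℂ} {a c : ℝ} (h1 : |w.re - 1 / 4| ≤ 1 / 10) (h2 : |ζ.re| ≤ 1 / 8)
    (h3 : |w.im| ≤ 1 / 1000) (h4 : |ζ.im| ≤ 1 / 1000) (h5 : |w.re + a - 1 / 4| ≤ 1 / 10)
    (h6 : |ζ.re + c| ≤ 1 / 8) :
    (rc (w + a) (ζ + c)).re ≤ (rc w ζ).re + (rcw w ζ).re * a + (tz w ζ).re * c -
      1 / 5 * (a ^ 2 + c ^ 2) := by
  rw [abs_le] at h1 h2 h3 h4 h5 h6
  -- positions along the segment
  have p1 : ∀ t ∈ Set.Icc (0 : ℝ) 1, -(1 / 10) ≤ w.re + t * a - 1 / 4 ∧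
      w.re + t * a - 1 / 4 ≤ 1 / 10 := by
    intro t ht
    constructor
    · nlinarith only [h1, ht, h5, ht.1, ht.2]
    · nlinarith only [h1, ht, h5, ht.1, ht.2]
  have p2 : ∀ t ∈ Set.Icc (0 : ℝ) 1, -(1 / 8) ≤ ζ.re + t * c ∧ ζ.re + t * c ≤ 1 / 8 := by
    intro t ht
    constructor
    · nlinarith only [h2, ht, h6, ht.1, ht.2]
    · nlinarith only [h2, ht, h6, ht.1, ht.2]
  have reA : ∀ t : ℝ, (w + 1 / 2 + ζ + (t * (a + c) : ℝ)).re - 1 / 2 =
      (w.re + t * a) + (ζ.re + t * c) := by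
    intro t
    simp
    ring
  have reB : ∀ t : ℝ, (w + 1 / 2 - ζ + (t * (a - c) : ℝ)).re - 1 / 2 =
      (w.re + t * a) - (ζ.re + t * c) := by
    intro t
    simp
    ring
  have reC : ∀ t : ℝ, (w + (t * a : ℝ)).re = w.re + t * a := by
    intro t
    simp
  have imA : ∀ t : ℝ, (w + 1 / 2 + ζ + (t * (a + c) : ℝ)).im = w.im + ζ.im := by
    intro t
    simp
  have imB : ∀ t : ℝ, (w + 1 / 2 - ζ + (t * (a - c) : ℝ)).im = w.im - ζ.im := by
    intro t
    simp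
  have qA : ∀ t ∈ Set.Icc (0 : ℝ) 1, (w + 1 / 2 + ζ + (t * (a + c) : ℝ)) ∈ strip ∧
      (ph' (w + 1 / 2 + ζ + (t * (a + c) : ℝ))).re ≤ -(1 / 5) := by
    intro t ht
    have e := reA t
    have i := imA t
    have h7 := p1 t ht
    have h8 := p2 t ht
    refine ⟨⟨by linarith only [e, h7, h8], by linarith only [e, h7, h8]⟩, ph'_re_le (by linarith only [e, h7, h8]) (by linarith only [e, h7, h8]) ?_⟩
    rw [i, abs_le]
    constructor <;> linarith only [h3, h4]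
  have qB : ∀ t ∈ Set.Icc (0 : ℝ) 1, (w + 1 / 2 - ζ + (t * (a - c) : ℝ)) ∈ strip ∧
      (ph' (w + 1 / 2 - ζ + (t * (a - c) : ℝ))).re ≤ -(1 / 5) := by
    intro t ht
    have e := reB t
    have i := imB t
    have h7 := p1 t ht
    have h8 := p2 t ht
    refine ⟨⟨by linarith only [e, h7, h8], by linarith only [e, h7, h8]⟩, ph'_re_le (by linarith only [e, h7, h8]) (by linarith only [e, h7, h8]) ?_⟩
    rw [i, abs_le]
    constructor <;> linarith only [h3, h4]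
  have qC : ∀ t ∈ Set.Icc (0 : ℝ) 1, (w + (t * a : ℝ)) ∈ strip ∧
      0 ≤ (ph' (w + (t * a : ℝ))).re := by
    intro t ht
    have e := reC t
    have h7 := p1 t ht
    refine ⟨⟨by linarith only [e, h7], by linarith only [e, h7]⟩, ph'_re_nonneg (by linarith only [e, h7]) (by linarith only [e, h7])⟩
  have main := second_order (K := 2 / 5 * (a ^ 2 + c ^ 2))
    (g := fun t => (Fh (w + 1 / 2 + ζ + (t * (a + c) : ℝ)) +
      Fh (w + 1 / 2 - ζ + (t * (a - c) : ℝ)) - 2 * Fh (w + (t * a : ℝ))).re)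
    (g' := fun t => (ph (w + 1 / 2 + ζ + (t * (a + c) : ℝ)) * ((a + c : ℝ) : ℂ) +
      ph (w + 1 / 2 - ζ + (t * (a - c) : ℝ)) * ((a - c : ℝ) : ℂ) -
      2 * (ph (w + (t * a : ℝ)) * (a : ℂ))).re)
    (g'' := fun t => (ph' (w + 1 / 2 + ζ + (t * (a + c) : ℝ)) * ((a + c : ℝ) : ℂ) *
        ((a + c : ℝ) : ℂ) +
      ph' (w + 1 / 2 - ζ + (t * (a - c) : ℝ)) * ((a - c : ℝ) : ℂ) * ((a - c : ℝ) : ℂ) -
      2 * (ph' (w + (t * a : ℝ)) * (a : ℂ) * (a : ℂ))).re)
    (by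
      intro t ht
      have d := ((hasDerivAt_Fh_line (qA t ht).1).add (hasDerivAt_Fh_line (qB t ht).1)).sub
        ((hasDerivAt_Fh_line (qC t ht).1).const_mul 2)
      exact Complex.reCLM.hasFDerivAt.comp_hasDerivAt t d)
    (by
      intro t ht
      have d := (((hasDerivAt_ph_line (qA t ht).1).mul_const ((a + c : ℝ) : ℂ)).add
        ((hasDerivAt_ph_line (qB t ht).1).mul_const ((a - c : ℝ) : ℂ))).sub
        (((hasDerivAt_ph_line (qC t ht).1).mul_const (a : ℂ)).const_mul 2)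
      exact Complex.reCLM.hasFDerivAt.comp_hasDerivAt t d)
    (by
      intro t ht
      have k1 := (qA t ht).2
      have k2 := (qB t ht).2
      have k3 := (qC t ht).2
      have e : (ph' (w + 1 / 2 + ζ + (t * (a + c) : ℝ)) * ((a + c : ℝ) : ℂ) *
          ((a + c : ℝ) : ℂ) +
          ph' (w + 1 / 2 - ζ + (t * (a - c) : ℝ)) * ((a - c : ℝ) : ℂ) * ((a - c : ℝ) : ℂ) -
          2 * (ph' (w + (t * a : ℝ)) * (a : ℂ) * (a : ℂ))).re =
          (ph' (w + 1 / 2 + ζ + (t * (a + c) : ℝ))).re * (a + c) ^ 2 +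
          (ph' (w + 1 / 2 - ζ + (t * (a - c) : ℝ))).re * (a - c) ^ 2 -
          2 * ((ph' (w + (t * a : ℝ))).re * a ^ 2) := by
        have r : ∀ (z : ℂ) (d : ℝ), (z * (d : ℂ) * (d : ℂ)).re = z.re * d ^ 2 := by
          intro z d
          rw [mul_assoc, ← Complex.ofReal_mul, Complex.re_mul_ofReal]
          ring
        have r2 : ∀ z : ℂ, (2 * z).re = 2 * z.re := by
          intro z
          simp
        rw [Complex.sub_re, Complex.add_re, r, r, r2, r]
      rw [e]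
      nlinarith only [k3, k2, k1, sq_nonneg (a + c), sq_nonneg (a - c), sq_nonneg a])
  have e1 : (rc (w + a) (ζ + c)).re = (Fh (w + 1 / 2 + ζ + ((1 : ℝ) * (a + c) : ℝ)) +
      Fh (w + 1 / 2 - ζ + ((1 : ℝ) * (a - c) : ℝ)) - 2 * Fh (w + ((1 : ℝ) * a : ℝ))).re := by
    unfold rc
    congr 1
    congr 1
    · congr 1
      · congr 1
        push_cast
        ring
      · congr 1
        push_cast
        ring
    · congr 1
      congr 1
      push_cast
      ring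
  have e2 : (rc w ζ).re = (Fh (w + 1 / 2 + ζ + ((0 : ℝ) * (a + c) : ℝ)) +
      Fh (w + 1 / 2 - ζ + ((0 : ℝ) * (a - c) : ℝ)) - 2 * Fh (w + ((0 : ℝ) * a : ℝ))).re := by
    unfold rc
    simp
  have e3 : (rcw w ζ).re * a + (tz w ζ).re * c =
      (ph (w + 1 / 2 + ζ + ((0 : ℝ) * (a + c) : ℝ)) * ((a + c : ℝ) : ℂ) +
      ph (w + 1 / 2 - ζ + ((0 : ℝ) * (a - c) : ℝ)) * ((a - c : ℝ) : ℂ) -
      2 * (ph (w + ((0 : ℝ) * a : ℝ)) * (a : ℂ))).re := by
    have r : ∀ X Y Z : ℂ, (X * ((a + c : ℝ) : ℂ) + Y * ((a - c : ℝ) : ℂ) -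
        2 * (Z * (a : ℂ))).re = X.re * (a + c) + Y.re * (a - c) - 2 * (Z.re * a) := by
      intro X Y Z
      have r2 : ∀ z : ℂ, (2 * z).re = 2 * z.re := by
        intro z
        simp
      rw [Complex.sub_re, Complex.add_re, r2, Complex.re_mul_ofReal, Complex.re_mul_ofReal,
        Complex.re_mul_ofReal]
    rw [r]
    unfold rcw tz
    simp only [zero_mul, Complex.ofReal_zero, add_zero]
    have r2 : ∀ z : ℂ, (2 * z).re = 2 * z.re := by
      intro z
      simp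
    rw [Complex.sub_re, Complex.sub_re, Complex.add_re, r2]
    ring
  rw [← e1, ← e2, ← e3] at main
  linarith only [main]

end Pool.Agent.Work.MP_b30479_gt.LT
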