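import Pool.Agent.Work.MP_b30479_gt.LT.XReal2
import Pool.Agent.Work.MP_b30479_gt.LT.XHt

/-!
# The ring inequalities for `|b| ≥ 50`
-/

namespace Pool.Agent.Work.MP_b30479_gt.LT

open Finset VOL AX MeasureTheory

lemma th_le_one (σ : ℝ) : th σ ≤ 1 := min_le_left _ _

lemma th_nonneg {σ : ℝ} (h : |σ| ≤ 1 / 2) : 0 ≤ th σ := le_min (by norm_num) (by linarith only [h])

lemma th_mul_abs (σ : ℝ) : th σ * |σ| ≤ 1 / 4 := by
  have h0 := abs_nonneg σ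
  rcases le_total |σ| (1 / 4) with h | h
  · have := th_le_one σ
    nlinarith only [h, h0, this]
  · have h1 : th σ ≤ 2 - 4 * |σ| := min_le_right _ _
    nlinarith only [h0, h1, sq_nonneg (2 * |σ| - 1 / 2)]

lemma th_small {σ : ℝ} (h : |σ| ≤ 1 / 4) : th σ = 1 := by
  unfold th
  exact min_eq_left (by linarith only [h])

/-- the share of the weight exponent, upper bound -/
lemma wt_le {lam : ℝ} {b : ℤ} {w ζ : ℂ} (h : Loc lam b w ζ) {θ σ : ℝ} (h0 : 0 ≤ θ) :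
    wt lam b (ζ.im * θ) σ ≤ 2 * Real.pi * (21 / 1000) * (θ * |σ|) := by
  have hpi := Real.pi_pos
  have h1 : 0 ≤ lam * ζ.im := mul_nonneg h.lam0 h.z2.le
  have h2 : -(1 + (b : ℝ) * σ) ≤ |(b : ℝ)| * |σ| := by
    rw [← abs_mul]
    have := neg_abs_le ((b : ℝ) * σ)
    linarith only [this]
  have h3 : wt lam b (ζ.im * θ) σ = 2 * Real.pi * (lam * ζ.im) * θ * (-(1 + (b : ℝ) * σ)) := by
    unfold wt
    ring
  rw [h3]
  calc 2 * Real.pi * (lam * ζ.im) * θ * (-(1 + (b : ℝ) * σ))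
      ≤ 2 * Real.pi * (lam * ζ.im) * θ * (|(b : ℝ)| * |σ|) :=
        mul_le_mul_of_nonneg_left h2 (by positivity)
    _ = 2 * Real.pi * (lam * ζ.im * |(b : ℝ)|) * (θ * |σ|) := by ring
    _ ≤ 2 * Real.pi * (21 / 1000) * (θ * |σ|) := by
        apply mul_le_mul_of_nonneg_right _ (by positivity)
        exact mul_le_mul_of_nonneg_left h.z4 (by positivity)

lemma wt_le' {lam : ℝ} {b : ℤ} {w ζ : ℂ} (h : Loc lam b w ζ) (σ : ℝ) :
    wt lam b ζ.im σ ≤ 2 * Real.pi * (21 / 1000) * |σ| := by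
  have h1 := wt_le h (θ := 1) (σ := σ) zero_le_one
  rwa [mul_one, one_mul] at h1

lemma abs_add_lt {x σ : ℝ} (hx : |x - 1 / 4| ≤ 101 / 1000) (hσ : |σ| ≤ 1 / 8) :
    0 < x ∧ x + |σ| < 1 / 2 ∧ x ≤ 1 / 2 := by
  have h1 := abs_le.mp hx
  refine ⟨by linarith only [h1, h1.1], by linarith only [hσ, h1, h1.2], by linarith only [h1, h1.2]⟩

/-- (I1) main box, heights of the critical point -/
theorem ring_main {lam : ℝ} {b : ℤ} {w ζ : ℂ} (h : Loc lam b w ζ) {x σ : ℝ}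
    (hx : |x - 1 / 4| ≤ 1 / 10) (hσ : |σ| ≤ 1 / 8) :
    (rc (x + w.im * Complex.I) (σ + ζ.im * Complex.I)).re + wt lam b ζ.im σ ≤
      TP lam b w ζ x σ - 1 / 5 * ((x - w.re) ^ 2 + (σ - ζ.re) ^ 2) := by
  have h1 := rc_conc (w := w) (ζ := ζ) (a := x - w.re) (c := σ - ζ.re)
    (by linarith only [h, h.w1]) (by linarith only [h, h.z1]) (by linarith only [h, h.w2])
    (by rw [abs_of_pos h.z2]; linarith only [h, h.z3])
    (by rw [add_sub_cancel]; exact hx) (by rw [add_sub_cancel]; exact hσ)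
  have e1 : w + ((x - w.re : ℝ) : ℂ) = x + w.im * Complex.I := by
    apply Complex.ext <;> simp
  have e2 : ζ + ((σ - ζ.re : ℝ) : ℂ) = σ + ζ.im * Complex.I := by
    apply Complex.ext <;> simp
  rw [e1, e2] at h1
  unfold TP wt
  linarith only [h1]

lemma rc_at_center {lam : ℝ} {b : ℤ} {w ζ : ℂ} (h : Loc lam b w ζ) :
    rs - 3 / 1000 ≤ TP lam b w ζ (1 / 4) 0 := by
  have hpi := Real.pi_lt_d2
  have hpi0 := Real.pi_pos
  have h1 := ring_main h (x := 1 / 4) (σ := 0) (by norm_num) (by norm_num)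
  have h2 := rc_ge (x := 1 / 4) (σ := 0) (τ := w.im) (ρ := ζ.im) (by norm_num) (by norm_num)
    (by norm_num)
  have h3 : 0 ≤ (1 / 4 - w.re) ^ 2 + (0 - ζ.re) ^ 2 := by positivity
  have h4 : -(3 / 1000) ≤ wt lam b ζ.im 0 := by
    unfold wt
    rw [mul_zero, add_zero, mul_one]
    have h5 := h.z5
    have h6 : 0 ≤ lam * ζ.im := mul_nonneg h.lam0 h.z2.le
    nlinarith only [h5, hpi, h6]
  rw [← rs_eq] at h2
  linarith only [h1, h2, h3, h4]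

/-- lower bound for the tangent plane -/
theorem TP_ge {lam : ℝ} {b : ℤ} {w ζ : ℂ} (h : Loc lam b w ζ) (x σ : ℝ) :
    rs - 3 / 1000 - |x - 1 / 4| / 100 - |σ| / 500 ≤ TP lam b w ζ x σ := by
  have h1 := rc_at_center h
  have e : TP lam b w ζ x σ = TP lam b w ζ (1 / 4) 0 + (rcw w ζ).re * (x - 1 / 4) +
      ((tz w ζ).re - 2 * Real.pi * lam * ζ.im * b) * σ := by
    unfold TP
    ring
  have h2 : -(|x - 1 / 4| / 100) ≤ (rcw w ζ).re * (x - 1 / 4) := by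
    have h3 := neg_abs_le ((rcw w ζ).re * (x - 1 / 4))
    rw [abs_mul] at h3
    have h4 := h.gw
    have h5 := abs_nonneg (x - 1 / 4)
    nlinarith only [h3, h4, h5]
  have h3 : -(|σ| / 500) ≤ ((tz w ζ).re - 2 * Real.pi * lam * ζ.im * b) * σ := by
    have h3 := neg_abs_le (((tz w ζ).re - 2 * Real.pi * lam * ζ.im * b) * σ)
    rw [abs_mul] at h3
    have h4 := h.gz
    have h5 := abs_nonneg σ
    nlinarith only [h3, h4, h5]
  rw [e]
  linarith only [h1, h2, h3]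

lemma height_sq {lam : ℝ} {b : ℤ} {w ζ : ℂ} (h : Loc lam b w ζ) : ζ.im ^ 2 ≤ 1 / 1000000 := by
  have h1 := h.z2
  have h2 := h.z3
  nlinarith only [h2, h1]

/-- (I2) main box, real hinge variable -/
theorem ring_real {lam : ℝ} {b : ℤ} {w ζ : ℂ} (h : Loc lam b w ζ) {x σ : ℝ}
    (hx : |x - 1 / 4| ≤ 1 / 10) (hσ : |σ| ≤ 1 / 8) :
    Rr ζ.im x σ + wt lam b ζ.im σ ≤ TP lam b w ζ x σ + 1 / 1000 := by
  obtain ⟨a1, a2, _⟩ := abs_add_lt (by linarith only [hx] : |x - 1 / 4| ≤ 101 / 1000) hσ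
  have h1 := ring_main h hx hσ
  have h2 := rc_ge (τ := w.im) (ρ := ζ.im) a1 a2 (by linarith only [hσ, a1, hx, (abs_le.mp hx).1])
  have h3 := rc_le (x := x) (σ := σ) (τ := 0) (ρ := ζ.im) (by linarith only [hx]) hσ
  have h4 := rc_real a1 a2 h.z2.le
  have e : (x : ℂ) + ((0 : ℝ) : ℂ) * Complex.I = x := by simp
  rw [e, h4] at h3
  have h5 := height_sq h
  have h6 : 0 ≤ (x - w.re) ^ 2 + (σ - ζ.re) ^ 2 := by positivity
  nlinarith only [h1, h2, h3, h5]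

/-- the part `x ≥ 1/2`, any `σ` -/
lemma ring_right {lam : ℝ} {b : ℤ} {w ζ : ℂ} (h : Loc lam b w ζ) {x σ : ℝ}
    (h0 : 1 / 2 ≤ x) (h1 : x ≤ 1) (hσ' : |σ| ≤ 1 / 2) :
    Rr (ζ.im * th σ) x σ + wt lam b (ζ.im * th σ) σ ≤ TP lam b w ζ x σ - 1 / 100 := by
  have hpi := Real.pi_lt_d2
  have hpi0 := Real.pi_gt_d2
  have t0 := th_nonneg hσ'
  have t1 := th_le_one σ
  have t2 := th_mul_abs σ
  have r0 : 0 ≤ ζ.im * th σ := mul_nonneg h.z2.le t0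
  have r1 : ζ.im * th σ ≤ 21 / 25000 := by
    have := h.z3
    have := h.z2
    nlinarith
  have g1 := Rr_nonpos h0 h1 hσ'
  have g2 := Rr_height_one (ρ := 0) (ρ' := ζ.im * th σ) (x := x) (σ := σ) le_rfl r0 h1
  have g3 := wt_le h (σ := σ) t0
  have g4 := TP_ge h x σ
  have g5 := rs_ge
  have g6 : |x - 1 / 4| ≤ 3 / 4 := abs_le.mpr ⟨by linarith only [h0, hpi, hpi0], by linarith only [h1]⟩
  have g7 : 2 * Real.pi * (ζ.im * th σ - 0) ≤ 1 / 100 := by nlinarith only [hpi0, r1, hpi, r0]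
  have g8 : 2 * Real.pi * (21 / 1000) * (th σ * |σ|) ≤ 1 / 20 := by nlinarith only [t2, hpi, hpi0]
  linarith only [hσ', hpi, hpi0, g1, g2, g3, g4, g5, g6, g7, g8]

/-- (I3) outside `|σ| ≤ 1/8`, real hinge variable, height `ρ th σ` -/
theorem ring_out {lam : ℝ} {b : ℤ} {w ζ : ℂ} (h : Loc lam b w ζ) {x σ : ℝ}
    (h0 : 0 ≤ x) (h1 : x ≤ 1) (hσ : 1 / 8 ≤ |σ|) (hσ' : |σ| ≤ 1 / 2) :
    Rr (ζ.im * th σ) x σ + wt lam b (ζ.im * th σ) σ ≤ TP lam b w ζ x σ - 1 / 100 := by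
  rcases le_total (1 / 2) x with hx | hx
  · exact ring_right h hx h1 hσ'
  have hpi := Real.pi_lt_d2
  have hpi0 := Real.pi_gt_d2
  have t0 := th_nonneg hσ'
  have t1 := th_le_one σ
  have t2 := th_mul_abs σ
  have r0 : 0 ≤ ζ.im * th σ := mul_nonneg h.z2.le t0
  have r1 : ζ.im * th σ ≤ 21 / 25000 := by
    have := h.z3
    have := h.z2
    nlinarith
  have g2 := Rr_height_one (ρ := 0) (ρ' := ζ.im * th σ) (x := x) (σ := σ) le_rfl r0 h1
  have g3 := wt_le h (σ := σ) t0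
  have g4 := TP_ge h x σ
  have g6 : |x - 1 / 4| ≤ 1 / 4 := abs_le.mpr ⟨by linarith only [h0], by linarith only [hx]⟩
  have g7 : 2 * Real.pi * (ζ.im * th σ - 0) ≤ 2 * 3.15 * (21 / 25000) := by nlinarith only [r1, hpi, r0]
  rcases le_total |σ| (1 / 6) with hs | hs
  · have g1 := Rr_le_eighth h0 hx hσ hσ'
    have g8 : 2 * Real.pi * (21 / 1000) * (th σ * |σ|) ≤ 2 * 3.15 * (21 / 1000) * (1 / 6) := by
      have : th σ * |σ| ≤ 1 / 6 := by nlinarith only [t1, hs, hσ, abs_nonneg σ]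
      have h9 : 0 ≤ th σ * |σ| := mul_nonneg t0 (abs_nonneg σ)
      nlinarith only [t1, hs, hσ, hpi, h9]
    norm_num at g7 g8
    linarith only [hσ', hpi, hpi0, g2, g3, g4, g6, g1, g7, g8]
  · have g1 := Rr_le_sixth h0 hx hs hσ'
    have g8 : 2 * Real.pi * (21 / 1000) * (th σ * |σ|) ≤ 2 * 3.15 * (21 / 1000) * (1 / 4) := by
      have h9 : 0 ≤ th σ * |σ| := mul_nonneg t0 (abs_nonneg σ)
      nlinarith only [t2, hpi, h9]
    norm_num at g7 g8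
    linarith only [hσ', hpi, hpi0, g2, g3, g4, g6, g1, g7, g8]

/-- (I4) hinge variable outside the window, real -/
theorem ring_far {lam : ℝ} {b : ℤ} {w ζ : ℂ} (h : Loc lam b w ζ) {x σ : ℝ}
    (h0 : 0 ≤ x) (h1 : x ≤ 1) (hx : 99 / 1000 ≤ |x - 1 / 4|) (hσ : |σ| ≤ 1 / 8) :
    Rr ζ.im x σ + wt lam b ζ.im σ ≤ TP lam b w ζ x σ - 1 / 100 := by
  have hσ' : |σ| ≤ 1 / 2 := by linarith only [hσ]
  have ht : th σ = 1 := th_small (by linarith only [hσ])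
  rcases le_total (1 / 2) x with hx2 | hx2
  · have := ring_right h hx2 h1 hσ'
    rwa [ht, mul_one] at this
  have hpi := Real.pi_lt_d2
  have hpi0 := Real.pi_gt_d2
  have r1 := h.z3
  have r0 := h.z2
  have g2 := Rr_height_one (ρ := 0) (ρ' := ζ.im) (x := x) (σ := σ) le_rfl h.z2.le h1
  have g3 := wt_le' h σ
  have g4 := TP_ge h x σ
  have g6 : |x - 1 / 4| ≤ 1 / 4 := abs_le.mpr ⟨by linarith only [h0], by linarith only [hx2]⟩
  have g7 : 2 * Real.pi * (ζ.im - 0) ≤ 2 * 3.15 * (21 / 25000) := by nlinarith only [r1, hpi, r0]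
  have g8 : 2 * Real.pi * (21 / 1000) * |σ| ≤ 2 * 3.15 * (21 / 1000) * (1 / 8) := by
    have h9 := abs_nonneg σ
    nlinarith only [hσ, hpi, hpi0]
  have g1 : Rr 0 x σ ≤ Rr 0 x 0 := Rr_anti h0 hx2 (by rw [abs_zero]; positivity) hσ'
  have g9 := Rr_x h0 hx2
  rw [← rs_eq] at g9
  have g10 : (99 / 1000 : ℝ) ^ 2 ≤ (x - 1 / 4) ^ 2 := by
    rw [← sq_abs (x - 1 / 4)]
    exact pow_le_pow_left₀ (by norm_num) hx 2
  have g11 : 2 * 3.14 * (99 / 1000 : ℝ) ^ 2 ≤ 2 * Real.pi * (x - 1 / 4) ^ 2 :=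
    mul_le_mul (by linarith only [hpi0]) g10 (by norm_num) (by linarith only [hpi0, r1, r0])
  norm_num at g7 g8 g11
  linarith only [hσ, r1, r0, g2, g3, g4, g6, g1, g9, g7, g8, g11]

/-- (I5) hinge variable at the heights `± 1/50` -/
theorem ring_top {lam : ℝ} {b : ℤ} {w ζ : ℂ} (h : Loc lam b w ζ) {x σ τ : ℝ}
    (hx : |x - 1 / 4| ≤ 101 / 1000) (hσ : |σ| ≤ 1 / 8) (hτ : |τ| = 1 / 50) :
    (rc (x + τ * Complex.I) (σ + ζ.im * Complex.I)).re + wt lam b ζ.im σ - Real.pi * (1 / 50) ≤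
      TP lam b w ζ x σ - 1 / 100 := by
  obtain ⟨a1, a2, a3⟩ := abs_add_lt hx hσ
  have hpi := Real.pi_lt_d2
  have hpi0 := Real.pi_gt_d2
  have g1 := rc_le (x := x) (σ := σ) (τ := τ) (ρ := ζ.im) hx hσ
  have g2 : Rr 0 x σ ≤ Rr 0 x 0 :=
    Rr_anti a1.le a3 (by rw [abs_zero]; positivity) (by linarith only [hσ, hpi, hpi0])
  have g3 := Rr_x a1.le a3
  rw [← rs_eq] at g3
  have g4 : 0 ≤ 2 * Real.pi * (x - 1 / 4) ^ 2 := by positivity
  have g5 := wt_le' h σ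
  have g6 : 2 * Real.pi * (21 / 1000) * |σ| ≤ 2 * 3.15 * (21 / 1000) * (1 / 8) := by
    have h9 := abs_nonneg σ
    nlinarith only [hσ, hpi, hpi0]
  have g7 := height_sq h
  have g8 : τ ^ 2 = (1 / 50) ^ 2 := by rw [← sq_abs, hτ]
  have g9 := TP_ge h x σ
  rw [g8] at g1
  norm_num at g1 g6 ⊢
  linarith only [hx, hσ, hpi, hpi0, g2, g3, g4, g5, g7, g9, g1, g6]

/-- (I6) vertical sides -/
theorem ring_side {lam : ℝ} {b : ℤ} {w ζ : ℂ} (h : Loc lam b w ζ) {x σ τ : ℝ}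
    (hx : 99 / 1000 ≤ |x - 1 / 4|) (hx' : |x - 1 / 4| ≤ 101 / 1000) (hσ : |σ| ≤ 1 / 8)
    (hτ : |τ| ≤ 1 / 50) :
    (rc (x + τ * Complex.I) (σ + ζ.im * Complex.I)).re + wt lam b ζ.im σ -
      Real.pi * max (|τ| - 1 / 5000) 0 ≤ TP lam b w ζ x σ - 1 / 100 := by
  obtain ⟨a1, a2, a3⟩ := abs_add_lt hx' hσ
  have hpi := Real.pi_lt_d2
  have hpi0 := Real.pi_gt_d2
  have g1 := rc_le (x := x) (σ := σ) (τ := τ) (ρ := ζ.im) hx' hσ
  have g2 : Rr 0 x σ ≤ Rr 0 x 0 :=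
    Rr_anti a1.le a3 (by rw [abs_zero]; positivity) (by linarith only [hσ, hpi, hpi0])
  have g3 := Rr_x a1.le a3
  rw [← rs_eq] at g3
  have g10 : (99 / 1000 : ℝ) ^ 2 ≤ (x - 1 / 4) ^ 2 := by
    rw [← sq_abs (x - 1 / 4)]
    exact pow_le_pow_left₀ (by norm_num) hx 2
  have g11 : 2 * 3.14 * (99 / 1000 : ℝ) ^ 2 ≤ 2 * Real.pi * (x - 1 / 4) ^ 2 :=
    mul_le_mul (by linarith only [hpi0]) g10 (by norm_num) (by linarith only [hpi, hpi0])
  have g5 := wt_le' h σ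
  have g6 : 2 * Real.pi * (21 / 1000) * |σ| ≤ 2 * 3.15 * (21 / 1000) * (1 / 8) := by
    have h9 := abs_nonneg σ
    nlinarith only [hσ, hpi, hpi0]
  have g7 := height_sq h
  have g9 := TP_ge h x σ
  have t0 := abs_nonneg τ
  have g12 : 50 * τ ^ 2 - Real.pi * max (|τ| - 1 / 5000) 0 ≤ 1 / 1000 := by
    have h1 : 50 * τ ^ 2 ≤ |τ| := by
      rw [← sq_abs]
      nlinarith only [hτ, t0]
    have h2 : |τ| - 1 / 5000 ≤ max (|τ| - 1 / 5000) 0 := le_max_left _ _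
    have h3 : 0 ≤ max (|τ| - 1 / 5000) 0 := le_max_right _ _
    nlinarith only [h1, h2, h3, hτ, hpi, hpi0]
  norm_num at g6 g11 ⊢
  linarith only [hx', hσ, hpi, hpi0, g1, g2, g3, g5, g7, g9, g12, g6, g11]

end Pool.Agent.Work.MP_b30479_gt.LT
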