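import Pool.Agent.Work.MP_b30479_gt.LT.XNear
import Pool.Agent.Work.MP_b30479_gt.LT.XAbs
import Pool.Agent.Work.MP_b30479_gt.LT.XRing
import Pool.Agent.Work.MP_b30479_gt.LT.BlkE
import Pool.Agent.Work.MP_b30479_gt.LT.Lim

/-!
# Explicit version: domination of kernel and weights
-/

namespace Pool.Agent.Work.MP_b30479_gt.LT

open Finset VOL AX MeasureTheory Filter Topology

theorem tp_eq_rc (w ζ ζ' : ℂ) : tp w ζ ζ' = rc w ζ + rc w ζ' := by
  unfold tp rc
  ring

theorem tw_eq_rcw (w ζ ζ' : ℂ) : tw w ζ ζ' = rcw w ζ + rcw w ζ' := by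
  unfold tw rcw
  ring

/-- the sum of the tangent planes of the two rings of a hinge does not depend on `x` -/
theorem TP_x {lam lam' : ℝ} {b b' : ℤ} {w ζ ζ' : ℂ} (hw : tw w ζ ζ' = 0) (x σ σ' : ℝ) :
    TP lam b w ζ x σ + TP lam' b' w ζ' x σ' = TP lam b w ζ w.re σ + TP lam' b' w ζ' w.re σ' := by
  rw [tw_eq_rcw] at hw
  have hw2 := congrArg Complex.re hw
  rw [Complex.add_re, Complex.zero_re] at hw2
  have e : (rcw w ζ).re * (x - w.re) + (rcw w ζ').re * (x - w.re) = 0 := by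
    rw [← add_mul, hw2, zero_mul]
  unfold TP
  linarith only [e]

/-- powers are absorbed by exponentials -/
theorem pow_absorb (K : ℕ) {ε : ℝ} (hε : 0 < ε) : ∃ A : ℝ, 0 ≤ A ∧ ∀ n : ℕ, 1 ≤ n →
    (n : ℝ) ^ K ≤ A * (n : ℝ) ^ (-(3 / 2) : ℝ) * Real.exp (n * ε) := by
  have h1 : Tendsto (fun n : ℕ => (n : ℝ) ^ ((K : ℝ) + 3 / 2) * Real.exp (-ε * n)) atTop (𝓝 0) :=
    (tendsto_rpow_mul_exp_neg_mul_atTop_nhds_zero _ ε hε).comp tendsto_natCast_atTop_atTop
  obtain ⟨A, hA⟩ := h1.bddAbove_range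
  refine ⟨max A 0, le_max_right _ _, fun n hn => ?_⟩
  have hnp : (0 : ℝ) < n := by exact_mod_cast hn
  have h2 : (n : ℝ) ^ ((K : ℝ) + 3 / 2) * Real.exp (-ε * n) ≤ A := hA ⟨n, rfl⟩
  have h3 : (n : ℝ) ^ K = (n : ℝ) ^ ((K : ℝ) + 3 / 2) * Real.exp (-ε * n) *
      (n : ℝ) ^ (-(3 / 2) : ℝ) * Real.exp (n * ε) := by
    have e1 : (n : ℝ) ^ ((K : ℝ) + 3 / 2) * (n : ℝ) ^ (-(3 / 2) : ℝ) = (n : ℝ) ^ K := by
      rw [← Real.rpow_add hnp, ← Real.rpow_natCast]
      congr 1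
      ring
    have e2 : Real.exp (-ε * n) * Real.exp (n * ε) = 1 := by
      rw [← Real.exp_add]
      simp
      ring
    calc (n : ℝ) ^ K = (n : ℝ) ^ K * 1 := (mul_one _).symm
      _ = (n : ℝ) ^ ((K : ℝ) + 3 / 2) * (n : ℝ) ^ (-(3 / 2) : ℝ) *
          (Real.exp (-ε * n) * Real.exp (n * ε)) := by rw [e1, e2]
      _ = _ := by ring
  rw [h3]
  have h4 : 0 ≤ (n : ℝ) ^ (-(3 / 2) : ℝ) := by positivity
  have h5 := (Real.exp_pos (n * ε)).le
  have h6 : (n : ℝ) ^ ((K : ℝ) + 3 / 2) * Real.exp (-ε * n) ≤ max A 0 := h2.trans (le_max_left _ _)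
  gcongr

/-- bound of the weight, any height -/
theorem EE_abs (b : ℤ) {ρ : ℝ} (hρ : 0 < ρ) : ∃ C : ℝ, 0 ≤ C ∧ ∀ n : ℕ, 1 ≤ n → Odd n → ∀ σ : ℝ,
    |σ| ≤ 1 / 2 → ‖EE n b ρ σ‖ ≤ C * Real.exp (n * wt 1 b (ρ * th σ) σ) := by
  have hpi := Real.pi_pos
  set q := min (1 / 2) ((Real.pi * ρ) ^ 2) with hq
  have hq0 : 0 < q := by positivity
  set u := (1 - Real.exp (-(2 * (1 : ℝ)))) / 2 with hu
  have hu0 : 0 < u := by
    rw [hu]
    have : Real.exp (-(2 * (1 : ℝ))) < 1 := by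
      rw [Real.exp_lt_one_iff]
      norm_num
    exact half_pos (sub_pos.mpr this)
  set c := min (u ^ 2) (q * Real.exp (-2)) with hc
  have hc0 : 0 < c := by positivity
  refine ⟨Real.cosh (2 * Real.pi * ρ) * (1 + 4 * ρ) / c, by positivity, ?_⟩
  intro n hn hodd σ hσ
  have hn1 : (1 : ℝ) ≤ n := by exact_mod_cast hn
  have hth0 := th_nonneg hσ
  have hth1 := th_le_one σ
  have h1 : ‖Complex.sin (2 * Real.pi * zt ρ σ)‖ ≤ Real.cosh (2 * Real.pi * ρ) := by
    refine (norm_sin_le _).trans ?_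
    have e : (2 : ℂ) * Real.pi * zt ρ σ = ((2 * Real.pi : ℝ) : ℂ) * zt ρ σ := by push_cast; ring
    rw [e, Complex.im_ofReal_mul, zt_im, Real.cosh_le_cosh, abs_of_nonneg (by positivity),
      abs_of_nonneg (by positivity)]
    have : ρ * th σ ≤ ρ * 1 := mul_le_mul_of_nonneg_left hth1 hρ.le
    have h2 : 2 * Real.pi * (ρ * th σ) ≤ 2 * Real.pi * (ρ * 1) := by gcongr
    linarith only [h2]
  have h2 := norm_dzt_le hρ.le σ
  have h3 : ‖EE n b ρ σ‖ = Real.exp (n * (-(2 * Real.pi * b * ρ * σ * th σ))) *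
      ‖Complex.sin (2 * Real.pi * zt ρ σ)‖ / ‖Complex.sin (Real.pi * n * zt ρ σ)‖ ^ 2 *
      ‖dzt ρ σ‖ := by
    unfold EE
    rw [norm_mul, norm_div, norm_mul, norm_pow, norm_exp_weight]
  -- the denominator
  set t := Real.pi * n * (ρ * th σ) with ht
  have ht0 : 0 ≤ t := by positivity
  have hden : c * Real.exp (2 * t) ≤ ‖Complex.sin (Real.pi * n * zt ρ σ)‖ ^ 2 := by
    rcases le_total 1 t with h | h
    · have e : (Real.pi : ℂ) * n * zt ρ σ = ((Real.pi * n : ℝ) : ℂ) * zt ρ σ := by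
        push_cast; ring
      rw [norm_sin_sq, e, Complex.im_ofReal_mul, zt_im]
      have h6 := sinh_exp_lower h
      have h7 : (u * Real.exp t) ^ 2 ≤ Real.sinh t ^ 2 :=
        pow_le_pow_left₀ (by positivity) h6 2
      have h8 : (u * Real.exp t) ^ 2 = u ^ 2 * Real.exp (2 * t) := by
        rw [mul_pow, ← Real.exp_nat_mul]
        push_cast
        rfl
      have h9 : c * Real.exp (2 * t) ≤ u ^ 2 * Real.exp (2 * t) := by
        gcongr
        exact min_le_left _ _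
      have := sq_nonneg (Real.sin (((Real.pi * n : ℝ) : ℂ) * zt ρ σ).re)
      linarith only [h7, h8, h9, this]
    · refine le_trans ?_ (sin_lower_all hodd hρ hσ)
      rw [← hq]
      calc c * Real.exp (2 * t) ≤ q * Real.exp (-2) * Real.exp (2 * 1) := by
            gcongr
            exact min_le_right _ _
        _ = q * (Real.exp (-2) * Real.exp (2 * 1)) := by ring
        _ = q := by
            rw [← Real.exp_add]
            norm_num
  have hpos : 0 < c * Real.exp (2 * t) := by positivity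
  rw [h3, div_mul_eq_mul_div, mul_assoc]
  have hwt : (n : ℝ) * wt 1 b (ρ * th σ) σ = n * (-(2 * Real.pi * b * ρ * σ * th σ)) - 2 * t := by
    rw [ht]
    unfold wt
    ring
  rw [hwt, Real.exp_sub]
  calc Real.exp (n * (-(2 * Real.pi * b * ρ * σ * th σ))) *
        (‖Complex.sin (2 * Real.pi * zt ρ σ)‖ * ‖dzt ρ σ‖) /
        ‖Complex.sin (Real.pi * n * zt ρ σ)‖ ^ 2 ≤
      Real.exp (n * (-(2 * Real.pi * b * ρ * σ * th σ))) *
        (Real.cosh (2 * Real.pi * ρ) * (1 + 4 * ρ)) / (c * Real.exp (2 * t)) := by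
        gcongr
    _ = _ := by
        field_simp

/-- domination of the main part of the kernel (from `ring_main`; the `x`-slopes cancel) -/
theorem MX_bound {lam lam' : ℝ} {b b' : ℤ} {w ζ ζ' : ℂ} (h : Loc lam b w ζ)
    (h' : Loc lam' b' w ζ') (hw : tw w ζ ζ' = 0) : ∃ C : ℝ, ∃ N : ℕ, 0 ≤ C ∧ ∀ n : ℕ, N ≤ n →
    ∀ σ σ' : ℝ, |σ| ≤ 1 / 8 → |σ'| ≤ 1 / 8 →
    ‖MX n w.im (σ + ζ.im * Complex.I) (σ' + ζ'.im * Complex.I)‖ *
      Real.exp (n * (wt lam b ζ.im σ + wt lam' b' ζ'.im σ')) ≤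
      C * (n : ℝ) ^ (-(3 / 2) : ℝ) * Real.exp (n * (TP lam b w ζ w.re σ + TP lam' b' w ζ' w.re σ' -
        1 / 5 * ((σ - ζ.re) ^ 2 + (σ' - ζ'.re) ^ 2))) := by
  obtain ⟨C, hC, hexp⟩ := Tn_expand_x
  obtain ⟨P, hP, hph⟩ := ph_bdd
  have hpi := Real.pi_pos
  refine ⟨Real.exp (2 * P + C) * √(5 * Real.pi / 2), 100, by positivity, ?_⟩
  intro n hn σ σ' hσ hσ'
  have hnp : (0 : ℝ) < n := by
    have : 0 < n := by omega
    exact_mod_cast this
  have hn1 : (1 : ℝ) ≤ n := by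
    have : 1 ≤ n := by omega
    exact_mod_cast this
  have g2 := h.w2
  set W := wt lam b ζ.im σ + wt lam' b' ζ'.im σ' with hW
  set E := TP lam b w ζ w.re σ + TP lam' b' w ζ' w.re σ' with hE
  set S := (σ - ζ.re) ^ 2 + (σ' - ζ'.re) ^ 2 with hS
  have r1 : ((σ : ℂ) + ζ.im * Complex.I).re = σ := by simp
  have r2 : ((σ' : ℂ) + ζ'.im * Complex.I).re = σ' := by simp
  -- pointwise bound
  have hpt : ∀ x : ℝ, x ∈ Set.Ioc (3 / 20 : ℝ) (7 / 20) →
      ‖Complex.exp (Tn n ((x : ℂ) + w.im * Complex.I) (σ + ζ.im * Complex.I)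
        (σ' + ζ'.im * Complex.I))‖ ≤
      Real.exp (2 * P + C) * Real.exp (n * (E - W - 1 / 5 * S)) *
        Real.exp (-(2 / 5 * n) * (x - w.re) ^ 2) := by
    intro x hx
    have x1 : |x - 1 / 4| ≤ 1 / 10 := abs_le.mpr ⟨by linarith only [hx.1, hx], by linarith only [hx.2, hx]⟩
    have wre : ((x : ℂ) + w.im * Complex.I).re = x := by simp
    have wim : ((x : ℂ) + w.im * Complex.I).im = w.im := by simp
    have k1 := (Complex.re_le_norm _).trans (hexp n hn ((x : ℂ) + w.im * Complex.I)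
      (σ + ζ.im * Complex.I) (σ' + ζ'.im * Complex.I) (by rw [wre]; linarith only [x1])
      (by rw [r1]; exact hσ) (by rw [r2]; exact hσ'))
    have k2 := (Complex.abs_re_le_norm _).trans (hph ((x : ℂ) + w.im * Complex.I)
      (by rw [wre]; linarith only [hx.1, hx]) (by rw [wre]; linarith only [hx.2, hx]) (by rw [wim]; linarith only [g2]))
    have k3 := abs_le.mp k2
    have k4 : C / n ≤ C := div_le_self hC hn1
    have f1 := ring_main h x1 hσ
    have f2 := ring_main h' x1 hσ'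
    have f3 : TP lam b w ζ x σ + TP lam' b' w ζ' x σ' = E := TP_x hw x σ σ'
    have e1 : (Tn n ((x : ℂ) + w.im * Complex.I) (σ + ζ.im * Complex.I) (σ' + ζ'.im * Complex.I) -
        (n * tp ((x : ℂ) + w.im * Complex.I) (σ + ζ.im * Complex.I) (σ' + ζ'.im * Complex.I) -
          2 * ph ((x : ℂ) + w.im * Complex.I))).re =
        (Tn n ((x : ℂ) + w.im * Complex.I) (σ + ζ.im * Complex.I) (σ' + ζ'.im * Complex.I)).re -
        (n * (tp ((x : ℂ) + w.im * Complex.I) (σ + ζ.im * Complex.I) (σ' + ζ'.im * Complex.I)).re -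
          2 * (ph ((x : ℂ) + w.im * Complex.I)).re) := by
      rw [Complex.sub_re, Complex.sub_re, ← Complex.ofReal_natCast, Complex.re_ofReal_mul,
        ← Complex.ofReal_ofNat, Complex.re_ofReal_mul]
    rw [e1] at k1
    have f4 : (tp ((x : ℂ) + w.im * Complex.I) (σ + ζ.im * Complex.I)
        (σ' + ζ'.im * Complex.I)).re ≤ E - W - 1 / 5 * S - 2 / 5 * (x - w.re) ^ 2 := by
      rw [tp_eq_rc, Complex.add_re]
      linarith only [f1, f2, f3]
    have f5 := mul_le_mul_of_nonneg_left f4 hnp.le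
    rw [Complex.norm_exp, ← Real.exp_add, ← Real.exp_add]
    refine Real.exp_le_exp.mpr ?_
    linarith only [k3.1, k3.2, k1, k3, k4, f5]
  -- the integral
  have hint : Integrable (fun x : ℝ => Real.exp (-(2 / 5 * n) * (x - w.re) ^ 2)) :=
    (integrable_exp_neg_mul_sq (b := 2 / 5 * n) (by positivity)).comp_sub_right w.re
  have hG : ∫ x in (3 / 20 : ℝ)..(7 / 20), Real.exp (-(2 / 5 * n) * (x - w.re) ^ 2) ≤
      √(Real.pi / (2 / 5 * n)) := by
    rw [intervalIntegral.integral_of_le (by norm_num)]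
    refine (setIntegral_le_integral hint (Eventually.of_forall fun x => (Real.exp_pos _).le)).trans ?_
    rw [integral_sub_right_eq_self (fun x : ℝ => Real.exp (-(2 / 5 * n) * x ^ 2)) w.re,
      integral_gaussian]
  have hI := intervalIntegral.norm_integral_le_of_norm_le (show (3 / 20 : ℝ) ≤ 7 / 20 by norm_num)
    (Eventually.of_forall hpt) ((hint.const_mul _).intervalIntegrable)
  rw [intervalIntegral.integral_const_mul] at hI
  have e3 : (n : ℝ) ^ (-(3 / 2) : ℝ) = 1 / (n * √(n : ℝ)) := by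
    rw [Real.rpow_neg hnp.le, rpow_three_half (by omega)]
    rw [one_div]
  have e4 : √(Real.pi / (2 / 5 * n)) = √(5 * Real.pi / 2) / √(n : ℝ) := by
    rw [← Real.sqrt_div (by positivity)]
    congr 1
    field_simp
  unfold MX
  rw [norm_mul, norm_div, norm_one, Complex.norm_natCast]
  calc 1 / (n : ℝ) * ‖∫ x in (3 / 20 : ℝ)..(7 / 20), Complex.exp (Tn n ((x : ℂ) + w.im * Complex.I)
        (σ + ζ.im * Complex.I) (σ' + ζ'.im * Complex.I))‖ * Real.exp (n * W) ≤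
      1 / (n : ℝ) * (Real.exp (2 * P + C) * Real.exp (n * (E - W - 1 / 5 * S)) *
        √(Real.pi / (2 / 5 * n))) * Real.exp (n * W) := by
        gcongr
        refine hI.trans ?_
        gcongr
    _ = Real.exp (2 * P + C) * √(5 * Real.pi / 2) * (1 / (n * √(n : ℝ))) *
        (Real.exp (n * (E - W - 1 / 5 * S)) * Real.exp (n * W)) := by
        rw [e4]
        field_simp
    _ = Real.exp (2 * P + C) * √(5 * Real.pi / 2) * (n : ℝ) ^ (-(3 / 2) : ℝ) *
        Real.exp (n * (E - 1 / 5 * S)) := by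
        rw [e3, ← Real.exp_add]
        congr 2
        ring

/-- domination of the kernel with the distributed weights, everywhere on the paths: inside
`|σ|, |σ'| ≤ 1/8` by `MX_bound`, `SS_near_x` and (I4), (I5), (I6); outside by `SS_abs`, (I2), (I3), (I4);
the errors are at most `exp (n (.. - 9/1000))` and `(σ - ζ.re)² + (σ' - ζ'.re)² ≤ 6/10` -/
theorem hinge_bound {lam lam' : ℝ} {b b' : ℤ} {w ζ ζ' : ℂ} (h : Loc lam b w ζ)
    (h' : Loc lam' b' w ζ') (hw : tw w ζ ζ' = 0) : ∃ C : ℝ, ∃ N : ℕ, 0 ≤ C ∧ ∀ n : ℕ, N ≤ n →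
    ∀ σ σ' : ℝ, |σ| ≤ 1 / 2 → |σ'| ≤ 1 / 2 →
    ‖SS n (zt ζ.im σ) (zt ζ'.im σ')‖ *
      Real.exp (n * (wt lam b (ζ.im * th σ) σ + wt lam' b' (ζ'.im * th σ') σ')) ≤
      C * (n : ℝ) ^ (-(3 / 2) : ℝ) * Real.exp (n * (TP lam b w ζ w.re σ + TP lam' b' w ζ' w.re σ' -
        1 / 100 * ((σ - ζ.re) ^ 2 + (σ' - ζ'.re) ^ 2))) := by
  obtain ⟨C₁, N₁, hC₁, hMX⟩ := MX_bound h h' hw
  obtain ⟨C₂, K₂, N₂, hC₂, hnear⟩ := SS_near_x
  obtain ⟨C₃, K₃, hC₃, habs⟩ := SS_abs
  obtain ⟨A₂, hA₂, hpow₂⟩ := pow_absorb K₂ (ε := 3 / 1000) (by norm_num)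
  obtain ⟨A₃, hA₃, hpow₃⟩ := pow_absorb K₃ (ε := 3 / 1000) (by norm_num)
  refine ⟨C₁ + C₂ * A₂ + C₃ * A₃, max N₁ (max N₂ 1), by positivity, ?_⟩
  intro n hn σ σ' hσ hσ'
  have hn1 : N₁ ≤ n := (le_max_left _ _).trans hn
  have hn2 : N₂ ≤ n := ((le_max_left _ _).trans (le_max_right _ _)).trans hn
  have hn3 : 1 ≤ n := ((le_max_right _ _).trans (le_max_right _ _)).trans hn
  have hnp : (0 : ℝ) < n := by exact_mod_cast hn3
  have g1 := abs_le.mp h.w1
  have g3 := abs_le.mp h.z1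
  have g4 := abs_le.mp h'.z1
  have g5 := abs_le.mp hσ
  have g6 := abs_le.mp hσ'
  have g7 := h.z2
  have g8 := h.z3
  have g9 := h'.z2
  have g10 := h'.z3
  have p0 : 0 < (n : ℝ) ^ (-(3 / 2) : ℝ) := by positivity
  -- the quadratic term is small
  have hq : 1 / 100 * ((σ - ζ.re) ^ 2 + (σ' - ζ'.re) ^ 2) ≤ 6 / 1000 := by
    have q1 : (σ - ζ.re) ^ 2 ≤ 3 / 10 := by
      have : |σ - ζ.re| ≤ 521 / 1000 := abs_le.mpr ⟨by linarith only [g3, g5], by linarith only [g3, g5]⟩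
      have := sq_le_sq' (abs_le.mp this).1 (abs_le.mp this).2
      nlinarith only [g7, g8, this]
    have q2 : (σ' - ζ'.re) ^ 2 ≤ 3 / 10 := by
      have : |σ' - ζ'.re| ≤ 521 / 1000 := abs_le.mpr ⟨by linarith only [g4, g6], by linarith only [g4, g6]⟩
      have := sq_le_sq' (abs_le.mp this).1 (abs_le.mp this).2
      nlinarith only [g7, g8, this]
    linarith only [q1, q2]
  set E := TP lam b w ζ w.re σ + TP lam' b' w ζ' w.re σ' with hE
  set Q := 1 / 100 * ((σ - ζ.re) ^ 2 + (σ' - ζ'.re) ^ 2) with hQ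
  have hQ0 : 0 ≤ Q := by positivity
  by_cases hin : |σ| ≤ 1 / 8 ∧ |σ'| ≤ 1 / 8
  · -- both near the centre
    obtain ⟨i1, i2⟩ := hin
    have t1 : th σ = 1 := th_eq_one (by linarith only [g7, g8, i1])
    have t2 : th σ' = 1 := th_eq_one (by linarith only [g7, g8, i2])
    rw [zt_mid (show |σ| ≤ 1 / 4 by linarith only [g7, g8, i1]), zt_mid (show |σ'| ≤ 1 / 4 by linarith only [g7, g8, i2]), t1, t2,
      mul_one, mul_one]
    set W := wt lam b ζ.im σ + wt lam' b' ζ'.im σ' with hW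
    have r1 : ((σ : ℂ) + ζ.im * Complex.I).re = σ := by simp
    have r2 : ((σ' : ℂ) + ζ'.im * Complex.I).re = σ' := by simp
    have im1 : ((σ : ℂ) + ζ.im * Complex.I).im = ζ.im := by simp
    have im2 : ((σ' : ℂ) + ζ'.im * Complex.I).im = ζ'.im := by simp
    have pair : ∀ x : ℝ, TP lam b w ζ x σ + TP lam' b' w ζ' x σ' = E := fun x => TP_x hw x σ σ'
    have b1 := hnear n hn2 w.im h.w2 (σ + ζ.im * Complex.I) (σ' + ζ'.im * Complex.I)
      (by rw [r1]; exact i1) (by rw [r2]; exact i2) (by rw [im1]; exact g7.le)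
      (by rw [im1]; linarith only [g7, g8]) (by rw [im2]; exact g9.le) (by rw [im2]; linarith only [g7, g8, g10])
      (E - W - 9 / 1000) (by
        intro x x1 x2 x3
        rw [r1, r2, im1, im2]
        have f1 := ring_far h x1 x2 x3 i1
        have f2 := ring_far h' x1 x2 x3 i2
        have f3 := pair x
        linarith only [g7, g8, f1, f2, f3]) (by
        intro x t x1 x2 x3
        have f1 := ring_side h x1 x2 i1 x3
        have f2 := ring_side h' x1 x2 i2 x3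
        have f3 := pair x
        rw [tp_eq_rc, Complex.add_re]
        linarith only [g7, g8, f1, f2, f3]) (by
        intro x t x1 x2
        have f1 := ring_top h x1 i1 x2
        have f2 := ring_top h' x1 i2 x2
        have f3 := pair x
        rw [tp_eq_rc, Complex.add_re]
        linarith only [g7, g8, f1, f2, f3])
    have b2 := hMX n hn1 σ σ' i1 i2
    have b3 : ‖SS n (σ + ζ.im * Complex.I) (σ' + ζ'.im * Complex.I)‖ ≤
        ‖MX n w.im (σ + ζ.im * Complex.I) (σ' + ζ'.im * Complex.I)‖ +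
        C₂ * (n : ℝ) ^ K₂ * Real.exp (n * (E - W - 9 / 1000)) := by
      have := norm_le_norm_add_norm_sub' (SS n (σ + ζ.im * Complex.I) (σ' + ζ'.im * Complex.I))
        (MX n w.im (σ + ζ.im * Complex.I) (σ' + ζ'.im * Complex.I))
      linarith only [b1, this]
    have b4 : C₂ * (n : ℝ) ^ K₂ * Real.exp (n * (E - W - 9 / 1000)) * Real.exp (n * W) ≤
        C₂ * A₂ * (n : ℝ) ^ (-(3 / 2) : ℝ) * Real.exp (n * (E - Q)) := by
      have c1 := hpow₂ n hn3
      calc C₂ * (n : ℝ) ^ K₂ * Real.exp (n * (E - W - 9 / 1000)) * Real.exp (n * W) ≤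
          C₂ * (A₂ * (n : ℝ) ^ (-(3 / 2) : ℝ) * Real.exp (n * (3 / 1000))) *
            Real.exp (n * (E - W - 9 / 1000)) * Real.exp (n * W) := by gcongr
        _ = C₂ * A₂ * (n : ℝ) ^ (-(3 / 2) : ℝ) * (Real.exp (n * (3 / 1000)) *
            Real.exp (n * (E - W - 9 / 1000)) * Real.exp (n * W)) := by ring
        _ = C₂ * A₂ * (n : ℝ) ^ (-(3 / 2) : ℝ) * Real.exp (n * (E - 6 / 1000)) := by
            rw [← Real.exp_add, ← Real.exp_add]
            congr 2
            ring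
        _ ≤ _ := by gcongr
    have b5 : C₁ * (n : ℝ) ^ (-(3 / 2) : ℝ) * Real.exp (n * (E -
        1 / 5 * ((σ - ζ.re) ^ 2 + (σ' - ζ'.re) ^ 2))) ≤
        C₁ * (n : ℝ) ^ (-(3 / 2) : ℝ) * Real.exp (n * (E - Q)) := by
      gcongr
      rw [hQ]
      have := add_nonneg (sq_nonneg (σ - ζ.re)) (sq_nonneg (σ' - ζ'.re))
      linarith only [hQ, hQ0]
    have b6 : 0 ≤ C₃ * A₃ * (n : ℝ) ^ (-(3 / 2) : ℝ) * Real.exp (n * (E - Q)) := by positivity
    calc ‖SS n (σ + ζ.im * Complex.I) (σ' + ζ'.im * Complex.I)‖ * Real.exp (n * W) ≤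
        (‖MX n w.im (σ + ζ.im * Complex.I) (σ' + ζ'.im * Complex.I)‖ +
        C₂ * (n : ℝ) ^ K₂ * Real.exp (n * (E - W - 9 / 1000))) * Real.exp (n * W) := by gcongr
      _ = ‖MX n w.im (σ + ζ.im * Complex.I) (σ' + ζ'.im * Complex.I)‖ * Real.exp (n * W) +
        C₂ * (n : ℝ) ^ K₂ * Real.exp (n * (E - W - 9 / 1000)) * Real.exp (n * W) := by ring
      _ ≤ C₁ * (n : ℝ) ^ (-(3 / 2) : ℝ) * Real.exp (n * (E - Q)) +
        C₂ * A₂ * (n : ℝ) ^ (-(3 / 2) : ℝ) * Real.exp (n * (E - Q)) :=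
          add_le_add (b2.trans b5) b4
      _ ≤ (C₁ + C₂ * A₂ + C₃ * A₃) * (n : ℝ) ^ (-(3 / 2) : ℝ) * Real.exp (n * (E - Q)) := by
          linarith only [b6]
  · -- one of them outside
    have th0 := th_nonneg hσ
    have th0' := th_nonneg hσ'
    have th1 := th_le_one σ
    have th1' := th_le_one σ'
    set W := wt lam b (ζ.im * th σ) σ + wt lam' b' (ζ'.im * th σ') σ' with hW
    have pair : ∀ x : ℝ, TP lam b w ζ x σ + TP lam' b' w ζ' x σ' = E := fun x => TP_x hw x σ σ'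
    -- a ring, any position
    have any : ∀ {l : ℝ} {β : ℤ} {z : ℂ}, Loc l β w z → ∀ s x : ℝ, |s| ≤ 1 / 8 → 0 ≤ x → x ≤ 1 →
        Rr (z.im * th s) x s + wt l β (z.im * th s) s ≤ TP l β w z x s + 1 / 1000 := by
      intro l β z hz s x hs x0 x1
      rw [th_eq_one (show |s| ≤ 1 / 4 by linarith only [g7, g8, hs]), mul_one]
      by_cases hx : |x - 1 / 4| ≤ 1 / 10
      · exact ring_real hz hx hs
      · push Not at hx
        have := ring_far hz x0 x1 (by linarith only [g7, g8, hx]) hs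
        linarith only [g7, g8, this]
    have main : ∀ x : ℝ, 0 ≤ x → x ≤ 1 → Rr (ζ.im * th σ) x σ + Rr (ζ'.im * th σ') x σ' ≤
        E - W - 9 / 1000 := by
      intro x x0 x1
      have f3 := pair x
      by_cases j1 : |σ| ≤ 1 / 8
      · have j2 : 1 / 8 ≤ |σ'| := by
          by_contra hcon
          exact hin ⟨j1, by linarith only [hcon]⟩
        have f1 := any h σ x j1 x0 x1
        have f2 := ring_out h' x0 x1 j2 hσ'
        linarith only [f3, f1, f2]
      · push Not at j1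
        have f1 := ring_out h x0 x1 j1.le hσ
        by_cases j2 : |σ'| ≤ 1 / 8
        · have f2 := any h' σ' x j2 x0 x1
          linarith only [f3, f1, f2]
        · push Not at j2
          have f2 := ring_out h' x0 x1 j2.le hσ'
          linarith only [g7, g8, f3, f1, f2]
    have b1 := habs n hn3 (zt ζ.im σ) (zt ζ'.im σ') (by rw [zt_im]; positivity)
      (by
        rw [zt_im]
        have : ζ.im * th σ ≤ ζ.im * 1 := mul_le_mul_of_nonneg_left th1 g7.le
        linarith only [g7, g8, this]) (by rw [zt_re]; exact hσ) (by rw [zt_im]; positivity)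
      (by
        rw [zt_im]
        have : ζ'.im * th σ' ≤ ζ'.im * 1 := mul_le_mul_of_nonneg_left th1' g9.le
        linarith only [g7, g8, g10, this]) (by rw [zt_re]; exact hσ') (E - W - 9 / 1000) (by
        intro x x0 x1
        rw [zt_im, zt_im, zt_re, zt_re]
        exact main x x0 x1)
    have c1 := hpow₃ n hn3
    have b6 : 0 ≤ C₁ * (n : ℝ) ^ (-(3 / 2) : ℝ) * Real.exp (n * (E - Q)) := by positivity
    have b7 : 0 ≤ C₂ * A₂ * (n : ℝ) ^ (-(3 / 2) : ℝ) * Real.exp (n * (E - Q)) := by positivity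
    calc ‖SS n (zt ζ.im σ) (zt ζ'.im σ')‖ * Real.exp (n * W) ≤
        C₃ * (n : ℝ) ^ K₃ * Real.exp (n * (E - W - 9 / 1000)) * Real.exp (n * W) := by gcongr
      _ ≤ C₃ * (A₃ * (n : ℝ) ^ (-(3 / 2) : ℝ) * Real.exp (n * (3 / 1000))) *
            Real.exp (n * (E - W - 9 / 1000)) * Real.exp (n * W) := by gcongr
      _ = C₃ * A₃ * (n : ℝ) ^ (-(3 / 2) : ℝ) * (Real.exp (n * (3 / 1000)) *
            Real.exp (n * (E - W - 9 / 1000)) * Real.exp (n * W)) := by ring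
      _ = C₃ * A₃ * (n : ℝ) ^ (-(3 / 2) : ℝ) * Real.exp (n * (E - 6 / 1000)) := by
            rw [← Real.exp_add, ← Real.exp_add]
            congr 2
            ring
      _ ≤ C₃ * A₃ * (n : ℝ) ^ (-(3 / 2) : ℝ) * Real.exp (n * (E - Q)) := by gcongr
      _ ≤ (C₁ + C₂ * A₂ + C₃ * A₃) * (n : ℝ) ^ (-(3 / 2) : ℝ) * Real.exp (n * (E - Q)) := by
          linarith only [b6, b7]

end Pool.Agent.Work.MP_b30479_gt.LT
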