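import Pool.Agent.Work.MP_b30479_gt.LT.AlgW
import Pool.Agent.Work.MP_b30479_gt.VC.Path

/-!
# The exact formula
-/

namespace Pool.Agent.Work.MP_b30479_gt.LT

open Finset VOL AX MeasureTheory

/-! ### elementary facts on the path -/

lemma th_nonneg {σ : ℝ} (h : |σ| ≤ 1 / 2) : 0 ≤ th σ := by
  unfold th
  exact le_min zero_le_one (by linarith only [h])

lemma th_pos {σ : ℝ} (h : |σ| < 1 / 2) : 0 < th σ := by
  unfold th
  exact lt_min zero_lt_one (by linarith only [h])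

lemma th_neg (σ : ℝ) : th (-σ) = th σ := by
  unfold th
  rw [abs_neg]

lemma th_half : th (1 / 2) = 0 := by
  unfold th
  norm_num

lemma th_cont : Continuous th := by
  unfold th
  fun_prop

lemma zt_cont (ρ : ℝ) : Continuous (zt ρ) := by
  unfold zt
  have := th_cont
  fun_prop

lemma zt_neg (ρ σ : ℝ) : zt ρ (-σ) = -(starRingEnd ℂ) (zt ρ σ) := by
  unfold zt
  rw [th_neg]
  simp only [map_add, map_mul, Complex.conj_ofReal, Complex.conj_I]
  push_cast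
  ring

lemma th_deriv {σ : ℝ} (h : |σ| ≠ 1 / 4) (h0 : σ ≠ 0) :
    HasDerivAt th (if |σ| < 1 / 4 then 0 else if 0 < σ then -4 else 4) σ := by
  have hab : HasDerivAt (fun x : ℝ => 2 - 4 * |x|) (-(4 * (SignType.sign σ : ℝ))) σ := by
    have := ((hasDerivAt_abs h0).const_mul 4).const_sub 2
    exact this
  rcases lt_or_gt_of_ne h with h1 | h1
  · rw [if_pos h1]
    have h2 : ∀ᶠ x in nhds σ, |x| < 1 / 4 :=
      (isOpen_lt continuous_abs continuous_const).mem_nhds h1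
    refine (hasDerivAt_const σ (1 : ℝ)).congr_of_eventuallyEq ?_
    filter_upwards [h2] with x hx
    unfold th
    rw [min_eq_left (by linarith only [hx])]
  · rw [if_neg (by linarith only [h1])]
    have h2 : ∀ᶠ x in nhds σ, 1 / 4 < |x| :=
      (isOpen_lt continuous_const continuous_abs).mem_nhds h1
    have h3 : HasDerivAt th (-(4 * (SignType.sign σ : ℝ))) σ := by
      refine hab.congr_of_eventuallyEq ?_
      filter_upwards [h2] with x hx
      unfold th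
      rw [min_eq_right (by linarith only [hx])]
    refine h3.congr_deriv ?_
    rcases lt_or_gt_of_ne h0 with h4 | h4
    · rw [if_neg (by linarith only [h4]), sign_neg h4]
      simp
    · rw [if_pos h4, sign_pos h4]
      simp

lemma zt_deriv {ρ σ : ℝ} (h : |σ| ≠ 1 / 4) (h0 : σ ≠ 0) : HasDerivAt (zt ρ) (dzt ρ σ) σ := by
  have h1 := ((th_deriv h h0).const_mul ρ).ofReal_comp
  have h2 := (Complex.ofRealCLM.hasDerivAt (x := σ)).add (h1.mul_const Complex.I)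
  refine h2.congr_deriv ?_
  unfold dzt
  simp

lemma zt_im (ρ σ : ℝ) : (zt ρ σ).im = ρ * th σ := by
  unfold zt
  simp

lemma zt_re (ρ σ : ℝ) : (zt ρ σ).re = σ := by
  unfold zt
  simp

lemma dzt_measurable (ρ : ℝ) : Measurable (dzt ρ) := by
  unfold dzt
  have h1 : MeasurableSet {σ : ℝ | |σ| < 1 / 4} :=
    measurableSet_lt (by fun_prop) measurable_const
  have h2 : MeasurableSet {σ : ℝ | 0 < σ} := measurableSet_lt measurable_const measurable_id
  have h3 : Measurable fun σ : ℝ => (if |σ| < 1 / 4 then (0 : ℝ) else if 0 < σ then -4 else 4) :=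
    Measurable.ite h1 measurable_const (Measurable.ite h2 measurable_const measurable_const)
  fun_prop

lemma dzt_bound (ρ σ : ℝ) : ‖dzt ρ σ‖ ≤ 1 + |ρ| * 4 := by
  unfold dzt
  refine (norm_add_le _ _).trans ?_
  rw [norm_one, norm_mul, Complex.norm_I, mul_one, Complex.norm_real, Real.norm_eq_abs, abs_mul]
  have : |(if |σ| < 1 / 4 then (0 : ℝ) else if 0 < σ then -4 else 4)| ≤ 4 := by
    split_ifs <;> norm_num
  have := mul_le_mul_of_nonneg_left this (abs_nonneg ρ)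
  linarith only [this]

lemma dzt_integrable (ρ : ℝ) : IntervalIntegrable (dzt ρ) volume (-(1 / 2)) (1 / 2) := by
  rw [intervalIntegrable_iff, Set.uIoc_of_le (by norm_num)]
  exact Measure.integrableOn_of_bounded (M := 1 + |ρ| * 4) (by simp)
    (dzt_measurable ρ).aestronglyMeasurable (Filter.Eventually.of_forall (dzt_bound ρ))

lemma dzt_neg {ρ σ : ℝ} : dzt ρ (-σ) = (starRingEnd ℂ) (dzt ρ σ) ∨ σ = 0 := by
  by_cases h0 : σ = 0
  · right; exact h0
  left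
  unfold dzt
  rw [abs_neg]
  simp only [map_add, map_one, map_mul, Complex.conj_ofReal, Complex.conj_I]
  rcases lt_or_ge |σ| (1 / 4) with h1 | h1
  · simp only [if_pos h1, mul_zero, Complex.ofReal_zero, zero_mul]
  · rw [if_neg (not_lt.mpr h1), if_neg (not_lt.mpr h1)]
    rcases lt_or_gt_of_ne h0 with h2 | h2
    · rw [if_pos (by linarith only [h2]), if_neg (by linarith only [h2])]
      push_cast
      ring
    · rw [if_neg (by linarith only [h2]), if_pos h2]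
      push_cast
      ring

lemma PP_neg (n u : ℕ) (ζ : ℂ) : PP n u (-ζ) = PP n u ζ := by
  unfold PP
  refine Finset.prod_congr rfl fun l _ => ?_
  rw [mul_neg, Complex.cos_neg]

lemma PP_conj (n u : ℕ) (ζ : ℂ) : (starRingEnd ℂ) (PP n u ζ) = PP n u ((starRingEnd ℂ) ζ) := by
  unfold PP
  rw [map_prod]
  refine Finset.prod_congr rfl fun l _ => ?_
  simp only [map_add, map_mul, Complex.conj_ofReal, map_ofNat, ← Complex.cos_conj]

lemma PP_cont (n u : ℕ) : Continuous (PP n u) := by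
  unfold PP
  fun_prop

/-- the weight for `-b` is minus the conjugate of the weight for `b` at `-σ` -/
lemma EE_conj (n : ℕ) (b : ℤ) (ρ : ℝ) {σ : ℝ} (h0 : σ ≠ 0) :
    (starRingEnd ℂ) (EE n b ρ (-σ)) = -EE n (-b) ρ σ := by
  have hz : (starRingEnd ℂ) (zt ρ (-σ)) = -zt ρ σ := by
    rw [zt_neg, map_neg, Complex.conj_conj]
  have hd : (starRingEnd ℂ) (dzt ρ (-σ)) = dzt ρ σ := by
    rcases dzt_neg (ρ := ρ) (σ := σ) with h | h
    · rw [h, Complex.conj_conj]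
    · exact absurd h h0
  unfold EE
  rw [map_mul, map_div₀, map_mul, map_pow, ← Complex.exp_conj, ← Complex.sin_conj,
    ← Complex.sin_conj]
  simp only [map_mul, map_pow, map_ofNat, map_natCast, map_intCast, Complex.conj_ofReal,
    Complex.conj_I, hz, hd]
  rw [show 2 * (Real.pi : ℂ) * -zt ρ σ = -(2 * Real.pi * zt ρ σ) by ring,
    show (Real.pi : ℂ) * n * -zt ρ σ = -(Real.pi * n * zt ρ σ) by ring, Complex.sin_neg,
    Complex.sin_neg, neg_sq, neg_sq]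
  push_cast
  rw [show (Real.pi : ℂ) * -Complex.I * b * n * zt ρ σ ^ 2 =
    Real.pi * Complex.I * -b * n * zt ρ σ ^ 2 by ring]
  ring

/-! ### one twist region -/

open VC DT TB in
lemma pY_PP (s u : ℕ) (ζ : ℂ) : pY s u (((2 * s + 1 : ℕ) : ℂ) * ζ) = PP (2 * s + 1) u ζ := by
  have hn0 := DT.nn_ne s
  unfold pY PP
  refine Finset.prod_congr rfl fun l _ => ?_
  unfold DT.cc
  have e1 : 2 * (Real.pi : ℂ) * (((2 * s + 1 : ℕ) : ℂ) * ζ) / ((2 * s + 1 : ℕ) : ℂ) =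
      2 * Real.pi * ζ := by
    field_simp
  have e2 : 2 * (Real.pi : ℂ) * ((l : ℂ) - s) / ((2 * s + 1 : ℕ) : ℂ) =
      2 * Real.pi * (l + 1 / 2) / ((2 * s + 1 : ℕ) : ℂ) - Real.pi := by
    rw [div_sub' hn0, div_left_inj' hn0]
    push_cast
    ring
  rw [e1, e2, Complex.cos_sub_pi]
  push_cast
  ring

lemma path_sin_ne {s : ℕ} {ρ σ : ℝ} (hρ : 0 < ρ) (hσ : σ ∈ Set.Icc (-(1 / 2) : ℝ) (1 / 2)) :
    Complex.sin (Real.pi * (((2 * s + 1 : ℕ) : ℂ) * zt ρ σ)) ≠ 0 := by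
  have hn : (0 : ℝ) < ((2 * s + 1 : ℕ) : ℝ) := by positivity
  refine DT.cont_sin_ne (s := s) ?_
  rcases (abs_le.mpr hσ).eq_or_lt with h | h
  · right
    rw [show (((2 * s + 1 : ℕ) : ℂ) * zt ρ σ).re = ((2 * s + 1 : ℕ) : ℝ) * σ by
      rw [← Complex.ofReal_natCast, Complex.re_ofReal_mul, zt_re], abs_mul, h, abs_of_pos hn]
    ring
  · left
    rw [show (((2 * s + 1 : ℕ) : ℂ) * zt ρ σ).im = ((2 * s + 1 : ℕ) : ℝ) * (ρ * th σ) by
      rw [← Complex.ofReal_natCast, Complex.im_ofReal_mul, zt_im]]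
    have := th_pos h
    positivity

open VC DT TB in
theorem KN_path {s a u v : ℕ} (hu : u ≤ 2 * s) {ρ : ℝ} (hρ : 0 < ρ) :
    KN s a u v = VC.kap s 0 ^ a * (Complex.I * ((2 * s + 1 : ℕ) : ℂ) ^ 2 / 2) *
      ((1 / (fS (2 * s + 1) u ^ 2 * fS (2 * s + 1) v ^ 2) : ℝ) : ℂ) *
      ∫ σ in (-(1 / 2) : ℝ)..(1 / 2), EE (2 * s + 1) (a : ℤ) ρ σ *
        (PP (2 * s + 1) u (zt ρ σ) * PP (2 * s + 1) v (zt ρ σ)) := by
  have hn0 := DT.nn_ne s
  have hn : (0 : ℝ) < ((2 * s + 1 : ℕ) : ℝ) := by positivity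
  have hzc := zt_cont ρ
  have key : ∀ σ : ℝ, KI a s u v (((2 * s + 1 : ℕ) : ℂ) * zt ρ σ) *
      (((2 * s + 1 : ℕ) : ℂ) * dzt ρ σ) = ((2 * s + 1 : ℕ) : ℂ) *
      (EE (2 * s + 1) (a : ℤ) ρ σ * (PP (2 * s + 1) u (zt ρ σ) * PP (2 * s + 1) v (zt ρ σ))) := by
    intro σ
    unfold KI EE
    rw [pY_PP, pY_PP]
    have e1 : (Real.pi : ℂ) * Complex.I * a * (((2 * s + 1 : ℕ) : ℂ) * zt ρ σ) ^ 2 /
        ((2 * s + 1 : ℕ) : ℂ) = Real.pi * Complex.I * ((a : ℤ) : ℂ) * ((2 * s + 1 : ℕ) : ℂ) *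
        zt ρ σ ^ 2 := by
      rw [Int.cast_natCast]
      field_simp
    have e2 : 2 * (Real.pi : ℂ) * (((2 * s + 1 : ℕ) : ℂ) * zt ρ σ) / ((2 * s + 1 : ℕ) : ℂ) =
        2 * Real.pi * zt ρ σ := by
      field_simp
    rw [e1, e2, mul_assoc (Real.pi : ℂ) (((2 * s + 1 : ℕ) : ℂ))]
    ring
  have hd : ∀ x ∈ Set.Ioo (-(1 / 2) : ℝ) (1 / 2) \ ({-(1 / 4), 0, 1 / 4} : Set ℝ),
      HasDerivAt (fun σ => ((2 * s + 1 : ℕ) : ℂ) * zt ρ σ) (((2 * s + 1 : ℕ) : ℂ) * dzt ρ x) x := by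
    intro x hx
    have h2 := hx.2
    simp only [Set.mem_insert_iff, Set.mem_singleton_iff, not_or] at h2
    refine (zt_deriv ?_ h2.2.1).const_mul _
    intro h3
    rcases (abs_eq (by norm_num)).mp h3 with h4 | h4
    · exact h2.2.2 h4
    · exact h2.1 h4
  have hint : IntervalIntegrable (fun x => KI a s u v (((2 * s + 1 : ℕ) : ℂ) * zt ρ x) *
      (((2 * s + 1 : ℕ) : ℂ) * dzt ρ x)) volume (-(1 / 2)) (1 / 2) := by
    have h1 : ContinuousOn (fun x => KI a s u v (((2 * s + 1 : ℕ) : ℂ) * zt ρ x))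
        (Set.uIcc (-(1 / 2) : ℝ) (1 / 2)) := by
      rw [Set.uIcc_of_le (by norm_num)]
      intro x hx
      have h2 := (KI_diff (a := a) (s := s) (y := u) (y' := v)
        (path_sin_ne (s := s) hρ hx)).continuousAt
      have h3 : ContinuousAt (fun x => ((2 * s + 1 : ℕ) : ℂ) * zt ρ x) x := by fun_prop
      exact (ContinuousAt.comp (f := fun x => ((2 * s + 1 : ℕ) : ℂ) * zt ρ x) h2
        h3).continuousWithinAt
    exact ((dzt_integrable ρ).const_mul _).continuousOn_mul h1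
  have h1 := Gm_path (a := a) (y' := v) hu (γ := fun σ => ((2 * s + 1 : ℕ) : ℂ) * zt ρ σ)
    (γ' := fun σ => ((2 * s + 1 : ℕ) : ℂ) * dzt ρ σ) (u := -(1 / 2)) (v := 1 / 2) (by norm_num)
    (by fun_prop) (by
      simp only [zt, th_neg, th_half, mul_zero, Complex.ofReal_zero, zero_mul, add_zero, DT.hn]
      push_cast
      ring) (by
      simp only [zt, th_half, mul_zero, Complex.ofReal_zero, zero_mul, add_zero, DT.hn]
      push_cast
      ring) (by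
      intro x hx
      rw [show (((2 * s + 1 : ℕ) : ℂ) * zt ρ x).im = ((2 * s + 1 : ℕ) : ℝ) * (ρ * th x) by
        rw [← Complex.ofReal_natCast, Complex.im_ofReal_mul, zt_im]]
      have := th_pos (abs_lt.mpr hx)
      positivity) (S := {-(1 / 4), 0, 1 / 4}) (by simp) hd hint
  simp only [key] at h1
  rw [intervalIntegral.integral_const_mul] at h1
  have e3 : ((((2 * s + 1 : ℕ) : ℝ) ^ 2 / (fS (2 * s + 1) u ^ 2 * fS (2 * s + 1) v ^ 2) : ℝ) : ℂ) =
      ((2 * s + 1 : ℕ) : ℂ) ^ 2 *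
      ((1 / (fS (2 * s + 1) u ^ 2 * fS (2 * s + 1) v ^ 2) : ℝ) : ℂ) := by
    push_cast
    ring
  have e4 : (2 * Complex.I * ((2 * s + 1 : ℕ) : ℂ))⁻¹ * ((2 * s + 1 : ℕ) : ℂ) =
      -(Complex.I / 2) := by
    rw [mul_inv, mul_assoc, inv_mul_cancel₀ hn0, mul_inv, Complex.inv_I]
    ring
  unfold KN
  rw [h1, e3]
  set J := ∫ σ in (-(1 / 2) : ℝ)..(1 / 2), EE (2 * s + 1) (a : ℤ) ρ σ *
        (PP (2 * s + 1) u (zt ρ σ) * PP (2 * s + 1) v (zt ρ σ))
  set r := ((1 / (fS (2 * s + 1) u ^ 2 * fS (2 * s + 1) v ^ 2) : ℝ) : ℂ)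
  rw [div_eq_mul_inv]
  linear_combination (-(VC.kap s 0 ^ a) * J * ((2 * s + 1 : ℕ) : ℂ) ^ 2 * r) * e4

open VC DT TB in
lemma kap_pow (s : ℕ) (a : ℕ) : VC.kap s 0 ^ a = Complex.exp (Real.pi * Complex.I * (a : ℤ) *
    s ^ 2 / ((2 * s + 1 : ℕ) : ℂ)) := by
  rw [VC.kap_zero, ← Complex.exp_nat_mul]
  congr 1
  push_cast
  ring

theorem KK_path {s u v : ℕ} (b : ℤ) (hu : u ≤ 2 * s) {ρ : ℝ} (hρ : 0 < ρ) :
    KK s b u v = Complex.exp (Real.pi * Complex.I * b * s ^ 2 / ((2 * s + 1 : ℕ) : ℂ)) *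
      (Complex.I * ((2 * s + 1 : ℕ) : ℂ) ^ 2 / 2) *
      ((1 / (fS (2 * s + 1) u ^ 2 * fS (2 * s + 1) v ^ 2) : ℝ) : ℂ) *
      ∫ σ in (-(1 / 2) : ℝ)..(1 / 2), EE (2 * s + 1) b ρ σ *
        (PP (2 * s + 1) u (zt ρ σ) * PP (2 * s + 1) v (zt ρ σ)) := by
  unfold KK
  split_ifs with hb
  · rw [KN_path hu hρ, kap_pow, Int.natAbs_of_nonneg hb]
  · rw [KN_path hu hρ, kap_pow]
    have hb' : ((b.natAbs : ℕ) : ℤ) = -b := by omega
    rw [hb']
    simp only [map_mul, map_div₀, map_pow, map_natCast, map_ofNat, Complex.conj_ofReal,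
      Complex.conj_I, ← Complex.exp_conj, map_intCast]
    have e1 : (starRingEnd ℂ) (∫ σ in (-(1 / 2) : ℝ)..(1 / 2), EE (2 * s + 1) (-b) ρ σ *
        (PP (2 * s + 1) u (zt ρ σ) * PP (2 * s + 1) v (zt ρ σ))) =
        -∫ σ in (-(1 / 2) : ℝ)..(1 / 2), EE (2 * s + 1) b ρ σ *
        (PP (2 * s + 1) u (zt ρ σ) * PP (2 * s + 1) v (zt ρ σ)) := by
      have h1 := intervalIntegral.integral_comp_neg (a := -(1 / 2)) (b := 1 / 2)
        (fun σ : ℝ => EE (2 * s + 1) (-b) ρ σ *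
        (PP (2 * s + 1) u (zt ρ σ) * PP (2 * s + 1) v (zt ρ σ)))
      rw [neg_neg] at h1
      rw [← h1, ← intervalIntegral.intervalIntegral_conj, ← intervalIntegral.integral_neg]
      refine intervalIntegral.integral_congr_ae ?_
      have h2 : ∀ᵐ σ : ℝ, σ ≠ 0 := by
        simp [ae_iff]
      filter_upwards [h2] with σ h0 _
      have hz : (starRingEnd ℂ) (zt ρ (-σ)) = -zt ρ σ := by
        rw [zt_neg, map_neg, Complex.conj_conj]
      rw [map_mul, map_mul, EE_conj _ _ _ h0, PP_conj, PP_conj, hz, PP_neg, PP_neg, neg_neg]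
      ring
    rw [e1]
    have e2 : (Real.pi : ℂ) * -Complex.I * ((-b : ℤ) : ℂ) * (s : ℂ) ^ 2 /
        ((2 * s + 1 : ℕ) : ℂ) = Real.pi * Complex.I * b * s ^ 2 / ((2 * s + 1 : ℕ) : ℂ) := by
      push_cast
      ring
    rw [e2]
    ring

lemma phi_integrable {s : ℕ} (b : ℤ) {ρ : ℝ} (hρ : 0 < ρ) (u v : ℕ) :
    IntegrableOn (fun σ : ℝ => EE (2 * s + 1) b ρ σ *
      (PP (2 * s + 1) u (zt ρ σ) * PP (2 * s + 1) v (zt ρ σ))) (Set.Icc (-(1 / 2)) (1 / 2)) := by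
  have hzc := zt_cont ρ
  have h1 : ContinuousOn (fun σ : ℝ => Complex.exp (Real.pi * Complex.I * b *
      ((2 * s + 1 : ℕ) : ℂ) * zt ρ σ ^ 2) * Complex.sin (2 * Real.pi * zt ρ σ) /
      Complex.sin (Real.pi * ((2 * s + 1 : ℕ) : ℂ) * zt ρ σ) ^ 2 *
      (PP (2 * s + 1) u (zt ρ σ) * PP (2 * s + 1) v (zt ρ σ)))
      (Set.Icc (-(1 / 2)) (1 / 2)) := by
    have h2 := (PP_cont (2 * s + 1) u).comp hzc
    have h3 := (PP_cont (2 * s + 1) v).comp hzc
    refine ContinuousOn.mul (ContinuousOn.div (by fun_prop) (by fun_prop) ?_)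
      (h2.mul h3).continuousOn
    intro σ hσ
    have := path_sin_ne (s := s) hρ hσ
    rw [← mul_assoc] at this
    exact pow_ne_zero _ this
  have h4 : IntegrableOn (dzt ρ) (Set.Icc (-(1 / 2)) (1 / 2)) :=
    Measure.integrableOn_of_bounded (M := 1 + |ρ| * 4) (by simp)
      (dzt_measurable ρ).aestronglyMeasurable (Filter.Eventually.of_forall (dzt_bound ρ))
  have h5 := h4.continuousOn_mul h1 isCompact_Icc
  refine h5.congr_fun (fun σ _ => ?_) measurableSet_Icc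
  unfold EE
  ring

/-! ### the chain -/

/-- left and right indices -/
noncomputable def Li {n M : ℕ} (y : Fin M → Fin n) : Fin (M + 1) → ℕ :=
  Fin.cons 0 (fun j => (y j : ℕ))

/-- left and right indices -/
noncomputable def Ri {n M : ℕ} (y : Fin M → Fin n) : Fin (M + 1) → ℕ :=
  Fin.snoc (fun j => (y j : ℕ)) 0

lemma fS_zero (n : ℕ) : fS n 0 = 1 := by simp [fS]

lemma PP_zero (n : ℕ) (ζ : ℂ) : PP n 0 ζ = 1 := by simp [PP]

lemma prod_Li {n M : ℕ} (y : Fin M → Fin n) (g : ℕ → Fin (M + 1) → ℂ) :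
    ∏ i, g (Li y i) i = g 0 0 * ∏ j : Fin M, g (y j) j.succ := by
  rw [Fin.prod_univ_succ]
  simp [Li]

lemma prod_Ri {n M : ℕ} (y : Fin M → Fin n) (g : ℕ → Fin (M + 1) → ℂ) :
    ∏ i, g (Ri y i) i = (∏ j : Fin M, g (y j) j.castSucc) * g 0 (Fin.last M) := by
  rw [Fin.prod_univ_castSucc]
  simp [Ri]

lemma integrand_eq {n M : ℕ} (b : Fin (M + 1) → ℤ) (ρ : Fin (M + 1) → ℝ)
    (σ : Fin (M + 1) → ℝ) :
    (∏ i, EE n (b i) (ρ i) (σ i)) *
      ∏ j : Fin M, SS n (zt (ρ j.castSucc) (σ j.castSucc)) (zt (ρ j.succ) (σ j.succ)) =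
    ∑ y : Fin M → Fin n, (∏ i, ((1 / (fS n (Li y i) ^ 2 * fS n (Ri y i) ^ 2) : ℝ) : ℂ)) *
      ∏ i, (EE n (b i) (ρ i) (σ i) *
        (PP n (Li y i) (zt (ρ i) (σ i)) * PP n (Ri y i) (zt (ρ i) (σ i)))) := by
  have h1 : ∀ j : Fin M, SS n (zt (ρ j.castSucc) (σ j.castSucc)) (zt (ρ j.succ) (σ j.succ)) =
      ∑ y : Fin n, term n y (zt (ρ j.castSucc) (σ j.castSucc)) (zt (ρ j.succ) (σ j.succ)) := by
    intro j
    unfold SS
    rw [Finset.sum_range]
  simp_rw [h1]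
  rw [Finset.prod_univ_sum, Fintype.piFinset_univ, Finset.mul_sum]
  refine Finset.sum_congr rfl fun y _ => ?_
  rw [Finset.prod_mul_distrib, Finset.prod_mul_distrib,
    prod_Li y (fun m i => PP n m (zt (ρ i) (σ i))), prod_Ri y (fun m i => PP n m (zt (ρ i) (σ i)))]
  have h2 : (∏ i, ((1 / (fS n (Li y i) ^ 2 * fS n (Ri y i) ^ 2) : ℝ) : ℂ)) =
      ∏ j : Fin M, (1 / ((fS n (y j) ^ 4 : ℝ) : ℂ)) := by
    have e : ∀ i, ((1 / (fS n (Li y i) ^ 2 * fS n (Ri y i) ^ 2) : ℝ) : ℂ) =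
        (1 / (fS n (Li y i) : ℂ) ^ 2) * (1 / (fS n (Ri y i) : ℂ) ^ 2) := by
      intro i
      push_cast
      rw [one_div, mul_inv, one_div, one_div]
    rw [Finset.prod_congr rfl (fun i _ => e i), Finset.prod_mul_distrib,
      prod_Li y (fun m _ => 1 / (fS n m : ℂ) ^ 2), prod_Ri y (fun m _ => 1 / (fS n m : ℂ) ^ 2),
      fS_zero, Complex.ofReal_one, one_pow, div_one, one_mul, mul_one, ← Finset.prod_mul_distrib]
    refine Finset.prod_congr rfl fun j _ => ?_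
    push_cast
    rw [one_div, one_div, ← mul_inv]
    congr 1
    ring
  rw [h2]
  simp only [PP_zero, one_mul, mul_one]
  have h3 : ∏ j : Fin M, term n (y j) (zt (ρ j.castSucc) (σ j.castSucc))
      (zt (ρ j.succ) (σ j.succ)) = (∏ j : Fin M, (1 / ((fS n (y j) ^ 4 : ℝ) : ℂ))) *
      ((∏ j : Fin M, PP n (y j) (zt (ρ j.succ) (σ j.succ))) *
      ∏ j : Fin M, PP n (y j) (zt (ρ j.castSucc) (σ j.castSucc))) := by
    rw [← Finset.prod_mul_distrib, ← Finset.prod_mul_distrib]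
    refine Finset.prod_congr rfl fun j _ => ?_
    unfold term
    ring
  rw [h3]
  ring

lemma box_integral {M : ℕ} (φ : Fin (M + 1) → ℝ → ℂ) :
    ∫ σ in box M, ∏ i, φ i (σ i) = ∏ i, ∫ t in Set.Icc (-(1 / 2) : ℝ) (1 / 2), φ i t := by
  unfold box
  rw [volume_pi, Measure.restrict_pi_pi]
  exact integral_fintype_prod_eq_prod (fun i => φ i)

lemma box_integrable {M : ℕ} {φ : Fin (M + 1) → ℝ → ℂ}
    (h : ∀ i, IntegrableOn (φ i) (Set.Icc (-(1 / 2)) (1 / 2))) :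
    IntegrableOn (fun σ : Fin (M + 1) → ℝ => ∏ i, φ i (σ i)) (box M) := by
  unfold box IntegrableOn
  rw [volume_pi, Measure.restrict_pi_pi]
  exact Integrable.fintype_prod (fun i => h i)

theorem exact_formula {M : ℕ} (b : Fin (M + 1) → ℤ) {ρ : Fin (M + 1) → ℝ} (hρ : ∀ i, 0 < ρ i)
    (δ : ℤ) {s : ℕ} (hs : 1 ≤ s) :
    twoBridgeKashaev (ltWord (List.ofFn b)) δ (2 * s + 1) =
      phs (orientedWrithe (ltWord (List.ofFn b)) ![1, δ, -δ]) (∑ i, b i) s *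
        (Complex.I * ((2 * s + 1 : ℕ) : ℂ) ^ 2 / 2) ^ (M + 1) * II (2 * s + 1) b ρ := by
  have hII : II (2 * s + 1) b ρ = ∑ y : Fin M → Fin (2 * s + 1),
      (∏ i, ((1 / (fS (2 * s + 1) (Li y i) ^ 2 * fS (2 * s + 1) (Ri y i) ^ 2) : ℝ) : ℂ)) *
      ∏ i, ∫ t in (-(1 / 2) : ℝ)..(1 / 2), EE (2 * s + 1) (b i) (ρ i) t *
        (PP (2 * s + 1) (Li y i) (zt (ρ i) t) * PP (2 * s + 1) (Ri y i) (zt (ρ i) t)) := by
    unfold II
    simp_rw [integrand_eq]
    rw [integral_finsetSum]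
    · refine Finset.sum_congr rfl fun y _ => ?_
      rw [integral_const_mul, box_integral (fun i t => EE (2 * s + 1) (b i) (ρ i) t *
        (PP (2 * s + 1) (Li y i) (zt (ρ i) t) * PP (2 * s + 1) (Ri y i) (zt (ρ i) t)))]
      congr 1
      refine Finset.prod_congr rfl fun i _ => ?_
      rw [intervalIntegral.integral_of_le (by norm_num), integral_Icc_eq_integral_Ioc]
    · intro y _
      exact (box_integrable (φ := fun i t => EE (2 * s + 1) (b i) (ρ i) t *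
        (PP (2 * s + 1) (Li y i) (zt (ρ i) t) * PP (2 * s + 1) (Ri y i) (zt (ρ i) t)))
        (fun i => phi_integrable (b i) (hρ i) _ _)).const_mul _
  have hR : ∀ A B C D : ℂ, A * B * C * D = A * (B * C * D) := by
    intro A B C D
    ring
  rw [chain b δ hs, phs, hR (Complex.exp _) (Complex.exp _)]
  congr 1
  rw [hII, Finset.mul_sum]
  refine Finset.sum_congr rfl fun y _ => ?_
  have hLi : ∀ i, Li y i ≤ 2 * s := by
    intro i
    refine Fin.cases ?_ (fun j => ?_) i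
    · simp [Li]
    · simp only [Li, Fin.cons_succ]
      omega
  have h1 : ∀ i, KK s (b i) ((Fin.cons 0 (fun j => (y j : ℕ)) : Fin (M + 1) → ℕ) i)
      ((Fin.snoc (fun j => (y j : ℕ)) 0 : Fin (M + 1) → ℕ) i) =
      Complex.exp (Real.pi * Complex.I * b i * s ^ 2 / ((2 * s + 1 : ℕ) : ℂ)) *
      (Complex.I * ((2 * s + 1 : ℕ) : ℂ) ^ 2 / 2) *
      ((1 / (fS (2 * s + 1) (Li y i) ^ 2 * fS (2 * s + 1) (Ri y i) ^ 2) : ℝ) : ℂ) *
      ∫ σ in (-(1 / 2) : ℝ)..(1 / 2), EE (2 * s + 1) (b i) (ρ i) σ *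
        (PP (2 * s + 1) (Li y i) (zt (ρ i) σ) * PP (2 * s + 1) (Ri y i) (zt (ρ i) σ)) :=
    fun i => KK_path (b i) (hLi i) (hρ i)
  rw [Finset.prod_congr rfl (fun i _ => h1 i), Finset.prod_mul_distrib, Finset.prod_mul_distrib,
    Finset.prod_mul_distrib, Finset.prod_const, Finset.card_univ, Fintype.card_fin,
    ← Complex.exp_sum]
  have h2 : ∑ i, (Real.pi : ℂ) * Complex.I * b i * (s : ℂ) ^ 2 / ((2 * s + 1 : ℕ) : ℂ) =
      Real.pi * Complex.I * ((∑ i, b i : ℤ) : ℂ) * s ^ 2 / ((2 * s + 1 : ℕ) : ℂ) := by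
    rw [← Finset.sum_div, ← Finset.sum_mul, ← Finset.mul_sum]
    push_cast
    rfl
  rw [h2]
  ring

end Pool.Agent.Work.MP_b30479_gt.LT
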