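import Pool.Agent.Work.MP_b30479_gt.LT.Core
import Pool.Agent.Work.MP_b30479_gt.LT.Exact

/-!
# Assembly
-/

namespace Pool.Agent.Work.MP_b30479_gt.LT

open Finset VOL AX MeasureTheory Filter Topology

lemma inv_nn_tendsto : Tendsto (fun s : ℕ => (1 / ((2 * s + 1 : ℕ) : ℝ) : ℝ)) atTop (𝓝 0) := by
  apply Filter.Tendsto.div_atTop tendsto_const_nhds
  apply tendsto_natCast_atTop_atTop.comp
  exact Filter.tendsto_atTop_mono (f := fun s : ℕ => s) (fun s => by omega) Filter.tendsto_id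

lemma ratio_nn : Tendsto (fun s : ℕ => (((2 * (s + 1) + 1 : ℕ) : ℝ) / ((2 * s + 1 : ℕ) : ℝ) : ℝ))
    atTop (𝓝 1) := by
  have e : ∀ s : ℕ, ((2 * (s + 1) + 1 : ℕ) : ℝ) / ((2 * s + 1 : ℕ) : ℝ) =
      1 + 2 * (1 / ((2 * s + 1 : ℕ) : ℝ)) := by
    intro s
    have h : ((2 * s + 1 : ℕ) : ℝ) ≠ 0 := by exact_mod_cast (by omega : 2 * s + 1 ≠ 0)
    field_simp
    push_cast
    ring
  simp only [e]
  have := (inv_nn_tendsto.const_mul 2).const_add 1
  simpa using this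

theorem phs_ratio (W e : ℤ) : Tendsto (fun s : ℕ => phs W e (s + 1) / phs W e s) atTop
    (𝓝 ((-1) ^ W * Complex.I ^ e)) := by
  have hd : Tendsto (fun s : ℕ => ((1 / ((2 * s + 1 : ℕ) : ℝ) -
      1 / ((2 * (s + 1) + 1 : ℕ) : ℝ) : ℝ) : ℂ)) atTop (𝓝 0) := by
    have h3 : Tendsto (fun s : ℕ => (1 / ((2 * (s + 1) + 1 : ℕ) : ℝ) : ℝ)) atTop (𝓝 0) :=
      inv_nn_tendsto.comp (tendsto_add_atTop_nat 1)
    have h4 := inv_nn_tendsto.sub h3
    rw [sub_zero] at h4
    exact (Complex.continuous_ofReal.tendsto 0).comp h4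
  have key : ∀ s : ℕ, phs W e (s + 1) / phs W e s = (-1) ^ W * Complex.I ^ e *
      Complex.exp (-(Real.pi * Complex.I * (2 * W + e) / 4) * ((1 / ((2 * s + 1 : ℕ) : ℝ) -
        1 / ((2 * (s + 1) + 1 : ℕ) : ℝ) : ℝ) : ℂ)) := by
    intro s
    have h1 : ((2 * s + 1 : ℕ) : ℂ) ≠ 0 := by exact_mod_cast (by omega : 2 * s + 1 ≠ 0)
    have h2 : ((2 * (s + 1) + 1 : ℕ) : ℂ) ≠ 0 := by
      exact_mod_cast (by omega : 2 * (s + 1) + 1 ≠ 0)
    have e1 : ((-1 : ℂ)) ^ W = Complex.exp (-(Real.pi * Complex.I * W)) := by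
      have h3 : ((-1 : ℂ)) = Complex.exp (-(Real.pi * Complex.I)) := by
        rw [Complex.exp_neg, Complex.exp_pi_mul_I]
        norm_num
      conv_lhs => rw [h3]
      rw [← Complex.exp_int_mul]
      congr 1
      ring
    have e2 : Complex.I ^ e = Complex.exp (Real.pi * Complex.I * e / 2) := by
      have h3 : Complex.I = Complex.exp (Real.pi / 2 * Complex.I) := by
        rw [Complex.exp_pi_div_two_mul_I]
      conv_lhs => rw [h3]
      rw [← Complex.exp_int_mul]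
      congr 1
      ring
    unfold phs
    rw [e1, e2, ← Complex.exp_add, ← Complex.exp_add, ← Complex.exp_sub, ← Complex.exp_add,
      ← Complex.exp_add]
    congr 1
    push_cast at h1 h2 ⊢
    field_simp
    ring
  simp only [key]
  have h5 := ((Complex.continuous_exp.tendsto _).comp
    (hd.const_mul (-(Real.pi * Complex.I * (2 * W + e) / 4)))).const_mul
    ((-1) ^ W * Complex.I ^ e)
  rw [mul_zero, Complex.exp_zero, mul_one] at h5
  exact h5

lemma orientedWrithe_blk (g : Fin 2) (b : ℤ) : ((blk g b).length : ℤ) = |b| := by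
  unfold blk
  simp

lemma topW_length : ∀ (g : Fin 2) (l : List ℤ), Even (((topW g l).length : ℤ) - l.sum)
  | _, [] => by simp [topW]
  | g, [b] => by
    have hg : g = 0 ∨ g = 1 := by omega
    have habs : ∀ x : ℤ, Even (|x| - x) := by
      intro x
      rcases abs_choice x with h | h
      · rw [h]; simp
      · rw [h]; exact ⟨-x, by ring⟩
    rcases hg with rfl | rfl
    · have e : topW 0 [b] = ((1 : Fin 2), false) :: blk 0 (b - 1) := rfl
      rw [e, List.length_cons, List.sum_singleton]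
      push_cast
      rw [orientedWrithe_blk]
      have := habs (b - 1)
      have e2 : |b - 1| + 1 - b = |b - 1| - (b - 1) := by ring
      rw [e2]
      exact this
    · have e : topW 1 [b] = blk 1 b := rfl
      rw [e, orientedWrithe_blk, List.sum_singleton]
      exact habs b
  | g, b :: c :: l => by
    have habs : ∀ x : ℤ, Even (|x| - x) := by
      intro x
      rcases abs_choice x with h | h
      · rw [h]; simp
      · rw [h]; exact ⟨-x, by ring⟩
    have e : topW g (b :: c :: l) = topW (Fin.rev g) (c :: l) ++ blk g b := rfl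
    have ih := topW_length (Fin.rev g) (c :: l)
    rw [e, List.length_append, List.sum_cons]
    push_cast
    rw [orientedWrithe_blk]
    have e2 : ((topW (Fin.rev g) (c :: l)).length : ℤ) + |b| - (b + (c :: l).sum) =
      (((topW (Fin.rev g) (c :: l)).length : ℤ) - (c :: l).sum) + (|b| - b) := by ring
    rw [e2]
    exact ih.add (habs b)

theorem writhe_parity' {M : ℕ} (b : Fin (M + 1) → ℤ) {δ : ℤ} (hδ : δ = 1 ∨ δ = -1) :
    Even (orientedWrithe (ltWord (List.ofFn b)) ![1, δ, -δ] - ∑ i, b i) := by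
  have ho : ∀ l, Odd ((![1, δ, -δ] : Fin 3 → ℤ) l) := by
    intro l
    rcases hδ with rfl | rfl
    · fin_cases l <;> decide
    · fin_cases l <;> decide
  have h1 := DT.writhe_parity (ltWord (List.ofFn b)) ![1, δ, -δ] ho
  have h2 := topW_length 0 (List.ofFn b)
  rw [List.sum_ofFn] at h2
  have e : orientedWrithe (ltWord (List.ofFn b)) ![1, δ, -δ] - ∑ i, b i =
      (orientedWrithe (ltWord (List.ofFn b)) ![1, δ, -δ] - (ltWord (List.ofFn b)).length) +
      (((topW 0 (List.ofFn b)).length : ℤ) - ∑ i, b i) := by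
    unfold ltWord
    ring
  rw [e]
  exact h1.add h2

lemma ratio_lim {X : ℕ → ℂ} {L : ℂ} (hL : L ≠ 0) (hX : Tendsto X atTop (𝓝 L)) :
    Tendsto (fun s => X (s + 1) / X s) atTop (𝓝 1) := by
  have := (hX.comp (tendsto_add_atTop_nat 1)).div hX hL
  rw [div_self hL] at this
  exact this

theorem main_of_lim {M : ℕ} {b : Fin (M + 1) → ℤ} {y : Fin M → ℂ} {ζ : Fin (M + 1) → ℂ}
    (him : ∀ i, 0 < (ζ i).im) {L : ℂ} (hL : L ≠ 0)
    (hX : Tendsto (fun s : ℕ => ((((2 * s + 1 : ℕ) : ℝ) ^ (2 * (M : ℝ) + 1 / 2) : ℝ) : ℂ) *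
      Complex.exp (-(((2 * s + 1 : ℕ) : ℂ) * TT b y ζ)) *
      II (2 * s + 1) b (fun i => (ζ i).im)) atTop (𝓝 L)) {δ : ℤ}
    (hδ : IsOrientation (ltWord (List.ofFn b)) δ) :
    (∀ᶠ s : ℕ in atTop, twoBridgeKashaev (ltWord (List.ofFn b)) δ (2 * s + 1) ≠ 0) ∧
    Tendsto (fun s : ℕ => twoBridgeKashaev (ltWord (List.ofFn b)) δ (2 * s + 3) /
      twoBridgeKashaev (ltWord (List.ofFn b)) δ (2 * s + 1)) atTop
      (𝓝 ((-Complex.I) ^ (∑ i, b i) * Complex.exp (2 * TT b y ζ))) := by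
  set w := ltWord (List.ofFn b) with hw
  set W := orientedWrithe w ![1, δ, -δ] with hW
  set e := ∑ i, b i with he
  set T := TT b y ζ with hT
  set ρ : Fin (M + 1) → ℝ := fun i => (ζ i).im with hρ
  set X : ℕ → ℂ := fun s : ℕ => ((((2 * s + 1 : ℕ) : ℝ) ^ (2 * (M : ℝ) + 1 / 2) : ℝ) : ℂ) *
      Complex.exp (-(((2 * s + 1 : ℕ) : ℂ) * T)) * II (2 * s + 1) b ρ with hXd
  set F : ℕ → ℂ := fun s : ℕ => ((((2 * s + 1 : ℕ) : ℝ) ^ (2 * (M : ℝ) + 1 / 2) : ℝ) : ℂ) with hF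
  have hn : ∀ s : ℕ, 0 < ((2 * s + 1 : ℕ) : ℝ) := fun s => by positivity
  have hnc : ∀ s : ℕ, ((2 * s + 1 : ℕ) : ℂ) ≠ 0 := fun s => by
    exact_mod_cast (by omega : 2 * s + 1 ≠ 0)
  have hF0 : ∀ s, F s ≠ 0 := fun s => by
    have := Real.rpow_pos_of_pos (hn s) (2 * (M : ℝ) + 1 / 2)
    exact Complex.ofReal_ne_zero.mpr this.ne'
  have hform : ∀ s : ℕ, 1 ≤ s → twoBridgeKashaev w δ (2 * s + 1) =
      phs W e s * (Complex.I * ((2 * s + 1 : ℕ) : ℂ) ^ 2 / 2) ^ (M + 1) *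
        (X s * (F s)⁻¹ * Complex.exp (((2 * s + 1 : ℕ) : ℂ) * T)) := by
    intro s hs
    rw [exact_formula b him δ hs]
    congr 1
    have h1 := hF0 s
    have h2 : Complex.exp (-(((2 * s + 1 : ℕ) : ℂ) * T)) *
        Complex.exp (((2 * s + 1 : ℕ) : ℂ) * T) = 1 := by
      rw [← Complex.exp_add, neg_add_cancel, Complex.exp_zero]
    have h3 : X s = F s * Complex.exp (-(((2 * s + 1 : ℕ) : ℂ) * T)) * II (2 * s + 1) b ρ := rfl
    rw [h3]
    calc II (2 * s + 1) b ρ = (Complex.exp (-(((2 * s + 1 : ℕ) : ℂ) * T)) *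
          Complex.exp (((2 * s + 1 : ℕ) : ℂ) * T)) * (F s * (F s)⁻¹) * II (2 * s + 1) b ρ := by
          rw [h2, mul_inv_cancel₀ h1, one_mul, one_mul]
      _ = _ := by ring
  have hphs : ∀ s, phs W e s ≠ 0 := fun s => mul_ne_zero (Complex.exp_ne_zero _)
    (Complex.exp_ne_zero _)
  have hX0 : ∀ᶠ s in atTop, X s ≠ 0 := hX.eventually_ne hL
  have hG0 : ∀ s : ℕ, (Complex.I * ((2 * s + 1 : ℕ) : ℂ) ^ 2 / 2) ^ (M + 1) ≠ 0 := fun s =>
    pow_ne_zero _ (div_ne_zero (mul_ne_zero Complex.I_ne_zero (pow_ne_zero _ (hnc s)))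
      two_ne_zero)
  refine ⟨?_, ?_⟩
  · filter_upwards [hX0, eventually_ge_atTop 1] with s hs hs1
    rw [hform s hs1]
    exact mul_ne_zero (mul_ne_zero (hphs s) (hG0 s)) (mul_ne_zero (mul_ne_zero hs
      (inv_ne_zero (hF0 s))) (Complex.exp_ne_zero _))
  · have l1 := phs_ratio W e
    have l2 := ratio_lim hL hX
    have l3 : Tendsto (fun s : ℕ => (((((2 * (s + 1) + 1 : ℕ) : ℝ) / ((2 * s + 1 : ℕ) : ℝ)) ^
        (2 * (M + 1)) : ℝ) : ℂ)) atTop (𝓝 1) := by
      have h := ratio_nn.pow (2 * (M + 1))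
      rw [one_pow] at h
      have h2 := (Complex.continuous_ofReal.tendsto _).comp h
      rw [Complex.ofReal_one] at h2
      exact h2
    have l4 : Tendsto (fun s : ℕ => (((((2 * (s + 1) + 1 : ℕ) : ℝ) / ((2 * s + 1 : ℕ) : ℝ)) ^
        (-(2 * (M : ℝ) + 1 / 2)) : ℝ) : ℂ)) atTop (𝓝 1) := by
      have h := ratio_nn.rpow_const (p := -(2 * (M : ℝ) + 1 / 2)) (Or.inl one_ne_zero)
      rw [Real.one_rpow] at h
      have h2 := (Complex.continuous_ofReal.tendsto _).comp h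
      rw [Complex.ofReal_one] at h2
      exact h2
    have l5 := (((l1.mul l2).mul l3).mul l4).mul_const (Complex.exp (2 * T))
    rw [mul_one, mul_one, mul_one] at l5
    have hsgn : ((-1 : ℂ)) ^ W * Complex.I ^ e = (-Complex.I) ^ e := by
      have hev := writhe_parity' b hδ.1
      obtain ⟨k, hk⟩ := hev
      have h1 : W = e + (k + k) := by
        rw [← hk]
        ring
      rw [h1, zpow_add₀ (by norm_num), zpow_add₀ (by norm_num)]
      have h2 : ((-1 : ℂ)) ^ k * (-1) ^ k = 1 := by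
        rw [← mul_zpow]
        norm_num
      rw [h2, mul_one, ← mul_zpow]
      congr 1
      ring
    rw [hsgn] at l5
    refine l5.congr' ?_
    filter_upwards [hX0, eventually_ge_atTop 1] with s hs hs1
    rw [show 2 * s + 3 = 2 * (s + 1) + 1 by ring, hform s hs1, hform (s + 1) (by omega)]
    have h1 := hphs s
    have h2 := hG0 s
    have h3 := hF0 s
    have h4 := hF0 (s + 1)
    have h5 := hnc s
    have e1 : (((((2 * (s + 1) + 1 : ℕ) : ℝ) / ((2 * s + 1 : ℕ) : ℝ)) ^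
        (2 * (M + 1)) : ℝ) : ℂ) = (Complex.I * ((2 * (s + 1) + 1 : ℕ) : ℂ) ^ 2 / 2) ^ (M + 1) /
        (Complex.I * ((2 * s + 1 : ℕ) : ℂ) ^ 2 / 2) ^ (M + 1) := by
      rw [← div_pow, pow_mul, Complex.ofReal_pow]
      congr 1
      rw [Complex.ofReal_pow, Complex.ofReal_div, Complex.ofReal_natCast, Complex.ofReal_natCast]
      have := Complex.I_ne_zero
      field_simp
    have e2 : (((((2 * (s + 1) + 1 : ℕ) : ℝ) / ((2 * s + 1 : ℕ) : ℝ)) ^
        (-(2 * (M : ℝ) + 1 / 2)) : ℝ) : ℂ) = F s / F (s + 1) := by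
      rw [Real.rpow_neg (by positivity), Real.div_rpow (hn _).le (hn _).le, inv_div,
        Complex.ofReal_div]
    have e3 : Complex.exp (2 * T) = Complex.exp (((2 * (s + 1) + 1 : ℕ) : ℂ) * T) /
        Complex.exp (((2 * s + 1 : ℕ) : ℂ) * T) := by
      rw [← Complex.exp_sub]
      congr 1
      push_cast
      ring
    rw [e1, e2, e3]
    have h6 := Complex.exp_ne_zero (((2 * s + 1 : ℕ) : ℂ) * T)
    have h7 := hG0 (s + 1)
    generalize (Complex.I * ((2 * s + 1 : ℕ) : ℂ) ^ 2 / 2) ^ (M + 1) = G at *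
    generalize (Complex.I * ((2 * (s + 1) + 1 : ℕ) : ℂ) ^ 2 / 2) ^ (M + 1) = G' at *
    generalize Complex.exp (((2 * s + 1 : ℕ) : ℂ) * T) = E at *
    generalize Complex.exp (((2 * (s + 1) + 1 : ℕ) : ℂ) * T) = E' at *
    generalize phs W e s = P at *
    generalize phs W e (s + 1) = P' at *
    generalize F s = f at *
    generalize F (s + 1) = f' at *
    have h8 : X s ≠ 0 := hs
    generalize X s = x at *
    generalize X (s + 1) = x' at *
    field_simp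

theorem main : ∃ A : ℕ, ∀ (M : ℕ) (b : Fin (M + 1) → ℤ), 1 ≤ M → (∀ i, (A : ℤ) ≤ |b i|) →
    ∃ (y : Fin M → ℂ) (ζ : Fin (M + 1) → ℂ), Crit b y ζ ∧ ∀ δ : ℤ,
    IsOrientation (ltWord (List.ofFn b)) δ →
    (∀ᶠ s : ℕ in atTop, twoBridgeKashaev (ltWord (List.ofFn b)) δ (2 * s + 1) ≠ 0) ∧
    Tendsto (fun s : ℕ => twoBridgeKashaev (ltWord (List.ofFn b)) δ (2 * s + 3) /
      twoBridgeKashaev (ltWord (List.ofFn b)) δ (2 * s + 1)) atTop
      (𝓝 ((-Complex.I) ^ (∑ i, b i) * Complex.exp (2 * TT b y ζ))) := by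
  obtain ⟨η, hη, hcore⟩ := core
  obtain ⟨A, hA⟩ := exists_crit hη
  refine ⟨A, fun M b hM hb => ?_⟩
  obtain ⟨y, ζ, hc, hy, hz, him⟩ := hA M b hM hb
  obtain ⟨L, hL, hX⟩ := hcore M b y ζ hM hc hy hz him
  exact ⟨y, ζ, hc, fun δ hδ => main_of_lim him hL hX hδ⟩

end Pool.Agent.Work.MP_b30479_gt.LT
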