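import Pool.Agent.Work.MP_b30479_gt.LT.Geo

/-!
# Uniqueness of the positively oriented solution of the gluing equations
-/

namespace Pool.Agent.Work.MP_b30479_gt.LT

open Finset VOL

lemma ph'_re_pos {z : ℂ} (h0 : 0 < z.re) (h1 : z.re < 1 / 2) : 0 < (ph' z).re := by
  have hpi := Real.pi_pos
  have hz : z ∈ strip := ⟨h0, by linarith only [h0, h1]⟩
  have hs := sin_pi_ne hz
  have hn : 0 < Complex.normSq (Complex.sin (Real.pi * z)) := Complex.normSq_pos.mpr hs
  have e1 : (ph' z).re = Real.pi * ((Complex.cos (Real.pi * z)).re *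
      (Complex.sin (Real.pi * z)).re + (Complex.cos (Real.pi * z)).im *
      (Complex.sin (Real.pi * z)).im) / Complex.normSq (Complex.sin (Real.pi * z)) := by
    unfold ph'
    rw [Complex.div_re]
    simp only [Complex.mul_re, Complex.mul_im, Complex.ofReal_re, Complex.ofReal_im, zero_mul,
      sub_zero, add_zero]
    ring
  rw [e1, sin_pi_re, sin_pi_im, cos_pi_re, cos_pi_im]
  apply div_pos _ hn
  apply mul_pos hpi
  have h2 : 0 < Real.sin (Real.pi * z.re) := sin_pi_pos h0 (by linarith only [h0, h1])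
  have h3 : 0 < Real.cos (Real.pi * z.re) := by
    apply Real.cos_pos_of_mem_Ioo
    constructor
    · have : 0 < Real.pi * z.re := by positivity
      linarith only [hpi, this]
    · nlinarith only [h1, hpi]
  have h4 := Real.cosh_sq (Real.pi * z.im)
  have e2 : Real.cos (Real.pi * z.re) * Real.cosh (Real.pi * z.im) *
      (Real.sin (Real.pi * z.re) * Real.cosh (Real.pi * z.im)) +
      -(Real.sin (Real.pi * z.re) * Real.sinh (Real.pi * z.im)) *
      (Real.cos (Real.pi * z.re) * Real.sinh (Real.pi * z.im)) =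
      Real.sin (Real.pi * z.re) * Real.cos (Real.pi * z.re) *
      (Real.cosh (Real.pi * z.im) ^ 2 - Real.sinh (Real.pi * z.im) ^ 2) := by ring
  rw [e2, h4]
  have : Real.sinh (Real.pi * z.im) ^ 2 + 1 - Real.sinh (Real.pi * z.im) ^ 2 = 1 := by ring
  rw [this, mul_one]
  exact mul_pos h2 h3

theorem ph_mono {w w' : ℂ} (h0 : 0 < w.re) (h1 : w.re < 1 / 2) (h0' : 0 < w'.re)
    (h1' : w'.re < 1 / 2) (hne : w ≠ w') :
    0 < ((starRingEnd ℂ) (w' - w) * (ph w' - ph w)).re := by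
  set Δ := w' - w with hΔ
  have hΔ0 : Δ ≠ 0 := sub_ne_zero.mpr (Ne.symm hne)
  have hre : ∀ t : ℝ, t ∈ Set.Icc (0 : ℝ) 1 → 0 < (w + t * Δ).re ∧ (w + t * Δ).re < 1 / 2 := by
    intro t ht
    have e : (w + t * Δ).re = (1 - t) * w.re + t * w'.re := by
      simp [hΔ]
      ring
    rw [e]
    constructor
    · rcases ht.1.eq_or_lt with h | h
      · rw [← h]; simpa using h0
      · have : 0 ≤ (1 - t) * w.re := mul_nonneg (by linarith only [ht, ht.2]) h0.le
        have : 0 < t * w'.re := mul_pos h h0'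
        linarith
    · rcases ht.1.eq_or_lt with h | h
      · rw [← h]; simpa using h1
      · have h5 : 0 ≤ (1 - t) * (1 / 2 - w.re) := mul_nonneg (by linarith only [ht, ht.2]) (by linarith only [h1])
        have h6 : 0 < t * (1 / 2 - w'.re) := mul_pos h (by linarith only [h1'])
        linarith only [h5, h6]
  have hd : ∀ t : ℝ, t ∈ Set.Icc (0 : ℝ) 1 →
      HasDerivAt (fun t : ℝ => ((starRingEnd ℂ) Δ * ph (w + t * Δ)).re)
        (Complex.normSq Δ * (ph' (w + t * Δ)).re) t := by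
    intro t ht
    have h2 := hre t ht
    have h3 : HasDerivAt ph (ph' (w + t * Δ)) (w + t * Δ) := hasDerivAt_ph ⟨h2.1, by linarith only [h0, h1, h2, h2.2]⟩
    have h4 : HasDerivAt (fun t : ℝ => w + (t : ℂ) * Δ) (1 * Δ) t :=
      (((hasDerivAt_id (t : ℂ)).comp_ofReal).mul_const Δ).const_add w
    have h5 := (h3.comp t h4).const_mul ((starRingEnd ℂ) Δ)
    have h6 := (Complex.reCLM.hasFDerivAt.comp_hasDerivAt t h5)
    refine HasDerivAt.congr_deriv h6 ?_
    have e2 : (starRingEnd ℂ) Δ * (ph' (w + t * Δ) * (1 * Δ)) =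
        ((Complex.normSq Δ : ℝ) : ℂ) * ph' (w + t * Δ) := by
      rw [Complex.normSq_eq_conj_mul_self]
      ring
    show (Complex.reCLM) ((starRingEnd ℂ) Δ * (ph' (w + t * Δ) * (1 * Δ))) = _
    rw [e2]
    simp
  obtain ⟨c, hc, hc2⟩ := exists_hasDerivAt_eq_slope
    (fun t : ℝ => ((starRingEnd ℂ) Δ * ph (w + t * Δ)).re)
    (fun t : ℝ => Complex.normSq Δ * (ph' (w + t * Δ)).re) one_pos
    (fun t ht => (hd t ht).continuousAt.continuousWithinAt)
    (fun t ht => hd t ⟨ht.1.le, ht.2.le⟩)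
  have hc3 := hre c ⟨hc.1.le, hc.2.le⟩
  have h7 := ph'_re_pos hc3.1 hc3.2
  have h8 : 0 < Complex.normSq Δ := Complex.normSq_pos.mpr hΔ0
  have e3 : ((starRingEnd ℂ) Δ * (ph w' - ph w)).re =
      (((starRingEnd ℂ) Δ * ph (w + ((1 : ℝ) : ℂ) * Δ)).re -
        ((starRingEnd ℂ) Δ * ph (w + ((0 : ℝ) : ℂ) * Δ)).re) / (1 - 0) := by
    have e4 : w + ((1 : ℝ) : ℂ) * Δ = w' := by rw [hΔ]; push_cast; ring
    have e5 : w + ((0 : ℝ) : ℂ) * Δ = w := by push_cast; ring
    rw [e4, e5, mul_sub, Complex.sub_re]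
    ring
  rw [e3, ← hc2]
  exact mul_pos h8 h7

theorem ph_mono_le {w w' : ℂ} (h0 : 0 < w.re) (h1 : w.re < 1 / 2) (h0' : 0 < w'.re)
    (h1' : w'.re < 1 / 2) : 0 ≤ ((starRingEnd ℂ) (w' - w) * (ph w' - ph w)).re := by
  by_cases hne : w = w'
  · subst hne
    simp
  · exact (ph_mono h0 h1 h0' h1' hne).le

theorem ph_anti {w w' : ℂ} (h0 : 1 / 2 < w.re) (h1 : w.re < 1) (h0' : 1 / 2 < w'.re)
    (h1' : w'.re < 1) (hne : w ≠ w') :
    ((starRingEnd ℂ) (w' - w) * (ph w' - ph w)).re < 0 := by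
  have h := ph_mono (w := 1 - w) (w' := 1 - w') (by simp; linarith only [h1]) (by simp; linarith only [h0])
    (by simp; linarith only [h1']) (by simp; linarith only [h0']) (fun hc => hne (sub_right_injective hc))
  rw [ph_one_sub, ph_one_sub] at h
  have e : (starRingEnd ℂ) (1 - w' - (1 - w)) * (ph w' - ph w) =
      -((starRingEnd ℂ) (w' - w) * (ph w' - ph w)) := by
    simp only [map_sub, map_one]
    ring
  rw [e, Complex.neg_re] at h
  linarith only [h]

theorem ph_anti_le {w w' : ℂ} (h0 : 1 / 2 < w.re) (h1 : w.re < 1) (h0' : 1 / 2 < w'.re)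
    (h1' : w'.re < 1) : ((starRingEnd ℂ) (w' - w) * (ph w' - ph w)).re ≤ 0 := by
  by_cases hne : w = w'
  · subst hne
    simp
  · exact (ph_anti h0 h1 h0' h1' hne).le

/-- the contribution of one ring -/
noncomputable def rgd (w ζ w' ζ' : ℂ) : ℝ :=
  ((starRingEnd ℂ) (w' - w) * ((ph (w' + 1 / 2 + ζ') + ph (w' + 1 / 2 - ζ') - 2 * ph w') -
    (ph (w + 1 / 2 + ζ) + ph (w + 1 / 2 - ζ) - 2 * ph w)) +
  (starRingEnd ℂ) (ζ' - ζ) * (tz w' ζ' - tz w ζ)).re

lemma rgd_eq (w ζ w' ζ' : ℂ) : rgd w ζ w' ζ' =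
    ((starRingEnd ℂ) ((w' + 1 / 2 + ζ') - (w + 1 / 2 + ζ)) *
      (ph (w' + 1 / 2 + ζ') - ph (w + 1 / 2 + ζ))).re +
    ((starRingEnd ℂ) ((w' + 1 / 2 - ζ') - (w + 1 / 2 - ζ)) *
      (ph (w' + 1 / 2 - ζ') - ph (w + 1 / 2 - ζ))).re -
    2 * ((starRingEnd ℂ) (w' - w) * (ph w' - ph w)).re := by
  have e : (2 : ℝ) * ((starRingEnd ℂ) (w' - w) * (ph w' - ph w)).re =
      (2 * ((starRingEnd ℂ) (w' - w) * (ph w' - ph w))).re := by
    simp
  rw [e, ← Complex.add_re, ← Complex.sub_re]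
  unfold rgd tz
  congr 1
  simp only [map_sub, map_add, map_div₀, map_one, map_ofNat]
  ring

lemma pos_re {w ζ : ℂ} (h : Pos w ζ) : (0 < w.re ∧ w.re < 1 / 2) ∧
    (1 / 2 < (w + 1 / 2 + ζ).re ∧ (w + 1 / 2 + ζ).re < 1) ∧
    (1 / 2 < (w + 1 / 2 - ζ).re ∧ (w + 1 / 2 - ζ).re < 1) := by
  obtain ⟨h1, h2⟩ := h
  have h3 := abs_nonneg ζ.re
  have h4 := abs_lt.mp h1
  have h5 := abs_lt.mp h2
  have e1 : (w + 1 / 2 + ζ).re = w.re + 1 / 2 + ζ.re := by simp
  have e2 : (w + 1 / 2 - ζ).re = w.re + 1 / 2 - ζ.re := by simp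
  rw [e1, e2]
  refine ⟨⟨by linarith only [h1, h3], by linarith only [h2, h3]⟩, ⟨by linarith only [h4], by linarith only [h5]⟩, ⟨by linarith only [h4], by linarith only [h5]⟩⟩

lemma rgd_le {w ζ w' ζ' : ℂ} (h : Pos w ζ) (h' : Pos w' ζ') : rgd w ζ w' ζ' ≤ 0 := by
  obtain ⟨a1, a2, a3⟩ := pos_re h
  obtain ⟨b1, b2, b3⟩ := pos_re h'
  rw [rgd_eq]
  have c1 := ph_anti_le a2.1 a2.2 b2.1 b2.2
  have c2 := ph_anti_le a3.1 a3.2 b3.1 b3.2
  have c3 := ph_mono_le a1.1 a1.2 b1.1 b1.2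
  linarith only [c1, c2, c3]

lemma eq_of_rgd {w ζ w' ζ' : ℂ} (h : Pos w ζ) (h' : Pos w' ζ') (h0 : rgd w ζ w' ζ' = 0) :
    w' = w ∧ ζ' = ζ := by
  obtain ⟨a1, a2, a3⟩ := pos_re h
  obtain ⟨b1, b2, b3⟩ := pos_re h'
  rw [rgd_eq] at h0
  have c1 := ph_anti_le a2.1 a2.2 b2.1 b2.2
  have c2 := ph_anti_le a3.1 a3.2 b3.1 b3.2
  have c3 := ph_mono_le a1.1 a1.2 b1.1 b1.2
  have hw : w = w' := by
    by_contra hne
    have := ph_mono a1.1 a1.2 b1.1 b1.2 hne
    linarith only [h0, c1, c2, this]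
  subst hw
  refine ⟨rfl, ?_⟩
  by_contra hne
  have h1 : w + 1 / 2 + ζ ≠ w + 1 / 2 + ζ' := fun hc => hne (add_left_cancel hc).symm
  have := ph_anti a2.1 a2.2 b2.1 b2.2 h1
  linarith only [h0, c2, c3, this]

/-- The positively oriented solution of the gluing equations is unique. -/
theorem geom_unique {M : ℕ} {b : Fin (M + 1) → ℤ} {y y' : Fin M → ℂ} {ζ ζ' : Fin (M + 1) → ℂ}
    (hM : 1 ≤ M) (h : Geom b y ζ) (h' : Geom b y' ζ') : y' = y ∧ ζ' = ζ := by
  have hc := (geom_iff hM h.pos_left h.pos_right).mp h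
  have hc' := (geom_iff hM h'.pos_left h'.pos_right).mp h'
  -- the sum over the rings
  have key : ∑ j : Fin M, (rgd (y j) (ζ j.castSucc) (y' j) (ζ' j.castSucc) +
      rgd (y j) (ζ j.succ) (y' j) (ζ' j.succ)) = 0 := by
    have e1 : ∀ i, (starRingEnd ℂ) (ζ' i - ζ i) * (dz y' ζ' i - dz y ζ i) =
        -((starRingEnd ℂ) (ζ' i - ζ i) * (2 * Real.pi * Complex.I * b i * (ζ' i - ζ i))) := by
      intro i
      have a1 := hc.crit_z i
      have a2 := hc'.crit_z i
      linear_combination (starRingEnd ℂ) (ζ' i - ζ i) * (a2 - a1)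
    have e2 : ∑ i, ((starRingEnd ℂ) (ζ' i - ζ i) * (dz y' ζ' i - dz y ζ i)).re = 0 := by
      apply Finset.sum_eq_zero
      intro i _
      rw [e1]
      have e3 : (starRingEnd ℂ) (ζ' i - ζ i) * (2 * Real.pi * Complex.I * b i * (ζ' i - ζ i)) =
          ((2 * Real.pi * b i * Complex.normSq (ζ' i - ζ i) : ℝ) : ℂ) * Complex.I := by
        have := Complex.normSq_eq_conj_mul_self (z := ζ' i - ζ i)
        push_cast
        rw [this]
        ring
      rw [e3]
      simp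
    have e4 : ∑ i, (starRingEnd ℂ) (ζ' i - ζ i) * (dz y' ζ' i - dz y ζ i) =
        ∑ j : Fin M, ((starRingEnd ℂ) (ζ' j.castSucc - ζ j.castSucc) *
          (tz (y' j) (ζ' j.castSucc) - tz (y j) (ζ j.castSucc)) +
          (starRingEnd ℂ) (ζ' j.succ - ζ j.succ) *
          (tz (y' j) (ζ' j.succ) - tz (y j) (ζ j.succ))) := by
      have e5 : ∀ i, (starRingEnd ℂ) (ζ' i - ζ i) * (dz y' ζ' i - dz y ζ i) =
          ∑ j : Fin M, ((if j.castSucc = i then (starRingEnd ℂ) (ζ' j.castSucc - ζ j.castSucc) *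
          (tz (y' j) (ζ' j.castSucc) - tz (y j) (ζ j.castSucc)) else 0) +
          (if j.succ = i then (starRingEnd ℂ) (ζ' j.succ - ζ j.succ) *
          (tz (y' j) (ζ' j.succ) - tz (y j) (ζ j.succ)) else 0)) := by
        intro i
        unfold dz
        rw [← Finset.sum_sub_distrib, Finset.mul_sum]
        apply Finset.sum_congr rfl
        intro j _
        by_cases h1 : j.castSucc = i
        · by_cases h2 : j.succ = i
          · rw [if_pos h1, if_pos h1, if_pos h1, if_pos h2, if_pos h2, if_pos h2, h1, h2]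
            ring
          · rw [if_pos h1, if_pos h1, if_pos h1, if_neg h2, if_neg h2, if_neg h2, h1]
            ring
        · by_cases h2 : j.succ = i
          · rw [if_neg h1, if_neg h1, if_neg h1, if_pos h2, if_pos h2, if_pos h2, h2]
            ring
          · rw [if_neg h1, if_neg h1, if_neg h1, if_neg h2, if_neg h2, if_neg h2]
            ring
      rw [Finset.sum_congr rfl fun i _ => e5 i, Finset.sum_comm]
      apply Finset.sum_congr rfl
      intro j _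
      rw [Finset.sum_add_distrib, Finset.sum_ite_eq, Finset.sum_ite_eq, if_pos (mem_univ _),
        if_pos (mem_univ _)]
    rw [← Complex.re_sum, e4] at e2
    rw [Complex.re_sum] at e2
    rw [← e2]
    apply Finset.sum_congr rfl
    intro j _
    have t1 := hc.crit_y j
    have t2 := hc'.crit_y j
    unfold rgd
    rw [← Complex.add_re]
    congr 1
    unfold tw at t1 t2
    linear_combination (starRingEnd ℂ) (y' j - y j) * (t2 - t1)
  have hz : ∀ j ∈ (univ : Finset (Fin M)), (rgd (y j) (ζ j.castSucc) (y' j) (ζ' j.castSucc) +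
      rgd (y j) (ζ j.succ) (y' j) (ζ' j.succ)) = 0 := by
    refine (Finset.sum_eq_zero_iff_of_nonpos ?_).mp key
    intro j _
    exact add_nonpos (rgd_le (h.pos_left j) (h'.pos_left j))
      (rgd_le (h.pos_right j) (h'.pos_right j))
  have hz' : ∀ j : Fin M, (y' j = y j ∧ ζ' j.castSucc = ζ j.castSucc) ∧ ζ' j.succ = ζ j.succ := by
    intro j
    have h1 := hz j (mem_univ j)
    have h2 := rgd_le (h.pos_left j) (h'.pos_left j)
    have h3 := rgd_le (h.pos_right j) (h'.pos_right j)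
    exact ⟨eq_of_rgd (h.pos_left j) (h'.pos_left j) (by linarith only [h1, h3, h2]),
      (eq_of_rgd (h.pos_right j) (h'.pos_right j) (by linarith only [h1, h2, h3])).2⟩
  refine ⟨funext fun j => (hz' j).1.1, funext fun i => ?_⟩
  refine Fin.cases ?_ ?_ i
  · exact (hz' ⟨0, hM⟩).1.2
  · intro j
    exact (hz' j).2

end Pool.Agent.Work.MP_b30479_gt.LT
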