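import Pool.Agent.Work.MP_b30479_gt.LT.Mid
import Pool.Agent.Work.MP_b30479_gt.LT.Stmt
import Pool.Agent.Work.MP_b30479_gt.DT.BW

/-!
# The critical value as a sum of values of the Bloch-Wigner dilogarithm
-/

namespace Pool.Agent.Work.MP_b30479_gt.LT

open Finset VOL AX MeasureTheory

theorem norm_ee (w : ℂ) : ‖ee w‖ = Real.exp (-(2 * Real.pi * w.im)) := by
  unfold ee
  rw [Complex.norm_exp]
  congr 1
  simp [Complex.mul_re, Complex.mul_im]

theorem ee_im (w : ℂ) : (ee w).im = Real.exp (-(2 * Real.pi * w.im)) * Real.sin (2 * Real.pi * w.re) := by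
  unfold ee
  rw [Complex.exp_im]
  congr 2
  · simp [Complex.mul_re, Complex.mul_im]
  · simp [Complex.mul_re, Complex.mul_im]

theorem ee_im_pos {w : ℂ} (h0 : 0 < w.re) (h1 : w.re < 1 / 2) : 0 < (ee w).im := by
  rw [ee_im]
  apply mul_pos (Real.exp_pos _)
  have hpi := Real.pi_pos
  exact Real.sin_pos_of_pos_of_lt_pi (by positivity) (by nlinarith only [h1, hpi])

theorem Fh_re_eq_Lr {x ρ : ℝ} (h0 : 0 < x) (h1 : x < 1) (hρ : 0 ≤ ρ) :
    (Fh (x + ρ * Complex.I)).re = DT.Lr ρ x - Real.pi * ρ / 2 := by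
  rcases hρ.eq_or_lt with h | h
  · subst h
    have := Fh_ofReal h0 h1
    simp [this]
  · have hd : ∀ t ∈ Set.Ioo (0 : ℝ) 1,
        HasDerivAt (fun t : ℝ => VC.phr (t + ρ * Complex.I) + DT.Lr ρ t) 0 t := by
      intro t ht
      have h2 := VC.hasDerivAt_phr_re ht.1 ht.2 ρ
      have h4 := DT.hasDerivAt_Lr (x := t) h
      refine (h2.add h4).congr_deriv ?_
      rw [DT.el_eq]
      ring
    have hc := IsOpen.is_const_of_deriv_eq_zero (isOpen_Ioo (a := (0 : ℝ)) (b := 1))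
      isPreconnected_Ioo (fun t ht => (hd t ht).differentiableAt.differentiableWithinAt)
      (fun t ht => (hd t ht).deriv) (x := x) (y := 1 / 2) ⟨h0, h1⟩ ⟨by norm_num, by norm_num⟩
    rw [DT.Lr_half hρ] at hc
    have h5 : VC.phr (((1 / 2 : ℝ) : ℂ) + ρ * Complex.I) = 0 := by
      push_cast
      exact VC.phr_half_im ρ
    rw [h5] at hc
    unfold VC.phr at hc
    linarith only [hc]

/-- `1 - e^{2πiw} = 2 sin(πw) e^{πi(w-1/2)}` -/
theorem one_sub_ee (w : ℂ) : 1 - ee w = 2 * Complex.sin (Real.pi * w) *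
    Complex.exp (Real.pi * (w - 1 / 2) * Complex.I) := by
  unfold ee
  have e1 : Complex.exp (2 * Real.pi * Complex.I * w) =
      Complex.exp (Real.pi * w * Complex.I) * Complex.exp (Real.pi * w * Complex.I) := by
    rw [← Complex.exp_add]
    congr 1
    ring
  have e2 : Complex.exp (Real.pi * (w - 1 / 2) * Complex.I) =
      Complex.exp (Real.pi * w * Complex.I) * (-Complex.I) := by
    have e3 : (Real.pi * (w - 1 / 2) * Complex.I : ℂ) =
        Real.pi * w * Complex.I + -(Real.pi / 2 * Complex.I) := by ring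
    rw [e3, Complex.exp_add, Complex.exp_neg, Complex.exp_pi_div_two_mul_I, Complex.inv_I]
  have e4 : Complex.exp (Real.pi * w * Complex.I) * Complex.exp (-(Real.pi * w * Complex.I)) = 1 := by
    rw [← Complex.exp_add, add_neg_cancel, Complex.exp_zero]
  rw [e1, e2, Complex.sin, neg_mul]
  have hI := Complex.I_sq
  set A := Complex.exp (Real.pi * w * Complex.I)
  set B := Complex.exp (-(Real.pi * w * Complex.I))
  linear_combination (-1 : ℂ) * e4 + (-(A * A) + A * B) * hI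

/-- the argument of `1 - e^{2πiw}` on the strip -/
theorem arg_one_sub_ee {w : ℂ} (hw : w ∈ strip) :
    (1 - ee w).arg = (ph w).im + Real.pi * (w.re - 1 / 2) ∧ |(1 - ee w).arg| < Real.pi := by
  have hpi := Real.pi_pos
  obtain ⟨h0, h1⟩ := hw
  have hne : 2 * Complex.sin (Real.pi * w) ≠ 0 := by
    have := VOL.sin_pi_ne (z := w) ⟨h0, h1⟩
    simpa using this
  have harg1 : (2 * Complex.sin (Real.pi * w)).arg = (ph w).im := by
    unfold ph
    rw [Complex.log_im]
  have hlt : |(2 * Complex.sin (Real.pi * w)).arg| < Real.pi / 2 := by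
    rw [Complex.abs_arg_lt_pi_div_two_iff]
    left
    have := VOL.sin_pi_re_pos (z := w) ⟨h0, h1⟩
    simp only [Complex.mul_re, Complex.re_ofNat, Complex.im_ofNat, zero_mul, sub_zero]
    linarith only [this]
  have harg2 : (Complex.exp (Real.pi * (w - 1 / 2) * Complex.I)).arg = Real.pi * (w.re - 1 / 2) := by
    have e : Complex.exp (Real.pi * (w - 1 / 2) * Complex.I) =
        ((Real.exp (-(Real.pi * w.im)) : ℝ) : ℂ) *
          Complex.exp (((Real.pi * (w.re - 1 / 2) : ℝ) : ℂ) * Complex.I) := by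
      rw [Complex.ofReal_exp, ← Complex.exp_add]
      congr 1
      apply Complex.ext <;> simp [Complex.mul_re, Complex.mul_im]
    rw [e, Complex.arg_real_mul _ (Real.exp_pos _), Complex.exp_mul_I, Complex.arg_cos_add_sin_mul_I]
    constructor <;> nlinarith only [hpi, h0, h1]
  rw [abs_lt] at hlt
  rw [one_sub_ee, Complex.arg_mul hne (Complex.exp_ne_zero _) (by
    rw [harg2]
    constructor <;> nlinarith only [hlt, hpi, h0, h1, hlt.1, hlt.2]), harg2, ← harg1]
  refine ⟨rfl, ?_⟩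
  rw [abs_lt]
  constructor <;> nlinarith only [hlt, hpi, h0, h1, hlt.1, hlt.2]

theorem BWd_ee {w : ℂ} (hw : w ∈ strip) (h : 0 ≤ w.im) :
    DT.BWd (ee w) = -(2 * Real.pi * ((Fh w).re + w.im * (ph w).im)) := by
  have hpi := Real.pi_pos
  obtain ⟨h0, h1⟩ := hw
  have e : w = (w.re : ℂ) + w.im * Complex.I := (Complex.re_add_im w).symm
  have hF : (Fh w).re = DT.Lr w.im w.re - Real.pi * w.im / 2 := by
    conv_lhs => rw [e]
    exact Fh_re_eq_Lr h0 h1 h
  have hL := DT.Lr_series h w.re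
  rw [← e] at hL
  unfold DT.BWd
  rw [norm_ee, Real.log_exp, (arg_one_sub_ee ⟨h0, h1⟩).1, hF, hL]
  unfold ee
  field_simp
  ring

theorem BWd_conj {z : ℂ} (h : (1 - z).arg ≠ Real.pi) : DT.BWd ((starRingEnd ℂ) z) = -DT.BWd z := by
  unfold DT.BWd
  have s0 : (∑' k : ℕ, (starRingEnd ℂ) z ^ (k + 1) / ((k : ℂ) + 1) ^ 2) =
      (starRingEnd ℂ) (∑' k : ℕ, z ^ (k + 1) / ((k : ℂ) + 1) ^ 2) := by
    rw [Complex.conj_tsum]
    congr 1
    ext k
    simp
  have e : 1 - (starRingEnd ℂ) z = (starRingEnd ℂ) (1 - z) := by simp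
  rw [s0, Complex.conj_im, RCLike.norm_conj, e, Complex.arg_conj, if_neg h]
  ring

/-- the Bloch-Wigner dilogarithm of `e^{2πiw}` on the strip -/
theorem BW_ee {w : ℂ} (hw : w ∈ strip) :
    BW (ee w) = -(2 * Real.pi * ((Fh w).re + w.im * (ph w).im)) := by
  have hpi := Real.pi_pos
  rcases le_total 0 w.im with h | h
  · unfold BW
    rw [if_pos, BWd_ee hw h]
    rw [norm_ee, Real.exp_le_one_iff]
    have : 0 ≤ 2 * Real.pi * w.im := by positivity
    linarith only [this]
  · rcases h.eq_or_lt with h' | h'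
    · unfold BW
      rw [if_pos, BWd_ee hw h'.ge]
      rw [norm_ee, h']
      simp
    · have hc : (starRingEnd ℂ) w ∈ strip := VOL.strip_conj hw
      have hn : ¬ ‖ee w‖ ≤ 1 := by
        rw [norm_ee, Real.exp_le_one_iff, not_le]
        nlinarith only [hpi, h']
      have e1 : (ee w)⁻¹ = (starRingEnd ℂ) (ee ((starRingEnd ℂ) w)) := by
        unfold ee
        rw [← Complex.exp_conj, ← Complex.exp_neg]
        congr 1
        simp only [map_mul, Complex.conj_ofReal, Complex.conj_I, map_ofNat, Complex.conj_conj]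
        ring
      have h2 := BWd_ee hc (by rw [Complex.conj_im]; linarith only [h'])
      have h3 : (1 - ee ((starRingEnd ℂ) w)).arg ≠ Real.pi := by
        have := (arg_one_sub_ee hc).2
        rw [abs_lt] at this
        exact this.2.ne
      unfold BW
      rw [if_neg hn, e1, BWd_conj h3, neg_neg, h2, VOL.Fh_conj hw, VOL.ph_conj hw]
      simp

theorem BW_ee_one_sub {w : ℂ} (hw : w ∈ strip) : BW (ee (1 - w)) = -BW (ee w) := by
  rw [BW_ee hw, BW_ee (VOL.strip_one_sub hw), VOL.Fh_one_sub, VOL.ph_one_sub]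
  simp
  ring

theorem ee_add (w z : ℂ) : ee (w + z) = ee w * ee z := by
  unfold ee
  rw [← Complex.exp_add]
  congr 1
  ring

theorem ee_neg (w : ℂ) : ee (-w) = (ee w)⁻¹ := by
  unfold ee
  rw [← Complex.exp_neg]
  congr 1
  ring

theorem ee_half : ee (1 / 2) = -1 := by
  unfold ee
  rw [show (2 * Real.pi * Complex.I * (1 / 2) : ℂ) = Real.pi * Complex.I by ring,
    Complex.exp_pi_mul_I]

theorem ee_one : ee 1 = 1 := by
  unfold ee
  rw [mul_one, Complex.exp_two_pi_mul_I]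

theorem ee_ne (w : ℂ) : ee w ≠ 0 := Complex.exp_ne_zero _

theorem shape_one (w ζ : ℂ) : -(ee ζ / ee w) = ee (1 / 2 - w + ζ) := by
  rw [ee_add, sub_eq_add_neg, ee_add, ee_half, ee_neg]
  field_simp

theorem shape_two (w ζ : ℂ) : -(1 / (ee ζ * ee w)) = ee (1 / 2 - w - ζ) := by
  rw [sub_eq_add_neg, ee_add, sub_eq_add_neg, ee_add, ee_half, ee_neg, ee_neg]
  have h1 := ee_ne w
  have h2 := ee_ne ζ
  field_simp

/-- all shapes have positive imaginary part -/
theorem shapes_pos {w ζ : ℂ} (h0 : 0 < w.re) (h1 : w.re < 1 / 2) (h2 : |ζ.re| < w.re)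
    (h3 : w.re + |ζ.re| < 1 / 2) : 0 < (ee w).im ∧ 0 < (-(ee ζ / ee w)).im ∧
      0 < (-(1 / (ee ζ * ee w))).im := by
  have h4 := le_abs_self ζ.re
  have h5 := neg_abs_le ζ.re
  rw [shape_one, shape_two]
  refine ⟨ee_im_pos h0 h1, ee_im_pos ?_ ?_, ee_im_pos ?_ ?_⟩
  · simp
    linarith only [h3, h5]
  · simp
    linarith only [h2, h4]
  · simp
    linarith only [h3, h4]
  · simp
    linarith only [h2, h5]

/-- the ring function -/
theorem rvol_eq {w ζ : ℂ} (h0 : 0 < w.re) (h1 : w.re < 1 / 2) (h3 : w.re + |ζ.re| < 1 / 2) :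
    rvol (ee w) (ee ζ) = 2 * Real.pi * ((Fh (w + 1 / 2 + ζ) + Fh (w + 1 / 2 - ζ) - 2 * Fh w).re +
      w.im * (ph (w + 1 / 2 + ζ) + ph (w + 1 / 2 - ζ) - 2 * ph w).im + ζ.im * (tz w ζ).im) := by
  have h4 := le_abs_self ζ.re
  have h5 := neg_abs_le ζ.re
  have m1 : w + 1 / 2 + ζ ∈ strip := by
    constructor
    · rw [re_add_half]; linarith only [h0, h3, h5]
    · rw [re_add_half]; linarith only [h3, h4]
  have m2 : w + 1 / 2 - ζ ∈ strip := by
    constructor
    · rw [re_sub_half]; linarith only [h0, h3, h4]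
    · rw [re_sub_half]; linarith only [h3, h5]
  have m0 : w ∈ strip := ⟨h0, by linarith only [h0, h1]⟩
  unfold rvol
  have e1 : 1 / 2 - w - ζ = 1 - (w + 1 / 2 + ζ) := by ring
  have e2 : 1 / 2 - w + ζ = 1 - (w + 1 / 2 - ζ) := by ring
  rw [shape_one, shape_two, e1, e2, BW_ee_one_sub m1, BW_ee_one_sub m2, BW_ee m0, BW_ee m1,
    BW_ee m2]
  unfold tz
  have i1 : (w + 1 / 2 + ζ).im = w.im + ζ.im := by simp
  have i2 : (w + 1 / 2 - ζ).im = w.im - ζ.im := by simp
  rw [i1, i2]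
  simp only [Complex.add_re, Complex.sub_re, Complex.add_im, Complex.sub_im, Complex.mul_re,
    Complex.mul_im, Complex.re_ofNat, Complex.im_ofNat, zero_mul, sub_zero, add_zero]
  ring

/-- at a critical point the real part of the potential is the volume, up to the factor `2π` -/
theorem vol_TT {M : ℕ} {b : Fin (M + 1) → ℤ} {y : Fin M → ℂ} {ζ : Fin (M + 1) → ℂ}
    (h : Crit b y ζ) (h0 : ∀ j, 0 < (y j).re) (h1 : ∀ j : Fin M, (y j).re + |(ζ j.castSucc).re| < 1 / 2)
    (h2 : ∀ j : Fin M, (y j).re + |(ζ j.succ).re| < 1 / 2) :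
    2 * Real.pi * (TT b y ζ).re = volL y ζ := by
  have h3 : ∀ j, (y j).re < 1 / 2 := fun j => by
    have := abs_nonneg (ζ j.castSucc).re
    linarith only [this, h1, h1 j]
  unfold volL
  have e1 : ∀ j : Fin M, rvol (ee (y j)) (ee (ζ j.castSucc)) + rvol (ee (y j)) (ee (ζ j.succ)) =
      2 * Real.pi * ((tp (y j) (ζ j.castSucc) (ζ j.succ)).re +
        ((ζ j.castSucc).im * (tz (y j) (ζ j.castSucc)).im + (ζ j.succ).im * (tz (y j) (ζ j.succ)).im)) := by
    intro j
    rw [rvol_eq (h0 j) (h3 j) (h1 j), rvol_eq (h0 j) (h3 j) (h2 j)]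
    have hc := congrArg Complex.im (h.crit_y j)
    unfold tw at hc
    unfold tp
    simp only [Complex.add_re, Complex.sub_re, Complex.add_im, Complex.sub_im, Complex.mul_re,
      Complex.mul_im, Complex.re_ofNat, Complex.im_ofNat, zero_mul, sub_zero, add_zero,
      Complex.zero_im] at hc ⊢
    linear_combination (2 * Real.pi * (y j).im) * hc
  rw [sum_congr rfl fun j _ => e1 j, ← mul_sum, sum_add_distrib]
  congr 1
  -- the derivative with respect to `ζ i`
  have e2 : ∑ j : Fin M, ((ζ j.castSucc).im * (tz (y j) (ζ j.castSucc)).im +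
      (ζ j.succ).im * (tz (y j) (ζ j.succ)).im) = ∑ i, (ζ i).im * (dz y ζ i).im := by
    have e3 : ∀ i, (ζ i).im * (dz y ζ i).im = ∑ j : Fin M,
        ((if j.castSucc = i then (ζ i).im * (tz (y j) (ζ i)).im else 0) +
          (if j.succ = i then (ζ i).im * (tz (y j) (ζ i)).im else 0)) := by
      intro i
      unfold dz
      rw [Complex.im_sum, mul_sum]
      refine sum_congr rfl fun j _ => ?_
      rw [Complex.add_im]
      split_ifs <;> simp [mul_add]
    rw [sum_congr rfl fun i _ => e3 i, sum_comm]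
    refine sum_congr rfl fun j _ => ?_
    rw [sum_add_distrib]
    simp
  rw [e2]
  unfold TT
  rw [Complex.add_re, Complex.re_sum, Complex.re_sum]
  have e4 : ∀ i, (ζ i).im * (dz y ζ i).im =
      (Real.pi * Complex.I * b i * ζ i ^ 2 + 2 * Real.pi * Complex.I * ζ i).re := by
    intro i
    have hc := congrArg Complex.im (h.crit_z i)
    have e5 : (2 * Real.pi * Complex.I * (b i * ζ i + 1) : ℂ).im = 2 * Real.pi * (b i * (ζ i).re + 1) := by
      simp [Complex.mul_re, Complex.mul_im]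
    rw [Complex.add_im, e5, Complex.zero_im] at hc
    have e6 : (Real.pi * Complex.I * b i * ζ i ^ 2 + 2 * Real.pi * Complex.I * ζ i : ℂ).re =
        -(2 * Real.pi * b i * (ζ i).re * (ζ i).im) - 2 * Real.pi * (ζ i).im := by
      rw [sq]
      simp [Complex.mul_re, Complex.mul_im]
      ring
    rw [e6]
    have e7 : (dz y ζ i).im = -(2 * Real.pi * (b i * (ζ i).re + 1)) := by linarith only [hc]
    rw [e7]
    ring
  rw [sum_congr rfl fun i _ => (e4 i).symm]
  ring

/-! ### the gluing equations in exponential form -/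

/-- `1 - e^{2πiw} = e^{ph w} e^{πi(w-1/2)}` on the strip -/
theorem one_sub_ee' {w : ℂ} (hw : w ∈ strip) :
    1 - ee w = Complex.exp (ph w + Real.pi * (w - 1 / 2) * Complex.I) := by
  rw [one_sub_ee, Complex.exp_add, VOL.exp_ph hw]

theorem ee_two (w ζ : ℂ) : 1 - ee (w + 1 / 2 + ζ) = 1 + ee w * ee ζ ∧
    1 - ee (w + 1 / 2 - ζ) = 1 + ee w / ee ζ := by
  constructor
  · rw [ee_add, ee_add, ee_half]
    ring
  · rw [sub_eq_add_neg (w + 1 / 2), ee_add, ee_add, ee_half, ee_neg]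
    have := ee_ne ζ
    field_simp
    ring

theorem strip_two {w ζ : ℂ} (h0 : 0 < w.re) (h3 : w.re + |ζ.re| < 1 / 2) :
    w + 1 / 2 + ζ ∈ strip ∧ w + 1 / 2 - ζ ∈ strip := by
  have h4 := le_abs_self ζ.re
  have h5 := neg_abs_le ζ.re
  constructor
  · constructor
    · rw [re_add_half]; linarith only [h0, h3, h5]
    · rw [re_add_half]; linarith only [h3, h4]
  · constructor
    · rw [re_sub_half]; linarith only [h0, h3, h4]
    · rw [re_sub_half]; linarith only [h3, h5]

/-- the gluing equation at a turning point -/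
theorem glue_y {w ζ ζ' : ℂ} (h : tw w ζ ζ' = 0) (h0 : 0 < w.re) (h1 : w.re + |ζ.re| < 1 / 2)
    (h2 : w.re + |ζ'.re| < 1 / 2) :
    (1 + ee w * ee ζ) * (1 + ee w / ee ζ) * ((1 + ee w * ee ζ') * (1 + ee w / ee ζ')) =
      (1 - ee w) ^ 4 := by
  have m0 : w ∈ strip := ⟨h0, by linarith only [h0, h1, abs_nonneg ζ.re]⟩
  obtain ⟨m1, m2⟩ := strip_two h0 h1
  obtain ⟨m3, m4⟩ := strip_two h0 h2
  rw [← (ee_two w ζ).1, ← (ee_two w ζ).2, ← (ee_two w ζ').1, ← (ee_two w ζ').2, one_sub_ee' m0,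
    one_sub_ee' m1, one_sub_ee' m2, one_sub_ee' m3, one_sub_ee' m4, ← Complex.exp_add,
    ← Complex.exp_add, ← Complex.exp_add, ← Complex.exp_nat_mul]
  have h5 : ph (w + 1 / 2 + ζ) + Real.pi * (w + 1 / 2 + ζ - 1 / 2) * Complex.I +
      (ph (w + 1 / 2 - ζ) + Real.pi * (w + 1 / 2 - ζ - 1 / 2) * Complex.I) +
      (ph (w + 1 / 2 + ζ') + Real.pi * (w + 1 / 2 + ζ' - 1 / 2) * Complex.I +
      (ph (w + 1 / 2 - ζ') + Real.pi * (w + 1 / 2 - ζ' - 1 / 2) * Complex.I)) =
      ((4 : ℕ) : ℂ) * (ph w + Real.pi * (w - 1 / 2) * Complex.I) + 2 * Real.pi * Complex.I := by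
    unfold tw at h
    push_cast
    linear_combination h
  rw [h5, Complex.exp_add, Complex.exp_two_pi_mul_I, mul_one]

theorem exp_tz {w ζ : ℂ} (h0 : 0 < w.re) (h1 : w.re + |ζ.re| < 1 / 2) :
    Complex.exp (tz w ζ) = (1 + ee w * ee ζ) / (ee w + ee ζ) := by
  obtain ⟨m1, m2⟩ := strip_two h0 h1
  have hne : (1 : ℂ) - ee (w + 1 / 2 - ζ) ≠ 0 := by
    rw [one_sub_ee' m2]
    exact Complex.exp_ne_zero _
  have e1 : ee w + ee ζ = ee ζ * (1 - ee (w + 1 / 2 - ζ)) := by
    rw [(ee_two w ζ).2]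
    have := ee_ne ζ
    field_simp
    ring
  rw [eq_div_iff (by rw [e1]; exact mul_ne_zero (ee_ne ζ) hne), e1, ← (ee_two w ζ).1,
    one_sub_ee' m1, one_sub_ee' m2]
  unfold tz ee
  rw [← Complex.exp_add, ← Complex.exp_add]
  congr 1
  ring

/-- the filling equation of a twist region -/
theorem glue_z {M : ℕ} {b : Fin (M + 1) → ℤ} {y : Fin M → ℂ} {ζ : Fin (M + 1) → ℂ}
    (h : Crit b y ζ) (h0 : ∀ j, 0 < (y j).re) (h1 : ∀ j : Fin M, (y j).re + |(ζ j.castSucc).re| < 1 / 2)
    (h2 : ∀ j : Fin M, (y j).re + |(ζ j.succ).re| < 1 / 2) (i : Fin (M + 1)) :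
    ee (ζ i) ^ b i * ∏ j : Fin M,
      ((if j.castSucc = i then (1 + ee (y j) * ee (ζ i)) / (ee (y j) + ee (ζ i)) else 1) *
        (if j.succ = i then (1 + ee (y j) * ee (ζ i)) / (ee (y j) + ee (ζ i)) else 1)) = 1 := by
  have e1 : ∀ j : Fin M,
      ((if j.castSucc = i then (1 + ee (y j) * ee (ζ i)) / (ee (y j) + ee (ζ i)) else 1) *
        (if j.succ = i then (1 + ee (y j) * ee (ζ i)) / (ee (y j) + ee (ζ i)) else 1)) =
      Complex.exp ((if j.castSucc = i then tz (y j) (ζ i) else 0) +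
        (if j.succ = i then tz (y j) (ζ i) else 0)) := by
    intro j
    rw [Complex.exp_add]
    congr 1
    · split_ifs with hj
      · subst hj
        rw [exp_tz (h0 j) (h1 j)]
      · rw [Complex.exp_zero]
    · split_ifs with hj
      · subst hj
        rw [exp_tz (h0 j) (h2 j)]
      · rw [Complex.exp_zero]
  rw [prod_congr rfl fun j _ => e1 j, ← Complex.exp_sum]
  have e2 : ∑ j : Fin M, ((if j.castSucc = i then tz (y j) (ζ i) else 0) +
      (if j.succ = i then tz (y j) (ζ i) else 0)) = dz y ζ i := rfl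
  have e3 : ee (ζ i) ^ b i = Complex.exp (2 * Real.pi * Complex.I * (b i * ζ i)) := by
    unfold ee
    rw [← Complex.exp_int_mul]
    congr 1
    ring
  rw [e2, e3, ← Complex.exp_add]
  have e4 : 2 * Real.pi * Complex.I * (b i * ζ i) + dz y ζ i = -(2 * Real.pi * Complex.I) := by
    linear_combination h.crit_z i
  rw [e4, Complex.exp_neg, Complex.exp_two_pi_mul_I, inv_one]

end Pool.Agent.Work.MP_b30479_gt.LT
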