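import Pool.Agent.Work.MP_b30479_gt.LT.BWgen
import Pool.Agent.Work.MP_b30479_gt.VC.PhiCx

/-!
# Positivity of the Bloch-Wigner dilogarithm on the upper half plane
-/

namespace Pool.Agent.Work.MP_b30479_gt.LT

open Finset VOL AX MeasureTheory

theorem thr_lt {x : ℝ} (h0 : 0 < x) (h1 : x < 1 / 2) (y : ℝ) :
    VC.thr (x + y * Complex.I) < Real.pi * (1 / 2 - x) := by
  have hpi := Real.pi_pos
  have hs := sin_pi_pos h0 (by linarith only [h0, h1])
  have hc : 0 < Real.cos (Real.pi * x) :=
    Real.cos_pos_of_mem_Ioo ⟨by nlinarith only [hpi, h0], by nlinarith only [h1, hpi]⟩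
  have hct : 0 < Real.cos (Real.pi * x) / Real.sin (Real.pi * x) := div_pos hc hs
  have e : Real.arctan (Real.cos (Real.pi * x) / Real.sin (Real.pi * x)) =
      Real.pi * (1 / 2 - x) := by
    rw [← VC.tan_half_sub, Real.arctan_tan (by nlinarith only [hpi, h1]) (by nlinarith only [h0, hpi])]
    ring
  rw [VC.thr_eq_arctan h0 (by linarith only [h0, h1]), ← e]
  apply Real.arctan_strictMono
  have h2 : Real.sinh (Real.pi * y) / Real.cosh (Real.pi * y) < 1 := by
    rw [div_lt_one (Real.cosh_pos _)]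
    exact Real.sinh_lt_cosh _
  calc Real.cos (Real.pi * x) / Real.sin (Real.pi * x) *
        (Real.sinh (Real.pi * y) / Real.cosh (Real.pi * y))
      < Real.cos (Real.pi * x) / Real.sin (Real.pi * x) * 1 := mul_lt_mul_of_pos_left h2 hct
    _ = _ := mul_one _

theorem thr_mono {x : ℝ} (h0 : 0 < x) (h1 : x < 1 / 2) {y y' : ℝ} (h : y ≤ y') :
    VC.thr (x + y * Complex.I) ≤ VC.thr (x + y' * Complex.I) := by
  have hpi := Real.pi_pos
  have hs := sin_pi_pos h0 (by linarith only [h0, h1])
  have hc : 0 < Real.cos (Real.pi * x) :=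
    Real.cos_pos_of_mem_Ioo ⟨by nlinarith only [hpi, h0], by nlinarith only [h1, hpi]⟩
  rw [VC.thr_eq_arctan h0 (by linarith only [h0, h1]), VC.thr_eq_arctan h0 (by linarith only [h0, h1])]
  apply Real.arctan_strictMono.monotone
  apply mul_le_mul_of_nonneg_left _ (div_pos hc hs).le
  rw [div_le_div_iff₀ (Real.cosh_pos _) (Real.cosh_pos _)]
  have h2 : 0 ≤ Real.sinh (Real.pi * y' - Real.pi * y) :=
    Real.sinh_nonneg_iff.mpr (by nlinarith only [h0, h1, h, hpi])
  rw [Real.sinh_sub] at h2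
  linarith only [h2]

theorem phr_pos {x : ℝ} (h0 : 0 < x) (h1 : x < 1 / 2) : 0 < VC.phr x := by
  obtain ⟨t, ht, ht'⟩ := exists_hasDerivAt_eq_slope (fun y : ℝ => VC.phr (x + y * Complex.I))
    (fun y : ℝ => VC.thr (x + y * Complex.I)) zero_lt_one
    (fun y _ => (VC.hasDerivAt_phr_im h0 (by linarith only [h0, h1]) y).continuousAt.continuousWithinAt)
    (fun y _ => VC.hasDerivAt_phr_im h0 (by linarith only [h0, h1]) y)
  have h2 := thr_mono h0 h1 ht.2.le
  have h3 := thr_lt h0 h1 1
  have h4 := VC.asymptote_le_phr h0 h1.le 1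
  simp only [Complex.ofReal_zero, zero_mul, add_zero, sub_zero, div_one] at ht'
  linarith only [h2, h3, h4, ht']

theorem phr_gt {x : ℝ} (h0 : 0 < x) (h1 : x < 1 / 2) (y : ℝ) :
    y * VC.thr (x + y * Complex.I) < VC.phr (x + y * Complex.I) := by
  have key : ∀ y : ℝ, 0 ≤ y →
      y * VC.thr (x + y * Complex.I) < VC.phr (x + y * Complex.I) := by
    intro y hy
    rcases hy.eq_or_lt with h | h
    · subst h
      have := phr_pos h0 h1
      simpa using this
    · have h2 := thr_lt h0 h1 y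
      have h3 := VC.asymptote_le_phr h0 h1.le y
      nlinarith only [h3, h, h2]
  rcases le_total 0 y with hy | hy
  · exact key y hy
  · have h := key (-y) (by linarith only [hy])
    rw [VC.phr_neg_im h0 (by linarith only [h0, h1]) y] at h
    have e : VC.thr (x + ((-y : ℝ) : ℂ) * Complex.I) = -VC.thr (x + y * Complex.I) := by
      rw [VC.thr_eq_arctan h0 (by linarith only [h0, h1]), VC.thr_eq_arctan h0 (by linarith only [h0, h1]), mul_neg,
        Real.sinh_neg, Real.cosh_neg, neg_div, mul_neg, Real.arctan_neg]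
    rw [e] at h
    linarith only [h]

/-- `D(z) > 0` for `Im z > 0` -/
theorem BW_pos {w : ℂ} (h0 : 0 < w.re) (h1 : w.re < 1 / 2) : 0 < BW (ee w) := by
  have hpi := Real.pi_pos
  rw [BW_ee ⟨h0, by linarith only [h0, h1]⟩]
  have h := phr_gt h0 h1 w.im
  have e : (w.re : ℂ) + w.im * Complex.I = w := Complex.re_add_im w
  rw [e] at h
  have e2 : VC.thr w = (ph w).im := by
    unfold VC.thr ph
    rw [Complex.log_im]
  rw [e2] at h
  unfold VC.phr at h
  nlinarith only [hpi, h]

end Pool.Agent.Work.MP_b30479_gt.LT
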