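import Pool.Agent.Work.MP_b30479_gt.LT.XReal

/-!
# Explicit version: one ring at a time

A ring is a pair (turning point, neighbouring twist region).  `Rr ρ x σ` (XReal) is the exponent of
`|PP n y ζ| / f(y)²` at `x = y/n`, `ζ = σ ± iρ`, for all real `x`, `σ` and `ρ ≥ 0`.
-/

namespace Pool.Agent.Work.MP_b30479_gt.LT

open Finset VOL AX MeasureTheory

/-- half of `ts` -/
noncomputable def rs : ℝ := -4 * (Fh (1 / 4)).re

/-- the holomorphic ring function: `tp w ζ ζ' = rc w ζ + rc w ζ'` -/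
noncomputable def rc (w ζ : ℂ) : ℂ := Fh (w + 1 / 2 + ζ) + Fh (w + 1 / 2 - ζ) - 2 * Fh w

/-- its derivative with respect to `w`; the derivative with respect to `ζ` is `tz w ζ` -/
noncomputable def rcw (w ζ : ℂ) : ℂ := ph (w + 1 / 2 + ζ) + ph (w + 1 / 2 - ζ) - 2 * ph w

/-- Local data of a ring at a critical point; `lam = 1/2` for a ring of an interior twist region,
`lam = 1` for a ring of the first or last one (so the weight of each twist region is distributed
over its rings). -/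
structure Loc (lam : ℝ) (b : ℤ) (w ζ : ℂ) : Prop where
  hb : 50 ≤ |(b : ℝ)|
  w1 : |w.re - 1 / 4| ≤ 1 / 500
  w2 : |w.im| ≤ 1 / 5000
  z1 : |ζ.re| ≤ 21 / 1000
  z2 : 0 < ζ.im
  z3 : ζ.im ≤ 21 / 25000
  lam0 : 0 ≤ lam
  z4 : lam * ζ.im * |(b : ℝ)| ≤ 21 / 1000
  z5 : lam * ζ.im ≤ 21 / 50000
  gw : |(rcw w ζ).re| ≤ 1 / 100
  gz : |(tz w ζ).re - 2 * Real.pi * lam * ζ.im * b| ≤ 1 / 500

/-- the share of the weight exponent -/
noncomputable def wt (lam : ℝ) (b : ℤ) (ρ σ : ℝ) : ℝ := -(2 * Real.pi * lam * ρ * (1 + b * σ))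

/-- the tangent plane of the ring exponent at the critical point -/
noncomputable def TP (lam : ℝ) (b : ℤ) (w ζ : ℂ) (x σ : ℝ) : ℝ :=
  (rc w ζ).re + wt lam b ζ.im ζ.re + (rcw w ζ).re * (x - w.re) +
    ((tz w ζ).re - 2 * Real.pi * lam * ζ.im * b) * (σ - ζ.re)

end Pool.Agent.Work.MP_b30479_gt.LT
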