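import Pool.Agent.Work.MP_b30479_gt.LT.XSad
import Pool.Agent.Work.MP_b30479_gt.LT.XDefs

/-!
# Location of the critical point for weighted graphs: estimates on one ring
-/

namespace Pool.Agent.Work.MP_b30479_gt.LT

open VOL AX

/-! ### elementary estimates -/

/-- `tan z` for `‖z‖ ≤ 0.067` -/
theorem gl_tan {z : ℂ} (hz : ‖z‖ ≤ 67 / 1000) : Complex.cos z ≠ 0 ∧
    ‖Complex.tan z‖ ≤ 10046 / 10000 * ‖z‖ ∧ ‖Complex.tan z - z‖ ≤ 454 / 100000 * ‖z‖ := by
  have key : ∀ x : ℂ, ‖x‖ ≤ 67 / 1000 → Complex.cos x ≠ 0 ∧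
      ‖1 / Complex.cos x ^ 2‖ ≤ 10046 / 10000 := by
    intro x hx
    have hc := GT.cos_sq_ge (x := x.re)
    have h1 : x.re ^ 2 ≤ (67 / 1000) ^ 2 := by
      rw [← sq_abs]
      exact pow_le_pow_left₀ (abs_nonneg _) ((Complex.abs_re_le_norm x).trans hx) 2
    have hcpos : 99551 / 100000 ≤ Complex.normSq (Complex.cos x) := by
      rw [GT.normSq_cos]
      have h4 := sq_nonneg (Real.sinh x.im)
      norm_num at h1
      linarith
    have hne : Complex.cos x ≠ 0 := by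
      intro h
      rw [h, Complex.normSq_zero] at hcpos
      norm_num at hcpos
    refine ⟨hne, ?_⟩
    rw [norm_div, norm_one, norm_pow, Complex.sq_norm, div_le_iff₀ (by linarith)]
    linarith
  have t1 : ∀ x : ℂ, ‖x‖ ≤ 67 / 1000 → ‖Complex.tan x‖ ≤ 10046 / 10000 * ‖x‖ := by
    intro z h1
    have := Convex.norm_image_sub_le_of_norm_hasDerivWithin_le
      (f := Complex.tan) (f' := fun w => 1 / Complex.cos w ^ 2)
      (s := Metric.closedBall (0 : ℂ) ‖z‖) (C := 10046 / 10000)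
      (x := 0) (y := z) ?_ ?_ (convex_closedBall 0 _) ?_ ?_
    · rw [Complex.tan_zero, sub_zero, sub_zero] at this
      exact this
    · intro x hx
      rw [mem_closedBall_zero_iff] at hx
      exact (Complex.hasDerivAt_tan (key x (hx.trans h1)).1).hasDerivWithinAt
    · intro x hx
      rw [mem_closedBall_zero_iff] at hx
      exact (key x (hx.trans h1)).2
    · rw [mem_closedBall_zero_iff, norm_zero]; exact norm_nonneg _
    · rw [mem_closedBall_zero_iff]
  refine ⟨(key z hz).1, t1 z hz, ?_⟩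
  have := Convex.norm_image_sub_le_of_norm_hasDerivWithin_le
    (f := fun x => Complex.tan x - x) (f' := fun w => 1 / Complex.cos w ^ 2 - 1)
    (s := Metric.closedBall (0 : ℂ) ‖z‖) (C := 454 / 100000)
    (x := 0) (y := z) ?_ ?_ (convex_closedBall 0 _) ?_ ?_
  · simp only [Complex.tan_zero, sub_zero] at this
    exact this
  · intro x hx
    rw [mem_closedBall_zero_iff] at hx
    exact ((Complex.hasDerivAt_tan (key x (hx.trans hz)).1).sub (hasDerivAt_id x)).hasDerivWithinAt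
  · intro x hx
    rw [mem_closedBall_zero_iff] at hx
    have hx' := hx.trans hz
    have hne := (key x hx').1
    have e : 1 / Complex.cos x ^ 2 - 1 = Complex.tan x ^ 2 := by
      rw [Complex.tan_eq_sin_div_cos, div_pow]
      have := Complex.sin_sq_add_cos_sq x
      field_simp
      linear_combination -this
    rw [e, norm_pow]
    have h3 : ‖Complex.tan x‖ ≤ 673082 / 10000000 := (t1 x hx').trans (by linarith)
    have := pow_le_pow_left₀ (norm_nonneg _) h3 2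
    norm_num at this ⊢
    linarith
  · rw [mem_closedBall_zero_iff, norm_zero]; exact norm_nonneg _
  · rw [mem_closedBall_zero_iff]

/-- `artanh u` for `‖u‖ ≤ 0.06731` -/
theorem gl_ath {u : ℂ} (hu : ‖u‖ ≤ 6731 / 100000) : ‖GT.ath u - u‖ ≤ 456 / 100000 * ‖u‖ := by
  have := Convex.norm_image_sub_le_of_norm_hasDerivWithin_le
    (f := fun x => GT.ath x - x) (f' := fun w => 1 / (1 - w ^ 2) - 1)
    (s := Metric.closedBall (0 : ℂ) ‖u‖) (C := 456 / 100000)
    (x := 0) (y := u) ?_ ?_ (convex_closedBall 0 _) ?_ ?_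
  · simp only [GT.ath_zero, sub_zero] at this
    exact this
  · intro x hx
    rw [mem_closedBall_zero_iff] at hx
    exact ((GT.ath_hasDerivAt (lt_of_le_of_lt (hx.trans hu) (by norm_num))).sub
      (hasDerivAt_id x)).hasDerivWithinAt
  · intro x hx
    rw [mem_closedBall_zero_iff] at hx
    have hx2 : ‖x ^ 2‖ ≤ 45307 / 10000000 := by
      rw [norm_pow]
      have := pow_le_pow_left₀ (norm_nonneg _) (hx.trans hu) 2
      norm_num at this ⊢
      linarith
    have h1 : 1 - ‖x ^ 2‖ ≤ ‖1 - x ^ 2‖ := by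
      have := norm_sub_norm_le (1 : ℂ) (x ^ 2)
      rw [norm_one] at this
      exact this
    have hne : (1 : ℂ) - x ^ 2 ≠ 0 := by
      intro h
      rw [h, norm_zero] at h1
      linarith
    have e : 1 / (1 - x ^ 2) - 1 = x ^ 2 / (1 - x ^ 2) := by
      field_simp
      ring
    rw [e, norm_div, div_le_iff₀ (norm_pos_iff.mpr hne)]
    linarith
  · rw [mem_closedBall_zero_iff, norm_zero]; exact norm_nonneg _
  · rw [mem_closedBall_zero_iff]

theorem gl_isq_one : GT.isq 1 = 1 := by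
  unfold GT.isq
  simp

/-- the tangent of a small variable -/
theorem gl_t {ζ : ℂ} (hr : ‖(Real.pi : ℂ) * ζ‖ ≤ 67 / 1000) :
    ‖GT.tz ζ‖ ≤ 10046 / 10000 * ‖(Real.pi : ℂ) * ζ‖ ∧ ‖GT.tz ζ‖ ≤ 6731 / 100000 ∧
    ‖GT.tz ζ - Real.pi * ζ‖ ≤ 454 / 100000 * ‖(Real.pi : ℂ) * ζ‖ ∧
    ‖GT.tz ζ ^ 2‖ ≤ 45307 / 10000000 := by
  obtain ⟨-, a1, a2⟩ := gl_tan hr
  have k1 : ‖GT.tz ζ‖ ≤ 6731 / 100000 := a1.trans (by linarith)
  refine ⟨a1, k1, a2, ?_⟩
  rw [norm_pow]
  have := pow_le_pow_left₀ (norm_nonneg _) k1 2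
  norm_num at this ⊢
  linarith

/-- the hinge factor -/
theorem gl_q {ζ ζ' : ℂ} (h : ZDom ζ) (h' : ZDom ζ') (hr : ‖(Real.pi : ℂ) * ζ‖ ≤ 67 / 1000)
    (hr' : ‖(Real.pi : ℂ) * ζ'‖ ≤ 67 / 1000) :
    ‖GT.isq (1 + GT.tz ζ ^ 2 + GT.tz ζ' ^ 2)‖ ≤ 1 ∧
    ‖GT.isq (1 + GT.tz ζ ^ 2 + GT.tz ζ' ^ 2) - 1‖ ≤ 45307 / 10000000 := by
  have k3 := (xs_K h h').1
  refine ⟨GT.isq_norm_le k3, ?_⟩
  have h1 := GT.isq_lip k3 (L := 1) (by simp)
  rw [gl_isq_one] at h1
  have h2 : ‖1 + GT.tz ζ ^ 2 + GT.tz ζ' ^ 2 - 1‖ ≤ 45307 / 10000000 + 45307 / 10000000 := by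
    rw [show 1 + GT.tz ζ ^ 2 + GT.tz ζ' ^ 2 - 1 = GT.tz ζ ^ 2 + GT.tz ζ' ^ 2 by ring]
    exact (norm_add_le _ _).trans (add_le_add (gl_t hr).2.2.2 (gl_t hr').2.2.2)
  linarith

/-- `ath (t q)` is close to `πζ` -/
theorem gl_u {ζ q : ℂ} (hr : ‖(Real.pi : ℂ) * ζ‖ ≤ 67 / 1000) (k4 : ‖q‖ ≤ 1)
    (k5 : ‖q - 1‖ ≤ 45307 / 10000000) :
    ‖GT.ath (GT.tz ζ * q) - Real.pi * ζ‖ ≤ 14 / 1000 * ‖(Real.pi : ℂ) * ζ‖ := by
  obtain ⟨a1, k1, a2, -⟩ := gl_t hr
  have m1 : ‖GT.tz ζ * q‖ ≤ ‖GT.tz ζ‖ := by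
    rw [norm_mul]
    exact mul_le_of_le_one_right (norm_nonneg _) k4
  have m2 := gl_ath (m1.trans k1)
  have m3 : ‖GT.tz ζ * q - GT.tz ζ‖ ≤ ‖GT.tz ζ‖ * (45307 / 10000000) := by
    rw [show GT.tz ζ * q - GT.tz ζ = GT.tz ζ * (q - 1) by ring, norm_mul]
    exact mul_le_mul_of_nonneg_left k5 (norm_nonneg _)
  have e : GT.ath (GT.tz ζ * q) - Real.pi * ζ = (GT.ath (GT.tz ζ * q) - GT.tz ζ * q) +
      (GT.tz ζ * q - GT.tz ζ) + (GT.tz ζ - Real.pi * ζ) := by ring
  rw [e]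
  have n1 := norm_add_le ((GT.ath (GT.tz ζ * q) - GT.tz ζ * q) +
      (GT.tz ζ * q - GT.tz ζ)) (GT.tz ζ - Real.pi * ζ)
  have n2 := norm_add_le (GT.ath (GT.tz ζ * q) - GT.tz ζ * q) (GT.tz ζ * q - GT.tz ζ)
  have n3 := norm_nonneg ((Real.pi : ℂ) * ζ)
  linarith

/-- `ath (t q)` is close to `ath t` -/
theorem gl_ath_q {ζ q : ℂ} (hr : ‖(Real.pi : ℂ) * ζ‖ ≤ 67 / 1000) (k4 : ‖q‖ ≤ 1)
    (k5 : ‖q - 1‖ ≤ 45307 / 10000000) :
    ‖GT.ath (GT.tz ζ * q) - GT.ath (GT.tz ζ)‖ ≤ 32 / 100000 := by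
  obtain ⟨-, a2, -, -⟩ := gl_t hr
  have m1 : ‖GT.tz ζ * q‖ ≤ ‖GT.tz ζ‖ := by
    rw [norm_mul]
    exact mul_le_of_le_one_right (norm_nonneg _) k4
  have h1 := GT.ath_lip (r := 6731 / 100000) (by norm_num) (m1.trans a2) a2
  have m3 : ‖GT.tz ζ * q - GT.tz ζ‖ ≤ 6731 / 100000 * (45307 / 10000000) := by
    rw [show GT.tz ζ * q - GT.tz ζ = GT.tz ζ * (q - 1) by ring, norm_mul]
    exact mul_le_mul a2 k5 (norm_nonneg _) (by norm_num)
  refine h1.trans ?_
  have h2 : (1 : ℝ) / (1 - (6731 / 100000) ^ 2) ≤ 101 / 100 := by norm_num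
  refine (mul_le_mul h2 m3 (norm_nonneg _) (by norm_num)).trans ?_
  norm_num

theorem gl_log {x : ℂ} (hx : ‖x‖ ≤ 45307 / 10000000) : |Real.log ‖1 + x‖| ≤ 46 / 10000 := by
  have h1 : ‖1 + x‖ ≤ 1 + 45307 / 10000000 := by
    have := norm_add_le (1 : ℂ) x
    rw [norm_one] at this
    linarith
  have h2 : 1 - 45307 / 10000000 ≤ ‖1 + x‖ := by
    have := norm_sub_norm_le (1 : ℂ) (-x)
    rw [norm_one, norm_neg, sub_neg_eq_add] at this
    linarith
  have h0 : 0 < ‖1 + x‖ := by linarith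
  rw [abs_le]
  constructor
  · have h3 := Real.one_sub_inv_le_log_of_pos h0
    have h4 : ‖1 + x‖⁻¹ ≤ (1 - 45307 / 10000000)⁻¹ := inv_anti₀ (by norm_num) h2
    have h5 : ((1 : ℝ) - 45307 / 10000000)⁻¹ ≤ 1 + 46 / 10000 := by norm_num
    linarith
  · have h3 := Real.log_le_sub_one_of_pos h0
    linarith

/-- the hinge variable: real part, imaginary part, and the real part of `rcw` -/
theorem gl_hinge {w ζ ζ' : ℂ} (hw : |w.re - 1 / 4| ≤ 1 / 10) (h : ZDom ζ) (h' : ZDom ζ')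
    (hr : ‖(Real.pi : ℂ) * ζ‖ ≤ 67 / 1000) (hr' : ‖(Real.pi : ℂ) * ζ'‖ ≤ 67 / 1000)
    (hi : |ζ.im| ≤ 82 / 100000) (hi' : |ζ'.im| ≤ 82 / 100000)
    (hc : Complex.cos (Real.pi * w) ≠ 0)
    (hq : GT.tz w = GT.isq (1 + GT.tz ζ ^ 2 + GT.tz ζ' ^ 2)) :
    |w.re - 1 / 4| ≤ 1 / 500 ∧ |w.im| ≤ 1 / 5000 ∧ |(rcw w ζ).re| ≤ 1 / 100 := by
  obtain ⟨a1, a2, a3, a4⟩ := gl_t hr
  obtain ⟨b1, b2, b3, b4⟩ := gl_t hr'
  obtain ⟨-, -, hq2, -⟩ := xs_isq (xs_K h h').1
  rw [← hq] at hq2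
  have hπ := Real.pi_pos
  have hc1 := xs_one_add_sq hc
  have hz1 := xs_one_add_sq h.cos_ne
  -- the equation for `κ`
  set κ : ℂ := GT.tz ζ ^ 2 + GT.tz ζ' ^ 2 with hκ
  have hκre : 0 ≤ κ.re := by
    rw [hκ, Complex.add_re]
    exact add_nonneg h.tz_re h'.tz_re
  have hκn : ‖κ‖ ≤ 90614 / 10000000 := (norm_add_le _ _).trans (by linarith)
  have hK : 1 + GT.tz ζ ^ 2 + GT.tz ζ' ^ 2 = 1 + κ := by rw [hκ]; ring
  rw [hK] at hq2
  have h2κ : (2 : ℂ) + κ ≠ 0 := by
    intro h0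
    have := congrArg Complex.re h0
    simp only [Complex.add_re, Complex.re_ofNat, Complex.zero_re] at this
    linarith
  set W : ℂ := 2 * Real.pi * (w - 1 / 4) with hW
  have hsW : Complex.sin W = -(κ / (2 + κ)) := by
    have e1 : Complex.sin W = -Complex.cos (2 * (Real.pi * w)) := by
      rw [← Complex.sin_sub_pi_div_two]
      congr 1
      rw [hW]
      ring
    rw [e1, Complex.cos_two_mul]
    congr 1
    rw [eq_div_iff h2κ]
    have e2 : (2 + κ) * (GT.tz w ^ 2 * Complex.cos (Real.pi * w) ^ 2) =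
        Complex.cos (Real.pi * w) ^ 2 * (1 + GT.tz w ^ 2) := by
      linear_combination Complex.cos (Real.pi * w) ^ 2 * hq2
    have e3 : (2 + κ) * Complex.cos (Real.pi * w) ^ 2 = 1 + κ := by
      linear_combination (1 + κ) * hc1 + (Complex.cos (Real.pi * w) ^ 2) * (1 : ℂ) -
        Complex.cos (Real.pi * w) ^ 2 * hq2 - Complex.cos (Real.pi * w) ^ 2
    linear_combination 2 * e3
  have hWre : W.re = 2 * Real.pi * (w.re - 1 / 4) := by
    rw [hW, show (2 : ℂ) * Real.pi * (w - 1 / 4) = ((2 * Real.pi : ℝ) : ℂ) * (w - 1 / 4) by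
      push_cast; ring, Complex.re_ofReal_mul, Complex.sub_re]
    norm_num
  have hWim : W.im = 2 * Real.pi * w.im := by
    rw [hW, show (2 : ℂ) * Real.pi * (w - 1 / 4) = ((2 * Real.pi : ℝ) : ℂ) * (w - 1 / 4) by
      push_cast; ring, Complex.im_ofReal_mul, Complex.sub_im]
    norm_num
  have h2n : 2 ≤ ‖2 + κ‖ := by
    have := Complex.re_le_norm (2 + κ)
    simp only [Complex.add_re, Complex.re_ofNat] at this
    linarith
  have hsn : ‖Complex.sin W‖ ≤ 4531 / 1000000 := by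
    rw [hsW, norm_neg, norm_div, div_le_iff₀ (by linarith)]
    linarith
  have hWle : |W.re| ≤ Real.pi / 2 := by
    rw [hWre, abs_mul, abs_of_pos (by positivity)]
    have := mul_le_mul_of_nonneg_left hw (by positivity : 0 ≤ 2 * Real.pi)
    linarith
  have hx : 2 / Real.pi * |W.re| ≤ 4531 / 1000000 := by
    have e1 := Real.mul_abs_le_abs_sin hWle
    have e2 : |Real.sin W.re| ≤ ‖Complex.sin W‖ := by
      have e3 : Real.sin W.re ^ 2 ≤ ‖Complex.sin W‖ ^ 2 := by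
        rw [Complex.sq_norm, GT.normSq_sin]
        linarith [sq_nonneg (Real.sinh W.im)]
      rw [← sq_abs] at e3
      exact (sq_le_sq₀ (abs_nonneg _) (norm_nonneg _)).1 e3
    linarith
  have hw1 : |w.re - 1 / 4| ≤ 1133 / 1000000 := by
    have e1 : 2 / Real.pi * |W.re| = 4 * |w.re - 1 / 4| := by
      rw [hWre, abs_mul, abs_of_pos (by positivity)]
      field_simp
      ring
    rw [e1] at hx
    linarith
  refine ⟨hw1.trans (by norm_num), ?_, ?_⟩
  · -- imaginary part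
    have hWre' : |W.re| ≤ 1 / 100 := by
      rw [hWre, abs_mul, abs_of_pos (by positivity)]
      have h4 : 2 * Real.pi * |w.re - 1 / 4| ≤ 2 * 3.1416 * (1133 / 1000000) :=
        mul_le_mul (by linarith [Real.pi_lt_d4]) hw1 (abs_nonneg _) (by norm_num)
      norm_num at h4
      linarith
    have hcos : 9999 / 10000 ≤ Real.cos W.re := by
      have e1 := Real.one_sub_sq_div_two_le_cos (x := W.re)
      have e2 : W.re ^ 2 ≤ (1 / 100) ^ 2 := by
        rw [← sq_abs]; exact pow_le_pow_left₀ (abs_nonneg _) hWre' 2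
      norm_num at e2
      linarith
    have himt : ∀ x : ℂ, ‖GT.tz x‖ ≤ 6731 / 100000 →
        ‖GT.tz x - Real.pi * x‖ ≤ 454 / 100000 * ‖(Real.pi : ℂ) * x‖ →
        ‖(Real.pi : ℂ) * x‖ ≤ 67 / 1000 → |x.im| ≤ 82 / 100000 →
        |(GT.tz x ^ 2).im| ≤ 390 / 1000000 := by
      intro x e1 e2 e3 e4
      have e5 : |(GT.tz x).im| ≤ 289 / 100000 := by
        have e6 : (GT.tz x).im = (GT.tz x - Real.pi * x).im + Real.pi * x.im := by
          rw [Complex.sub_im, Complex.im_ofReal_mul]; ring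
        rw [e6]
        have e7 := abs_add_le (GT.tz x - Real.pi * x).im (Real.pi * x.im)
        have e8 := Complex.abs_im_le_norm (GT.tz x - Real.pi * x)
        rw [abs_mul, abs_of_pos hπ] at e7
        have e9 : Real.pi * |x.im| ≤ 3.1416 * (82 / 100000) :=
          mul_le_mul Real.pi_lt_d4.le e4 (abs_nonneg _) (by norm_num)
        norm_num at e9
        linarith
      have e6 : (GT.tz x ^ 2).im = 2 * ((GT.tz x).re * (GT.tz x).im) := by
        rw [pow_two, Complex.mul_im]; ring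
      rw [e6, abs_mul, abs_mul, abs_of_pos (by norm_num : (0 : ℝ) < 2)]
      have e7 := (Complex.abs_re_le_norm (GT.tz x)).trans e1
      have e8 := mul_le_mul e7 e5 (abs_nonneg _) (by norm_num)
      norm_num at e8
      linarith
    have hκi : |κ.im| ≤ 780 / 1000000 := by
      rw [hκ, Complex.add_im]
      have e1 := himt ζ a2 a3 hr hi
      have e2 := himt ζ' b2 b3 hr' hi'
      exact (abs_add_le _ _).trans (by linarith)
    have hsi : |(Complex.sin W).im| ≤ 390 / 1000000 := by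
      have e1 : (κ / (2 + κ)).im = 2 * κ.im / Complex.normSq (2 + κ) := by
        rw [Complex.div_im]
        simp only [Complex.add_re, Complex.re_ofNat, Complex.add_im, Complex.im_ofNat, zero_add]
        ring
      have e2 : 4 ≤ Complex.normSq (2 + κ) := by
        rw [← Complex.sq_norm]
        have := pow_le_pow_left₀ (by norm_num) h2n 2
        linarith
      have e3 : 0 < Complex.normSq (2 + κ) := by linarith
      rw [hsW, Complex.neg_im, abs_neg, e1, abs_div, abs_mul,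
        abs_of_pos (by norm_num : (0 : ℝ) < 2), abs_of_pos e3, div_le_iff₀ e3]
      linarith
    have hsi2 : (Complex.sin W).im = Real.cos W.re * Real.sinh W.im := by
      have e1 : Complex.sin W = ((Real.sin W.re * Real.cosh W.im : ℝ) : ℂ) +
          ((Real.cos W.re * Real.sinh W.im : ℝ) : ℂ) * Complex.I := by
        conv_lhs => rw [← Complex.re_add_im W]
        rw [Complex.sin_add_mul_I]
        push_cast
        ring
      rw [e1, Complex.add_im, Complex.ofReal_im, Complex.im_ofReal_mul, Complex.I_im]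
      ring
    have hsh : |Real.sinh W.im| ≤ 391 / 1000000 := by
      rw [hsi2, abs_mul, abs_of_pos (by linarith : 0 < Real.cos W.re)] at hsi
      have := mul_le_mul_of_nonneg_right hcos (abs_nonneg (Real.sinh W.im))
      linarith
    have hWi : |W.im| ≤ 391 / 1000000 := by
      refine le_trans ?_ hsh
      rw [Real.abs_sinh]
      exact Real.self_le_sinh_iff.mpr (abs_nonneg _)
    rw [hWim, abs_mul, abs_of_pos (by positivity)] at hWi
    have := mul_le_mul_of_nonneg_right (by linarith [Real.pi_gt_three] : 6 ≤ 2 * Real.pi)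
      (abs_nonneg w.im)
    linarith
  · -- the real part of `rcw`
    obtain ⟨s0, s1, s2⟩ := xs_strip hw h.re_le
    have hsin : GT.tz w * Complex.cos (Real.pi * w) = Complex.sin (Real.pi * w) := by
      unfold GT.tz
      rw [Complex.tan_eq_sin_div_cos]
      field_simp
    have hexp : Complex.exp (rcw w ζ) * (1 + GT.tz ζ ^ 2) = 1 + GT.tz ζ' ^ 2 := by
      have e2 : Complex.exp (2 * ph w) = (2 * (GT.tz w * Complex.cos (Real.pi * w))) ^ 2 := by
        rw [hsin, ← exp_ph s0, ← Complex.exp_nat_mul]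
        norm_num
      have hq0 : GT.tz w ≠ 0 := by
        intro h0
        rw [h0] at hq2
        norm_num at hq2
      unfold rcw
      rw [Complex.exp_sub, Complex.exp_add, xs_exp_p s1 hc h.cos_ne, xs_exp_m s2 hc h.cos_ne, e2]
      rw [div_mul_eq_mul_div, div_eq_iff (pow_ne_zero 2 (mul_ne_zero two_ne_zero
        (mul_ne_zero hq0 hc)))]
      have e3 : GT.tz w ^ 2 * (1 + GT.tz ζ ^ 2 + GT.tz ζ' ^ 2) = 1 := by rw [hK]; exact hq2
      generalize GT.tz w = q at *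
      generalize GT.tz ζ = t at *
      generalize GT.tz ζ' = t' at *
      generalize Complex.cos (Real.pi * w) = C at *
      generalize Complex.cos (Real.pi * ζ) = c at *
      linear_combination (4 * C ^ 2 * (1 - t ^ 2 * q ^ 2)) * hz1 - 4 * C ^ 2 * e3
    have n1 : 1 - 45307 / 10000000 ≤ ‖1 + GT.tz ζ ^ 2‖ := by
      have := norm_sub_norm_le (1 : ℂ) (-(GT.tz ζ ^ 2))
      rw [norm_one, norm_neg, sub_neg_eq_add] at this
      linarith
    have n2 : 1 - 45307 / 10000000 ≤ ‖1 + GT.tz ζ' ^ 2‖ := by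
      have := norm_sub_norm_le (1 : ℂ) (-(GT.tz ζ' ^ 2))
      rw [norm_one, norm_neg, sub_neg_eq_add] at this
      linarith
    have hlog : (rcw w ζ).re = Real.log ‖1 + GT.tz ζ' ^ 2‖ - Real.log ‖1 + GT.tz ζ ^ 2‖ := by
      have e1 := congrArg (fun z : ℂ => Real.log ‖z‖) hexp
      simp only [norm_mul, Complex.norm_exp] at e1
      rw [Real.log_mul (Real.exp_pos _).ne' (by linarith), Real.log_exp] at e1
      linarith
    rw [hlog]
    have l1 := gl_log a4
    have l2 := gl_log b4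
    rw [abs_le] at l1 l2 ⊢
    constructor <;> linarith [l1.1, l1.2, l2.1, l2.2]

/-- the equations at a vertex -/
theorem gl_real {B d x y er ei e : ℝ} (hB1 : 50 ≤ |B|) (hd1 : 1 ≤ d) (hB2 : 25 * d ≤ |B|)
    (r1 : B * x - d * y = -1 + er) (r2 : B * y + d * x = ei) (hre : |er| ≤ e) (him : |ei| ≤ e)
    (he : e * |B| ≤ 149 / 10000 * d) (he3 : e ≤ 6 / 10000) :
    |x| ≤ 21 / 1000 ∧ 0 < y ∧ y * B ^ 2 ≤ 102 / 100 * d := by
  have hBB : B ^ 2 = |B| ^ 2 := (sq_abs B).symm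
  have he0 : 0 ≤ e := (abs_nonneg _).trans hre
  have s1 : y * (B ^ 2 + d ^ 2) = d + B * ei - d * er := by
    linear_combination B * r2 - d * r1
  have s2 : x * (B ^ 2 + d ^ 2) = -B + B * er + d * ei := by
    linear_combination B * r1 + d * r2
  have b1 : |B * ei| ≤ 149 / 10000 * d := by
    rw [abs_mul]
    calc |B| * |ei| ≤ |B| * e := mul_le_mul_of_nonneg_left him (abs_nonneg _)
      _ ≤ _ := by rw [mul_comm]; exact he
  have hd0 : 0 ≤ d := by linarith
  have b2 : |d * er| ≤ 6 / 10000 * d := by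
    rw [abs_mul, abs_of_nonneg hd0, mul_comm]
    exact mul_le_mul_of_nonneg_right (hre.trans he3) hd0
  have b3 : |B * er| ≤ 149 / 10000 * d := by
    rw [abs_mul]
    calc |B| * |er| ≤ |B| * e := mul_le_mul_of_nonneg_left hre (abs_nonneg _)
      _ ≤ _ := by rw [mul_comm]; exact he
  have b4 : |d * ei| ≤ 6 / 10000 * d := by
    rw [abs_mul, abs_of_nonneg hd0, mul_comm]
    exact mul_le_mul_of_nonneg_right (him.trans he3) hd0
  rw [abs_le] at b1 b2
  have hpos : 0 < B ^ 2 + d ^ 2 := by positivity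
  have hy0 : 0 < y := by
    have : 0 < y * (B ^ 2 + d ^ 2) := by rw [s1]; linarith [b1.1, b2.2]
    exact (mul_pos_iff_of_pos_right hpos).1 this
  refine ⟨?_, hy0, ?_⟩
  · have h1 : |x| * (B ^ 2 + d ^ 2) ≤ |B| + 149 / 10000 * d + 6 / 10000 * d := by
      have e1 : |x| * (B ^ 2 + d ^ 2) = |-B + B * er + d * ei| := by
        rw [← s2, abs_mul, abs_of_pos hpos]
      rw [e1]
      have e2 := abs_add_le (-B + B * er) (d * ei)
      have e3 := abs_add_le (-B) (B * er)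
      rw [abs_neg] at e3
      linarith
    have h2 : |x| * |B| ^ 2 ≤ |B| * (1 + 7 / 10000) := by
      have h3 : |x| * |B| ^ 2 ≤ |x| * (B ^ 2 + d ^ 2) := by
        rw [hBB]
        exact mul_le_mul_of_nonneg_left (by linarith [sq_nonneg d]) (abs_nonneg x)
      linarith
    have h3 : |x| * |B| ≤ 1 + 7 / 10000 := by
      have h4 : |B| * (|x| * |B|) ≤ |B| * (1 + 7 / 10000) := by
        calc |B| * (|x| * |B|) = |x| * |B| ^ 2 := by ring
          _ ≤ _ := h2
      exact le_of_mul_le_mul_left h4 (by linarith)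
    have h5 : |x| * 50 ≤ |x| * |B| := mul_le_mul_of_nonneg_left hB1 (abs_nonneg x)
    linarith
  · have h1 : y * B ^ 2 ≤ y * (B ^ 2 + d ^ 2) :=
      mul_le_mul_of_nonneg_left (by linarith [sq_nonneg d]) hy0.le
    rw [s1] at h1
    linarith [b1.2, b2.1]

/-- the heights -/
theorem gl_heights {B d y : ℝ} (hB1 : 50 ≤ |B|) (hd1 : 1 ≤ d) (hB2 : 25 * d ≤ |B|) (hy : 0 < y)
    (h : y * B ^ 2 ≤ 102 / 100 * d) :
    y ≤ 82 / 100000 ∧ 1 / d * y * |B| ≤ 21 / 1000 ∧ 1 / d * y ≤ 21 / 50000 := by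
  rw [← sq_abs] at h
  have hB0 : 0 < |B| := by linarith
  have hd0 : 0 < d := by linarith
  have h1 : y * |B| ≤ 102 / 2500 := by
    have e1 : |B| * (y * |B|) ≤ |B| * (102 / 2500) := by
      calc |B| * (y * |B|) = y * |B| ^ 2 := by ring
        _ ≤ 102 / 100 * d := h
        _ ≤ |B| * (102 / 2500) := by linarith
    exact le_of_mul_le_mul_left e1 hB0
  have h2 : y * 50 ≤ y * |B| := mul_le_mul_of_nonneg_left hB1 hy.le
  have h3 : 1 / d * y * |B| ≤ 102 / 5000 := by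
    have e1 : |B| * (1 / d * y * |B|) ≤ 102 / 100 := by
      calc |B| * (1 / d * y * |B|) = (y * |B| ^ 2) / d := by field_simp
        _ ≤ (102 / 100 * d) / d := div_le_div_of_nonneg_right h hd0.le
        _ = 102 / 100 := by field_simp
    have e2 : 0 ≤ 1 / d * y * |B| := by positivity
    nlinarith
  have h4 : 1 / d * y * 50 ≤ 1 / d * y * |B| :=
    mul_le_mul_of_nonneg_left hB1 (by positivity)
  refine ⟨by linarith, by linarith, by linarith⟩

end Pool.Agent.Work.MP_b30479_gt.LT
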