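import Pool.Agent.Work.MP_b30479_gt.LT.GDom
import Pool.Agent.Work.MP_b30479_gt.LT.GLoc0

/-!
# Location of the critical point for weighted graphs with `|b_v| ≥ 50`, `|b_v| ≥ 25 deg v`
-/

namespace Pool.Agent.Work.MP_b30479_gt.LT

open Finset VOL AX MeasureTheory Filter Topology

section graph

variable {V E : Type*} [DecidableEq V] [Fintype E]

/-- the weights are large: `|b_v| ≥ 50`, `|b_v| ≥ 25 deg v`, no isolated vertex -/
structure BigG (src tgt : E → V) (b : V → ℤ) : Prop where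
  deg_pos : ∀ v, 1 ≤ degG src tgt v
  ge : ∀ v, 50 ≤ |b v|
  ge_deg : ∀ v, 25 * (degG src tgt v : ℤ) ≤ |b v|

/-- the domain in which the critical point is unique -/
def SadDomG (b : V → ℤ) (y : E → ℂ) (ζ : V → ℂ) : Prop :=
  (∀ e, |(y e).re - 1 / 4| ≤ 1 / 10) ∧ ∀ v, ‖(b v : ℂ) * ζ v + 1‖ ≤ 2 / 5

variable {src tgt : E → V} {b : V → ℤ}

theorem sum_const_ends (v : V) (z : ℂ) :
    ∑ e, ((if src e = v then z else 0) + (if tgt e = v then z else 0)) =
      (degG src tgt v : ℂ) * z := by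
  unfold degG
  push_cast
  rw [Finset.sum_mul]
  refine Finset.sum_congr rfl fun e _ => ?_
  rw [add_mul]
  congr 1 <;> split_ifs <;> simp

/-- bounds at a vertex -/
theorem vertex_bounds (hB : BigG src tgt b) {y : E → ℂ} {ζ : V → ℂ}
    (hc : CritG src tgt b y ζ) (hd : SadDomG b y ζ) (v : V) :
    ‖(Real.pi : ℂ) * ζ v‖ ≤ 67 / 1000 ∧ |(ζ v).re| ≤ 21 / 1000 ∧ 0 < (ζ v).im ∧
    (ζ v).im * (b v : ℝ) ^ 2 ≤ 102 / 100 * degG src tgt v := by
  have hb10 : ∀ v, 10 ≤ |b v| := fun v => le_trans (by norm_num) (hB.ge v)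
  obtain ⟨-, -, hD, -, hq, hS⟩ := sadG_of_crit hb10 hc hd.1 hd.2
  -- crude bounds
  have hbR : ∀ v, (50 : ℝ) ≤ |(b v : ℝ)| := by
    intro v
    have := hB.ge v
    exact_mod_cast this
  have hdR : ∀ v, 25 * (degG src tgt v : ℝ) ≤ |(b v : ℝ)| := by
    intro v
    have := hB.ge_deg v
    exact_mod_cast this
  have hz0 : ∀ v, ‖ζ v‖ ≤ 7 / 5 / |(b v : ℝ)| := by
    intro v
    have h1 := hbR v
    rw [le_div_iff₀ (by linarith)]
    have e1 : ‖ζ v‖ * |(b v : ℝ)| = ‖(b v : ℂ) * ζ v‖ := by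
      rw [norm_mul, Complex.norm_intCast]; ring
    have e2 := norm_sub_le ((b v : ℂ) * ζ v + 1) 1
    rw [add_sub_cancel_right, norm_one] at e2
    have := hd.2 v
    linarith
  have hpz : ∀ v, ‖(Real.pi : ℂ) * ζ v‖ = Real.pi * ‖ζ v‖ := fun v => by
    rw [norm_mul, Complex.norm_real, Real.norm_of_nonneg Real.pi_pos.le]
  have htz : ∀ v, ‖GT.tz (ζ v)‖ ≤ 1.2402 * (Real.pi * ‖ζ v‖) := by
    intro v
    have h1 : ‖(Real.pi : ℂ) * ζ v‖ ≤ 1 / 10 := by
      rw [hpz]
      have h2 := hz0 v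
      have h3 := hbR v
      have h4 : 7 / 5 / |(b v : ℝ)| ≤ 7 / 5 / 50 := by
        apply div_le_div_of_nonneg_left (by norm_num) (by norm_num) h3
      have h5 : Real.pi * ‖ζ v‖ ≤ 3.15 * (7 / 5 / 50) :=
        mul_le_mul (by linarith [Real.pi_lt_d2]) (h2.trans h4) (norm_nonneg _) (by norm_num)
      norm_num at h5
      linarith
    have h2 := (xs_tan_le (z := (Real.pi : ℂ) * ζ v) (by
      have h3 := pow_le_pow_left₀ (norm_nonneg _) h1 2
      rw [Complex.sq_norm, Complex.normSq_apply] at h3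
      norm_num at h3 ⊢
      nlinarith)).2
    rw [hpz] at h2
    exact h2
  have hz1 : ∀ v, ‖ζ v‖ * |(b v : ℝ)| ≤ 10639 / 10000 := by
    intro v
    have e1 : ‖ζ v‖ * |(b v : ℝ)| = ‖(b v : ℂ) * ζ v‖ := by
      rw [norm_mul, Complex.norm_intCast]; ring
    have e2 := norm_sub_le ((b v : ℂ) * ζ v + 1) 1
    rw [add_sub_cancel_right, norm_one] at e2
    have e3 : ‖(b v : ℂ) * ζ v + 1‖ ≤ 3 / 2 * degG src tgt v * ‖ζ v‖ := by
      rw [hS v, norm_mul, norm_neg, norm_div, Complex.norm_I, Complex.norm_real,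
        Real.norm_of_nonneg Real.pi_pos.le, div_mul_eq_mul_div, one_mul, div_le_iff₀ Real.pi_pos]
      refine (SmG_le hD v).trans ?_
      have e4 : 6 / 5 * ‖GT.tz (ζ v)‖ ≤ 3 / 2 * (Real.pi * ‖ζ v‖) := by
        have := mul_nonneg Real.pi_pos.le (norm_nonneg (ζ v))
        have e3 := htz v
        norm_num at e3 ⊢
        linarith
      have e5 := mul_le_mul_of_nonneg_left e4 (Nat.cast_nonneg (α := ℝ) (degG src tgt v))
      refine e5.trans (le_of_eq ?_)
      ring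
    have h1 := hdR v
    have h3 : 3 / 2 * (degG src tgt v : ℝ) * ‖ζ v‖ ≤ 6 / 100 * |(b v : ℝ)| * ‖ζ v‖ :=
      mul_le_mul_of_nonneg_right (by linarith) (norm_nonneg _)
    nlinarith
  have hr : ∀ v, ‖(Real.pi : ℂ) * ζ v‖ ≤ 67 / 1000 := by
    intro v
    rw [hpz]
    have h1 := hz1 v
    have h2 := hbR v
    have h3 := norm_nonneg (ζ v)
    have h4 : ‖ζ v‖ ≤ 10639 / 500000 := by nlinarith
    have h5 : Real.pi * ‖ζ v‖ ≤ 3.1416 * (10639 / 500000) :=
      mul_le_mul Real.pi_lt_d4.le h4 h3 (by norm_num)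
    norm_num at h5
    linarith
  -- the refined equation
  set d : ℝ := (degG src tgt v : ℝ) with hddef
  have hd1 : 1 ≤ d := by
    rw [hddef]
    exact_mod_cast hB.deg_pos v
  have hath : ∀ e : E, ‖GT.ath (GT.tz (ζ v) * qhG src tgt ζ e) - Real.pi * ζ v‖ ≤
      14 / 1000 * (Real.pi * ‖ζ v‖) := by
    intro e
    obtain ⟨q1, q2⟩ := gl_q (hD (src e)) (hD (tgt e)) (hr _) (hr _)
    have := gl_u (hr v) q1 q2
    rw [hpz] at this
    exact this
  have hsum : ‖SmG src tgt ζ v - (degG src tgt v : ℂ) * (Real.pi * ζ v)‖ ≤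
      d * (14 / 1000 * (Real.pi * ‖ζ v‖)) := by
    have h1 := deg_sum src tgt v _ hath
    have e1 : SmG src tgt ζ v - (degG src tgt v : ℂ) * (Real.pi * ζ v) =
        ∑ e : E, ((if src e = v then (GT.ath (GT.tz (ζ v) * qhG src tgt ζ e) - Real.pi * ζ v)
          else 0) + (if tgt e = v then (GT.ath (GT.tz (ζ v) * qhG src tgt ζ e) - Real.pi * ζ v)
          else 0)) := by
      rw [← sum_const_ends (src := src) (tgt := tgt) v, SmG, ← Finset.sum_sub_distrib]
      refine Finset.sum_congr rfl fun e _ => ?_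
      split_ifs <;> ring
    rw [e1]
    exact h1
  set err : ℂ := (b v : ℂ) * ζ v + 1 + Complex.I * (degG src tgt v : ℂ) * ζ v with herr
  have herr1 : ‖err‖ ≤ 14 / 1000 * d * ‖ζ v‖ := by
    have hpi : (Real.pi : ℂ) ≠ 0 := by exact_mod_cast Real.pi_ne_zero
    have e1 : err = -(Complex.I / Real.pi) *
        (SmG src tgt ζ v - (degG src tgt v : ℂ) * (Real.pi * ζ v)) := by
      rw [herr, hS v]
      field_simp
      ring
    rw [e1, norm_mul, norm_neg, norm_div, Complex.norm_I, Complex.norm_real,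
      Real.norm_of_nonneg Real.pi_pos.le, div_mul_eq_mul_div, one_mul, div_le_iff₀ Real.pi_pos]
    refine hsum.trans (le_of_eq ?_)
    ring
  have hB1 := hbR v
  have hB2 := hdR v
  have hB3 := hz1 v
  have hn := norm_nonneg (ζ v)
  have herr2 : ‖err‖ * |(b v : ℝ)| ≤ 149 / 10000 * d := by
    have h1 := mul_le_mul_of_nonneg_right herr1 (abs_nonneg (b v : ℝ))
    nlinarith
  have herr3 : ‖err‖ ≤ 6 / 10000 := by
    nlinarith [norm_nonneg err]
  have r1 : (b v : ℝ) * (ζ v).re - d * (ζ v).im = -1 + err.re := by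
    have e1 : err.re = (b v : ℝ) * (ζ v).re + 1 - d * (ζ v).im := by
      rw [herr, show (b v : ℂ) * ζ v + 1 + Complex.I * (degG src tgt v : ℂ) * ζ v =
        ((b v : ℝ) : ℂ) * ζ v + 1 + ((d : ℝ) : ℂ) * (Complex.I * ζ v) by
          rw [hddef]; push_cast; ring, Complex.add_re, Complex.add_re, Complex.re_ofReal_mul,
        Complex.re_ofReal_mul, Complex.one_re, Complex.I_mul_re]
      ring
    rw [e1]; ring
  have r2 : (b v : ℝ) * (ζ v).im + d * (ζ v).re = err.im := by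
    rw [herr, show (b v : ℂ) * ζ v + 1 + Complex.I * (degG src tgt v : ℂ) * ζ v =
        ((b v : ℝ) : ℂ) * ζ v + 1 + ((d : ℝ) : ℂ) * (Complex.I * ζ v) by
          rw [hddef]; push_cast; ring, Complex.add_im, Complex.add_im, Complex.im_ofReal_mul,
        Complex.im_ofReal_mul, Complex.one_im, Complex.I_mul_im]
    ring
  exact ⟨hr v, gl_real hB1 hd1 hB2 r1 r2 (Complex.abs_re_le_norm err)
    (Complex.abs_im_le_norm err) herr2 herr3⟩

/-- all rings are local at the critical point -/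
theorem locs_G (hB : BigG src tgt b) {y : E → ℂ} {ζ : V → ℂ}
    (hc : CritG src tgt b y ζ) (hd : SadDomG b y ζ) : LocsG src tgt b y ζ := by
  have hb10 : ∀ v, 10 ≤ |b v| := fun v => le_trans (by norm_num) (hB.ge v)
  obtain ⟨-, -, hD, hcos, hq, hS⟩ := sadG_of_crit hb10 hc hd.1 hd.2
  have hv := vertex_bounds hB hc hd
  have hbR : ∀ v, (50 : ℝ) ≤ |(b v : ℝ)| := by
    intro v
    have := hB.ge v
    exact_mod_cast this
  have hdR : ∀ v, 25 * (degG src tgt v : ℝ) ≤ |(b v : ℝ)| := by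
    intro v
    have := hB.ge_deg v
    exact_mod_cast this
  have hd1 : ∀ v, (1 : ℝ) ≤ degG src tgt v := by
    intro v
    exact_mod_cast hB.deg_pos v
  -- heights
  have hy : ∀ v, (ζ v).im ≤ 82 / 100000 ∧ 1 / (degG src tgt v : ℝ) * (ζ v).im * |(b v : ℝ)| ≤
      21 / 1000 ∧ 1 / (degG src tgt v : ℝ) * (ζ v).im ≤ 21 / 50000 := by
    intro v
    exact gl_heights (hbR v) (hd1 v) (hdR v) (hv v).2.2.1 (hv v).2.2.2
  have habs : ∀ v, |(ζ v).im| ≤ 82 / 100000 := fun v => by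
    rw [abs_of_pos (hv v).2.2.1]; exact (hy v).1
  have hqq : ∀ e, ‖qhG src tgt ζ e‖ ≤ 1 ∧ ‖qhG src tgt ζ e - 1‖ ≤ 45307 / 10000000 := fun e =>
    gl_q (hD _) (hD _) (hv _).1 (hv _).1
  -- the derivative with respect to `ζ`
  have htz : ∀ (v : V) (e : E), tz (y e) (ζ v) = -(2 * GT.ath (GT.tz (ζ v) * qhG src tgt ζ e)) := by
    intro v e
    obtain ⟨-, s1, s2⟩ := xs_strip (hd.1 e) (hD v).re_le
    have h3 : ‖GT.tz (ζ v) * GT.tz (y e)‖ < 1 := by
      rw [hq e, norm_mul]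
      have := mul_le_mul (hD v).tz_le (hqq e).1 (norm_nonneg _) (by norm_num)
      linarith
    have h4 := xs_tz s1 s2 (hcos e) (hD v).cos_ne h3
    rw [hq e] at h4
    exact h4
  have hgz : ∀ (v : V) (e : E), |(tz (y e) (ζ v)).re - 2 * Real.pi * lamG src tgt v *
      (ζ v).im * b v| ≤ 1 / 500 := by
    intro v e
    have hclose : ∀ e : E, ‖GT.ath (GT.tz (ζ v) * qhG src tgt ζ e) - GT.ath (GT.tz (ζ v))‖ ≤
        32 / 100000 := fun e => gl_ath_q (hv v).1 (hqq e).1 (hqq e).2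
    have hsum := deg_sum src tgt v _ hclose
    have e1 : ∑ e : E, ((if src e = v then (GT.ath (GT.tz (ζ v) * qhG src tgt ζ e) -
          GT.ath (GT.tz (ζ v))) else 0) + (if tgt e = v then
          (GT.ath (GT.tz (ζ v) * qhG src tgt ζ e) - GT.ath (GT.tz (ζ v))) else 0)) =
        SmG src tgt ζ v - (degG src tgt v : ℂ) * GT.ath (GT.tz (ζ v)) := by
      rw [← sum_const_ends (src := src) (tgt := tgt) v, SmG, ← Finset.sum_sub_distrib]
      refine Finset.sum_congr rfl fun e _ => ?_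
      split_ifs <;> ring
    rw [e1] at hsum
    have hd0 : (0 : ℝ) < degG src tgt v := lt_of_lt_of_le one_pos (hd1 v)
    have e2 : 2 * Real.pi * lamG src tgt v * (ζ v).im * b v =
        -(2 * ((SmG src tgt ζ v).re / degG src tgt v)) := by
      have h1 := congrArg Complex.im (hS v)
      have h2 : ((b v : ℂ) * ζ v + 1).im = (b v : ℝ) * (ζ v).im := by
        rw [Complex.add_im, Complex.one_im, add_zero,
          show (b v : ℂ) = (((b v : ℤ) : ℝ) : ℂ) by push_cast; rfl, Complex.im_ofReal_mul]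
      have h3 : (-(Complex.I / Real.pi) * SmG src tgt ζ v).im =
          -((SmG src tgt ζ v).re / Real.pi) := by
        rw [show -(Complex.I / Real.pi) * SmG src tgt ζ v =
          ((-(1 / Real.pi) : ℝ) : ℂ) * (Complex.I * SmG src tgt ζ v) by push_cast; ring,
          Complex.im_ofReal_mul, Complex.I_mul_im]
        ring
      rw [h2, h3] at h1
      have hpi := Real.pi_pos
      unfold lamG
      have h4 : (b v : ℝ) * (ζ v).im * Real.pi = -(SmG src tgt ζ v).re := by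
        rw [h1]
        field_simp
      rw [show 2 * Real.pi * (1 / (degG src tgt v : ℝ)) * (ζ v).im * (b v : ℝ) =
        2 * ((b v : ℝ) * (ζ v).im * Real.pi) / degG src tgt v by ring, h4]
      ring
    have e3 : (tz (y e) (ζ v)).re = -(2 * (GT.ath (GT.tz (ζ v) * qhG src tgt ζ e)).re) := by
      rw [htz, Complex.neg_re, show (2 : ℂ) * GT.ath (GT.tz (ζ v) * qhG src tgt ζ e) =
        ((2 : ℝ) : ℂ) * GT.ath (GT.tz (ζ v) * qhG src tgt ζ e) by norm_num, Complex.re_ofReal_mul]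
    have e4 : |(GT.ath (GT.tz (ζ v) * qhG src tgt ζ e)).re - (GT.ath (GT.tz (ζ v))).re| ≤
        32 / 100000 := by
      have := (Complex.abs_re_le_norm _).trans (hclose e)
      rwa [Complex.sub_re] at this
    have e5 : |(SmG src tgt ζ v).re / degG src tgt v - (GT.ath (GT.tz (ζ v))).re| ≤
        32 / 100000 := by
      have h1 := (Complex.abs_re_le_norm _).trans hsum
      rw [Complex.sub_re, show (degG src tgt v : ℂ) = ((degG src tgt v : ℝ) : ℂ) by push_cast; rfl,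
        Complex.re_ofReal_mul] at h1
      have h2 : (SmG src tgt ζ v).re / degG src tgt v - (GT.ath (GT.tz (ζ v))).re =
          ((SmG src tgt ζ v).re - degG src tgt v * (GT.ath (GT.tz (ζ v))).re) /
            degG src tgt v := by
        field_simp
      rw [h2, abs_div, abs_of_pos hd0, div_le_iff₀ hd0]
      linarith
    rw [e2, e3]
    rw [abs_le] at e4 e5 ⊢
    constructor <;> linarith [e4.1, e4.2, e5.1, e5.2]
  -- the rings
  have ring : ∀ (v v' : V) (e : E), GT.tz (y e) = GT.isq (1 + GT.tz (ζ v) ^ 2 + GT.tz (ζ v') ^ 2) →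
      Loc (lamG src tgt v) (b v) (y e) (ζ v) := by
    intro v v' e he
    obtain ⟨w1, w2, w3⟩ := gl_hinge (hd.1 e) (hD v) (hD v') (hv v).1 (hv v').1 (habs v) (habs v')
      (hcos e) he
    have hl0 : 0 ≤ lamG src tgt v := by
      unfold lamG
      have := hd1 v
      positivity
    exact ⟨hbR v, w1, w2, (hv v).2.1, (hv v).2.2.1, (hy v).1.trans (by norm_num), hl0,
      (hy v).2.1, (hy v).2.2, w3, hgz v e⟩
  refine ⟨fun e => ring _ (tgt e) e (hq e), fun e => ring _ (src e) e ?_⟩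
  rw [hq e, qhG]
  congr 1
  ring

/-- The limit of the integral for weighted graphs with large weights, at the unique critical
point in `SadDomG`. -/
theorem main_G [Fintype V] (hB : BigG src tgt b) {y : E → ℂ} {ζ : V → ℂ}
    (hc : CritG src tgt b y ζ) (hd : SadDomG b y ζ) :
    (∀ v, 0 < (ζ v).im) ∧
    ∃ L : ℂ, L ≠ 0 ∧ Tendsto (fun k : ℕ => ((((2 * k + 1 : ℕ) : ℝ) ^
        (((Fintype.card V : ℝ) + 3 * (Fintype.card E : ℝ)) / 2) : ℝ) : ℂ) *
      Complex.exp (-(((2 * k + 1 : ℕ) : ℂ) * TG src tgt b y ζ)) *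
      IG (2 * k + 1) src tgt b (fun v => zt (ζ v).im) (fun v => dzt (ζ v).im)) atTop (𝓝 L) :=
  ⟨fun v => (vertex_bounds hB hc hd v).2.2.1, core_G hB.deg_pos hc (locs_G hB hc hd)⟩

theorem existsUnique_G [Fintype V] (hB : BigG src tgt b) :
    ∃ (y : E → ℂ) (ζ : V → ℂ), CritG src tgt b y ζ ∧ SadDomG b y ζ ∧
      ∀ (y' : E → ℂ) (ζ' : V → ℂ), CritG src tgt b y' ζ' → SadDomG b y' ζ' → y' = y ∧ ζ' = ζ := by
  have hb10 : ∀ v, 10 ≤ |b v| := fun v => le_trans (by norm_num) (hB.ge v)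
  have hbd : ∀ v, 10 * (degG src tgt v : ℤ) ≤ |b v| := fun v =>
    le_trans (by have := hB.deg_pos v; omega) (hB.ge_deg v)
  obtain ⟨y, ζ, h1, h2, h3, -⟩ := exists_critG src tgt hB.deg_pos hb10 hbd
  have hy : ∀ e, |(y e).re - 1 / 4| ≤ 1 / 10 := by
    intro e
    have e1 : (y e).re - 1 / 4 = (y e - 1 / 4).re := by
      rw [Complex.sub_re]; norm_num
    rw [e1]
    exact (Complex.abs_re_le_norm _).trans ((h2 e).1.trans (by norm_num))
  refine ⟨y, ζ, h1, ⟨hy, fun v => (h3 v).1⟩, fun y' ζ' hc' hd' => ?_⟩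
  exact unique_critG hb10 hbd hc' h1 hd'.1 hy hd'.2 fun v => (h3 v).1

end graph

end Pool.Agent.Work.MP_b30479_gt.LT
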