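import Pool.Agent.Work.MP_b30479_gt.LT.Geo
import Pool.Agent.Work.MP_b30479_gt.LT.CoreG

/-!
# Gluing equations and volume for general graphs
-/

namespace Pool.Agent.Work.MP_b30479_gt.LT

open Finset VOL

variable {V E : Type*} [Fintype V] [Fintype E]

/-- The volume, `x_e = e^{2πiy_e}`, `q_v = e^{2πiζ_v}`. -/
noncomputable def volG (src tgt : E → V) (y : E → ℂ) (ζ : V → ℂ) : ℝ :=
  ∑ e, (rvol (ee (y e)) (ee (ζ (src e))) + rvol (ee (y e)) (ee (ζ (tgt e))))

/-- The (logarithmic) gluing equations, with positively oriented tetrahedra.  With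
`x_e = e^{2πiy_e}` and `q_v = e^{2πiζ_v}`, `edge` implies
`(1 + x_e q_v) (1 + x_e / q_v) (1 + x_e q_w) (1 + x_e / q_w) = (1 - x_e)⁴` for the edge `e` from
`v` to `w`, and `filling` implies `q_v^{b_v} ∏ (1 + x_e q_v) / (x_e + q_v) = 1`, the product over
the edges `e` at `v`; the logarithms fix the angles. -/
structure GeomG [DecidableEq V] (src tgt : E → V) (b : V → ℤ) (y : E → ℂ) (ζ : V → ℂ) : Prop where
  pos_src : ∀ e, Pos (y e) (ζ (src e))
  pos_tgt : ∀ e, Pos (y e) (ζ (tgt e))
  edge : ∀ e, lgs (y e) (ζ (src e)) + lgs (y e) (ζ (tgt e)) = 2 * Real.pi * Complex.I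
  filling : ∀ v, 2 * Real.pi * Complex.I * (b v * ζ v + 1) +
    ∑ e, ((if src e = v then lgd (y e) (ζ v) else 0) +
      (if tgt e = v then lgd (y e) (ζ v) else 0)) = 0

omit [Fintype V] in
theorem geomG_iff [DecidableEq V] {src tgt : E → V} {b : V → ℤ} {y : E → ℂ} {ζ : V → ℂ}
    (h1 : ∀ e, Pos (y e) (ζ (src e))) (h2 : ∀ e, Pos (y e) (ζ (tgt e))) :
    GeomG src tgt b y ζ ↔ CritG src tgt b y ζ := by
  have he : ∀ e, lgs (y e) (ζ (src e)) + lgs (y e) (ζ (tgt e)) =
      tw (y e) (ζ (src e)) (ζ (tgt e)) + 2 * Real.pi * Complex.I := by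
    intro e
    rw [lgs_eq (h1 e), lgs_eq (h2 e)]
    unfold tw
    ring
  have hf : ∀ v, ∑ e, ((if src e = v then lgd (y e) (ζ v) else 0) +
      (if tgt e = v then lgd (y e) (ζ v) else 0)) = dG src tgt y ζ v := by
    intro v
    unfold dG
    refine sum_congr rfl fun e _ => ?_
    congr 1
    · split_ifs with hj
      · subst hj
        exact lgd_eq (h1 e)
      · rfl
    · split_ifs with hj
      · subst hj
        exact lgd_eq (h2 e)
      · rfl
  constructor
  · intro h
    refine ⟨fun e => ?_, fun v => ?_⟩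
    · have := h.edge e
      rw [he e] at this
      linear_combination this
    · have := h.filling v
      rw [hf v] at this
      exact this
  · intro h
    refine ⟨h1, h2, fun e => ?_, fun v => ?_⟩
    · rw [he e, h.crit_y e]
      ring
    · rw [hf v]
      exact h.crit_z v

/-- at a critical point the real part of the potential is the volume, up to the factor `2π` -/
theorem vol_TG [DecidableEq V] {src tgt : E → V} {b : V → ℤ} {y : E → ℂ} {ζ : V → ℂ}
    (h : CritG src tgt b y ζ) (h0 : ∀ e, 0 < (y e).re) (h1 : ∀ e, (y e).re + |(ζ (src e)).re| < 1 / 2)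
    (h2 : ∀ e, (y e).re + |(ζ (tgt e)).re| < 1 / 2) :
    2 * Real.pi * (TG src tgt b y ζ).re = volG src tgt y ζ := by
  have h3 : ∀ e, (y e).re < 1 / 2 := fun e => by
    have := abs_nonneg (ζ (src e)).re
    linarith [h1 e]
  unfold volG
  have e1 : ∀ e, rvol (ee (y e)) (ee (ζ (src e))) + rvol (ee (y e)) (ee (ζ (tgt e))) =
      2 * Real.pi * ((tp (y e) (ζ (src e)) (ζ (tgt e))).re +
        ((ζ (src e)).im * (tz (y e) (ζ (src e))).im + (ζ (tgt e)).im * (tz (y e) (ζ (tgt e))).im)) := by
    intro e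
    rw [rvol_eq (h0 e) (h3 e) (h1 e), rvol_eq (h0 e) (h3 e) (h2 e)]
    have hc := congrArg Complex.im (h.crit_y e)
    unfold tw at hc
    unfold tp
    simp only [Complex.add_re, Complex.sub_re, Complex.add_im, Complex.sub_im, Complex.mul_re,
      Complex.mul_im, Complex.re_ofNat, Complex.im_ofNat, zero_mul, sub_zero, add_zero,
      Complex.zero_im] at hc ⊢
    linear_combination (2 * Real.pi * (y e).im) * hc
  rw [sum_congr rfl fun e _ => e1 e, ← mul_sum, sum_add_distrib]
  congr 1
  -- the derivative with respect to `ζ v`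
  have e2 : ∑ e, ((ζ (src e)).im * (tz (y e) (ζ (src e))).im +
      (ζ (tgt e)).im * (tz (y e) (ζ (tgt e))).im) = ∑ v, (ζ v).im * (dG src tgt y ζ v).im := by
    have e3 : ∀ v, (ζ v).im * (dG src tgt y ζ v).im = ∑ e,
        ((if src e = v then (ζ v).im * (tz (y e) (ζ v)).im else 0) +
          (if tgt e = v then (ζ v).im * (tz (y e) (ζ v)).im else 0)) := by
      intro v
      unfold dG
      rw [Complex.im_sum, mul_sum]
      refine sum_congr rfl fun e _ => ?_
      rw [Complex.add_im]
      split_ifs <;> simp [mul_add]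
    rw [sum_congr rfl fun v _ => e3 v, sum_comm]
    refine sum_congr rfl fun e _ => ?_
    rw [sum_add_distrib]
    simp
  rw [e2]
  unfold TG
  rw [Complex.add_re, Complex.re_sum, Complex.re_sum]
  have e4 : ∀ v, (ζ v).im * (dG src tgt y ζ v).im =
      (Real.pi * Complex.I * b v * ζ v ^ 2 + 2 * Real.pi * Complex.I * ζ v).re := by
    intro v
    have hc := congrArg Complex.im (h.crit_z v)
    have e5 : (2 * Real.pi * Complex.I * (b v * ζ v + 1) : ℂ).im = 2 * Real.pi * (b v * (ζ v).re + 1) := by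
      simp [Complex.mul_re, Complex.mul_im]
    rw [Complex.add_im, e5, Complex.zero_im] at hc
    have e6 : (Real.pi * Complex.I * b v * ζ v ^ 2 + 2 * Real.pi * Complex.I * ζ v : ℂ).re =
        -(2 * Real.pi * b v * (ζ v).re * (ζ v).im) - 2 * Real.pi * (ζ v).im := by
      rw [sq]
      simp [Complex.mul_re, Complex.mul_im]
      ring
    rw [e6]
    have e7 : (dG src tgt y ζ v).im = -(2 * Real.pi * (b v * (ζ v).re + 1)) := by linarith
    rw [e7]
    ring
  rw [sum_congr rfl fun v _ => (e4 v).symm]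
  ring

end Pool.Agent.Work.MP_b30479_gt.LT
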