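import Pool.Agent.Work.MP_b30479_gt.LT.Rigid
import Pool.Agent.Work.MP_b30479_gt.LT.BWG

/-!
# Uniqueness of the positively oriented solution of the gluing equations: general graphs
-/

namespace Pool.Agent.Work.MP_b30479_gt.LT

open Finset VOL

variable {V E : Type*} [Fintype V] [Fintype E] [DecidableEq V]

/-- The positively oriented solution of the gluing equations is unique, for every weighted graph
without isolated vertices. -/
theorem geomG_unique {src tgt : E → V} {b : V → ℤ} {y y' : E → ℂ} {ζ ζ' : V → ℂ}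
    (hv : ∀ v, ∃ e, src e = v ∨ tgt e = v) (h : GeomG src tgt b y ζ)
    (h' : GeomG src tgt b y' ζ') : y' = y ∧ ζ' = ζ := by
  have hc := (geomG_iff h.pos_src h.pos_tgt).mp h
  have hc' := (geomG_iff h'.pos_src h'.pos_tgt).mp h'
  -- the sum over the rings
  have key : ∑ e, (rgd (y e) (ζ (src e)) (y' e) (ζ' (src e)) +
      rgd (y e) (ζ (tgt e)) (y' e) (ζ' (tgt e))) = 0 := by
    have e1 : ∀ v, (dG src tgt y' ζ' v - dG src tgt y ζ v) * (starRingEnd ℂ) (ζ' v - ζ v) =
        -((starRingEnd ℂ) (ζ' v - ζ v) * (2 * Real.pi * Complex.I * b v * (ζ' v - ζ v))) := by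
      intro v
      have a1 := hc.crit_z v
      have a2 := hc'.crit_z v
      linear_combination (starRingEnd ℂ) (ζ' v - ζ v) * (a2 - a1)
    have e2 : ∑ v, ((dG src tgt y' ζ' v - dG src tgt y ζ v) *
        (starRingEnd ℂ) (ζ' v - ζ v)).re = 0 := by
      apply Finset.sum_eq_zero
      intro v _
      rw [e1]
      have e3 : (starRingEnd ℂ) (ζ' v - ζ v) * (2 * Real.pi * Complex.I * b v * (ζ' v - ζ v)) =
          ((2 * Real.pi * b v * Complex.normSq (ζ' v - ζ v) : ℝ) : ℂ) * Complex.I := by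
        have := Complex.normSq_eq_conj_mul_self (z := ζ' v - ζ v)
        push_cast
        rw [this]
        ring
      rw [e3]
      simp
    have e4 : ∑ v, (dG src tgt y' ζ' v - dG src tgt y ζ v) * (starRingEnd ℂ) (ζ' v - ζ v) =
        ∑ e, ((starRingEnd ℂ) (ζ' (src e) - ζ (src e)) *
          (tz (y' e) (ζ' (src e)) - tz (y e) (ζ (src e))) +
          (starRingEnd ℂ) (ζ' (tgt e) - ζ (tgt e)) *
          (tz (y' e) (ζ' (tgt e)) - tz (y e) (ζ (tgt e)))) := by
      simp_rw [sub_mul]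
      rw [Finset.sum_sub_distrib, sum_dG src tgt y' ζ' (fun v => (starRingEnd ℂ) (ζ' v - ζ v)),
        sum_dG src tgt y ζ (fun v => (starRingEnd ℂ) (ζ' v - ζ v)), ← Finset.sum_sub_distrib]
      refine Finset.sum_congr rfl fun e _ => ?_
      ring
    rw [← Complex.re_sum, e4] at e2
    rw [Complex.re_sum] at e2
    rw [← e2]
    apply Finset.sum_congr rfl
    intro e _
    have t1 := hc.crit_y e
    have t2 := hc'.crit_y e
    unfold rgd
    rw [← Complex.add_re]
    congr 1
    unfold tw at t1 t2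
    linear_combination (starRingEnd ℂ) (y' e - y e) * (t2 - t1)
  have hz : ∀ e ∈ (univ : Finset E), (rgd (y e) (ζ (src e)) (y' e) (ζ' (src e)) +
      rgd (y e) (ζ (tgt e)) (y' e) (ζ' (tgt e))) = 0 := by
    refine (Finset.sum_eq_zero_iff_of_nonpos ?_).mp key
    intro e _
    exact add_nonpos (rgd_le (h.pos_src e) (h'.pos_src e))
      (rgd_le (h.pos_tgt e) (h'.pos_tgt e))
  have hz' : ∀ e, (y' e = y e ∧ ζ' (src e) = ζ (src e)) ∧ ζ' (tgt e) = ζ (tgt e) := by
    intro e
    have h1 := hz e (mem_univ e)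
    have h2 := rgd_le (h.pos_src e) (h'.pos_src e)
    have h3 := rgd_le (h.pos_tgt e) (h'.pos_tgt e)
    exact ⟨eq_of_rgd (h.pos_src e) (h'.pos_src e) (by linarith),
      (eq_of_rgd (h.pos_tgt e) (h'.pos_tgt e) (by linarith)).2⟩
  refine ⟨funext fun e => (hz' e).1.1, funext fun v => ?_⟩
  obtain ⟨e, he | he⟩ := hv v
  · rw [← he]
    exact (hz' e).1.2
  · rw [← he]
    exact (hz' e).2

end Pool.Agent.Work.MP_b30479_gt.LT
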