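import Pool.Agent.Work.MP_b30479_gt.LT.GLoc
import Pool.Agent.Work.MP_b30479_gt.LT.RigidG
import Pool.Agent.Work.MP_b30479_gt.LT.BWpos

/-!
# The positively oriented solution of the gluing equations for weighted graphs with large weights
-/

namespace Pool.Agent.Work.MP_b30479_gt.LT

open Finset VOL Filter Topology

variable {V E : Type*} [Fintype V] [Fintype E]

theorem rvol_pos {w z : ℂ} (hp : Pos w z) : 0 < rvol (ee w) (ee z) := by
  obtain ⟨h1, h2⟩ := hp
  have h3 := abs_nonneg z.re
  have h4 := abs_lt.mp h1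
  have h5 := abs_lt.mp h2
  unfold rvol
  rw [shape_one, shape_two]
  have b1 := BW_pos (w := w) (by linarith) (by linarith)
  have b2 := BW_pos (w := 1 / 2 - w + z) (by simp; linarith) (by simp; linarith)
  have b3 := BW_pos (w := 1 / 2 - w - z) (by simp; linarith) (by simp; linarith)
  linarith

omit [Fintype V] in
theorem volG_pos [DecidableEq V] [Nonempty E] {src tgt : E → V} {b : V → ℤ} {y : E → ℂ}
    {ζ : V → ℂ} (h : GeomG src tgt b y ζ) : 0 < volG src tgt y ζ := by
  unfold volG
  apply Finset.sum_pos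
  · intro e _
    exact add_pos (rvol_pos (h.pos_src e)) (rvol_pos (h.pos_tgt e))
  · exact univ_nonempty

/-- existence, uniqueness, positivity and volume -/
theorem geom_G [DecidableEq V] [Nonempty E] {src tgt : E → V} {b : V → ℤ}
    (hB : BigG src tgt b) :
    ∃ (y : E → ℂ) (ζ : V → ℂ), (GeomG src tgt b y ζ ∧
      ∀ (y' : E → ℂ) (ζ' : V → ℂ), GeomG src tgt b y' ζ' → y' = y ∧ ζ' = ζ) ∧
      0 < volG src tgt y ζ ∧ 2 * Real.pi * (TG src tgt b y ζ).re = volG src tgt y ζ ∧
      CritG src tgt b y ζ ∧ SadDomG b y ζ := by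
  obtain ⟨y, ζ, hc, hd, -⟩ := existsUnique_G hB
  have hy : ∀ e, 3 / 20 ≤ (y e).re ∧ (y e).re ≤ 7 / 20 := by
    intro e
    have h1 := abs_le.mp (hd.1 e)
    constructor <;> linarith
  have hz : ∀ v, |(ζ v).re| ≤ 21 / 1000 := fun v => (vertex_bounds hB hc hd v).2.1
  have hp : ∀ e v, Pos (y e) (ζ v) := by
    intro e v
    have h1 := hy e
    have h2 := hz v
    exact ⟨by linarith, by linarith⟩
  have hg : GeomG src tgt b y ζ := (geomG_iff (fun e => hp e _) (fun e => hp e _)).mpr hc
  have hv : ∀ v, ∃ e, src e = v ∨ tgt e = v := by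
    intro v
    by_contra hcon
    push Not at hcon
    have h1 := hB.deg_pos v
    have h2 : degG src tgt v = 0 := by
      unfold degG
      apply Finset.sum_eq_zero
      intro e _
      simp [(hcon e).1, (hcon e).2]
    omega
  refine ⟨y, ζ, ⟨hg, fun y' ζ' h' => geomG_unique hv hg h'⟩, volG_pos hg, ?_, hc, hd⟩
  refine vol_TG hc ?_ ?_ ?_
  · intro e
    linarith [(hy e).1]
  · intro e
    linarith [(hy e).2, hz (src e)]
  · intro e
    linarith [(hy e).2, hz (tgt e)]

end Pool.Agent.Work.MP_b30479_gt.LT
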