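import Pool.Agent.Work.MP_b30479_gt.LT.Defs
import Pool.Agent.Work.MP_b30479_gt.TB.Twist
import Pool.Agent.Work.MP_b30479_gt.VC.Reso
import Pool.Agent.Work.MP_b30479_gt.DT.Alg

/-!
# The invariant as a sum over chains of matrix entries
-/

namespace Pool.Agent.Work.MP_b30479_gt.LT

open Finset VOL AX MeasureTheory
open TB hiding PP

/-- the entry `(2s-u, v)` of the `a`-th power of the matrix of `σ_1`, orthonormal basis -/
noncomputable def KN (s a u v : ℕ) : ℂ :=
  Gm s (tt s) 1 a v (2 * s - u) *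
    ((((2 * s + 1 : ℕ) : ℝ) ^ 2 / (fS (2 * s + 1) u ^ 2 * fS (2 * s + 1) v ^ 2) : ℝ) : ℂ)

/-- the same for a twist region with `b ∈ ℤ` crossings -/
noncomputable def KK (s : ℕ) (b : ℤ) (u v : ℕ) : ℂ :=
  if 0 ≤ b then KN s b.natAbs u v else (starRingEnd ℂ) (KN s b.natAbs u v)

/-! ### the q-binomial theorem -/

section
variable {s : ℕ} {t : ℂ} (h : IsPrimitiveRoot t (2 * s + 1))
include h

lemma qsum_part {m : ℕ} (hm' : m ≤ 2 * s) : ∀ K, K + 1 ≤ m →
    ∑ k ∈ range (K + 1), (-1) ^ k * t ^ (k.choose 2) / (qf t k * qf t (m - k)) =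
      (-1) ^ K * t ^ ((K + 1).choose 2) / ((1 - t ^ m) * qf t K * qf t (m - 1 - K)) := by
  intro K
  induction K with
  | zero =>
    intro hK
    obtain ⟨m, rfl⟩ : ∃ m', m = m' + 1 := ⟨m - 1, by omega⟩
    have n1 := one_sub_pow_ne h (show 0 < m + 1 by omega) hm'
    have n2 := qf_ne_zero h (show m ≤ 2 * s by omega)
    simp only [zero_add, range_one, sum_singleton, pow_zero, one_mul, qf_zero, Nat.sub_zero,
      Nat.add_sub_cancel, qf_succ, mul_one]
    simp [mul_comm]
  | succ K ih =>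
    intro hK
    obtain ⟨d, rfl⟩ : ∃ d, m = K + 2 + d := ⟨m - (K + 2), by omega⟩
    rw [Finset.sum_range_succ, ih (by omega)]
    have n1 := one_sub_pow_ne h (show 0 < K + 2 + d by omega) hm'
    have n2 := qf_ne_zero h (show K ≤ 2 * s by omega)
    have n3 := qf_ne_zero h (show d ≤ 2 * s by omega)
    have n4 := one_sub_pow_ne h (show 0 < K + 1 by omega) (by omega)
    have n5 := one_sub_pow_ne h (show 0 < d + 1 by omega) (by omega)
    rw [show K + 2 + d - 1 - K = d + 1 by omega, show K + 2 + d - (K + 1) = d + 1 by omega,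
      show K + 2 + d - 1 - (K + 1) = d by omega, qf_succ t K, qf_succ t d,
      Nat.choose_succ_succ' (K + 1) 1, Nat.choose_one_right, pow_add t (K + 1), pow_succ (-1 : ℂ) K]
    have e1 : t ^ (K + 2 + d) = t ^ (K + 1) * t ^ (d + 1) := by rw [← pow_add]; congr 1; omega
    rw [e1] at n1 ⊢
    field_simp
    ring

lemma qsum {m : ℕ} (hm : m ≤ 2 * s) :
    ∑ k ∈ range (m + 1), (-1) ^ k * t ^ (k.choose 2) / (qf t k * qf t (m - k)) =
      if m = 0 then 1 else 0 := by
  rcases Nat.eq_zero_or_pos m with rfl | h0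
  · simp
  · rw [if_neg (by omega), Finset.sum_range_succ]
    obtain ⟨m, rfl⟩ : ∃ m', m = m' + 1 := ⟨m - 1, by omega⟩
    rw [qsum_part h hm m le_rfl]
    have n1 := one_sub_pow_ne h (show 0 < m + 1 by omega) hm
    have n2 := qf_ne_zero h (show m ≤ 2 * s by omega)
    rw [Nat.add_sub_cancel, Nat.sub_self, Nat.sub_self, qf_zero, qf_succ, pow_succ (-1 : ℂ)]
    field_simp
    ring

lemma qsum_refl {m : ℕ} (hm : m ≤ 2 * s) :
    ∑ k ∈ range (m + 1), (-1) ^ (m - k) * t ^ ((m - k).choose 2) / (qf t k * qf t (m - k)) =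
      if m = 0 then 1 else 0 := by
  rw [← qsum h hm, ← Finset.sum_range_reflect]
  apply Finset.sum_congr rfl
  intro k hk
  rw [mem_range] at hk
  rw [show m + 1 - 1 - k = m - k by omega, show m - (m - k) = k by omega, mul_comm (qf t k)]

end

/-! ### the two braidings are inverse to each other -/

section
variable {s : ℕ} {u : ℂˣ} (h : IsPrimitiveRoot (u : ℂ) (2 * s + 1))
include h

lemma entry_mul {i j a b : ℕ} (hij : i + j = a + b) (hab : a + b ≤ 2 * s) :
    ∑ q ∈ AD (a + b), entry s u true q.1 q.2 a b * entry s u false i j q.1 q.2 =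
      if i = a then 1 else 0 := by
  have h0 : (u : ℂ) ≠ 0 := u.ne_zero
  have hinv : IsPrimitiveRoot (u : ℂ)⁻¹ (2 * s + 1) := h.inv
  rcases Nat.lt_or_ge a i with hlt | hge
  · rw [if_neg (by omega)]
    apply Finset.sum_eq_zero
    intro q hq
    rw [mem_AD] at hq
    rcases Nat.lt_or_ge q.2 i with h1 | h1
    · rw [entry_false_zero _ _ _ _ _ _ h1, mul_zero]
    · rw [entry_true_zero _ _ _ _ _ _ (by omega), zero_mul]
  · obtain ⟨m, rfl⟩ : ∃ m, a = i + m := ⟨a - i, by omega⟩
    have hj : j = b + m := by omega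
    subst hj
    have hm : m ≤ 2 * s := by omega
    have h1 : ∑ q ∈ AD (i + m + b), entry s u true q.1 q.2 (i + m) b *
        entry s u false i (b + m) q.1 q.2 =
        ∑ k ∈ range (m + 1), entry s u true (b + m - k) (i + k) (i + m) b *
        entry s u false i (b + m) (b + m - k) (i + k) := by
      symm
      refine Finset.sum_of_injOn (fun k => (b + m - k, i + k)) ?_ ?_ ?_ ?_
      · intro x _ y _ hxy
        simp only [Prod.mk.injEq] at hxy
        omega
      · intro k hk
        rw [Finset.mem_coe, mem_range] at hk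
        rw [Finset.mem_coe, mem_AD]
        simp only
        omega
      · rintro ⟨q1, q2⟩ hq hn
        rw [mem_AD] at hq
        simp only at hq
        rcases Nat.lt_or_ge q2 i with h1 | h1
        · rw [entry_false_zero _ _ _ _ _ _ h1, mul_zero]
        · rcases Nat.lt_or_ge (i + m) q2 with h2 | h2
          · rw [entry_true_zero _ _ _ _ _ _ h2, zero_mul]
          · exfalso
            apply hn
            simp only [Finset.coe_range, Set.mem_image, Set.mem_Iio, Prod.mk.injEq]
            exact ⟨q2 - i, by omega, by omega, by omega⟩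
      · intro k _
        rfl
    rw [h1]
    have h2 : ∀ k ∈ range (m + 1), entry s u true (b + m - k) (i + k) (i + m) b *
        entry s u false i (b + m) (b + m - k) (i + k) =
        ((u : ℂ) ^ (-(s : ℤ) * m - ((s : ℤ) - i) * ((s : ℤ) - (b + m : ℕ)) +
          ((s : ℤ) - b) * ((s : ℤ) - i - m)) *
        (qf (u : ℂ)⁻¹ (b + m) * qf (u : ℂ) (i + m) / (qf (u : ℂ)⁻¹ b * qf (u : ℂ) i))) *
        ((-1) ^ (m - k) * (u : ℂ) ^ ((m - k).choose 2) / (qf (u : ℂ) k * qf (u : ℂ) (m - k))) := by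
      intro k hk
      rw [mem_range] at hk
      obtain ⟨l, rfl⟩ : ∃ l, m = k + l := ⟨m - k, by omega⟩
      rw [show b + (k + l) - k = b + l by omega, show k + l - k = l by omega,
        show i + (k + l) = i + k + l by ring,
        entry_true s u (b + l) (i + k) l b rfl,
        entry_false s u i (b + (k + l)) k (b + l) (by ring),
        coeffPos_closed h (by omega) (by omega) (by omega),
        coeffNeg_closed h (by omega) (by omega) (by omega),
        show b + l - l = b by omega, show b + (k + l) - k = b + l by omega]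
      have n1 : qf (u : ℂ)⁻¹ b ≠ 0 := qf_ne_zero hinv (by omega)
      have n2 : qf (u : ℂ)⁻¹ (b + l) ≠ 0 := qf_ne_zero hinv (by omega)
      have n3 : qf (u : ℂ) l ≠ 0 := qf_ne_zero h (by omega)
      have n4 : qf (u : ℂ) k ≠ 0 := qf_ne_zero h (by omega)
      have n5 : qf (u : ℂ) (i + k) ≠ 0 := qf_ne_zero h (by omega)
      have n6 : qf (u : ℂ) i ≠ 0 := qf_ne_zero h (by omega)
      have e1 : (u : ℂ) ^ ((l.choose 2 : ℤ) - s * l + ((s : ℤ) - ((b + l : ℕ) : ℤ) + l) *
          ((s : ℤ) - ((i + k : ℕ) : ℤ) - l)) *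
          (u : ℂ) ^ (-(s : ℤ) * k - ((s : ℤ) - i) * ((s : ℤ) - ((b + (k + l) : ℕ) : ℤ))) =
          (u : ℂ) ^ (-(s : ℤ) * ((k + l : ℕ) : ℤ) - ((s : ℤ) - i) *
            ((s : ℤ) - ((b + (k + l) : ℕ) : ℤ)) +
          ((s : ℤ) - b) * ((s : ℤ) - i - ((k + l : ℕ) : ℤ))) * (u : ℂ) ^ (l.choose 2) := by
        rw [← zpow_natCast (u : ℂ) (l.choose 2), ← zpow_add₀ h0, ← zpow_add₀ h0]
        congr 1
        push_cast
        ring
      generalize qf (u : ℂ)⁻¹ b = B1 at *
      generalize qf (u : ℂ)⁻¹ (b + l) = B2 at *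
      generalize qf (u : ℂ)⁻¹ (b + (k + l)) = B3 at *
      calc _ = ((u : ℂ) ^ ((l.choose 2 : ℤ) - s * l + ((s : ℤ) - ((b + l : ℕ) : ℤ) + l) *
          ((s : ℤ) - ((i + k : ℕ) : ℤ) - l)) *
          (u : ℂ) ^ (-(s : ℤ) * k - ((s : ℤ) - i) * ((s : ℤ) - ((b + (k + l) : ℕ) : ℤ)))) *
          ((-1) ^ l * (B2 * qf (u : ℂ) (i + k + l) / (B1 * qf (u : ℂ) l * qf (u : ℂ) (i + k)) *
          (B3 * qf (u : ℂ) (i + k) / (B2 * qf (u : ℂ) k * qf (u : ℂ) i)))) := by ring
        _ = _ := by
          rw [e1]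
          field_simp
    rw [Finset.sum_congr rfl h2, ← Finset.mul_sum, qsum_refl h hm]
    rcases Nat.eq_zero_or_pos m with rfl | hpos
    · rw [if_pos rfl, if_pos (by omega)]
      have n1 : qf (u : ℂ)⁻¹ b ≠ 0 := qf_ne_zero hinv (by omega)
      have n6 : qf (u : ℂ) i ≠ 0 := qf_ne_zero h (by omega)
      have e0 : (-(s : ℤ) * ((0 : ℕ) : ℤ) - ((s : ℤ) - i) * ((s : ℤ) - (b + 0 : ℕ)) +
          ((s : ℤ) - b) * ((s : ℤ) - i - ((0 : ℕ) : ℤ))) = 0 := by
        push_cast
        ring
      rw [e0, zpow_zero, Nat.add_zero, Nat.add_zero]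
      generalize qf (u : ℂ)⁻¹ b = B1 at *
      field_simp
    · rw [if_neg (by omega), if_neg (by omega), mul_zero]

lemma M_inv (Z : ℕ → ℕ → ℂ) {a b : ℕ} (hab : a + b ≤ 2 * s) :
    TB.M (entry s u true) (TB.M (entry s u false) Z) a b = Z a b := by
  unfold TB.M
  have e1 : ∀ q ∈ AD (a + b), entry s u true q.1 q.2 a b *
      ∑ p ∈ AD (q.1 + q.2), entry s u false p.1 p.2 q.1 q.2 * Z p.1 p.2 =
      ∑ p ∈ AD (a + b), entry s u true q.1 q.2 a b * entry s u false p.1 p.2 q.1 q.2 *
        Z p.1 p.2 := by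
    intro q hq
    rw [mem_AD] at hq
    rw [hq, Finset.mul_sum]
    apply Finset.sum_congr rfl
    intro p _
    ring
  rw [Finset.sum_congr rfl e1, Finset.sum_comm]
  have e2 : ∀ p ∈ AD (a + b), ∑ q ∈ AD (a + b), entry s u true q.1 q.2 a b *
      entry s u false p.1 p.2 q.1 q.2 * Z p.1 p.2 = if p = (a, b) then Z a b else 0 := by
    intro p hp
    rw [mem_AD] at hp
    rw [← Finset.sum_mul, entry_mul h hp hab]
    by_cases hpa : p.1 = a
    · have hpb : p.2 = b := by omega
      rw [if_pos hpa, if_pos (Prod.ext hpa hpb), one_mul, hpa, hpb]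
    · rw [if_neg hpa, if_neg (fun hc => hpa (by rw [hc])), zero_mul]
  rw [Finset.sum_congr rfl e2, Finset.sum_ite_eq']
  exact if_pos (mem_AD.mpr rfl)

end

/-! ### the matrix of the braiding -/

/-- `|(t; t)_k|²` -/
noncomputable def qq (s k : ℕ) : ℂ := ((‖qf (tt s) k‖ ^ 2 : ℝ) : ℂ)

lemma qq_ne {s k : ℕ} (hk : k ≤ 2 * s) : qq s k ≠ 0 := by
  unfold qq
  have := norm_qf_pos (tt_prim s) hk
  exact_mod_cast (by positivity : (0 : ℝ) < _).ne'

lemma qq_zero (s : ℕ) : qq s 0 = 1 := by
  unfold qq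
  simp

lemma star_qq (s k : ℕ) : star (qq s k) = qq s k := Complex.conj_ofReal _

lemma NN_qq (s k : ℕ) : NN (tt s) k = qq s k ^ 2 := by
  unfold NN qq
  push_cast
  ring

lemma qq_fS {s k : ℕ} (hk : k ≤ 2 * s) : qq s k = ((fS (2 * s + 1) k ^ 2 : ℝ) : ℂ) := by
  unfold qq
  rw [DT.norm_qf_fS hk]

/-- matrix of `σ_1` in the orthonormal basis -/
noncomputable def AA (s : ℕ) : Matrix (Fin (2 * s + 1)) (Fin (2 * s + 1)) ℂ := fun k j =>
  gz s (tt s) 1 j k * (qq s k / qq s j)

lemma AA_pow (s a : ℕ) (k j : Fin (2 * s + 1)) :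
    (AA s ^ a) k j = Gm s (tt s) 1 a j k * (qq s k / qq s j) := by
  induction a generalizing k with
  | zero =>
    rw [pow_zero, Matrix.one_apply]
    unfold Gm
    by_cases hjk : k = j
    · subst hjk
      rw [if_pos rfl, if_pos rfl, div_self (qq_ne (by have := k.isLt; omega)), mul_one]
    · rw [if_neg hjk, if_neg (fun hc => hjk (Fin.ext hc.symm)), zero_mul]
  | succ a ih =>
    have hk := k.isLt
    rw [pow_succ', Matrix.mul_apply]
    have e1 : ∀ l : Fin (2 * s + 1), AA s k l * (AA s ^ a) l j =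
        Gm s (tt s) 1 a j l * gz s (tt s) 1 l k * (qq s k / qq s j) := by
      intro l
      have nl := qq_ne (s := s) (k := l) (by have := l.isLt; omega)
      rw [ih]
      unfold AA
      field_simp
    rw [Finset.sum_congr rfl fun l _ => e1 l, ← Finset.sum_mul]
    congr 1
    rw [Fin.sum_univ_eq_sum_range (fun l => Gm s (tt s) 1 a j l * gz s (tt s) 1 l k)]
    have e2 : Gm s (tt s) 1 (a + 1) j k = ∑ l ∈ range ((k : ℕ) + 1), Gm s (tt s) 1 a j l *
      gz s (tt s) 1 l k := rfl
    rw [e2]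
    symm
    apply Finset.sum_subset
    · intro x hx
      rw [mem_range] at hx ⊢
      omega
    · intro x _ hx
      rw [mem_range] at hx
      rw [gz_lt (by omega), mul_zero]

lemma gz_conj {s j k : ℕ} (hk : k ≤ 2 * s) :
    ∑ l ∈ range (2 * s + 1), gz s (tt s) 1 j l * star (gz s (tt s) 1 l k) =
      if j = k then 1 else 0 := by
  have h := tt_prim s
  have hinv : IsPrimitiveRoot (tt s)⁻¹ (2 * s + 1) := h.inv
  have h0 : tt s ≠ 0 := h.ne_zero (by omega)
  rcases Nat.lt_or_ge k j with hlt | hge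
  · rw [if_neg (by omega)]
    apply Finset.sum_eq_zero
    intro l _
    rcases Nat.lt_or_ge l j with h1 | h1
    · rw [gz_lt h1, zero_mul]
    · rw [gz_lt (show k < l by omega), star_zero, mul_zero]
  · obtain ⟨m, rfl⟩ : ∃ m, k = j + m := ⟨k - j, by omega⟩
    have h1 : ∑ l ∈ range (2 * s + 1), gz s (tt s) 1 j l * star (gz s (tt s) 1 l (j + m)) =
        ∑ r ∈ range (m + 1), gz s (tt s) 1 j (j + r) * star (gz s (tt s) 1 (j + r) (j + m)) := by
      symm
      refine Finset.sum_of_injOn (fun r => j + r) ?_ ?_ ?_ ?_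
      · intro x _ y _ hxy
        simpa using hxy
      · intro r hr
        rw [Finset.mem_coe, mem_range] at hr ⊢
        simp only
        omega
      · intro l hl hn
        rcases Nat.lt_or_ge l j with h1 | h1
        · rw [gz_lt h1, zero_mul]
        · rcases Nat.lt_or_ge (j + m) l with h2 | h2
          · rw [gz_lt h2, star_zero, mul_zero]
          · exfalso
            apply hn
            simp only [Finset.coe_range, Set.mem_image, Set.mem_Iio]
            exact ⟨l - j, by omega, by omega⟩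
      · intro r _
        rfl
    rw [h1]
    have h2 : ∀ r ∈ range (m + 1), gz s (tt s) 1 j (j + r) *
        star (gz s (tt s) 1 (j + r) (j + m)) =
        ((tt s ^ s)⁻¹ ^ m * (qf (tt s) j / qf (tt s) (j + m))) *
        ((-1) ^ (m - r) * tt s ^ ((m - r).choose 2) / (qf (tt s) r * qf (tt s) (m - r))) := by
      intro r hr
      rw [mem_range] at hr
      obtain ⟨d, rfl⟩ : ∃ d, m = r + d := ⟨m - r, by omega⟩
      rw [show r + d - r = d by omega, show j + (r + d) = j + r + d by ring]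
      set l := j + r with hl
      have p1 : pz (tt s) 1 j l = qf (tt s) l / qf (tt s) j := TB.pz_one h (by omega) (by omega)
      have p2 : pz (tt s) 1 l (l + d) = qf (tt s) (l + d) / qf (tt s) l :=
        TB.pz_one h (by omega) (by omega)
      have q1 : ∀ x, star (qf (tt s) x) = (-1) ^ x * qf (tt s) x / tt s ^ ((x + 1).choose 2) := by
        intro x
        rw [star_qf h, eq_div_iff (pow_ne_zero _ h0), qf_inv h]
      have n1 : qf (tt s) j ≠ 0 := qf_ne_zero h (by omega)
      have n2 : qf (tt s) l ≠ 0 := qf_ne_zero h (by omega)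
      have n3 : qf (tt s) (l + d) ≠ 0 := qf_ne_zero h (by omega)
      have n4 : qf (tt s) r ≠ 0 := qf_ne_zero h (by omega)
      have n5 : qf (tt s) d ≠ 0 := qf_ne_zero h (by omega)
      have g1 : gz s (tt s) 1 j l = tt s ^ (s * s) * (-1) ^ l * (tt s ^ s) ^ (l + j) *
          (tt s ^ ((l + 1).choose 2) * tt s ^ l) * qf (tt s) j / (qf (tt s) l * qf (tt s) r) := by
        unfold gz
        rw [if_pos (by omega), p1, show l - j = r by omega, one_pow, mul_one, pow_add (tt s) _ l]
        field_simp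
      have g2 : star (gz s (tt s) 1 l (l + d)) = (tt s ^ (s * s))⁻¹ * (-1) ^ d *
          (tt s ^ s)⁻¹ ^ (l + d + l) * (-1) ^ l *
          tt s ^ ((d + 1).choose 2) / (tt s ^ ((l + 1).choose 2) * tt s ^ (l + d)) *
          (qf (tt s) l / (qf (tt s) (l + d) * qf (tt s) d)) := by
        unfold gz
        rw [if_pos (by omega), p2, show l + d - l = d by omega, one_pow, mul_one,
          pow_add (tt s) _ (l + d)]
        simp only [star_div₀, star_mul', star_pow, star_neg, star_one, q1, star_root h]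
        have hs1 : ∀ x : ℕ, ((-1 : ℂ)) ^ x * (-1) ^ x = 1 := fun x => by rw [← mul_pow]; simp
        have e1 := hs1 l
        have e2 := hs1 d
        have m1 : ((-1 : ℂ)) ^ l ≠ 0 := pow_ne_zero _ (by norm_num)
        have m2 : ((-1 : ℂ)) ^ d ≠ 0 := pow_ne_zero _ (by norm_num)
        rw [pow_add (-1 : ℂ) l d]
        simp only [inv_pow]
        generalize ((-1 : ℂ)) ^ l = el at *
        generalize ((-1 : ℂ)) ^ d = ed at *
        have k1 : tt s ^ (l + d + 1).choose 2 ≠ 0 := pow_ne_zero _ h0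
        have k2 : tt s ^ (l + 1).choose 2 ≠ 0 := pow_ne_zero _ h0
        have k3 : tt s ^ (d + 1).choose 2 ≠ 0 := pow_ne_zero _ h0
        generalize tt s ^ (l + d + 1).choose 2 = K1 at *
        generalize tt s ^ (l + 1).choose 2 = K2 at *
        generalize tt s ^ (d + 1).choose 2 = K3 at *
        have k4 : tt s ^ (l + d) ≠ 0 := pow_ne_zero _ h0
        have k5 : (tt s ^ s) ^ (l + d + l) ≠ 0 := pow_ne_zero _ (pow_ne_zero _ h0)
        have k6 : tt s ^ (s * s) ≠ 0 := pow_ne_zero _ h0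
        generalize tt s ^ (l + d) = K4 at *
        generalize (tt s ^ s) ^ (l + d + l) = K5 at *
        generalize tt s ^ (s * s) = K6 at *
        field_simp
        have e4 : ed ^ 2 = 1 := by rw [sq]; exact e2
        linear_combination (-1 : ℂ) * e4
      have hs1 : ((-1 : ℂ)) ^ l * (-1) ^ l = 1 := by rw [← mul_pow]; simp
      have t1 : tt s ^ ((d + 1).choose 2) = tt s ^ d * tt s ^ (d.choose 2) := by
        rw [Nat.choose_succ_succ' d 1, Nat.choose_one_right, pow_add]
      have t2 : (tt s ^ s) ^ (l + j) * (tt s ^ s)⁻¹ ^ (l + d + l) = (tt s ^ s)⁻¹ ^ (r + d) := by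
        rw [show l + d + l = (l + j) + (r + d) by omega, pow_add (tt s ^ s)⁻¹, ← mul_assoc,
          ← mul_pow, mul_inv_cancel₀ (pow_ne_zero _ h0), one_pow, one_mul]
      rw [g1, g2, t1, pow_add (tt s) l d]
      have k1 : tt s ^ (l + 1).choose 2 ≠ 0 := pow_ne_zero _ h0
      have k2 : tt s ^ l ≠ 0 := pow_ne_zero _ h0
      have k3 : tt s ^ d ≠ 0 := pow_ne_zero _ h0
      have k4 : tt s ^ (s * s) ≠ 0 := pow_ne_zero _ h0
      rw [← t2]
      generalize (tt s ^ s) ^ (l + j) = K6
      generalize (tt s ^ s)⁻¹ ^ (l + d + l) = K7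
      generalize ((-1 : ℂ)) ^ l = el at *
      generalize tt s ^ (l + 1).choose 2 = K1 at *
      generalize tt s ^ l = K2 at *
      generalize tt s ^ d = K3 at *
      generalize tt s ^ (s * s) = K4 at *
      calc _ = (el * el) * (K4 * K6 * (K1 * K2) * qf (tt s) j / (qf (tt s) l * qf (tt s) r) *
            (K4⁻¹ * (-1) ^ d * K7 * (K3 * tt s ^ d.choose 2) / (K1 * (K2 * K3)) *
              (qf (tt s) l / (qf (tt s) (l + d) * qf (tt s) d)))) := by ring
        _ = _ := by
          rw [hs1, one_mul]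
          field_simp
    rw [Finset.sum_congr rfl h2, ← Finset.mul_sum, qsum_refl h (by omega)]
    rcases Nat.eq_zero_or_pos m with rfl | hpos
    · rw [if_pos rfl, if_pos (by omega)]
      have n1 : qf (tt s) j ≠ 0 := qf_ne_zero h (by omega)
      rw [Nat.add_zero, pow_zero, one_mul, mul_one, div_self n1]
    · rw [if_neg (by omega), if_neg (by omega), mul_zero]

/-- the complex conjugate of `AA` -/
noncomputable def AC (s : ℕ) : Matrix (Fin (2 * s + 1)) (Fin (2 * s + 1)) ℂ := (AA s).map star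

lemma AC_mul (s : ℕ) : AC s * AA s = 1 := by
  ext k j
  have hk := k.isLt
  have hj := j.isLt
  rw [Matrix.mul_apply, Matrix.one_apply]
  have e1 : ∀ l : Fin (2 * s + 1), AC s k l * AA s l j =
      gz s (tt s) 1 j l * star (gz s (tt s) 1 l k) * (qq s k / qq s j) := by
    intro l
    have nl := qq_ne (s := s) (k := l) (by have := l.isLt; omega)
    unfold AC AA
    rw [Matrix.map_apply, star_mul', star_div₀, star_qq, star_qq]
    field_simp
  rw [Finset.sum_congr rfl fun l _ => e1 l, ← Finset.sum_mul,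
    Fin.sum_univ_eq_sum_range (fun l => gz s (tt s) 1 j l * star (gz s (tt s) 1 l k)),
    gz_conj (by omega)]
  by_cases hjk : k = j
  · subst hjk
    rw [if_pos rfl, if_pos rfl, div_self (qq_ne (by omega)), mul_one]
  · rw [if_neg hjk, if_neg (fun hc => hjk (Fin.ext hc.symm)), zero_mul]

lemma mul_AC (s : ℕ) : AA s * AC s = 1 := mul_eq_one_comm.mp (AC_mul s)

/-- the matrix of a letter -/
noncomputable def rep (s : ℕ) (g : Fin 2 × Bool) : Matrix (Fin (2 * s + 1)) (Fin (2 * s + 1)) ℂ :=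
  if g.1 = 0 then (if g.2 then AA s else AC s)
  else (if g.2 then (AA s).transpose else (AC s).transpose)

/-- coordinates -/
noncomputable def crd (s : ℕ) (X : Arr) : Fin (2 * s + 1) → ℂ := fun k =>
  xi s (tt s) k X / qq s k

section
variable {s : ℕ} {u : ℂˣ} (hu : (u : ℂ) = tt s)
include hu

lemma al_AA {k j : ℕ} (hk : k < 2 * s + 1) (hj : j < 2 * s + 1) :
    AA s ⟨k, hk⟩ ⟨j, hj⟩ = al s u k j / (qq s k * qq s j) := by
  have h : IsPrimitiveRoot (u : ℂ) (2 * s + 1) := by rw [hu]; exact tt_prim s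
  have n1 := qq_ne (s := s) (k := k) (by omega)
  have n2 := qq_ne (s := s) (k := j) (by omega)
  have e1 := gz_one h (j := j) (k := k) (by omega)
  rw [← e1, hu, NN_qq]
  unfold AA
  simp only
  field_simp

lemma crd_zero_true {X : Arr} (hX : HW s u X) :
    crd s (L1 (entry s u true) X) = (AA s).mulVec (crd s X) := by
  have h : IsPrimitiveRoot (u : ℂ) (2 * s + 1) := by rw [hu]; exact tt_prim s
  funext k
  have hk := k.isLt
  have n1 := qq_ne (s := s) (k := k) (by omega)
  show xi s (tt s) k (L1 (entry s u true) X) / qq s k =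
    ∑ m, AA s k m * (xi s (tt s) m X / qq s m)
  rw [← hu, xi_L1 h hX, Finset.sum_div,
    ← Fin.sum_univ_eq_sum_range (fun m => al s u k m * xi s u m X / NN u m / qq s k)]
  apply Finset.sum_congr rfl
  intro m _
  have hm := m.isLt
  have n2 := qq_ne (s := s) (k := m) (by omega)
  have e2 : AA s k m = al s u k m / (qq s k * qq s m) := al_AA hu hk hm
  rw [e2, hu, NN_qq]
  field_simp

lemma crd_one_false {X : Arr} (hX : HW s u X) :
    crd s (L2 (entry s u false) X) = (AC s).transpose.mulVec (crd s X) := by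
  have h : IsPrimitiveRoot (u : ℂ) (2 * s + 1) := by rw [hu]; exact tt_prim s
  funext k
  have hk := k.isLt
  have n1 := qq_ne (s := s) (k := k) (by omega)
  show xi s (tt s) k (L2 (entry s u false) X) / qq s k =
    ∑ m, (AC s).transpose k m * (xi s (tt s) m X / qq s m)
  rw [← hu, xi_L2 h hX, Finset.sum_div,
    ← Fin.sum_univ_eq_sum_range (fun m => star (al s u m k) * xi s u m X / NN u m / qq s k)]
  apply Finset.sum_congr rfl
  intro m _
  have hm := m.isLt
  have n2 := qq_ne (s := s) (k := m) (by omega)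
  have e2 : AA s m k = al s u m k / (qq s m * qq s k) := al_AA hu hm hk
  rw [Matrix.transpose_apply]
  unfold AC
  rw [Matrix.map_apply, e2, star_div₀, star_mul', star_qq, star_qq, hu, NN_qq]
  field_simp

omit hu in
lemma crd_congr {X Y : Arr} (hXY : ∀ i j k, i + j + k = 2 * s → X i j k = Y i j k) :
    crd s X = crd s Y := by
  funext k
  unfold crd xi
  rw [HH_congr (fun _ _ _ _ => rfl) hXY]

lemma crd_zero_false {X : Arr} (hX : HW s u X) :
    crd s (L1 (entry s u false) X) = (AC s).mulVec (crd s X) := by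
  have h : IsPrimitiveRoot (u : ℂ) (2 * s + 1) := by rw [hu]; exact tt_prim s
  have hY : HW s u (L1 (entry s u false) X) := HW_L1 (commC_false h) hX
  have e1 := crd_zero_true hu hY
  have e2 : crd s (L1 (entry s u true) (L1 (entry s u false) X)) = crd s X := by
    apply crd_congr
    intro i j k hijk
    exact M_inv h (fun a b => X a b k) (by omega)
  rw [← e2, e1, Matrix.mulVec_mulVec, AC_mul, Matrix.one_mulVec]

omit hu in
lemma uu_crd {k j : ℕ} (hk : k ≤ 2 * s) (hj : j ≤ 2 * s) :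
    xi s (tt s) j (uu s (tt s) k) = if j = k then qq s k ^ 2 else 0 := by
  have h := tt_prim s
  split_ifs with hjk
  · subst hjk
    rw [← NN_qq]
    exact HH_uu_self' h hj
  · exact HH_uu_orth h hjk hj hk

lemma crd_one_true {X : Arr} (hX : HW s u X) :
    crd s (L2 (entry s u true) X) = (AA s).transpose.mulVec (crd s X) := by
  have h : IsPrimitiveRoot (u : ℂ) (2 * s + 1) := by rw [hu]; exact tt_prim s
  funext k
  have hk := k.isLt
  have n1 := qq_ne (s := s) (k := k) (by omega)
  have hU : HW s u (uu s u k) := HW_uu h k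
  have hY : HW s u (L1 (entry s u false) (uu s u k)) := HW_L1 (commC_false h) hU
  have e1 := crd_zero_false hu hU
  show xi s (tt s) k (L2 (entry s u true) X) / qq s k =
    ∑ m, (AA s).transpose k m * (xi s (tt s) m X / qq s m)
  have e2 : xi s (tt s) k (L2 (entry s u true) X) =
      ∑ m ∈ range (2 * s + 1), star (xi s u m (L1 (entry s u false) (uu s u k))) *
        xi s u m X / NN u m := by
    rw [← parseval h hX, ← hu, HH_L1 (isDag_entry h (2 * s) le_rfl).symm]
    rfl
  rw [e2, Finset.sum_div, ← Fin.sum_univ_eq_sum_range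
    (fun m => star (xi s u m (L1 (entry s u false) (uu s u k))) * xi s u m X / NN u m / qq s k)]
  apply Finset.sum_congr rfl
  intro m _
  have hm := m.isLt
  have n2 := qq_ne (s := s) (k := m) (by omega)
  have e3 : xi s (tt s) m (L1 (entry s u false) (uu s u k)) / qq s m =
    ∑ j, AC s m j * (xi s (tt s) j (uu s u k) / qq s j) := congrFun e1 m
  rw [Finset.sum_eq_single k, hu, uu_crd (by omega) (by omega), if_pos rfl,
    div_eq_iff n2] at e3
  · rw [hu, e3, Matrix.transpose_apply, NN_qq]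
    unfold AC
    rw [Matrix.map_apply, star_mul', star_mul', star_star, star_div₀, star_pow, star_qq, star_qq]
    field_simp
  · intro j _ hj
    have hjl := j.isLt
    rw [hu, uu_crd (by omega) (by omega), if_neg (fun hc => hj (Fin.ext hc))]
    simp
  · intro hc
    exact absurd (Finset.mem_univ _) hc

lemma crd_op {X : Arr} (hX : HW s u X) (g : Fin 2 × Bool) :
    HW s u (op s u g X) ∧ crd s (op s u g X) = (rep s g).mulVec (crd s X) := by
  have h : IsPrimitiveRoot (u : ℂ) (2 * s + 1) := by rw [hu]; exact tt_prim s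
  obtain ⟨i, c⟩ := g
  have hi : i = 0 ∨ i = 1 := by omega
  rcases hi with rfl | rfl
  · cases c
    · exact ⟨HW_L1 (commC_false h) hX, crd_zero_false hu hX⟩
    · exact ⟨HW_L1 (commC_true h) hX, crd_zero_true hu hX⟩
  · cases c
    · exact ⟨HW_L2 u.ne_zero (commC_false h) hX, crd_one_false hu hX⟩
    · exact ⟨HW_L2 u.ne_zero (commC_true h) hX, crd_one_true hu hX⟩

lemma crd_opL (w : List (Fin 2 × Bool)) :
    HW s u (opL s u w (eta s u)) ∧
      crd s (opL s u w (eta s u)) = ((w.map (rep s)).prod).mulVec (Pi.single 0 1) := by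
  have h : IsPrimitiveRoot (u : ℂ) (2 * s + 1) := by rw [hu]; exact tt_prim s
  induction w with
  | nil =>
    refine ⟨HW_eta h, ?_⟩
    rw [List.map_nil, List.prod_nil, Matrix.one_mulVec, opL_nil]
    funext k
    have hk := k.isLt
    have e1 : xi s (tt s) k (eta s u) = if (k : ℕ) = 0 then qq s 0 ^ 2 else 0 := by
      rw [← uu_crd (k := 0) (j := k) (by omega) (by omega), hu]
      rfl
    unfold crd
    rw [e1]
    by_cases hk0 : k = 0
    · subst hk0
      simp [qq_zero]
    · have hk1 : (k : ℕ) ≠ 0 := fun hc => hk0 (Fin.ext hc)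
      rw [if_neg hk1, zero_div, Pi.single_eq_of_ne hk0]
  | cons g w ih =>
    have e1 := crd_op hu ih.1 g
    rw [opL_cons]
    refine ⟨e1.1, ?_⟩
    rw [e1.2, ih.2, Matrix.mulVec_mulVec, List.map_cons, List.prod_cons]

theorem tangle_rep (w : List (Fin 2 × Bool)) :
    tangleValue s w u = (w.map (rep s)).prod 0 0 := by
  have h : IsPrimitiveRoot (u : ℂ) (2 * s + 1) := by rw [hu]; exact tt_prim s
  rw [tangleValue_eq h]
  have e1 := congrFun (crd_opL hu w).2 0
  have e2 : crd s (opL s u w (eta s u)) 0 = HH (2 * s) (eta s u) (opL s u w (eta s u)) := by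
    unfold crd xi
    rw [show ((0 : Fin (2 * s + 1)) : ℕ) = 0 from rfl, qq_zero, div_one, ← hu]
    rfl
  rw [← e2, e1, Matrix.mulVec_single_one]
  rfl

end

/-! ### blocks -/

/-- the matrix of `σ_1 ^ b` -/
noncomputable def Pb (s : ℕ) (b : ℤ) : Matrix (Fin (2 * s + 1)) (Fin (2 * s + 1)) ℂ :=
  if 0 ≤ b then AA s ^ b.natAbs else AC s ^ b.natAbs

lemma prod_blk_zero (s : ℕ) (b : ℤ) : ((blk 0 b).map (rep s)).prod = Pb s b := by
  unfold blk Pb rep
  rw [List.map_replicate, List.prod_replicate]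
  by_cases hb : 0 ≤ b
  · simp [hb]
  · simp [hb]

lemma prod_blk_one (s : ℕ) (b : ℤ) : ((blk 1 b).map (rep s)).prod = (Pb s b).transpose := by
  unfold blk Pb rep
  rw [List.map_replicate, List.prod_replicate]
  by_cases hb : 0 ≤ b
  · simp [hb, Matrix.transpose_pow]
  · simp [hb, Matrix.transpose_pow]

lemma Pb_pred (s : ℕ) (b : ℤ) : AA s * Pb s (b - 1) = Pb s b := by
  unfold Pb
  rcases lt_trichotomy b 0 with hb | hb | hb
  · rw [if_neg (by omega), if_neg (by omega), show (b - 1).natAbs = b.natAbs + 1 by omega, pow_succ',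
      ← mul_assoc, mul_AC, one_mul]
  · subst hb
    rw [if_neg (by omega), if_pos (by omega)]
    simp [mul_AC]
  · rw [if_pos (by omega), if_pos (by omega), ← pow_succ']
    congr 1
    omega

lemma AC_pow (s a : ℕ) (k j : Fin (2 * s + 1)) : (AC s ^ a) k j = star ((AA s ^ a) k j) := by
  have e1 : AC s = (starRingEnd ℂ).mapMatrix (AA s) := rfl
  rw [e1, ← map_pow]
  rfl

lemma AA_KN {s a : ℕ} (k j : Fin (2 * s + 1)) : (AA s ^ a) k j = KN s a (2 * s - k) j := by
  have hk := k.isLt
  have hj := j.isLt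
  rw [AA_pow, KN, show 2 * s - (2 * s - (k : ℕ)) = k by omega]
  congr 1
  rw [qq_fS (by omega), qq_fS (by omega)]
  have h1 := fS_refl (n := 2 * s + 1) (m := k) (by omega)
  rw [show 2 * s + 1 - 1 - (k : ℕ) = 2 * s - k by omega] at h1
  have h2 : 0 < fS (2 * s + 1) (2 * s - k) := fS_pos (by omega)
  have h3 : 0 < fS (2 * s + 1) j := fS_pos (by omega)
  rw [← Complex.ofReal_div]
  congr 1
  rw [← h1]
  field_simp

lemma Pb_KK (s : ℕ) (b : ℤ) (k j : Fin (2 * s + 1)) : Pb s b k j = KK s b (2 * s - k) j := by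
  unfold Pb KK
  split_ifs
  · exact AA_KN k j
  · rw [AC_pow, AA_KN]
    rfl

lemma KN_symm {s a u v : ℕ} (hu : u ≤ 2 * s) (hv : v ≤ 2 * s) : KN s a u v = KN s a v u := by
  unfold KN
  rw [VC.Gm_sym hu one_pos, VC.Gm_sym hv one_pos]
  have e1 : VC.KI a s u v = VC.KI a s v u := by
    funext z
    unfold VC.KI
    rw [mul_comm (VC.pY s u z)]
  rw [e1, mul_comm (fS (2 * s + 1) u ^ 2)]

lemma KK_symm {s : ℕ} (b : ℤ) {u v : ℕ} (hu : u ≤ 2 * s) (hv : v ≤ 2 * s) :
    KK s b u v = KK s b v u := by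
  unfold KK
  rw [KN_symm hu hv]

lemma last_row (s : ℕ) (j : Fin (2 * s + 1)) : AC s j 0 = AA s (Fin.last (2 * s)) j := by
  have hj := j.isLt
  have n1 : fS (2 * s + 1) j ≠ 0 := (fS_pos (by omega)).ne'
  have n0 : ((2 * s + 1 : ℕ) : ℂ) ≠ 0 := DT.nn_ne s
  have e1 : AA s j 0 = DT.ee s ((s : ℂ) ^ 2 + s * j + j) := by
    unfold AA
    rw [show ((0 : Fin (2 * s + 1)) : ℕ) = 0 from rfl, qq_zero, VC.gz_first (by omega),
      qq_fS (by omega)]
    push_cast
    have : ((fS (2 * s + 1) j : ℝ) : ℂ) ≠ 0 := by exact_mod_cast n1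
    field_simp
  have e2 : AA s (Fin.last (2 * s)) j = DT.ee s (3 * (s : ℂ) ^ 2 + 2 * s + s * j) := by
    unfold AA
    rw [Fin.val_last, VC.gz_final (by omega), qq_fS (k := 2 * s) le_rfl, qq_fS (k := j) (by omega),
      VC.fS_last]
    push_cast
    have : ((fS (2 * s + 1) j : ℝ) : ℂ) ≠ 0 := by exact_mod_cast n1
    push_cast at n0
    have n2 : (s : ℂ) * 2 + 1 ≠ 0 := by rw [mul_comm]; exact n0
    field_simp
  have e3 : AC s j 0 = star (AA s j 0) := rfl
  rw [e3, e1, e2]
  unfold DT.ee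
  rw [Complex.star_def, ← Complex.exp_conj]
  simp only [map_div₀, map_mul, map_add, map_pow, Complex.conj_I, Complex.conj_ofReal, map_natCast,
    map_ofNat]
  rw [Complex.exp_eq_exp_iff_exists_int]
  refine ⟨-(2 * s + j), ?_⟩
  push_cast at n0 ⊢
  field_simp
  ring

/-! ### the sum over chains -/

/-- the sum over chains, recursively -/
noncomputable def CS (s : ℕ) : List ℤ → ℕ → ℂ
  | [], _ => 0
  | [b], y => KK s b y 0
  | b :: c :: l, y => ∑ y' : Fin (2 * s + 1), KK s b y y' * CS s (c :: l) y'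

lemma row (s : ℕ) : ∀ (l : List ℤ), l ≠ [] → ∀ k : Fin (2 * s + 1),
    ((topW 0 l).map (rep s)).prod 0 k = CS s l k ∧
      ((topW 1 l).map (rep s)).prod 0 k = CS s l (2 * s - k)
  | [], h, _ => absurd rfl h
  | [b], _, k => by
    have hk := k.isLt
    constructor
    · have e1 : topW 0 [b] = ((1 : Fin 2), false) :: blk 0 (b - 1) := rfl
      rw [e1, List.map_cons, List.prod_cons, prod_blk_zero, Matrix.mul_apply]
      have e2 : rep s ((1 : Fin 2), false) = (AC s).transpose := rfl
      have e3 : ∀ j, rep s ((1 : Fin 2), false) 0 j * Pb s (b - 1) j k =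
          AA s (Fin.last (2 * s)) j * Pb s (b - 1) j k := by
        intro j
        rw [e2, Matrix.transpose_apply, last_row]
      rw [Finset.sum_congr rfl fun j _ => e3 j, ← Matrix.mul_apply, Pb_pred, Pb_KK, Fin.val_last,
        Nat.sub_self]
      exact KK_symm b (by omega) (by omega)
    · have e1 : topW 1 [b] = blk 1 b := rfl
      rw [e1, prod_blk_one, Matrix.transpose_apply, Pb_KK]
      rfl
  | b :: c :: l, _, k => by
    have hk := k.isLt
    have ih := row s (c :: l) (List.cons_ne_nil _ _)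
    constructor
    · have e1 : topW 0 (b :: c :: l) = topW 1 (c :: l) ++ blk 0 b := rfl
      rw [e1, List.map_append, List.prod_append, prod_blk_zero, Matrix.mul_apply]
      show _ = ∑ y' : Fin (2 * s + 1), KK s b k y' * CS s (c :: l) y'
      rw [← Equiv.sum_comp Fin.revPerm]
      apply Finset.sum_congr rfl
      intro j _
      have hj := j.isLt
      rw [(ih _).2, Pb_KK, Fin.revPerm_apply, Fin.val_rev, mul_comm,
        show 2 * s - (2 * s + 1 - ((j : ℕ) + 1)) = j by omega, KK_symm b (by omega) (by omega)]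
    · have e1 : topW 1 (b :: c :: l) = topW 0 (c :: l) ++ blk 1 b := rfl
      rw [e1, List.map_append, List.prod_append, prod_blk_one, Matrix.mul_apply]
      show _ = ∑ y' : Fin (2 * s + 1), KK s b (2 * s - k) y' * CS s (c :: l) y'
      apply Finset.sum_congr rfl
      intro j _
      rw [(ih _).1, Matrix.transpose_apply, Pb_KK, mul_comm]

lemma CS_ofFn (s : ℕ) : ∀ (M : ℕ) (b : Fin (M + 1) → ℤ) (y0 : ℕ), CS s (List.ofFn b) y0 =
    ∑ y : Fin M → Fin (2 * s + 1), ∏ i : Fin (M + 1),
      KK s (b i) ((Fin.cons y0 (fun j => (y j : ℕ)) : Fin (M + 1) → ℕ) i)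
        ((Fin.snoc (fun j => (y j : ℕ)) 0 : Fin (M + 1) → ℕ) i) := by
  intro M
  induction M with
  | zero =>
    intro b y0
    rw [Fintype.sum_unique, Fin.prod_univ_one]
    have e1 : List.ofFn b = [b 0] := by simp
    rw [e1]
    rfl
  | succ M ih =>
    intro b y0
    have e1 : List.ofFn b = b 0 :: List.ofFn (fun i => b i.succ) := List.ofFn_succ
    have e2 : List.ofFn (fun i : Fin (M + 1) => b i.succ) =
      b (Fin.succ 0) :: List.ofFn (fun i : Fin M => b i.succ.succ) := List.ofFn_succ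
    have e3 : CS s (List.ofFn b) y0 = ∑ y' : Fin (2 * s + 1), KK s (b 0) y0 y' *
        CS s (List.ofFn (fun i : Fin (M + 1) => b i.succ)) y' := by
      rw [e1, e2]
      rfl
    rw [e3, ← Equiv.sum_comp (Fin.consEquiv fun _ => Fin (2 * s + 1)), Fintype.sum_prod_type]
    apply Finset.sum_congr rfl
    intro y' _
    rw [ih, Finset.mul_sum]
    apply Finset.sum_congr rfl
    intro y _
    have e4 : (fun j => (((Fin.consEquiv fun _ => Fin (2 * s + 1)) (y', y)) j : ℕ)) =
        (Fin.cons (y' : ℕ) (fun j => (y j : ℕ)) : Fin (M + 1) → ℕ) := by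
      funext j
      refine Fin.cases ?_ ?_ j
      · rfl
      · intro i
        rfl
    rw [e4, Fin.prod_univ_succ (n := M + 1)]
    congr 1
    apply Finset.prod_congr rfl
    intro i _
    rw [Fin.cons_succ, ← Fin.cons_snoc_eq_snoc_cons, Fin.cons_succ]

theorem chain {M : ℕ} (b : Fin (M + 1) → ℤ) (δ : ℤ) {s : ℕ} (_hs : 1 ≤ s) :
    twoBridgeKashaev (ltWord (List.ofFn b)) δ (2 * s + 1) =
      Complex.exp (-(2 * Real.pi * Complex.I *
        orientedWrithe (ltWord (List.ofFn b)) ![1, δ, -δ] * (s * (s + 1)) /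
          ((2 * s + 1 : ℕ) : ℂ))) *
      ∑ y : Fin M → Fin (2 * s + 1), ∏ i : Fin (M + 1),
        KK s (b i) ((Fin.cons 0 (fun j => (y j : ℕ)) : Fin (M + 1) → ℕ) i)
          ((Fin.snoc (fun j => (y j : ℕ)) 0 : Fin (M + 1) → ℕ) i) := by
  have e1 : (2 * s + 1 - 1) / 2 = s := by omega
  unfold twoBridgeKashaev
  rw [e1]
  set u : ℂˣ := Units.mk0 (Complex.exp (2 * Real.pi * Complex.I / ((2 * s + 1 : ℕ) : ℂ)))
    (Complex.exp_ne_zero _) with hu0
  have hu : (u : ℂ) = tt s := rfl
  unfold twoBridgeJones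
  congr 1
  · rw [Units.val_zpow_eq_zpow_val, hu]
    unfold tt
    rw [← Complex.exp_int_mul]
    congr 1
    push_cast
    ring
  · rw [tangle_rep hu, ← CS_ofFn]
    exact (row s (List.ofFn b) (by simp) 0).1

end Pool.Agent.Work.MP_b30479_gt.LT
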