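import Pool.Agent.Work.MP_b30479_gt.LT.Near
import Pool.Agent.Work.MP_b30479_gt.LT.BlkE

/-!
# Gaussian domination of the kernel and of the weights, at a critical point near the centre

`EE_bound` is in `BlkE`.
-/

namespace Pool.Agent.Work.MP_b30479_gt.LT

open Finset VOL AX MeasureTheory

lemma exp_ph_bound {z : ℂ} (h0 : 1 / 8 ≤ z.re) (h1 : z.re ≤ 3 / 8) :
    Real.exp (-(2 * (ph z).re)) ≤ 1 / (2 * Real.sin (Real.pi / 8)) ^ 2 := by
  have hpi := Real.pi_pos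
  have hz : z ∈ strip := ⟨by linarith only [h0], by linarith only [h1]⟩
  have hs8 : 0 < Real.sin (Real.pi / 8) := by
    apply Real.sin_pos_of_pos_of_lt_pi <;> linarith only [hpi]
  have h2 : Real.sin (Real.pi / 8) ≤ Real.sin (Real.pi * z.re) := by
    apply Real.sin_le_sin_of_le_of_le_pi_div_two <;> nlinarith only [hpi, h1, h0]
  have h3 : Real.sin (Real.pi * z.re) ≤ ‖Complex.sin (Real.pi * z)‖ := by
    refine le_trans ?_ ((le_abs_self _).trans (Complex.abs_re_le_norm _))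
    rw [sin_pi_re]
    exact le_mul_of_one_le_right (hs8.le.trans h2) (Real.one_le_cosh _)
  have h4 : 2 * Real.sin (Real.pi / 8) ≤ Real.exp (ph z).re := by
    rw [← Complex.norm_exp, exp_ph hz, norm_mul, Complex.norm_ofNat]
    linarith only [h2, h3]
  have h5 : Real.exp (-(2 * (ph z).re)) = (Real.exp (ph z).re ^ 2)⁻¹ := by
    rw [Real.exp_neg, ← Real.exp_nat_mul]
    push_cast
    rfl
  rw [h5, one_div]
  exact inv_anti₀ (by positivity) (pow_le_pow_left₀ (by positivity) h4 2)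

lemma Tn_norm_bound : ∃ K : ℝ, 0 ≤ K ∧ ∀ n : ℕ, 8 ≤ n → ∀ w ζ ζ' : ℂ, 1 / 8 ≤ w.re → w.re ≤ 3 / 8 →
    |ζ.re| ≤ 1 / 16 → |ζ'.re| ≤ 1 / 16 →
    ‖Complex.exp (Tn n w ζ ζ')‖ ≤ K * Real.exp (n * (tp w ζ ζ').re) := by
  obtain ⟨C, hC, h⟩ := Tn_expand
  refine ⟨Real.exp C * (1 / (2 * Real.sin (Real.pi / 8)) ^ 2), by positivity, ?_⟩
  intro n hn w ζ ζ' h0 h1 h2 h3
  have h4 := h n hn w ζ ζ' h0 h1 h2 h3
  have hn1 : (1 : ℝ) ≤ n := by
    have : (8 : ℝ) ≤ n := by exact_mod_cast hn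
    linarith only [this]
  have h5 : C / n ≤ C := div_le_self hC hn1
  have h6 := (Complex.re_le_norm (Tn n w ζ ζ' - (n * tp w ζ ζ' - 2 * ph w))).trans (h4.trans h5)
  have e : (Tn n w ζ ζ' - (n * tp w ζ ζ' - 2 * ph w)).re =
      (Tn n w ζ ζ').re - (n * (tp w ζ ζ').re - 2 * (ph w).re) := by
    simp
  rw [e] at h6
  rw [Complex.norm_exp]
  calc Real.exp (Tn n w ζ ζ').re ≤ Real.exp (C + (-(2 * (ph w).re)) + n * (tp w ζ ζ').re) := by
        apply Real.exp_le_exp.mpr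
        linarith only [h6]
    _ = Real.exp C * Real.exp (-(2 * (ph w).re)) * Real.exp (n * (tp w ζ ζ').re) := by
        rw [Real.exp_add, Real.exp_add]
    _ ≤ _ := by
        gcongr
        exact exp_ph_bound h0 h1

lemma center_cont {ε : ℝ} (hε : 0 < ε) : ∃ η : ℝ, 0 < η ∧ ∀ w ζ ζ' : ℂ, ‖w - 1 / 4‖ ≤ η →
    ‖ζ‖ ≤ η → ‖ζ'‖ ≤ η → ts - ε ≤ (tp w ζ ζ').re := by
  have hmem : ((1 / 4, 0, 0) : ℂ × ℂ × ℂ) ∈ {p : ℂ × ℂ × ℂ | 0 < p.1.re ∧ p.1.re ≤ 3 / 8 ∧
      |p.2.1.re| ≤ 1 / 16 ∧ |p.2.2.re| ≤ 1 / 16} := by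
    refine ⟨by norm_num, by norm_num, by norm_num, by norm_num⟩
  obtain ⟨δ, hδ, h⟩ := Metric.continuousOn_iff.mp tp_continuousOn _ hmem ε hε
  refine ⟨min (δ / 2) (1 / 16), by positivity, ?_⟩
  intro w ζ ζ' h1 h2 h3
  have h1' := h1.trans (min_le_right _ _)
  have h2' := h2.trans (min_le_right _ _)
  have h3' := h3.trans (min_le_right _ _)
  have h1'' := h1.trans (min_le_left _ _)
  have h2'' := h2.trans (min_le_left _ _)
  have h3'' := h3.trans (min_le_left _ _)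
  have h4 : |w.re - 1 / 4| ≤ 1 / 16 := by
    have := (Complex.abs_re_le_norm (w - 1 / 4)).trans h1'
    simpa using this
  have h5 := abs_le.mp h4
  have h6 := h (w, ζ, ζ') ⟨by dsimp only; linarith only [h5], by dsimp only; linarith only [h5],
    (Complex.abs_re_le_norm _).trans h2', (Complex.abs_re_le_norm _).trans h3'⟩ (by
      rw [Prod.dist_eq, Prod.dist_eq, dist_eq_norm, dist_eq_norm, dist_eq_norm, sub_zero, sub_zero]
      refine max_lt (by linarith only [hδ, h1'']) (max_lt (by linarith only [hδ, h2'']) (by linarith only [hδ, h3''])))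
  dsimp only at h6
  rw [dist_eq_norm, tp_center] at h6
  have h7 := (Complex.abs_re_le_norm (tp w ζ ζ' - ((ts : ℝ) : ℂ))).trans h6.le
  rw [Complex.sub_re, Complex.ofReal_re] at h7
  have h8 := abs_le.mp h7
  linarith only [h8]

lemma tz_small : ∃ η : ℝ, 0 < η ∧ ∀ w ζ : ℂ, ‖w - 1 / 4‖ ≤ η → ‖ζ‖ ≤ η → ‖tz w ζ‖ ≤ 8 * ‖ζ‖ := by
  obtain ⟨r, hr, _, h⟩ := tz_approx (ε := 1) one_pos
  refine ⟨r, hr, ?_⟩
  intro w ζ h1 h2
  have h3 := h w ζ 0 h1 h2 (by simpa using hr.le)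
  have h4 : tz w 0 = 0 := by simp [tz]
  rw [h4, sub_zero, sub_zero, one_mul] at h3
  have h5 : ‖(2 * Real.pi * ζ : ℂ)‖ ≤ 7 * ‖ζ‖ := by
    rw [norm_mul, norm_mul, Complex.norm_ofNat, Complex.norm_real,
      Real.norm_of_nonneg Real.pi_pos.le]
    have : 2 * Real.pi ≤ 7 := by
      have := Real.pi_lt_d2
      linarith
    gcongr
  have h6 : ‖tz w ζ‖ ≤ ‖tz w ζ + 2 * Real.pi * ζ‖ + ‖(2 * Real.pi * ζ : ℂ)‖ := by
    have := norm_sub_le (tz w ζ + 2 * Real.pi * ζ) (2 * Real.pi * ζ)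
    rwa [add_sub_cancel_right] at this
  linarith only [h3, h5, h6]

lemma gauss_le {n x0 : ℝ} (hn : 0 < n) :
    ∫ x in (1 / 8 : ℝ)..(3 / 8), Real.exp (-n * (x - x0) ^ 2) ≤ √(Real.pi / n) := by
  have h1 : Integrable (fun x : ℝ => Real.exp (-n * (x - x0) ^ 2)) :=
    (integrable_exp_neg_mul_sq hn).comp_sub_right x0
  rw [intervalIntegral.integral_of_le (by norm_num), ← integral_gaussian n,
    ← integral_sub_right_eq_self (fun x : ℝ => Real.exp (-n * x ^ 2)) x0]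
  exact setIntegral_le_integral h1 (Filter.Eventually.of_forall fun x => (Real.exp_pos _).le)

lemma MM_norm_bound {K : ℝ} (hK0 : 0 ≤ K) (hK : ∀ n : ℕ, 8 ≤ n → ∀ w ζ ζ' : ℂ, 1 / 8 ≤ w.re →
    w.re ≤ 3 / 8 → |ζ.re| ≤ 1 / 16 → |ζ'.re| ≤ 1 / 16 →
    ‖Complex.exp (Tn n w ζ ζ')‖ ≤ K * Real.exp (n * (tp w ζ ζ').re)) {n : ℕ} (hn : 8 ≤ n)
    {τ Q x0 B : ℝ} {ζ ζ' : ℂ} (h2 : |ζ.re| ≤ 1 / 16) (h3 : |ζ'.re| ≤ 1 / 16)
    (h : ∀ x : ℝ, 1 / 8 ≤ x → x ≤ 3 / 8 → (tp ((x : ℂ) + τ * Complex.I) ζ ζ').re ≤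
      Q - (x - x0) ^ 2 ∨ (tp ((x : ℂ) + τ * Complex.I) ζ ζ').re ≤ B) :
    ‖MM n τ ζ ζ'‖ ≤ 1 / n * (K * (Real.exp (n * Q) * √(Real.pi / n) + Real.exp (n * B))) := by
  have hn0 : (0 : ℝ) < n := by
    have : (8 : ℝ) ≤ n := by exact_mod_cast hn
    linarith only [this]
  unfold MM
  rw [norm_mul, norm_div, norm_one, Complex.norm_natCast]
  gcongr
  have hb : ∀ x : ℝ, x ∈ Set.Ioc (1 / 8 : ℝ) (3 / 8) →
      ‖Complex.exp (Tn n ((x : ℂ) + τ * Complex.I) ζ ζ')‖ ≤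
      K * (Real.exp (n * Q) * Real.exp (-n * (x - x0) ^ 2) + Real.exp (n * B)) := by
    intro x hx
    have hre : ((x : ℂ) + τ * Complex.I).re = x := by simp
    refine (hK n hn _ ζ ζ' (by rw [hre]; exact hx.1.le) (by rw [hre]; exact hx.2) h2 h3).trans ?_
    gcongr
    rcases h x hx.1.le hx.2 with h4 | h4
    · have : Real.exp (n * (tp ((x : ℂ) + τ * Complex.I) ζ ζ').re) ≤
          Real.exp (n * Q) * Real.exp (-n * (x - x0) ^ 2) := by
        rw [← Real.exp_add]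
        apply Real.exp_le_exp.mpr
        have := mul_le_mul_of_nonneg_left h4 hn0.le
        linarith only [this]
      have h5 := Real.exp_pos (n * B)
      linarith only [this, h5]
    · have : Real.exp (n * (tp ((x : ℂ) + τ * Complex.I) ζ ζ').re) ≤ Real.exp (n * B) := by
        apply Real.exp_le_exp.mpr
        exact mul_le_mul_of_nonneg_left h4 hn0.le
      have h5 : 0 < Real.exp (n * Q) * Real.exp (-n * (x - x0) ^ 2) := by positivity
      linarith only [this, h5]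
  have hi : IntervalIntegrable (fun x : ℝ => K * (Real.exp (n * Q) *
      Real.exp (-n * (x - x0) ^ 2) + Real.exp (n * B))) volume (1 / 8) (3 / 8) := by
    apply Continuous.intervalIntegrable
    fun_prop
  have h5 := intervalIntegral.norm_integral_le_of_norm_le (μ := volume)
    (by norm_num : (1 / 8 : ℝ) ≤ 3 / 8)
    (Filter.Eventually.of_forall hb) hi
  refine h5.trans ?_
  rw [intervalIntegral.integral_const_mul, intervalIntegral.integral_add (by
    apply Continuous.intervalIntegrable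
    fun_prop) (by
    apply Continuous.intervalIntegrable
    fun_prop), intervalIntegral.integral_const_mul, intervalIntegral.integral_const]
  have h6 := gauss_le (x0 := x0) hn0
  have h7 : ((3 / 8 : ℝ) - 1 / 8) • Real.exp (n * B) ≤ Real.exp (n * B) := by
    rw [smul_eq_mul]
    have := Real.exp_pos (n * B)
    linarith only [this]
  gcongr

lemma rpow_32 {x : ℝ} (hx : 0 < x) : x ^ (-(3 / 2) : ℝ) = (x * √x)⁻¹ := by
  rw [Real.rpow_neg hx.le, Real.sqrt_eq_rpow]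
  congr 1
  have : (3 / 2 : ℝ) = 1 + 1 / 2 := by norm_num
  rw [this, Real.rpow_add hx, Real.rpow_one]

/-- exponentially small terms -/
lemma exp_small {c0 : ℝ} (hc : 0 < c0) {n : ℕ} (hn : 1 ≤ n) {B G : ℝ} (h : B + c0 / 2 ≤ G) :
    Real.exp (n * B) ≤ 8 / c0 ^ 2 * (n : ℝ) ^ (-(3 / 2) : ℝ) * Real.exp (n * G) := by
  have hn1 : (1 : ℝ) ≤ n := by exact_mod_cast hn
  have hn0 : (0 : ℝ) < n := by linarith only [hn1]
  have h1 : Real.exp (n * B) ≤ Real.exp (-(n * (c0 / 2))) * Real.exp (n * G) := by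
    rw [← Real.exp_add]
    apply Real.exp_le_exp.mpr
    have := mul_le_mul_of_nonneg_left h hn0.le
    linarith only [this]
  refine h1.trans ?_
  gcongr
  rw [rpow_32 hn0, Real.exp_neg]
  have h2 : (n * (c0 / 2)) ^ 2 / 2 ≤ Real.exp (n * (c0 / 2)) := by
    have h3 := Real.quadratic_le_exp_of_nonneg (x := n * (c0 / 2)) (by positivity)
    have h4 : 0 ≤ n * (c0 / 2) := by positivity
    linarith only [h3, h4]
  have h3 : (n * √n * (c0 ^ 2 / 8) : ℝ) ≤ Real.exp (n * (c0 / 2)) := by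
    refine le_trans ?_ h2
    have h5 : √(n : ℝ) ≤ n := by
      rw [Real.sqrt_le_left hn0.le]
      nlinarith only [hn1]
    have h6 : (n * √n : ℝ) ≤ n * n := mul_le_mul_of_nonneg_left h5 hn0.le
    have h7 : (n * √n * (c0 ^ 2 / 8) : ℝ) ≤ n * n * (c0 ^ 2 / 8) :=
      mul_le_mul_of_nonneg_right h6 (by positivity)
    refine h7.trans (le_of_eq ?_)
    ring
  have hs : 0 < √(n : ℝ) := Real.sqrt_pos.mpr hn0
  have h8 : (0 : ℝ) < n * √n * (c0 ^ 2 / 8) := by positivity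
  refine (inv_anti₀ h8 h3).trans (le_of_eq ?_)
  field_simp

/-- domination of the kernel -/
theorem SS_bound : ∃ η c : ℝ, 0 < η ∧ 0 < c ∧ ∀ w ζ ζ' : ℂ, tw w ζ ζ' = 0 → ‖w - 1 / 4‖ ≤ η →
    ‖ζ‖ ≤ η → ‖ζ'‖ ≤ η → 0 < ζ.im → 0 < ζ'.im → ∃ (C : ℝ) (N : ℕ), 0 ≤ C ∧ ∀ n : ℕ, N ≤ n →
    ∀ σ σ' : ℝ, |σ| ≤ 1 / 2 → |σ'| ≤ 1 / 2 → ‖SS n (zt ζ.im σ) (zt ζ'.im σ')‖ ≤
      C * (n : ℝ) ^ (-(3 / 2) : ℝ) * Real.exp (n * ((tp w ζ ζ').re + (tz w ζ).re * (σ - ζ.re) +
        (tz w ζ').re * (σ' - ζ'.re) - c * ((σ - ζ.re) ^ 2 + (σ' - ζ'.re) ^ 2))) := by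
  obtain ⟨r, hr, hr16, hconc⟩ := conc
  obtain ⟨κ, δ₁, c₁, C₁, N₁, hκ, hδ₁, hδ₁', hc₁, hC₁, hN₁, hnear⟩ := SS_near
  obtain ⟨ε₂, c₂, hε₂, hε₂', hc₂, hmid⟩ := tp_mid (δ := r / 2) (by positivity)
  obtain ⟨K, hK0, hK⟩ := Tn_norm_bound
  obtain ⟨η₅, hη₅, htz⟩ := tz_small
  set δ := min (r / 4) (min (δ₁ / 2) (ε₂ / 2)) with hδ
  have hδ0 : 0 < δ := by positivity
  obtain ⟨ε₃, c₃, C₃, hε₃, hc₃, hC₃, hfar⟩ := SS_far hδ0
  set c₀ := min c₁ (min c₂ c₃) with hc₀
  have hc₀0 : 0 < c₀ := by positivity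
  have hc01 : c₀ ≤ c₁ := min_le_left _ _
  have hc02 : c₀ ≤ c₂ := (min_le_right _ _).trans (min_le_left _ _)
  have hc03 : c₀ ≤ c₃ := (min_le_right _ _).trans (min_le_right _ _)
  obtain ⟨η₄, hη₄, hcen⟩ := center_cont (ε := c₀ / 8) (by positivity)
  set c := min 1 (c₀ / 8) with hc
  have hc0 : 0 < c := by positivity
  have hcle1 : c ≤ 1 := min_le_left _ _
  have hcle2 : c ≤ c₀ / 8 := min_le_right _ _
  set η := min (min (min (r / 4) κ) (min (δ₁ / 2) (ε₂ / 2)))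
    (min (min ε₃ η₄) (min η₅ (min (c₀ / 128) (1 / 2)))) with hη
  have hη0 : 0 < η := by positivity
  have hη1 : η ≤ r / 4 := (min_le_left _ _).trans ((min_le_left _ _).trans (min_le_left _ _))
  have hη2 : η ≤ κ := (min_le_left _ _).trans ((min_le_left _ _).trans (min_le_right _ _))
  have hη3 : η ≤ δ₁ / 2 := (min_le_left _ _).trans ((min_le_right _ _).trans (min_le_left _ _))
  have hη4 : η ≤ ε₂ / 2 := (min_le_left _ _).trans ((min_le_right _ _).trans (min_le_right _ _))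
  have hη5 : η ≤ ε₃ := (min_le_right _ _).trans ((min_le_left _ _).trans (min_le_left _ _))
  have hη6 : η ≤ η₄ := (min_le_right _ _).trans ((min_le_left _ _).trans (min_le_right _ _))
  have hη7 : η ≤ η₅ := (min_le_right _ _).trans ((min_le_right _ _).trans (min_le_left _ _))
  have hη8 : η ≤ c₀ / 128 := (min_le_right _ _).trans ((min_le_right _ _).trans
    ((min_le_right _ _).trans (min_le_left _ _)))
  have hη9 : η ≤ 1 / 2 := (min_le_right _ _).trans ((min_le_right _ _).trans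
    ((min_le_right _ _).trans (min_le_right _ _)))
  have hδ1 : δ ≤ r / 4 := min_le_left _ _
  have hδ2 : δ ≤ δ₁ / 2 := (min_le_right _ _).trans (min_le_left _ _)
  have hδ3 : δ ≤ ε₂ / 2 := (min_le_right _ _).trans (min_le_right _ _)
  refine ⟨η, c, hη0, hc0, ?_⟩
  intro w ζ ζ' hcrit hw hζ hζ' hρ hρ'
  set ρ := ζ.im with hρdef
  set ρ' := ζ'.im with hρ'def
  have hρη : ρ ≤ η := ((le_abs_self _).trans (Complex.abs_im_le_norm ζ)).trans hζ
  have hρη' : ρ' ≤ η := ((le_abs_self _).trans (Complex.abs_im_le_norm ζ')).trans hζ'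
  refine ⟨K * √Real.pi + (K + C₁ + C₃) * (8 / c₀ ^ 2), N₁, by positivity, ?_⟩
  intro n hn σ σ' hσ hσ'
  have hn8 : 8 ≤ n := hN₁.trans hn
  have hn1 : (1 : ℝ) ≤ n := by
    have : (8 : ℝ) ≤ n := by exact_mod_cast hn8
    linarith only [hr16, hη0, hη1, this]
  have hn0 : (0 : ℝ) < n := by linarith only [hr16, hη0, hη1, hn1]
  set D := (σ - ζ.re) ^ 2 + (σ' - ζ'.re) ^ 2 with hD
  have hD0 : 0 ≤ D := by positivity
  set P := (tp w ζ ζ').re + (tz w ζ).re * (σ - ζ.re) + (tz w ζ').re * (σ' - ζ'.re) with hP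
  set E := Real.exp (n * (P - c * D)) with hE
  have hE0 : 0 < E := Real.exp_pos _
  -- the tangent plane is high
  have hab : |σ - ζ.re| ≤ 1 := by
    have h1 := (Complex.abs_re_le_norm ζ).trans hζ
    have := abs_sub σ ζ.re
    linarith only [hr16, hη0, hη1, hσ, h1, this]
  have hab' : |σ' - ζ'.re| ≤ 1 := by
    have h1 := (Complex.abs_re_le_norm ζ').trans hζ'
    have := abs_sub σ' ζ'.re
    linarith only [hr16, hη0, hη1, hσ', h1, this]
  have hDle : D ≤ 2 := by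
    have h1 : (σ - ζ.re) ^ 2 ≤ 1 := by rw [← sq_abs]; exact pow_le_one₀ (abs_nonneg _) hab
    have h2 : (σ' - ζ'.re) ^ 2 ≤ 1 := by rw [← sq_abs]; exact pow_le_one₀ (abs_nonneg _) hab'
    linarith only [h1, h2]
  have hPge : ts - c₀ / 2 ≤ P - c * D := by
    have h1 := hcen w ζ ζ' (hw.trans hη6) (hζ.trans hη6) (hζ'.trans hη6)
    have h2 : |(tz w ζ).re * (σ - ζ.re)| ≤ c₀ / 16 := by
      rw [abs_mul]
      have h3 : |(tz w ζ).re| ≤ 8 * (c₀ / 128) :=
        (Complex.abs_re_le_norm _).trans ((htz w ζ (hw.trans hη7) (hζ.trans hη7)).trans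
          (by linarith only [hη8, hζ]))
      calc _ ≤ 8 * (c₀ / 128) * 1 := by gcongr
        _ = _ := by ring
    have h2' : |(tz w ζ').re * (σ' - ζ'.re)| ≤ c₀ / 16 := by
      rw [abs_mul]
      have h3 : |(tz w ζ').re| ≤ 8 * (c₀ / 128) :=
        (Complex.abs_re_le_norm _).trans ((htz w ζ' (hw.trans hη7) (hζ'.trans hη7)).trans
          (by linarith only [hη8, hζ']))
      calc _ ≤ 8 * (c₀ / 128) * 1 := by gcongr
        _ = _ := by ring
    have h4 : c * D ≤ c₀ / 8 * 2 := by gcongr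
    have h5 := abs_le.mp h2
    have h6 := abs_le.mp h2'
    rw [hP]
    linarith only [h1, h4, h5, h6]
  have hsm : ∀ B : ℝ, B ≤ ts - c₀ → Real.exp (n * B) ≤ 8 / c₀ ^ 2 * (n : ℝ) ^ (-(3 / 2) : ℝ) * E := by
    intro B hB
    exact exp_small hc₀0 (by omega) (by linarith only [hPge, hB])
  have hnp : (0 : ℝ) ≤ (n : ℝ) ^ (-(3 / 2) : ℝ) := by positivity
  have hth0 := th_nonneg hσ
  have hth0' := th_nonneg hσ'
  by_cases hcase : |σ| < δ ∧ |σ'| < δ
  · -- near the centre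
    obtain ⟨hs, hs'⟩ := hcase
    have hs4 : |σ| ≤ 1 / 4 := by linarith only [hr16, hη0, hη1, hδ1, hs]
    have hs4' : |σ'| ≤ 1 / 4 := by linarith only [hr16, hη0, hη1, hδ1, hs']
    rw [zt_mid hs4, zt_mid hs4']
    set z := (σ : ℂ) + (ρ : ℂ) * Complex.I with hz
    set z' := (σ' : ℂ) + (ρ' : ℂ) * Complex.I with hz'
    have hzn : ‖z‖ ≤ δ + η := by
      refine (norm_add_le _ _).trans ?_
      rw [norm_mul, Complex.norm_I, mul_one, Complex.norm_real, Complex.norm_real,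
        Real.norm_eq_abs, Real.norm_of_nonneg hρ.le]
      linarith only [hρη, hs]
    have hzn' : ‖z'‖ ≤ δ + η := by
      refine (norm_add_le _ _).trans ?_
      rw [norm_mul, Complex.norm_I, mul_one, Complex.norm_real, Complex.norm_real,
        Real.norm_eq_abs, Real.norm_of_nonneg hρ'.le]
      linarith only [hρη', hs']
    have hzre : z.re = σ := by simp [hz]
    have hzre' : z'.re = σ' := by simp [hz']
    have hτ : |w.im| ≤ η := by
      have := (Complex.abs_im_le_norm (w - 1 / 4)).trans hw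
      have e : (w - 1 / 4).im = w.im := by simp
      rwa [e] at this
    have h1 := hnear n hn w.im (hτ.trans hη2) z z' (by linarith only [hη3, hδ2, hzn]) (by linarith only [hη3, hδ2, hzn'])
    have h2 : ‖MM n w.im z z'‖ ≤ 1 / n * (K * (Real.exp (n * (P - D)) * √(Real.pi / n) +
        Real.exp (n * (ts - c₂)))) := by
      refine MM_norm_bound hK0 hK hn8 (x0 := w.re) (by rw [hzre]; linarith only [hr16, hη0, hη1, hδ1, hs])
        (by rw [hzre']; linarith only [hr16, hη0, hη1, hδ1, hs']) ?_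
      intro x hx0 hx1
      by_cases hx : |x - 1 / 4| ≤ r / 2
      · left
        have e1 : w + ((x - w.re : ℝ) : ℂ) = (x : ℂ) + (w.im : ℂ) * Complex.I := by
          apply Complex.ext <;> simp
        have e2 : ζ + ((σ - ζ.re : ℝ) : ℂ) = z := by
          apply Complex.ext <;> simp [hz, hρdef]
        have e3 : ζ' + ((σ' - ζ'.re : ℝ) : ℂ) = z' := by
          apply Complex.ext <;> simp [hz', hρ'def]
        have h3 := hconc w ζ ζ' (x - w.re) (σ - ζ.re) (σ' - ζ'.re) (by linarith only [hη0, hη1, hw]) (by linarith only [hη0, hη1, hζ])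
          (by linarith only [hη0, hη1, hζ']) (by
            rw [e1]
            have e4 : (x : ℂ) + (w.im : ℂ) * Complex.I - 1 / 4 =
                ((x - 1 / 4 : ℝ) : ℂ) + (w.im : ℂ) * Complex.I := by push_cast; ring
            rw [e4]
            refine (norm_add_le _ _).trans ?_
            rw [norm_mul, Complex.norm_I, mul_one, Complex.norm_real, Complex.norm_real,
              Real.norm_eq_abs, Real.norm_eq_abs]
            linarith only [hη0, hη1, hτ, hx]) (by rw [e2]; linarith only [hη0, hη1, hδ1, hzn]) (by rw [e3]; linarith only [hη0, hη1, hδ1, hzn'])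
        rw [e1, e2, e3, hcrit, Complex.zero_re, zero_mul, add_zero] at h3
        rw [hP, hD]
        linarith only [h3]
      · right
        push Not at hx
        have hre : ((x : ℂ) + (w.im : ℂ) * Complex.I).re = x := by simp
        have him : ((x : ℂ) + (w.im : ℂ) * Complex.I).im = w.im := by simp
        exact hmid _ z z' (by rw [hre]; exact hx0) (by rw [hre]; exact hx1)
          (by rw [hre]; exact hx.le) (by rw [him]; linarith only [hη0, hη4, hτ]) (by linarith only [hη4, hδ3, hzn]) (by linarith only [hη4, hδ3, hzn'])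
    have h3 : ‖SS n z z'‖ ≤ ‖SS n z z' - MM n w.im z z'‖ + ‖MM n w.im z z'‖ := by
      have := norm_add_le (SS n z z' - MM n w.im z z') (MM n w.im z z')
      rwa [sub_add_cancel] at this
    have h4 := hsm (ts - c₁) (by linarith only [hc01])
    have h5 := hsm (ts - c₂) (by linarith only [hc02])
    have h6 : 1 / n * (K * (Real.exp (n * (P - D)) * √(Real.pi / n) +
        Real.exp (n * (ts - c₂)))) ≤ K * √Real.pi * (n : ℝ) ^ (-(3 / 2) : ℝ) * E +
        K * (8 / c₀ ^ 2 * (n : ℝ) ^ (-(3 / 2) : ℝ) * E) := by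
      have h7 : 1 / n * (K * (Real.exp (n * (P - D)) * √(Real.pi / n) +
        Real.exp (n * (ts - c₂)))) = K * √Real.pi * (n : ℝ) ^ (-(3 / 2) : ℝ) *
          Real.exp (n * (P - D)) + 1 / n * (K * Real.exp (n * (ts - c₂))) := by
        rw [rpow_32 hn0, Real.sqrt_div Real.pi_pos.le]
        have hs : 0 < √(n : ℝ) := Real.sqrt_pos.mpr hn0
        field_simp
      rw [h7]
      apply add_le_add
      · gcongr
        rw [hE]
        apply Real.exp_le_exp.mpr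
        have : c * D ≤ 1 * D := by gcongr
        nlinarith only [this]
      · have h8 : (1 : ℝ) / n ≤ 1 := by
          rw [div_le_one hn0]; exact hn1
        calc 1 / (n : ℝ) * (K * Real.exp (n * (ts - c₂))) ≤ 1 * (K * Real.exp (n * (ts - c₂))) := by
              gcongr
          _ = K * Real.exp (n * (ts - c₂)) := one_mul _
          _ ≤ _ := by gcongr
    have h9 : C₁ * Real.exp (n * (ts - c₁)) ≤ C₁ * (8 / c₀ ^ 2 * (n : ℝ) ^ (-(3 / 2) : ℝ) * E) := by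
      gcongr
    have h10 : 0 ≤ C₃ * (8 / c₀ ^ 2) * (n : ℝ) ^ (-(3 / 2) : ℝ) * E := by positivity
    calc ‖SS n z z'‖ ≤ C₁ * (8 / c₀ ^ 2 * (n : ℝ) ^ (-(3 / 2) : ℝ) * E) +
          (K * √Real.pi * (n : ℝ) ^ (-(3 / 2) : ℝ) * E +
          K * (8 / c₀ ^ 2 * (n : ℝ) ^ (-(3 / 2) : ℝ) * E)) := by linarith only [h1, h2, h3, h6, h9]
      _ ≤ _ := by
          have e : (K * √Real.pi + (K + C₁ + C₃) * (8 / c₀ ^ 2)) * (n : ℝ) ^ (-(3 / 2) : ℝ) * E =
            C₁ * (8 / c₀ ^ 2 * (n : ℝ) ^ (-(3 / 2) : ℝ) * E) +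
            (K * √Real.pi * (n : ℝ) ^ (-(3 / 2) : ℝ) * E +
            K * (8 / c₀ ^ 2 * (n : ℝ) ^ (-(3 / 2) : ℝ) * E)) +
            C₃ * (8 / c₀ ^ 2) * (n : ℝ) ^ (-(3 / 2) : ℝ) * E := by ring
          rw [e]
          linarith only [h10]
  · have hcase' : δ ≤ |σ| ∨ δ ≤ |σ'| := by
      by_contra hcon
      push Not at hcon
      exact hcase hcon
    have him : ∀ {ρ₁ σ₁ : ℝ}, 0 < ρ₁ → ρ₁ ≤ η → |σ₁| ≤ 1 / 2 → |(zt ρ₁ σ₁).im| ≤ ε₃ := by
      intro ρ₁ σ₁ h1 h2 h3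
      have h4 := th_nonneg h3
      have h5 := th_le_one σ₁
      rw [zt_im, abs_of_nonneg (by positivity)]
      have : ρ₁ * th σ₁ ≤ ρ₁ * 1 := mul_le_mul_of_nonneg_left h5 h1.le
      linarith only [hη5, h2, this]
    have h1 := hfar n (by omega) (zt ρ σ) (zt ρ' σ') (by rwa [zt_re]) (by rwa [zt_re])
      (him hρ hρη hσ) (him hρ' hρη' hσ') (by rwa [zt_re, zt_re])
    have h2 := hsm (ts - c₃) (by linarith only [hc03])
    have h3 : 0 ≤ K * √Real.pi * (n : ℝ) ^ (-(3 / 2) : ℝ) * E := by positivity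
    have h4 : 0 ≤ (K + C₁) * (8 / c₀ ^ 2) * (n : ℝ) ^ (-(3 / 2) : ℝ) * E := by positivity
    calc _ ≤ C₃ * (8 / c₀ ^ 2 * (n : ℝ) ^ (-(3 / 2) : ℝ) * E) := h1.trans (by gcongr)
      _ ≤ _ := by
          have e : (K * √Real.pi + (K + C₁ + C₃) * (8 / c₀ ^ 2)) * (n : ℝ) ^ (-(3 / 2) : ℝ) * E =
            C₃ * (8 / c₀ ^ 2 * (n : ℝ) ^ (-(3 / 2) : ℝ) * E) +
            K * √Real.pi * (n : ℝ) ^ (-(3 / 2) : ℝ) * E +
            (K + C₁) * (8 / c₀ ^ 2) * (n : ℝ) ^ (-(3 / 2) : ℝ) * E := by ring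
          rw [e]
          linarith only [h3, h4]

end Pool.Agent.Work.MP_b30479_gt.LT
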