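import Pool.Agent.Work.MP_b30479_gt.VOL.MProd
import Pool.Agent.Work.MP_b30479_gt.TwoBridgeTwist

/-!
# Two-bridge links with long twist regions: definitions
-/

namespace Pool.Agent.Work.MP_b30479_gt.LT

open Finset VOL AX MeasureTheory

/-! ### words -/

/-- the word `σ_1^b` (`g = 0`), `σ_2^b` (`g = 1`) -/
def blk (g : Fin 2) (b : ℤ) : List (Fin 2 × Bool) := List.replicate b.natAbs (g, decide (0 ≤ b))

/-- auxiliary function for `ltWord` -/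
def topW : Fin 2 → List ℤ → List (Fin 2 × Bool)
  | _, [] => []
  | g, [b] => if g = 0 then ((1 : Fin 2), false) :: blk 0 (b - 1) else blk 1 b
  | g, b :: c :: l => topW (Fin.rev g) (c :: l) ++ blk g b

/-- The braid word `σ_2^{b_m} ⋯ σ_1^{b_3} σ_2^{b_2} σ_1^{b_1}` for even `m`, and
`σ_2^{-1} σ_1^{b_m - 1} σ_2^{b_{m-1}} ⋯ σ_2^{b_2} σ_1^{b_1}` for odd `m`.  Its two-bridge link has
the continued fraction `[b_1, -b_2, b_3, ...]`; for `b_i = (-1)^{i-1} a_i`, `a_i > 0`, it is the link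
`C(a_1, ..., a_m)` in Conway notation. -/
def ltWord (l : List ℤ) : List (Fin 2 × Bool) := topW 0 l

/-! ### the exact formula -/

/-- `∏_{l < y} (2 cos 2πζ + 2 cos (2π (l + 1/2) / n))` -/
noncomputable def PP (n y : ℕ) (ζ : ℂ) : ℂ :=
  ∏ l ∈ range y, (2 * Complex.cos (2 * Real.pi * ζ) +
    ((2 * Real.cos (2 * Real.pi * (l + 1 / 2) / n) : ℝ) : ℂ))

/-- the summand of the kernel -/
noncomputable def term (n y : ℕ) (ζ ζ' : ℂ) : ℂ :=
  PP n y ζ * PP n y ζ' / ((fS n y ^ 4 : ℝ) : ℂ)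

/-- the kernel -/
noncomputable def SS (n : ℕ) (ζ ζ' : ℂ) : ℂ := ∑ y ∈ range n, term n y ζ ζ'

/-- height of the path -/
noncomputable def th (σ : ℝ) : ℝ := min 1 (2 - 4 * |σ|)

/-- the path, `-1/2 ≤ σ ≤ 1/2` -/
noncomputable def zt (ρ σ : ℝ) : ℂ := (σ : ℂ) + ((ρ * th σ : ℝ) : ℂ) * Complex.I

/-- its derivative -/
noncomputable def dzt (ρ σ : ℝ) : ℂ :=
  1 + ((ρ * (if |σ| < 1 / 4 then 0 else if 0 < σ then -4 else 4) : ℝ) : ℂ) * Complex.I

/-- the weight at a twist region with `b` crossings -/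
noncomputable def EE (n : ℕ) (b : ℤ) (ρ σ : ℝ) : ℂ :=
  Complex.exp (Real.pi * Complex.I * b * n * zt ρ σ ^ 2) * Complex.sin (2 * Real.pi * zt ρ σ) /
    Complex.sin (Real.pi * n * zt ρ σ) ^ 2 * dzt ρ σ

/-- the cube -/
def box (M : ℕ) : Set (Fin (M + 1) → ℝ) := Set.univ.pi fun _ => Set.Icc (-(1 / 2)) (1 / 2)

/-- the integral over the cube -/
noncomputable def II (n : ℕ) {M : ℕ} (b : Fin (M + 1) → ℤ) (ρ : Fin (M + 1) → ℝ) : ℂ :=
  ∫ σ in box M, (∏ i, EE n (b i) (ρ i) (σ i)) *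
    ∏ j : Fin M, SS n (zt (ρ j.castSucc) (σ j.castSucc)) (zt (ρ j.succ) (σ j.succ))

/-- the phase factor; `W` is the writhe, `e` the sum of the `b_i` -/
noncomputable def phs (W e : ℤ) (s : ℕ) : ℂ :=
  Complex.exp (-(2 * Real.pi * Complex.I * W * (s * (s + 1)) / ((2 * s + 1 : ℕ) : ℂ))) *
    Complex.exp (Real.pi * Complex.I * e * s ^ 2 / ((2 * s + 1 : ℕ) : ℂ))

/-! ### the potential -/

/-- the potential of a turning point -/
noncomputable def tp (w ζ ζ' : ℂ) : ℂ :=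
  Fh (w + 1 / 2 + ζ) + Fh (w + 1 / 2 - ζ) + Fh (w + 1 / 2 + ζ') + Fh (w + 1 / 2 - ζ') - 4 * Fh w

/-- derivative of `tp` with respect to `w` -/
noncomputable def tw (w ζ ζ' : ℂ) : ℂ :=
  ph (w + 1 / 2 + ζ) + ph (w + 1 / 2 - ζ) + ph (w + 1 / 2 + ζ') + ph (w + 1 / 2 - ζ') - 4 * ph w

/-- derivative of `tp` with respect to `ζ` -/
noncomputable def tz (w ζ : ℂ) : ℂ := ph (w + 1 / 2 + ζ) - ph (w + 1 / 2 - ζ)

/-- the potential -/
noncomputable def TT {M : ℕ} (b : Fin (M + 1) → ℤ) (y : Fin M → ℂ) (ζ : Fin (M + 1) → ℂ) : ℂ :=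
  ∑ i, (Real.pi * Complex.I * b i * ζ i ^ 2 + 2 * Real.pi * Complex.I * ζ i) +
    ∑ j : Fin M, tp (y j) (ζ j.castSucc) (ζ j.succ)

/-- the derivative of the second sum of `TT` with respect to `ζ i` -/
noncomputable def dz {M : ℕ} (y : Fin M → ℂ) (ζ : Fin (M + 1) → ℂ) (i : Fin (M + 1)) : ℂ :=
  ∑ j : Fin M, ((if j.castSucc = i then tz (y j) (ζ i) else 0) +
    (if j.succ = i then tz (y j) (ζ i) else 0))

/-- critical points of `TT` -/
structure Crit {M : ℕ} (b : Fin (M + 1) → ℤ) (y : Fin M → ℂ) (ζ : Fin (M + 1) → ℂ) : Prop where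
  crit_y : ∀ j : Fin M, tw (y j) (ζ j.castSucc) (ζ j.succ) = 0
  crit_z : ∀ i, 2 * Real.pi * Complex.I * (b i * ζ i + 1) + dz y ζ i = 0

/-- the maximal value `v_8 / π` of the real potential -/
noncomputable def ts : ℝ := -8 * (Fh (1 / 4)).re

/-! ### interpolation -/

/-- the exact exponent -/
noncomputable def Tn (n : ℕ) (w ζ ζ' : ℂ) : ℂ :=
  M n (w + 1 / 2 + ζ) + M n (w + 1 / 2 - ζ) + M n (w + 1 / 2 + ζ') + M n (w + 1 / 2 - ζ') -
    4 * M n (w + 1 / (2 * n))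

/-- the main part of the kernel: an integral over `1/8 ≤ x ≤ 3/8` at height `τ` -/
noncomputable def MM (n : ℕ) (τ : ℝ) (ζ ζ' : ℂ) : ℂ :=
  1 / n * ∫ x in (1 / 8 : ℝ)..(3 / 8), Complex.exp (Tn n ((x : ℂ) + τ * Complex.I) ζ ζ')

end Pool.Agent.Work.MP_b30479_gt.LT
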