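import Pool.Agent.Work.MP_b30479_gt.LT.XSad
import Pool.Agent.Work.MP_b30479_gt.LT.CoreG

/-!
# The critical point for weighted graphs, `|b_v| ≥ 10` and `|b_v| ≥ 10 deg v`
-/

namespace Pool.Agent.Work.MP_b30479_gt.LT

open Finset VOL AX MeasureTheory

section graph

variable {V E : Type*} [Fintype V] [DecidableEq V] [Fintype E]

omit [Fintype V]

/-- the degree of a vertex (loops count twice) -/
def degG (src tgt : E → V) (v : V) : ℕ :=
  ∑ e, ((if src e = v then 1 else 0) + (if tgt e = v then 1 else 0))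

/-- `tan (π y_e)` -/
noncomputable def qhG (src tgt : E → V) (ζ : V → ℂ) (e : E) : ℂ :=
  GT.isq (1 + GT.tz (ζ (src e)) ^ 2 + GT.tz (ζ (tgt e)) ^ 2)

/-- `∑_{e at v} artanh (tan (π ζ_v) q_e)` -/
noncomputable def SmG (src tgt : E → V) (ζ : V → ℂ) (v : V) : ℂ :=
  ∑ e, ((if src e = v then GT.ath (GT.tz (ζ v) * qhG src tgt ζ e) else 0) +
    (if tgt e = v then GT.ath (GT.tz (ζ v) * qhG src tgt ζ e) else 0))

/-- the reduced equations -/
def SadEqG (src tgt : E → V) (a : V → ℕ) (ε : V → ℝ) (ζ : V → ℂ) : Prop :=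
  ∀ v, (a v : ℂ) * ζ v - 1 = -(Complex.I * ε v / Real.pi) * SmG src tgt ζ v

theorem deg_sum (src tgt : E → V) (v : V) (f : E → ℂ) {K : ℝ} (hf : ∀ e, ‖f e‖ ≤ K) :
    ‖∑ e, ((if src e = v then f e else 0) + (if tgt e = v then f e else 0))‖ ≤
      degG src tgt v * K := by
  unfold degG
  push_cast
  rw [Finset.sum_mul]
  refine (norm_sum_le _ _).trans (Finset.sum_le_sum fun e _ => ?_)
  refine (norm_add_le _ _).trans ?_
  rw [add_mul]
  refine add_le_add ?_ ?_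
  · split_ifs
    · rw [one_mul]; exact hf e
    · rw [norm_zero, zero_mul]
  · split_ifs
    · rw [one_mul]; exact hf e
    · rw [norm_zero, zero_mul]

/-- `ζ` in terms of `w` -/
noncomputable def zwG (a : V → ℕ) (w : V → ℂ) (v : V) : ℂ := (1 + w v) / a v

/-- the map -/
noncomputable def GGG (src tgt : E → V) (a : V → ℕ) (ε : V → ℝ) (w : V → ℂ) (v : V) : ℂ :=
  -(Complex.I * ε v / Real.pi) * SmG src tgt (zwG a w) v

variable {src tgt : E → V} {a : V → ℕ} {ε : V → ℝ}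

omit [DecidableEq V] [Fintype E] in
theorem KG_re (ha : ∀ v, 10 ≤ a v) {w : V → ℂ} (hw : ∀ v, ‖w v‖ ≤ 2 / 5) (i j : V) :
    1 ≤ (1 + GT.tz (zwG a w i) ^ 2 + GT.tz (zwG a w j) ^ 2).re := by
  have h1 := (GT.tz_dom (ha i) (hw i)).2.2
  have h2 := (GT.tz_dom (ha j) (hw j)).2.2
  rw [Complex.add_re, Complex.add_re, Complex.one_re]
  unfold zwG
  linarith

omit [DecidableEq V] [Fintype E] in
theorem qhG_norm (ha : ∀ v, 10 ≤ a v) {w : V → ℂ} (hw : ∀ v, ‖w v‖ ≤ 2 / 5) (e : E) :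
    ‖qhG src tgt (zwG a w) e‖ ≤ 1 :=
  GT.isq_norm_le (KG_re ha hw _ _)

/-- `‖tan πζ_v‖` in terms of `a_v` -/
theorem tzG_norm {a : ℕ} (ha : 10 ≤ a) {w : ℂ} (hw : ‖w‖ ≤ 2 / 5) :
    ‖GT.tz ((1 + w) / a)‖ ≤ 5.46 / a := by
  have ha0 : (0 : ℝ) < a := by
    have : 0 < a := by omega
    exact_mod_cast this
  have hane : (a : ℂ) ≠ 0 := by exact_mod_cast ha0.ne'
  have e : (a : ℂ) * ((1 + w) / a) - 1 = w := by
    field_simp
    ring
  obtain ⟨-, -, h3, h4⟩ := xs_dom (ζ := (1 + w) / a) ha (by rw [e]; exact hw)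
  refine h3.trans ?_
  have h5 : Real.pi * ‖(1 + w) / (a : ℂ)‖ ≤ 3.1416 * (7 / 5 / a) :=
    mul_le_mul Real.pi_lt_d4.le h4 (norm_nonneg _) (by norm_num)
  calc 1.2402 * (Real.pi * ‖(1 + w) / (a : ℂ)‖) ≤ 1.2402 * (3.1416 * (7 / 5 / (a : ℝ))) :=
        mul_le_mul_of_nonneg_left h5 (by norm_num)
    _ = 1.2402 * 3.1416 * (7 / 5) / a := by ring
    _ ≤ 5.46 / a := by
        apply div_le_div_of_nonneg_right _ ha0.le
        norm_num

omit [DecidableEq V] [Fintype E] in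
theorem uG_norm (ha : ∀ v, 10 ≤ a v) {w : V → ℂ} (hw : ∀ v, ‖w v‖ ≤ 2 / 5) (v : V) (e : E) :
    ‖GT.tz (zwG a w v) * qhG src tgt (zwG a w) e‖ ≤ 1 / 2 := by
  rw [norm_mul]
  have h1 := (GT.tz_dom (ha v) (hw v)).2.1
  have h2 := qhG_norm (src := src) (tgt := tgt) ha hw e
  calc ‖GT.tz (zwG a w v)‖ * ‖qhG src tgt (zwG a w) e‖ ≤ 1 / 2 * 1 :=
        mul_le_mul h1 h2 (norm_nonneg _) (by norm_num)
    _ = 1 / 2 := by norm_num

theorem coefG_norm (hε : ∀ v, |ε v| ≤ 1) (v : V) :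
    ‖-(Complex.I * ε v / Real.pi)‖ ≤ 1 / 3 := by
  rw [norm_neg, norm_div, norm_mul, Complex.norm_I, one_mul, Complex.norm_real, Complex.norm_real,
    Real.norm_eq_abs, Real.norm_of_nonneg Real.pi_pos.le]
  refine (div_le_div_of_nonneg_right (hε v) Real.pi_pos.le).trans ?_
  exact one_div_le_one_div_of_le (by norm_num) Real.pi_gt_three.le

/-- `deg v / a_v ≤ 1/10` -/
theorem deg_div {a d : ℕ} (ha : 10 ≤ a) (hd : 10 * d ≤ a) {x : ℝ} (hx : 0 ≤ x) :
    (d : ℝ) * (x / a) ≤ x / 10 := by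
  have ha0 : (0 : ℝ) < a := by
    have : 0 < a := by omega
    exact_mod_cast this
  have hd' : 10 * (d : ℝ) ≤ a := by exact_mod_cast hd
  rw [mul_div_assoc', div_le_div_iff₀ ha0 (by norm_num)]
  nlinarith

theorem GGG_norm (ha : ∀ v, 10 ≤ a v) (hd : ∀ v, 10 * degG src tgt v ≤ a v)
    (hε : ∀ v, |ε v| ≤ 1) {w : V → ℂ}
    (hw : ∀ v, ‖w v‖ ≤ 2 / 5) (v : V) : ‖GGG src tgt a ε w v‖ ≤ 2 / 5 := by
  unfold GGG
  rw [norm_mul]
  have h1 := coefG_norm hε v
  have h2 : ‖SmG src tgt (zwG a w) v‖ ≤ degG src tgt v * (6.552 / a v) := by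
    refine deg_sum src tgt v _ fun e => ?_
    refine (GT.ath_norm_le (uG_norm ha hw v e)).trans ?_
    rw [norm_mul]
    have h2 := qhG_norm (src := src) (tgt := tgt) ha hw e
    have h3 := tzG_norm (ha v) (hw v)
    have h4 : ‖GT.tz (zwG a w v)‖ * ‖qhG src tgt (zwG a w) e‖ ≤ 5.46 / a v * 1 :=
      mul_le_mul h3 h2 (norm_nonneg _) ((norm_nonneg _).trans h3)
    rw [mul_one] at h4
    have h5 : (6.552 : ℝ) / a v = 6 / 5 * (5.46 / a v) := by
      rw [mul_div_assoc']; norm_num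
    rw [h5]
    linarith
  have h3 := deg_div (ha v) (hd v) (by norm_num : (0 : ℝ) ≤ 6.552)
  calc ‖-(Complex.I * ε v / Real.pi)‖ * ‖SmG src tgt (zwG a w) v‖ ≤ 1 / 3 * (6.552 / 10) :=
        mul_le_mul h1 (h2.trans h3) (norm_nonneg _) (by norm_num)
    _ ≤ 2 / 5 := by norm_num

omit [DecidableEq V] [Fintype E] in
theorem tzG_lip [Fintype V] (ha : ∀ v, 10 ≤ a v) {w w' : V → ℂ} (hw : ∀ v, ‖w v‖ ≤ 2 / 5)
    (hw' : ∀ v, ‖w' v‖ ≤ 2 / 5) (v : V) :
    ‖GT.tz (zwG a w v) - GT.tz (zwG a w' v)‖ ≤ 3.9 / a v * ‖w - w'‖ := by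
  have h1 := GT.tz_lip (ha v) (hw v) (hw' v)
  have ha0 : (0 : ℝ) < a v := by
    have := ha v
    have : 0 < a v := by omega
    exact_mod_cast this
  have h4 : ‖w v - w' v‖ ≤ ‖w - w'‖ := norm_le_pi_norm (w - w') v
  have h5 : 1.2402 * (Real.pi / a v) ≤ 3.9 / a v := by
    rw [mul_div_assoc']
    apply div_le_div_of_nonneg_right _ ha0.le
    have := Real.pi_lt_d4
    norm_num at this ⊢
    linarith
  calc ‖GT.tz (zwG a w v) - GT.tz (zwG a w' v)‖ ≤ 1.2402 * (Real.pi / a v) * ‖w v - w' v‖ := h1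
    _ ≤ 3.9 / a v * ‖w - w'‖ := mul_le_mul h5 h4 (norm_nonneg _) (by positivity)

omit [DecidableEq V] [Fintype E] in
theorem tzG_lip' [Fintype V] (ha : ∀ v, 10 ≤ a v) {w w' : V → ℂ} (hw : ∀ v, ‖w v‖ ≤ 2 / 5)
    (hw' : ∀ v, ‖w' v‖ ≤ 2 / 5) (v : V) :
    ‖GT.tz (zwG a w v) - GT.tz (zwG a w' v)‖ ≤ 0.39 * ‖w - w'‖ := by
  have ha0 : (10 : ℝ) ≤ a v := by exact_mod_cast ha v
  refine (tzG_lip ha hw hw' v).trans (mul_le_mul_of_nonneg_right ?_ (norm_nonneg _))
  rw [div_le_iff₀ (by linarith)]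
  norm_num
  linarith

omit [DecidableEq V] [Fintype E] in
theorem qhG_lip [Fintype V] (ha : ∀ v, 10 ≤ a v) {w w' : V → ℂ} (hw : ∀ v, ‖w v‖ ≤ 2 / 5)
    (hw' : ∀ v, ‖w' v‖ ≤ 2 / 5) (e : E) :
    ‖qhG src tgt (zwG a w) e - qhG src tgt (zwG a w') e‖ ≤ 0.39 * ‖w - w'‖ := by
  have aux : ∀ v, ‖GT.tz (zwG a w v) ^ 2 - GT.tz (zwG a w' v) ^ 2‖ ≤ 0.39 * ‖w - w'‖ := by
    intro v
    have e : GT.tz (zwG a w v) ^ 2 - GT.tz (zwG a w' v) ^ 2 =
        (GT.tz (zwG a w v) + GT.tz (zwG a w' v)) * (GT.tz (zwG a w v) - GT.tz (zwG a w' v)) := by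
      ring
    rw [e, norm_mul]
    have h1 : ‖GT.tz (zwG a w v)‖ ≤ 1 / 2 := (GT.tz_dom (ha v) (hw v)).2.1
    have h2 : ‖GT.tz (zwG a w' v)‖ ≤ 1 / 2 := (GT.tz_dom (ha v) (hw' v)).2.1
    have h3 : ‖GT.tz (zwG a w v) + GT.tz (zwG a w' v)‖ ≤ 1 := (norm_add_le _ _).trans (by linarith)
    calc _ ≤ 1 * (0.39 * ‖w - w'‖) :=
          mul_le_mul h3 (tzG_lip' ha hw hw' v) (norm_nonneg _) (by norm_num)
      _ = _ := one_mul _
  unfold qhG
  refine (GT.isq_lip (KG_re ha hw _ _) (KG_re ha hw' _ _)).trans ?_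
  have e' : (1 + GT.tz (zwG a w (src e)) ^ 2 + GT.tz (zwG a w (tgt e)) ^ 2) -
      (1 + GT.tz (zwG a w' (src e)) ^ 2 + GT.tz (zwG a w' (tgt e)) ^ 2) =
      (GT.tz (zwG a w (src e)) ^ 2 - GT.tz (zwG a w' (src e)) ^ 2) +
      (GT.tz (zwG a w (tgt e)) ^ 2 - GT.tz (zwG a w' (tgt e)) ^ 2) := by ring
  rw [e']
  have := norm_add_le (GT.tz (zwG a w (src e)) ^ 2 - GT.tz (zwG a w' (src e)) ^ 2)
    (GT.tz (zwG a w (tgt e)) ^ 2 - GT.tz (zwG a w' (tgt e)) ^ 2)
  have h1 := aux (src e)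
  have h2 := aux (tgt e)
  linarith

theorem GGG_lip [Fintype V] (ha : ∀ v, 10 ≤ a v) (hd : ∀ v, 10 * degG src tgt v ≤ a v)
    (hε : ∀ v, |ε v| ≤ 1) {w w' : V → ℂ}
    (hw : ∀ v, ‖w v‖ ≤ 2 / 5) (hw' : ∀ v, ‖w' v‖ ≤ 2 / 5) (v : V) :
    ‖GGG src tgt a ε w v - GGG src tgt a ε w' v‖ ≤ 0.6 * ‖w - w'‖ := by
  have ha0 : (0 : ℝ) < a v := by
    have := ha v
    have : 0 < a v := by omega
    exact_mod_cast this
  have h7 := norm_nonneg (w - w')
  have hu : ∀ e : E, ‖GT.ath (GT.tz (zwG a w v) * qhG src tgt (zwG a w) e) -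
      GT.ath (GT.tz (zwG a w' v) * qhG src tgt (zwG a w') e)‖ ≤ 8.1 / a v * ‖w - w'‖ := by
    intro e
    have h1 := GT.ath_lip (by norm_num : (1 / 2 : ℝ) < 1) (uG_norm (src := src) (tgt := tgt)
      ha hw v e) (uG_norm (src := src) (tgt := tgt) ha hw' v e)
    have e' : GT.tz (zwG a w v) * qhG src tgt (zwG a w) e -
        GT.tz (zwG a w' v) * qhG src tgt (zwG a w') e =
        (GT.tz (zwG a w v) - GT.tz (zwG a w' v)) * qhG src tgt (zwG a w) e +
        GT.tz (zwG a w' v) * (qhG src tgt (zwG a w) e - qhG src tgt (zwG a w') e) := by ring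
    have h2 : ‖(GT.tz (zwG a w v) - GT.tz (zwG a w' v)) * qhG src tgt (zwG a w) e‖ ≤
        3.9 / a v * ‖w - w'‖ * 1 := by
      rw [norm_mul]
      exact mul_le_mul (tzG_lip ha hw hw' v) (qhG_norm ha hw e) (norm_nonneg _) (by positivity)
    have h3 : ‖GT.tz (zwG a w' v) * (qhG src tgt (zwG a w) e - qhG src tgt (zwG a w') e)‖ ≤
        5.46 / a v * (0.39 * ‖w - w'‖) := by
      rw [norm_mul]
      exact mul_le_mul (tzG_norm (ha v) (hw' v)) (qhG_lip ha hw hw' e) (norm_nonneg _)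
        (by positivity)
    have h4 := norm_add_le ((GT.tz (zwG a w v) - GT.tz (zwG a w' v)) * qhG src tgt (zwG a w) e)
      (GT.tz (zwG a w' v) * (qhG src tgt (zwG a w) e - qhG src tgt (zwG a w') e))
    rw [e'] at h1
    have h5 : (1 : ℝ) / (1 - (1 / 2) ^ 2) = 4 / 3 := by norm_num
    rw [h5] at h1
    refine h1.trans ?_
    have h8 : 4 / 3 * (3.9 / (a v : ℝ) * ‖w - w'‖ * 1 + 5.46 / a v * (0.39 * ‖w - w'‖)) ≤
        8.1 / a v * ‖w - w'‖ := by
      have h9 : 0 ≤ ‖w - w'‖ / a v := by positivity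
      have e1 : 4 / 3 * (3.9 / (a v : ℝ) * ‖w - w'‖ * 1 + 5.46 / a v * (0.39 * ‖w - w'‖)) =
          8.0392 * (‖w - w'‖ / a v) := by
        ring
      have e2 : 8.1 / (a v : ℝ) * ‖w - w'‖ = 8.1 * (‖w - w'‖ / a v) := by
        field_simp
      rw [e1, e2]
      nlinarith
    linarith
  have e : SmG src tgt (zwG a w) v - SmG src tgt (zwG a w') v = ∑ e : E,
      ((if src e = v then (GT.ath (GT.tz (zwG a w v) * qhG src tgt (zwG a w) e) -
        GT.ath (GT.tz (zwG a w' v) * qhG src tgt (zwG a w') e)) else 0) +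
       (if tgt e = v then (GT.ath (GT.tz (zwG a w v) * qhG src tgt (zwG a w) e) -
        GT.ath (GT.tz (zwG a w' v) * qhG src tgt (zwG a w') e)) else 0)) := by
    unfold SmG
    rw [← Finset.sum_sub_distrib]
    apply Finset.sum_congr rfl
    intro h _
    split_ifs <;> ring
  have h1 := deg_sum src tgt v _ hu
  rw [← e] at h1
  have h2 : GGG src tgt a ε w v - GGG src tgt a ε w' v =
      -(Complex.I * ε v / Real.pi) * (SmG src tgt (zwG a w) v - SmG src tgt (zwG a w') v) := by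
    unfold GGG; ring
  rw [h2, norm_mul]
  have h6 := coefG_norm hε v
  have h8 : (degG src tgt v : ℝ) * (8.1 / a v * ‖w - w'‖) ≤ 0.81 * ‖w - w'‖ := by
    rw [← mul_assoc]
    refine mul_le_mul_of_nonneg_right ?_ h7
    refine (deg_div (ha v) (hd v) (by norm_num : (0 : ℝ) ≤ 8.1)).trans ?_
    norm_num
  calc ‖-(Complex.I * ε v / Real.pi)‖ * ‖SmG src tgt (zwG a w) v - SmG src tgt (zwG a w') v‖
      ≤ 1 / 3 * (0.81 * ‖w - w'‖) := mul_le_mul h6 (h1.trans h8) (norm_nonneg _) (by norm_num)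
    _ ≤ 0.6 * ‖w - w'‖ := by norm_num; linarith

/-- existence of the saddle point -/
theorem exists_sadG [Fintype V] (src tgt : E → V) (ha : ∀ v, 10 ≤ a v)
    (hd : ∀ v, 10 * degG src tgt v ≤ a v) (hε : ∀ v, |ε v| ≤ 1) :
    ∃ ζ : V → ℂ, (∀ v, ‖(a v : ℂ) * ζ v - 1‖ ≤ 2 / 5) ∧ SadEqG src tgt a ε ζ := by
  set s : Set (V → ℂ) := Metric.closedBall 0 (2 / 5) with hs
  have hmem : ∀ w : V → ℂ, w ∈ s ↔ ∀ i, ‖w i‖ ≤ 2 / 5 := by
    intro w
    rw [hs, mem_closedBall_zero_iff, pi_norm_le_iff_of_nonneg (by norm_num)]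
  have hmaps : Set.MapsTo (GGG src tgt a ε) s s := by
    intro w hw
    rw [hmem] at hw ⊢
    exact GGG_norm ha hd hε hw
  have hcontr : ContractingWith (0.6 : NNReal) (hmaps.restrict (GGG src tgt a ε) s s) := by
    refine ⟨by norm_num, ?_⟩
    apply LipschitzWith.of_dist_le_mul
    intro x y
    have hx := (hmem _).1 x.2
    have hy := (hmem _).1 y.2
    rw [Subtype.dist_eq, Subtype.dist_eq, dist_eq_norm, dist_eq_norm]
    have h06 : ((0.6 : NNReal) : ℝ) = 0.6 := by norm_num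
    rw [h06]
    rw [pi_norm_le_iff_of_nonneg (by positivity)]
    intro i
    exact GGG_lip ha hd hε hx hy i
  have h0 : (0 : V → ℂ) ∈ s := Metric.mem_closedBall_self (by norm_num)
  obtain ⟨w, hw, hfix, -⟩ := hcontr.exists_fixedPoint' Metric.isClosed_closedBall.isComplete
    hmaps h0 (edist_ne_top _ _)
  have hw' := (hmem w).1 hw
  have hane : ∀ i, (a i : ℂ) ≠ 0 := by
    intro i
    have := ha i
    exact_mod_cast (by omega : a i ≠ 0)
  refine ⟨zwG a w, ?_, ?_⟩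
  · intro i
    have : (a i : ℂ) * zwG a w i - 1 = w i := by
      unfold zwG
      rw [mul_div_cancel₀ _ (hane i)]
      ring
    rw [this]
    exact hw' i
  · intro i
    have : (a i : ℂ) * zwG a w i - 1 = w i := by
      unfold zwG
      rw [mul_div_cancel₀ _ (hane i)]
      ring
    rw [this]
    have h2 : GGG src tgt a ε w i = w i := congrFun hfix i
    rw [← h2]
    rfl

/-- uniqueness of the saddle point -/
theorem sadG_unique [Fintype V] (ha : ∀ v, 10 ≤ a v)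
    (hd : ∀ v, 10 * degG src tgt v ≤ a v) (hε : ∀ v, |ε v| ≤ 1) {ζ ζ' : V → ℂ}
    (h1 : ∀ i, ‖(a i : ℂ) * ζ i - 1‖ ≤ 2 / 5) (h2 : SadEqG src tgt a ε ζ)
    (h1' : ∀ i, ‖(a i : ℂ) * ζ' i - 1‖ ≤ 2 / 5) (h2' : SadEqG src tgt a ε ζ') : ζ = ζ' := by
  have hane : ∀ i, (a i : ℂ) ≠ 0 := by
    intro i
    have := ha i
    exact_mod_cast (by omega : a i ≠ 0)
  have e1 : ∀ ξ : V → ℂ, zwG a (fun i => (a i : ℂ) * ξ i - 1) = ξ := by
    intro ξ
    funext i
    unfold zwG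
    have := hane i
    field_simp
    ring
  have key : ‖(fun i => (a i : ℂ) * ζ i - 1) - (fun i => (a i : ℂ) * ζ' i - 1)‖ ≤
      0.6 * ‖(fun i => (a i : ℂ) * ζ i - 1) - (fun i => (a i : ℂ) * ζ' i - 1)‖ := by
    rw [pi_norm_le_iff_of_nonneg (by positivity)]
    intro i
    have h3 := GGG_lip ha hd hε h1 h1' i
    have f1 : GGG src tgt a ε (fun i => (a i : ℂ) * ζ i - 1) i = (a i : ℂ) * ζ i - 1 := by
      unfold GGG
      rw [e1]
      exact (h2 i).symm
    have f2 : GGG src tgt a ε (fun i => (a i : ℂ) * ζ' i - 1) i = (a i : ℂ) * ζ' i - 1 := by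
      unfold GGG
      rw [e1]
      exact (h2' i).symm
    rw [f1, f2] at h3
    exact h3
  have h0 : ‖(fun i => (a i : ℂ) * ζ i - 1) - (fun i => (a i : ℂ) * ζ' i - 1)‖ = 0 := by
    have := norm_nonneg ((fun i => (a i : ℂ) * ζ i - 1) - (fun i => (a i : ℂ) * ζ' i - 1))
    have h6 : (0.6 : ℝ) = 3 / 5 := by norm_num
    rw [h6] at key
    linarith
  rw [norm_sub_eq_zero_iff] at h0
  rw [← e1 ζ, ← e1 ζ', h0]

/-! ### from the reduced equations to the critical point -/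

omit [DecidableEq V] [Fintype E] in
lemma qhG_le {ζ : V → ℂ} (hD : ∀ v, ZDom (ζ v)) (e : E) : ‖qhG src tgt ζ e‖ ≤ 1 :=
  GT.isq_norm_le (xs_K (hD _) (hD _)).1

theorem SmG_le {ζ : V → ℂ} (hD : ∀ v, ZDom (ζ v)) (v : V) :
    ‖SmG src tgt ζ v‖ ≤ degG src tgt v * (6 / 5 * ‖GT.tz (ζ v)‖) := by
  refine deg_sum src tgt v _ fun e => ?_
  have h1 := (hD v).tz_le
  have h2 := qhG_le (src := src) (tgt := tgt) hD e
  have h3 : ‖GT.tz (ζ v) * qhG src tgt ζ e‖ ≤ ‖GT.tz (ζ v)‖ := by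
    rw [norm_mul]
    exact mul_le_of_le_one_right (norm_nonneg _) h2
  exact (GT.ath_norm_le (h3.trans h1)).trans (by linarith)

theorem dG_eq {y : E → ℂ} {ζ : V → ℂ} (hD : ∀ v, ZDom (ζ v))
    (hy : ∀ e, |(y e).re - 1 / 4| ≤ 1 / 10) (hc : ∀ e, Complex.cos (Real.pi * y e) ≠ 0)
    (hq : ∀ e, GT.tz (y e) = qhG src tgt ζ e) (v : V) :
    dG src tgt y ζ v = -(2 * SmG src tgt ζ v) := by
  unfold dG SmG
  rw [Finset.mul_sum, ← Finset.sum_neg_distrib]
  apply Finset.sum_congr rfl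
  intro e _
  obtain ⟨-, s1, s2⟩ := xs_strip (hy e) (hD v).re_le
  have h3 : ‖GT.tz (ζ v) * GT.tz (y e)‖ < 1 := by
    rw [hq e, norm_mul]
    have h1 := (hD v).tz_le
    have h2 := qhG_le (src := src) (tgt := tgt) hD e
    have := mul_le_mul h1 h2 (norm_nonneg _) (by norm_num)
    linarith
  have h4 := xs_tz s1 s2 (hc e) (hD v).cos_ne h3
  rw [hq e] at h4
  rw [h4]
  split_ifs <;> ring

omit [DecidableEq V] [Fintype E] in
lemma qhG_neg {s : V → ℤ} (hs : ∀ i, s i = 1 ∨ s i = -1) (ζ : V → ℂ) (e : E) :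
    qhG src tgt (fun i => -(s i : ℂ) * ζ i) e = qhG src tgt ζ e := by
  have e : ∀ i, GT.tz (-(s i : ℂ) * ζ i) ^ 2 = GT.tz (ζ i) ^ 2 := by
    intro i
    rcases hs i with h | h
    · rw [h, Int.cast_one, neg_one_mul, xs_tz_neg, neg_sq]
    · rw [h, Int.cast_neg, Int.cast_one, neg_neg, one_mul]
  unfold qhG
  simp only [e]

lemma SmG_neg {s : V → ℤ} (hs : ∀ i, s i = 1 ∨ s i = -1) (ζ : V → ℂ) (v : V) :
    SmG src tgt (fun i => -(s i : ℂ) * ζ i) v = -(s v : ℂ) * SmG src tgt ζ v := by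
  unfold SmG
  simp only [qhG_neg hs]
  rw [Finset.mul_sum]
  apply Finset.sum_congr rfl
  intro j _
  have e : GT.ath (GT.tz (-(s v : ℂ) * ζ v) * qhG src tgt ζ j) =
      -(s v : ℂ) * GT.ath (GT.tz (ζ v) * qhG src tgt ζ j) := by
    rcases hs v with h | h
    · rw [h, Int.cast_one, neg_one_mul, xs_tz_neg, neg_mul, xs_ath_neg, neg_one_mul]
    · rw [h, Int.cast_neg, Int.cast_one, neg_neg, one_mul, one_mul]
  rw [e]
  split_ifs <;> ring

variable {b : V → ℤ}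

omit [DecidableEq V] in
lemma xs_bG (hb : ∀ v, 10 ≤ |b v|) : (∀ v, (b v).sign = 1 ∨ (b v).sign = -1) ∧
    (∀ v, 10 ≤ (b v).natAbs) ∧ (∀ v, (b v : ℂ) = ((b v).sign : ℂ) * ((b v).natAbs : ℂ)) := by
  refine ⟨?_, ?_, ?_⟩
  · intro i
    have h := hb i
    rcases lt_trichotomy (b i) 0 with h1 | h1 | h1
    · right; exact Int.sign_eq_neg_one_of_neg h1
    · rw [h1] at h; norm_num at h
    · left; exact Int.sign_eq_one_of_pos h1
  · intro i
    have h := hb i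
    rw [Int.abs_eq_natAbs] at h
    exact_mod_cast h
  · intro i
    have h : (b i : ℂ) = (((b i).sign * ((b i).natAbs : ℤ) : ℤ) : ℂ) := by
      rw [Int.sign_mul_natAbs]
    rw [h, Int.cast_mul, Int.cast_natCast]

/-- existence of the critical point, for all weighted graphs without isolated vertices,
`|b_v| ≥ 10`, `|b_v| ≥ 10 deg v` -/
theorem exists_critG [Fintype V] (src tgt : E → V) (hdeg : ∀ v, 1 ≤ degG src tgt v)
    (hb : ∀ v, 10 ≤ |b v|) (hbd : ∀ v, 10 * (degG src tgt v : ℤ) ≤ |b v|) :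
    ∃ (y : E → ℂ) (ζ : V → ℂ), CritG src tgt b y ζ ∧
      (∀ e, ‖y e - 1 / 4‖ ≤ 1 / 20 ∧
        ‖y e - 1 / 4‖ ≤ 8 / 5 * (‖ζ (src e)‖ ^ 2 + ‖ζ (tgt e)‖ ^ 2)) ∧
      (∀ v, ‖(b v : ℂ) * ζ v + 1‖ ≤ 2 / 5 ∧
        ‖(b v : ℂ) * ζ v + 1‖ ≤ 3 / 2 * degG src tgt v * ‖ζ v‖ ∧
        ‖ζ v‖ ≤ 7 / 5 / |(b v : ℝ)|) ∧ (∀ v, 0 < (ζ v).im) := by
  obtain ⟨hs, ha, hba⟩ := xs_bG hb
  have hd : ∀ v, 10 * degG src tgt v ≤ (b v).natAbs := by
    intro v
    have h := hbd v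
    rw [Int.abs_eq_natAbs] at h
    exact_mod_cast h
  have hε : ∀ i, |(((b i).sign : ℤ) : ℝ)| ≤ 1 := by
    intro i
    rcases hs i with h | h <;> rw [h] <;> norm_num
  obtain ⟨ξ, h1, h2⟩ := exists_sadG src tgt ha hd hε
  have hdom := fun i => xs_dom (ha i) (h1 i)
  set ζ : V → ℂ := fun i => -((b i).sign : ℂ) * ξ i with hζ
  have hζD : ∀ i, ZDom (ζ i) := by
    intro i
    rw [hζ]
    rcases hs i with h | h
    · simp only [h, Int.cast_one, neg_one_mul]
      exact (hdom i).1.neg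
    · simp only [h, Int.cast_neg, Int.cast_one, neg_neg, one_mul]
      exact (hdom i).1
  have hζn : ∀ i, ‖ζ i‖ = ‖ξ i‖ := by
    intro i
    rw [hζ]
    rcases hs i with h | h
    · simp only [h, Int.cast_one, neg_one_mul, norm_neg]
    · simp only [h, Int.cast_neg, Int.cast_one, neg_neg, one_mul]
  have hss : ∀ i, ((b i).sign : ℂ) * ((b i).sign : ℂ) = 1 := by
    intro i
    rcases hs i with h | h <;> rw [h] <;> norm_num
  have hb1 : ∀ i, (b i : ℂ) * ζ i + 1 = -(((b i).natAbs : ℂ) * ξ i - 1) := by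
    intro i
    rw [hζ, hba i]
    simp only
    linear_combination -(((b i).natAbs : ℂ) * ξ i) * hss i
  have hSm : ∀ i, ((b i).natAbs : ℂ) * ξ i - 1 =
      -(Complex.I * ((b i).sign : ℂ) / Real.pi) * SmG src tgt ξ i := by
    intro i
    have := h2 i
    push_cast at this ⊢
    exact this
  have hK := fun e : E => xs_K (hζD (src e)) (hζD (tgt e))
  set y : E → ℂ := fun e => yq (qhG src tgt ζ e) with hydef
  have hy := fun e : E => xs_yq (hK e).1 (hK e).2.2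
  have hyc : ∀ j, Complex.cos (Real.pi * y j) ≠ 0 := fun j => (hy j).1
  have hyt : ∀ j, GT.tz (y j) = qhG src tgt ζ j := fun j => (hy j).2.1
  have hyn : ∀ j, ‖y j - 1 / 4‖ ≤ 1 / 10 * ‖1 + GT.tz (ζ (src j)) ^ 2 +
      GT.tz (ζ (tgt j)) ^ 2 - 1‖ := fun j => (hy j).2.2
  have hyre : ∀ j, |(y j).re - 1 / 4| ≤ 1 / 10 := by
    intro j
    have e : (y j).re - 1 / 4 = (y j - 1 / 4).re := by
      rw [Complex.sub_re]; norm_num
    rw [e]
    refine (Complex.abs_re_le_norm _).trans ((hyn j).trans ?_)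
    have := (hK j).2.2
    linarith
  have hnorm : ∀ i, ‖((b i).natAbs : ℂ) * ξ i - 1‖ ≤ 3 / 2 * degG src tgt i * ‖ξ i‖ := by
    intro i
    rw [hSm i, norm_mul, norm_neg, norm_div, norm_mul, Complex.norm_I, one_mul,
      Complex.norm_real, Real.norm_of_nonneg Real.pi_pos.le]
    have e1 : ‖((b i).sign : ℂ)‖ = 1 := by
      rcases hs i with h | h <;> rw [h] <;> norm_num
    have e2 := SmG_le (src := src) (tgt := tgt) (fun i => (hdom i).1) i
    have e3 := (hdom i).2.2.1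
    rw [e1, div_mul_eq_mul_div, one_mul, div_le_iff₀ Real.pi_pos]
    refine e2.trans ?_
    have e4 : 6 / 5 * ‖GT.tz (ξ i)‖ ≤ 3 / 2 * (Real.pi * ‖ξ i‖) := by
      have := mul_nonneg Real.pi_pos.le (norm_nonneg (ξ i))
      norm_num at e3 ⊢
      linarith
    have e5 := mul_le_mul_of_nonneg_left e4 (Nat.cast_nonneg (α := ℝ) (degG src tgt i))
    refine e5.trans (le_of_eq ?_)
    ring
  refine ⟨y, ζ, ⟨?_, ?_⟩, ?_, ?_, ?_⟩
  · intro j
    apply xs_tw_zero (hyre j) (hζD _) (hζD _) (hyc j)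
    rw [hyt j]
    exact (xs_isq (hK j).1).2.2.1
  · intro i
    rw [dG_eq hζD hyre hyc hyt i, hζ, SmG_neg hs ξ i, ← hζ, hb1 i, hSm i]
    have hpi : (Real.pi : ℂ) ≠ 0 := by exact_mod_cast Real.pi_ne_zero
    have hII : Complex.I ^ 2 = -1 := Complex.I_sq
    field_simp
    linear_combination 2 * ((b i).sign : ℂ) * SmG src tgt ξ i * hII
  · intro j
    have h3 := (hK j).2.2
    refine ⟨(hyn j).trans (by linarith), (hyn j).trans ?_⟩
    have aux : ∀ i, ‖GT.tz (ζ i)‖ ^ 2 ≤ 16 * ‖ζ i‖ ^ 2 := by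
      intro i
      have e1 : ‖GT.tz (ζ i)‖ = ‖GT.tz (ξ i)‖ := by
        rw [hζ]
        rcases hs i with h | h
        · simp only [h, Int.cast_one, neg_one_mul, xs_tz_neg, norm_neg]
        · simp only [h, Int.cast_neg, Int.cast_one, neg_neg, one_mul]
      rw [e1, hζn]
      have e2 := (hdom i).2.2.1
      have e3 : 1.2402 * (Real.pi * ‖ξ i‖) ≤ 4 * ‖ξ i‖ := by
        have hp : Real.pi * ‖ξ i‖ ≤ 3.1416 * ‖ξ i‖ :=
          mul_le_mul_of_nonneg_right Real.pi_lt_d4.le (norm_nonneg (ξ i))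
        have hn := norm_nonneg (ξ i)
        norm_num at hp ⊢
        linarith
      have e4 := pow_le_pow_left₀ (norm_nonneg _) (e2.trans e3) 2
      have e5 : (4 * ‖ξ i‖) ^ 2 = 16 * ‖ξ i‖ ^ 2 := by ring
      linarith
    have a1 := aux (src j)
    have a2 := aux (tgt j)
    have := (hK j).2.1
    linarith
  · intro i
    rw [hb1 i, norm_neg, hζn]
    have e := (hdom i).2.2.2
    have e2 : |(b i : ℝ)| = ((b i).natAbs : ℝ) := by
      rw [← Int.cast_abs, Int.abs_eq_natAbs]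
      norm_num
    rw [e2]
    exact ⟨h1 i, hnorm i, e⟩
  · intro i
    have hpi := Real.pi_pos
    have ha0 : (0 : ℝ) < (b i).natAbs := by
      have := ha i
      have : 0 < (b i).natAbs := by omega
      exact_mod_cast this
    have hpos : 0 < (SmG src tgt ξ i).re := by
      have hterm : ∀ h : E, 0 < (GT.ath (GT.tz (ξ i) * qhG src tgt ξ h)).re := by
        intro h
        have k1 := (xs_K (hdom (src h)).1 (hdom (tgt h)).1).1
        obtain ⟨q1, q2, -, -⟩ := xs_isq k1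
        have t1 := (hdom i).2.1
        have t2 := (hdom i).1.tz_re
        have t3 : |(GT.tz (ξ i)).im| ≤ (GT.tz (ξ i)).re := by
          have e : (GT.tz (ξ i) ^ 2).re = (GT.tz (ξ i)).re ^ 2 - (GT.tz (ξ i)).im ^ 2 := by
            rw [sq, Complex.mul_re]; ring
          rw [e] at t2
          rw [← sq_le_sq₀ (abs_nonneg _) t1.le, sq_abs]
          linarith
        apply xs_re_ath
        · rw [norm_mul]
          have h1 := (hdom i).1.tz_le
          have h2 := qhG_le (src := src) (tgt := tgt) (fun i => (hdom i).1) h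
          have := mul_le_mul h1 h2 (norm_nonneg _) (by norm_num)
          linarith
        · rw [Complex.mul_re]
          unfold qhG
          have h5 : |(GT.tz (ξ i)).im| * |(GT.isq (1 + GT.tz (ξ (src h)) ^ 2 +
              GT.tz (ξ (tgt h)) ^ 2)).im| < (GT.tz (ξ i)).re * (GT.isq (1 +
              GT.tz (ξ (src h)) ^ 2 + GT.tz (ξ (tgt h)) ^ 2)).re :=
            mul_lt_mul' t3 q2 (abs_nonneg _) t1
          rw [← abs_mul] at h5
          have := le_abs_self ((GT.tz (ξ i)).im * (GT.isq (1 + GT.tz (ξ (src h)) ^ 2 +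
            GT.tz (ξ (tgt h)) ^ 2)).im)
          linarith
      unfold SmG
      rw [Complex.re_sum]
      have hnn : ∀ h : E, 0 ≤ ((if src h = i then GT.ath (GT.tz (ξ i) * qhG src tgt ξ h)
          else 0) + (if tgt h = i then GT.ath (GT.tz (ξ i) * qhG src tgt ξ h) else 0) : ℂ).re := by
        intro h
        have := (hterm h).le
        rw [Complex.add_re]
        apply add_nonneg
        · split_ifs
          · exact this
          · simp
        · split_ifs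
          · exact this
          · simp
      have hex : ∃ h : E, src h = i ∨ tgt h = i := by
        by_contra hcon
        push_neg at hcon
        have h0 : degG src tgt i = 0 := by
          unfold degG
          refine Finset.sum_eq_zero fun e _ => ?_
          rw [if_neg (hcon e).1, if_neg (hcon e).2, add_zero]
        have := hdeg i
        omega
      obtain ⟨h0, hh0⟩ := hex
      apply Finset.sum_pos' (fun h _ => hnn h)
      refine ⟨h0, Finset.mem_univ _, ?_⟩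
      have := hterm h0
      rw [Complex.add_re]
      rcases hh0 with hh | hh
      · rw [if_pos hh]
        apply add_pos_of_pos_of_nonneg this
        split_ifs
        · exact this.le
        · simp
      · rw [if_pos hh]
        apply add_pos_of_nonneg_of_pos _ this
        split_ifs
        · exact this.le
        · simp
    have e1 : ((b i).natAbs : ℝ) * (ζ i).im = 1 / Real.pi * (SmG src tgt ξ i).re := by
      have h3 : (((b i).natAbs : ℝ) : ℂ) * ζ i = -((b i).sign : ℂ) +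
          ((1 / Real.pi : ℝ) : ℂ) * (Complex.I * SmG src tgt ξ i) := by
        have hpi : (Real.pi : ℂ) ≠ 0 := by exact_mod_cast Real.pi_ne_zero
        rw [hζ]
        have h4 := hSm i
        have h5 : ((b i).natAbs : ℂ) * ξ i = 1 - Complex.I * ((b i).sign : ℂ) / Real.pi *
          SmG src tgt ξ i := by linear_combination h4
        simp only
        push_cast
        linear_combination -((b i).sign : ℂ) * h5 +
          (Complex.I / Real.pi * SmG src tgt ξ i) * hss i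
      have h4 := congrArg Complex.im h3
      have h6 : (Complex.I * SmG src tgt ξ i).im = (SmG src tgt ξ i).re := by
        rw [Complex.mul_im, Complex.I_re, Complex.I_im]; ring
      have h7 : (-((b i).sign : ℂ)).im = 0 := by
        rw [Complex.neg_im, Complex.intCast_im, neg_zero]
      rw [Complex.im_ofReal_mul, Complex.add_im, Complex.im_ofReal_mul, h6, h7, zero_add] at h4
      exact h4
    have e2 : 0 < ((b i).natAbs : ℝ) * (ζ i).im := by
      rw [e1]; positivity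
    exact (mul_pos_iff_of_pos_left ha0).1 e2

/-- the reduced equations at a critical point -/
theorem sadG_of_crit (hb : ∀ v, 10 ≤ |b v|) {y : E → ℂ} {ζ : V → ℂ}
    (h : CritG src tgt b y ζ) (hy : ∀ e, |(y e).re - 1 / 4| ≤ 1 / 10)
    (hz : ∀ v, ‖(b v : ℂ) * ζ v + 1‖ ≤ 2 / 5) :
    (∀ i, ‖((b i).natAbs : ℂ) * (-((b i).sign : ℂ) * ζ i) - 1‖ ≤ 2 / 5) ∧
    SadEqG src tgt (fun i => (b i).natAbs) (fun i => (((b i).sign : ℤ) : ℝ))
      (fun i => -((b i).sign : ℂ) * ζ i) ∧ (∀ i, ZDom (ζ i)) ∧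
    (∀ j, Complex.cos (Real.pi * y j) ≠ 0) ∧ (∀ j, GT.tz (y j) = qhG src tgt ζ j) ∧
    (∀ i, (b i : ℂ) * ζ i + 1 = -(Complex.I / Real.pi) * SmG src tgt ζ i) := by
  obtain ⟨hs, ha, hba⟩ := xs_bG hb
  have hss : ∀ i, ((b i).sign : ℂ) * ((b i).sign : ℂ) = 1 := by
    intro i
    rcases hs i with h | h <;> rw [h] <;> norm_num
  have h1 : ∀ i, ((b i).natAbs : ℂ) * (-((b i).sign : ℂ) * ζ i) - 1 = -((b i : ℂ) * ζ i + 1) := by
    intro i
    rw [hba i]
    ring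
  have h2 : ∀ i, ‖((b i).natAbs : ℂ) * (-((b i).sign : ℂ) * ζ i) - 1‖ ≤ 2 / 5 := by
    intro i
    rw [h1 i, norm_neg]
    exact hz i
  have hζD : ∀ i, ZDom (ζ i) := by
    intro i
    have hd := (xs_dom (ha i) (h2 i)).1
    rcases hs i with h | h
    · rw [h, Int.cast_one, neg_one_mul] at hd
      have := hd.neg
      rwa [neg_neg] at this
    · rw [h, Int.cast_neg, Int.cast_one, neg_neg, one_mul] at hd
      exact hd
  have hy2 := fun j => xs_tw_inv (hy j) (hζD _) (hζD _) (h.crit_y j)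
  have hpi : (Real.pi : ℂ) ≠ 0 := by exact_mod_cast Real.pi_ne_zero
  have hII : Complex.I * Complex.I = -1 := Complex.I_mul_I
  have e : ∀ i, (b i : ℂ) * ζ i + 1 = -(Complex.I / Real.pi) * SmG src tgt ζ i := by
    intro i
    have hdz := dG_eq hζD hy (fun j => (hy2 j).1) (fun j => (hy2 j).2) i
    have hz := h.crit_z i
    rw [hdz] at hz
    have e1 : (Real.pi : ℂ) * ((b i : ℂ) * ζ i + 1) = -Complex.I * SmG src tgt ζ i := by
      linear_combination -(Complex.I / 2) * hz + (Real.pi : ℂ) * ((b i : ℂ) * ζ i + 1) * hII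
    apply mul_left_cancel₀ hpi
    rw [e1]
    field_simp
  refine ⟨h2, ?_, hζD, fun j => (hy2 j).1, fun j => (hy2 j).2, e⟩
  intro i
  rw [SmG_neg hs ζ i]
  have e2 := h1 i
  rw [e i] at e2
  simp only
  rw [e2]
  push_cast
  linear_combination (Complex.I / Real.pi * SmG src tgt ζ i) * (-hss i)

/-- uniqueness of the critical point -/
theorem unique_critG [Fintype V] (hb : ∀ v, 10 ≤ |b v|)
    (hbd : ∀ v, 10 * (degG src tgt v : ℤ) ≤ |b v|) {y y' : E → ℂ} {ζ ζ' : V → ℂ}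
    (h : CritG src tgt b y ζ) (h' : CritG src tgt b y' ζ')
    (hy : ∀ e, |(y e).re - 1 / 4| ≤ 1 / 10)
    (hy' : ∀ e, |(y' e).re - 1 / 4| ≤ 1 / 10) (hz : ∀ v, ‖(b v : ℂ) * ζ v + 1‖ ≤ 2 / 5)
    (hz' : ∀ v, ‖(b v : ℂ) * ζ' v + 1‖ ≤ 2 / 5) : y = y' ∧ ζ = ζ' := by
  obtain ⟨hs, ha, hba⟩ := xs_bG hb
  have hd : ∀ v, 10 * degG src tgt v ≤ (b v).natAbs := by
    intro v
    have h := hbd v
    rw [Int.abs_eq_natAbs] at h
    exact_mod_cast h
  have hε : ∀ i, |(((b i).sign : ℤ) : ℝ)| ≤ 1 := by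
    intro i
    rcases hs i with h | h <;> rw [h] <;> norm_num
  obtain ⟨a1, a2, a3, a4, a5, -⟩ := sadG_of_crit hb h hy hz
  obtain ⟨b1, b2, b3, b4, b5, -⟩ := sadG_of_crit hb h' hy' hz'
  have e := sadG_unique ha hd hε a1 a2 b1 b2
  have e1 : ζ = ζ' := by
    funext i
    have e2 : -((b i).sign : ℂ) * ζ i = -((b i).sign : ℂ) * ζ' i := congrFun e i
    have hne : -((b i).sign : ℂ) ≠ 0 := by
      rcases hs i with h | h <;> rw [h] <;> norm_num
    exact mul_left_cancel₀ hne e2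
  refine ⟨?_, e1⟩
  funext j
  have g1 := abs_le.1 (hy j)
  have g2 := abs_le.1 (hy' j)
  apply xs_tan_inj (by linarith [g1.1]) (by linarith [g1.2]) (by linarith [g2.1])
    (by linarith [g2.2])
  rw [a5 j, b5 j, e1]

end graph

end Pool.Agent.Work.MP_b30479_gt.LT
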