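import Pool.Agent.Work.MP_b30479_gt.LT.XCore
import Pool.Agent.Work.MP_b30479_gt.LT.GSad

/-!
# Total domination and the limit of the integral for weighted graphs
-/

namespace Pool.Agent.Work.MP_b30479_gt.LT

open Finset VOL AX MeasureTheory Filter Topology

section graph

variable {V E : Type*} [Fintype V] [DecidableEq V] [Fintype E]

/-- the share of a ring at the vertex `v` -/
noncomputable def lamG (src tgt : E → V) (v : V) : ℝ := 1 / degG src tgt v

/-- all rings are local -/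
structure LocsG (src tgt : E → V) (b : V → ℤ) (y : E → ℂ) (ζ : V → ℂ) : Prop where
  left : ∀ e, Loc (lamG src tgt (src e)) (b (src e)) (y e) (ζ (src e))
  right : ∀ e, Loc (lamG src tgt (tgt e)) (b (tgt e)) (y e) (ζ (tgt e))

theorem sum_ends (src tgt : E → V) (g : V → ℝ) :
    ∑ e, (g (src e) + g (tgt e)) = ∑ v, degG src tgt v * g v := by
  have h1 : ∀ v, (degG src tgt v : ℝ) * g v =
      ∑ e, ((if src e = v then g v else 0) + (if tgt e = v then g v else 0)) := by
    intro v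
    unfold degG
    push_cast
    rw [Finset.sum_mul]
    refine Finset.sum_congr rfl fun e _ => ?_
    rw [add_mul]
    congr 1 <;> split_ifs <;> simp
  simp_rw [h1]
  rw [Finset.sum_comm]
  refine Finset.sum_congr rfl fun e _ => ?_
  rw [Finset.sum_add_distrib, Finset.sum_ite_eq, Finset.sum_ite_eq]
  simp

/-- the shares add up to `1` over the rings of a vertex -/
theorem sum_lamG {src tgt : E → V} (hd : ∀ v, 1 ≤ degG src tgt v) (f : V → ℝ) :
    ∑ e, (lamG src tgt (src e) * f (src e) + lamG src tgt (tgt e) * f (tgt e)) = ∑ v, f v := by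
  rw [sum_ends src tgt fun v => lamG src tgt v * f v]
  refine Finset.sum_congr rfl fun v _ => ?_
  have h : (degG src tgt v : ℝ) ≠ 0 := by
    have := hd v
    have h2 : degG src tgt v ≠ 0 := by omega
    exact_mod_cast h2
  unfold lamG
  field_simp

theorem sum_le_ends {src tgt : E → V} (hd : ∀ v, 1 ≤ degG src tgt v) {f : V → ℝ}
    (hf : ∀ v, 0 ≤ f v) : ∑ v, f v ≤ ∑ e, (f (src e) + f (tgt e)) := by
  rw [sum_ends src tgt f]
  refine Finset.sum_le_sum fun v _ => ?_
  have h : (1 : ℝ) ≤ degG src tgt v := by exact_mod_cast hd v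
  nlinarith [hf v]

theorem LocsG.vertex {src tgt : E → V} (hd : ∀ v, 1 ≤ degG src tgt v) {b : V → ℤ} {y : E → ℂ}
    {ζ : V → ℂ} (hl : LocsG src tgt b y ζ) (v : V) : 0 < (ζ v).im ∧ |(ζ v).re| < 1 / 4 := by
  have hex : ∃ e : E, src e = v ∨ tgt e = v := by
    by_contra hcon
    push_neg at hcon
    have h0 : degG src tgt v = 0 := by
      unfold degG
      refine Finset.sum_eq_zero fun e _ => ?_
      rw [if_neg (hcon e).1, if_neg (hcon e).2, add_zero]
    have := hd v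
    omega
  obtain ⟨e, he | he⟩ := hex
  · have h := hl.left e
    rw [he] at h
    exact ⟨h.z2, h.z1.trans_lt (by norm_num)⟩
  · have h := hl.right e
    rw [he] at h
    exact ⟨h.z2, h.z1.trans_lt (by norm_num)⟩

theorem dom_G {src tgt : E → V} (hd : ∀ v, 1 ≤ degG src tgt v) {b : V → ℤ} {y : E → ℂ}
    {ζ : V → ℂ} (hc : CritG src tgt b y ζ) (hl : LocsG src tgt b y ζ) :
    DomG src tgt b y ζ (fun v => zt (ζ v).im) (fun v => dzt (ζ v).im) fun v => (ζ v).re := by
  have him : ∀ v, 0 < (ζ v).im := fun v => (hl.vertex hd v).1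
  choose CE hCE hE using fun v => EE_abs (b v) (him v)
  choose CS NS hCS hS using fun e : E => hinge_bound (hl.left e) (hl.right e) (hc.crit_y e)
  refine ⟨(∏ v, CE v) * ∏ e, CS e, 1 / 100, (Finset.univ.sup NS) ⊔ 1, by norm_num,
    fun n hn hodd σ hσ => ?_⟩
  have hσ' : ∀ v, |σ v| ≤ 1 / 2 := fun v => abs_le.mpr (hσ v (Set.mem_univ v))
  have hn1 : 1 ≤ n := le_sup_right.trans hn
  have hnS : ∀ e, NS e ≤ n := fun e =>
    (Finset.le_sup (Finset.mem_univ e)).trans (le_sup_left.trans hn)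
  have p1 := Finset.prod_le_prod (s := Finset.univ) (fun v _ => norm_nonneg _)
    (fun v _ => hE v n hn1 hodd (σ v) (hσ' v))
  have p2 := Finset.prod_le_prod (s := Finset.univ)
    (fun e _ => mul_nonneg (norm_nonneg _) (Real.exp_pos _).le)
    (fun e _ => hS e n (hnS e) (σ (src e)) (σ (tgt e)) (hσ' _) (hσ' _))
  rw [Finset.prod_mul_distrib, ← Real.exp_sum, ← Finset.mul_sum] at p1
  rw [Finset.prod_mul_distrib, ← Real.exp_sum, ← Finset.mul_sum, Finset.prod_mul_distrib,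
    Finset.prod_mul_distrib, ← Real.exp_sum, ← Finset.mul_sum, Finset.prod_const,
    Finset.card_univ] at p2
  have w1 : ∑ e : E, (wt (lamG src tgt (src e)) (b (src e))
      ((ζ (src e)).im * th (σ (src e))) (σ (src e)) +
      wt (lamG src tgt (tgt e)) (b (tgt e)) ((ζ (tgt e)).im * th (σ (tgt e))) (σ (tgt e))) =
      ∑ v, wt 1 (b v) ((ζ v).im * th (σ v)) (σ v) := by
    rw [← sum_lamG hd fun v => wt 1 (b v) ((ζ v).im * th (σ v)) (σ v)]
    refine Finset.sum_congr rfl fun e _ => ?_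
    unfold wt
    ring
  rw [w1] at p2
  have hig : ‖igG n src tgt b (fun v => zt (ζ v).im) (fun v => dzt (ζ v).im) σ‖ =
      (∏ v, ‖EE n (b v) (ζ v).im (σ v)‖) *
      ∏ e, ‖SS n (zt (ζ (src e)).im (σ (src e))) (zt (ζ (tgt e)).im (σ (tgt e)))‖ := by
    unfold igG
    rw [norm_mul, norm_prod, norm_prod]
    rfl
  rw [hig]
  set W : ℝ := ∑ v, wt 1 (b v) ((ζ v).im * th (σ v)) (σ v) with hW
  set PE : ℝ := ∏ v, CE v with hPE
  set PS : ℝ := ∏ e, CS e with hPS
  set A : ℝ := ∏ v, ‖EE n (b v) (ζ v).im (σ v)‖ with hA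
  set B : ℝ := ∏ e, ‖SS n (zt (ζ (src e)).im (σ (src e)))
    (zt (ζ (tgt e)).im (σ (tgt e)))‖ with hB
  have hB0 : 0 ≤ B := Finset.prod_nonneg fun e _ => norm_nonneg _
  have hPE0 : 0 ≤ PE := Finset.prod_nonneg fun v _ => hCE v
  have hPS0 : 0 ≤ PS := Finset.prod_nonneg fun e _ => hCS e
  have hR : 0 ≤ ((n : ℝ) ^ (-(3 / 2) : ℝ)) ^ Fintype.card E :=
    pow_nonneg (Real.rpow_nonneg (Nat.cast_nonneg n) _) _
  refine (mul_le_mul_of_nonneg_right p1 hB0).trans ?_
  rw [show PE * Real.exp (n * W) * B = PE * (B * Real.exp (n * W)) by ring]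
  refine (mul_le_mul_of_nonneg_left p2 hPE0).trans ?_
  rw [← mul_assoc, ← mul_assoc]
  refine mul_le_mul_of_nonneg_left (Real.exp_le_exp.mpr ?_)
    (mul_nonneg (mul_nonneg hPE0 hPS0) hR)
  refine mul_le_mul_of_nonneg_left ?_ (Nat.cast_nonneg n)
  have h1 := reG_sum hc σ
  have h2 := sum_le_ends hd (f := fun v => (σ v - (ζ v).re) ^ 2) (fun v => sq_nonneg _)
  have h3 := sum_lamG hd fun v => -(2 * Real.pi * (ζ v).im * (1 + b v * σ v))
  rw [← h1, ← h3, ← Finset.sum_add_distrib]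
  have h4 : ∀ e : E, TP (lamG src tgt (src e)) (b (src e)) (y e) (ζ (src e))
      (y e).re (σ (src e)) + TP (lamG src tgt (tgt e)) (b (tgt e)) (y e) (ζ (tgt e))
      (y e).re (σ (tgt e)) - 1 / 100 * ((σ (src e) - (ζ (src e)).re) ^ 2 +
      (σ (tgt e) - (ζ (tgt e)).re) ^ 2) =
    (lamG src tgt (src e) * -(2 * Real.pi * (ζ (src e)).im *
      (1 + b (src e) * σ (src e))) + lamG src tgt (tgt e) * -(2 * Real.pi * (ζ (tgt e)).im *
      (1 + b (tgt e) * σ (tgt e))) + ((tp (y e) (ζ (src e)) (ζ (tgt e))).re +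
    (tz (y e) (ζ (src e))).re * (σ (src e) - (ζ (src e)).re) +
    (tz (y e) (ζ (tgt e))).re * (σ (tgt e) - (ζ (tgt e)).re))) -
    1 / 100 * ((σ (src e) - (ζ (src e)).re) ^ 2 +
      (σ (tgt e) - (ζ (tgt e)).re) ^ 2) := by
    intro e
    rw [xdom_TP, xdom_TP, tp_eq_rc, Complex.add_re]
    ring
  rw [Finset.sum_congr rfl fun e _ => h4 e, Finset.sum_sub_distrib, ← Finset.mul_sum]
  linarith

/-- the limit of the integral for a weighted graph, at a critical point with local rings -/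
theorem core_G {src tgt : E → V} (hd : ∀ v, 1 ≤ degG src tgt v) {b : V → ℤ} {y : E → ℂ}
    {ζ : V → ℂ} (hc : CritG src tgt b y ζ) (hl : LocsG src tgt b y ζ) :
    ∃ L : ℂ, L ≠ 0 ∧ Tendsto (fun k : ℕ => ((((2 * k + 1 : ℕ) : ℝ) ^
        (((Fintype.card V : ℝ) + 3 * (Fintype.card E : ℝ)) / 2) : ℝ) : ℂ) *
      Complex.exp (-(((2 * k + 1 : ℕ) : ℂ) * TG src tgt b y ζ)) *
      IG (2 * k + 1) src tgt b (fun v => zt (ζ v).im) (fun v => dzt (ζ v).im)) atTop (𝓝 L) := by
  have hv := hl.vertex hd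
  refine core_graph hc (fun v => (hv v).1) (δ := fun _ => 1) (fun v => pathAt_zt (hv v).2)
    (fun v => (hv v).2.trans (by norm_num)) (fun e => ?_) (dom_G hd hc hl)
  obtain ⟨-, A, hA, h⟩ := SS_lim_x (hl.left e) (hl.right e) (hc.crit_y e)
  exact hLim_of_zt (hv _).2 (hv _).2 hA h

end graph

end Pool.Agent.Work.MP_b30479_gt.LT
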