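import Pool.Agent.Work.MP_b30479_gt.LT.BWgen

/-!
# The gluing equations are the equations of the critical point
-/

namespace Pool.Agent.Work.MP_b30479_gt.LT

open Finset VOL

/-- branches: both sides have the same exponential and imaginary parts that differ by less than
`2π` -/
theorem log_one_sub_ee {w : ℂ} (hw : w ∈ strip) :
    Complex.log (1 - ee w) = ph w + Real.pi * (w - 1 / 2) * Complex.I := by
  have hpi := Real.pi_pos
  obtain ⟨h0, h1⟩ := hw
  have hlt : |(ph w).im| < Real.pi / 2 := by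
    unfold ph
    rw [Complex.log_im, Complex.abs_arg_lt_pi_div_two_iff]
    left
    have := VOL.sin_pi_re_pos (z := w) ⟨h0, h1⟩
    simp only [Complex.mul_re, Complex.re_ofNat, Complex.im_ofNat, zero_mul, sub_zero]
    linarith only [this]
  rw [abs_lt] at hlt
  have him : (ph w + Real.pi * (w - 1 / 2) * Complex.I).im = (ph w).im + Real.pi * (w.re - 1 / 2) := by
    simp [Complex.mul_re, Complex.mul_im]
  rw [one_sub_ee' ⟨h0, h1⟩, Complex.log_exp]
  · rw [him]
    nlinarith only [hlt, hpi, h0, hlt.1]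
  · rw [him]
    nlinarith only [hlt, hpi, h1, hlt.2]

theorem ph_ee {w : ℂ} (h0 : 0 < w.re) (h1 : w.re < 1 / 2) :
    ph w = Complex.log (1 - ee w) - Real.pi * Complex.I * w + Real.pi * Complex.I / 2 := by
  rw [log_one_sub_ee ⟨h0, by linarith only [h0, h1]⟩]
  ring

theorem ph_ee_half {w : ℂ} (h0 : 0 < w.re) (h1 : w.re < 1 / 2) :
    ph (w + 1 / 2) = Complex.log (1 + ee w) - Real.pi * Complex.I * w := by
  have hs : w + 1 / 2 ∈ strip := by
    constructor
    · simp only [Complex.add_re]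
      norm_num
      linarith only [h0, h1]
    · simp only [Complex.add_re]
      norm_num
      linarith only [h1]
  have h2 := log_one_sub_ee hs
  have h3 : 1 - ee (w + 1 / 2) = 1 + ee w := by
    rw [ee_add, ee_half]
    ring
  rw [h3] at h2
  rw [h2]
  ring

theorem pos_add {w ζ : ℂ} (h : Pos w ζ) : 0 < (w + ζ).re ∧ (w + ζ).re < 1 / 2 ∧
    0 < (w - ζ).re ∧ (w - ζ).re < 1 / 2 ∧ 0 < w.re ∧ w.re < 1 / 2 := by
  obtain ⟨h1, h2⟩ := h
  have h3 := le_abs_self ζ.re
  have h4 := neg_abs_le ζ.re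
  have h5 := abs_nonneg ζ.re
  simp only [Complex.add_re, Complex.sub_re]
  refine ⟨?_, ?_, ?_, ?_, ?_, ?_⟩ <;> linarith only [h1, h4, h2, h3]

theorem lgs_eq {w ζ : ℂ} (h : Pos w ζ) : lgs w ζ = ph (w + 1 / 2 + ζ) + ph (w + 1 / 2 - ζ) -
    2 * ph w + Real.pi * Complex.I := by
  obtain ⟨a1, a2, a3, a4, a5, a6⟩ := pos_add h
  rw [show w + 1 / 2 + ζ = (w + ζ) + 1 / 2 by ring, show w + 1 / 2 - ζ = (w - ζ) + 1 / 2 by ring,
    ph_ee_half a1 a2, ph_ee_half a3 a4, ph_ee a5 a6]
  unfold lgs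
  ring

theorem lgd_eq {w ζ : ℂ} (h : Pos w ζ) : lgd w ζ = tz w ζ := by
  obtain ⟨a1, a2, a3, a4, a5, a6⟩ := pos_add h
  unfold tz
  rw [show w + 1 / 2 + ζ = (w + ζ) + 1 / 2 by ring, show w + 1 / 2 - ζ = (w - ζ) + 1 / 2 by ring,
    ph_ee_half a1 a2, ph_ee_half a3 a4]
  unfold lgd
  ring

theorem geom_iff {M : ℕ} {b : Fin (M + 1) → ℤ} {y : Fin M → ℂ} {ζ : Fin (M + 1) → ℂ}
    (hM : 1 ≤ M) (h1 : ∀ j : Fin M, Pos (y j) (ζ j.castSucc)) (h2 : ∀ j : Fin M, Pos (y j) (ζ j.succ)) :
    Geom b y ζ ↔ Crit b y ζ := by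
  have he : ∀ j : Fin M, lgs (y j) (ζ j.castSucc) + lgs (y j) (ζ j.succ) =
      tw (y j) (ζ j.castSucc) (ζ j.succ) + 2 * Real.pi * Complex.I := by
    intro j
    rw [lgs_eq (h1 j), lgs_eq (h2 j)]
    unfold tw
    ring
  have hf : ∀ i, ∑ j : Fin M, ((if j.castSucc = i then lgd (y j) (ζ i) else 0) +
      (if j.succ = i then lgd (y j) (ζ i) else 0)) = dz y ζ i := by
    intro i
    unfold dz
    refine sum_congr rfl fun j _ => ?_
    congr 1
    · split_ifs with hj
      · subst hj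
        exact lgd_eq (h1 j)
      · rfl
    · split_ifs with hj
      · subst hj
        exact lgd_eq (h2 j)
      · rfl
  constructor
  · intro h
    refine ⟨fun j => ?_, fun i => ?_⟩
    · have := h.edge j
      rw [he j] at this
      linear_combination this
    · have := h.filling i
      rw [hf i] at this
      exact this
  · intro h
    refine ⟨h1, h2, fun j => ?_, fun i => ?_⟩
    · rw [he j, h.crit_y j]
      ring
    · rw [hf i]
      exact h.crit_z i

end Pool.Agent.Work.MP_b30479_gt.LT
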