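import Pool.Agent.Work.MP_b30479_gt.LT.Defs

/-!
# Exact interpolation of the summand, and expansion of the exponent
-/

namespace Pool.Agent.Work.MP_b30479_gt.LT

open Finset VOL AX MeasureTheory

theorem PP_factor {n : ℕ} (hn : 0 < n) (l : ℕ) (ζ : ℂ) :
    2 * Complex.cos (2 * Real.pi * ζ) + ((2 * Real.cos (2 * Real.pi * (l + 1 / 2) / n) : ℝ) : ℂ) =
      (2 * Complex.sin (Real.pi * ((((0 : ℕ) : ℂ) + l + 1) / ((n : ℝ) : ℂ) +
        (1 / 2 - ((1 / (2 * (n : ℝ)) : ℝ) : ℂ) + ζ)))) *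
      (2 * Complex.sin (Real.pi * ((((0 : ℕ) : ℂ) + l + 1) / ((n : ℝ) : ℂ) +
        (1 / 2 - ((1 / (2 * (n : ℝ)) : ℝ) : ℂ) - ζ)))) := by
  have hN : (n : ℂ) ≠ 0 := by exact_mod_cast hn.ne'
  set v : ℂ := ((l : ℂ) + 1 / 2) / (n : ℂ) with hv
  have e1 : Real.pi * ((((0 : ℕ) : ℂ) + l + 1) / ((n : ℝ) : ℂ) +
      (1 / 2 - ((1 / (2 * (n : ℝ)) : ℝ) : ℂ) + ζ)) = Real.pi * (v + ζ) + Real.pi / 2 := by
    rw [hv]
    push_cast
    field_simp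
    ring
  have e2 : Real.pi * ((((0 : ℕ) : ℂ) + l + 1) / ((n : ℝ) : ℂ) +
      (1 / 2 - ((1 / (2 * (n : ℝ)) : ℝ) : ℂ) - ζ)) = Real.pi * (v - ζ) + Real.pi / 2 := by
    rw [hv]
    push_cast
    field_simp
    ring
  rw [e1, e2, Complex.sin_add_pi_div_two, Complex.sin_add_pi_div_two]
  have e3 : 2 * Real.pi * ζ = Real.pi * (v + ζ) - Real.pi * (v - ζ) := by ring
  have e4 : ((2 * Real.cos (2 * Real.pi * (l + 1 / 2) / n) : ℝ) : ℂ) =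
      2 * Complex.cos (Real.pi * (v + ζ) + Real.pi * (v - ζ)) := by
    push_cast
    congr 2
    rw [hv]
    field_simp
    ring
  rw [e3, e4, Complex.cos_sub, Complex.cos_add]
  ring

theorem PP_eq {n y : ℕ} (hn : 0 < n) {ζ : ℂ} (h : (y : ℝ) / n + |ζ.re| < 1 / 2) :
    PP n y ζ = Complex.exp (M n ((y : ℂ) / n + 1 / 2 + ζ) + M n ((y : ℂ) / n + 1 / 2 - ζ)) := by
  have hn0 : (0 : ℝ) < n := by exact_mod_cast hn
  have hnc0 : (n : ℂ) ≠ 0 := by exact_mod_cast hn.ne'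
  have hy0 : 0 ≤ (y : ℝ) / n := by positivity
  obtain ⟨ha, hb⟩ := abs_le.mp (le_refl |ζ.re|)
  have hre1 : (1 / 2 - ((1 / (2 * (n : ℝ)) : ℝ) : ℂ) + ζ).re = 1 / 2 - 1 / (2 * n) + ζ.re := by
    rw [Complex.add_re, Complex.sub_re, Complex.ofReal_re]
    norm_num
  have hre2 : (1 / 2 - ((1 / (2 * (n : ℝ)) : ℝ) : ℂ) - ζ).re = 1 / 2 - 1 / (2 * n) - ζ.re := by
    rw [Complex.sub_re, Complex.sub_re, Complex.ofReal_re]
    norm_num
  have hhalf : (((0 : ℕ) : ℝ) + 1 / 2) / n = 1 / (2 * n) := by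
    rw [Nat.cast_zero]
    field_simp
    norm_num
  have hhalf' : (((0 : ℕ) : ℝ) + y + 1 / 2) / n = y / n + 1 / (2 * n) := by
    rw [Nat.cast_zero]
    field_simp
    ring
  have P1 := VOL.prod_two_sin hn0 (1 / 2 - ((1 / (2 * (n : ℝ)) : ℝ) : ℂ) + ζ) 0 y
    (by rw [hre1, hhalf]; linarith only [h, hy0, ha]) (by rw [hre1, hhalf']; linarith only [h, hb])
  have P2 := VOL.prod_two_sin hn0 (1 / 2 - ((1 / (2 * (n : ℝ)) : ℝ) : ℂ) - ζ) 0 y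
    (by rw [hre2, hhalf]; linarith only [h, hy0, hb]) (by rw [hre2, hhalf']; linarith only [h, ha])
  have q1 : (((0 : ℕ) : ℂ) + y + 1 / 2) / ((n : ℝ) : ℂ) +
      (1 / 2 - ((1 / (2 * (n : ℝ)) : ℝ) : ℂ) + ζ) = (y : ℂ) / n + 1 / 2 + ζ := by
    push_cast
    field_simp
    ring
  have q2 : (((0 : ℕ) : ℂ) + 1 / 2) / ((n : ℝ) : ℂ) +
      (1 / 2 - ((1 / (2 * (n : ℝ)) : ℝ) : ℂ) + ζ) = 1 / 2 + ζ := by
    push_cast
    field_simp
    ring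
  have q3 : (((0 : ℕ) : ℂ) + y + 1 / 2) / ((n : ℝ) : ℂ) +
      (1 / 2 - ((1 / (2 * (n : ℝ)) : ℝ) : ℂ) - ζ) = (y : ℂ) / n + 1 / 2 - ζ := by
    push_cast
    field_simp
    ring
  have q4 : (((0 : ℕ) : ℂ) + 1 / 2) / ((n : ℝ) : ℂ) +
      (1 / 2 - ((1 / (2 * (n : ℝ)) : ℝ) : ℂ) - ζ) = 1 - (1 / 2 + ζ) := by
    push_cast
    field_simp
    ring
  rw [q1, q2] at P1
  rw [q3, q4, VOL.M_one_sub] at P2
  unfold PP
  rw [Finset.prod_congr rfl fun l _ => PP_factor hn l ζ, Finset.prod_mul_distrib, P1, P2,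
    ← Complex.exp_add]
  congr 1
  ring

theorem term_eq {n y : ℕ} (hn : 0 < n) (hy : y < n) {ζ ζ' : ℂ} (h : (y : ℝ) / n + |ζ.re| < 1 / 2)
    (h' : (y : ℝ) / n + |ζ'.re| < 1 / 2) :
    term n y ζ ζ' = 1 / (n : ℂ) ^ 2 * Complex.exp (Tn n ((y : ℂ) / n) ζ ζ') := by
  have hn0 : (0 : ℝ) < n := by exact_mod_cast hn
  have hnc0 : (n : ℂ) ≠ 0 := by exact_mod_cast hn.ne'
  have hf : ((fS n y ^ 4 : ℝ) : ℂ) =
      (n : ℂ) ^ 2 * Complex.exp (4 * VOL.M n ((y : ℂ) / n + 1 / (2 * n))) := by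
    have h1 := VOL.fS_eq_cexp hy
    have h2 : (((√(n : ℝ) : ℝ) : ℂ)) ^ 4 = (n : ℂ) ^ 2 := by
      rw [← Complex.ofReal_pow, show (√(n : ℝ)) ^ 4 = ((√(n : ℝ)) ^ 2) ^ 2 by ring,
        Real.sq_sqrt hn0.le]
      push_cast
      rfl
    rw [Complex.ofReal_pow, h1, mul_pow, ← Complex.exp_nat_mul, h2]
    congr 3
    push_cast
    field_simp
  rw [LT.term, PP_eq hn h, PP_eq hn h', hf, Tn, Complex.exp_sub,
    show M n ((y : ℂ) / n + 1 / 2 + ζ) + M n ((y : ℂ) / n + 1 / 2 - ζ) +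
      M n ((y : ℂ) / n + 1 / 2 + ζ') + M n ((y : ℂ) / n + 1 / 2 - ζ') =
      (M n ((y : ℂ) / n + 1 / 2 + ζ) + M n ((y : ℂ) / n + 1 / 2 - ζ)) +
      (M n ((y : ℂ) / n + 1 / 2 + ζ') + M n ((y : ℂ) / n + 1 / 2 - ζ')) by ring,
    Complex.exp_add (M n ((y : ℂ) / n + 1 / 2 + ζ) + M n ((y : ℂ) / n + 1 / 2 - ζ))]
  have := Complex.exp_ne_zero (4 * VOL.M n ((y : ℂ) / n + 1 / (2 * n)))
  field_simp

/-! ### Expansion -/

/-- the closed vertical strip at distance `δ` from the edges -/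
def Sd (δ : ℝ) : Set ℂ := {z | δ ≤ z.re ∧ z.re ≤ 1 - δ}

theorem Sd_sub {δ : ℝ} (hδ : 0 < δ) : Sd δ ⊆ VOL.strip := fun _ h =>
  ⟨lt_of_lt_of_le hδ h.1, lt_of_le_of_lt h.2 (by linarith only [hδ])⟩

theorem Sd_convex (δ : ℝ) : Convex ℝ (Sd δ) := by
  have h1 : Convex ℝ {z : ℂ | δ ≤ z.re} := convex_halfSpace_re_ge δ
  have h2 : Convex ℝ {z : ℂ | z.re ≤ 1 - δ} := convex_halfSpace_re_le (1 - δ)
  exact h1.inter h2

theorem sin_Sd {δ x : ℝ} (hδ : 0 < δ) (hδ2 : δ ≤ 1 / 2) (h1 : δ ≤ x) (h2 : x ≤ 1 - δ) :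
    Real.sin (Real.pi * δ) ≤ Real.sin (Real.pi * x) := by
  have hpi := Real.pi_pos
  rcases le_total x (1 / 2) with h | h
  · apply Real.sin_le_sin_of_le_of_le_pi_div_two
    · nlinarith only [hpi, hδ]
    · nlinarith only [hδ, hδ2, hpi, h]
    · nlinarith only [hδ, hδ2, h1, hpi]
  · have e : Real.sin (Real.pi * x) = Real.sin (Real.pi * (1 - x)) := by
      rw [mul_sub, mul_one, Real.sin_pi_sub]
    rw [e]
    apply Real.sin_le_sin_of_le_of_le_pi_div_two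
    · nlinarith only [hpi, hδ]
    · nlinarith only [hδ, hδ2, hpi, h]
    · nlinarith only [hδ, hδ2, h2, hpi]

theorem ph_lip {δ : ℝ} (hδ : 0 < δ) (hδ2 : δ ≤ 1 / 2) {z w : ℂ} (hz : z ∈ Sd δ) (hw : w ∈ Sd δ) :
    ‖VOL.ph z - VOL.ph w‖ ≤ Real.pi / Real.sin (Real.pi * δ) * ‖z - w‖ := by
  have hs : 0 < Real.sin (Real.pi * δ) := VOL.sin_pi_pos hδ (by linarith only [hδ, hδ2])
  refine (Sd_convex δ).norm_image_sub_le_of_norm_hasDerivWithin_le (𝕜 := ℂ) (f := VOL.ph)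
    (f' := VOL.ph') (C := Real.pi / Real.sin (Real.pi * δ)) (x := w) (y := z)
    (fun v hv => (VOL.hasDerivAt_ph (Sd_sub hδ hv)).hasDerivWithinAt) (fun v hv => ?_) hw hz
  refine (VOL.norm_ph'_le (Sd_sub hδ hv)).trans ?_
  exact div_le_div_of_nonneg_left Real.pi_pos.le hs (sin_Sd hδ hδ2 hv.1 hv.2)

theorem Fh_taylor {δ : ℝ} (hδ : 0 < δ) (hδ2 : δ ≤ 1 / 2) {z w : ℂ} (hz : z ∈ Sd δ)
    (hw : w ∈ Sd δ) : ‖VOL.Fh z - VOL.Fh w - (z - w) * VOL.ph w‖ ≤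
      Real.pi / Real.sin (Real.pi * δ) * ‖z - w‖ ^ 2 := by
  have hs : 0 < Real.sin (Real.pi * δ) := VOL.sin_pi_pos hδ (by linarith only [hδ, hδ2])
  have hc : 0 ≤ Real.pi / Real.sin (Real.pi * δ) := div_nonneg Real.pi_pos.le hs.le
  have hseg : segment ℝ w z ⊆ Sd δ := (Sd_convex δ).segment_subset hw hz
  have h1 := (convex_segment w z).norm_image_sub_le_of_norm_hasDerivWithin_le (𝕜 := ℂ)
    (f := fun v => VOL.Fh v - v * VOL.ph w) (f' := fun v => VOL.ph v - 1 * VOL.ph w)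
    (C := Real.pi / Real.sin (Real.pi * δ) * ‖z - w‖) (x := w) (y := z)
    (fun v hv => ((VOL.hasDerivAt_Fh (Sd_sub hδ (hseg hv))).sub
      ((hasDerivAt_id v).mul_const (VOL.ph w))).hasDerivWithinAt)
    (fun v hv => by
      rw [one_mul]
      refine (ph_lip hδ hδ2 (hseg hv) hw).trans ?_
      apply mul_le_mul_of_nonneg_left _ hc
      obtain ⟨a, b, ha, hb, hab, rfl⟩ := hv
      have e : a • w + b • z - w = b • (z - w) := by
        have : a = 1 - b := by linarith only [hab]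
        rw [this, sub_smul, one_smul, smul_sub]
        ring
      rw [e, norm_smul, Real.norm_of_nonneg hb]
      have hb1 : b ≤ 1 := by linarith only [ha, hab]
      exact mul_le_of_le_one_left (norm_nonneg _) hb1)
    (left_mem_segment ℝ w z) (right_mem_segment ℝ w z)
  have e2 : VOL.Fh z - VOL.Fh w - (z - w) * VOL.ph w =
      VOL.Fh z - z * VOL.ph w - (VOL.Fh w - w * VOL.ph w) := by ring
  rw [e2]
  refine h1.trans (le_of_eq ?_)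
  ring

theorem norm_J_Sd {δ : ℝ} (hδ : 0 < δ) (hδ2 : δ ≤ 1 / 2) {n : ℝ} (hn0 : 0 < n) {z : ℂ}
    (hz : z ∈ Sd δ) : ‖VOL.J n z‖ ≤ 1 / (2 * Real.pi * Real.sin (Real.pi * δ)) / n := by
  have hs : 0 < Real.sin (Real.pi * δ) := VOL.sin_pi_pos hδ (by linarith only [hδ, hδ2])
  have hpi := Real.pi_pos
  refine (VOL.norm_J_le hn0 (Sd_sub hδ hz)).trans ?_
  rw [div_div]
  apply div_le_div_of_nonneg_left (by norm_num) (by positivity)
  have := sin_Sd hδ hδ2 hz.1 hz.2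
  calc 2 * Real.pi * Real.sin (Real.pi * δ) * n = 2 * Real.pi * n * Real.sin (Real.pi * δ) := by ring
    _ ≤ 2 * Real.pi * n * Real.sin (Real.pi * z.re) :=
      mul_le_mul_of_nonneg_left this (by positivity)

theorem re_add_half (w ζ : ℂ) : (w + 1 / 2 + ζ).re = w.re + 1 / 2 + ζ.re := by
  rw [Complex.add_re, Complex.add_re]; norm_num

theorem re_sub_half (w ζ : ℂ) : (w + 1 / 2 - ζ).re = w.re + 1 / 2 - ζ.re := by
  rw [Complex.sub_re, Complex.add_re]; norm_num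

/-- `Tn` is `n tp - 2 ph w` up to `O(1/n)` -/
theorem Tn_expand : ∃ C : ℝ, 0 ≤ C ∧ ∀ n : ℕ, 8 ≤ n → ∀ w ζ ζ' : ℂ, 1 / 8 ≤ w.re → w.re ≤ 3 / 8 →
    |ζ.re| ≤ 1 / 16 → |ζ'.re| ≤ 1 / 16 →
    ‖Tn n w ζ ζ' - (n * tp w ζ ζ' - 2 * ph w)‖ ≤ C / n := by
  have hδ : (0 : ℝ) < 1 / 16 := by norm_num
  have hδ2 : (1 / 16 : ℝ) ≤ 1 / 2 := by norm_num
  have hpi := Real.pi_pos
  set sδ : ℝ := Real.sin (Real.pi * (1 / 16)) with hsδ
  have hs : 0 < sδ := VOL.sin_pi_pos hδ (by norm_num)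
  refine ⟨8 * (1 / (2 * Real.pi * sδ)) + Real.pi / sδ, by positivity, ?_⟩
  intro n hn w ζ ζ' h1 h2 h3 h4
  have hnR : (8 : ℝ) ≤ n := by exact_mod_cast hn
  have hn0 : (0 : ℝ) < n := by linarith only [hnR]
  have hnc0 : (n : ℂ) ≠ 0 := by exact_mod_cast hn0.ne'
  obtain ⟨a1, a2⟩ := abs_le.mp h3
  obtain ⟨b1, b2⟩ := abs_le.mp h4
  have h2n : 1 / (2 * (n : ℝ)) ≤ 1 / 16 := by
    apply div_le_div_of_nonneg_left (by norm_num) (by norm_num)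
    linarith only [hnR]
  have h2n0 : 0 < 1 / (2 * (n : ℝ)) := by positivity
  have m1 : w + 1 / 2 + ζ ∈ Sd (1 / 16) := ⟨by rw [re_add_half]; linarith only [h1, a1, h2n, h2n0], by rw [re_add_half]; linarith only [h2, a2]⟩
  have m2 : w + 1 / 2 - ζ ∈ Sd (1 / 16) := ⟨by rw [re_sub_half]; linarith only [h1, a2, h2n, h2n0], by rw [re_sub_half]; linarith only [h2, a1]⟩
  have m1' : w + 1 / 2 + ζ' ∈ Sd (1 / 16) :=
    ⟨by rw [re_add_half]; linarith only [h1, b1, h2n, h2n0], by rw [re_add_half]; linarith only [h2, b2]⟩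
  have m2' : w + 1 / 2 - ζ' ∈ Sd (1 / 16) :=
    ⟨by rw [re_sub_half]; linarith only [h1, b2, h2n, h2n0], by rw [re_sub_half]; linarith only [h2, b1]⟩
  have ecast : (1 : ℂ) / (2 * n) = ((1 / (2 * (n : ℝ)) : ℝ) : ℂ) := by push_cast; rfl
  have m3 : w + 1 / (2 * n) ∈ Sd (1 / 16) := by
    rw [ecast]
    refine ⟨?_, ?_⟩
    · rw [Complex.add_re, Complex.ofReal_re]; linarith only [h1, h2n, h2n0]
    · rw [Complex.add_re, Complex.ofReal_re]; linarith only [h2, h2n, h2n0]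
  have m4 : w ∈ Sd (1 / 16) := ⟨by linarith only [h1, h2n, h2n0], by linarith only [h2, h2n, h2n0]⟩
  have hT := Fh_taylor hδ hδ2 m3 m4
  rw [add_sub_cancel_left] at hT
  have hnn : ‖(1 : ℂ) / (2 * n)‖ = 1 / (2 * (n : ℝ)) := by
    rw [ecast, Complex.norm_real, Real.norm_of_nonneg h2n0.le]
  rw [hnn] at hT
  set T : ℂ := VOL.Fh (w + 1 / (2 * n)) - VOL.Fh w - (1 / (2 * n)) * VOL.ph w with hTd
  have hM : ∀ z, VOL.M n z = n * VOL.Fh z + VOL.J n z := fun z => rfl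
  have hFh : VOL.Fh (w + 1 / (2 * n)) = VOL.Fh w + (1 / (2 * n)) * VOL.ph w + T := by
    rw [hTd]; ring
  have hid : Tn n w ζ ζ' - (n * tp w ζ ζ' - 2 * ph w) = VOL.J n (w + 1 / 2 + ζ) +
      VOL.J n (w + 1 / 2 - ζ) + VOL.J n (w + 1 / 2 + ζ') + VOL.J n (w + 1 / 2 - ζ') -
      4 * VOL.J n (w + 1 / (2 * n)) - 4 * n * T := by
    rw [Tn, tp, hM, hM, hM, hM, hM, hFh]
    field_simp
    ring
  rw [hid]
  have j1 := norm_J_Sd hδ hδ2 hn0 m1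
  have j2 := norm_J_Sd hδ hδ2 hn0 m2
  have j3 := norm_J_Sd hδ hδ2 hn0 m1'
  have j4 := norm_J_Sd hδ hδ2 hn0 m2'
  have j5 := norm_J_Sd hδ hδ2 hn0 m3
  rw [← hsδ] at j1 j2 j3 j4 j5 hT
  have t1 : ‖4 * (n : ℂ) * T‖ ≤ Real.pi / sδ / n := by
    rw [norm_mul, norm_mul, Complex.norm_natCast]
    have e0 : ‖(4 : ℂ)‖ = 4 := by norm_num
    rw [e0]
    calc 4 * n * ‖T‖ ≤ 4 * n * (Real.pi / sδ * (1 / (2 * n)) ^ 2) :=
          mul_le_mul_of_nonneg_left hT (by positivity)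
      _ = Real.pi / sδ / n := by
          field_simp
          ring
  have t2 : ‖4 * VOL.J n (w + 1 / (2 * n))‖ ≤ 4 * (1 / (2 * Real.pi * sδ) / n) := by
    rw [norm_mul, show ‖(4 : ℂ)‖ = 4 by norm_num]
    exact mul_le_mul_of_nonneg_left j5 (by norm_num)
  calc _ ≤ 1 / (2 * Real.pi * sδ) / n + 1 / (2 * Real.pi * sδ) / n +
        1 / (2 * Real.pi * sδ) / n + 1 / (2 * Real.pi * sδ) / n +
        4 * (1 / (2 * Real.pi * sδ) / n) + Real.pi / sδ / n := by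
        refine (norm_sub_le _ _).trans (add_le_add ?_ t1)
        refine (norm_sub_le _ _).trans (add_le_add ?_ t2)
        refine (norm_add_le _ _).trans (add_le_add ?_ j4)
        refine (norm_add_le _ _).trans (add_le_add ?_ j3)
        exact (norm_add_le _ _).trans (add_le_add j1 j2)
    _ = (8 * (1 / (2 * Real.pi * sδ)) + Real.pi / sδ) / n := by ring

theorem strip_of {n : ℕ} (hn : 8 ≤ n) {w ζ : ℂ} (h0 : 0 < w.re) (h1 : w.re < 3 / 8 + 1 / 32)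
    (h2 : |ζ.re| ≤ 1 / 16) : w + 1 / 2 + ζ ∈ VOL.strip ∧ w + 1 / 2 - ζ ∈ VOL.strip ∧
      w + 1 / (2 * n) ∈ VOL.strip := by
  have hnR : (8 : ℝ) ≤ n := by exact_mod_cast hn
  obtain ⟨a1, a2⟩ := abs_le.mp h2
  have h2n : 1 / (2 * (n : ℝ)) ≤ 1 / 16 := by
    apply div_le_div_of_nonneg_left (by norm_num) (by norm_num)
    linarith only [hnR]
  have h2n0 : 0 < 1 / (2 * (n : ℝ)) := by positivity
  have ecast : (1 : ℂ) / (2 * n) = ((1 / (2 * (n : ℝ)) : ℝ) : ℂ) := by push_cast; rfl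
  refine ⟨⟨?_, ?_⟩, ⟨?_, ?_⟩, ⟨?_, ?_⟩⟩
  · rw [re_add_half]; linarith only [h0, a1, h2n, h2n0]
  · rw [re_add_half]; linarith only [h1, a2, h2n, h2n0]
  · rw [re_sub_half]; linarith only [h0, a2, h2n, h2n0]
  · rw [re_sub_half]; linarith only [h1, a1, h2n, h2n0]
  · rw [ecast, Complex.add_re, Complex.ofReal_re]; linarith only [h0, h2n0]
  · rw [ecast, Complex.add_re, Complex.ofReal_re]; linarith only [h1, h2n, h2n0]

/-- `Tn` is holomorphic in `w` and continuous in all variables -/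
theorem Tn_differentiable {n : ℕ} (hn : 8 ≤ n) {w ζ ζ' : ℂ} (h0 : 0 < w.re) (h1 : w.re < 3 / 8 + 1 / 32)
    (h2 : |ζ.re| ≤ 1 / 16) (h3 : |ζ'.re| ≤ 1 / 16) :
    DifferentiableAt ℂ (fun w => Tn n w ζ ζ') w := by
  have hn0 : (0 : ℝ) < n := by
    have : (8 : ℝ) ≤ n := by exact_mod_cast hn
    linarith only [h0, h1, this]
  obtain ⟨s1, s2, s3⟩ := strip_of hn h0 h1 h2
  obtain ⟨s1', s2', -⟩ := strip_of hn h0 h1 h3
  unfold Tn
  have dM : ∀ {z : ℂ}, z ∈ VOL.strip → DifferentiableAt ℂ (VOL.M n) z := fun hz =>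
    (VOL.hasDerivAt_M hn0 hz).differentiableAt
  have d1 : DifferentiableAt ℂ (fun w => VOL.M n (w + 1 / 2 + ζ)) w :=
    (dM s1).comp w ((differentiableAt_id.add_const (1 / 2)).add_const ζ)
  have d2 : DifferentiableAt ℂ (fun w => VOL.M n (w + 1 / 2 - ζ)) w :=
    (dM s2).comp w ((differentiableAt_id.add_const (1 / 2)).sub_const ζ)
  have d1' : DifferentiableAt ℂ (fun w => VOL.M n (w + 1 / 2 + ζ')) w :=
    (dM s1').comp w ((differentiableAt_id.add_const (1 / 2)).add_const ζ')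
  have d2' : DifferentiableAt ℂ (fun w => VOL.M n (w + 1 / 2 - ζ')) w :=
    (dM s2').comp w ((differentiableAt_id.add_const (1 / 2)).sub_const ζ')
  have d3 : DifferentiableAt ℂ (fun w => VOL.M n (w + 1 / (2 * n))) w :=
    (dM s3).comp w (differentiableAt_id.add_const _)
  exact (((d1.add d2).add d1').add d2').sub (d3.const_mul 4)

theorem Tn_continuousOn {n : ℕ} (hn : 8 ≤ n) :
    ContinuousOn (fun p : ℂ × ℂ × ℂ => Tn n p.1 p.2.1 p.2.2)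
      {p | 0 < p.1.re ∧ p.1.re ≤ 3 / 8 ∧ |p.2.1.re| ≤ 1 / 16 ∧ |p.2.2.re| ≤ 1 / 16} := by
  have hn0 : (0 : ℝ) < n := by
    have : (8 : ℝ) ≤ n := by exact_mod_cast hn
    linarith only [this]
  rintro ⟨w, ζ, ζ'⟩ ⟨h0, h1, h2, h3⟩
  simp only at h0 h1 h2 h3
  obtain ⟨s1, s2, s3⟩ := strip_of hn h0 (by linarith only [h0, h1]) h2
  obtain ⟨s1', s2', -⟩ := strip_of hn h0 (by linarith only [h0, h1]) h3
  have cM : ∀ {z : ℂ}, z ∈ VOL.strip → ContinuousAt (VOL.M n) z := fun hz =>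
    (VOL.hasDerivAt_M hn0 hz).continuousAt
  unfold Tn
  apply ContinuousAt.continuousWithinAt
  have d1 : ContinuousAt (fun p : ℂ × ℂ × ℂ => VOL.M n (p.1 + 1 / 2 + p.2.1)) (w, ζ, ζ') :=
    ContinuousAt.comp (f := fun p : ℂ × ℂ × ℂ => p.1 + 1 / 2 + p.2.1) (cM s1) (by fun_prop)
  have d2 : ContinuousAt (fun p : ℂ × ℂ × ℂ => VOL.M n (p.1 + 1 / 2 - p.2.1)) (w, ζ, ζ') :=
    ContinuousAt.comp (f := fun p : ℂ × ℂ × ℂ => p.1 + 1 / 2 - p.2.1) (cM s2) (by fun_prop)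
  have d1' : ContinuousAt (fun p : ℂ × ℂ × ℂ => VOL.M n (p.1 + 1 / 2 + p.2.2)) (w, ζ, ζ') :=
    ContinuousAt.comp (f := fun p : ℂ × ℂ × ℂ => p.1 + 1 / 2 + p.2.2) (cM s1') (by fun_prop)
  have d2' : ContinuousAt (fun p : ℂ × ℂ × ℂ => VOL.M n (p.1 + 1 / 2 - p.2.2)) (w, ζ, ζ') :=
    ContinuousAt.comp (f := fun p : ℂ × ℂ × ℂ => p.1 + 1 / 2 - p.2.2) (cM s2') (by fun_prop)
  have d3 : ContinuousAt (fun p : ℂ × ℂ × ℂ => VOL.M n (p.1 + 1 / (2 * n))) (w, ζ, ζ') :=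
    ContinuousAt.comp (f := fun p : ℂ × ℂ × ℂ => p.1 + 1 / (2 * n)) (cM s3) (by fun_prop)
  exact (((d1.add d2).add d1').add d2').sub (d3.const_mul 4)

/-- values of the potential at real points -/
theorem tp_conj {w ζ ζ' : ℂ} (h0 : 0 < w.re) (h1 : w.re ≤ 3 / 8) (h2 : |ζ.re| ≤ 1 / 16)
    (h3 : |ζ'.re| ≤ 1 / 16) :
    tp (starRingEnd ℂ w) (starRingEnd ℂ ζ) (starRingEnd ℂ ζ') = starRingEnd ℂ (tp w ζ ζ') := by
  obtain ⟨s1, s2, -⟩ := strip_of (n := 8) le_rfl h0 (by linarith only [h0, h1]) h2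
  obtain ⟨s1', s2', -⟩ := strip_of (n := 8) le_rfl h0 (by linarith only [h0, h1]) h3
  have sw : w ∈ VOL.strip := ⟨h0, by linarith only [h0, h1]⟩
  have c1 := Fh_conj s1
  have c2 := Fh_conj s2
  have c3 := Fh_conj s1'
  have c4 := Fh_conj s2'
  have c5 := Fh_conj sw
  have e : (starRingEnd ℂ) (1 / 2 : ℂ) = 1 / 2 := by simp [Complex.conj_ofNat]
  simp only [map_add, map_sub, e] at c1 c2 c3 c4
  rw [tp, tp, c1, c2, c3, c4, c5]
  simp [Complex.conj_ofNat]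

theorem tp_center : tp (1 / 4) 0 0 = ((ts : ℝ) : ℂ) := by
  have h1 : (1 / 4 : ℂ) ∈ VOL.strip := ⟨by norm_num, by norm_num⟩
  have h2 := Fh_conj h1
  have e : (starRingEnd ℂ) (1 / 4 : ℂ) = 1 / 4 := by simp [Complex.conj_ofNat]
  rw [e] at h2
  have h3 : Fh (1 / 4) = (((Fh (1 / 4)).re : ℝ) : ℂ) := (Complex.conj_eq_iff_re.mp h2.symm).symm
  have h4 : Fh (3 / 4) = -Fh (1 / 4) := by
    rw [← Fh_one_sub]
    norm_num
  rw [tp, ts]
  norm_num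
  rw [h4, ← h3]
  ring

end Pool.Agent.Work.MP_b30479_gt.LT
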