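import Pool.Agent.Work.MP_b30479_gt.LT.Lim

/-!
# The limit of the kernel at a general critical point
-/

namespace Pool.Agent.Work.MP_b30479_gt.LT

open Finset VOL AX MeasureTheory Filter Topology

/-! ### expansion and continuity of `Tn` in general position -/

/-- `Tn` is `n tp - 2 ph w` up to `O(1/n)`, with a constant depending on the margin `δ` only -/
theorem Tn_expand_gen {δ : ℝ} (hδ : 0 < δ) (hδ2 : δ ≤ 1 / 2) : ∃ C : ℝ, 0 ≤ C ∧ ∀ n : ℕ, 0 < n →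
    ∀ w ζ ζ' : ℂ, w ∈ Sd δ → w + 1 / (2 * n) ∈ Sd δ → w + 1 / 2 + ζ ∈ Sd δ →
    w + 1 / 2 - ζ ∈ Sd δ → w + 1 / 2 + ζ' ∈ Sd δ → w + 1 / 2 - ζ' ∈ Sd δ →
    ‖Tn n w ζ ζ' - (n * tp w ζ ζ' - 2 * ph w)‖ ≤ C / n := by
  have hpi := Real.pi_pos
  set sδ : ℝ := Real.sin (Real.pi * δ) with hsδ
  have hs : 0 < sδ := VOL.sin_pi_pos hδ (by linarith)
  refine ⟨8 * (1 / (2 * Real.pi * sδ)) + Real.pi / sδ, by positivity, ?_⟩
  intro n hn w ζ ζ' m4 m3 m1 m2 m1' m2'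
  have hn0 : (0 : ℝ) < n := by exact_mod_cast hn
  have hnc0 : (n : ℂ) ≠ 0 := by exact_mod_cast hn0.ne'
  have h2n0 : 0 < 1 / (2 * (n : ℝ)) := by positivity
  have ecast : (1 : ℂ) / (2 * n) = ((1 / (2 * (n : ℝ)) : ℝ) : ℂ) := by push_cast; rfl
  have hT := Fh_taylor hδ hδ2 m3 m4
  rw [add_sub_cancel_left] at hT
  have hnn : ‖(1 : ℂ) / (2 * n)‖ = 1 / (2 * (n : ℝ)) := by
    rw [ecast, Complex.norm_real, Real.norm_of_nonneg h2n0.le]
  rw [hnn] at hT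
  set T : ℂ := VOL.Fh (w + 1 / (2 * n)) - VOL.Fh w - (1 / (2 * n)) * VOL.ph w with hTd
  have hM : ∀ z, VOL.M n z = n * VOL.Fh z + VOL.J n z := fun z => rfl
  have hFh : VOL.Fh (w + 1 / (2 * n)) = VOL.Fh w + (1 / (2 * n)) * VOL.ph w + T := by
    rw [hTd]; ring
  have hid : Tn n w ζ ζ' - (n * tp w ζ ζ' - 2 * ph w) = VOL.J n (w + 1 / 2 + ζ) +
      VOL.J n (w + 1 / 2 - ζ) + VOL.J n (w + 1 / 2 + ζ') + VOL.J n (w + 1 / 2 - ζ') -
      4 * VOL.J n (w + 1 / (2 * n)) - 4 * n * T := by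
    rw [Tn, tp, hM, hM, hM, hM, hM, hFh]
    field_simp
    ring
  rw [hid]
  have j1 := norm_J_Sd hδ hδ2 hn0 m1
  have j2 := norm_J_Sd hδ hδ2 hn0 m2
  have j3 := norm_J_Sd hδ hδ2 hn0 m1'
  have j4 := norm_J_Sd hδ hδ2 hn0 m2'
  have j5 := norm_J_Sd hδ hδ2 hn0 m3
  rw [← hsδ] at j1 j2 j3 j4 j5 hT
  have t1 : ‖4 * (n : ℂ) * T‖ ≤ Real.pi / sδ / n := by
    rw [norm_mul, norm_mul, Complex.norm_natCast]
    have e0 : ‖(4 : ℂ)‖ = 4 := by norm_num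
    rw [e0]
    calc 4 * n * ‖T‖ ≤ 4 * n * (Real.pi / sδ * (1 / (2 * n)) ^ 2) :=
          mul_le_mul_of_nonneg_left hT (by positivity)
      _ = Real.pi / sδ / n := by
          field_simp
          ring
  have t2 : ‖4 * VOL.J n (w + 1 / (2 * n))‖ ≤ 4 * (1 / (2 * Real.pi * sδ) / n) := by
    rw [norm_mul, show ‖(4 : ℂ)‖ = 4 by norm_num]
    exact mul_le_mul_of_nonneg_left j5 (by norm_num)
  calc _ ≤ 1 / (2 * Real.pi * sδ) / n + 1 / (2 * Real.pi * sδ) / n +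
        1 / (2 * Real.pi * sδ) / n + 1 / (2 * Real.pi * sδ) / n +
        4 * (1 / (2 * Real.pi * sδ) / n) + Real.pi / sδ / n := by
        refine (norm_sub_le _ _).trans (add_le_add ?_ t1)
        refine (norm_sub_le _ _).trans (add_le_add ?_ t2)
        refine (norm_add_le _ _).trans (add_le_add ?_ j4)
        refine (norm_add_le _ _).trans (add_le_add ?_ j3)
        exact (norm_add_le _ _).trans (add_le_add j1 j2)
    _ = (8 * (1 / (2 * Real.pi * sδ)) + Real.pi / sδ) / n := by ring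

theorem Tn_continuousAt_gen {n : ℕ} (hn : 0 < n) {w ζ ζ' : ℂ} (s3 : w + 1 / (2 * n) ∈ strip)
    (s1 : w + 1 / 2 + ζ ∈ strip) (s2 : w + 1 / 2 - ζ ∈ strip) (s1' : w + 1 / 2 + ζ' ∈ strip)
    (s2' : w + 1 / 2 - ζ' ∈ strip) :
    ContinuousAt (fun p : ℂ × ℂ × ℂ => Tn n p.1 p.2.1 p.2.2) (w, ζ, ζ') := by
  have hn0 : (0 : ℝ) < n := by exact_mod_cast hn
  have cM : ∀ {z : ℂ}, z ∈ VOL.strip → ContinuousAt (VOL.M n) z := fun hz =>
    (VOL.hasDerivAt_M hn0 hz).continuousAt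
  unfold Tn
  have d1 : ContinuousAt (fun p : ℂ × ℂ × ℂ => VOL.M n (p.1 + 1 / 2 + p.2.1)) (w, ζ, ζ') :=
    ContinuousAt.comp (f := fun p : ℂ × ℂ × ℂ => p.1 + 1 / 2 + p.2.1) (cM s1) (by fun_prop)
  have d2 : ContinuousAt (fun p : ℂ × ℂ × ℂ => VOL.M n (p.1 + 1 / 2 - p.2.1)) (w, ζ, ζ') :=
    ContinuousAt.comp (f := fun p : ℂ × ℂ × ℂ => p.1 + 1 / 2 - p.2.1) (cM s2) (by fun_prop)
  have d1' : ContinuousAt (fun p : ℂ × ℂ × ℂ => VOL.M n (p.1 + 1 / 2 + p.2.2)) (w, ζ, ζ') :=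
    ContinuousAt.comp (f := fun p : ℂ × ℂ × ℂ => p.1 + 1 / 2 + p.2.2) (cM s1') (by fun_prop)
  have d2' : ContinuousAt (fun p : ℂ × ℂ × ℂ => VOL.M n (p.1 + 1 / 2 - p.2.2)) (w, ζ, ζ') :=
    ContinuousAt.comp (f := fun p : ℂ × ℂ × ℂ => p.1 + 1 / 2 - p.2.2) (cM s2') (by fun_prop)
  have d3 : ContinuousAt (fun p : ℂ × ℂ × ℂ => VOL.M n (p.1 + 1 / (2 * n))) (w, ζ, ζ') :=
    ContinuousAt.comp (f := fun p : ℂ × ℂ × ℂ => p.1 + 1 / (2 * n)) (cM s3) (by fun_prop)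
  exact (((d1.add d2).add d1').add d2').sub (d3.const_mul 4)

/-! ### the limit of the exponent -/

theorem tp_quad_gen {w ζ ζ' : ℂ} (m1 : w + 1 / 2 + ζ ∈ strip) (m2 : w + 1 / 2 - ζ ∈ strip)
    (m3 : w + 1 / 2 + ζ' ∈ strip) (m4 : w + 1 / 2 - ζ' ∈ strip) (m5 : w ∈ strip) (Y X X' : ℝ) :
    Tendsto (fun n : ℕ => (n : ℂ) * (tp (w + ((Y / √(n : ℝ) : ℝ) : ℂ)) (ζ + ((X / √(n : ℝ) : ℝ) : ℂ))
      (ζ' + ((X' / √(n : ℝ) : ℝ) : ℂ)) - tp w ζ ζ') -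
      (√(n : ℝ) : ℝ) * (tw w ζ ζ' * Y + tz w ζ * X + tz w ζ' * X')) atTop (𝓝 (QX w ζ ζ' X X' Y)) := by
  have k1 := Fh_quad m1 (Y + X)
  have k2 := Fh_quad m2 (Y - X)
  have k3 := Fh_quad m3 (Y + X')
  have k4 := Fh_quad m4 (Y - X')
  have k5 := Fh_quad m5 Y
  have k := (((k1.add k2).add k3).add k4).sub (k5.const_mul 4)
  have e : QX w ζ ζ' X X' Y =
      ph' (w + 1 / 2 + ζ) * ((Y + X : ℝ) : ℂ) ^ 2 / 2 + ph' (w + 1 / 2 - ζ) * ((Y - X : ℝ) : ℂ) ^ 2 / 2 +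
      ph' (w + 1 / 2 + ζ') * ((Y + X' : ℝ) : ℂ) ^ 2 / 2 +
      ph' (w + 1 / 2 - ζ') * ((Y - X' : ℝ) : ℂ) ^ 2 / 2 - 4 * (ph' w * Y ^ 2 / 2) := by
    unfold QX tww tzz twz
    push_cast
    ring
  rw [e]
  refine k.congr fun n => ?_
  unfold tp tw tz
  have a1 : w + ((Y / √(n : ℝ) : ℝ) : ℂ) + 1 / 2 + (ζ + ((X / √(n : ℝ) : ℝ) : ℂ)) =
      w + 1 / 2 + ζ + (((Y + X) / √(n : ℝ) : ℝ) : ℂ) := by
    push_cast
    ring
  have a2 : w + ((Y / √(n : ℝ) : ℝ) : ℂ) + 1 / 2 - (ζ + ((X / √(n : ℝ) : ℝ) : ℂ)) =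
      w + 1 / 2 - ζ + (((Y - X) / √(n : ℝ) : ℝ) : ℂ) := by
    push_cast
    ring
  have a3 : w + ((Y / √(n : ℝ) : ℝ) : ℂ) + 1 / 2 + (ζ' + ((X' / √(n : ℝ) : ℝ) : ℂ)) =
      w + 1 / 2 + ζ' + (((Y + X') / √(n : ℝ) : ℝ) : ℂ) := by
    push_cast
    ring
  have a4 : w + ((Y / √(n : ℝ) : ℝ) : ℂ) + 1 / 2 - (ζ' + ((X' / √(n : ℝ) : ℝ) : ℂ)) =
      w + 1 / 2 - ζ' + (((Y - X') / √(n : ℝ) : ℝ) : ℂ) := by
    push_cast
    ring
  rw [a1, a2, a3, a4]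
  push_cast
  ring

/-- data of a critical point of the kernel: position and window -/
structure Win (w ζ ζ' : ℂ) (α β : ℝ) : Prop where
  h0 : 0 < α
  hα : α < w.re
  hβ : w.re < β
  hz : β + |ζ.re| < 1 / 2
  hz' : β + |ζ'.re| < 1 / 2

/-- a margin -/
theorem Win.margin {w ζ ζ' : ℂ} {α β : ℝ} (h : Win w ζ ζ' α β) : ∃ δ : ℝ, 0 < δ ∧ δ ≤ 1 / 2 ∧
    ∀ w₁ : ℂ, ∀ u u' v : ℝ, α ≤ w₁.re → w₁.re ≤ β → |u| ≤ δ → |u'| ≤ δ → 0 ≤ v → v ≤ δ →
    w₁ ∈ Sd δ ∧ w₁ + (v : ℂ) ∈ Sd δ ∧ w₁ + 1 / 2 + (ζ + (u : ℂ)) ∈ Sd δ ∧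
    w₁ + 1 / 2 - (ζ + (u : ℂ)) ∈ Sd δ ∧ w₁ + 1 / 2 + (ζ' + (u' : ℂ)) ∈ Sd δ ∧
    w₁ + 1 / 2 - (ζ' + (u' : ℂ)) ∈ Sd δ := by
  obtain ⟨h0, hα, hβ, hz, hz'⟩ := h
  have g0 := abs_nonneg ζ.re
  have g1 := abs_nonneg ζ'.re
  have hαβ : α < β := hα.trans hβ
  set δ := min α (min ((1 / 2 - (β + |ζ.re|)) / 2) ((1 / 2 - (β + |ζ'.re|)) / 2)) with hδ
  have d1 : δ ≤ α := min_le_left _ _
  have d2 : δ ≤ (1 / 2 - (β + |ζ.re|)) / 2 := (min_le_right _ _).trans (min_le_left _ _)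
  have d3 : δ ≤ (1 / 2 - (β + |ζ'.re|)) / 2 := (min_le_right _ _).trans (min_le_right _ _)
  have dpos : 0 < δ := lt_min h0 (lt_min (by linarith) (by linarith))
  refine ⟨δ, dpos, by linarith, ?_⟩
  intro w₁ u u' v e1 e2 e3 e4 e5 e6
  rw [abs_le] at e3 e4
  have f1 := neg_abs_le ζ.re
  have f2 := le_abs_self ζ.re
  have f3 := neg_abs_le ζ'.re
  have f4 := le_abs_self ζ'.re
  refine ⟨⟨by linarith, by linarith⟩, ⟨?_, ?_⟩, ⟨?_, ?_⟩, ⟨?_, ?_⟩, ⟨?_, ?_⟩, ⟨?_, ?_⟩⟩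
  · rw [Complex.add_re, Complex.ofReal_re]; linarith
  · rw [Complex.add_re, Complex.ofReal_re]; linarith
  · rw [re_add_half, Complex.add_re, Complex.ofReal_re]; linarith [e3.1]
  · rw [re_add_half, Complex.add_re, Complex.ofReal_re]; linarith [e3.2]
  · rw [re_sub_half, Complex.add_re, Complex.ofReal_re]; linarith [e3.2]
  · rw [re_sub_half, Complex.add_re, Complex.ofReal_re]; linarith [e3.1]
  · rw [re_add_half, Complex.add_re, Complex.ofReal_re]; linarith [e4.1]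
  · rw [re_add_half, Complex.add_re, Complex.ofReal_re]; linarith [e4.2]
  · rw [re_sub_half, Complex.add_re, Complex.ofReal_re]; linarith [e4.2]
  · rw [re_sub_half, Complex.add_re, Complex.ofReal_re]; linarith [e4.1]

theorem Win.strips {w ζ ζ' : ℂ} {α β : ℝ} (h : Win w ζ ζ' α β) : w + 1 / 2 + ζ ∈ strip ∧
    w + 1 / 2 - ζ ∈ strip ∧ w + 1 / 2 + ζ' ∈ strip ∧ w + 1 / 2 - ζ' ∈ strip ∧ w ∈ strip := by
  obtain ⟨δ, h1, h2, h3⟩ := h.margin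
  obtain ⟨a1, -, a3, a4, a5, a6⟩ := h3 w 0 0 0 h.hα.le h.hβ.le (by simpa using h1.le)
    (by simpa using h1.le) le_rfl h1.le
  rw [Complex.ofReal_zero, add_zero] at a3 a4 a5 a6
  exact ⟨Sd_sub h1 a3, Sd_sub h1 a4, Sd_sub h1 a5, Sd_sub h1 a6, Sd_sub h1 a1⟩

theorem eventually_le (X : ℝ) {δ : ℝ} (hδ : 0 < δ) : ∀ᶠ n : ℕ in atTop, |X / √(n : ℝ)| ≤ δ := by
  have h := (div_sqrt_tendsto X).abs
  rw [abs_zero] at h
  filter_upwards [h.eventually_lt_const hδ] with n hn using hn.le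

theorem half_inv_eventually {δ : ℝ} (hδ : 0 < δ) : ∀ᶠ n : ℕ in atTop, 1 / (2 * (n : ℝ)) ≤ δ := by
  have h : Tendsto (fun n : ℕ => 1 / (2 * (n : ℝ))) atTop (𝓝 0) := by
    have : Tendsto (fun n : ℕ => 2 * (n : ℝ)) atTop atTop :=
      tendsto_natCast_atTop_atTop.const_mul_atTop (by norm_num)
    exact this.const_div_atTop 1
  filter_upwards [h.eventually_lt_const hδ] with n hn using hn.le

/-- the expansion on the window -/
theorem Win.expand {w ζ ζ' : ℂ} {α β : ℝ} (h : Win w ζ ζ' α β) (X X' : ℝ) :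
    ∃ D : ℝ, 0 ≤ D ∧ ∀ᶠ n : ℕ in atTop, ∀ w₁ : ℂ, α ≤ w₁.re → w₁.re ≤ β →
    ‖Tn n w₁ (ζ + ((X / √(n : ℝ) : ℝ) : ℂ)) (ζ' + ((X' / √(n : ℝ) : ℝ) : ℂ)) -
      (n * tp w₁ (ζ + ((X / √(n : ℝ) : ℝ) : ℂ)) (ζ' + ((X' / √(n : ℝ) : ℝ) : ℂ)) - 2 * ph w₁)‖ ≤
      D / n := by
  obtain ⟨δ, h1, h2, h3⟩ := h.margin
  obtain ⟨D, hD, hexp⟩ := Tn_expand_gen h1 h2
  refine ⟨D, hD, ?_⟩
  filter_upwards [eventually_le X h1, eventually_le X' h1, half_inv_eventually h1,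
    eventually_gt_atTop 0] with n n1 n2 n3 n4 w₁ a1 a2
  obtain ⟨b1, b2, b3, b4, b5, b6⟩ := h3 w₁ (X / √(n : ℝ)) (X' / √(n : ℝ)) (1 / (2 * (n : ℝ))) a1 a2
    n1 n2 (by positivity) n3
  push_cast at b2
  exact hexp n n4 w₁ _ _ b1 b2 b3 b4 b5 b6

theorem EX_lim_gen {w ζ ζ' : ℂ} {α β : ℝ} (h : Win w ζ ζ' α β) (hcrit : tw w ζ ζ' = 0)
    (X X' Y : ℝ) :
    Tendsto (fun n : ℕ => EX n w ζ ζ' X X' Y) atTop (𝓝 (-(2 * ph w) + QX w ζ ζ' X X' Y)) := by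
  obtain ⟨D, hD, hexp⟩ := h.expand X X'
  obtain ⟨s1, s2, s3, s4, s5⟩ := h.strips
  have hwn : Tendsto (fun n : ℕ => w + ((Y / √(n : ℝ) : ℝ) : ℂ)) atTop (𝓝 w) := by
    simpa using (div_sqrt_tendsto_c Y).const_add w
  have k1 : Tendsto (fun n : ℕ => ph (w + ((Y / √(n : ℝ) : ℝ) : ℂ))) atTop (𝓝 (ph w)) :=
    (continuousAt_ph s5).tendsto.comp hwn
  have k2 := tp_quad_gen s1 s2 s3 s4 s5 Y X X'
  rw [hcrit] at k2
  have k3 : Tendsto (fun n : ℕ => Tn n (w + ((Y / √(n : ℝ) : ℝ) : ℂ)) (ζ + ((X / √(n : ℝ) : ℝ) : ℂ))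
      (ζ' + ((X' / √(n : ℝ) : ℝ) : ℂ)) - (n * tp (w + ((Y / √(n : ℝ) : ℝ) : ℂ))
      (ζ + ((X / √(n : ℝ) : ℝ) : ℂ)) (ζ' + ((X' / √(n : ℝ) : ℝ) : ℂ)) -
      2 * ph (w + ((Y / √(n : ℝ) : ℝ) : ℂ)))) atTop (𝓝 0) := by
    rw [tendsto_zero_iff_norm_tendsto_zero]
    have hD0 : Tendsto (fun n : ℕ => D / (n : ℝ)) atTop (𝓝 0) :=
      tendsto_natCast_atTop_atTop.const_div_atTop D
    refine squeeze_zero' (Eventually.of_forall fun n => norm_nonneg _) ?_ hD0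
    have hm : 0 < min (w.re - α) (β - w.re) := lt_min (by linarith [h.hα]) (by linarith [h.hβ])
    filter_upwards [hexp, eventually_le Y hm] with n n1 n2
    have n3 := n2.trans (min_le_left _ _)
    have n4 := n2.trans (min_le_right _ _)
    rw [abs_le] at n3 n4
    have wre : (w + ((Y / √(n : ℝ) : ℝ) : ℂ)).re = w.re + Y / √(n : ℝ) := by
      rw [Complex.add_re, Complex.ofReal_re]
    exact n1 _ (by rw [wre]; linarith [n3.1]) (by rw [wre]; linarith [n4.2])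
  have k := (k3.add k2).sub (k1.const_mul 2)
  rw [zero_add] at k
  have e : -(2 * ph w) + QX w ζ ζ' X X' Y = QX w ζ ζ' X X' Y - 2 * ph w := by
    ring
  rw [e]
  refine k.congr fun n => ?_
  unfold EX
  ring

/-! ### the integral over the window -/

/-- the integral over the window -/
noncomputable def MW (α β : ℝ) (n : ℕ) (τ : ℝ) (ζ ζ' : ℂ) : ℂ :=
  1 / n * ∫ x in α..β, Complex.exp (Tn n ((x : ℂ) + τ * Complex.I) ζ ζ')

theorem MW_eq {n : ℕ} (hn : 0 < n) {α β : ℝ} (hαβ : α ≤ β) (w ζ ζ' : ℂ) (X X' : ℝ) :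
    (((n : ℝ) ^ (3 / 2 : ℝ) : ℝ) : ℂ) *
      Complex.exp (-(n * tp w ζ ζ' + (√(n : ℝ) : ℝ) * (tz w ζ * X + tz w ζ' * X'))) *
      MW α β n w.im (ζ + ((X / √(n : ℝ) : ℝ) : ℂ)) (ζ' + ((X' / √(n : ℝ) : ℝ) : ℂ)) =
    ∫ Y : ℝ, (Set.Ioc (√(n : ℝ) * (α - w.re)) (√(n : ℝ) * (β - w.re))).indicator
      (fun Y => Complex.exp (EX n w ζ ζ' X X' Y)) Y := by
  have hnp : (0 : ℝ) < n := by exact_mod_cast hn
  have hsp : 0 < √(n : ℝ) := by positivity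
  have hss : √(n : ℝ) * √(n : ℝ) = n := Real.mul_self_sqrt hnp.le
  have h := intervalIntegral.integral_comp_div_add (a := √(n : ℝ) * (α - w.re))
    (b := √(n : ℝ) * (β - w.re)) (c := √(n : ℝ))
    (fun x : ℝ => Complex.exp (Tn n ((x : ℂ) + w.im * Complex.I) (ζ + ((X / √(n : ℝ) : ℝ) : ℂ))
      (ζ' + ((X' / √(n : ℝ) : ℝ) : ℂ)))) hsp.ne' w.re
  rw [mul_div_cancel_left₀ _ hsp.ne', mul_div_cancel_left₀ _ hsp.ne', sub_add_cancel,
    sub_add_cancel] at h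
  have hle : √(n : ℝ) * (α - w.re) ≤ √(n : ℝ) * (β - w.re) := by
    gcongr
  rw [integral_indicator measurableSet_Ioc, ← intervalIntegral.integral_of_le hle]
  have e : ∀ Y : ℝ, Complex.exp (EX n w ζ ζ' X X' Y) =
      Complex.exp (-(n * tp w ζ ζ' + (√(n : ℝ) : ℝ) * (tz w ζ * X + tz w ζ' * X'))) *
      Complex.exp (Tn n (((Y / √(n : ℝ) + w.re : ℝ) : ℂ) + w.im * Complex.I)
        (ζ + ((X / √(n : ℝ) : ℝ) : ℂ)) (ζ' + ((X' / √(n : ℝ) : ℝ) : ℂ))) := by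
    intro Y
    rw [← Complex.exp_add]
    congr 1
    unfold EX
    have : ((Y / √(n : ℝ) + w.re : ℝ) : ℂ) + w.im * Complex.I = w + ((Y / √(n : ℝ) : ℝ) : ℂ) := by
      apply Complex.ext
      · simp
        ring
      · simp
    rw [this]
    ring
  simp_rw [e]
  rw [intervalIntegral.integral_const_mul, h, Complex.real_smul, rpow_three_half hn]
  unfold MW
  push_cast
  have hnc : (n : ℂ) ≠ 0 := by
    exact_mod_cast hn.ne'
  field_simp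

/-- domination of the exponent from an inequality for the potential -/
theorem Win.dom {w ζ ζ' : ℂ} {α β : ℝ} (h : Win w ζ ζ' α β) {c D δ : ℝ} (hδ : 0 < δ)
    (hconc : ∀ a u u' : ℝ, α ≤ w.re + a → w.re + a ≤ β → |u| ≤ δ → |u'| ≤ δ →
      (tp (w + a) (ζ + u) (ζ' + u')).re ≤ (tp w ζ ζ').re + (tz w ζ).re * u + (tz w ζ').re * u' -
        c * a ^ 2 + D * (u ^ 2 + u' ^ 2)) (X X' : ℝ) :
    ∃ C : ℝ, ∀ᶠ n : ℕ in atTop, ∀ Y : ℝ, α ≤ w.re + Y / √(n : ℝ) → w.re + Y / √(n : ℝ) ≤ β →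
      (EX n w ζ ζ' X X' Y).re ≤ C - c * Y ^ 2 := by
  obtain ⟨E, hE, hexp⟩ := h.expand X X'
  -- a bound for `ph`
  have hph : ∃ P : ℝ, ∀ x : ℝ, α ≤ x → x ≤ β → ‖ph ((x : ℂ) + w.im * Complex.I)‖ ≤ P := by
    have h2 : ContinuousOn (fun x : ℝ => ph ((x : ℂ) + w.im * Complex.I)) (Set.Icc α β) := by
      intro x hx
      apply ContinuousAt.continuousWithinAt
      apply ContinuousAt.comp (g := ph) (f := fun x : ℝ => (x : ℂ) + w.im * Complex.I)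
      · refine continuousAt_ph ⟨?_, ?_⟩
        · simp
          linarith [h.h0, hx.1]
        · simp
          linarith [h.hz, hx.2, abs_nonneg ζ.re]
      · fun_prop
    obtain ⟨P, hP⟩ := isCompact_Icc.exists_bound_of_continuousOn h2
    exact ⟨P, fun x a1 a2 => hP x ⟨a1, a2⟩⟩
  obtain ⟨P, hP⟩ := hph
  refine ⟨2 * P + E + D * (X ^ 2 + X' ^ 2), ?_⟩
  filter_upwards [hexp, eventually_le X hδ, eventually_le X' hδ, eventually_gt_atTop 0] with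
    n n1 n2 n3 hn0 Y y1 y2
  have hnp : (0 : ℝ) < n := by exact_mod_cast hn0
  have hsp : 0 < √(n : ℝ) := by positivity
  have hss : √(n : ℝ) * √(n : ℝ) = n := Real.mul_self_sqrt hnp.le
  set u : ℝ := X / √(n : ℝ) with hu
  set u' : ℝ := X' / √(n : ℝ) with hu'
  set v : ℝ := Y / √(n : ℝ) with hv
  have eu : √(n : ℝ) * X = n * u := by
    rw [hu, mul_div_assoc', eq_div_iff hsp.ne']
    linear_combination X * hss
  have eu' : √(n : ℝ) * X' = n * u' := by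
    rw [hu', mul_div_assoc', eq_div_iff hsp.ne']
    linear_combination X' * hss
  have ev : Y ^ 2 = n * v ^ 2 := by
    rw [hv, div_pow, Real.sq_sqrt hnp.le]
    field_simp
  have eu2 : X ^ 2 = n * u ^ 2 := by
    rw [hu, div_pow, Real.sq_sqrt hnp.le]
    field_simp
  have eu2' : X' ^ 2 = n * u' ^ 2 := by
    rw [hu', div_pow, Real.sq_sqrt hnp.le]
    field_simp
  have wre : (w + (v : ℂ)).re = w.re + v := by simp
  have hE1 := (Complex.re_le_norm _).trans (n1 (w + (v : ℂ)) (by rw [wre]; exact y1)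
    (by rw [wre]; exact y2))
  have hEn : E / n ≤ E := div_le_self hE (by exact_mod_cast hn0)
  have hph2 : ‖ph (w + (v : ℂ))‖ ≤ P := by
    have e : w + (v : ℂ) = ((w.re + v : ℝ) : ℂ) + w.im * Complex.I := by
      apply Complex.ext <;> simp
    rw [e]
    exact hP _ y1 y2
  have hph3 := (Complex.abs_re_le_norm _).trans hph2
  rw [abs_le] at hph3
  have e1 : (Tn n (w + (v : ℂ)) (ζ + (u : ℂ)) (ζ' + (u' : ℂ)) -
      (n * tp (w + (v : ℂ)) (ζ + (u : ℂ)) (ζ' + (u' : ℂ)) - 2 * ph (w + (v : ℂ)))).re =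
      (Tn n (w + (v : ℂ)) (ζ + (u : ℂ)) (ζ' + (u' : ℂ))).re -
      (n * (tp (w + (v : ℂ)) (ζ + (u : ℂ)) (ζ' + (u' : ℂ))).re - 2 * (ph (w + (v : ℂ))).re) := by
    simp
  rw [e1] at hE1
  have e2 : (EX n w ζ ζ' X X' Y).re =
      (Tn n (w + (v : ℂ)) (ζ + (u : ℂ)) (ζ' + (u' : ℂ))).re -
      (n * (tp w ζ ζ').re + √(n : ℝ) * ((tz w ζ).re * X + (tz w ζ').re * X')) := by
    unfold EX
    simp [hu, hu', hv]
  rw [e2]
  have h5 := mul_le_mul_of_nonneg_left (hconc v u u' y1 y2 n2 n3) hnp.le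
  have e4 : √(n : ℝ) * ((tz w ζ).re * X + (tz w ζ').re * X') =
      n * ((tz w ζ).re * u + (tz w ζ').re * u') := by
    linear_combination (tz w ζ).re * eu + (tz w ζ').re * eu'
  rw [e4, ev, eu2, eu2']
  linarith [hph3.1, hph3.2]

/-- the second derivative in `w` is negative -/
theorem Win.tww_neg {w ζ ζ' : ℂ} {α β : ℝ} (h : Win w ζ ζ' α β) (hcrit : tw w ζ ζ' = 0) {c : ℝ}
    (hc : 0 < c) (hconc : ∀ a : ℝ, α ≤ w.re + a → w.re + a ≤ β →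
      (tp (w + a) ζ ζ').re ≤ (tp w ζ ζ').re - c * a ^ 2) : (tww w ζ ζ').re < 0 := by
  obtain ⟨s1, s2, s3, s4, s5⟩ := h.strips
  have k := tp_quad_gen s1 s2 s3 s4 s5 1 0 0
  have k2 := (Complex.continuous_re.tendsto _).comp k
  have e : (QX w ζ ζ' 0 0 1).re = (tww w ζ ζ').re / 2 := by
    unfold QX
    have : tww w ζ ζ' * ((1 : ℝ) : ℂ) ^ 2 / 2 + tzz w ζ * ((0 : ℝ) : ℂ) ^ 2 / 2 +
        tzz w ζ' * ((0 : ℝ) : ℂ) ^ 2 / 2 +
        (twz w ζ * ((0 : ℝ) : ℂ) + twz w ζ' * ((0 : ℝ) : ℂ)) * ((1 : ℝ) : ℂ) = tww w ζ ζ' / 2 := by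
      push_cast
      ring
    rw [this, Complex.div_ofNat_re]
  rw [e] at k2
  have hm : 0 < min (w.re - α) (β - w.re) := lt_min (by linarith [h.hα]) (by linarith [h.hβ])
  have hle : (tww w ζ ζ').re / 2 ≤ -c := by
    refine le_of_tendsto k2 ?_
    filter_upwards [eventually_le 1 hm, eventually_gt_atTop 0] with n n2 hn0
    have n3 := n2.trans (min_le_left _ _)
    have n4 := n2.trans (min_le_right _ _)
    rw [abs_le] at n3 n4
    have hnp : (0 : ℝ) < n := by exact_mod_cast hn0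
    have h5 := hconc (1 / √(n : ℝ)) (by linarith [n3.1]) (by linarith [n4.2])
    have h6 := mul_le_mul_of_nonneg_left h5 hnp.le
    have e3 : (n : ℝ) * (1 / √(n : ℝ)) ^ 2 = 1 := by
      rw [div_pow, Real.sq_sqrt hnp.le]
      field_simp
    simp only [Function.comp]
    rw [hcrit]
    simp only [zero_div, Complex.ofReal_zero, add_zero, mul_zero, zero_mul, sub_zero]
    rw [← Complex.ofReal_natCast, Complex.re_ofReal_mul, Complex.sub_re]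
    nlinarith
  linarith

theorem MW_lim {w ζ ζ' : ℂ} {α β : ℝ} (h : Win w ζ ζ' α β) (hcrit : tw w ζ ζ' = 0) {c D δ : ℝ}
    (hδ : 0 < δ) (hc : 0 < c)
    (hconc : ∀ a u u' : ℝ, α ≤ w.re + a → w.re + a ≤ β → |u| ≤ δ → |u'| ≤ δ →
      (tp (w + a) (ζ + u) (ζ' + u')).re ≤ (tp w ζ ζ').re + (tz w ζ).re * u + (tz w ζ').re * u' -
        c * a ^ 2 + D * (u ^ 2 + u' ^ 2)) : (tww w ζ ζ').re < 0 ∧ ∀ X X' : ℝ,
    Tendsto (fun n : ℕ => (((n : ℝ) ^ (3 / 2 : ℝ) : ℝ) : ℂ) *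
      Complex.exp (-(n * tp w ζ ζ' + (√(n : ℝ) : ℝ) * (tz w ζ * X + tz w ζ' * X'))) *
      MW α β n w.im (ζ + ((X / √(n : ℝ) : ℝ) : ℂ)) (ζ' + ((X' / √(n : ℝ) : ℝ) : ℂ))) atTop
      (𝓝 (Complex.exp (-(2 * ph w)) * (Real.pi / -(tww w ζ ζ' / 2)) ^ (1 / 2 : ℂ) *
        Complex.exp (tzz w ζ * X ^ 2 / 2 + tzz w ζ' * X' ^ 2 / 2 -
        (twz w ζ * X + twz w ζ' * X') ^ 2 / (2 * tww w ζ ζ')))) := by
  have hneg := h.tww_neg hcrit hc fun a a1 a2 => by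
    have := hconc a 0 0 a1 a2 (by simpa using hδ.le) (by simpa using hδ.le)
    simpa using this
  refine ⟨hneg, ?_⟩
  intro X X'
  obtain ⟨C, hdom⟩ := h.dom hδ hconc X X'
  obtain ⟨δ₁, hδ₁, hδ₁', hmar⟩ := h.margin
  -- the Gaussian integral
  have hG : ∫ Y : ℝ, Complex.exp (-(2 * ph w) + QX w ζ ζ' X X' Y) =
      Complex.exp (-(2 * ph w)) * (Real.pi / -(tww w ζ ζ' / 2)) ^ (1 / 2 : ℂ) *
        Complex.exp (tzz w ζ * X ^ 2 / 2 + tzz w ζ' * X' ^ 2 / 2 -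
        (twz w ζ * X + twz w ζ' * X') ^ 2 / (2 * tww w ζ ζ')) := by
    have hq := integral_cexp_quadratic (b := tww w ζ ζ' / 2) (by
      rw [Complex.div_ofNat_re]
      linarith) (twz w ζ * X + twz w ζ' * X')
      (-(2 * ph w) + (tzz w ζ * X ^ 2 / 2 + tzz w ζ' * X' ^ 2 / 2))
    have e1 : ∀ Y : ℝ, -(2 * ph w) + QX w ζ ζ' X X' Y = tww w ζ ζ' / 2 * (Y : ℂ) ^ 2 +
        (twz w ζ * X + twz w ζ' * X') * Y +
        (-(2 * ph w) + (tzz w ζ * X ^ 2 / 2 + tzz w ζ' * X' ^ 2 / 2)) := by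
      intro Y
      unfold QX
      ring
    simp_rw [e1]
    rw [hq]
    have e2 : -(2 * ph w) + (tzz w ζ * X ^ 2 / 2 + tzz w ζ' * X' ^ 2 / 2) -
        (twz w ζ * X + twz w ζ' * X') ^ 2 / (4 * (tww w ζ ζ' / 2)) =
        -(2 * ph w) + (tzz w ζ * X ^ 2 / 2 + tzz w ζ' * X' ^ 2 / 2 -
        (twz w ζ * X + twz w ζ' * X') ^ 2 / (2 * tww w ζ ζ')) := by
      rw [show 4 * (tww w ζ ζ' / 2) = 2 * tww w ζ ζ' by ring]
      ring
    rw [e2, Complex.exp_add]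
    ring
  rw [← hG]
  -- dominated convergence
  have hlim := tendsto_integral_filter_of_dominated_convergence (μ := volume) (l := atTop)
    (F := fun (n : ℕ) (Y : ℝ) =>
      (Set.Ioc (√(n : ℝ) * (α - w.re)) (√(n : ℝ) * (β - w.re))).indicator
      (fun Y => Complex.exp (EX n w ζ ζ' X X' Y)) Y)
    (f := fun Y : ℝ => Complex.exp (-(2 * ph w) + QX w ζ ζ' X X' Y))
    (fun Y => Real.exp C * Real.exp (-c * Y ^ 2)) ?_ ?_ ?_ ?_
  · refine hlim.congr' ?_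
    filter_upwards [eventually_gt_atTop 0] with n hn
    exact (MW_eq hn (h.hα.trans h.hβ).le w ζ ζ' X X').symm
  · -- measurability
    filter_upwards [eventually_le X hδ₁, eventually_le X' hδ₁, half_inv_eventually hδ₁,
      eventually_gt_atTop 0] with n n1 n2 n3 hn0
    rw [aestronglyMeasurable_indicator_iff measurableSet_Ioc]
    refine ContinuousOn.aestronglyMeasurable ?_ measurableSet_Ioc
    have hnp : (0 : ℝ) < n := by exact_mod_cast hn0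
    have hsp : 0 < √(n : ℝ) := by positivity
    refine Complex.continuous_exp.comp_continuousOn ?_
    unfold EX
    refine ContinuousOn.sub ?_ continuousOn_const
    intro Y hY
    apply ContinuousAt.continuousWithinAt
    have hY1 : α ≤ w.re + Y / √(n : ℝ) := by
      have := hY.1
      rw [← sub_le_iff_le_add', le_div_iff₀ hsp]
      linarith
    have hY2 : w.re + Y / √(n : ℝ) ≤ β := by
      have := hY.2
      rw [← le_sub_iff_add_le', div_le_iff₀ hsp]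
      linarith
    have wre : (w + ((Y / √(n : ℝ) : ℝ) : ℂ)).re = w.re + Y / √(n : ℝ) := by
      rw [Complex.add_re, Complex.ofReal_re]
    obtain ⟨b1, b2, b3, b4, b5, b6⟩ := hmar (w + ((Y / √(n : ℝ) : ℝ) : ℂ)) (X / √(n : ℝ))
      (X' / √(n : ℝ)) (1 / (2 * (n : ℝ))) (by rw [wre]; exact hY1) (by rw [wre]; exact hY2)
      n1 n2 (by positivity) n3
    have e5 : ((1 / (2 * (n : ℝ)) : ℝ) : ℂ) = 1 / (2 * (n : ℂ)) := by
      push_cast
      rfl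
    rw [e5] at b2
    have hT := Tn_continuousAt_gen hn0 (Sd_sub hδ₁ b2) (Sd_sub hδ₁ b3) (Sd_sub hδ₁ b4)
      (Sd_sub hδ₁ b5) (Sd_sub hδ₁ b6)
    exact ContinuousAt.comp (g := fun p : ℂ × ℂ × ℂ => Tn n p.1 p.2.1 p.2.2)
      (f := fun Y : ℝ => (w + ((Y / √(n : ℝ) : ℝ) : ℂ), ζ + ((X / √(n : ℝ) : ℝ) : ℂ),
        ζ' + ((X' / √(n : ℝ) : ℝ) : ℂ))) hT (by fun_prop)
  · -- the bound
    filter_upwards [hdom, eventually_gt_atTop 0] with n hn hn0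
    refine Eventually.of_forall fun Y => ?_
    have hnp : (0 : ℝ) < n := by exact_mod_cast hn0
    have hsp : 0 < √(n : ℝ) := by positivity
    by_cases hY : Y ∈ Set.Ioc (√(n : ℝ) * (α - w.re)) (√(n : ℝ) * (β - w.re))
    · rw [Set.indicator_of_mem hY]
      have hY1 : α ≤ w.re + Y / √(n : ℝ) := by
        have := hY.1
        rw [← sub_le_iff_le_add', le_div_iff₀ hsp]
        linarith
      have hY2 : w.re + Y / √(n : ℝ) ≤ β := by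
        have := hY.2
        rw [← le_sub_iff_add_le', div_le_iff₀ hsp]
        linarith
      have h4 := hn Y hY1 hY2
      rw [Complex.norm_exp, ← Real.exp_add]
      refine Real.exp_le_exp.mpr ?_
      linarith
    · rw [Set.indicator_of_notMem hY, norm_zero]
      positivity
  · exact (integrable_exp_neg_mul_sq hc).const_mul _
  · -- pointwise convergence
    refine Eventually.of_forall fun Y => ?_
    have hE := (Complex.continuous_exp.tendsto _).comp (EX_lim_gen h hcrit X X' Y)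
    refine hE.congr' ?_
    have a1 : ∀ᶠ n : ℕ in atTop, √(n : ℝ) * (α - w.re) < Y := by
      have : Tendsto (fun n : ℕ => √(n : ℝ) * (α - w.re)) atTop atBot :=
        sqrt_tendsto.atTop_mul_const_of_neg (by linarith [h.hα])
      exact this.eventually_lt_atBot Y
    have a2 : ∀ᶠ n : ℕ in atTop, Y ≤ √(n : ℝ) * (β - w.re) := by
      have : Tendsto (fun n : ℕ => √(n : ℝ) * (β - w.re)) atTop atTop :=
        sqrt_tendsto.atTop_mul_const (by linarith [h.hβ])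
      exact this.eventually_ge_atTop Y
    filter_upwards [a1, a2] with n n1 n2
    have hm : Y ∈ Set.Ioc (√(n : ℝ) * (α - w.re)) (√(n : ℝ) * (β - w.re)) := ⟨n1, n2⟩
    rw [Set.indicator_of_mem hm]
    rfl

/-! ### the kernel -/

theorem rpow_exp_tendsto_gen (s : ℝ) {a K : ℝ} (ha : 0 < a) :
    Tendsto (fun n : ℕ => (n : ℝ) ^ s * Real.exp (√(n : ℝ) * K - a * n)) atTop (𝓝 0) := by
  have h1 : Tendsto (fun n : ℕ => (n : ℝ) ^ s * Real.exp (-(a / 2) * n)) atTop (𝓝 0) :=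
    (tendsto_rpow_mul_exp_neg_mul_atTop_nhds_zero s (a / 2) (by positivity)).comp
      tendsto_natCast_atTop_atTop
  refine squeeze_zero' (Eventually.of_forall fun n => by positivity) ?_ h1
  filter_upwards [sqrt_tendsto.eventually_ge_atTop (2 * K / a), eventually_gt_atTop 0] with n hn hn0
  have hnp : (0 : ℝ) < n := by exact_mod_cast hn0
  have hss : √(n : ℝ) * √(n : ℝ) = n := Real.mul_self_sqrt hnp.le
  gcongr
  rw [div_le_iff₀ ha] at hn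
  have h2 : √(n : ℝ) * (2 * K) ≤ √(n : ℝ) * (√(n : ℝ) * a) := by gcongr
  have h3 : √(n : ℝ) * (√(n : ℝ) * a) = n * a := by
    rw [← mul_assoc, hss]
  linarith

/-- **The limit of the kernel at a general critical point**, with explicit hypotheses: `hnear` says
that the kernel is the integral over the window up to exponentially smaller errors, `hconc` is the
domination of the potential on the window. -/
theorem SS_lim_of {w ζ ζ' : ℂ} {α β : ℝ} (h : Win w ζ ζ' α β) (hcrit : tw w ζ ζ' = 0)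
    {c D δ c₁ C₁ : ℝ} {K N : ℕ} (hδ : 0 < δ) (hc : 0 < c)
    (hconc : ∀ a u u' : ℝ, α ≤ w.re + a → w.re + a ≤ β → |u| ≤ δ → |u'| ≤ δ →
      (tp (w + a) (ζ + u) (ζ' + u')).re ≤ (tp w ζ ζ').re + (tz w ζ).re * u + (tz w ζ').re * u' -
        c * a ^ 2 + D * (u ^ 2 + u' ^ 2))
    (hc₁ : 0 < c₁) (hnear : ∀ n : ℕ, N ≤ n → ∀ u u' : ℝ, |u| ≤ δ → |u'| ≤ δ →
      ‖SS n (ζ + u) (ζ' + u') - MW α β n w.im (ζ + u) (ζ' + u')‖ ≤
        C₁ * (n : ℝ) ^ K * Real.exp (n * ((tp w ζ ζ').re - c₁))) :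
    tww w ζ ζ' ≠ 0 ∧ ∃ A : ℂ, A ≠ 0 ∧ ∀ X X' : ℝ,
    Tendsto (fun n : ℕ => (((n : ℝ) ^ (3 / 2 : ℝ) : ℝ) : ℂ) *
      Complex.exp (-(n * tp w ζ ζ' + √(n : ℝ) * (tz w ζ * X + tz w ζ' * X'))) *
      SS n (ζ + ((X / √(n : ℝ) : ℝ) : ℂ)) (ζ' + ((X' / √(n : ℝ) : ℝ) : ℂ))) atTop
      (𝓝 (A * Complex.exp (tzz w ζ * X ^ 2 / 2 + tzz w ζ' * X' ^ 2 / 2 -
        (twz w ζ * X + twz w ζ' * X') ^ 2 / (2 * tww w ζ ζ')))) := by
  obtain ⟨hneg, hlim⟩ := MW_lim h hcrit hδ hc hconc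
  have hne : tww w ζ ζ' ≠ 0 := by
    intro h
    rw [h] at hneg
    simp at hneg
  refine ⟨hne, Complex.exp (-(2 * ph w)) * (Real.pi / -(tww w ζ ζ' / 2)) ^ (1 / 2 : ℂ), ?_, ?_⟩
  · refine mul_ne_zero (Complex.exp_ne_zero _) ?_
    rw [Complex.cpow_ne_zero_iff]
    left
    refine div_ne_zero (by exact_mod_cast Real.pi_ne_zero) ?_
    exact neg_ne_zero.mpr (div_ne_zero hne two_ne_zero)
  intro X X'
  set L := |(tz w ζ * X + tz w ζ' * X').re| with hL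
  -- the difference tends to zero
  have hdiff : Tendsto (fun n : ℕ => (((n : ℝ) ^ (3 / 2 : ℝ) : ℝ) : ℂ) *
      Complex.exp (-(n * tp w ζ ζ' + (√(n : ℝ) : ℝ) * (tz w ζ * X + tz w ζ' * X'))) *
      (SS n (ζ + ((X / √(n : ℝ) : ℝ) : ℂ)) (ζ' + ((X' / √(n : ℝ) : ℝ) : ℂ)) -
      MW α β n w.im (ζ + ((X / √(n : ℝ) : ℝ) : ℂ)) (ζ' + ((X' / √(n : ℝ) : ℝ) : ℂ)))) atTop (𝓝 0) := by
    rw [tendsto_zero_iff_norm_tendsto_zero]
    have hz := (rpow_exp_tendsto_gen (3 / 2 + K) (a := c₁) (K := L) hc₁).const_mul C₁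
    rw [mul_zero] at hz
    refine squeeze_zero' (Eventually.of_forall fun n => norm_nonneg _) ?_ hz
    filter_upwards [eventually_le X hδ, eventually_le X' hδ, eventually_ge_atTop N,
      eventually_gt_atTop 0] with n n1 n2 n3 hn0
    have hnp : (0 : ℝ) < n := by exact_mod_cast hn0
    rw [norm_mul, norm_mul, Complex.norm_real, Real.norm_eq_abs,
      abs_of_nonneg (by positivity), Complex.norm_exp]
    have b1 := hnear n n3 _ _ n1 n2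
    have e1 : (-(n * tp w ζ ζ' + (√(n : ℝ) : ℝ) * (tz w ζ * X + tz w ζ' * X')) : ℂ).re =
        -(n * (tp w ζ ζ').re + √(n : ℝ) * (tz w ζ * X + tz w ζ' * X').re) := by
      simp
    rw [e1]
    have b2 : -(√(n : ℝ) * (tz w ζ * X + tz w ζ' * X').re) ≤ √(n : ℝ) * L := by
      rw [← mul_neg, hL]
      exact mul_le_mul_of_nonneg_left (neg_le_abs _) (Real.sqrt_nonneg _)
    have b4 : 0 ≤ C₁ * (n : ℝ) ^ K * Real.exp (n * ((tp w ζ ζ').re - c₁)) :=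
      (norm_nonneg _).trans b1
    calc (n : ℝ) ^ (3 / 2 : ℝ) * Real.exp (-(n * (tp w ζ ζ').re +
          √(n : ℝ) * (tz w ζ * X + tz w ζ' * X').re)) * _ ≤
          (n : ℝ) ^ (3 / 2 : ℝ) * Real.exp (√(n : ℝ) * L - n * (tp w ζ ζ').re) *
          (C₁ * (n : ℝ) ^ K * Real.exp (n * ((tp w ζ ζ').re - c₁))) := by
          gcongr
          linarith
      _ = C₁ * ((n : ℝ) ^ (3 / 2 : ℝ) * (n : ℝ) ^ K * (Real.exp (√(n : ℝ) * L - n * (tp w ζ ζ').re) *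
          Real.exp (n * ((tp w ζ ζ').re - c₁)))) := by ring
      _ = C₁ * ((n : ℝ) ^ (3 / 2 + (K : ℝ)) * Real.exp (√(n : ℝ) * L - c₁ * n)) := by
          rw [← Real.exp_add, Real.rpow_add hnp, Real.rpow_natCast]
          congr 3
          ring
  have := (hlim X X').add hdiff
  rw [add_zero] at this
  refine this.congr fun n => ?_
  ring

end Pool.Agent.Work.MP_b30479_gt.LT
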