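import Pool.Agent.Work.MP_b30479_gt.LT.Defs
import Pool.Agent.Work.MP_b30479_gt.GT.Sad

/-!
# The critical point for all words with `|b_i| ≥ 10`, with explicit constants
-/

namespace Pool.Agent.Work.MP_b30479_gt.LT

open Finset VOL AX MeasureTheory

/-! ### logarithms -/

lemma xs_eq_of_exp {z w : ℂ} (h : Complex.exp z = Complex.exp w) (h1 : |z.im - w.im| < 2 * Real.pi) :
    z = w := by
  obtain ⟨n, hn⟩ := Complex.exp_eq_exp_iff_exists_int.1 h
  have h2 : z.im - w.im = n * (2 * Real.pi) := by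
    rw [hn]
    simp
  rw [h2, abs_mul, abs_of_pos Real.two_pi_pos] at h1
  have h3 : |(n : ℝ)| < 1 := by
    by_contra h4
    have h5 := not_lt.1 h4
    have := Real.two_pi_pos
    nlinarith
  have h4 : n = 0 := by
    have h5 : |n| < 1 := by exact_mod_cast h3
    exact Int.abs_lt_one_iff.1 h5
  rw [hn, h4]
  simp

lemma xs_im_ph {z : ℂ} (hz : z ∈ strip) : |(ph z).im| < Real.pi / 2 := by
  unfold ph
  rw [Complex.log_im, Complex.abs_arg_lt_pi_div_two_iff]
  left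
  have := sin_pi_re_pos hz
  rw [show (2 : ℂ) * Complex.sin (Real.pi * z) = ((2 : ℝ) : ℂ) * Complex.sin (Real.pi * z) by
    norm_num, Complex.re_ofReal_mul]
  linarith

lemma xs_im_of_exp {z : ℂ} (h : |z.im| < Real.pi) (h1 : 0 < (Complex.exp z).re) :
    |z.im| < Real.pi / 2 := by
  rw [abs_lt] at h
  have h2 := Complex.log_exp h.1 h.2.le
  have h3 : z.im = (Complex.exp z).arg := by
    rw [← Complex.log_im, h2]
  rw [h3, Complex.abs_arg_lt_pi_div_two_iff]
  exact Or.inl h1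

lemma xs_im_ath {u : ℂ} (hu : ‖u‖ < 1) : |(GT.ath u).im| < Real.pi / 2 := by
  have e : (GT.ath u).im = ((1 + u).arg - (1 - u).arg) / 2 := by
    unfold GT.ath
    rw [show (Complex.log (1 + u) - Complex.log (1 - u)) / 2 =
      ((1 / 2 : ℝ) : ℂ) * (Complex.log (1 + u) - Complex.log (1 - u)) by push_cast; ring,
      Complex.im_ofReal_mul, Complex.sub_im, Complex.log_im, Complex.log_im]
    ring
  have h1 : |(1 + u).arg| < Real.pi / 2 := by
    rw [Complex.abs_arg_lt_pi_div_two_iff]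
    left
    have := (abs_le.1 (Complex.abs_re_le_norm u)).1
    simp only [Complex.add_re, Complex.one_re]
    linarith
  have h2 : |(1 - u).arg| < Real.pi / 2 := by
    rw [Complex.abs_arg_lt_pi_div_two_iff]
    left
    have := (abs_le.1 (Complex.abs_re_le_norm u)).2
    simp only [Complex.sub_re, Complex.one_re]
    linarith
  rw [e]
  rw [abs_lt] at h1 h2 ⊢
  constructor <;> linarith [h1.1, h1.2, h2.1, h2.2]

lemma xs_exp_ath {u : ℂ} (hu : ‖u‖ < 1) :
    Complex.exp (2 * GT.ath u) = (1 + u) / (1 - u) ∧ (1 + u) ≠ 0 ∧ (1 - u) ≠ 0 := by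
  have n1 : (1 + u) ≠ 0 := by
    intro h
    have : u = -1 := by linear_combination h
    rw [this, norm_neg, norm_one] at hu
    exact lt_irrefl _ hu
  have n2 : (1 - u) ≠ 0 := by
    intro h
    have : u = 1 := by linear_combination -h
    rw [this, norm_one] at hu
    exact lt_irrefl _ hu
  refine ⟨?_, n1, n2⟩
  unfold GT.ath
  rw [mul_div_cancel₀ _ (two_ne_zero), Complex.exp_sub, Complex.exp_log n1, Complex.exp_log n2]

/-- real part of `artanh` -/
lemma xs_re_ath {u : ℂ} (hu : ‖u‖ < 1) (h : 0 < u.re) : 0 < (GT.ath u).re := by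
  obtain ⟨-, n1, n2⟩ := xs_exp_ath hu
  have e : (GT.ath u).re = (Real.log ‖1 + u‖ - Real.log ‖1 - u‖) / 2 := by
    unfold GT.ath
    rw [show (Complex.log (1 + u) - Complex.log (1 - u)) / 2 =
      ((1 / 2 : ℝ) : ℂ) * (Complex.log (1 + u) - Complex.log (1 - u)) by push_cast; ring,
      Complex.re_ofReal_mul, Complex.sub_re, Complex.log_re, Complex.log_re]
    ring
  have h1 : ‖1 - u‖ < ‖1 + u‖ := by
    rw [← sq_lt_sq₀ (norm_nonneg _) (norm_nonneg _), Complex.sq_norm, Complex.sq_norm,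
      Complex.normSq_apply, Complex.normSq_apply]
    simp only [Complex.sub_re, Complex.one_re, Complex.sub_im, Complex.one_im, Complex.add_re,
      Complex.add_im]
    nlinarith
  rw [e]
  have h2 := Real.log_lt_log (norm_pos_iff.2 n2) h1
  linarith

/-! ### the derivatives of the potential in terms of tangents -/

lemma xs_cos_p (w ζ : ℂ) : Complex.sin (Real.pi * (w + 1 / 2 + ζ)) =
    Complex.cos (Real.pi * w + Real.pi * ζ) := by
  rw [← Complex.sin_add_pi_div_two]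
  congr 1
  ring

lemma xs_cos_m (w ζ : ℂ) : Complex.sin (Real.pi * (w + 1 / 2 - ζ)) =
    Complex.cos (Real.pi * w - Real.pi * ζ) := by
  rw [← Complex.sin_add_pi_div_two]
  congr 1
  ring

lemma xs_exp_p {w ζ : ℂ} (h : w + 1 / 2 + ζ ∈ strip) (hc : Complex.cos (Real.pi * w) ≠ 0)
    (hd : Complex.cos (Real.pi * ζ) ≠ 0) : Complex.exp (ph (w + 1 / 2 + ζ)) =
    2 * Complex.cos (Real.pi * w) * Complex.cos (Real.pi * ζ) * (1 - GT.tz ζ * GT.tz w) := by
  rw [exp_ph h, xs_cos_p, Complex.cos_add]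
  unfold GT.tz
  rw [Complex.tan_eq_sin_div_cos, Complex.tan_eq_sin_div_cos]
  field_simp

lemma xs_exp_m {w ζ : ℂ} (h : w + 1 / 2 - ζ ∈ strip) (hc : Complex.cos (Real.pi * w) ≠ 0)
    (hd : Complex.cos (Real.pi * ζ) ≠ 0) : Complex.exp (ph (w + 1 / 2 - ζ)) =
    2 * Complex.cos (Real.pi * w) * Complex.cos (Real.pi * ζ) * (1 + GT.tz ζ * GT.tz w) := by
  rw [exp_ph h, xs_cos_m, Complex.cos_sub]
  unfold GT.tz
  rw [Complex.tan_eq_sin_div_cos, Complex.tan_eq_sin_div_cos]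
  field_simp

/-- `tz w ζ = -2 artanh (tan πζ tan πw)` -/
theorem xs_tz {w ζ : ℂ} (h : w + 1 / 2 + ζ ∈ strip) (h' : w + 1 / 2 - ζ ∈ strip)
    (hc : Complex.cos (Real.pi * w) ≠ 0) (hd : Complex.cos (Real.pi * ζ) ≠ 0)
    (hu : ‖GT.tz ζ * GT.tz w‖ < 1) : tz w ζ = -(2 * GT.ath (GT.tz ζ * GT.tz w)) := by
  obtain ⟨e1, n1, n2⟩ := xs_exp_ath hu
  apply xs_eq_of_exp
  · unfold tz
    rw [Complex.exp_sub, xs_exp_p h hc hd, xs_exp_m h' hc hd, Complex.exp_neg, e1]
    field_simp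
  · have h1 := xs_im_ph h
    have h2 := xs_im_ph h'
    have h3 := xs_im_ath hu
    have e : (tz w ζ).im - (-(2 * GT.ath (GT.tz ζ * GT.tz w))).im =
        (ph (w + 1 / 2 + ζ)).im - (ph (w + 1 / 2 - ζ)).im + 2 * (GT.ath (GT.tz ζ * GT.tz w)).im := by
      unfold tz
      rw [Complex.sub_im, Complex.neg_im,
        show (2 : ℂ) * GT.ath (GT.tz ζ * GT.tz w) = ((2 : ℝ) : ℂ) * GT.ath (GT.tz ζ * GT.tz w) by
          norm_num, Complex.im_ofReal_mul]
      ring
    rw [e]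
    rw [abs_lt] at h1 h2 h3 ⊢
    constructor <;> linarith [h1.1, h1.2, h2.1, h2.2, h3.1, h3.2]

/-- `exp (tw w ζ ζ')` in terms of tangents -/
theorem xs_exp_tw {w ζ ζ' : ℂ} (hw : w ∈ strip) (h1 : w + 1 / 2 + ζ ∈ strip)
    (h2 : w + 1 / 2 - ζ ∈ strip) (h3 : w + 1 / 2 + ζ' ∈ strip) (h4 : w + 1 / 2 - ζ' ∈ strip)
    (hc : Complex.cos (Real.pi * w) ≠ 0) (hd : Complex.cos (Real.pi * ζ) ≠ 0)
    (hd' : Complex.cos (Real.pi * ζ') ≠ 0) :
    Complex.exp (tw w ζ ζ') * (GT.tz w ^ 4 * (1 + GT.tz ζ ^ 2) * (1 + GT.tz ζ' ^ 2)) =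
      (1 - GT.tz ζ ^ 2 * GT.tz w ^ 2) * (1 - GT.tz ζ' ^ 2 * GT.tz w ^ 2) := by
  have hs := sin_pi_ne hw
  have e0 : ∀ x : ℂ, Complex.cos (Real.pi * x) ≠ 0 →
      (1 + GT.tz x ^ 2) * Complex.cos (Real.pi * x) ^ 2 = 1 := by
    intro x hx
    unfold GT.tz
    rw [Complex.tan_eq_sin_div_cos]
    field_simp
    rw [add_comm]
    exact Complex.sin_sq_add_cos_sq _
  have e1 := e0 ζ hd
  have e2 := e0 ζ' hd'
  have e3 : GT.tz w * Complex.cos (Real.pi * w) = Complex.sin (Real.pi * w) := by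
    unfold GT.tz
    rw [Complex.tan_eq_sin_div_cos]
    field_simp
  have e4 : Complex.exp (4 * ph w) = (2 * Complex.sin (Real.pi * w)) ^ 4 := by
    rw [← exp_ph hw, ← Complex.exp_nat_mul]
    norm_num
  unfold tw
  rw [Complex.exp_sub, Complex.exp_add, Complex.exp_add, Complex.exp_add, xs_exp_p h1 hc hd,
    xs_exp_m h2 hc hd, xs_exp_p h3 hc hd', xs_exp_m h4 hc hd', e4, ← e3]
  have hq : GT.tz w * Complex.cos (Real.pi * w) ≠ 0 := by rw [e3]; exact hs
  have hq1 : GT.tz w ≠ 0 := left_ne_zero_of_mul hq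
  generalize GT.tz w = q at *
  generalize GT.tz ζ = t at *
  generalize GT.tz ζ' = t' at *
  generalize Complex.cos (Real.pi * w) = C at *
  generalize Complex.cos (Real.pi * ζ) = c at *
  generalize Complex.cos (Real.pi * ζ') = c' at *
  rw [div_mul_eq_mul_div, div_eq_iff (pow_ne_zero 4 (mul_ne_zero two_ne_zero hq))]
  have : (2 * C * c * (1 - t * q) * (2 * C * c * (1 + t * q)) * (2 * C * c' * (1 - t' * q)) *
      (2 * C * c' * (1 + t' * q))) * (q ^ 4 * (1 + t ^ 2) * (1 + t' ^ 2)) =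
      16 * C ^ 4 * q ^ 4 * (1 - t ^ 2 * q ^ 2) * (1 - t' ^ 2 * q ^ 2) *
        ((1 + t ^ 2) * c ^ 2) * ((1 + t' ^ 2) * c' ^ 2) := by ring
  rw [this, e1, e2]
  ring

/-! ### the value of the hinge variable -/

lemma xs_one_add_sq {x : ℂ} (hx : Complex.cos (Real.pi * x) ≠ 0) :
    (1 + GT.tz x ^ 2) * Complex.cos (Real.pi * x) ^ 2 = 1 := by
  unfold GT.tz
  rw [Complex.tan_eq_sin_div_cos]
  field_simp
  rw [add_comm]
  exact Complex.sin_sq_add_cos_sq _

/-- facts about `q = 1 / √K` -/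
theorem xs_isq {K : ℂ} (hK : 1 ≤ K.re) : 0 < (GT.isq K).re ∧ |(GT.isq K).im| < (GT.isq K).re ∧
    GT.isq K ^ 2 * K = 1 ∧ 2 ≤ ‖1 + (GT.isq K)⁻¹‖ := by
  have hK0 : K ≠ 0 := by
    intro h
    rw [h, Complex.zero_re] at hK
    linarith
  have h1 : 0 < (GT.isq K).re := by
    unfold GT.isq
    rw [Complex.exp_re]
    apply mul_pos (Real.exp_pos _)
    apply Real.cos_pos_of_mem_Ioo
    have e : (-(Complex.log K) / 2).im = -(K.arg) / 2 := by
      rw [show -(Complex.log K) / 2 = ((-(1 / 2) : ℝ) : ℂ) * Complex.log K by push_cast; ring,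
        Complex.im_ofReal_mul, Complex.log_im]
      ring
    rw [e]
    have h2 : |K.arg| < Real.pi / 2 := by
      rw [Complex.abs_arg_lt_pi_div_two_iff]
      left
      linarith
    rw [abs_lt] at h2
    have := Real.pi_pos
    constructor <;> linarith [h2.1, h2.2]
  have h2 := GT.isq_sq hK0
  have h3 : GT.isq K ^ 2 * K = 1 := by
    rw [h2, one_div, inv_mul_cancel₀ hK0]
  generalize GT.isq K = q at h1 h2 h3
  have hq : q ≠ 0 := by
    intro h
    rw [h, Complex.zero_re] at h1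
    exact lt_irrefl _ h1
  have h4 : 0 < (q ^ 2).re := by
    rw [h2, one_div, Complex.inv_re]
    apply div_pos (by linarith)
    exact Complex.normSq_pos.2 hK0
  refine ⟨h1, ?_, h3, ?_⟩
  · have h5 : (q ^ 2).re = q.re ^ 2 - q.im ^ 2 := by
      rw [sq, Complex.mul_re]; ring
    rw [h5] at h4
    rw [← sq_lt_sq₀ (abs_nonneg _) h1.le, sq_abs]
    linarith
  · have h5 : (q⁻¹) ^ 2 = K := by
      have : q ^ 2 ≠ 0 := pow_ne_zero 2 hq
      rw [inv_pow]
      field_simp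
      linear_combination -h3
    have h6 : 0 < (q⁻¹).re := by
      rw [Complex.inv_re]
      exact div_pos h1 (Complex.normSq_pos.2 hq)
    have h7 : K.re = (q⁻¹).re ^ 2 - (q⁻¹).im ^ 2 := by
      rw [← h5, sq, Complex.mul_re]; ring
    have h8 : 1 ≤ (q⁻¹).re := by nlinarith [sq_nonneg (q⁻¹).im]
    have h9 := Complex.re_le_norm (1 + q⁻¹)
    rw [Complex.add_re, Complex.one_re] at h9
    linarith

/-- the hinge variable: `tan (π yq) = q` -/
noncomputable def yq (q : ℂ) : ℂ :=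
  1 / 4 - Complex.I / Real.pi * GT.ath (Complex.I * ((q - 1) / (q + 1)))

theorem xs_yq {K : ℂ} (hK : 1 ≤ K.re) (hK2 : ‖K - 1‖ ≤ 1 / 2) :
    Complex.cos (Real.pi * yq (GT.isq K)) ≠ 0 ∧ GT.tz (yq (GT.isq K)) = GT.isq K ∧
      ‖yq (GT.isq K) - 1 / 4‖ ≤ 1 / 10 * ‖K - 1‖ := by
  obtain ⟨h1, h2, h3, h4⟩ := xs_isq hK
  generalize GT.isq K = q at h1 h2 h3 h4
  have hq : q ≠ 0 := by
    intro h
    rw [h, Complex.zero_re] at h1
    exact lt_irrefl _ h1
  have hq1 : q + 1 ≠ 0 := by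
    intro h
    have := congrArg Complex.re h
    rw [Complex.add_re, Complex.one_re, Complex.zero_re] at this
    linarith
  set v : ℂ := (q - 1) / (q + 1) with hv
  have hvn : ‖v‖ ≤ 1 / 4 * ‖K - 1‖ := by
    have e : v = (1 - K) / (1 + q⁻¹) ^ 2 := by
      have hr : (1 + q⁻¹) ≠ 0 := by
        intro h
        rw [h, norm_zero] at h4
        linarith
      have e1 : (1 + q⁻¹) = (q + 1) / q := by field_simp
      have e2 : K = 1 / q ^ 2 := by
        field_simp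
        linear_combination h3
      rw [e1, e2, hv]
      field_simp
      ring
    rw [e, norm_div, norm_pow, norm_sub_rev, div_le_iff₀ (by nlinarith)]
    have : 4 ≤ ‖1 + q⁻¹‖ ^ 2 := by nlinarith
    nlinarith [norm_nonneg (K - 1)]
  have hv1 : ‖Complex.I * v‖ ≤ 1 / 4 * ‖K - 1‖ := by
    rw [norm_mul, Complex.norm_I, one_mul]; exact hvn
  have hv2 : ‖Complex.I * v‖ ≤ 1 / 8 := by linarith
  obtain ⟨a1, a2, a3⟩ := xs_exp_ath (lt_of_le_of_lt hv2 (by norm_num : (1 / 8 : ℝ) < 1))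
  have hy : yq q = 1 / 4 - Complex.I / Real.pi * GT.ath (Complex.I * v) := rfl
  have hyn := GT.ath_norm_le (u := Complex.I * v) (by linarith)
  set A := GT.ath (Complex.I * v) with hA
  have hpi : (Real.pi : ℂ) ≠ 0 := by exact_mod_cast Real.pi_ne_zero
  have hpy : (Real.pi : ℂ) * yq q = Real.pi / 4 - A * Complex.I := by
    rw [hy]
    field_simp
  have hE : Complex.exp A ≠ 0 := Complex.exp_ne_zero _
  have hEE : Complex.exp A * Complex.exp (-A) = 1 := by
    rw [← Complex.exp_add, add_neg_cancel, Complex.exp_zero]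
  have h2A : Complex.exp (2 * A) = Complex.exp A * Complex.exp A := by
    rw [← Complex.exp_add]; congr 1; ring
  have hs : Complex.sinh A = Complex.I * v * Complex.cosh A := by
    rw [Complex.sinh, Complex.cosh]
    rw [h2A, eq_div_iff a3] at a1
    have e1 : Complex.exp A * (1 - Complex.I * v) = (1 + Complex.I * v) * Complex.exp (-A) := by
      linear_combination Complex.exp (-A) * a1 - Complex.exp A * (1 - Complex.I * v) * hEE
    linear_combination (1 / 2 : ℂ) * e1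
  have hcosh : Complex.cosh A ≠ 0 := by
    intro h
    rw [h, mul_zero] at hs
    have := Complex.cosh_sq A
    rw [h, hs] at this
    norm_num at this
  have hv3 : (1 : ℂ) - v ≠ 0 := by
    intro h
    have : v = 1 := by linear_combination -h
    rw [this, norm_one] at hvn
    linarith
  have hcq : Complex.cos (Real.pi / 4 : ℂ) = (Real.sqrt 2 / 2 : ℝ) := by
    rw [← Real.cos_pi_div_four]; push_cast; rfl
  have hsq : Complex.sin (Real.pi / 4 : ℂ) = (Real.sqrt 2 / 2 : ℝ) := by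
    rw [← Real.sin_pi_div_four]; push_cast; rfl
  have hII : Complex.I ^ 2 = -1 := Complex.I_sq
  have hc : Complex.cos (Real.pi * yq q) = (Real.sqrt 2 / 2 : ℝ) * Complex.cosh A * (1 - v) := by
    rw [hpy, Complex.cos_sub, hcq, hsq, Complex.cos_mul_I, Complex.sin_mul_I, hs]
    linear_combination (Real.sqrt 2 / 2 : ℝ) * Complex.cosh A * v * hII
  have hsn : Complex.sin (Real.pi * yq q) = (Real.sqrt 2 / 2 : ℝ) * Complex.cosh A * (1 + v) := by
    rw [hpy, Complex.sin_sub, hcq, hsq, Complex.cos_mul_I, Complex.sin_mul_I, hs]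
    linear_combination -((Real.sqrt 2 / 2 : ℝ) * Complex.cosh A * v * hII)
  have hsqrt : ((Real.sqrt 2 / 2 : ℝ) : ℂ) ≠ 0 := by
    have : (0 : ℝ) < Real.sqrt 2 / 2 := by positivity
    exact_mod_cast this.ne'
  have hcne : Complex.cos (Real.pi * yq q) ≠ 0 := by
    rw [hc]
    exact mul_ne_zero (mul_ne_zero hsqrt hcosh) hv3
  refine ⟨hcne, ?_, ?_⟩
  · unfold GT.tz
    rw [Complex.tan_eq_sin_div_cos, div_eq_iff hcne, hc, hsn]
    have : 1 + v = q * (1 - v) := by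
      rw [hv]
      field_simp
      ring
    rw [this]
    ring
  · rw [hy, sub_sub_cancel_left, norm_neg, norm_mul, norm_div, Complex.norm_I, Complex.norm_real,
      Real.norm_of_nonneg Real.pi_pos.le]
    have h5 : 1 / Real.pi ≤ 1 / 3 := one_div_le_one_div_of_le (by norm_num) Real.pi_gt_three.le
    calc 1 / Real.pi * ‖A‖ ≤ 1 / 3 * (6 / 5 * (1 / 4 * ‖K - 1‖)) :=
          mul_le_mul h5 (hyn.trans (by linarith)) (norm_nonneg _) (by norm_num)
      _ = 1 / 10 * ‖K - 1‖ := by ring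

/-- the region for the variables `ζ` -/
structure ZDom (ζ : ℂ) : Prop where
  cos_ne : Complex.cos (Real.pi * ζ) ≠ 0
  tz_le : ‖GT.tz ζ‖ ≤ 1 / 2
  tz_re : 0 ≤ (GT.tz ζ ^ 2).re
  re_le : |ζ.re| ≤ 7 / 50

lemma xs_K {ζ ζ' : ℂ} (h : ZDom ζ) (h' : ZDom ζ') : 1 ≤ (1 + GT.tz ζ ^ 2 + GT.tz ζ' ^ 2).re ∧
    ‖1 + GT.tz ζ ^ 2 + GT.tz ζ' ^ 2 - 1‖ ≤ ‖GT.tz ζ‖ ^ 2 + ‖GT.tz ζ'‖ ^ 2 ∧
    ‖1 + GT.tz ζ ^ 2 + GT.tz ζ' ^ 2 - 1‖ ≤ 1 / 2 := by
  have h1 := h.tz_re
  have h2 := h'.tz_re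
  have h3 : ‖1 + GT.tz ζ ^ 2 + GT.tz ζ' ^ 2 - 1‖ ≤ ‖GT.tz ζ‖ ^ 2 + ‖GT.tz ζ'‖ ^ 2 := by
    rw [show 1 + GT.tz ζ ^ 2 + GT.tz ζ' ^ 2 - 1 = GT.tz ζ ^ 2 + GT.tz ζ' ^ 2 by ring,
      ← norm_pow, ← norm_pow]
    exact norm_add_le _ _
  refine ⟨?_, h3, ?_⟩
  · rw [Complex.add_re, Complex.add_re, Complex.one_re]
    linarith
  · have h4 : ‖GT.tz ζ‖ ^ 2 ≤ (1 / 2) ^ 2 := pow_le_pow_left₀ (norm_nonneg _) h.tz_le 2
    have h5 : ‖GT.tz ζ'‖ ^ 2 ≤ (1 / 2) ^ 2 := pow_le_pow_left₀ (norm_nonneg _) h'.tz_le 2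
    linarith

lemma xs_strip {w ζ : ℂ} (hw : |w.re - 1 / 4| ≤ 1 / 10) (h : |ζ.re| ≤ 7 / 50) :
    w ∈ strip ∧ w + 1 / 2 + ζ ∈ strip ∧ w + 1 / 2 - ζ ∈ strip := by
  rw [abs_le] at hw h
  have e1 : (w + 1 / 2 + ζ).re = w.re + 1 / 2 + ζ.re := by simp
  have e2 : (w + 1 / 2 - ζ).re = w.re + 1 / 2 - ζ.re := by simp
  refine ⟨⟨by linarith [hw.1], by linarith [hw.2]⟩, ⟨?_, ?_⟩, ⟨?_, ?_⟩⟩
  · rw [e1]; linarith [hw.1, h.1]
  · rw [e1]; linarith [hw.2, h.2]
  · rw [e2]; linarith [hw.1, h.2]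
  · rw [e2]; linarith [hw.2, h.1]

/-- the imaginary part of a pair -/
lemma xs_pair {w ζ ζ' : ℂ} (hw : |w.re - 1 / 4| ≤ 1 / 10) (h : ZDom ζ) (h' : ZDom ζ')
    (hc : Complex.cos (Real.pi * w) ≠ 0)
    (hq : GT.tz w ^ 2 * (1 + GT.tz ζ ^ 2 + GT.tz ζ' ^ 2) = 1) :
    |(ph (w + 1 / 2 + ζ) + ph (w + 1 / 2 - ζ)).im| < Real.pi / 2 := by
  obtain ⟨-, s1, s2⟩ := xs_strip hw h.re_le
  apply xs_im_of_exp
  · rw [Complex.add_im]
    have h1 := xs_im_ph s1
    have h2 := xs_im_ph s2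
    rw [abs_lt] at h1 h2 ⊢
    constructor <;> linarith [h1.1, h1.2, h2.1, h2.2]
  · rw [Complex.exp_add, xs_exp_p s1 hc h.cos_ne, xs_exp_m s2 hc h.cos_ne]
    have e1 := xs_one_add_sq hc
    have e2 := xs_one_add_sq h.cos_ne
    have hτ := add_nonneg h.tz_re h'.tz_re
    have hT : ‖GT.tz ζ ^ 2‖ ≤ 1 / 4 := by
      rw [norm_pow]
      have := pow_le_pow_left₀ (norm_nonneg _) h.tz_le 2
      linarith
    rw [← Complex.add_re] at hτ
    generalize GT.tz w = q at *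
    generalize Complex.cos (Real.pi * w) = C at *
    generalize Complex.cos (Real.pi * ζ) = c at *
    generalize GT.tz ζ' ^ 2 = T' at *
    have e3 : 2 * C * c * (1 - GT.tz ζ * q) * (2 * C * c * (1 + GT.tz ζ * q)) =
        2 * ((GT.tz ζ ^ 2 + T') / (2 + (GT.tz ζ ^ 2 + T')) +
          (1 - GT.tz ζ ^ 2) / (1 + GT.tz ζ ^ 2)) := by
      generalize GT.tz ζ = t at *
      have n1 : (1 + t ^ 2) ≠ 0 := left_ne_zero_of_mul (a := 1 + t ^ 2) (b := c ^ 2) (by
        rw [e2]; exact one_ne_zero)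
      have n2 : (1 + q ^ 2) ≠ 0 := left_ne_zero_of_mul (a := 1 + q ^ 2) (b := C ^ 2) (by
        rw [e1]; exact one_ne_zero)
      have nq : q ^ 2 ≠ 0 := left_ne_zero_of_mul (a := q ^ 2) (b := 1 + t ^ 2 + T') (by
        rw [hq]; exact one_ne_zero)
      have nq' : q ≠ 0 := by
        intro h0
        rw [h0] at nq
        exact nq (by ring)
      have n3 : (2 + (t ^ 2 + T')) ≠ 0 := by
        intro h0
        apply n2
        have : q ^ 2 * (2 + (t ^ 2 + T')) = q ^ 2 + 1 := by linear_combination hq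
        rw [h0, mul_zero] at this
        linear_combination -this
      have f1 : C ^ 2 = 1 / (1 + q ^ 2) := by
        rw [eq_div_iff n2]; linear_combination e1
      have f2 : c ^ 2 = 1 / (1 + t ^ 2) := by
        rw [eq_div_iff n1]; linear_combination e2
      have f3 : t ^ 2 + T' = 1 / q ^ 2 - 1 := by
        rw [eq_sub_iff_add_eq, eq_div_iff nq]; linear_combination hq
      have f4 : (2 : ℂ) + (1 / q ^ 2 - 1) = (1 + q ^ 2) / q ^ 2 := by
        field_simp; ring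
      calc 2 * C * c * (1 - t * q) * (2 * C * c * (1 + t * q))
          = 4 * C ^ 2 * c ^ 2 * (1 - t ^ 2 * q ^ 2) := by ring
        _ = _ := by
          rw [f1, f2, f3, f4]
          field_simp
          ring
    rw [e3]
    have r1 : 0 ≤ ((GT.tz ζ ^ 2 + T') / (2 + (GT.tz ζ ^ 2 + T'))).re := by
      generalize GT.tz ζ ^ 2 + T' = τ at hτ
      rw [Complex.div_re]
      have h2 : 0 < Complex.normSq (2 + τ) := by
        apply Complex.normSq_pos.2
        intro h0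
        have := congrArg Complex.re h0
        rw [Complex.add_re, Complex.zero_re] at this
        norm_num at this
        linarith
      rw [← add_div]
      apply div_nonneg _ h2.le
      simp only [Complex.add_re, Complex.add_im, Complex.re_ofNat, Complex.im_ofNat]
      nlinarith [sq_nonneg τ.re, sq_nonneg τ.im]
    have r2 : 0 < ((1 - GT.tz ζ ^ 2) / (1 + GT.tz ζ ^ 2)).re := by
      generalize GT.tz ζ ^ 2 = T at hT
      rw [Complex.div_re]
      have hn : Complex.normSq T ≤ 1 / 16 := by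
        rw [← Complex.sq_norm]
        nlinarith [norm_nonneg T]
      rw [Complex.normSq_apply] at hn
      have h2 : 0 < Complex.normSq (1 + T) := by
        apply Complex.normSq_pos.2
        intro h0
        have : T = -1 := by linear_combination h0
        rw [this, norm_neg, norm_one] at hT
        norm_num at hT
      rw [← add_div]
      apply div_pos _ h2
      simp only [Complex.add_re, Complex.add_im, Complex.sub_re, Complex.sub_im, Complex.one_re,
        Complex.one_im]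
      nlinarith
    rw [show (2 : ℂ) * ((GT.tz ζ ^ 2 + T') / (2 + (GT.tz ζ ^ 2 + T')) +
          (1 - GT.tz ζ ^ 2) / (1 + GT.tz ζ ^ 2)) = ((2 : ℝ) : ℂ) * ((GT.tz ζ ^ 2 + T') /
          (2 + (GT.tz ζ ^ 2 + T')) + (1 - GT.tz ζ ^ 2) / (1 + GT.tz ζ ^ 2)) by norm_num,
      Complex.re_ofReal_mul, Complex.add_re]
    linarith

/-- the imaginary part of `2 ph w` -/
lemma xs_double {w ζ ζ' : ℂ} (hw : |w.re - 1 / 4| ≤ 1 / 10) (h : ZDom ζ) (h' : ZDom ζ')
    (hc : Complex.cos (Real.pi * w) ≠ 0)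
    (hq : GT.tz w ^ 2 * (1 + GT.tz ζ ^ 2 + GT.tz ζ' ^ 2) = 1) :
    |(2 * ph w).im| < Real.pi / 2 := by
  obtain ⟨s0, -, -⟩ := xs_strip hw h.re_le
  have e0 : (2 * ph w).im = 2 * (ph w).im := by
    rw [show (2 : ℂ) * ph w = ((2 : ℝ) : ℂ) * ph w by norm_num, Complex.im_ofReal_mul]
  apply xs_im_of_exp
  · rw [e0]
    have h1 := xs_im_ph s0
    rw [abs_lt] at h1 ⊢
    constructor <;> linarith [h1.1, h1.2]
  · have e1 := xs_one_add_sq hc
    have hτ := add_nonneg h.tz_re h'.tz_re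
    rw [← Complex.add_re] at hτ
    have e3 : Complex.exp (2 * ph w) = 4 / (2 + (GT.tz ζ ^ 2 + GT.tz ζ' ^ 2)) := by
      have e4 : Complex.exp (2 * ph w) = (2 * Complex.sin (Real.pi * w)) ^ 2 := by
        rw [← exp_ph s0, ← Complex.exp_nat_mul]
        norm_num
      have e5 : GT.tz w * Complex.cos (Real.pi * w) = Complex.sin (Real.pi * w) := by
        unfold GT.tz
        rw [Complex.tan_eq_sin_div_cos]
        field_simp
      rw [e4, ← e5]
      generalize GT.tz w = q at *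
      generalize Complex.cos (Real.pi * w) = C at *
      generalize GT.tz ζ ^ 2 = T at *
      generalize GT.tz ζ' ^ 2 = T' at *
      have n2 : (1 + q ^ 2) ≠ 0 := left_ne_zero_of_mul (a := 1 + q ^ 2) (b := C ^ 2) (by
        rw [e1]; exact one_ne_zero)
      have n3 : (2 + (T + T')) ≠ 0 := by
        intro h0
        apply n2
        have : q ^ 2 * (2 + (T + T')) = q ^ 2 + 1 := by linear_combination hq
        rw [h0, mul_zero] at this
        linear_combination -this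
      rw [eq_div_iff n3]
      linear_combination 4 * C ^ 2 * hq + 4 * e1
    rw [e3]
    generalize GT.tz ζ ^ 2 + GT.tz ζ' ^ 2 = τ at hτ
    rw [Complex.div_re]
    have h2 : 0 < Complex.normSq (2 + τ) := by
      apply Complex.normSq_pos.2
      intro h0
      have := congrArg Complex.re h0
      rw [Complex.add_re, Complex.zero_re] at this
      norm_num at this
      linarith
    rw [← add_div]
    apply div_pos _ h2
    simp only [Complex.add_re, Complex.add_im, Complex.re_ofNat, Complex.im_ofNat]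
    linarith

/-- `tw = 0` is the equation `K tan² (π w) = 1` -/
theorem xs_tw_zero {w ζ ζ' : ℂ} (hw : |w.re - 1 / 4| ≤ 1 / 10) (h : ZDom ζ) (h' : ZDom ζ')
    (hc : Complex.cos (Real.pi * w) ≠ 0)
    (hq : GT.tz w ^ 2 * (1 + GT.tz ζ ^ 2 + GT.tz ζ' ^ 2) = 1) : tw w ζ ζ' = 0 := by
  obtain ⟨s0, s1, s2⟩ := xs_strip hw h.re_le
  obtain ⟨-, s3, s4⟩ := xs_strip hw h'.re_le
  have p1 := xs_pair hw h h' hc hq
  have p2 := xs_pair hw h' h hc (by linear_combination hq)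
  have p3 := xs_double hw h h' hc hq
  have key := xs_exp_tw s0 s1 s2 s3 s4 hc h.cos_ne h'.cos_ne
  apply xs_eq_of_exp
  · rw [Complex.exp_zero]
    have e1 := xs_one_add_sq h.cos_ne
    have e2 := xs_one_add_sq h'.cos_ne
    have n1 := left_ne_zero_of_mul (by rw [e1]; exact one_ne_zero :
      (1 + GT.tz ζ ^ 2) * Complex.cos (Real.pi * ζ) ^ 2 ≠ 0)
    have n2 := left_ne_zero_of_mul (by rw [e2]; exact one_ne_zero :
      (1 + GT.tz ζ' ^ 2) * Complex.cos (Real.pi * ζ') ^ 2 ≠ 0)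
    have nq := left_ne_zero_of_mul (by rw [hq]; exact one_ne_zero :
      GT.tz w ^ 2 * (1 + GT.tz ζ ^ 2 + GT.tz ζ' ^ 2) ≠ 0)
    have nq4 : GT.tz w ^ 4 ≠ 0 := by
      have : GT.tz w ^ 4 = (GT.tz w ^ 2) ^ 2 := by ring
      rw [this]
      exact pow_ne_zero 2 nq
    apply mul_right_cancel₀ (mul_ne_zero (mul_ne_zero nq4 n1) n2)
    rw [key]
    linear_combination -(1 + GT.tz w ^ 2) * hq
  · have e : (tw w ζ ζ').im - (0 : ℂ).im = (ph (w + 1 / 2 + ζ) + ph (w + 1 / 2 - ζ)).im +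
        (ph (w + 1 / 2 + ζ') + ph (w + 1 / 2 - ζ')).im - 2 * (2 * ph w).im := by
      unfold tw
      rw [show (2 : ℂ) * ph w = ((2 : ℝ) : ℂ) * ph w by norm_num,
        show (4 : ℂ) * ph w = ((4 : ℝ) : ℂ) * ph w by norm_num, Complex.sub_im,
        Complex.im_ofReal_mul, Complex.im_ofReal_mul, Complex.zero_im]
      simp only [Complex.add_im]
      ring
    rw [e]
    rw [abs_lt] at p1 p2 p3 ⊢
    constructor <;> linarith [p1.1, p1.2, p2.1, p2.2, p3.1, p3.2]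

/-! ### from the reduced equations to the critical point -/

/-- the linear estimate for the tangent -/
theorem xs_tan_le {z : ℂ} (h1 : z.re ^ 2 + z.im ^ 2 ≤ 0.19345) :
    Complex.cos z ≠ 0 ∧ ‖Complex.tan z‖ ≤ 1.2402 * ‖z‖ := by
  have key : ∀ x : ℂ, x.re ^ 2 + x.im ^ 2 ≤ 0.19345 → Complex.cos x ≠ 0 ∧
      ‖1 / Complex.cos x ^ 2‖ ≤ 1.2402 := by
    intro x hx
    have hc := GT.cos_sq_ge (x := x.re)
    have hcpos : 0.80655 ≤ Complex.normSq (Complex.cos x) := by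
      rw [GT.normSq_cos]
      have h3 := sq_nonneg x.im
      have h4 := sq_nonneg (Real.sinh x.im)
      norm_num at hx ⊢
      linarith
    have hne : Complex.cos x ≠ 0 := by
      intro h
      rw [h, Complex.normSq_zero] at hcpos
      norm_num at hcpos
    refine ⟨hne, ?_⟩
    rw [norm_div, norm_one, norm_pow, Complex.sq_norm, div_le_iff₀ (by linarith)]
    norm_num at hcpos ⊢
    linarith
  refine ⟨(key z h1).1, ?_⟩
  have hz : ‖z‖ ^ 2 ≤ 0.19345 := by
    rw [Complex.sq_norm, Complex.normSq_apply]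
    linarith
  have := Convex.norm_image_sub_le_of_norm_hasDerivWithin_le
    (f := Complex.tan) (f' := fun w => 1 / Complex.cos w ^ 2)
    (s := Metric.closedBall (0 : ℂ) ‖z‖) (C := 1.2402)
    (x := 0) (y := z) ?_ ?_ (convex_closedBall 0 _) ?_ ?_
  · rw [Complex.tan_zero, sub_zero, sub_zero] at this
    exact this
  · intro x hx
    rw [mem_closedBall_zero_iff] at hx
    refine (Complex.hasDerivAt_tan (key x ?_).1).hasDerivWithinAt
    have h3 := pow_le_pow_left₀ (norm_nonneg _) hx 2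
    rw [Complex.sq_norm, Complex.normSq_apply] at h3
    linarith
  · intro x hx
    rw [mem_closedBall_zero_iff] at hx
    refine (key x ?_).2
    have h3 := pow_le_pow_left₀ (norm_nonneg _) hx 2
    rw [Complex.sq_norm, Complex.normSq_apply] at h3
    linarith
  · rw [mem_closedBall_zero_iff, norm_zero]; exact norm_nonneg _
  · rw [mem_closedBall_zero_iff]

theorem xs_tan_re {z : ℂ} (hx0 : 0 < z.re) (hx1 : z.re < Real.pi / 2) :
    Complex.cos z ≠ 0 ∧ 0 < (Complex.tan z).re := by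
  have h6 : 0 < Real.cos z.re := Real.cos_pos_of_mem_Ioo ⟨by linarith [Real.pi_pos], hx1⟩
  have d1 : Complex.cos z ≠ 0 := by
    rw [← Complex.normSq_pos, GT.normSq_cos]
    positivity
  refine ⟨d1, ?_⟩
  rw [Complex.tan_eq_sin_div_cos, Complex.div_re, ← add_div]
  apply div_pos _ (Complex.normSq_pos.2 d1)
  have h1 : Complex.cos z = (Real.cos z.re * Real.cosh z.im : ℝ) +
      (-(Real.sin z.re * Real.sinh z.im) : ℝ) * Complex.I := by
    conv_lhs => rw [← Complex.re_add_im z]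
    rw [Complex.cos_add_mul_I]
    push_cast
    ring
  have h2 : Complex.sin z = (Real.sin z.re * Real.cosh z.im : ℝ) +
      (Real.cos z.re * Real.sinh z.im : ℝ) * Complex.I := by
    conv_lhs => rw [← Complex.re_add_im z]
    rw [Complex.sin_add_mul_I]
    push_cast
    ring
  rw [h1, h2]
  simp only [Complex.add_re, Complex.ofReal_re, Complex.mul_re, Complex.I_re, mul_zero,
    Complex.ofReal_im, Complex.I_im, mul_one, sub_self, add_zero, Complex.add_im, Complex.mul_im,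
    zero_add]
  have h3 := Real.cosh_sq z.im
  have h4 : Real.sin z.re * Real.cosh z.im * (Real.cos z.re * Real.cosh z.im) +
      Real.cos z.re * Real.sinh z.im * -(Real.sin z.re * Real.sinh z.im) =
      Real.sin z.re * Real.cos z.re * (Real.cosh z.im ^ 2 - Real.sinh z.im ^ 2) := by ring
  rw [h4, h3]
  have h5 : 0 < Real.sin z.re := Real.sin_pos_of_pos_of_lt_pi hx0 (by linarith [Real.pi_pos])
  have : Real.sin z.re * Real.cos z.re * (Real.sinh z.im ^ 2 + 1 - Real.sinh z.im ^ 2) =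
    Real.sin z.re * Real.cos z.re := by ring
  rw [this]
  positivity

lemma xs_tan_inj {y y' : ℂ} (h1 : 0 < y.re) (h2 : y.re < 1 / 2) (h1' : 0 < y'.re)
    (h2' : y'.re < 1 / 2) (h : GT.tz y = GT.tz y') : y = y' := by
  have hpi := Real.pi_pos
  have key : ∀ w : ℂ, 0 < w.re → w.re < 1 / 2 → Complex.cos (Real.pi * w) ≠ 0 := by
    intro w a1 a2
    apply (xs_tan_re _ _).1
    · rw [Complex.re_ofReal_mul]; positivity
    · rw [Complex.re_ofReal_mul]; nlinarith
  have c1 := key y h1 h2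
  have c2 := key y' h1' h2'
  unfold GT.tz at h
  rw [Complex.tan_eq_sin_div_cos, Complex.tan_eq_sin_div_cos, div_eq_div_iff c1 c2] at h
  have hs : Complex.sin (Real.pi * y - Real.pi * y') = 0 := by
    rw [Complex.sin_sub]
    linear_combination h
  rw [Complex.sin_eq_zero_iff] at hs
  obtain ⟨k, hk⟩ := hs
  have hpi' : (Real.pi : ℂ) ≠ 0 := by exact_mod_cast hpi.ne'
  have e : y - y' = k := by
    apply mul_left_cancel₀ hpi'
    linear_combination hk
  have e2 := congrArg Complex.re e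
  rw [Complex.sub_re, Complex.intCast_re] at e2
  have e3 : |(k : ℝ)| < 1 := by
    rw [← e2, abs_lt]
    constructor <;> linarith
  have e4 : k = 0 := by
    have h5 : |k| < 1 := by exact_mod_cast e3
    exact Int.abs_lt_one_iff.1 h5
  rw [e4, Int.cast_zero] at e
  exact sub_eq_zero.1 e

/-- the domain in terms of `a ζ - 1` -/
theorem xs_dom {a : ℕ} (ha : 10 ≤ a) {ζ : ℂ} (h : ‖(a : ℂ) * ζ - 1‖ ≤ 2 / 5) :
    ZDom ζ ∧ 0 < (GT.tz ζ).re ∧ ‖GT.tz ζ‖ ≤ 1.2402 * (Real.pi * ‖ζ‖) ∧ ‖ζ‖ ≤ 7 / 5 / a := by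
  have ha0 : (0 : ℝ) < a := by
    have : 0 < a := by omega
    exact_mod_cast this
  have hane : (a : ℂ) ≠ 0 := by exact_mod_cast ha0.ne'
  have e : ζ = (1 + ((a : ℂ) * ζ - 1)) / a := by
    field_simp
    ring
  obtain ⟨d1, d2, d3⟩ := GT.tz_dom ha h
  rw [← e] at d1 d2 d3
  obtain ⟨p1, p2⟩ := GT.pi_div_le ha
  obtain ⟨b1, b2, b3, b4⟩ := GT.dom_facts p2 p1 h
  have e' : ((Real.pi / a : ℝ) : ℂ) * (1 + ((a : ℂ) * ζ - 1)) = Real.pi * ζ := by
    push_cast
    field_simp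
    ring
  rw [e'] at b1 b2 b3 b4
  have hn : ‖ζ‖ ≤ 7 / 5 / a := by
    rw [e, norm_div, Complex.norm_natCast]
    apply div_le_div_of_nonneg_right _ ha0.le
    have := norm_add_le (1 : ℂ) ((a : ℂ) * ζ - 1)
    rw [norm_one] at this
    linarith
  have hre : (((Real.pi : ℂ) * ζ)).re = Real.pi * ζ.re := by
    rw [Complex.re_ofReal_mul]
  have himp : (((Real.pi : ℂ) * ζ)).im = Real.pi * ζ.im := by
    rw [Complex.im_ofReal_mul]
  refine ⟨⟨d1, d2, d3, ?_⟩, ?_, ?_, hn⟩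
  · refine (Complex.abs_re_le_norm ζ).trans (hn.trans ?_)
    rw [div_le_iff₀ ha0]
    have : (10 : ℝ) ≤ a := by exact_mod_cast ha
    linarith
  · unfold GT.tz
    have hx0 : 0 < (((Real.pi : ℂ) * ζ)).re := by linarith
    have hx1 : (((Real.pi : ℂ) * ζ)).re < Real.pi / 2 := by
      have := Real.pi_gt_three
      nlinarith [sq_nonneg (((Real.pi : ℂ) * ζ)).im]
    exact (xs_tan_re hx0 hx1).2
  · have h1 := (xs_tan_le (z := (Real.pi : ℂ) * ζ) b4).2
    rw [norm_mul, Complex.norm_real, Real.norm_of_nonneg Real.pi_pos.le] at h1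
    exact h1

lemma xs_tz_neg (x : ℂ) : GT.tz (-x) = -GT.tz x := by
  unfold GT.tz
  rw [mul_neg, Complex.tan_neg]

lemma xs_ath_neg (x : ℂ) : GT.ath (-x) = -GT.ath x := by
  unfold GT.ath
  rw [sub_neg_eq_add, ← sub_eq_add_neg]
  ring

lemma ZDom.neg {x : ℂ} (h : ZDom x) : ZDom (-x) := by
  refine ⟨?_, ?_, ?_, ?_⟩
  · rw [mul_neg, Complex.cos_neg]; exact h.cos_ne
  · rw [xs_tz_neg, norm_neg]; exact h.tz_le
  · rw [xs_tz_neg, neg_sq]; exact h.tz_re
  · rw [Complex.neg_re, abs_neg]; exact h.re_le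

section
variable {M : ℕ}

lemma xs_qh_le {ζ : Fin (M + 1) → ℂ} (hD : ∀ i, ZDom (ζ i)) (j : Fin M) : ‖GT.qh ζ j‖ ≤ 1 :=
  GT.isq_norm_le (xs_K (hD _) (hD _)).1

theorem xs_Sm_le {ζ : Fin (M + 1) → ℂ} (hD : ∀ i, ZDom (ζ i)) (i : Fin (M + 1)) :
    ‖GT.Sm ζ i‖ ≤ 12 / 5 * ‖GT.tz (ζ i)‖ := by
  have hu : ∀ h : Fin M, ‖GT.ath (GT.tz (ζ i) * GT.qh ζ h)‖ ≤ 6 / 5 * ‖GT.tz (ζ i)‖ := by
    intro h
    have h1 := (hD i).tz_le
    have h2 := xs_qh_le hD h
    have h3 : ‖GT.tz (ζ i) * GT.qh ζ h‖ ≤ ‖GT.tz (ζ i)‖ := by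
      rw [norm_mul]
      exact mul_le_of_le_one_right (norm_nonneg _) h2
    exact (GT.ath_norm_le (h3.trans h1)).trans (by linarith)
  have := GT.two_sum i (fun h => GT.ath (GT.tz (ζ i) * GT.qh ζ h))
    (by positivity : 0 ≤ 6 / 5 * ‖GT.tz (ζ i)‖) hu
  unfold GT.Sm
  linarith

theorem xs_dz {y : Fin M → ℂ} {ζ : Fin (M + 1) → ℂ} (hD : ∀ i, ZDom (ζ i))
    (hy : ∀ j, |(y j).re - 1 / 4| ≤ 1 / 10) (hc : ∀ j, Complex.cos (Real.pi * y j) ≠ 0)
    (hq : ∀ j, GT.tz (y j) = GT.qh ζ j) (i : Fin (M + 1)) : dz y ζ i = -(2 * GT.Sm ζ i) := by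
  unfold dz GT.Sm
  rw [Finset.mul_sum, ← Finset.sum_neg_distrib]
  apply Finset.sum_congr rfl
  intro j _
  obtain ⟨-, s1, s2⟩ := xs_strip (hy j) (hD i).re_le
  have h3 : ‖GT.tz (ζ i) * GT.tz (y j)‖ < 1 := by
    rw [hq j, norm_mul]
    have h1 := (hD i).tz_le
    have h2 := xs_qh_le hD j
    have := mul_le_mul h1 h2 (norm_nonneg _) (by norm_num)
    linarith
  have h4 := xs_tz s1 s2 (hc j) (hD i).cos_ne h3
  rw [hq j] at h4
  rw [h4]
  split_ifs <;> ring

lemma xs_qh_neg {s : Fin (M + 1) → ℤ} (hs : ∀ i, s i = 1 ∨ s i = -1) (ζ : Fin (M + 1) → ℂ)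
    (j : Fin M) : GT.qh (fun i => -(s i : ℂ) * ζ i) j = GT.qh ζ j := by
  have e : ∀ i, GT.tz (-(s i : ℂ) * ζ i) ^ 2 = GT.tz (ζ i) ^ 2 := by
    intro i
    rcases hs i with h | h
    · rw [h, Int.cast_one, neg_one_mul, xs_tz_neg, neg_sq]
    · rw [h, Int.cast_neg, Int.cast_one, neg_neg, one_mul]
  unfold GT.qh
  simp only [e]

lemma xs_Sm_neg {s : Fin (M + 1) → ℤ} (hs : ∀ i, s i = 1 ∨ s i = -1) (ζ : Fin (M + 1) → ℂ)
    (i : Fin (M + 1)) : GT.Sm (fun i => -(s i : ℂ) * ζ i) i = -(s i : ℂ) * GT.Sm ζ i := by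
  unfold GT.Sm
  simp only [xs_qh_neg hs]
  rw [Finset.mul_sum]
  apply Finset.sum_congr rfl
  intro j _
  have e : GT.ath (GT.tz (-(s i : ℂ) * ζ i) * GT.qh ζ j) =
      -(s i : ℂ) * GT.ath (GT.tz (ζ i) * GT.qh ζ j) := by
    rcases hs i with h | h
    · rw [h, Int.cast_one, neg_one_mul, xs_tz_neg, neg_mul, xs_ath_neg, neg_one_mul]
    · rw [h, Int.cast_neg, Int.cast_one, neg_neg, one_mul, one_mul]
  rw [e]
  split_ifs <;> ring

variable {b : Fin (M + 1) → ℤ}

lemma xs_b (hb : ∀ i, 10 ≤ |b i|) : (∀ i, (b i).sign = 1 ∨ (b i).sign = -1) ∧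
    (∀ i, 10 ≤ (b i).natAbs) ∧ (∀ i, (b i : ℂ) = ((b i).sign : ℂ) * ((b i).natAbs : ℂ)) := by
  refine ⟨?_, ?_, ?_⟩
  · intro i
    have h := hb i
    rcases lt_trichotomy (b i) 0 with h1 | h1 | h1
    · right; exact Int.sign_eq_neg_one_of_neg h1
    · rw [h1] at h; norm_num at h
    · left; exact Int.sign_eq_one_of_pos h1
  · intro i
    have h := hb i
    rw [Int.abs_eq_natAbs] at h
    exact_mod_cast h
  · intro i
    have h : (b i : ℂ) = (((b i).sign * ((b i).natAbs : ℤ) : ℤ) : ℂ) := by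
      rw [Int.sign_mul_natAbs]
    rw [h, Int.cast_mul, Int.cast_natCast]

/-- existence of the critical point, for all words with `|b_i| ≥ 10` -/
theorem exists_crit10 (hM : 1 ≤ M) (hb : ∀ i, 10 ≤ |b i|) :
    ∃ (y : Fin M → ℂ) (ζ : Fin (M + 1) → ℂ), Crit b y ζ ∧
      (∀ j, ‖y j - 1 / 4‖ ≤ 1 / 20 ∧
        ‖y j - 1 / 4‖ ≤ 8 / 5 * (‖ζ j.castSucc‖ ^ 2 + ‖ζ j.succ‖ ^ 2)) ∧
      (∀ i, ‖(b i : ℂ) * ζ i + 1‖ ≤ 2 / 5 ∧ ‖(b i : ℂ) * ζ i + 1‖ ≤ 3 * ‖ζ i‖ ∧
        ‖ζ i‖ ≤ 7 / 5 / |(b i : ℝ)|) ∧ (∀ i, 0 < (ζ i).im) := by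
  obtain ⟨hs, ha, hba⟩ := xs_b hb
  have hε : ∀ i, |(((b i).sign : ℤ) : ℝ)| ≤ 1 := by
    intro i
    rcases hs i with h | h <;> rw [h] <;> norm_num
  obtain ⟨ξ, h1, h2⟩ := GT.exists_sad ha hε
  have hdom := fun i => xs_dom (ha i) (h1 i)
  set ζ : Fin (M + 1) → ℂ := fun i => -((b i).sign : ℂ) * ξ i with hζ
  have hζD : ∀ i, ZDom (ζ i) := by
    intro i
    rw [hζ]
    rcases hs i with h | h
    · simp only [h, Int.cast_one, neg_one_mul]
      exact (hdom i).1.neg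
    · simp only [h, Int.cast_neg, Int.cast_one, neg_neg, one_mul]
      exact (hdom i).1
  have hζn : ∀ i, ‖ζ i‖ = ‖ξ i‖ := by
    intro i
    rw [hζ]
    rcases hs i with h | h
    · simp only [h, Int.cast_one, neg_one_mul, norm_neg]
    · simp only [h, Int.cast_neg, Int.cast_one, neg_neg, one_mul]
  have hss : ∀ i, ((b i).sign : ℂ) * ((b i).sign : ℂ) = 1 := by
    intro i
    rcases hs i with h | h <;> rw [h] <;> norm_num
  have hb1 : ∀ i, (b i : ℂ) * ζ i + 1 = -(((b i).natAbs : ℂ) * ξ i - 1) := by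
    intro i
    rw [hζ, hba i]
    simp only
    linear_combination -(((b i).natAbs : ℂ) * ξ i) * hss i
  have hSm : ∀ i, ((b i).natAbs : ℂ) * ξ i - 1 =
      -(Complex.I * ((b i).sign : ℂ) / Real.pi) * GT.Sm ξ i := by
    intro i
    have := h2 i
    push_cast at this ⊢
    exact this
  have hK := fun j : Fin M => xs_K (hζD j.castSucc) (hζD j.succ)
  set y : Fin M → ℂ := fun j => yq (GT.qh ζ j) with hydef
  have hy := fun j : Fin M => xs_yq (hK j).1 (hK j).2.2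
  have hyc : ∀ j, Complex.cos (Real.pi * y j) ≠ 0 := fun j => (hy j).1
  have hyt : ∀ j, GT.tz (y j) = GT.qh ζ j := fun j => (hy j).2.1
  have hyn : ∀ j, ‖y j - 1 / 4‖ ≤ 1 / 10 * ‖1 + GT.tz (ζ j.castSucc) ^ 2 +
      GT.tz (ζ j.succ) ^ 2 - 1‖ := fun j => (hy j).2.2
  have hyre : ∀ j, |(y j).re - 1 / 4| ≤ 1 / 10 := by
    intro j
    have e : (y j).re - 1 / 4 = (y j - 1 / 4).re := by
      rw [Complex.sub_re]; norm_num
    rw [e]
    refine (Complex.abs_re_le_norm _).trans ((hyn j).trans ?_)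
    have := (hK j).2.2
    linarith
  have hnorm : ∀ i, ‖((b i).natAbs : ℂ) * ξ i - 1‖ ≤ 3 * ‖ξ i‖ := by
    intro i
    rw [hSm i, norm_mul, norm_neg, norm_div, norm_mul, Complex.norm_I, one_mul,
      Complex.norm_real, Real.norm_of_nonneg Real.pi_pos.le]
    have e1 : ‖((b i).sign : ℂ)‖ = 1 := by
      rcases hs i with h | h <;> rw [h] <;> norm_num
    have e2 := xs_Sm_le (fun i => (hdom i).1) i
    have e3 := (hdom i).2.2.1
    rw [e1, div_mul_eq_mul_div, one_mul, div_le_iff₀ Real.pi_pos]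
    have := mul_nonneg Real.pi_pos.le (norm_nonneg (ξ i))
    norm_num at e3 ⊢
    linarith
  refine ⟨y, ζ, ⟨?_, ?_⟩, ?_, ?_, ?_⟩
  · intro j
    apply xs_tw_zero (hyre j) (hζD _) (hζD _) (hyc j)
    rw [hyt j]
    exact (xs_isq (hK j).1).2.2.1
  · intro i
    rw [xs_dz hζD hyre hyc hyt i, hζ, xs_Sm_neg hs ξ i, ← hζ, hb1 i, hSm i]
    have hpi : (Real.pi : ℂ) ≠ 0 := by exact_mod_cast Real.pi_ne_zero
    have hII : Complex.I ^ 2 = -1 := Complex.I_sq
    field_simp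
    linear_combination 2 * ((b i).sign : ℂ) * GT.Sm ξ i * hII
  · intro j
    have h3 := (hK j).2.2
    refine ⟨(hyn j).trans (by linarith), (hyn j).trans ?_⟩
    have aux : ∀ i, ‖GT.tz (ζ i)‖ ^ 2 ≤ 16 * ‖ζ i‖ ^ 2 := by
      intro i
      have e1 : ‖GT.tz (ζ i)‖ = ‖GT.tz (ξ i)‖ := by
        rw [hζ]
        rcases hs i with h | h
        · simp only [h, Int.cast_one, neg_one_mul, xs_tz_neg, norm_neg]
        · simp only [h, Int.cast_neg, Int.cast_one, neg_neg, one_mul]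
      rw [e1, hζn]
      have e2 := (hdom i).2.2.1
      have e3 : 1.2402 * (Real.pi * ‖ξ i‖) ≤ 4 * ‖ξ i‖ := by
        have hp : Real.pi * ‖ξ i‖ ≤ 3.1416 * ‖ξ i‖ :=
          mul_le_mul_of_nonneg_right Real.pi_lt_d4.le (norm_nonneg (ξ i))
        have hn := norm_nonneg (ξ i)
        norm_num at hp ⊢
        linarith
      have e4 := pow_le_pow_left₀ (norm_nonneg _) (e2.trans e3) 2
      have e5 : (4 * ‖ξ i‖) ^ 2 = 16 * ‖ξ i‖ ^ 2 := by ring
      linarith
    have a1 := aux j.castSucc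
    have a2 := aux j.succ
    have := (hK j).2.1
    linarith
  · intro i
    rw [hb1 i, norm_neg, hζn]
    have e := (hdom i).2.2.2
    have e2 : |(b i : ℝ)| = ((b i).natAbs : ℝ) := by
      rw [← Int.cast_abs, Int.abs_eq_natAbs]
      norm_num
    rw [e2]
    exact ⟨h1 i, hnorm i, e⟩
  · intro i
    have hpi := Real.pi_pos
    have ha0 : (0 : ℝ) < (b i).natAbs := by
      have := ha i
      have : 0 < (b i).natAbs := by omega
      exact_mod_cast this
    have hpos : 0 < (GT.Sm ξ i).re := by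
      have hterm : ∀ h : Fin M, 0 < (GT.ath (GT.tz (ξ i) * GT.qh ξ h)).re := by
        intro h
        have k1 := (xs_K (hdom h.castSucc).1 (hdom h.succ).1).1
        obtain ⟨q1, q2, -, -⟩ := xs_isq k1
        have t1 := (hdom i).2.1
        have t2 := (hdom i).1.tz_re
        have t3 : |(GT.tz (ξ i)).im| ≤ (GT.tz (ξ i)).re := by
          have e : (GT.tz (ξ i) ^ 2).re = (GT.tz (ξ i)).re ^ 2 - (GT.tz (ξ i)).im ^ 2 := by
            rw [sq, Complex.mul_re]; ring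
          rw [e] at t2
          rw [← sq_le_sq₀ (abs_nonneg _) t1.le, sq_abs]
          linarith
        apply xs_re_ath
        · rw [norm_mul]
          have h1 := (hdom i).1.tz_le
          have h2 := xs_qh_le (fun i => (hdom i).1) h
          have := mul_le_mul h1 h2 (norm_nonneg _) (by norm_num)
          linarith
        · rw [Complex.mul_re]
          unfold GT.qh
          have h5 : |(GT.tz (ξ i)).im| * |(GT.isq (1 + GT.tz (ξ h.castSucc) ^ 2 +
              GT.tz (ξ h.succ) ^ 2)).im| < (GT.tz (ξ i)).re * (GT.isq (1 +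
              GT.tz (ξ h.castSucc) ^ 2 + GT.tz (ξ h.succ) ^ 2)).re :=
            mul_lt_mul' t3 q2 (abs_nonneg _) t1
          rw [← abs_mul] at h5
          have := le_abs_self ((GT.tz (ξ i)).im * (GT.isq (1 + GT.tz (ξ h.castSucc) ^ 2 +
            GT.tz (ξ h.succ) ^ 2)).im)
          linarith
      unfold GT.Sm
      rw [Complex.re_sum]
      have hnn : ∀ h : Fin M, 0 ≤ ((if h.castSucc = i then GT.ath (GT.tz (ξ i) * GT.qh ξ h)
          else 0) + (if h.succ = i then GT.ath (GT.tz (ξ i) * GT.qh ξ h) else 0) : ℂ).re := by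
        intro h
        have := (hterm h).le
        rw [Complex.add_re]
        apply add_nonneg
        · split_ifs
          · exact this
          · simp
        · split_ifs
          · exact this
          · simp
      have hex : ∃ h : Fin M, h.castSucc = i ∨ h.succ = i := by
        by_cases hi : (i : ℕ) < M
        · exact ⟨⟨i, hi⟩, Or.inl (by ext; simp)⟩
        · have hi2 : (i : ℕ) = M := by have := i.2; omega
          exact ⟨⟨M - 1, by omega⟩, Or.inr (by ext; simp; omega)⟩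
      obtain ⟨h0, hh0⟩ := hex
      apply Finset.sum_pos' (fun h _ => hnn h)
      refine ⟨h0, Finset.mem_univ _, ?_⟩
      have := hterm h0
      rw [Complex.add_re]
      rcases hh0 with hh | hh
      · rw [if_pos hh]
        apply add_pos_of_pos_of_nonneg this
        split_ifs
        · exact this.le
        · simp
      · rw [if_pos hh]
        apply add_pos_of_nonneg_of_pos _ this
        split_ifs
        · exact this.le
        · simp
    have e1 : ((b i).natAbs : ℝ) * (ζ i).im = 1 / Real.pi * (GT.Sm ξ i).re := by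
      have h3 : (((b i).natAbs : ℝ) : ℂ) * ζ i = -((b i).sign : ℂ) +
          ((1 / Real.pi : ℝ) : ℂ) * (Complex.I * GT.Sm ξ i) := by
        have hpi : (Real.pi : ℂ) ≠ 0 := by exact_mod_cast Real.pi_ne_zero
        rw [hζ]
        have h4 := hSm i
        have h5 : ((b i).natAbs : ℂ) * ξ i = 1 - Complex.I * ((b i).sign : ℂ) / Real.pi *
          GT.Sm ξ i := by linear_combination h4
        simp only
        push_cast
        linear_combination -((b i).sign : ℂ) * h5 +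
          (Complex.I / Real.pi * GT.Sm ξ i) * hss i
      have h4 := congrArg Complex.im h3
      have h6 : (Complex.I * GT.Sm ξ i).im = (GT.Sm ξ i).re := by
        rw [Complex.mul_im, Complex.I_re, Complex.I_im]; ring
      have h7 : (-((b i).sign : ℂ)).im = 0 := by
        rw [Complex.neg_im, Complex.intCast_im, neg_zero]
      rw [Complex.im_ofReal_mul, Complex.add_im, Complex.im_ofReal_mul, h6, h7, zero_add] at h4
      exact h4
    have e2 : 0 < ((b i).natAbs : ℝ) * (ζ i).im := by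
      rw [e1]; positivity
    exact (mul_pos_iff_of_pos_left ha0).1 e2

/-- the hinge equation -/
theorem xs_tw_inv {w ζ ζ' : ℂ} (hw : |w.re - 1 / 4| ≤ 1 / 10) (h : ZDom ζ) (h' : ZDom ζ')
    (ht : tw w ζ ζ' = 0) : Complex.cos (Real.pi * w) ≠ 0 ∧
      GT.tz w = GT.isq (1 + GT.tz ζ ^ 2 + GT.tz ζ' ^ 2) := by
  obtain ⟨s0, s1, s2⟩ := xs_strip hw h.re_le
  obtain ⟨-, s3, s4⟩ := xs_strip hw h'.re_le
  have hpi := Real.pi_pos
  obtain ⟨hc, hre⟩ := xs_tan_re (z := (Real.pi : ℂ) * w) (by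
      rw [Complex.re_ofReal_mul]; exact mul_pos hpi s0.1) (by
      rw [Complex.re_ofReal_mul]; rw [abs_le] at hw; nlinarith [hw.2])
  refine ⟨hc, ?_⟩
  have key := xs_exp_tw s0 s1 s2 s3 s4 hc h.cos_ne h'.cos_ne
  rw [ht, Complex.exp_zero, one_mul] at key
  have hre' : 0 < (GT.tz w).re := hre
  obtain ⟨q1, -, q3, -⟩ := xs_isq (xs_K h h').1
  have n2 := left_ne_zero_of_mul (by rw [xs_one_add_sq hc]; exact one_ne_zero :
      (1 + GT.tz w ^ 2) * Complex.cos (Real.pi * w) ^ 2 ≠ 0)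
  have e1 : (1 + GT.tz w ^ 2) * (1 - GT.tz w ^ 2 * (1 + GT.tz ζ ^ 2 + GT.tz ζ' ^ 2)) = 0 := by
    linear_combination -key
  have e2 := (mul_eq_zero.1 e1).resolve_left n2
  have hK0 : (1 + GT.tz ζ ^ 2 + GT.tz ζ' ^ 2) ≠ 0 := by
    intro h0
    rw [h0, mul_zero] at q3
    exact zero_ne_one q3
  have e3 : GT.tz w ^ 2 = GT.isq (1 + GT.tz ζ ^ 2 + GT.tz ζ' ^ 2) ^ 2 := by
    apply mul_right_cancel₀ hK0
    linear_combination -e2 - q3
  rcases sq_eq_sq_iff_eq_or_eq_neg.1 e3 with h4 | h4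
  · exact h4
  · exfalso
    rw [h4, Complex.neg_re] at hre'
    linarith

/-- the reduced equations at a critical point -/
theorem xs_sad_of_crit (hb : ∀ i, 10 ≤ |b i|) {y : Fin M → ℂ} {ζ : Fin (M + 1) → ℂ}
    (h : Crit b y ζ) (hy : ∀ j, |(y j).re - 1 / 4| ≤ 1 / 10)
    (hz : ∀ i, ‖(b i : ℂ) * ζ i + 1‖ ≤ 2 / 5) :
    (∀ i, ‖((b i).natAbs : ℂ) * (-((b i).sign : ℂ) * ζ i) - 1‖ ≤ 2 / 5) ∧
    GT.SadEq (fun i => (b i).natAbs) (fun i => (((b i).sign : ℤ) : ℝ))
      (fun i => -((b i).sign : ℂ) * ζ i) ∧ (∀ i, ZDom (ζ i)) ∧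
    (∀ j, Complex.cos (Real.pi * y j) ≠ 0) ∧ (∀ j, GT.tz (y j) = GT.qh ζ j) := by
  obtain ⟨hs, ha, hba⟩ := xs_b hb
  have hss : ∀ i, ((b i).sign : ℂ) * ((b i).sign : ℂ) = 1 := by
    intro i
    rcases hs i with h | h <;> rw [h] <;> norm_num
  have h1 : ∀ i, ((b i).natAbs : ℂ) * (-((b i).sign : ℂ) * ζ i) - 1 = -((b i : ℂ) * ζ i + 1) := by
    intro i
    rw [hba i]
    ring
  have h2 : ∀ i, ‖((b i).natAbs : ℂ) * (-((b i).sign : ℂ) * ζ i) - 1‖ ≤ 2 / 5 := by
    intro i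
    rw [h1 i, norm_neg]
    exact hz i
  have hζD : ∀ i, ZDom (ζ i) := by
    intro i
    have hd := (xs_dom (ha i) (h2 i)).1
    rcases hs i with h | h
    · rw [h, Int.cast_one, neg_one_mul] at hd
      have := hd.neg
      rwa [neg_neg] at this
    · rw [h, Int.cast_neg, Int.cast_one, neg_neg, one_mul] at hd
      exact hd
  have hy2 := fun j => xs_tw_inv (hy j) (hζD _) (hζD _) (h.crit_y j)
  refine ⟨h2, ?_, hζD, fun j => (hy2 j).1, fun j => (hy2 j).2⟩
  intro i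
  have hdz := xs_dz hζD hy (fun j => (hy2 j).1) (fun j => (hy2 j).2) i
  have hz := h.crit_z i
  rw [hdz] at hz
  rw [xs_Sm_neg hs ζ i]
  have hpi : (Real.pi : ℂ) ≠ 0 := by exact_mod_cast Real.pi_ne_zero
  have hI : Complex.I ≠ 0 := Complex.I_ne_zero
  have hII : Complex.I * Complex.I = -1 := Complex.I_mul_I
  have e : (b i : ℂ) * ζ i + 1 = -(Complex.I / Real.pi) * GT.Sm ζ i := by
    have e1 : (Real.pi : ℂ) * ((b i : ℂ) * ζ i + 1) = -Complex.I * GT.Sm ζ i := by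
      linear_combination -(Complex.I / 2) * hz + (Real.pi : ℂ) * ((b i : ℂ) * ζ i + 1) * hII
    apply mul_left_cancel₀ hpi
    rw [e1]
    field_simp
  have e2 := h1 i
  rw [e] at e2
  simp only
  rw [e2]
  push_cast
  linear_combination (Complex.I / Real.pi * GT.Sm ζ i) * (-hss i)

/-- uniqueness of the critical point, for all words with `|b_i| ≥ 10` -/
theorem unique_crit10 (hb : ∀ i, 10 ≤ |b i|) {y y' : Fin M → ℂ} {ζ ζ' : Fin (M + 1) → ℂ}
    (h : Crit b y ζ) (h' : Crit b y' ζ') (hy : ∀ j, |(y j).re - 1 / 4| ≤ 1 / 10)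
    (hy' : ∀ j, |(y' j).re - 1 / 4| ≤ 1 / 10) (hz : ∀ i, ‖(b i : ℂ) * ζ i + 1‖ ≤ 2 / 5)
    (hz' : ∀ i, ‖(b i : ℂ) * ζ' i + 1‖ ≤ 2 / 5) : y = y' ∧ ζ = ζ' := by
  obtain ⟨hs, ha, hba⟩ := xs_b hb
  have hε : ∀ i, |(((b i).sign : ℤ) : ℝ)| ≤ 1 := by
    intro i
    rcases hs i with h | h <;> rw [h] <;> norm_num
  obtain ⟨a1, a2, a3, a4, a5⟩ := xs_sad_of_crit hb h hy hz
  obtain ⟨b1, b2, b3, b4, b5⟩ := xs_sad_of_crit hb h' hy' hz'
  have e := GT.sad_unique ha hε a1 a2 b1 b2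
  have e1 : ζ = ζ' := by
    funext i
    have e2 : -((b i).sign : ℂ) * ζ i = -((b i).sign : ℂ) * ζ' i := congrFun e i
    have hne : -((b i).sign : ℂ) ≠ 0 := by
      rcases hs i with h | h <;> rw [h] <;> norm_num
    exact mul_left_cancel₀ hne e2
  refine ⟨?_, e1⟩
  funext j
  have g1 := abs_le.1 (hy j)
  have g2 := abs_le.1 (hy' j)
  apply xs_tan_inj (by linarith [g1.1]) (by linarith [g1.2]) (by linarith [g2.1])
    (by linarith [g2.2])
  rw [a5 j, b5 j, e1]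

end

end Pool.Agent.Work.MP_b30479_gt.LT
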