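import Pool.Agent.Work.MP_b30479_gt.LT.XMain
import Pool.Agent.Work.MP_b30479_gt.LT.XSad
import Pool.Agent.Work.MP_b30479_gt.LT.BWgen
import Pool.Agent.Work.MP_b30479_gt.LT.BWpos
import Pool.Agent.Work.MP_b30479_gt.LT.Rigid

/-!
# The public statement
-/

namespace Pool.Agent.Work.MP_b30479_gt.LT

open Finset VOL Filter Topology

theorem volL_pos {M : ℕ} {b : Fin (M + 1) → ℤ} {y : Fin M → ℂ} {ζ : Fin (M + 1) → ℂ} (hM : 1 ≤ M)
    (h : Geom b y ζ) : 0 < volL y ζ := by
  have key : ∀ {w z : ℂ}, Pos w z → 0 < rvol (ee w) (ee z) := by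
    intro w z hp
    obtain ⟨h1, h2⟩ := hp
    have h3 := abs_nonneg z.re
    have h4 := abs_lt.mp h1
    have h5 := abs_lt.mp h2
    unfold rvol
    rw [shape_one, shape_two]
    have b1 := BW_pos (w := w) (by linarith) (by linarith)
    have b2 := BW_pos (w := 1 / 2 - w + z) (by simp; linarith) (by simp; linarith)
    have b3 := BW_pos (w := 1 / 2 - w - z) (by simp; linarith) (by simp; linarith)
    linarith
  unfold volL
  apply Finset.sum_pos
  · intro j _
    exact add_pos (key (h.pos_left j)) (key (h.pos_right j))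
  · exact ⟨⟨0, hM⟩, mem_univ _⟩

theorem pub {M : ℕ} (hM : 1 ≤ M) (b : Fin (M + 1) → ℤ) (hb : ∀ i, 50 ≤ |b i|) :
    ∃ (y : Fin M → ℂ) (ζ : Fin (M + 1) → ℂ),
      (Geom b y ζ ∧ ∀ y' ζ', Geom b y' ζ' → y' = y ∧ ζ' = ζ) ∧
      0 < volL y ζ ∧
      (∃ δ, IsOrientation (ltWord (List.ofFn b)) δ) ∧
      ∀ δ, IsOrientation (ltWord (List.ofFn b)) δ →
        (∀ᶠ s : ℕ in atTop, twoBridgeKashaev (ltWord (List.ofFn b)) δ (2 * s + 1) ≠ 0) ∧
        Tendsto (fun s : ℕ => twoBridgeKashaev (ltWord (List.ofFn b)) δ (2 * s + 3) /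
          twoBridgeKashaev (ltWord (List.ofFn b)) δ (2 * s + 1)) atTop
          (𝓝 ((-Complex.I) ^ (∑ i, b i) * Complex.exp (2 * TT b y ζ))) ∧
        Tendsto (fun s : ℕ => Real.pi *
          Real.log ‖twoBridgeKashaev (ltWord (List.ofFn b)) δ (2 * s + 3) /
            twoBridgeKashaev (ltWord (List.ofFn b)) δ (2 * s + 1)‖) atTop (𝓝 (volL y ζ)) := by
  obtain ⟨y, ζ, hc, hy, hz, him⟩ := exists_crit10 (b := b) hM (fun i => by have := hb i; omega)
  have hyr : ∀ j, |(y j).re - 1 / 4| ≤ 1 / 20 := by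
    intro j
    have h1 := (Complex.abs_re_le_norm (y j - 1 / 4)).trans (hy j).1
    have e : (y j - 1 / 4).re = (y j).re - 1 / 4 := by simp
    rwa [e] at h1
  have hzr : ∀ i, |(ζ i).re| ≤ 7 / 250 := by
    intro i
    have h1 := (Complex.abs_re_le_norm (ζ i)).trans (hz i).2.2
    have h2 : (50 : ℝ) ≤ |(b i : ℝ)| := by
      have h3 : ((50 : ℤ) : ℝ) ≤ ((|b i| : ℤ) : ℝ) := by exact_mod_cast hb i
      rw [Int.cast_abs] at h3
      simpa using h3
    refine h1.trans ?_
    rw [div_le_iff₀ (by linarith)]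
    linarith
  have hp1 : ∀ j : Fin M, Pos (y j) (ζ j.castSucc) := by
    intro j
    have h1 := abs_le.mp (hyr j)
    have h2 := hzr j.castSucc
    exact ⟨by linarith, by linarith⟩
  have hp2 : ∀ j : Fin M, Pos (y j) (ζ j.succ) := by
    intro j
    have h1 := abs_le.mp (hyr j)
    have h2 := hzr j.succ
    exact ⟨by linarith, by linarith⟩
  have hg : Geom b y ζ := (geom_iff hM hp1 hp2).mpr hc
  have hd : SadDom b y ζ := by
    refine ⟨fun j => ?_, fun i => (hz i).1⟩
    have h1 := abs_le.mp (hyr j)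
    constructor <;> linarith
  have hv : 2 * Real.pi * (TT b y ζ).re = volL y ζ := by
    refine vol_TT hc ?_ ?_ ?_
    · intro j
      have h1 := abs_le.mp (hyr j)
      linarith
    · intro j
      have h1 := abs_le.mp (hyr j)
      have h2 := hzr j.castSucc
      linarith
    · intro j
      have h1 := abs_le.mp (hyr j)
      have h2 := hzr j.succ
      linarith
  refine ⟨y, ζ, ⟨hg, fun y' ζ' h' => geom_unique hM hg h'⟩, volL_pos hM hg,
    TB.exists_orientation _, fun δ hδ => ?_⟩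
  obtain ⟨hne, hlim⟩ := main_x hM hb hc hd hδ
  refine ⟨hne, hlim, ?_⟩
  have hL : (-Complex.I) ^ (∑ i, b i) * Complex.exp (2 * TT b y ζ) ≠ 0 :=
    mul_ne_zero (zpow_ne_zero _ (neg_ne_zero.mpr Complex.I_ne_zero)) (Complex.exp_ne_zero _)
  have h1 := ((hlim.norm).log (norm_ne_zero_iff.mpr hL)).const_mul Real.pi
  have e : Real.pi * Real.log ‖(-Complex.I) ^ (∑ i, b i) * Complex.exp (2 * TT b y ζ)‖ =
      volL y ζ := by
    rw [norm_mul, norm_zpow, norm_neg, Complex.norm_I, one_zpow, one_mul, Complex.norm_exp,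
      Real.log_exp, ← hv]
    have : (2 * TT b y ζ).re = 2 * (TT b y ζ).re := by simp
    rw [this]
    ring
  rw [e] at h1
  exact h1

end Pool.Agent.Work.MP_b30479_gt.LT
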