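import Pool.Agent.Work.MP_b30479_gt.LT.XDom
import Pool.Agent.Work.MP_b30479_gt.LT.Lim
import Pool.Agent.Work.MP_b30479_gt.LT.CoreG
import Pool.Agent.Work.MP_b30479_gt.LT.LimG

/-!
# Explicit version: pointwise limit of the kernel and asymptotics of the integral
-/

namespace Pool.Agent.Work.MP_b30479_gt.LT

open Finset VOL AX MeasureTheory Filter Topology

theorem add_ofReal_eq (ζ : ℂ) (u : ℝ) : ζ + (u : ℂ) = ((ζ.re + u : ℝ) : ℂ) + ζ.im * Complex.I := by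
  apply Complex.ext <;> simp

/-- concavity of the potential on the window -/
theorem conc_x {lam lam' : ℝ} {b b' : ℤ} {w ζ ζ' : ℂ} (h : Loc lam b w ζ)
    (h' : Loc lam' b' w ζ') (hw : tw w ζ ζ' = 0) {a u u' : ℝ} (h1 : 3 / 20 ≤ w.re + a)
    (h2 : w.re + a ≤ 7 / 20) (h3 : |u| ≤ 1 / 10) (h4 : |u'| ≤ 1 / 10) :
    (tp (w + a) (ζ + u) (ζ' + u')).re ≤ (tp w ζ ζ').re + (tz w ζ).re * u + (tz w ζ').re * u' -
      1 / 5 * a ^ 2 + 0 * (u ^ 2 + u' ^ 2) := by
  have g1 := abs_le.mp h.w1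
  have g2 := abs_le.mp h.w2
  have g3 := abs_le.mp h.z1
  have g4 := abs_le.mp h'.z1
  have g5 := abs_le.mp h3
  have g6 := abs_le.mp h4
  have g7 := h.z2
  have g8 := h.z3
  have g9 := h'.z2
  have g10 := h'.z3
  have k1 := rc_conc (w := w) (ζ := ζ) (a := a) (c := u) (abs_le.mpr ⟨by linarith, by linarith⟩)
    (abs_le.mpr ⟨by linarith, by linarith⟩) (abs_le.mpr ⟨by linarith, by linarith⟩)
    (abs_le.mpr ⟨by linarith, by linarith⟩) (abs_le.mpr ⟨by linarith, by linarith⟩)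
    (abs_le.mpr ⟨by linarith, by linarith⟩)
  have k2 := rc_conc (w := w) (ζ := ζ') (a := a) (c := u') (abs_le.mpr ⟨by linarith, by linarith⟩)
    (abs_le.mpr ⟨by linarith, by linarith⟩) (abs_le.mpr ⟨by linarith, by linarith⟩)
    (abs_le.mpr ⟨by linarith, by linarith⟩) (abs_le.mpr ⟨by linarith, by linarith⟩)
    (abs_le.mpr ⟨by linarith, by linarith⟩)
  rw [tp_eq_rc, tp_eq_rc, Complex.add_re, Complex.add_re]
  rw [tw_eq_rcw] at hw
  have hw2 := congrArg Complex.re hw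
  rw [Complex.add_re, Complex.zero_re] at hw2
  have e : (rcw w ζ).re * a + (rcw w ζ').re * a = 0 := by
    rw [← add_mul, hw2, zero_mul]
  nlinarith [sq_nonneg u, sq_nonneg u', sq_nonneg a]

/-- the tangent plane minus the weight -/
theorem TP_sub_wt (lam : ℝ) (b : ℤ) (w ζ : ℂ) (x σ : ℝ) : TP lam b w ζ x σ - wt lam b ζ.im σ =
    (rc w ζ).re + (rcw w ζ).re * (x - w.re) + (tz w ζ).re * (σ - ζ.re) := by
  unfold TP wt
  ring

/-- sum of two tangent planes -/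
theorem TP_pair {lam lam' : ℝ} {b b' : ℤ} {w ζ ζ' : ℂ} (hw : tw w ζ ζ' = 0) {x u u' ε : ℝ}
    (hu : (tz w ζ).re * u ≤ ε) (hu' : (tz w ζ').re * u' ≤ ε) :
    (TP lam b w ζ x (ζ.re + u) - wt lam b ζ.im (ζ.re + u)) +
      (TP lam' b' w ζ' x (ζ'.re + u') - wt lam' b' ζ'.im (ζ'.re + u')) ≤
      (tp w ζ ζ').re + 2 * ε := by
  rw [TP_sub_wt, TP_sub_wt, tp_eq_rc, Complex.add_re]
  rw [tw_eq_rcw] at hw
  have hw2 := congrArg Complex.re hw
  rw [Complex.add_re, Complex.zero_re] at hw2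
  have e : (rcw w ζ).re * (x - w.re) + (rcw w ζ').re * (x - w.re) = 0 := by
    rw [← add_mul, hw2, zero_mul]
  have e1 : (tz w ζ).re * (ζ.re + u - ζ.re) = (tz w ζ).re * u := by ring
  have e2 : (tz w ζ').re * (ζ'.re + u' - ζ'.re) = (tz w ζ').re * u' := by ring
  rw [e1, e2]
  linarith

/-- as `SS_lim`, with `SS_near_x`, `Tn_expand_x`, `rc_conc` and (I4), (I5), (I6) -/
theorem SS_lim_x {lam lam' : ℝ} {b b' : ℤ} {w ζ ζ' : ℂ} (h : Loc lam b w ζ)
    (h' : Loc lam' b' w ζ') (hw : tw w ζ ζ' = 0) : tww w ζ ζ' ≠ 0 ∧ ∃ A : ℂ, A ≠ 0 ∧ ∀ X X' : ℝ,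
    Tendsto (fun n : ℕ => (((n : ℝ) ^ (3 / 2 : ℝ) : ℝ) : ℂ) *
      Complex.exp (-(n * tp w ζ ζ' + √(n : ℝ) * (tz w ζ * X + tz w ζ' * X'))) *
      SS n (zt ζ.im (ζ.re + X / √(n : ℝ))) (zt ζ'.im (ζ'.re + X' / √(n : ℝ)))) atTop
      (𝓝 (A * Complex.exp (tzz w ζ * X ^ 2 / 2 + tzz w ζ' * X' ^ 2 / 2 -
        (twz w ζ * X + twz w ζ' * X') ^ 2 / (2 * tww w ζ ζ')))) := by
  obtain ⟨C, K, N, hC, hnear⟩ := SS_near_x
  have g1 := abs_le.mp h.w1
  have g2 := h.w2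
  have g3 := abs_le.mp h.z1
  have g4 := abs_le.mp h'.z1
  have g7 := h.z2
  have g8 := h.z3
  have g9 := h'.z2
  have g10 := h'.z3
  have hwin : Win w ζ ζ' (3 / 20) (7 / 20) :=
    ⟨by norm_num, by linarith, by linarith, by linarith [h.z1], by linarith [h'.z1]⟩
  -- the size of the neighbourhood
  set δ : ℝ := min (1 / 10) (1 / (1000 * (1 + |(tz w ζ).re| + |(tz w ζ').re|))) with hδ
  have p1 := abs_nonneg (tz w ζ).re
  have p2 := abs_nonneg (tz w ζ').re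
  have hden : 0 < 1000 * (1 + |(tz w ζ).re| + |(tz w ζ').re|) := by positivity
  have d1 : δ ≤ 1 / 10 := min_le_left _ _
  have d2 : δ ≤ 1 / (1000 * (1 + |(tz w ζ).re| + |(tz w ζ').re|)) := min_le_right _ _
  have dpos : 0 < δ := lt_min (by norm_num) (by positivity)
  have d3 : δ * (1000 * (1 + |(tz w ζ).re| + |(tz w ζ').re|)) ≤ 1 := by
    rwa [← le_div_iff₀ hden]
  have slope : ∀ t u : ℝ, |t| ≤ 1 + |(tz w ζ).re| + |(tz w ζ').re| → |u| ≤ δ → t * u ≤ 1 / 1000 := by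
    intro t u h1 h2
    calc t * u ≤ |t * u| := le_abs_self _
      _ = |t| * |u| := abs_mul _ _
      _ ≤ (1 + |(tz w ζ).re| + |(tz w ζ').re|) * δ := by gcongr
      _ ≤ 1 / 1000 := by linarith
  have main := SS_lim_of hwin hw (c := 1 / 5) (D := 0) (δ := δ) (c₁ := 1 / 100) (C₁ := C) (K := K)
    (N := N) dpos (by norm_num)
    (fun a u u' a1 a2 a3 a4 => conc_x h h' hw a1 a2 (a3.trans d1) (a4.trans d1)) (by norm_num)
    (by
      intro n hn u u' hu hu'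
      have s1 := slope (tz w ζ).re u (by linarith) hu
      have s2 := slope (tz w ζ').re u' (by linarith) hu'
      have b1 := abs_le.mp (hu.trans d1)
      have b2 := abs_le.mp (hu'.trans d1)
      have r1 : (ζ + (u : ℂ)).re = ζ.re + u := by simp
      have r2 : (ζ' + (u' : ℂ)).re = ζ'.re + u' := by simp
      have i1 : (ζ + (u : ℂ)).im = ζ.im := by simp
      have i2 : (ζ' + (u' : ℂ)).im = ζ'.im := by simp
      have q1 : |ζ.re + u| ≤ 1 / 8 := abs_le.mpr ⟨by linarith, by linarith⟩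
      have q2 : |ζ'.re + u'| ≤ 1 / 8 := abs_le.mpr ⟨by linarith, by linarith⟩
      have pair : ∀ x : ℝ, _ := fun x : ℝ =>
        TP_pair (lam := lam) (lam' := lam') (b := b) (b' := b') hw (x := x) s1 s2
      refine hnear n hn w.im g2 (ζ + u) (ζ' + u') ?_ ?_ ?_ ?_ ?_ ?_ ((tp w ζ ζ').re - 1 / 100) ?_ ?_ ?_
      · rw [r1]; exact q1
      · rw [r2]; exact q2
      · rw [i1]; exact g7.le
      · rw [i1]; linarith
      · rw [i2]; exact g9.le
      · rw [i2]; linarith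
      · intro x x1 x2 x3
        rw [r1, r2, i1, i2]
        have f1 := ring_far h x1 x2 x3 q1
        have f2 := ring_far h' x1 x2 x3 q2
        have f3 := pair x
        linarith
      · intro x t x1 x2 x3
        have f1 := ring_side h x1 x2 q1 x3
        have f2 := ring_side h' x1 x2 q2 x3
        have f3 := pair x
        rw [tp_eq_rc, Complex.add_re, add_ofReal_eq ζ u, add_ofReal_eq ζ' u']
        linarith
      · intro x t x1 x2
        have f1 := ring_top h x1 q1 x2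
        have f2 := ring_top h' x1 q2 x2
        have f3 := pair x
        rw [tp_eq_rc, Complex.add_re, add_ofReal_eq ζ u, add_ofReal_eq ζ' u']
        linarith)
  obtain ⟨hne, A, hA, hlim⟩ := main
  refine ⟨hne, A, hA, fun X X' => ?_⟩
  refine (hlim X X').congr' ?_
  filter_upwards [eventually_le X (show (0 : ℝ) < 1 / 10 by norm_num),
    eventually_le X' (show (0 : ℝ) < 1 / 10 by norm_num)] with n n1 n2
  have b1 := abs_le.mp n1
  have b2 := abs_le.mp n2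
  rw [zt_eq (abs_le.mpr ⟨by linarith, by linarith⟩), zt_eq (abs_le.mpr ⟨by linarith, by linarith⟩)]

/-- from `core_of_dom` (helper70, in Core), `dom_x`, `SS_lim_x`, `EE_lim` -/
theorem core_x {M : ℕ} (hM : 1 ≤ M) {b : Fin (M + 1) → ℤ} {y : Fin M → ℂ} {ζ : Fin (M + 1) → ℂ}
    (hc : Crit b y ζ) (hl : Locs b y ζ) : ∃ L : ℂ, L ≠ 0 ∧
    Tendsto (fun s : ℕ => ((((2 * s + 1 : ℕ) : ℝ) ^ (2 * (M : ℝ) + 1 / 2) : ℝ) : ℂ) *
      Complex.exp (-(((2 * s + 1 : ℕ) : ℂ) * TT b y ζ)) *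
      II (2 * s + 1) b (fun i => (ζ i).im)) atTop (𝓝 L) := by
  have hloc : ∀ i, 0 < (ζ i).im ∧ |(ζ i).re| < 1 / 4 := by
    intro i
    obtain ⟨m, rfl⟩ : ∃ m, M = m + 1 := ⟨M - 1, by omega⟩
    induction i using Fin.lastCases with
    | last =>
      have h := hl.right (Fin.last m)
      rw [Fin.succ_last] at h
      exact ⟨h.z2, h.z1.trans_lt (by norm_num)⟩
    | cast j =>
      have h := hl.left j
      exact ⟨h.z2, h.z1.trans_lt (by norm_num)⟩
  refine core_of_dom hc (fun i => (hloc i).1) (fun i => (hloc i).2) (fun j => ?_) (dom_x hM hc hl)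
  obtain ⟨-, A, hA, h⟩ := SS_lim_x (hl.left j) (hl.right j) (hc.crit_y j)
  exact hLim_of_zt (hloc _).2 (hloc _).2 hA h

end Pool.Agent.Work.MP_b30479_gt.LT
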