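import Pool.Agent.Work.MP_b30479_gt.LT.XBlk
import Pool.Agent.Work.MP_b30479_gt.LT.Core

/-!
# Explicit version: total domination
-/

namespace Pool.Agent.Work.MP_b30479_gt.LT

open Finset VOL AX MeasureTheory

/-- total domination of the integrand on the cube -/
def Dom {M : ℕ} (b : Fin (M + 1) → ℤ) (y : Fin M → ℂ) (ζ : Fin (M + 1) → ℂ) : Prop :=
  ∃ (C c : ℝ) (N : ℕ), 0 ≤ C ∧ 0 < c ∧ ∀ n : ℕ, N ≤ n → Odd n → ∀ σ : Fin (M + 1) → ℝ,
    σ ∈ box M → (∏ i, ‖EE n (b i) (ζ i).im (σ i)‖) *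
      (∏ j : Fin M, ‖SS n (zt (ζ j.castSucc).im (σ j.castSucc)) (zt (ζ j.succ).im (σ j.succ))‖) ≤
      C * (n : ℝ) ^ (-(3 / 2 * (M : ℝ))) *
        Real.exp (n * ((TT b y ζ).re - c * ∑ i, (σ i - (ζ i).re) ^ 2))

/-- the share `lam` of a ring of the twist region `i` -/
noncomputable def lamOf (M : ℕ) (i : Fin (M + 1)) : ℝ := if i = 0 ∨ i = Fin.last M then 1 else 1 / 2

/-- all rings are local -/
structure Locs {M : ℕ} (b : Fin (M + 1) → ℤ) (y : Fin M → ℂ) (ζ : Fin (M + 1) → ℂ) : Prop where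
  left : ∀ j : Fin M, Loc (lamOf M j.castSucc) (b j.castSucc) (y j) (ζ j.castSucc)
  right : ∀ j : Fin M, Loc (lamOf M j.succ) (b j.succ) (y j) (ζ j.succ)

/-- the shares add up to `1` over the rings of a twist region -/
theorem sum_lam {M : ℕ} (hM : 1 ≤ M) (f : Fin (M + 1) → ℝ) :
    ∑ j : Fin M, (lamOf M j.castSucc * f j.castSucc + lamOf M j.succ * f j.succ) = ∑ i, f i := by
  have h0 : (0 : Fin (M + 1)) ≠ Fin.last M := by
    intro h
    have := congrArg Fin.val h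
    rw [Fin.val_zero, Fin.val_last] at this
    omega
  have e1 := Fin.sum_univ_castSucc fun i => lamOf M i * f i
  have e2 := Fin.sum_univ_succ fun i => lamOf M i * f i
  have e3 : lamOf M 0 = 1 := if_pos (Or.inl rfl)
  have e4 : lamOf M (Fin.last M) = 1 := if_pos (Or.inr rfl)
  have e5 : ∀ i, 2 * (lamOf M i * f i) =
      f i + (if i = 0 then f i else 0) + (if i = Fin.last M then f i else 0) := by
    intro i
    unfold lamOf
    by_cases h1 : i = 0
    · subst h1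
      rw [if_pos (Or.inl rfl), if_pos rfl, if_neg h0]
      ring
    · by_cases h2 : i = Fin.last M
      · rw [if_pos (Or.inr h2), if_neg h1, if_pos h2]
        ring
      · rw [if_neg (by tauto), if_neg h1, if_neg h2]
        ring
  have e6 : 2 * ∑ i, lamOf M i * f i = ∑ i, f i + f 0 + f (Fin.last M) := by
    rw [Finset.mul_sum, Finset.sum_congr rfl fun i _ => e5 i, Finset.sum_add_distrib,
      Finset.sum_add_distrib]
    simp
  rw [Finset.sum_add_distrib]
  rw [e4, one_mul] at e1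
  rw [e3, one_mul] at e2
  linarith

lemma xdom_TP {lam : ℝ} {b : ℤ} {w ζ : ℂ} (σ : ℝ) : TP lam b w ζ w.re σ =
    (rc w ζ).re + (tz w ζ).re * (σ - ζ.re) + lam * -(2 * Real.pi * ζ.im * (1 + b * σ)) := by
  unfold TP wt
  ring

theorem dom_x {M : ℕ} (hM : 1 ≤ M) {b : Fin (M + 1) → ℤ} {y : Fin M → ℂ} {ζ : Fin (M + 1) → ℂ}
    (hc : Crit b y ζ) (hl : Locs b y ζ) : Dom b y ζ := by
  have him : ∀ i, 0 < (ζ i).im := by
    intro i
    rcases Fin.eq_zero_or_eq_succ i with h | ⟨j, h⟩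
    · have := (hl.left ⟨0, hM⟩).z2
      rw [h]
      exact this
    · rw [h]
      exact (hl.right j).z2
  choose CE hCE hE using fun i => EE_abs (b i) (him i)
  choose CS NS hCS hS using fun j : Fin M => hinge_bound (hl.left j) (hl.right j) (hc.crit_y j)
  refine ⟨(∏ i, CE i) * ∏ j, CS j, 1 / 100, (Finset.univ.sup NS) ⊔ 1,
    mul_nonneg (Finset.prod_nonneg fun i _ => hCE i) (Finset.prod_nonneg fun j _ => hCS j),
    by norm_num, fun n hn hodd σ hσ => ?_⟩
  have hσ' : ∀ i, |σ i| ≤ 1 / 2 := fun i => abs_le.mpr (hσ i (Set.mem_univ i))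
  have hn1 : 1 ≤ n := le_sup_right.trans hn
  have hnS : ∀ j, NS j ≤ n := fun j =>
    (Finset.le_sup (Finset.mem_univ j)).trans (le_sup_left.trans hn)
  have p1 := Finset.prod_le_prod (s := Finset.univ) (fun i _ => norm_nonneg _)
    (fun i _ => hE i n hn1 hodd (σ i) (hσ' i))
  have p2 := Finset.prod_le_prod (s := Finset.univ)
    (fun j _ => mul_nonneg (norm_nonneg _) (Real.exp_pos _).le)
    (fun j _ => hS j n (hnS j) (σ j.castSucc) (σ j.succ) (hσ' _) (hσ' _))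
  rw [Finset.prod_mul_distrib, ← Real.exp_sum, ← Finset.mul_sum] at p1
  rw [Finset.prod_mul_distrib, ← Real.exp_sum, ← Finset.mul_sum, Finset.prod_mul_distrib,
    Finset.prod_mul_distrib, ← Real.exp_sum, ← Finset.mul_sum, Finset.prod_const,
    Finset.card_univ, Fintype.card_fin] at p2
  have w1 : ∑ j : Fin M, (wt (lamOf M j.castSucc) (b j.castSucc)
      ((ζ j.castSucc).im * th (σ j.castSucc)) (σ j.castSucc) +
      wt (lamOf M j.succ) (b j.succ) ((ζ j.succ).im * th (σ j.succ)) (σ j.succ)) =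
      ∑ i, wt 1 (b i) ((ζ i).im * th (σ i)) (σ i) := by
    rw [← sum_lam hM fun i => wt 1 (b i) ((ζ i).im * th (σ i)) (σ i)]
    refine Finset.sum_congr rfl fun j _ => ?_
    unfold wt
    ring
  rw [w1] at p2
  set W : ℝ := ∑ i, wt 1 (b i) ((ζ i).im * th (σ i)) (σ i) with hW
  set PE : ℝ := ∏ i, CE i with hPE
  set PS : ℝ := ∏ j, CS j with hPS
  set A : ℝ := ∏ i, ‖EE n (b i) (ζ i).im (σ i)‖ with hA
  set B : ℝ := ∏ j : Fin M, ‖SS n (zt (ζ j.castSucc).im (σ j.castSucc))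
    (zt (ζ j.succ).im (σ j.succ))‖ with hB
  have hB0 : 0 ≤ B := Finset.prod_nonneg fun j _ => norm_nonneg _
  have hPE0 : 0 ≤ PE := Finset.prod_nonneg fun i _ => hCE i
  have hPS0 : 0 ≤ PS := Finset.prod_nonneg fun j _ => hCS j
  have hpow : ((n : ℝ) ^ (-(3 / 2) : ℝ)) ^ M = (n : ℝ) ^ (-(3 / 2 * (M : ℝ))) := by
    rw [← Real.rpow_mul_natCast (Nat.cast_nonneg n)]
    congr 1
    ring
  rw [hpow] at p2
  have hR : 0 ≤ (n : ℝ) ^ (-(3 / 2 * (M : ℝ))) := Real.rpow_nonneg (Nat.cast_nonneg n) _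
  refine (mul_le_mul_of_nonneg_right p1 hB0).trans ?_
  rw [show PE * Real.exp (n * W) * B = PE * (B * Real.exp (n * W)) by ring]
  refine (mul_le_mul_of_nonneg_left p2 hPE0).trans ?_
  rw [← mul_assoc, ← mul_assoc]
  refine mul_le_mul_of_nonneg_left (Real.exp_le_exp.mpr ?_) (by positivity)
  refine mul_le_mul_of_nonneg_left ?_ (Nat.cast_nonneg n)
  have h1 := re_sum hc σ
  have h2 := sum_le_sum_pairs hM (f := fun i => (σ i - (ζ i).re) ^ 2)
    (fun i => sq_nonneg _)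
  have h3 := sum_lam hM fun i => -(2 * Real.pi * (ζ i).im * (1 + b i * σ i))
  rw [← h1, ← h3, ← Finset.sum_add_distrib]
  have h4 : ∀ j : Fin M, TP (lamOf M j.castSucc) (b j.castSucc) (y j) (ζ j.castSucc)
      (y j).re (σ j.castSucc) + TP (lamOf M j.succ) (b j.succ) (y j) (ζ j.succ)
      (y j).re (σ j.succ) - 1 / 100 * ((σ j.castSucc - (ζ j.castSucc).re) ^ 2 +
      (σ j.succ - (ζ j.succ).re) ^ 2) =
    (lamOf M j.castSucc * -(2 * Real.pi * (ζ j.castSucc).im *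
      (1 + b j.castSucc * σ j.castSucc)) + lamOf M j.succ * -(2 * Real.pi * (ζ j.succ).im *
      (1 + b j.succ * σ j.succ)) + ((tp (y j) (ζ j.castSucc) (ζ j.succ)).re +
    (tz (y j) (ζ j.castSucc)).re * (σ j.castSucc - (ζ j.castSucc).re) +
    (tz (y j) (ζ j.succ)).re * (σ j.succ - (ζ j.succ).re))) -
    1 / 100 * ((σ j.castSucc - (ζ j.castSucc).re) ^ 2 +
      (σ j.succ - (ζ j.succ).re) ^ 2) := by
    intro j
    rw [xdom_TP, xdom_TP, tp_eq_rc, Complex.add_re]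
    ring
  rw [Finset.sum_congr rfl fun j _ => h4 j, Finset.sum_sub_distrib, ← Finset.mul_sum]
  linarith

end Pool.Agent.Work.MP_b30479_gt.LT
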