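import Pool.Agent.Work.MP_b30479_gt.LT.XSad
import Pool.Agent.Work.MP_b30479_gt.LT.XDefs

/-!
# Position of the critical points, 1: one vertex, one ring

`xl_hinge`: the hinge equation in the strip `0 < re w < 1/2` (no other assumption on `w`);
`xl_w`: the hinge variable from its two neighbours; `xl_vert0`, `xl_vert`: a vertex with any number
`d` of rings and `B` crossings, `50 ≤ |B|`, `25 d ≤ |B|`; `xl_ringdata`: one ring.
-/

namespace Pool.Agent.Work.MP_b30479_gt.LT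

open Finset VOL AX MeasureTheory

/-! ### elementary estimates -/

lemma xl_cos {x : ℂ} {r : ℝ} (hr : r < 1) (hx : ‖x‖ ≤ r) :
    Complex.cos x ≠ 0 ∧ 1 - r ^ 2 ≤ ‖Complex.cos x ^ 2‖ := by
  have hr0 : 0 ≤ r := (norm_nonneg _).trans hx
  have h1 : x.re ^ 2 + x.im ^ 2 ≤ r ^ 2 := by
    have := pow_le_pow_left₀ (norm_nonneg _) hx 2
    rw [Complex.sq_norm, Complex.normSq_apply] at this
    linarith
  have hc := GT.cos_sq_ge (x := x.re)
  have h2 : 1 - r ^ 2 ≤ Complex.normSq (Complex.cos x) := by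
    rw [GT.normSq_cos]
    linarith [sq_nonneg x.im, sq_nonneg (Real.sinh x.im)]
  have hr2 : r ^ 2 < 1 := by nlinarith
  refine ⟨?_, ?_⟩
  · intro h
    rw [h, Complex.normSq_zero] at h2
    linarith
  · rw [norm_pow, Complex.sq_norm]; exact h2

lemma xl_tan_lip {r : ℝ} (hr : r < 1) {z z' : ℂ} (hz : ‖z‖ ≤ r) (hz' : ‖z'‖ ≤ r) :
    ‖Complex.tan z - Complex.tan z'‖ ≤ 1 / (1 - r ^ 2) * ‖z - z'‖ := by
  have hr0 : 0 ≤ r := (norm_nonneg _).trans hz
  have hr2 : r ^ 2 < 1 := by nlinarith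
  apply Convex.norm_image_sub_le_of_norm_hasDerivWithin_le
    (f' := fun w => 1 / Complex.cos w ^ 2) (s := Metric.closedBall (0 : ℂ) r) _ _
    (convex_closedBall 0 r)
  · rw [mem_closedBall_zero_iff]; exact hz'
  · rw [mem_closedBall_zero_iff]; exact hz
  · intro x hx
    rw [mem_closedBall_zero_iff] at hx
    exact (Complex.hasDerivAt_tan (xl_cos hr hx).1).hasDerivWithinAt
  · intro x hx
    rw [mem_closedBall_zero_iff] at hx
    rw [norm_div, norm_one]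
    exact one_div_le_one_div_of_le (by linarith) (xl_cos hr hx).2

lemma xl_tan_le {r : ℝ} (hr : r < 1) {z : ℂ} (hz : ‖z‖ ≤ r) :
    ‖Complex.tan z‖ ≤ 1 / (1 - r ^ 2) * ‖z‖ := by
  have := xl_tan_lip hr hz (z' := 0) (by rw [norm_zero]; exact (norm_nonneg _).trans hz)
  rwa [Complex.tan_zero, sub_zero, sub_zero] at this

lemma xl_tan_sub {r : ℝ} (hr : r < 1) {z : ℂ} (hz : ‖z‖ ≤ r) :
    ‖Complex.tan z - z‖ ≤ (1 / (1 - r ^ 2) * r) ^ 2 * ‖z‖ := by
  have hr0 : 0 ≤ r := (norm_nonneg _).trans hz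
  have hr2 : r ^ 2 < 1 := by nlinarith
  have key := Convex.norm_image_sub_le_of_norm_hasDerivWithin_le
    (f := fun w => Complex.tan w - w) (f' := fun w => Complex.tan w ^ 2)
    (s := Metric.closedBall (0 : ℂ) r) (C := (1 / (1 - r ^ 2) * r) ^ 2) (x := 0) (y := z)
    ?_ ?_ (convex_closedBall 0 r) ?_ ?_
  · simpa using key
  · intro x hx
    rw [mem_closedBall_zero_iff] at hx
    have hc := (xl_cos hr hx).1
    have d := (Complex.hasDerivAt_tan hc).sub (hasDerivAt_id x)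
    have e : (1 / Complex.cos x ^ 2 - 1) = Complex.tan x ^ 2 := by
      rw [Complex.tan_eq_sin_div_cos, div_pow, div_sub_one (pow_ne_zero 2 hc)]
      congr 1
      linear_combination -Complex.sin_sq_add_cos_sq x
    rw [e] at d
    exact d.hasDerivWithinAt
  · intro x hx
    rw [mem_closedBall_zero_iff] at hx
    rw [norm_pow]
    apply pow_le_pow_left₀ (norm_nonneg _)
    refine (xl_tan_le hr hx).trans ?_
    apply mul_le_mul_of_nonneg_left hx
    apply div_nonneg zero_le_one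
    linarith
  · rw [mem_closedBall_zero_iff, norm_zero]; exact hr0
  · rw [mem_closedBall_zero_iff]; exact hz

lemma xl_ath_sub {r : ℝ} (hr : r < 1) {u : ℂ} (hu : ‖u‖ ≤ r) :
    ‖GT.ath u - u‖ ≤ r ^ 2 / (1 - r ^ 2) * ‖u‖ := by
  have hr0 : 0 ≤ r := (norm_nonneg _).trans hu
  have hr2 : r ^ 2 < 1 := by nlinarith
  have key := Convex.norm_image_sub_le_of_norm_hasDerivWithin_le
    (f := fun w => GT.ath w - w) (f' := fun w => w ^ 2 / (1 - w ^ 2))
    (s := Metric.closedBall (0 : ℂ) r) (C := r ^ 2 / (1 - r ^ 2)) (x := 0) (y := u)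
    ?_ ?_ (convex_closedBall 0 r) ?_ ?_
  · simpa [GT.ath_zero] using key
  · intro x hx
    rw [mem_closedBall_zero_iff] at hx
    have hx1 : ‖x‖ < 1 := lt_of_le_of_lt hx hr
    have hne : (1 : ℂ) - x ^ 2 ≠ 0 := by
      intro h
      have h2 : x ^ 2 = 1 := by linear_combination -h
      have h3 : ‖x‖ ^ 2 = 1 := by rw [← norm_pow, h2, norm_one]
      have := norm_nonneg x
      nlinarith
    have d := (GT.ath_hasDerivAt hx1).sub (hasDerivAt_id x)
    have e : (1 / (1 - x ^ 2) - 1) = x ^ 2 / (1 - x ^ 2) := by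
      rw [div_sub_one hne]
      congr 1
      ring
    rw [e] at d
    exact d.hasDerivWithinAt
  · intro x hx
    rw [mem_closedBall_zero_iff] at hx
    rw [norm_div]
    have h1 : ‖x ^ 2‖ ≤ r ^ 2 := by
      rw [norm_pow]; exact pow_le_pow_left₀ (norm_nonneg _) hx 2
    have h2 : 1 - r ^ 2 ≤ ‖1 - x ^ 2‖ := by
      have h2 := norm_sub_norm_le (1 : ℂ) (x ^ 2)
      rw [norm_one] at h2
      linarith
    exact div_le_div₀ (sq_nonneg r) h1 (by linarith) h2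
  · rw [mem_closedBall_zero_iff, norm_zero]; exact hr0
  · rw [mem_closedBall_zero_iff]; exact hu

lemma xl_ath_le {r : ℝ} (hr : r < 1) {u : ℂ} (hu : ‖u‖ ≤ r) :
    ‖GT.ath u‖ ≤ 1 / (1 - r ^ 2) * ‖u‖ := by
  have := GT.ath_lip hr hu (v := 0) (by rw [norm_zero]; exact (norm_nonneg _).trans hu)
  rwa [GT.ath_zero, sub_zero, sub_zero] at this

lemma xl_isq {K : ℂ} (hK : 1 ≤ K.re) : GT.isq K ≠ 0 ∧ ‖(GT.isq K)⁻¹ - 1‖ ≤ ‖K - 1‖ / 2 ∧
    ‖GT.isq K - 1‖ ≤ ‖K - 1‖ / 2 := by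
  obtain ⟨h1, h2, h3, h4⟩ := xs_isq hK
  have h5 := GT.isq_norm_le hK
  generalize GT.isq K = q at *
  have hq : q ≠ 0 := by
    intro h
    rw [h, Complex.zero_re] at h1
    exact lt_irrefl _ h1
  have hp : (1 + q⁻¹) ≠ 0 := by
    intro h
    rw [h, norm_zero] at h4
    linarith
  have e : q⁻¹ - 1 = (K - 1) / (1 + q⁻¹) := by
    rw [eq_div_iff hp]
    have : K = q⁻¹ ^ 2 := by
      rw [inv_pow]
      field_simp
      linear_combination h3
    rw [this]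
    ring
  have a1 : ‖q⁻¹ - 1‖ ≤ ‖K - 1‖ / 2 := by
    rw [e, norm_div]
    exact div_le_div_of_nonneg_left (norm_nonneg _) (by norm_num) h4
  refine ⟨hq, a1, ?_⟩
  have e2 : q - 1 = -(q * (q⁻¹ - 1)) := by
    field_simp
    ring
  rw [e2, norm_neg, norm_mul]
  calc ‖q‖ * ‖q⁻¹ - 1‖ ≤ 1 * (‖K - 1‖ / 2) :=
        mul_le_mul h5 a1 (norm_nonneg _) zero_le_one
    _ = ‖K - 1‖ / 2 := one_mul _

/-- comparison of a ring term with `π ζ` -/
lemma xl_ring {z q : ℂ} (hz : ‖z‖ ≤ 33 / 500) (hq : ‖q‖ ≤ 1) (hq1 : ‖q - 1‖ ≤ 22 / 5000) :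
    ‖GT.ath (Complex.tan z * q) - z‖ ≤ 67 / 5000 * ‖z‖ := by
  have h1 := xl_tan_le (by norm_num : (33 / 500 : ℝ) < 1) hz
  have h2 := xl_tan_sub (by norm_num : (33 / 500 : ℝ) < 1) hz
  have hn := norm_nonneg z
  have h1' : ‖Complex.tan z‖ ≤ 1.0044 * ‖z‖ := by
    refine h1.trans (mul_le_mul_of_nonneg_right ?_ hn)
    norm_num
  have h2' : ‖Complex.tan z - z‖ ≤ 0.0044 * ‖z‖ := by
    refine h2.trans (mul_le_mul_of_nonneg_right ?_ hn)
    norm_num
  have h3 : ‖Complex.tan z * q‖ ≤ 1.0044 * ‖z‖ := by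
    rw [norm_mul]
    have := norm_nonneg (Complex.tan z)
    nlinarith
  have h4 : ‖Complex.tan z * q‖ ≤ 0.0663 := by
    refine h3.trans ?_
    norm_num at hz ⊢
    linarith
  have h5 := xl_ath_sub (by norm_num : (0.0663 : ℝ) < 1) h4
  have h5' : ‖GT.ath (Complex.tan z * q) - Complex.tan z * q‖ ≤ 0.00442 * (1.0044 * ‖z‖) := by
    refine h5.trans ?_
    apply mul_le_mul _ h3 (norm_nonneg _) (by norm_num)
    norm_num
  have h6 : ‖Complex.tan z * (q - 1)‖ ≤ 1.0044 * ‖z‖ * (22 / 5000) := by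
    rw [norm_mul]
    exact mul_le_mul h1' hq1 (norm_nonneg _) (by positivity)
  have e : GT.ath (Complex.tan z * q) - z = (GT.ath (Complex.tan z * q) - Complex.tan z * q) +
      Complex.tan z * (q - 1) + (Complex.tan z - z) := by ring
  rw [e]
  refine (norm_add₃_le).trans ?_
  norm_num at h5' h6 h2' ⊢
  linarith

/-- norm of a ring term, rough version -/
lemma xl_ring0 {z q : ℂ} (hz : ‖z‖ ≤ 1 / 10) (hq : ‖q‖ ≤ 1) :
    ‖GT.ath (Complex.tan z * q)‖ ≤ 1.021 * ‖z‖ := by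
  have h1 := xl_tan_le (by norm_num : (1 / 10 : ℝ) < 1) hz
  have hn := norm_nonneg z
  have h1' : ‖Complex.tan z‖ ≤ 1.0102 * ‖z‖ := by
    refine h1.trans (mul_le_mul_of_nonneg_right ?_ hn)
    norm_num
  have h3 : ‖Complex.tan z * q‖ ≤ 1.0102 * ‖z‖ := by
    rw [norm_mul]
    have := norm_nonneg (Complex.tan z)
    nlinarith
  have h4 : ‖Complex.tan z * q‖ ≤ 0.10102 := by
    refine h3.trans ?_
    norm_num at hz ⊢
    linarith
  refine (xl_ath_le (by norm_num : (0.10102 : ℝ) < 1) h4).trans ?_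
  have : 1 / (1 - (0.10102 : ℝ) ^ 2) ≤ 1.0104 := by norm_num
  have h5 := mul_le_mul this h3 (norm_nonneg _) (by norm_num)
  refine h5.trans ?_
  norm_num
  linarith

/-! ### the hinge equation in the strip `0 < re w < 1/2` -/

lemma xl_exp_ph {x : ℂ} (h : Complex.sin (Real.pi * x) ≠ 0) :
    Complex.exp (ph x) = 2 * Complex.sin (Real.pi * x) := by
  unfold ph
  exact Complex.exp_log (mul_ne_zero two_ne_zero h)

lemma xl_exp_ph_le {x : ℂ} (h : |x.im| ≤ 1 / 10) : ‖Complex.exp (ph x)‖ ≤ 2.2 := by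
  by_cases h0 : Complex.sin (Real.pi * x) = 0
  · unfold ph
    rw [h0, mul_zero, Complex.log_zero, Complex.exp_zero, norm_one]
    norm_num
  · rw [xl_exp_ph h0, norm_mul]
    have h1 : ((Real.pi : ℂ) * x).im = Real.pi * x.im := by rw [Complex.im_ofReal_mul]
    have h2 : |((Real.pi : ℂ) * x).im| ≤ 0.31416 := by
      rw [h1, abs_mul, abs_of_pos Real.pi_pos]
      have := Real.pi_lt_d4
      have h3 := abs_nonneg x.im
      norm_num at this ⊢
      nlinarith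
    have h6 : ‖Complex.sin (Real.pi * x)‖ ^ 2 ≤ 1.2 := by
      rw [Complex.sq_norm, GT.normSq_sin]
      have h7 := Real.sin_sq_le_one ((Real.pi : ℂ) * x).re
      clear h1
      generalize ((Real.pi : ℂ) * x).im = y at *
      generalize Real.sin ((Real.pi : ℂ) * x).re ^ 2 = S at *
      have h3 := GT.sinh_sq_le (y := y) (lt_of_le_of_lt h2 (by norm_num))
      have h4 : y ^ 2 ≤ 0.0988 := by
        rw [← sq_abs]
        have := pow_le_pow_left₀ (abs_nonneg _) h2 2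
        norm_num at this ⊢
        linarith
      have h5 : y ^ 2 / (1 - y ^ 2) ≤ 0.2 := by
        rw [div_le_iff₀ (by norm_num at h4 ⊢; linarith)]
        norm_num at h4 ⊢
        linarith
      norm_num at h5 ⊢
      linarith
    have h7 : ‖Complex.sin (Real.pi * x)‖ ≤ 1.1 := by
      have := norm_nonneg (Complex.sin (Real.pi * x))
      by_contra hc
      have hc := not_le.1 hc
      norm_num at h6 hc
      nlinarith
    have h8 : ‖(2 : ℂ)‖ = 2 := by norm_num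
    rw [h8]
    norm_num at h7 ⊢
    linarith

lemma xl_tw_neg (w ζ ζ' : ℂ) : tw w (-ζ) ζ' = tw w ζ ζ' := by
  unfold tw
  rw [show w + 1 / 2 + -ζ = w + 1 / 2 - ζ by ring, show w + 1 / 2 - -ζ = w + 1 / 2 + ζ by ring]
  ring

lemma xl_tw_symm (w ζ ζ' : ℂ) : tw w ζ ζ' = tw w ζ' ζ := by
  unfold tw
  ring

lemma xl_pi_norm {x : ℂ} {c : ℝ} (h : ‖x‖ ≤ c) : ‖(Real.pi : ℂ) * x‖ ≤ 3.1416 * c := by
  rw [norm_mul, Complex.norm_real, Real.norm_of_nonneg Real.pi_pos.le]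
  have h1 := Real.pi_lt_d4
  exact mul_le_mul h1.le h (norm_nonneg _) (by norm_num)

/-- the values where a factor of the hinge equation degenerates -/
lemma xl_bad {w ζ ζ' : ℂ} (h0 : 0 < w.re) (h1 : w.re < 1 / 2) (hz : ‖ζ‖ ≤ 1 / 20)
    (hz' : ‖ζ'‖ ≤ 1 / 20) (hc : Complex.cos (Real.pi * (w + ζ)) = 0) : tw w ζ ζ' ≠ 0 := by
  intro ht
  have hpi : (Real.pi : ℂ) ≠ 0 := by exact_mod_cast Real.pi_ne_zero
  rw [Complex.cos_eq_zero_iff] at hc
  obtain ⟨k, hk⟩ := hc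
  have e1 : w + ζ = k + 1 / 2 := by
    apply mul_left_cancel₀ hpi
    rw [hk]
    ring
  have hζre := abs_le.1 ((Complex.abs_re_le_norm ζ).trans hz)
  have hζim := abs_le.1 ((Complex.abs_im_le_norm ζ).trans hz)
  have hζ're := abs_le.1 ((Complex.abs_re_le_norm ζ').trans hz')
  have hζ'im := abs_le.1 ((Complex.abs_im_le_norm ζ').trans hz')
  have e2 := congrArg Complex.re e1
  have e3 := congrArg Complex.im e1
  simp only [Complex.add_re, Complex.add_im, Complex.intCast_re, Complex.intCast_im] at e2 e3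
  norm_num at e2 e3
  have hk0 : k = 0 := by
    have hk1 : |(k : ℝ)| < 1 := by
      rw [abs_lt]
      constructor <;> linarith [hζre.1, hζre.2]
    exact Int.abs_lt_one_iff.1 (by exact_mod_cast hk1)
  have hw : w = 1 / 2 - ζ := by
    rw [hk0, Int.cast_zero] at e1
    linear_combination e1
  have hs : Complex.sin (Real.pi * w) = Complex.cos (Real.pi * ζ) := by
    rw [hw, show (Real.pi : ℂ) * (1 / 2 - ζ) = Real.pi / 2 - Real.pi * ζ by ring,
      Complex.sin_pi_div_two_sub]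
  obtain ⟨c1, c2⟩ := xl_cos (r := 0.16) (by norm_num) (x := (Real.pi : ℂ) * ζ) (by
    refine (xl_pi_norm hz).trans ?_; norm_num)
  have hs0 : Complex.sin (Real.pi * w) ≠ 0 := by rw [hs]; exact c1
  have hE : ‖Complex.exp (4 * ph w)‖ = 16 * ‖Complex.cos (Real.pi * ζ) ^ 2‖ ^ 2 := by
    have : Complex.exp (4 * ph w) = 16 * (Complex.cos (Real.pi * ζ) ^ 2) ^ 2 := by
      rw [show (4 : ℂ) * ph w = ((4 : ℕ) : ℂ) * ph w by norm_num, Complex.exp_nat_mul,
        xl_exp_ph hs0, hs]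
      ring
    rw [this, norm_mul, norm_pow]
    norm_num
  have hE1 : ‖Complex.exp (ph (w + 1 / 2 + ζ))‖ = 1 := by
    have e4 : w + 1 / 2 + ζ = 1 := by rw [hw]; ring
    have e5 : Complex.sin (Real.pi * (1 : ℂ)) = 0 := by rw [mul_one, Complex.sin_pi]
    unfold ph
    rw [e4, e5, mul_zero, Complex.log_zero, Complex.exp_zero, norm_one]
  have hE2 := xl_exp_ph_le (x := w + 1 / 2 - ζ) (by
    rw [abs_le]
    simp only [Complex.add_im, Complex.sub_im]
    norm_num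
    constructor <;> linarith [hζim.1, hζim.2])
  have hE3 := xl_exp_ph_le (x := w + 1 / 2 + ζ') (by
    rw [abs_le]
    simp only [Complex.add_im]
    norm_num
    constructor <;> linarith [hζim.1, hζim.2, hζ'im.1, hζ'im.2])
  have hE4 := xl_exp_ph_le (x := w + 1 / 2 - ζ') (by
    rw [abs_le]
    simp only [Complex.add_im, Complex.sub_im]
    norm_num
    constructor <;> linarith [hζim.1, hζim.2, hζ'im.1, hζ'im.2])
  have hT : Complex.exp (ph (w + 1 / 2 + ζ)) * Complex.exp (ph (w + 1 / 2 - ζ)) *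
      Complex.exp (ph (w + 1 / 2 + ζ')) * Complex.exp (ph (w + 1 / 2 - ζ')) =
      Complex.exp (4 * ph w) := by
    rw [← Complex.exp_add, ← Complex.exp_add, ← Complex.exp_add]
    congr 1
    unfold tw at ht
    linear_combination ht
  have hN := congrArg norm hT
  rw [norm_mul, norm_mul, norm_mul, hE, hE1, one_mul] at hN
  have b1 : ‖Complex.exp (ph (w + 1 / 2 - ζ))‖ * ‖Complex.exp (ph (w + 1 / 2 + ζ'))‖ *
      ‖Complex.exp (ph (w + 1 / 2 - ζ'))‖ ≤ 2.2 * 2.2 * 2.2 :=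
    mul_le_mul (mul_le_mul hE2 hE3 (norm_nonneg _) (by norm_num)) hE4 (norm_nonneg _)
      (by norm_num)
  have b2 : (0.97 : ℝ) ^ 2 ≤ ‖Complex.cos (Real.pi * ζ) ^ 2‖ ^ 2 := by
    apply pow_le_pow_left₀ (by norm_num)
    refine le_trans ?_ c2
    norm_num
  rw [hN] at b1
  norm_num at b1 b2
  linarith

/-- the hinge equation -/
theorem xl_hinge {w ζ ζ' : ℂ} (h0 : 0 < w.re) (h1 : w.re < 1 / 2) (hz : ‖ζ‖ ≤ 1 / 20)
    (hz' : ‖ζ'‖ ≤ 1 / 20) (ht : tw w ζ ζ' = 0) :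
    (Complex.cos (Real.pi * (w + ζ)) ≠ 0 ∧ Complex.cos (Real.pi * (w - ζ)) ≠ 0) ∧
    Complex.cos (Real.pi * w) ^ 2 * (2 - Complex.sin (Real.pi * ζ) ^ 2 -
      Complex.sin (Real.pi * ζ') ^ 2) =
      1 - Complex.sin (Real.pi * ζ) ^ 2 * Complex.sin (Real.pi * ζ') ^ 2 := by
  have n1 : Complex.cos (Real.pi * (w + ζ)) ≠ 0 := fun h => xl_bad h0 h1 hz hz' h ht
  have n2 : Complex.cos (Real.pi * (w - ζ)) ≠ 0 := by
    intro h
    rw [sub_eq_add_neg] at h
    refine xl_bad h0 h1 (by rw [norm_neg]; exact hz) hz' h ?_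
    rw [xl_tw_neg]; exact ht
  have ht' : tw w ζ' ζ = 0 := by rw [xl_tw_symm]; exact ht
  have n3 : Complex.cos (Real.pi * (w + ζ')) ≠ 0 := fun h => xl_bad h0 h1 hz' hz h ht'
  have n4 : Complex.cos (Real.pi * (w - ζ')) ≠ 0 := by
    intro h
    rw [sub_eq_add_neg] at h
    refine xl_bad h0 h1 (by rw [norm_neg]; exact hz') hz h ?_
    rw [xl_tw_neg]; exact ht'
  refine ⟨⟨n1, n2⟩, ?_⟩
  have hs0 : Complex.sin (Real.pi * w) ≠ 0 := by
    intro h
    rw [Complex.sin_eq_zero_iff] at h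
    obtain ⟨k, hk⟩ := h
    have hpi : (Real.pi : ℂ) ≠ 0 := by exact_mod_cast Real.pi_ne_zero
    have e : w = k := by
      apply mul_left_cancel₀ hpi
      rw [hk]; ring
    have e2 := congrArg Complex.re e
    rw [Complex.intCast_re] at e2
    rw [e2] at h0 h1
    have a1 : (0 : ℤ) < k := by exact_mod_cast h0
    have a2 : (k : ℝ) < 1 := by linarith
    have a3 : k < 1 := by exact_mod_cast a2
    omega
  have sp : ∀ x : ℂ, Complex.sin (Real.pi * (w + 1 / 2 + x)) =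
      Complex.cos (Real.pi * (w + x)) := by
    intro x
    rw [← Complex.sin_add_pi_div_two]
    congr 1
    ring
  have sm : ∀ x : ℂ, Complex.sin (Real.pi * (w + 1 / 2 - x)) =
      Complex.cos (Real.pi * (w - x)) := by
    intro x
    rw [← Complex.sin_add_pi_div_two]
    congr 1
    ring
  have hT : Complex.exp (ph (w + 1 / 2 + ζ)) * Complex.exp (ph (w + 1 / 2 - ζ)) *
      Complex.exp (ph (w + 1 / 2 + ζ')) * Complex.exp (ph (w + 1 / 2 - ζ')) =
      Complex.exp (4 * ph w) := by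
    rw [← Complex.exp_add, ← Complex.exp_add, ← Complex.exp_add]
    congr 1
    unfold tw at ht
    linear_combination ht
  rw [show (4 : ℂ) * ph w = ((4 : ℕ) : ℂ) * ph w by norm_num, Complex.exp_nat_mul,
    xl_exp_ph hs0, xl_exp_ph (by rw [sp]; exact n1), xl_exp_ph (by rw [sm]; exact n2),
    xl_exp_ph (by rw [sp]; exact n3), xl_exp_ph (by rw [sm]; exact n4), sp, sp, sm, sm] at hT
  have pr : ∀ x : ℂ, Complex.cos (Real.pi * (w + x)) * Complex.cos (Real.pi * (w - x)) =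
      Complex.cos (Real.pi * w) ^ 2 - Complex.sin (Real.pi * x) ^ 2 := by
    intro x
    rw [mul_add, mul_sub, Complex.cos_add, Complex.cos_sub]
    linear_combination Complex.cos (Real.pi * w) ^ 2 * Complex.sin_sq_add_cos_sq (Real.pi * x) -
      Complex.sin (Real.pi * x) ^ 2 * Complex.sin_sq_add_cos_sq (Real.pi * w)
  have p1 := pr ζ
  have p2 := pr ζ'
  have p3 := Complex.sin_sq_add_cos_sq (Real.pi * w)
  have hT2 : (Complex.cos (Real.pi * w) ^ 2 - Complex.sin (Real.pi * ζ) ^ 2) *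
      (Complex.cos (Real.pi * w) ^ 2 - Complex.sin (Real.pi * ζ') ^ 2) =
      (1 - Complex.cos (Real.pi * w) ^ 2) ^ 2 := by
    rw [← p1, ← p2, ← p3]
    linear_combination (1 / 16 : ℂ) * hT
  linear_combination hT2


/-! ### the data of a critical point -/

lemma xl_zdom {c : ℤ} (hc : 10 ≤ |c|) {x : ℂ} (h : ‖(c : ℂ) * x + 1‖ ≤ 2 / 5) : ZDom x := by
  have ha : 10 ≤ c.natAbs := by
    rw [Int.abs_eq_natAbs] at hc
    exact_mod_cast hc
  rcases lt_or_ge c 0 with h1 | h1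
  · have e : ((c.natAbs : ℕ) : ℂ) = -(c : ℂ) := by
      have h3 : ((c.natAbs : ℕ) : ℤ) = -c := by omega
      have h2 : (((c.natAbs : ℕ) : ℤ) : ℂ) = ((-c : ℤ) : ℂ) := by rw [h3]
      rw [Int.cast_natCast, Int.cast_neg] at h2
      exact h2
    refine (xs_dom ha (ζ := x) ?_).1
    rw [e, show -(c : ℂ) * x - 1 = -((c : ℂ) * x + 1) by ring, norm_neg]
    exact h
  · have e : ((c.natAbs : ℕ) : ℂ) = (c : ℂ) := by
      have h3 : ((c.natAbs : ℕ) : ℤ) = c := by omega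
      have h2 : (((c.natAbs : ℕ) : ℤ) : ℂ) = ((c : ℤ) : ℂ) := by rw [h3]
      rw [Int.cast_natCast] at h2
      exact h2
    have h3 := (xs_dom ha (ζ := -x) (by
      rw [e, show (c : ℂ) * -x - 1 = -((c : ℂ) * x + 1) by ring, norm_neg]
      exact h)).1.neg
    rwa [neg_neg] at h3

/-- the hinge variable in terms of its neighbours -/
theorem xl_w {w ζ ζ' : ℂ} (h0 : 0 < w.re) (h1 : w.re < 1 / 2) (hz : ‖ζ‖ ≤ 1 / 20)
    (hz' : ‖ζ'‖ ≤ 1 / 20) (hD : ZDom ζ) (hD' : ZDom ζ') (ht : tw w ζ ζ' = 0) :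
    Complex.cos (Real.pi * w) ≠ 0 ∧ GT.tz w = GT.isq (1 + GT.tz ζ ^ 2 + GT.tz ζ' ^ 2) ∧
      w = yq (GT.isq (1 + GT.tz ζ ^ 2 + GT.tz ζ' ^ 2)) ∧
      ‖w - 1 / 4‖ ≤ 1 / 10 * ‖1 + GT.tz ζ ^ 2 + GT.tz ζ' ^ 2 - 1‖ ∧ |w.re - 1 / 4| ≤ 1 / 10 := by
  obtain ⟨-, hC⟩ := xl_hinge h0 h1 hz hz' ht
  obtain ⟨hK1, hK2, hK3⟩ := xs_K hD hD'
  obtain ⟨y1, y2, y3⟩ := xs_yq hK1 hK3
  obtain ⟨q1, -, q3, -⟩ := xs_isq hK1
  have hpi := Real.pi_pos
  obtain ⟨hc, hre⟩ := xs_tan_re (z := (Real.pi : ℂ) * w) (by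
      rw [Complex.re_ofReal_mul]; exact mul_pos hpi h0) (by
      rw [Complex.re_ofReal_mul]; nlinarith)
  have hre' : 0 < (GT.tz w).re := hre
  have e1 := xs_one_add_sq hD.cos_ne
  have e2 := xs_one_add_sq hD'.cos_ne
  have e3 := xs_one_add_sq hc
  have s1 : Complex.sin (Real.pi * ζ) ^ 2 = 1 - Complex.cos (Real.pi * ζ) ^ 2 := by
    linear_combination Complex.sin_sq_add_cos_sq (Real.pi * ζ)
  have s2 : Complex.sin (Real.pi * ζ') ^ 2 = 1 - Complex.cos (Real.pi * ζ') ^ 2 := by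
    linear_combination Complex.sin_sq_add_cos_sq (Real.pi * ζ')
  rw [s1, s2] at hC
  have hqK : GT.tz w ^ 2 * (1 + GT.tz ζ ^ 2 + GT.tz ζ' ^ 2) = 1 := by
    apply mul_right_cancel₀ (mul_ne_zero (mul_ne_zero (pow_ne_zero 2 hc)
      (pow_ne_zero 2 hD.cos_ne)) (pow_ne_zero 2 hD'.cos_ne))
    linear_combination ((1 + GT.tz ζ ^ 2 + GT.tz ζ' ^ 2) * Complex.cos (Real.pi * ζ) ^ 2 *
      Complex.cos (Real.pi * ζ') ^ 2) * e3 + (1 - Complex.cos (Real.pi * w) ^ 2) *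
      (Complex.cos (Real.pi * ζ') ^ 2 * e1 + Complex.cos (Real.pi * ζ) ^ 2 * e2) - hC
  have hK0 : (1 + GT.tz ζ ^ 2 + GT.tz ζ' ^ 2) ≠ 0 := by
    intro h
    rw [h, mul_zero] at q3
    exact zero_ne_one q3
  have ht2 : GT.tz w = GT.isq (1 + GT.tz ζ ^ 2 + GT.tz ζ' ^ 2) := by
    have e4 : GT.tz w ^ 2 = GT.isq (1 + GT.tz ζ ^ 2 + GT.tz ζ' ^ 2) ^ 2 := by
      apply mul_right_cancel₀ hK0
      rw [hqK, q3]
    rcases sq_eq_sq_iff_eq_or_eq_neg.1 e4 with h4 | h4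
    · exact h4
    · exfalso
      rw [h4, Complex.neg_re] at hre'
      linarith
  have hy4 : ‖yq (GT.isq (1 + GT.tz ζ ^ 2 + GT.tz ζ' ^ 2)) - 1 / 4‖ ≤ 1 / 20 := by linarith
  have hy5 := abs_le.1 ((Complex.abs_re_le_norm _).trans hy4)
  rw [Complex.sub_re] at hy5
  norm_num at hy5
  have hw : w = yq (GT.isq (1 + GT.tz ζ ^ 2 + GT.tz ζ' ^ 2)) := by
    apply xs_tan_inj h0 h1 (by linarith [hy5.1]) (by linarith [hy5.2])
    rw [y2, ht2]
  refine ⟨hc, ht2, hw, ?_, ?_⟩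
  · rw [← hw] at y3
    exact y3
  · rw [← hw] at hy5
    rw [abs_le]
    constructor <;> linarith [hy5.1, hy5.2]


/-! ### one vertex with any number of rings -/

/-- first bound -/
lemma xl_vert0 {ι : Type*} [Fintype ι] {B : ℝ} (hB : 50 ≤ |B|)
    (hd : 25 * (Fintype.card ι : ℝ) ≤ |B|) {z : ℂ} (hz : ‖z‖ ≤ 7 / 250) (q : ι → ℂ)
    (hq : ∀ h, ‖q h‖ ≤ 1)
    (he : (B : ℂ) * z + 1 = -(Complex.I / Real.pi) * ∑ h, GT.ath (GT.tz z * q h)) :
    ‖z‖ ≤ 0.02086 ∧ |B| * ‖z‖ ≤ 1.0427 := by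
  have hpi := Real.pi_pos
  have hz1 : ‖(Real.pi : ℂ) * z‖ ≤ 1 / 10 := (xl_pi_norm hz).trans (by norm_num)
  have hnp : ‖(Real.pi : ℂ) * z‖ = Real.pi * ‖z‖ := by
    rw [norm_mul, Complex.norm_real, Real.norm_of_nonneg hpi.le]
  have hs : ‖∑ h, GT.ath (GT.tz z * q h)‖ ≤ (Fintype.card ι : ℝ) * (1.021 * (Real.pi * ‖z‖)) := by
    refine (norm_sum_le _ _).trans ?_
    rw [← nsmul_eq_mul]
    apply Finset.sum_le_card_nsmul
    intro h _
    rw [← hnp]
    exact xl_ring0 hz1 (hq h)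
  have hI : ‖-(Complex.I / (Real.pi : ℂ))‖ = 1 / Real.pi := by
    rw [norm_neg, norm_div, Complex.norm_I, Complex.norm_real, Real.norm_of_nonneg hpi.le]
  have h1 : ‖(B : ℂ) * z + 1‖ ≤ (Fintype.card ι : ℝ) * (1.021 * ‖z‖) := by
    rw [he, norm_mul, hI]
    calc 1 / Real.pi * ‖∑ h, GT.ath (GT.tz z * q h)‖
        ≤ 1 / Real.pi * ((Fintype.card ι : ℝ) * (1.021 * (Real.pi * ‖z‖))) :=
          mul_le_mul_of_nonneg_left hs (by positivity)
      _ = (Fintype.card ι : ℝ) * (1.021 * ‖z‖) := by field_simp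
  have h2 : |B| * ‖z‖ ≤ 1 + (Fintype.card ι : ℝ) * (1.021 * ‖z‖) := by
    have e : |B| * ‖z‖ = ‖(B : ℂ) * z‖ := by
      rw [norm_mul, Complex.norm_real, Real.norm_eq_abs]
    have e2 : (B : ℂ) * z = ((B : ℂ) * z + 1) - 1 := by ring
    rw [e, e2]
    refine (norm_sub_le _ _).trans ?_
    rw [norm_one]
    linarith
  have h3 : 25 * (Fintype.card ι : ℝ) * ‖z‖ ≤ |B| * ‖z‖ :=
    mul_le_mul_of_nonneg_right hd (norm_nonneg _)
  have h4 : |B| * ‖z‖ ≤ 1.0427 := by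
    norm_num at h2 ⊢
    linarith
  refine ⟨?_, h4⟩
  have h5 : 50 * ‖z‖ ≤ |B| * ‖z‖ := mul_le_mul_of_nonneg_right hB (norm_nonneg _)
  norm_num at h4 ⊢
  linarith

/-- the real inequalities -/
lemma xl_real {lam B σ ρ n : ℝ} (hl : 0 < lam) (hlB : 25 ≤ lam * |B|) (hB : 50 ≤ |B|)
    (hσ : |σ| ≤ n) (hn : n ≤ 0.02086) (hn2 : |B| * n ≤ 1.0427)
    (h1 : |-(lam * B * ρ) - σ| ≤ 67 / 5000 * n) (h2 : |lam * (B * σ + 1) - ρ| ≤ 67 / 5000 * n) :
    0 < ρ ∧ ρ ≤ 21 / 25000 ∧ lam * ρ * |B| ≤ 21 / 1000 ∧ lam * ρ ≤ 21 / 50000 := by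
  have hn0 : 0 ≤ n := (abs_nonneg _).trans hσ
  have hB0 : (0 : ℝ) < |B| := by linarith
  have key : ∀ s : ℝ, |σ| ≤ s → lam * |B| * |ρ| ≤ s + 67 / 5000 * n := by
    intro s hs
    have e : lam * |B| * |ρ| = |lam * B * ρ| := by
      rw [abs_mul, abs_mul, abs_of_pos hl]
    rw [e]
    have h3 : |lam * B * ρ| = |-(-(lam * B * ρ) - σ) - σ| := by congr 1; ring
    rw [h3]
    have h4 := abs_sub (-(-(lam * B * ρ) - σ)) σ
    rw [abs_neg] at h4
    linarith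
  have keyρ : ∀ s : ℝ, lam * |B| * |ρ| ≤ s → lam * |ρ| ≤ s / 50 := by
    intro s hs
    rw [le_div_iff₀ (by norm_num)]
    have : lam * |ρ| * 50 ≤ lam * |ρ| * |B| :=
      mul_le_mul_of_nonneg_left hB (mul_nonneg hl.le (abs_nonneg _))
    linarith
  have keyρ2 : ∀ s : ℝ, lam * |B| * |ρ| ≤ s → |ρ| ≤ s / 25 := by
    intro s hs
    rw [le_div_iff₀ (by norm_num)]
    have : 25 * |ρ| ≤ lam * |B| * |ρ| := mul_le_mul_of_nonneg_right hlB (abs_nonneg _)
    linarith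
  have a1 := keyρ2 _ (key n hσ)
  have a2 : |lam * (B * σ + 1)| ≤ |ρ| + 67 / 5000 * n := by
    have e : lam * (B * σ + 1) = (lam * (B * σ + 1) - ρ) + ρ := by ring
    rw [e]
    refine (abs_add_le _ _).trans ?_
    linarith
  have a4 : |B * σ + 1| ≤ 0.0023 := by
    rw [abs_mul, abs_of_pos hl] at a2
    have a3 := mul_le_mul_of_nonneg_left a2 hB0.le
    have a5 : 25 * |B * σ + 1| ≤ lam * |B| * |B * σ + 1| :=
      mul_le_mul_of_nonneg_right hlB (abs_nonneg _)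
    have a6 := mul_le_mul_of_nonneg_left a1 hB0.le
    norm_num at hn2 ⊢
    nlinarith
  have a5 : |σ| ≤ 1.0023 / 50 := by
    have e : |B| * |σ| ≤ 1.0023 := by
      rw [← abs_mul]
      have e : B * σ = (B * σ + 1) - 1 := by ring
      rw [e]
      refine (abs_sub _ _).trans ?_
      rw [abs_one]
      norm_num at a4 ⊢
      linarith
    rw [le_div_iff₀ (by norm_num)]
    have : |σ| * 50 ≤ |σ| * |B| := mul_le_mul_of_nonneg_left hB (abs_nonneg _)
    linarith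
  have b1 := key _ a5
  have b2 := keyρ _ b1
  have b3 := keyρ2 _ b1
  have c1 : 0 < lam * B ^ 2 * ρ := by
    have e : lam * B ^ 2 * ρ = -(B * σ + 1) + 1 - B * (-(lam * B * ρ) - σ) := by ring
    have h3 : |B * (-(lam * B * ρ) - σ)| ≤ 0.014 := by
      rw [abs_mul]
      have := mul_le_mul_of_nonneg_left h1 (abs_nonneg B)
      norm_num at hn2 ⊢
      linarith
    rw [e]
    have h4 := (abs_le.1 a4)
    have h5 := (abs_le.1 h3)
    norm_num at h4 h5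
    linarith [h4.2, h5.2]
  have hρ : 0 < ρ := by
    have hB2 : 0 < lam * B ^ 2 := by
      apply mul_pos hl
      have : B ≠ 0 := by
        intro h
        rw [h, abs_zero] at hB0
        exact lt_irrefl _ hB0
      positivity
    exact (mul_pos_iff_of_pos_left hB2).1 c1
  rw [abs_of_pos hρ] at b1 b2 b3
  norm_num at hn b1 b2 b3
  refine ⟨hρ, ?_, ?_, ?_⟩ <;> norm_num <;> linarith

/-- the data at a vertex -/
theorem xl_vert {ι : Type*} [Fintype ι] [Nonempty ι] {B : ℝ} (hB : 50 ≤ |B|)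
    (hd : 25 * (Fintype.card ι : ℝ) ≤ |B|) {z : ℂ} (hz : ‖z‖ ≤ 0.02086)
    (hz2 : |B| * ‖z‖ ≤ 1.0427) (q : ι → ℂ) (hq : ∀ h, ‖q h‖ ≤ 1)
    (hq1 : ∀ h, ‖q h - 1‖ ≤ 22 / 5000)
    (he : (B : ℂ) * z + 1 = -(Complex.I / Real.pi) * ∑ h, GT.ath (GT.tz z * q h)) :
    (0 < z.im ∧ z.im ≤ 21 / 25000 ∧ (Fintype.card ι : ℝ)⁻¹ * z.im * |B| ≤ 21 / 1000 ∧
      (Fintype.card ι : ℝ)⁻¹ * z.im ≤ 21 / 50000) ∧
    ∀ h, |(-(2 * GT.ath (GT.tz z * q h))).re -
      2 * Real.pi * (Fintype.card ι : ℝ)⁻¹ * z.im * B| ≤ 1 / 500 := by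
  have hpi := Real.pi_pos
  have hpic : (Real.pi : ℂ) ≠ 0 := by exact_mod_cast hpi.ne'
  have hdp : (0 : ℝ) < (Fintype.card ι : ℝ) := by exact_mod_cast Fintype.card_pos
  have hz1 : ‖(Real.pi : ℂ) * z‖ ≤ 33 / 500 := (xl_pi_norm hz).trans (by norm_num)
  have hnp : ‖(Real.pi : ℂ) * z‖ = Real.pi * ‖z‖ := by
    rw [norm_mul, Complex.norm_real, Real.norm_of_nonneg hpi.le]
  set d : ℝ := (Fintype.card ι : ℝ) with hdd
  set A : ι → ℂ := fun h => GT.ath (GT.tz z * q h) with hA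
  have hsum : ‖∑ h, A h - (d : ℂ) * (Real.pi * z)‖ ≤ d * (67 / 5000 * (Real.pi * ‖z‖)) := by
    have e : ∑ h, A h - (d : ℂ) * (Real.pi * z) = ∑ h, (A h - Real.pi * z) := by
      rw [Finset.sum_sub_distrib, Finset.sum_const, nsmul_eq_mul, hdd, Complex.ofReal_natCast]
      rfl
    rw [e]
    refine (norm_sum_le _ _).trans ?_
    rw [hdd, ← nsmul_eq_mul]
    apply Finset.sum_le_card_nsmul
    intro h _
    rw [← hnp]
    exact xl_ring hz1 (hq h) (hq1 h)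
  have e1 : ((d⁻¹ : ℝ) : ℂ) * Complex.I * ((B : ℂ) * z + 1) =
      ((d⁻¹ / Real.pi : ℝ) : ℂ) * ∑ h, A h := by
    rw [he, Complex.ofReal_div]
    linear_combination (-((d⁻¹ : ℝ) : ℂ) / Real.pi * ∑ h, A h) * Complex.I_sq
  have e2 : ‖((d⁻¹ : ℝ) : ℂ) * Complex.I * ((B : ℂ) * z + 1) - z‖ ≤ 67 / 5000 * ‖z‖ := by
    have e3 : ((d⁻¹ : ℝ) : ℂ) * Complex.I * ((B : ℂ) * z + 1) - z =
        ((d⁻¹ / Real.pi : ℝ) : ℂ) * (∑ h, A h - (d : ℂ) * (Real.pi * z)) := by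
      have hdc : (d : ℂ) ≠ 0 := by exact_mod_cast hdp.ne'
      rw [e1, Complex.ofReal_div, Complex.ofReal_inv]
      field_simp
    rw [e3, norm_mul, Complex.norm_real, Real.norm_of_nonneg (by positivity)]
    calc d⁻¹ / Real.pi * ‖∑ h, A h - (d : ℂ) * (Real.pi * z)‖
        ≤ d⁻¹ / Real.pi * (d * (67 / 5000 * (Real.pi * ‖z‖))) :=
          mul_le_mul_of_nonneg_left hsum (by positivity)
      _ = 67 / 5000 * ‖z‖ := by field_simp
  have r1 : (((d⁻¹ : ℝ) : ℂ) * Complex.I * ((B : ℂ) * z + 1)).re = -(d⁻¹ * B * z.im) := by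
    simp
    ring
  have r2 : (((d⁻¹ : ℝ) : ℂ) * Complex.I * ((B : ℂ) * z + 1)).im = d⁻¹ * (B * z.re + 1) := by
    simp
  have h1 : |-(d⁻¹ * B * z.im) - z.re| ≤ 67 / 5000 * ‖z‖ := by
    rw [← r1, ← Complex.sub_re]
    exact (Complex.abs_re_le_norm _).trans e2
  have h2 : |d⁻¹ * (B * z.re + 1) - z.im| ≤ 67 / 5000 * ‖z‖ := by
    rw [← r2, ← Complex.sub_im]
    exact (Complex.abs_im_le_norm _).trans e2
  refine ⟨?_, ?_⟩
  · apply xl_real (inv_pos.2 hdp) _ hB (Complex.abs_re_le_norm z) hz hz2 h1 h2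
    rw [inv_mul_eq_div, le_div_iff₀ hdp]
    exact hd
  · intro h
    have t1 := xl_tan_le (by norm_num : (33 / 500 : ℝ) < 1) hz1
    have t2 : ‖GT.tz z‖ ≤ 0.0663 := by
      refine t1.trans ?_
      have : 1 / (1 - (33 / 500 : ℝ) ^ 2) ≤ 1.0044 := by norm_num
      refine (mul_le_mul this hz1 (norm_nonneg _) (by norm_num)).trans ?_
      norm_num
    have t3 : ∀ k, ‖GT.tz z * q k‖ ≤ 0.0663 := by
      intro k
      rw [norm_mul]
      exact (mul_le_of_le_one_right (norm_nonneg _) (hq k)).trans t2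
    have t4 : ∀ k, ‖A k - A h‖ ≤ 0.0006 := by
      intro k
      refine (GT.ath_lip (by norm_num : (0.0663 : ℝ) < 1) (t3 k) (t3 h)).trans ?_
      have e5 : GT.tz z * q k - GT.tz z * q h = GT.tz z * ((q k - 1) - (q h - 1)) := by ring
      have e6 : ‖(q k - 1) - (q h - 1)‖ ≤ 44 / 5000 := by
        refine (norm_sub_le _ _).trans ?_
        have a1 := hq1 k
        have a2 := hq1 h
        linarith
      have e7 : ‖GT.tz z * q k - GT.tz z * q h‖ ≤ 0.0663 * (44 / 5000) := by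
        rw [e5, norm_mul]
        exact mul_le_mul t2 e6 (norm_nonneg _) (by norm_num)
      have : 1 / (1 - (0.0663 : ℝ) ^ 2) ≤ 1.005 := by norm_num
      refine (mul_le_mul this e7 (norm_nonneg _) (by norm_num)).trans ?_
      norm_num
    have e8 : -(d⁻¹ * B * z.im) = d⁻¹ / Real.pi * (∑ k, A k).re := by
      rw [← r1, e1, Complex.re_ofReal_mul]
    have e9 : (-(2 * GT.ath (GT.tz z * q h))).re - 2 * Real.pi * d⁻¹ * z.im * B =
        2 * (d⁻¹ * (∑ k, (A k - A h)).re) := by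
      have f1 : (∑ k, (A k - A h)).re = (∑ k, A k).re - d * (A h).re := by
        rw [Finset.sum_sub_distrib, Complex.sub_re, Finset.sum_const, nsmul_eq_mul,
          Finset.card_univ, ← Complex.ofReal_natCast, Complex.re_ofReal_mul, hdd]
      have f2 : (-(2 * GT.ath (GT.tz z * q h))).re = -(2 * (A h).re) := by
        rw [Complex.neg_re, show (2 : ℂ) = ((2 : ℝ) : ℂ) by norm_num, Complex.re_ofReal_mul]
      rw [f1, f2]
      have f3 : 2 * Real.pi * d⁻¹ * z.im * B = -(2 * Real.pi) * -(d⁻¹ * B * z.im) := by ring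
      rw [f3, e8]
      field_simp
      ring
    rw [e9, abs_mul, abs_mul, abs_of_pos (inv_pos.2 hdp), abs_two]
    have e10 : |(∑ k, (A k - A h)).re| ≤ d * 0.0006 := by
      refine (Complex.abs_re_le_norm _).trans ((norm_sum_le _ _).trans ?_)
      rw [hdd, ← nsmul_eq_mul]
      apply Finset.sum_le_card_nsmul
      intro k _
      exact t4 k
    have e11 : d⁻¹ * |(∑ k, (A k - A h)).re| ≤ 0.0006 := by
      rw [inv_mul_eq_div, div_le_iff₀ hdp, mul_comm]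
      exact e10
    norm_num at e11 ⊢
    linarith

/-! ### one ring -/

/-- `K - 1` is small -/
lemma xl_K {ζ ζ' : ℂ} (hz : ‖ζ‖ ≤ 0.02086) (hz' : ‖ζ'‖ ≤ 0.02086) :
    ‖1 + GT.tz ζ ^ 2 + GT.tz ζ' ^ 2 - 1‖ ≤ 22 / 2500 := by
  have key : ∀ x : ℂ, ‖x‖ ≤ 0.02086 → ‖GT.tz x ^ 2‖ ≤ 11 / 2500 := by
    intro x hx
    have hz1 : ‖(Real.pi : ℂ) * x‖ ≤ 0.06554 := (xl_pi_norm hx).trans (by norm_num)
    have t1 := xl_tan_le (by norm_num : (0.06554 : ℝ) < 1) hz1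
    have t2 : ‖GT.tz x‖ ≤ 0.06583 := by
      refine t1.trans ?_
      have : 1 / (1 - (0.06554 : ℝ) ^ 2) ≤ 1.00432 := by norm_num
      refine (mul_le_mul this hz1 (norm_nonneg _) (by norm_num)).trans ?_
      norm_num
    rw [norm_pow]
    refine (pow_le_pow_left₀ (norm_nonneg _) t2 2).trans ?_
    norm_num
  rw [show 1 + GT.tz ζ ^ 2 + GT.tz ζ' ^ 2 - 1 = GT.tz ζ ^ 2 + GT.tz ζ' ^ 2 by ring]
  refine (norm_add_le _ _).trans ?_
  have := key ζ hz
  have := key ζ' hz'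
  linarith

/-- the factor `q` is close to `1` -/
lemma xl_q {ζ ζ' : ℂ} (hz : ‖ζ‖ ≤ 0.02086) (hz' : ‖ζ'‖ ≤ 0.02086) (hD : ZDom ζ) (hD' : ZDom ζ') :
    ‖GT.isq (1 + GT.tz ζ ^ 2 + GT.tz ζ' ^ 2) - 1‖ ≤ 22 / 5000 := by
  obtain ⟨hK1, -, -⟩ := xs_K hD hD'
  obtain ⟨-, -, h3⟩ := xl_isq hK1
  have := xl_K hz hz'
  linarith

/-- imaginary part of `tan (π ζ)` -/
lemma xl_tz_im {ζ : ℂ} (hz : ‖ζ‖ ≤ 0.02086) (hi : |ζ.im| ≤ 21 / 25000) :
    ‖GT.tz ζ‖ ≤ 0.0663 ∧ |(GT.tz ζ).im| ≤ 0.0027 := by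
  have hz1 : ‖(Real.pi : ℂ) * ζ‖ ≤ 33 / 500 := (xl_pi_norm hz).trans (by norm_num)
  have hz2 : ‖(Real.pi : ℂ) * (ζ.re : ℂ)‖ ≤ 33 / 500 := by
    refine (xl_pi_norm (c := 0.02086) ?_).trans (by norm_num)
    rw [Complex.norm_real, Real.norm_eq_abs]
    exact (Complex.abs_re_le_norm ζ).trans hz
  constructor
  · have t1 := xl_tan_le (by norm_num : (33 / 500 : ℝ) < 1) hz1
    refine t1.trans ?_
    have : 1 / (1 - (33 / 500 : ℝ) ^ 2) ≤ 1.0044 := by norm_num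
    refine (mul_le_mul this hz1 (norm_nonneg _) (by norm_num)).trans ?_
    norm_num
  · have t2 := xl_tan_lip (by norm_num : (33 / 500 : ℝ) < 1) hz1 hz2
    have t3 : (Complex.tan ((Real.pi : ℂ) * (ζ.re : ℂ))).im = 0 := by
      rw [← Complex.ofReal_mul, ← Complex.ofReal_tan, Complex.ofReal_im]
    have t4 : (GT.tz ζ).im = (Complex.tan ((Real.pi : ℂ) * ζ) -
        Complex.tan ((Real.pi : ℂ) * (ζ.re : ℂ))).im := by
      rw [Complex.sub_im, t3, sub_zero]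
      rfl
    rw [t4]
    refine (Complex.abs_im_le_norm _).trans (t2.trans ?_)
    have t5 : (Real.pi : ℂ) * ζ - Real.pi * (ζ.re : ℂ) = Real.pi * (ζ.im * Complex.I) := by
      linear_combination (-(Real.pi : ℂ)) * Complex.re_add_im ζ
    have t6 : ‖(Real.pi : ℂ) * ζ - Real.pi * (ζ.re : ℂ)‖ ≤ 3.1416 * (21 / 25000) := by
      rw [t5]
      apply xl_pi_norm
      rw [norm_mul, Complex.norm_I, mul_one, Complex.norm_real, Real.norm_eq_abs]
      exact hi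
    have : 1 / (1 - (33 / 500 : ℝ) ^ 2) ≤ 1.0044 := by norm_num
    refine (mul_le_mul this t6 (norm_nonneg _) (by norm_num)).trans ?_
    norm_num

/-- `artanh` is imaginary on the imaginary axis -/
lemma xl_ath_I (x : ℝ) : (GT.ath (Complex.I * x)).re = 0 := by
  unfold GT.ath
  rw [show ∀ u : ℂ, u / 2 = ((1 / 2 : ℝ) : ℂ) * u by intro u; push_cast; ring,
    Complex.re_ofReal_mul, Complex.sub_re, Complex.log_re, Complex.log_re]
  have e : ‖1 + Complex.I * (x : ℂ)‖ = ‖1 - Complex.I * (x : ℂ)‖ := by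
    rw [← sq_eq_sq₀ (norm_nonneg _) (norm_nonneg _), Complex.sq_norm, Complex.sq_norm,
      Complex.normSq_apply, Complex.normSq_apply]
    simp
  rw [e, sub_self, mul_zero]

/-- imaginary part of the hinge variable -/
lemma xl_w_im {K : ℂ} (hK : 1 ≤ K.re) (hK1 : ‖K - 1‖ ≤ 22 / 2500)
    (hK2 : |(K - 1).im| ≤ 0.00072) : |(yq (GT.isq K)).im| ≤ 1 / 5000 := by
  obtain ⟨q1, q2, q3⟩ := xl_isq hK
  obtain ⟨p1, p2, p3, p4⟩ := xs_isq hK
  unfold yq
  generalize GT.isq K = q at *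
  set s : ℂ := K - 1 with hs
  have hq1 : q + 1 ≠ 0 := by
    intro h
    have := congrArg Complex.re h
    rw [Complex.add_re, Complex.one_re, Complex.zero_re] at this
    linarith
  have hp : (1 + q⁻¹) ≠ 0 := by
    intro h
    rw [h, norm_zero] at p4
    linarith
  -- the value of v
  have hv : (q - 1) / (q + 1) = -(1 / 4 * s) - s * (1 / (1 + q⁻¹) ^ 2 - 1 / 4) := by
    have e1 : K = q⁻¹ ^ 2 := by
      rw [inv_pow]
      field_simp
      linear_combination p3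
    have e2 : s = (q⁻¹ - 1) * (1 + q⁻¹) := by rw [hs, e1]; ring
    have e3 : (q - 1) / (q + 1) = -((q⁻¹ - 1) / (1 + q⁻¹)) := by
      have : q * (1 + q⁻¹) = q + 1 := by
        rw [mul_add, mul_inv_cancel₀ q1, mul_one]
      rw [← this]
      field_simp
      ring
    have e4 : -(1 / 4 * s) - s * (1 / (1 + q⁻¹) ^ 2 - 1 / 4) = -(s / (1 + q⁻¹) ^ 2) := by ring
    have e5 : ∀ R P : ℂ, P ≠ 0 → R / P = R * P / P ^ 2 := by
      intro R P h
      field_simp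
    rw [e4, e3, e2, e5 _ _ hp]
  have hb : ‖(1 : ℂ) / (1 + q⁻¹) ^ 2 - 1 / 4‖ ≤ ‖s‖ / 8 := by
    have e1 : (1 : ℂ) / (1 + q⁻¹) ^ 2 - 1 / 4 =
        -((q⁻¹ - 1) * ((1 + q⁻¹) + 2) / (4 * (1 + q⁻¹) ^ 2)) := by
      field_simp
      ring
    rw [e1, norm_neg, norm_div, norm_mul, norm_mul, norm_pow]
    have n4 : ‖(4 : ℂ)‖ = 4 := by norm_num
    rw [n4]
    have n5 : ‖(1 + q⁻¹) + 2‖ ≤ 2 * ‖1 + q⁻¹‖ := by
      refine (norm_add_le _ _).trans ?_
      have : ‖(2 : ℂ)‖ = 2 := by norm_num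
      rw [this]
      linarith
    have hpos : 0 < ‖1 + q⁻¹‖ := by linarith
    rw [div_le_iff₀ (by positivity)]
    have m1 : ‖q⁻¹ - 1‖ * ‖(1 + q⁻¹) + 2‖ ≤ ‖s‖ / 2 * (2 * ‖1 + q⁻¹‖) :=
      mul_le_mul q2 n5 (norm_nonneg _) (by positivity)
    have m2 : ‖s‖ * ‖1 + q⁻¹‖ * 2 ≤ ‖s‖ * ‖1 + q⁻¹‖ * ‖1 + q⁻¹‖ :=
      mul_le_mul_of_nonneg_left p4 (by positivity)
    nlinarith
  set v : ℂ := (q - 1) / (q + 1) with hvd
  have hvi : |v.im| ≤ 0.0002 := by
    rw [hv, Complex.sub_im, Complex.neg_im,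
      show (1 / 4 : ℂ) * s = ((1 / 4 : ℝ) : ℂ) * s by push_cast; ring, Complex.im_ofReal_mul]
    have m1 : |(s * (1 / (1 + q⁻¹) ^ 2 - 1 / 4)).im| ≤ 0.00001 := by
      refine (Complex.abs_im_le_norm _).trans ?_
      rw [norm_mul]
      refine (mul_le_mul hK1 (hb.trans (div_le_div_of_nonneg_right hK1 (by norm_num)))
        (norm_nonneg _) (by norm_num)).trans ?_
      norm_num
    rw [abs_le] at hK2 m1 ⊢
    norm_num at hK2 m1 ⊢
    constructor <;> linarith [hK2.1, hK2.2, m1.1, m1.2]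
  have hvn : ‖v‖ ≤ 1 / 10 := by
    rw [hv]
    refine (norm_sub_le _ _).trans ?_
    rw [norm_neg, norm_mul, norm_mul]
    have : ‖(1 / 4 : ℂ)‖ = 1 / 4 := by norm_num
    rw [this]
    have m2 := mul_le_mul hK1 (hb.trans (div_le_div_of_nonneg_right hK1 (by norm_num)))
        (norm_nonneg _) (by norm_num : (0 : ℝ) ≤ 22 / 2500)
    norm_num at m2 hK1 ⊢
    linarith
  have hi1 : ‖Complex.I * v‖ ≤ 1 / 10 := by rw [norm_mul, Complex.norm_I, one_mul]; exact hvn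
  have hi2 : ‖Complex.I * (v.re : ℂ)‖ ≤ 1 / 10 := by
    rw [norm_mul, Complex.norm_I, one_mul, Complex.norm_real, Real.norm_eq_abs]
    exact (Complex.abs_re_le_norm v).trans hvn
  have hl := GT.ath_lip (by norm_num : (1 / 10 : ℝ) < 1) hi1 hi2
  have hr : |(GT.ath (Complex.I * v)).re| ≤ 0.00021 := by
    have e1 : (GT.ath (Complex.I * v)).re = (GT.ath (Complex.I * v) -
        GT.ath (Complex.I * (v.re : ℂ))).re := by
      rw [Complex.sub_re, xl_ath_I, sub_zero]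
    rw [e1]
    refine (Complex.abs_re_le_norm _).trans (hl.trans ?_)
    have e2 : ‖Complex.I * v - Complex.I * (v.re : ℂ)‖ = |v.im| := by
      have e3 : Complex.I * v - Complex.I * (v.re : ℂ) = -(v.im : ℂ) := by
        linear_combination (-Complex.I) * Complex.re_add_im v + (v.im : ℂ) * Complex.I_sq
      rw [e3, norm_neg, Complex.norm_real, Real.norm_eq_abs]
    rw [e2]
    have : 1 / (1 - (1 / 10 : ℝ) ^ 2) ≤ 1.02 := by norm_num
    refine (mul_le_mul this hvi (abs_nonneg _) (by norm_num)).trans ?_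
    norm_num
  have e4 : (1 / 4 - Complex.I / Real.pi * GT.ath (Complex.I * v)).im =
      -(1 / Real.pi * (GT.ath (Complex.I * v)).re) := by
    have e5 : Complex.I / (Real.pi : ℂ) * GT.ath (Complex.I * v) =
        ((1 / Real.pi : ℝ) : ℂ) * (Complex.I * GT.ath (Complex.I * v)) := by
      push_cast
      ring
    rw [Complex.sub_im, e5, Complex.im_ofReal_mul, Complex.I_mul_im]
    norm_num
  rw [e4, abs_neg, abs_mul, abs_of_pos (by positivity)]
  have hpi : 1 / Real.pi ≤ 1 / 3 :=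
    one_div_le_one_div_of_le (by norm_num) Real.pi_gt_three.le
  refine (mul_le_mul hpi hr (abs_nonneg _) (by norm_num)).trans ?_
  norm_num

/-- the logarithms of the cosines -/
lemma xl_log {x : ℂ} (hx : ‖x‖ ≤ 33 / 500) :
    0.9956 ≤ ‖Complex.cos x ^ 2‖ ∧ ‖Complex.cos x ^ 2‖ ≤ 1.0044 := by
  constructor
  · refine le_trans ?_ (xl_cos (by norm_num : (33 / 500 : ℝ) < 1) hx).2
    norm_num
  · rw [norm_pow, Complex.sq_norm, GT.normSq_cos]
    have h1 := Real.cos_sq_le_one x.re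
    have h2 : |x.im| ≤ 33 / 500 := (Complex.abs_im_le_norm x).trans hx
    have h3 := GT.sinh_sq_le (y := x.im) (lt_of_le_of_lt h2 (by norm_num))
    have h4 : x.im ^ 2 ≤ (33 / 500) ^ 2 := by
      rw [← sq_abs]
      exact pow_le_pow_left₀ (abs_nonneg _) h2 2
    have h5 : x.im ^ 2 / (1 - x.im ^ 2) ≤ 0.0044 := by
      rw [div_le_iff₀ (by norm_num at h4 ⊢; linarith)]
      norm_num at h4 ⊢
      linarith
    norm_num at h5 ⊢
    linarith

lemma xl_ph_re (x : ℂ) (h : Complex.sin (Real.pi * x) ≠ 0) :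
    (ph x).re = Real.log 2 + Real.log ‖Complex.sin (Real.pi * x)‖ := by
  unfold ph
  rw [Complex.log_re, norm_mul, Real.log_mul (by norm_num) (norm_ne_zero_iff.2 h)]
  norm_num

/-- the growth of the ring in the variable `w` -/
lemma xl_rcw {w ζ ζ' : ℂ} (h0 : 0 < w.re) (h1 : w.re < 1 / 2) (hz : ‖ζ‖ ≤ 0.02086)
    (hz' : ‖ζ'‖ ≤ 0.02086) (ht : tw w ζ ζ' = 0) : |(rcw w ζ).re| ≤ 1 / 100 := by
  obtain ⟨⟨n1, n2⟩, hC⟩ := xl_hinge h0 h1 (hz.trans (by norm_num)) (hz'.trans (by norm_num)) ht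
  have hz1 : ‖(Real.pi : ℂ) * ζ‖ ≤ 33 / 500 := (xl_pi_norm hz).trans (by norm_num)
  have hz2 : ‖(Real.pi : ℂ) * ζ'‖ ≤ 33 / 500 := (xl_pi_norm hz').trans (by norm_num)
  obtain ⟨l1, l2⟩ := xl_log hz1
  obtain ⟨m1, m2⟩ := xl_log hz2
  have hs0 : Complex.sin (Real.pi * w) ≠ 0 := by
    intro h
    rw [Complex.sin_eq_zero_iff] at h
    obtain ⟨k, hk⟩ := h
    have hpi : (Real.pi : ℂ) ≠ 0 := by exact_mod_cast Real.pi_ne_zero
    have e : w = k := by
      apply mul_left_cancel₀ hpi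
      rw [hk]; ring
    have e2 := congrArg Complex.re e
    rw [Complex.intCast_re] at e2
    rw [e2] at h0 h1
    have a1 : (0 : ℤ) < k := by exact_mod_cast h0
    have a2 : (k : ℝ) < 1 := by linarith
    have a3 : k < 1 := by exact_mod_cast a2
    omega
  have s1 : Complex.sin (Real.pi * (w + 1 / 2 + ζ)) = Complex.cos (Real.pi * (w + ζ)) := by
    rw [← Complex.sin_add_pi_div_two]
    congr 1
    ring
  have s2 : Complex.sin (Real.pi * (w + 1 / 2 - ζ)) = Complex.cos (Real.pi * (w - ζ)) := by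
    rw [← Complex.sin_add_pi_div_two]
    congr 1
    ring
  have pr : Complex.cos (Real.pi * (w + ζ)) * Complex.cos (Real.pi * (w - ζ)) =
      Complex.cos (Real.pi * w) ^ 2 - Complex.sin (Real.pi * ζ) ^ 2 := by
    rw [mul_add, mul_sub, Complex.cos_add, Complex.cos_sub]
    linear_combination Complex.cos (Real.pi * w) ^ 2 * Complex.sin_sq_add_cos_sq (Real.pi * ζ) -
      Complex.sin (Real.pi * ζ) ^ 2 * Complex.sin_sq_add_cos_sq (Real.pi * w)
  have key : Complex.cos (Real.pi * (w + ζ)) * Complex.cos (Real.pi * (w - ζ)) *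
      Complex.cos (Real.pi * ζ') ^ 2 = Complex.sin (Real.pi * w) ^ 2 *
        Complex.cos (Real.pi * ζ) ^ 2 := by
    have c1 := Complex.sin_sq_add_cos_sq (Real.pi * ζ)
    have c2 := Complex.sin_sq_add_cos_sq (Real.pi * ζ')
    have c3 := Complex.sin_sq_add_cos_sq (Real.pi * w)
    have d1 : Complex.cos (Real.pi * ζ) ^ 2 = 1 - Complex.sin (Real.pi * ζ) ^ 2 := by
      linear_combination c1
    have d2 : Complex.cos (Real.pi * ζ') ^ 2 = 1 - Complex.sin (Real.pi * ζ') ^ 2 := by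
      linear_combination c2
    have d3 : Complex.sin (Real.pi * w) ^ 2 = 1 - Complex.cos (Real.pi * w) ^ 2 := by
      linear_combination c3
    rw [pr, d1, d2, d3]
    linear_combination hC
  have hN := congrArg norm key
  rw [norm_mul, norm_mul, norm_mul, norm_pow (Complex.sin (Real.pi * w))] at hN
  have hL := congrArg Real.log hN
  have p1 : 0 < ‖Complex.cos (Real.pi * (w + ζ))‖ := norm_pos_iff.2 n1
  have p2 : 0 < ‖Complex.cos (Real.pi * (w - ζ))‖ := norm_pos_iff.2 n2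
  have p3 : 0 < ‖Complex.sin (Real.pi * w)‖ := norm_pos_iff.2 hs0
  have p4 : 0 < ‖Complex.cos (Real.pi * ζ) ^ 2‖ := by
    norm_num at l1 ⊢; linarith
  have p5 : 0 < ‖Complex.cos (Real.pi * ζ') ^ 2‖ := by
    norm_num at m1 ⊢; linarith
  rw [Real.log_mul (mul_pos p1 p2).ne' p5.ne', Real.log_mul p1.ne' p2.ne',
    Real.log_mul (pow_pos p3 2).ne' p4.ne', Real.log_pow] at hL
  have hR : (rcw w ζ).re = Real.log ‖Complex.cos (Real.pi * (w + ζ))‖ +
      Real.log ‖Complex.cos (Real.pi * (w - ζ))‖ - 2 * Real.log ‖Complex.sin (Real.pi * w)‖ := by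
    unfold rcw
    rw [Complex.sub_re, Complex.add_re, xl_ph_re _ (by rw [s1]; exact n1),
      xl_ph_re _ (by rw [s2]; exact n2),
      show (2 : ℂ) * ph w = ((2 : ℝ) : ℂ) * ph w by norm_num, Complex.re_ofReal_mul,
      xl_ph_re _ hs0, s1, s2]
    ring
  have hR2 : (rcw w ζ).re = Real.log ‖Complex.cos (Real.pi * ζ) ^ 2‖ -
      Real.log ‖Complex.cos (Real.pi * ζ') ^ 2‖ := by
    rw [hR]
    push_cast at hL
    linarith
  rw [hR2]
  generalize ‖Complex.cos (Real.pi * ζ) ^ 2‖ = a at *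
  generalize ‖Complex.cos (Real.pi * ζ') ^ 2‖ = b at *
  have g : ∀ a b : ℝ, 0 < a → 0 < b → 0.9956 ≤ b → a ≤ 1.0044 → Real.log a - Real.log b ≤ 1 / 100 := by
    intro a b ha hb h1 h2
    rw [← Real.log_div ha.ne' hb.ne']
    refine (Real.log_le_sub_one_of_pos (div_pos ha hb)).trans ?_
    have : a / b ≤ 1.01 := by
      rw [div_le_iff₀ hb]
      norm_num at h1 h2 ⊢
      linarith
    norm_num at this ⊢
    linarith
  rw [abs_le]
  constructor
  · have := g b a p5 p4 l1 m2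
    linarith
  · exact g a b p4 p5 m1 l2

/-- all data of a ring -/
theorem xl_ringdata {w ζ ζ' : ℂ} (h0 : 0 < w.re) (h1 : w.re < 1 / 2) (hz : ‖ζ‖ ≤ 0.02086)
    (hz' : ‖ζ'‖ ≤ 0.02086) (hi : |ζ.im| ≤ 21 / 25000) (hi' : |ζ'.im| ≤ 21 / 25000)
    (hD : ZDom ζ) (hD' : ZDom ζ') (ht : tw w ζ ζ' = 0) :
    |w.re - 1 / 4| ≤ 1 / 500 ∧ |w.im| ≤ 1 / 5000 ∧ |(rcw w ζ).re| ≤ 1 / 100 ∧
      |(rcw w ζ').re| ≤ 1 / 100 := by
  obtain ⟨-, -, a3, a4, -⟩ := xl_w h0 h1 (hz.trans (by norm_num)) (hz'.trans (by norm_num)) hD hD' ht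
  have hK := xl_K hz hz'
  obtain ⟨hK1, -, -⟩ := xs_K hD hD'
  refine ⟨?_, ?_, xl_rcw h0 h1 hz hz' ht, ?_⟩
  · have e : w.re - 1 / 4 = (w - 1 / 4).re := by
      rw [Complex.sub_re]
      norm_num
    rw [e]
    refine (Complex.abs_re_le_norm _).trans (a4.trans ?_)
    linarith
  · rw [a3]
    apply xl_w_im hK1 hK
    obtain ⟨t1, t2⟩ := xl_tz_im hz hi
    obtain ⟨t1', t2'⟩ := xl_tz_im hz' hi'
    have sqim : ∀ x : ℂ, ‖x‖ ≤ 0.0663 → |x.im| ≤ 0.0027 → |(x ^ 2).im| ≤ 0.00036 := by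
      intro x hx hx2
      have e : (x ^ 2).im = 2 * (x.re * x.im) := by
        rw [pow_two, Complex.mul_im]; ring
      rw [e, abs_mul, abs_mul, abs_two]
      have h3 : |x.re| ≤ 0.0663 := (Complex.abs_re_le_norm x).trans hx
      have h4 := mul_le_mul h3 hx2 (abs_nonneg _) (by norm_num)
      norm_num at h4 ⊢
      linarith
    have b1 := sqim _ t1 t2
    have b2 := sqim _ t1' t2'
    rw [show 1 + GT.tz ζ ^ 2 + GT.tz ζ' ^ 2 - 1 = GT.tz ζ ^ 2 + GT.tz ζ' ^ 2 by ring,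
      Complex.add_im]
    refine (abs_add_le _ _).trans ?_
    norm_num at b1 b2 ⊢
    linarith
  · apply xl_rcw h0 h1 hz' hz
    rw [xl_tw_symm]
    exact ht

end Pool.Agent.Work.MP_b30479_gt.LT
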