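import Pool.Agent.Work.MP_b30479_gt.LT.XDom
import Pool.Agent.Work.MP_b30479_gt.LT.XLocA

/-!
# Position of the critical points, 2: chains of twist regions
-/

namespace Pool.Agent.Work.MP_b30479_gt.LT

open Finset VOL AX MeasureTheory

/-- the domain of the critical point in `Sad` -/
def SadDom {M : ℕ} (b : Fin (M + 1) → ℤ) (y : Fin M → ℂ) (ζ : Fin (M + 1) → ℂ) : Prop :=
  (∀ j, 0 < (y j).re ∧ (y j).re < 1 / 2) ∧ ∀ i, ‖(b i : ℂ) * ζ i + 1‖ ≤ 2 / 5

/-- the sum over the rings of a twist region -/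
lemma xl_sum {M : ℕ} {i : Fin (M + 1)} {j : Fin M} (h : j.castSucc = i ∨ j.succ = i)
    (f : Fin M → ℂ) :
    (lamOf M i = 1 ∧ ∑ h : Fin M, ((if h.castSucc = i then f h else 0) +
      (if h.succ = i then f h else 0)) = f j) ∨
    (lamOf M i = 1 / 2 ∧ ∃ j1, ∑ h : Fin M, ((if h.castSucc = i then f h else 0) +
      (if h.succ = i then f h else 0)) = f j + f j1) := by
  rw [Finset.sum_add_distrib]
  have hc : ∀ j0 : Fin M, j0.castSucc = i →
      ∑ h : Fin M, (if h.castSucc = i then f h else 0) = f j0 := by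
    intro j0 h0
    rw [Finset.sum_eq_single j0]
    · rw [if_pos h0]
    · intro b _ hb
      rw [if_neg]
      intro hh
      exact hb (Fin.castSucc_injective M (hh.trans h0.symm))
    · intro hn
      exact absurd (Finset.mem_univ _) hn
  have hs : ∀ j0 : Fin M, j0.succ = i →
      ∑ h : Fin M, (if h.succ = i then f h else 0) = f j0 := by
    intro j0 h0
    rw [Finset.sum_eq_single j0]
    · rw [if_pos h0]
    · intro b _ hb
      rw [if_neg]
      intro hh
      exact hb (Fin.succ_injective M (hh.trans h0.symm))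
    · intro hn
      exact absurd (Finset.mem_univ _) hn
  rcases h with h | h
  · rw [hc j h]
    have hl : i ≠ Fin.last M := by
      rw [← h]
      exact (Fin.castSucc_lt_last j).ne
    by_cases hi : i = 0
    · left
      refine ⟨?_, ?_⟩
      · unfold lamOf
        rw [if_pos (Or.inl hi)]
      · rw [Finset.sum_eq_zero, add_zero]
        intro x _
        rw [if_neg]
        intro hx
        exact Fin.succ_ne_zero x (hx.trans hi)
    · right
      obtain ⟨j1, hj1⟩ := Fin.exists_succ_eq.2 hi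
      refine ⟨?_, j1, ?_⟩
      · unfold lamOf
        rw [if_neg]
        intro hh
        rcases hh with hh | hh
        · exact hi hh
        · exact hl hh
      · rw [hs j1 hj1]
  · rw [hs j h]
    have h0 : i ≠ 0 := by
      rw [← h]
      exact Fin.succ_ne_zero j
    by_cases hi : i = Fin.last M
    · left
      refine ⟨?_, ?_⟩
      · unfold lamOf
        rw [if_pos (Or.inr hi)]
      · rw [Finset.sum_eq_zero, zero_add]
        intro x _
        rw [if_neg]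
        intro hx
        exact (Fin.castSucc_lt_last x).ne (hx.trans hi)
    · right
      obtain ⟨j1, hj1⟩ := Fin.exists_castSucc_eq.2 hi
      refine ⟨?_, j1, ?_⟩
      · unfold lamOf
        rw [if_neg]
        intro hh
        rcases hh with hh | hh
        · exact h0 hh
        · exact hi hh
      · rw [hc j1 hj1, add_comm]

lemma xl_dval {M : ℕ} {ζ : Fin (M + 1) → ℂ} {i : Fin (M + 1)} {j : Fin M}
    (h : j.castSucc = i ∨ j.succ = i) : ∃ (d : ℕ) (q : Fin d → ℂ), 0 < d ∧ d ≤ 2 ∧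
      lamOf M i = (d : ℝ)⁻¹ ∧ (∃ h, q h = GT.qh ζ j) ∧ (∀ h, ∃ j', q h = GT.qh ζ j') ∧
      GT.Sm ζ i = ∑ h, GT.ath (GT.tz (ζ i) * q h) := by
  rcases xl_sum h (fun h => GT.ath (GT.tz (ζ i) * GT.qh ζ h)) with ⟨h1, h2⟩ | ⟨h1, j1, h2⟩
  · refine ⟨1, fun _ => GT.qh ζ j, one_pos, one_le_two, ?_, ⟨0, rfl⟩, fun _ => ⟨j, rfl⟩, ?_⟩
    · rw [h1]; norm_num
    · unfold GT.Sm
      rw [h2]
      simp
  · refine ⟨2, ![GT.qh ζ j, GT.qh ζ j1], two_pos, le_refl 2, ?_, ⟨0, rfl⟩, ?_, ?_⟩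
    · rw [h1]; norm_num
    · intro k
      fin_cases k
      · exact ⟨j, rfl⟩
      · exact ⟨j1, rfl⟩
    · unfold GT.Sm
      rw [h2, Fin.sum_univ_two]
      rfl

/-- position of the critical points -/
theorem locs_x {M : ℕ} (hM : 1 ≤ M) {b : Fin (M + 1) → ℤ} (hb : ∀ i, 50 ≤ |b i|)
    {y : Fin M → ℂ} {ζ : Fin (M + 1) → ℂ} (hc : Crit b y ζ) (hd : SadDom b y ζ) :
    Locs b y ζ := by
  have hpi : (Real.pi : ℂ) ≠ 0 := by exact_mod_cast Real.pi_ne_zero
  have hbr : ∀ i, (50 : ℝ) ≤ |((b i : ℤ) : ℝ)| := by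
    intro i
    have := hb i
    exact_mod_cast this
  have hz0 : ∀ i, ‖ζ i‖ ≤ 7 / 250 := by
    intro i
    have h1 := hd.2 i
    have h2 : |(b i : ℝ)| * ‖ζ i‖ ≤ 7 / 5 := by
      have e : |(b i : ℝ)| * ‖ζ i‖ = ‖(b i : ℂ) * ζ i‖ := by
        rw [norm_mul, Complex.norm_intCast]
      rw [e, show (b i : ℂ) * ζ i = ((b i : ℂ) * ζ i + 1) - 1 by ring]
      refine (norm_sub_le _ _).trans ?_
      rw [norm_one]
      linarith
    have h3 := mul_le_mul_of_nonneg_right (hbr i) (norm_nonneg (ζ i))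
    linarith
  have hz05 : ∀ i, ‖ζ i‖ ≤ 1 / 20 := fun i => (hz0 i).trans (by norm_num)
  have hD : ∀ i, ZDom (ζ i) := fun i =>
    xl_zdom (c := b i) (by have := hb i; omega) (hd.2 i)
  have hw := fun j => xl_w (hd.1 j).1 (hd.1 j).2 (hz05 j.castSucc) (hz05 j.succ)
    (hD j.castSucc) (hD j.succ) (hc.crit_y j)
  have hq : ∀ j, GT.tz (y j) = GT.qh ζ j := fun j => (hw j).2.1
  have hS : ∀ i, (((b i : ℤ) : ℝ) : ℂ) * ζ i + 1 =
      -(Complex.I / Real.pi) * GT.Sm ζ i := by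
    intro i
    have h1 := hc.crit_z i
    rw [xs_dz hD (fun j => (hw j).2.2.2.2) (fun j => (hw j).1) hq i] at h1
    have h2 : GT.Sm ζ i = Real.pi * Complex.I * ((b i : ℂ) * ζ i + 1) := by
      linear_combination (-1 / 2 : ℂ) * h1
    have h3 : ∀ X : ℂ, -(Complex.I / (Real.pi : ℂ)) * (Real.pi * Complex.I * X) =
        -(Complex.I ^ 2) * X := by
      intro X
      field_simp
    rw [h2, h3, Complex.I_sq, Complex.ofReal_intCast]
    ring
  have hex : ∀ i, ∃ j : Fin M, j.castSucc = i ∨ j.succ = i := by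
    intro i
    by_cases h : i = Fin.last M
    · have h0 : i ≠ 0 := by
        rw [h]
        intro h1
        have := congrArg Fin.val h1
        simp at this
        omega
      obtain ⟨j, hj⟩ := Fin.exists_succ_eq.2 h0
      exact ⟨j, Or.inr hj⟩
    · obtain ⟨j, hj⟩ := Fin.exists_castSucc_eq.2 h
      exact ⟨j, Or.inl hj⟩
  have hd25 : ∀ (i : Fin (M + 1)) (d : ℕ), d ≤ 2 → 25 * (d : ℝ) ≤ |((b i : ℤ) : ℝ)| := by
    intro i d h
    have h1 : (d : ℝ) ≤ 2 := by exact_mod_cast h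
    linarith [hbr i]
  have hz1 : ∀ i, ‖ζ i‖ ≤ 0.02086 ∧ |((b i : ℤ) : ℝ)| * ‖ζ i‖ ≤ 1.0427 := by
    intro i
    obtain ⟨j, hj⟩ := hex i
    obtain ⟨d, q, -, hd2, -, -, hqj, hs⟩ := xl_dval (ζ := ζ) hj
    apply xl_vert0 (ι := Fin d) (hbr i) (by rw [Fintype.card_fin]; exact hd25 i d hd2) (hz0 i) q
    · intro h
      obtain ⟨j', hj'⟩ := hqj h
      rw [hj']
      exact xs_qh_le hD j'
    · rw [hS i, hs]
  have hV : ∀ (i : Fin (M + 1)) (j : Fin M), (j.castSucc = i ∨ j.succ = i) →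
      (0 < (ζ i).im ∧ (ζ i).im ≤ 21 / 25000 ∧ lamOf M i * (ζ i).im * |((b i : ℤ) : ℝ)| ≤ 21 / 1000 ∧
        lamOf M i * (ζ i).im ≤ 21 / 50000) ∧ 0 ≤ lamOf M i ∧
      |(-(2 * GT.ath (GT.tz (ζ i) * GT.qh ζ j))).re -
        2 * Real.pi * lamOf M i * (ζ i).im * ((b i : ℤ) : ℝ)| ≤ 1 / 500 := by
    intro i j hj
    obtain ⟨d, q, hd0, hd2, hl, ⟨h0, hh0⟩, hqj, hs⟩ := xl_dval (ζ := ζ) hj
    have : Nonempty (Fin d) := ⟨⟨0, hd0⟩⟩
    have := xl_vert (ι := Fin d) (hbr i) (by rw [Fintype.card_fin]; exact hd25 i d hd2)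
      (hz1 i).1 (hz1 i).2 q (by
        intro h
        obtain ⟨j', hj'⟩ := hqj h
        rw [hj']
        exact xs_qh_le hD j') (by
        intro h
        obtain ⟨j', hj'⟩ := hqj h
        rw [hj']
        exact xl_q (hz1 _).1 (hz1 _).1 (hD _) (hD _)) (by rw [hS i, hs])
    rw [Fintype.card_fin, ← hl] at this
    refine ⟨this.1, ?_, ?_⟩
    · rw [hl]
      positivity
    · rw [← hh0]
      exact this.2 h0
  have hV' : ∀ i, |(ζ i).im| ≤ 21 / 25000 := by
    intro i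
    obtain ⟨j, hj⟩ := hex i
    rw [abs_of_pos (hV i j hj).1.1]
    exact (hV i j hj).1.2.1
  have main : ∀ (i : Fin (M + 1)) (j : Fin M), (j.castSucc = i ∨ j.succ = i) →
      Loc (lamOf M i) (b i) (y j) (ζ i) := by
    intro i j hj
    obtain ⟨⟨a1, a2, a3, a4⟩, a5, a6⟩ := hV i j hj
    obtain ⟨r1, r2, r3, r4⟩ := xl_ringdata (hd.1 j).1 (hd.1 j).2 (hz1 j.castSucc).1 (hz1 j.succ).1
      (hV' _) (hV' _) (hD j.castSucc) (hD j.succ) (hc.crit_y j)
    obtain ⟨-, s1, s2⟩ := xs_strip (hw j).2.2.2.2 (hD i).re_le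
    have h3 : ‖GT.tz (ζ i) * GT.tz (y j)‖ < 1 := by
      rw [hq j, norm_mul]
      have h1 := (hD i).tz_le
      have h2 := xs_qh_le hD j
      have := mul_le_mul h1 h2 (norm_nonneg _) (by norm_num)
      linarith
    have h4 := xs_tz s1 s2 (hw j).1 (hD i).cos_ne h3
    refine ⟨hbr i, r1, r2, ?_, a1, a2, a5, a3, a4, ?_, ?_⟩
    · refine (Complex.abs_re_le_norm _).trans ((hz1 i).1.trans ?_)
      norm_num
    · rcases hj with hj | hj
      · rw [← hj]; exact r3
      · rw [← hj]; exact r4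
    · rw [h4, hq j]
      exact a6
  exact ⟨fun j => main _ j (Or.inl rfl), fun j => main _ j (Or.inr rfl)⟩

end Pool.Agent.Work.MP_b30479_gt.LT
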