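import Pool.Agent.Work.MP_b30479_gt.LT.XCore
import Pool.Agent.Work.MP_b30479_gt.LT.XLoc
import Pool.Agent.Work.MP_b30479_gt.LT.Main

/-!
# Explicit version: the theorem for all `|b_i| ≥ 50`
-/

namespace Pool.Agent.Work.MP_b30479_gt.LT

open Finset VOL AX MeasureTheory Filter Topology

/-- the limit is expressed by the unique critical point in `SadDom` (existence and uniqueness:
`XSad`) -/
theorem main_x {M : ℕ} (hM : 1 ≤ M) {b : Fin (M + 1) → ℤ} (hb : ∀ i, 50 ≤ |b i|) {y : Fin M → ℂ}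
    {ζ : Fin (M + 1) → ℂ} (hc : Crit b y ζ) (hd : SadDom b y ζ) {δ : ℤ}
    (hδ : IsOrientation (ltWord (List.ofFn b)) δ) :
    (∀ᶠ s : ℕ in atTop, twoBridgeKashaev (ltWord (List.ofFn b)) δ (2 * s + 1) ≠ 0) ∧
    Tendsto (fun s : ℕ => twoBridgeKashaev (ltWord (List.ofFn b)) δ (2 * s + 3) /
      twoBridgeKashaev (ltWord (List.ofFn b)) δ (2 * s + 1)) atTop
      (𝓝 ((-Complex.I) ^ (∑ i, b i) * Complex.exp (2 * TT b y ζ))) := by
  have hl := locs_x hM hb hc hd
  obtain ⟨L, hL, hX⟩ := core_x hM hc hl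
  have him : ∀ i, 0 < (ζ i).im := by
    intro i
    refine Fin.cases ?_ ?_ i
    · exact (hl.left ⟨0, hM⟩).z2
    · intro j
      exact (hl.right j).z2
  exact main_of_lim him hL hX hδ

end Pool.Agent.Work.MP_b30479_gt.LT
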