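import Pool.Agent.Work.MP_b30479_gt.LT.XAbs
import Pool.Agent.Work.MP_b30479_gt.VC.FStrip

/-!
# Explicit version: the kernel near the maximum
-/

namespace Pool.Agent.Work.MP_b30479_gt.LT

open Finset VOL AX MeasureTheory

/-- the main part of the kernel: integral over `3/20 ≤ x ≤ 7/20` at height `τ` -/
noncomputable def MX (n : ℕ) (τ : ℝ) (ζ ζ' : ℂ) : ℂ :=
  1 / n * ∫ x in (3 / 20 : ℝ)..(7 / 20), Complex.exp (Tn n ((x : ℂ) + τ * Complex.I) ζ ζ')

/-- `Tn` on the larger box `3/20 - 1/1000 ≤ Re w ≤ 7/20 + 1/1000`, `|Re ζ| ≤ 1/8` -/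
theorem Tn_expand_x : ∃ C : ℝ, 0 ≤ C ∧ ∀ n : ℕ, 100 ≤ n → ∀ w ζ ζ' : ℂ,
    |w.re - 1 / 4| ≤ 101 / 1000 → |ζ.re| ≤ 1 / 8 → |ζ'.re| ≤ 1 / 8 →
    ‖Tn n w ζ ζ' - (n * tp w ζ ζ' - 2 * ph w)‖ ≤ C / n := by
  have hδ : (0 : ℝ) < 1 / 64 := by norm_num
  have hδ2 : (1 / 64 : ℝ) ≤ 1 / 2 := by norm_num
  have hpi := Real.pi_pos
  set sδ : ℝ := Real.sin (Real.pi * (1 / 64)) with hsδ
  have hs : 0 < sδ := VOL.sin_pi_pos hδ (by norm_num)
  refine ⟨8 * (1 / (2 * Real.pi * sδ)) + Real.pi / sδ, by positivity, ?_⟩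
  intro n hn w ζ ζ' h12 h3 h4
  obtain ⟨h1, h2⟩ := abs_le.mp h12
  have hnR : (100 : ℝ) ≤ n := by exact_mod_cast hn
  have hn0 : (0 : ℝ) < n := by linarith only [hnR]
  have hnc0 : (n : ℂ) ≠ 0 := by exact_mod_cast hn0.ne'
  obtain ⟨a1, a2⟩ := abs_le.mp h3
  obtain ⟨b1, b2⟩ := abs_le.mp h4
  have h2n : 1 / (2 * (n : ℝ)) ≤ 1 / 200 := by
    apply div_le_div_of_nonneg_left (by norm_num) (by norm_num)
    linarith only [hnR]
  have h2n0 : 0 < 1 / (2 * (n : ℝ)) := by positivity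
  have m1 : w + 1 / 2 + ζ ∈ Sd (1 / 64) := ⟨by rw [re_add_half]; linarith only [h1, a1, h2n, h2n0], by rw [re_add_half]; linarith only [h2, a2, h2n, h2n0]⟩
  have m2 : w + 1 / 2 - ζ ∈ Sd (1 / 64) := ⟨by rw [re_sub_half]; linarith only [h1, a2, h2n, h2n0], by rw [re_sub_half]; linarith only [h2, a1, h2n, h2n0]⟩
  have m1' : w + 1 / 2 + ζ' ∈ Sd (1 / 64) :=
    ⟨by rw [re_add_half]; linarith only [h1, b1, h2n, h2n0], by rw [re_add_half]; linarith only [h2, b2, h2n, h2n0]⟩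
  have m2' : w + 1 / 2 - ζ' ∈ Sd (1 / 64) :=
    ⟨by rw [re_sub_half]; linarith only [h1, b2, h2n, h2n0], by rw [re_sub_half]; linarith only [h2, b1, h2n, h2n0]⟩
  have ecast : (1 : ℂ) / (2 * n) = ((1 / (2 * (n : ℝ)) : ℝ) : ℂ) := by push_cast; rfl
  have m3 : w + 1 / (2 * n) ∈ Sd (1 / 64) := by
    rw [ecast]
    refine ⟨?_, ?_⟩
    · rw [Complex.add_re, Complex.ofReal_re]; linarith only [h1, h2n, h2n0]
    · rw [Complex.add_re, Complex.ofReal_re]; linarith only [h2, h2n, h2n0]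
  have m4 : w ∈ Sd (1 / 64) := ⟨by linarith only [h1, h2n, h2n0], by linarith only [h2, h2n, h2n0]⟩
  have hT := Fh_taylor hδ hδ2 m3 m4
  rw [add_sub_cancel_left] at hT
  have hnn : ‖(1 : ℂ) / (2 * n)‖ = 1 / (2 * (n : ℝ)) := by
    rw [ecast, Complex.norm_real, Real.norm_of_nonneg h2n0.le]
  rw [hnn] at hT
  set T : ℂ := VOL.Fh (w + 1 / (2 * n)) - VOL.Fh w - (1 / (2 * n)) * VOL.ph w with hTd
  have hM : ∀ z, VOL.M n z = n * VOL.Fh z + VOL.J n z := fun z => rfl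
  have hFh : VOL.Fh (w + 1 / (2 * n)) = VOL.Fh w + (1 / (2 * n)) * VOL.ph w + T := by
    rw [hTd]; ring
  have hid : Tn n w ζ ζ' - (n * tp w ζ ζ' - 2 * ph w) = VOL.J n (w + 1 / 2 + ζ) +
      VOL.J n (w + 1 / 2 - ζ) + VOL.J n (w + 1 / 2 + ζ') + VOL.J n (w + 1 / 2 - ζ') -
      4 * VOL.J n (w + 1 / (2 * n)) - 4 * n * T := by
    rw [Tn, tp, hM, hM, hM, hM, hM, hFh]
    field_simp
    ring
  rw [hid]
  have j1 := norm_J_Sd hδ hδ2 hn0 m1
  have j2 := norm_J_Sd hδ hδ2 hn0 m2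
  have j3 := norm_J_Sd hδ hδ2 hn0 m1'
  have j4 := norm_J_Sd hδ hδ2 hn0 m2'
  have j5 := norm_J_Sd hδ hδ2 hn0 m3
  rw [← hsδ] at j1 j2 j3 j4 j5 hT
  have t1 : ‖4 * (n : ℂ) * T‖ ≤ Real.pi / sδ / n := by
    rw [norm_mul, norm_mul, Complex.norm_natCast]
    have e0 : ‖(4 : ℂ)‖ = 4 := by norm_num
    rw [e0]
    calc 4 * n * ‖T‖ ≤ 4 * n * (Real.pi / sδ * (1 / (2 * n)) ^ 2) :=
          mul_le_mul_of_nonneg_left hT (by positivity)
      _ = Real.pi / sδ / n := by
          field_simp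
          ring
  have t2 : ‖4 * VOL.J n (w + 1 / (2 * n))‖ ≤ 4 * (1 / (2 * Real.pi * sδ) / n) := by
    rw [norm_mul, show ‖(4 : ℂ)‖ = 4 by norm_num]
    exact mul_le_mul_of_nonneg_left j5 (by norm_num)
  calc _ ≤ 1 / (2 * Real.pi * sδ) / n + 1 / (2 * Real.pi * sδ) / n +
        1 / (2 * Real.pi * sδ) / n + 1 / (2 * Real.pi * sδ) / n +
        4 * (1 / (2 * Real.pi * sδ) / n) + Real.pi / sδ / n := by
        refine (norm_sub_le _ _).trans (add_le_add ?_ t1)
        refine (norm_sub_le _ _).trans (add_le_add ?_ t2)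
        refine (norm_add_le _ _).trans (add_le_add ?_ j4)
        refine (norm_add_le _ _).trans (add_le_add ?_ j3)
        exact (norm_add_le _ _).trans (add_le_add j1 j2)
    _ = (8 * (1 / (2 * Real.pi * sδ)) + Real.pi / sδ) / n := by ring

/-- size of the interpolated summand -/
theorem norm_exp_Tn : ∃ C : ℝ, 0 ≤ C ∧ ∀ n : ℕ, 100 ≤ n → ∀ w ζ ζ' : ℂ,
    |w.re - 1 / 4| ≤ 101 / 1000 → |ζ.re| ≤ 1 / 8 → |ζ'.re| ≤ 1 / 8 →
    ‖Complex.exp (Tn n w ζ ζ')‖ ≤ C * Real.exp (n * (tp w ζ ζ').re) := by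
  obtain ⟨C, hC, hb⟩ := Tn_expand_x
  have hs : 0 < Real.sin (Real.pi * (1 / 8)) := VOL.sin_pi_pos (by norm_num) (by norm_num)
  refine ⟨Real.exp (C / 100) * (1 / (2 * Real.sin (Real.pi * (1 / 8))) ^ 2), by positivity, ?_⟩
  intro n hn w ζ ζ' h12 h3 h4
  obtain ⟨h1, h2⟩ := abs_le.mp h12
  have hnR : (100 : ℝ) ≤ n := by exact_mod_cast hn
  have h := hb n hn w ζ ζ' h12 h3 h4
  set D : ℂ := Tn n w ζ ζ' - (n * tp w ζ ζ' - 2 * ph w) with hD
  have e : Tn n w ζ ζ' = n * tp w ζ ζ' + -(2 * ph w) + D := by rw [hD]; ring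
  have hw : w ∈ VOL.strip := ⟨by linarith only [h1], by linarith only [h2]⟩
  have hph : ‖Complex.exp (-(2 * ph w))‖ ≤ 1 / (2 * Real.sin (Real.pi * (1 / 8))) ^ 2 := by
    have e1 : Complex.exp (-(2 * ph w)) = 1 / (2 * Complex.sin (Real.pi * w)) ^ 2 := by
      rw [← VOL.exp_ph hw, Complex.exp_neg, ← Complex.exp_nat_mul, one_div]
      push_cast
      rfl
    rw [e1, norm_div, norm_one, norm_pow]
    apply div_le_div_of_nonneg_left (by norm_num) (by positivity)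
    apply pow_le_pow_left₀ (by positivity)
    refine le_trans ?_ (VC.norm_sin_pi_ge w)
    have h5 : Real.sin (Real.pi * (1 / 8)) ≤ Real.sin (Real.pi * w.re) :=
      sin_Sd (by norm_num) (by norm_num) (by linarith only [h1]) (by linarith only [h2])
    have h6 : Real.sin (Real.pi * w.re) ≤ |Real.sin (Real.pi * w.re)| := le_abs_self _
    linarith only [h5, h6]
  have hexp : ‖Complex.exp D‖ ≤ Real.exp (C / 100) := by
    rw [Complex.norm_exp]
    apply Real.exp_le_exp.2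
    refine ((le_abs_self _).trans (Complex.abs_re_le_norm D)).trans (h.trans ?_)
    exact div_le_div_of_nonneg_left hC (by norm_num) hnR
  have hm : ‖Complex.exp (n * tp w ζ ζ')‖ = Real.exp (n * (tp w ζ ζ').re) := by
    rw [Complex.norm_exp, ← Complex.ofReal_natCast, Complex.re_ofReal_mul]
  rw [e, Complex.exp_add, Complex.exp_add, norm_mul, norm_mul, hm]
  calc Real.exp (n * (tp w ζ ζ').re) * ‖Complex.exp (-(2 * ph w))‖ * ‖Complex.exp D‖ ≤
      Real.exp (n * (tp w ζ ζ').re) * (1 / (2 * Real.sin (Real.pi * (1 / 8))) ^ 2) *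
        Real.exp (C / 100) := by gcongr
    _ = _ := by ring

theorem strip_ofX {n : ℕ} (hn : 100 ≤ n) {w ζ : ℂ} (h0 : 0 < w.re) (h1 : w.re ≤ 351 / 1000)
    (h2 : |ζ.re| ≤ 1 / 8) : w + 1 / 2 + ζ ∈ VOL.strip ∧ w + 1 / 2 - ζ ∈ VOL.strip ∧
      w + 1 / (2 * n) ∈ VOL.strip := by
  have hnR : (100 : ℝ) ≤ n := by exact_mod_cast hn
  obtain ⟨a1, a2⟩ := abs_le.mp h2
  have h2n : 1 / (2 * (n : ℝ)) ≤ 1 / 16 := by
    apply div_le_div_of_nonneg_left (by norm_num) (by norm_num)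
    linarith only [h0, h1, hnR]
  have h2n0 : 0 < 1 / (2 * (n : ℝ)) := by positivity
  have ecast : (1 : ℂ) / (2 * n) = ((1 / (2 * (n : ℝ)) : ℝ) : ℂ) := by push_cast; rfl
  refine ⟨⟨?_, ?_⟩, ⟨?_, ?_⟩, ⟨?_, ?_⟩⟩
  · rw [re_add_half]; linarith only [h0, a1, h2n, h2n0]
  · rw [re_add_half]; linarith only [h1, a2, h2n, h2n0]
  · rw [re_sub_half]; linarith only [h0, a2, h2n, h2n0]
  · rw [re_sub_half]; linarith only [h1, a1, h2n, h2n0]
  · rw [ecast, Complex.add_re, Complex.ofReal_re]; linarith only [h0, h2n0]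
  · rw [ecast, Complex.add_re, Complex.ofReal_re]; linarith only [h1, h2n, h2n0]

/-- `Tn` is holomorphic in `w` -/
theorem Tn_differentiableX {n : ℕ} (hn : 100 ≤ n) {w ζ ζ' : ℂ} (h0 : 0 < w.re)
    (h1 : w.re ≤ 351 / 1000) (h2 : |ζ.re| ≤ 1 / 8) (h3 : |ζ'.re| ≤ 1 / 8) :
    DifferentiableAt ℂ (fun w => Tn n w ζ ζ') w := by
  have hn0 : (0 : ℝ) < n := by
    have : (100 : ℝ) ≤ n := by exact_mod_cast hn
    linarith only [h0, h1, this]
  obtain ⟨s1, s2, s3⟩ := strip_ofX hn h0 h1 h2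
  obtain ⟨s1', s2', -⟩ := strip_ofX hn h0 h1 h3
  unfold Tn
  have dM : ∀ {z : ℂ}, z ∈ VOL.strip → DifferentiableAt ℂ (VOL.M n) z := fun hz =>
    (VOL.hasDerivAt_M hn0 hz).differentiableAt
  have d1 : DifferentiableAt ℂ (fun w => VOL.M n (w + 1 / 2 + ζ)) w :=
    (dM s1).comp w ((differentiableAt_id.add_const (1 / 2)).add_const ζ)
  have d2 : DifferentiableAt ℂ (fun w => VOL.M n (w + 1 / 2 - ζ)) w :=
    (dM s2).comp w ((differentiableAt_id.add_const (1 / 2)).sub_const ζ)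
  have d1' : DifferentiableAt ℂ (fun w => VOL.M n (w + 1 / 2 + ζ')) w :=
    (dM s1').comp w ((differentiableAt_id.add_const (1 / 2)).add_const ζ')
  have d2' : DifferentiableAt ℂ (fun w => VOL.M n (w + 1 / 2 - ζ')) w :=
    (dM s2').comp w ((differentiableAt_id.add_const (1 / 2)).sub_const ζ')
  have d3 : DifferentiableAt ℂ (fun w => VOL.M n (w + 1 / (2 * n))) w :=
    (dM s3).comp w (differentiableAt_id.add_const _)
  exact (((d1.add d2).add d1').add d2').sub (d3.const_mul 4)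

/-- `sum_rect` with the weights `rho` on the sides -/
theorem sum_rect_gain {g : ℂ → ℂ} {a b : ℕ} (hab : a ≤ b) {H t : ℝ} (hH : 1 ≤ H) (ht : |t| ≤ H)
    (hg : DifferentiableOn ℂ g {z | (a : ℝ) - 1 ≤ z.re ∧ z.re ≤ b}) {B1 B2 : ℝ}
    (hside : ∀ ξ : ℝ, ξ = (a : ℝ) - 1 / 2 ∨ ξ = (b : ℝ) - 1 / 2 →
      (∀ y : ℝ, t ≤ y → y ≤ H → VC.rho y * ‖g ((ξ : ℂ) + y * Complex.I)‖ ≤ B1) ∧
      (∀ y : ℝ, -H ≤ y → y ≤ t → VC.rho (-y) * ‖g ((ξ : ℂ) + y * Complex.I)‖ ≤ B1))
    (htop : ∀ x : ℝ, (a : ℝ) - 1 / 2 ≤ x → x ≤ (b : ℝ) - 1 / 2 →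
      ‖g (x + H * Complex.I)‖ ≤ B2 ∧ ‖g (x - H * Complex.I)‖ ≤ B2) :
    ‖∑ k ∈ Ico a b, g k - ∫ x in ((a : ℝ) - 1 / 2)..((b : ℝ) - 1 / 2), g (x + t * Complex.I)‖ ≤
      8 * H * B1 + 4 * ((b : ℝ) - a) * Real.exp (-(2 * Real.pi * H)) * B2 := by
  have hpi := Real.pi_gt_three
  have hH0 : 0 < H := by linarith only [hH]
  have hba : ((b : ℝ) - a) = ((b - a : ℕ) : ℝ) := by
    rw [Nat.cast_sub hab]
  have habR : (a : ℝ) ≤ b := by exact_mod_cast hab
  have hadm : VC.AdmF g (((a : ℤ) : ℝ) - 1 / 2) (((a : ℤ) : ℝ) + ((b - a : ℕ) : ℝ) - 1 / 2) := by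
    have hsub : ∀ z : ℂ, z ∈ VC.strip (((a : ℤ) : ℝ) - 1 / 2)
        (((a : ℤ) : ℝ) + ((b - a : ℕ) : ℝ) - 1 / 2) →
        z ∈ {z : ℂ | (a : ℝ) - 1 ≤ z.re ∧ z.re ≤ b} := by
      intro z hz
      have h1 := hz.1
      have h2 := hz.2
      rw [← hba] at h2
      push_cast at h1 h2
      constructor <;> linarith only [h1, h2]
    exact ⟨(hg.mono hsub).continuousOn, hg.mono fun z hz => hsub z (VC.ostrip_subset_strip _ _ hz)⟩
  have h := VC.abel_planaF (g := g) (a : ℤ) (b - a) hadm hH0 hH0 t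
  have hsum : ∑ j ∈ range (b - a), g (((a : ℤ) : ℂ) + j) = ∑ k ∈ Ico a b, g k := by
    rw [Finset.sum_Ico_eq_sum_range]
    refine Finset.sum_congr rfl fun j _ => ?_
    push_cast
    rfl
  rw [hsum, ← hba] at h
  have e1 : ((a : ℤ) : ℝ) - 1 / 2 = (a : ℝ) - 1 / 2 := by push_cast; rfl
  have e2 : ((a : ℤ) : ℝ) + ((b : ℝ) - a) - 1 / 2 = (b : ℝ) - 1 / 2 := by push_cast; ring
  rw [e1, e2] at h
  rw [h]
  have e3 : ∀ X Y Z : ℂ, X + Y + Z - X = Y + Z := fun X Y Z => by ring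
  rw [e3]
  have ht' := abs_le.mp ht
  have hB1 : 0 ≤ B1 := le_trans (mul_nonneg (VC.rho_pos _).le (norm_nonneg _))
    ((hside _ (Or.inl rfl)).1 t le_rfl ht'.2)
  have hB2 : 0 ≤ B2 := (norm_nonneg _).trans (htop ((a : ℝ) - 1 / 2) le_rfl (by linarith only [hba])).1
  have hm := VC.norm_modeF_le (g := g) (a := (a : ℝ) - 1 / 2) (b := (b : ℝ) - 1 / 2)
    (K := B2) (K' := B2) (by linarith only [hba]) hH0 hH0 (fun x h1 h2 => (htop x h1 h2).1)
    (fun x h1 h2 => (htop x h1 h2).2)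
  have hs1 := VC.norm_sideF_le (g := g) (ξ := (a : ℝ) - 1 / 2) ht'.2 ht'.1
    (hside _ (Or.inl rfl)).1 (hside _ (Or.inl rfl)).2
  have hs2 := VC.norm_sideF_le (g := g) (ξ := (b : ℝ) - 1 / 2) ht'.2 ht'.1
    (hside _ (Or.inr rfl)).1 (hside _ (Or.inr rfl)).2
  refine (norm_add_le _ _).trans ?_
  have h4 : ‖Complex.I • (VC.sideF g H H t ((b : ℝ) - 1 / 2) -
      VC.sideF g H H t ((a : ℝ) - 1 / 2))‖ ≤ 8 * H * B1 := by
    rw [norm_smul, Complex.norm_I, one_mul]
    refine (norm_sub_le _ _).trans ?_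
    nlinarith only [hs1, hs2, hH0, hB1, mul_nonneg hH0.le hB1]
  have h5 : Real.exp (-(2 * Real.pi) * H) / (1 - Real.exp (-(2 * Real.pi) * H)) ≤
      2 * Real.exp (-(2 * Real.pi * H)) := by
    have e4 : -(2 * Real.pi) * H = -(2 * Real.pi * H) := by ring
    rw [e4]
    have h6 : Real.exp (-(2 * Real.pi * H)) ≤ 1 / 2 := by
      have h7 : Real.exp (-(2 * Real.pi * H)) ≤ Real.exp (-1) := by
        apply Real.exp_le_exp.mpr
        nlinarith only [hH, hpi]
      have h8 : Real.exp (-1) ≤ 1 / 2 := by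
        rw [Real.exp_neg, inv_eq_one_div]
        apply one_div_le_one_div_of_le (by norm_num)
        have := Real.add_one_le_exp (1 : ℝ)
        linarith only [this]
      linarith only [h7, h8]
    have h9 := Real.exp_pos (-(2 * Real.pi * H))
    rw [div_le_iff₀ (by linarith only [h6, h9])]
    nlinarith only [h6, h9]
  have h6 : ‖VC.modeF g H H ((a : ℝ) - 1 / 2) ((b : ℝ) - 1 / 2)‖ ≤
      4 * ((b : ℝ) - a) * Real.exp (-(2 * Real.pi * H)) * B2 := by
    refine hm.trans ?_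
    have h7 : ((b : ℝ) - 1 / 2 - ((a : ℝ) - 1 / 2)) = (b : ℝ) - a := by ring
    rw [h7]
    have h8 : 0 ≤ (b : ℝ) - a := by linarith only [hba]
    calc ((b : ℝ) - a) * (Real.exp (-(2 * Real.pi) * H) / (1 - Real.exp (-(2 * Real.pi) * H)) * B2 +
          Real.exp (-(2 * Real.pi) * H) / (1 - Real.exp (-(2 * Real.pi) * H)) * B2)
        ≤ ((b : ℝ) - a) * (2 * Real.exp (-(2 * Real.pi * H)) * B2 +
          2 * Real.exp (-(2 * Real.pi * H)) * B2) := by gcongr
      _ = 4 * ((b : ℝ) - a) * Real.exp (-(2 * Real.pi * H)) * B2 := by ring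
  linarith only [h4, h6]

/-- the weight `rho` compensates the growth of the sides -/
theorem rho_gain {n y : ℝ} (hn : 0 < n) (hy : -(n / 5000) ≤ y) :
    VC.rho y * Real.exp (n * (2 * Real.pi * max (|y / n| - 1 / 5000) 0)) ≤ 1 := by
  have hpi := Real.pi_pos
  rcases le_total y (n / 5000) with h | h
  · have h1 : |y / n| ≤ 1 / 5000 := by
      rw [abs_div, abs_of_pos hn, div_le_iff₀ hn, abs_le]
      constructor <;> linarith only [hy, h]
    rw [max_eq_right (by linarith only [h1]), mul_zero, mul_zero, Real.exp_zero, mul_one]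
    exact VC.rho_le_one y
  · have hy0 : 0 < y := lt_of_lt_of_le (by positivity) h
    have h1 : 1 / 5000 ≤ |y / n| := by
      rw [abs_div, abs_of_pos hn, le_div_iff₀ hn, abs_of_pos hy0]
      linarith only [h]
    rw [max_eq_left (by linarith only [h1])]
    have h2 : |y / n| = y / n := abs_of_pos (by positivity)
    have h3 := VC.rho_le y
    have e : n * (2 * Real.pi * (|y / n| - 1 / 5000)) = 2 * Real.pi * y - 2 * Real.pi * (n / 5000) := by
      rw [h2]
      field_simp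
    rw [e]
    calc VC.rho y * Real.exp (2 * Real.pi * y - 2 * Real.pi * (n / 5000)) ≤
        Real.exp (-(2 * Real.pi) * y) * Real.exp (2 * Real.pi * y - 2 * Real.pi * (n / 5000)) :=
          mul_le_mul_of_nonneg_right h3 (Real.exp_pos _).le
      _ = Real.exp (-(2 * Real.pi * (n / 5000))) := by
        rw [← Real.exp_add]
        congr 1
        ring
      _ ≤ 1 := by
        rw [Real.exp_le_one_iff]
        have : 0 < 2 * Real.pi * (n / 5000) := by positivity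
        linarith only [this]

/-- the window sum against the integral, all error exponents bounded by `β` -/
theorem SS_near_x : ∃ C : ℝ, ∃ K N : ℕ, 0 ≤ C ∧ ∀ n : ℕ, N ≤ n → ∀ τ : ℝ, |τ| ≤ 1 / 5000 →
    ∀ ζ ζ' : ℂ, |ζ.re| ≤ 1 / 8 → |ζ'.re| ≤ 1 / 8 → 0 ≤ ζ.im → ζ.im ≤ 1 / 1000 → 0 ≤ ζ'.im →
    ζ'.im ≤ 1 / 1000 → ∀ β : ℝ,
    (∀ x : ℝ, 0 ≤ x → x ≤ 1 → 99 / 1000 ≤ |x - 1 / 4| →
      Rr ζ.im x ζ.re + Rr ζ'.im x ζ'.re ≤ β) →
    (∀ x t : ℝ, 99 / 1000 ≤ |x - 1 / 4| → |x - 1 / 4| ≤ 101 / 1000 → |t| ≤ 1 / 50 →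
      (tp (x + t * Complex.I) ζ ζ').re - 2 * Real.pi * max (|t| - 1 / 5000) 0 ≤ β) →
    (∀ x t : ℝ, |x - 1 / 4| ≤ 101 / 1000 → |t| = 1 / 50 →
      (tp (x + t * Complex.I) ζ ζ').re - 2 * Real.pi * (1 / 50) ≤ β) →
    ‖SS n ζ ζ' - MX n τ ζ ζ'‖ ≤ C * (n : ℝ) ^ K * Real.exp (n * β) := by
  obtain ⟨C, hC, hE⟩ := norm_exp_Tn
  obtain ⟨C', K', hC', hA⟩ := term_abs
  refine ⟨C' + C, K' + 1, 1000, by positivity, ?_⟩
  intro n hn τ hτ ζ ζ' hζ hζ' hi0 hi1 hi0' hi1' β h1 h2 h3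
  have hn100 : 100 ≤ n := by omega
  have hnR : (1000 : ℝ) ≤ n := by exact_mod_cast hn
  have hn0 : (0 : ℝ) < n := by linarith only [hnR]
  have hnc0 : (n : ℂ) ≠ 0 := by exact_mod_cast hn0.ne'
  have hinv : 1 / (n : ℝ) ≤ 1 / 1000 := div_le_div_of_nonneg_left (by norm_num) (by norm_num) hnR
  have hinv0 : 0 < 1 / (n : ℝ) := by positivity
  have hn1 : (1 : ℝ) / n * n = 1 := by field_simp
  have hpi := Real.pi_pos
  -- the end points
  set a : ℕ := ⌈3 * (n : ℝ) / 20⌉₊ with ha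
  set b : ℕ := ⌊7 * (n : ℝ) / 20⌋₊ + 1 with hb
  have ha1 : 3 * (n : ℝ) / 20 ≤ a := Nat.le_ceil _
  have ha2 : (a : ℝ) < 3 * (n : ℝ) / 20 + 1 := Nat.ceil_lt_add_one (by positivity)
  have hb1 : (b : ℝ) ≤ 7 * (n : ℝ) / 20 + 1 := by
    rw [hb]
    push_cast
    linarith only [hn, Nat.floor_le (a := 7 * (n : ℝ) / 20) (by positivity)]
  have hb2 : 7 * (n : ℝ) / 20 < b := by
    rw [hb]
    push_cast
    exact Nat.lt_floor_add_one _
  have hab : a ≤ b := by
    have : (a : ℝ) ≤ b := by linarith only [hnR, hinv, hinv0, ha2, hb2]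
    exact_mod_cast this
  have hbn : b ≤ n := by
    have : (b : ℝ) ≤ n := by linarith only [hnR, hinv, hinv0, hb1]
    exact_mod_cast this
  -- the function
  set g : ℂ → ℂ := fun z => 1 / (n : ℂ) ^ 2 * Complex.exp (Tn n (z / n) ζ ζ') with hg
  have hre : ∀ z : ℂ, (z / n).re = z.re / n := by
    intro z
    rw [← Complex.ofReal_natCast, Complex.div_ofReal_re]
  have hgd : DifferentiableOn ℂ g {z | (a : ℝ) - 1 ≤ z.re ∧ z.re ≤ b} := by
    intro z hz
    obtain ⟨z1, z2⟩ := hz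
    apply DifferentiableAt.differentiableWithinAt
    have hd := Tn_differentiableX (w := z / n) (ζ := ζ) (ζ' := ζ') hn100
      (by rw [hre]; apply div_pos _ hn0; linarith only [hnR, hinv, hinv0, ha1, z1])
      (by rw [hre, div_le_iff₀ hn0]; linarith only [hnR, hb1, z2]) hζ hζ'
    have hd2 : DifferentiableAt ℂ (fun z : ℂ => Tn n (z / n) ζ ζ') z :=
      DifferentiableAt.comp (g := fun w => Tn n w ζ ζ') z hd (differentiableAt_id.div_const _)
    exact (hd2.cexp).const_mul _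
  have hgn : ∀ z : ℂ, |z.re / n - 1 / 4| ≤ 101 / 1000 →
      ‖g z‖ ≤ 1 / (n : ℝ) ^ 2 * (C * Real.exp (n * (tp (z / n) ζ ζ').re)) := by
    intro z z1
    rw [hg]
    simp only
    rw [norm_mul, norm_div, norm_one, norm_pow, Complex.norm_natCast]
    apply mul_le_mul_of_nonneg_left _ (by positivity)
    exact hE n hn100 (z / n) ζ ζ' (by rw [hre]; exact z1) hζ hζ'
  have hterm : ∀ y ∈ Ico a b, term n y ζ ζ' = g y := by
    intro y hy
    rw [mem_Ico] at hy
    have hy1 : (y : ℝ) ≤ 7 * (n : ℝ) / 20 := by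
      have h5 : y ≤ ⌊7 * (n : ℝ) / 20⌋₊ := by omega
      exact (Nat.cast_le.2 h5).trans (Nat.floor_le (by positivity))
    have hy2 : (y : ℝ) / n ≤ 7 / 20 := by rw [div_le_iff₀ hn0]; linarith only [hy1]
    have hy3 : y < n := by omega
    exact term_eq (by omega) hy3 (by linarith only [hζ, hinv, hinv0, hy2]) (by linarith only [hζ', hinv, hinv0, hy2])
  have hp0 : ∀ ξ : ℝ, ξ = (a : ℝ) - 1 / 2 ∨ ξ = (b : ℝ) - 1 / 2 →
      99 / 1000 ≤ |ξ / n - 1 / 4| ∧ |ξ / n - 1 / 4| ≤ 101 / 1000 := by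
    intro ξ hξ
    rcases hξ with rfl | rfl
    · have e1 : ((a : ℝ) - 1 / 2) / n ≤ 151 / 1000 := by
        rw [div_le_iff₀ hn0]
        linarith only [hnR, hinv, hinv0, ha2]
      have e2 : 149 / 1000 ≤ ((a : ℝ) - 1 / 2) / n := by
        rw [le_div_iff₀ hn0]
        linarith only [hnR, hinv, hinv0, ha1]
      rw [abs_of_neg (by linarith only [hinv, hinv0, e1])]
      constructor <;> linarith only [e1, e2]
    · have e1 : ((b : ℝ) - 1 / 2) / n ≤ 351 / 1000 := by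
        rw [div_le_iff₀ hn0]
        linarith only [hnR, hinv, hinv0, hb1]
      have e2 : 349 / 1000 ≤ ((b : ℝ) - 1 / 2) / n := by
        rw [le_div_iff₀ hn0]
        linarith only [hnR, hinv, hinv0, hb2]
      rw [abs_of_pos (by linarith only [hinv, hinv0, e2])]
      constructor <;> linarith only [e2, e1]
  -- the sum over the window
  have hgain : ∀ ξ y : ℝ, 99 / 1000 ≤ |ξ / n - 1 / 4| → |ξ / n - 1 / 4| ≤ 101 / 1000 →
      |y| ≤ 1 / 50 * n → ‖g ((ξ : ℂ) + y * Complex.I)‖ ≤ 1 / (n : ℝ) ^ 2 * (C * (Real.exp (n * β) *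
        Real.exp (n * (2 * Real.pi * max (|y / n| - 1 / 5000) 0)))) := by
    intro ξ y hx1 hx2 hy
    refine (hgn _ (by simpa using hx2)).trans ?_
    apply mul_le_mul_of_nonneg_left _ (by positivity)
    apply mul_le_mul_of_nonneg_left _ hC
    rw [← Real.exp_add]
    apply Real.exp_le_exp.2
    rw [← mul_add]
    apply mul_le_mul_of_nonneg_left _ hn0.le
    have e : ((ξ : ℂ) + y * Complex.I) / n = ((ξ / n : ℝ) : ℂ) + ((y / n : ℝ) : ℂ) * Complex.I := by
      push_cast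
      field_simp
    rw [e]
    have h5 := h2 (ξ / n) (y / n) hx1 hx2 (by
      rw [abs_div, abs_of_pos hn0, div_le_iff₀ hn0]
      exact hy)
    linarith only [h5]
  have hτ' := abs_le.1 hτ
  have hw := sum_rect_gain (g := g) hab (H := 1 / 50 * n) (t := τ * n) (by linarith only [hnR, hinv, hinv0]) (by
      rw [abs_mul, abs_of_pos hn0]
      exact mul_le_mul_of_nonneg_right (by linarith only [hτ, hinv, hinv0]) hn0.le) hgd
    (B1 := 1 / (n : ℝ) ^ 2 * (C * Real.exp (n * β)))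
    (B2 := 1 / (n : ℝ) ^ 2 * (C * Real.exp (n * (β + 2 * Real.pi * (1 / 50))))) (by
      intro ξ hξ
      obtain ⟨hx1, hx2⟩ := hp0 ξ hξ
      constructor
      · intro y hy1 hy2
        have hy3 : -(n / 5000) ≤ y := by nlinarith only [hy1, hτ']
        have h5 := hgain ξ y hx1 hx2 (by rw [abs_le]; constructor <;> linarith only [hnR, hinv, hinv0, hy3, hy2])
        have h6 := rho_gain hn0 hy3
        calc VC.rho y * ‖g ((ξ : ℂ) + y * Complex.I)‖ ≤ VC.rho y *
              (1 / (n : ℝ) ^ 2 * (C * (Real.exp (n * β) *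
              Real.exp (n * (2 * Real.pi * max (|y / n| - 1 / 5000) 0))))) :=
                mul_le_mul_of_nonneg_left h5 (VC.rho_pos y).le
          _ = 1 / (n : ℝ) ^ 2 * (C * Real.exp (n * β)) * (VC.rho y *
              Real.exp (n * (2 * Real.pi * max (|y / n| - 1 / 5000) 0))) := by ring
          _ ≤ 1 / (n : ℝ) ^ 2 * (C * Real.exp (n * β)) * 1 :=
                mul_le_mul_of_nonneg_left h6 (by positivity)
          _ = _ := mul_one _
      · intro y hy1 hy2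
        have hy3 : -((n : ℝ) / 5000) ≤ -y := by nlinarith only [hy2, hτ']
        have h5 := hgain ξ y hx1 hx2 (by rw [abs_le]; constructor <;> linarith only [hy1, hnR, hinv, hinv0, hy3])
        have h6 := rho_gain hn0 hy3
        rw [neg_div, abs_neg] at h6
        calc VC.rho (-y) * ‖g ((ξ : ℂ) + y * Complex.I)‖ ≤ VC.rho (-y) *
              (1 / (n : ℝ) ^ 2 * (C * (Real.exp (n * β) *
              Real.exp (n * (2 * Real.pi * max (|y / n| - 1 / 5000) 0))))) :=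
                mul_le_mul_of_nonneg_left h5 (VC.rho_pos _).le
          _ = 1 / (n : ℝ) ^ 2 * (C * Real.exp (n * β)) * (VC.rho (-y) *
              Real.exp (n * (2 * Real.pi * max (|y / n| - 1 / 5000) 0))) := by ring
          _ ≤ 1 / (n : ℝ) ^ 2 * (C * Real.exp (n * β)) * 1 :=
                mul_le_mul_of_nonneg_left h6 (by positivity)
          _ = _ := mul_one _) (by
      intro x hx1 hx2
      have hxa : |x / n - 1 / 4| ≤ 101 / 1000 := by
        have e1 : x / n ≤ 351 / 1000 := by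
          rw [div_le_iff₀ hn0]
          linarith only [hnR, hinv, hinv0, hb1, hx2]
        have e2 : 149 / 1000 ≤ x / n := by
          rw [le_div_iff₀ hn0]
          linarith only [hnR, hinv, hinv0, ha1, hx1]
        rw [abs_le]
        constructor <;> linarith only [e2, e1]
      have e1 : ((x : ℂ) + ((1 / 50 * n : ℝ) : ℂ) * Complex.I) / n =
          ((x / n : ℝ) : ℂ) + ((1 / 50 : ℝ) : ℂ) * Complex.I := by
        push_cast
        field_simp
      have e2 : ((x : ℂ) - ((1 / 50 * n : ℝ) : ℂ) * Complex.I) / n =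
          ((x / n : ℝ) : ℂ) + ((-(1 / 50) : ℝ) : ℂ) * Complex.I := by
        push_cast
        field_simp
        ring
      have hb4 := h3 (x / n) (1 / 50) hxa (abs_of_pos (by norm_num))
      have hb5 := h3 (x / n) (-(1 / 50)) hxa (by rw [abs_neg, abs_of_pos (by norm_num)])
      constructor
      · refine (hgn _ (by simpa using hxa)).trans ?_
        apply mul_le_mul_of_nonneg_left _ (by positivity)
        apply mul_le_mul_of_nonneg_left _ hC
        apply Real.exp_le_exp.2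
        apply mul_le_mul_of_nonneg_left _ hn0.le
        rw [e1]
        linarith only [hb4]
      · refine (hgn _ (by simpa using hxa)).trans ?_
        apply mul_le_mul_of_nonneg_left _ (by positivity)
        apply mul_le_mul_of_nonneg_left _ hC
        apply Real.exp_le_exp.2
        apply mul_le_mul_of_nonneg_left _ hn0.le
        rw [e2]
        linarith only [hb5])
  -- the integral
  have hcw : ∀ u : ℝ, |u - 1 / 4| ≤ 101 / 1000 →
      ContinuousAt (fun u : ℝ => Complex.exp (Tn n ((u : ℂ) + τ * Complex.I) ζ ζ')) u := by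
    intro u hu
    obtain ⟨hu1, hu2⟩ := abs_le.1 hu
    have hd := (Tn_differentiableX (w := (u : ℂ) + τ * Complex.I) (ζ := ζ) (ζ' := ζ') hn100
      (by simp; linarith only [hinv, hinv0, hu1]) (by simp; linarith only [hu2]) hζ hζ').continuousAt
    have hc2 : ContinuousAt (fun u : ℝ => Tn n ((u : ℂ) + τ * Complex.I) ζ ζ') u :=
      ContinuousAt.comp (g := fun w : ℂ => Tn n w ζ ζ')
        (f := fun u : ℝ => (u : ℂ) + τ * Complex.I) hd (by fun_prop)
    exact hc2.cexp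
  have hci : ∀ u v : ℝ, |u - 1 / 4| ≤ 101 / 1000 → |v - 1 / 4| ≤ 101 / 1000 →
      IntervalIntegrable (fun u : ℝ => Complex.exp (Tn n ((u : ℂ) + τ * Complex.I) ζ ζ'))
        volume u v := by
    intro u v hu hv
    obtain ⟨hu1, hu2⟩ := abs_le.1 hu
    obtain ⟨hv1, hv2⟩ := abs_le.1 hv
    apply ContinuousOn.intervalIntegrable
    intro x hx
    rw [Set.mem_uIcc] at hx
    apply (hcw x ?_).continuousWithinAt
    rw [abs_le]
    rcases hx with hx | hx <;> constructor <;> linarith only [hu1, hx, hv2, hv1, hu2, hx.1, hx.2]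
  have hpa := hp0 ((a : ℝ) - 1 / 2) (Or.inl rfl)
  have hqa := hp0 ((b : ℝ) - 1 / 2) (Or.inr rfl)
  have hp3 : ((a : ℝ) - 1 / 2) / n ≤ 151 / 1000 := by
    rw [div_le_iff₀ hn0]
    linarith only [hnR, hinv, hinv0, ha2]
  have hp4 : 149 / 1000 ≤ ((a : ℝ) - 1 / 2) / n := by
    rw [le_div_iff₀ hn0]
    linarith only [hnR, hinv, hinv0, ha1]
  have hq3 : ((b : ℝ) - 1 / 2) / n ≤ 351 / 1000 := by
    rw [div_le_iff₀ hn0]
    linarith only [hnR, hinv, hinv0, hb1]
  have hq4 : 349 / 1000 ≤ ((b : ℝ) - 1 / 2) / n := by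
    rw [le_div_iff₀ hn0]
    linarith only [hnR, hinv, hinv0, hb2]
  set p : ℝ := ((a : ℝ) - 1 / 2) / n with hp
  set q : ℝ := ((b : ℝ) - 1 / 2) / n with hq
  have hI : (∫ x in ((a : ℝ) - 1 / 2)..((b : ℝ) - 1 / 2), g (x + ((τ * n : ℝ) : ℂ) * Complex.I)) =
      1 / n * ∫ x in p..q, Complex.exp (Tn n ((x : ℂ) + τ * Complex.I) ζ ζ') := by
    have h5 := intervalIntegral.integral_comp_div
      (f := fun u : ℝ => Complex.exp (Tn n ((u : ℂ) + τ * Complex.I) ζ ζ'))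
      (a := (a : ℝ) - 1 / 2) (b := (b : ℝ) - 1 / 2) (c := (n : ℝ)) hn0.ne'
    have h6 : (∫ x in ((a : ℝ) - 1 / 2)..((b : ℝ) - 1 / 2), g (x + ((τ * n : ℝ) : ℂ) * Complex.I)) =
        1 / (n : ℂ) ^ 2 * ∫ x in ((a : ℝ) - 1 / 2)..((b : ℝ) - 1 / 2),
          Complex.exp (Tn n (((x / n : ℝ) : ℂ) + τ * Complex.I) ζ ζ') := by
      rw [← intervalIntegral.integral_const_mul]
      congr 1
      ext x
      rw [hg]
      simp only
      congr 3
      push_cast
      field_simp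
    rw [h6, h5, ← hp, ← hq, Complex.real_smul]
    push_cast
    field_simp
  have hc1 : |p - 1 / 4| ≤ 101 / 1000 := hpa.2
  have hc2 : |q - 1 / 4| ≤ 101 / 1000 := hqa.2
  have hc3 : |(3 / 20 : ℝ) - 1 / 4| ≤ 101 / 1000 := by rw [abs_le]; constructor <;> norm_num
  have hc4 : |(7 / 20 : ℝ) - 1 / 4| ≤ 101 / 1000 := by rw [abs_le]; constructor <;> norm_num
  have hsplit : (∫ x in p..q, Complex.exp (Tn n ((x : ℂ) + τ * Complex.I) ζ ζ')) =
      (∫ x in p..(3 / 20 : ℝ), Complex.exp (Tn n ((x : ℂ) + τ * Complex.I) ζ ζ')) +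
      (∫ x in (3 / 20 : ℝ)..(7 / 20), Complex.exp (Tn n ((x : ℂ) + τ * Complex.I) ζ ζ')) +
      ∫ x in (7 / 20 : ℝ)..q, Complex.exp (Tn n ((x : ℂ) + τ * Complex.I) ζ ζ') := by
    rw [intervalIntegral.integral_add_adjacent_intervals (hci _ _ hc1 hc3) (hci _ _ hc3 hc4),
      intervalIntegral.integral_add_adjacent_intervals (hci _ _ hc1 hc4) (hci _ _ hc4 hc2)]
  have hshort : ∀ u v : ℝ, |v - u| ≤ 1 → (∀ x ∈ Set.uIoc u v,
      99 / 1000 ≤ |x - 1 / 4| ∧ |x - 1 / 4| ≤ 101 / 1000) →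
      ‖∫ x in u..v, Complex.exp (Tn n ((x : ℂ) + τ * Complex.I) ζ ζ')‖ ≤
        C * Real.exp (n * β) := by
    intro u v huv hx
    have h5 := intervalIntegral.norm_integral_le_of_norm_le_const (a := u) (b := v)
      (f := fun x : ℝ => Complex.exp (Tn n ((x : ℂ) + τ * Complex.I) ζ ζ'))
      (C := C * Real.exp (n * β)) (fun x hx' => by
        obtain ⟨hx1, hx2⟩ := hx x hx'
        refine (hE n hn100 _ ζ ζ' (by simpa using hx2) hζ hζ').trans ?_
        apply mul_le_mul_of_nonneg_left _ hC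
        apply Real.exp_le_exp.2
        apply mul_le_mul_of_nonneg_left _ hn0.le
        have h6 := h2 x τ hx1 hx2 (by linarith only [hτ, hinv, hinv0])
        rw [max_eq_right (by linarith only [hτ]), mul_zero, sub_zero] at h6
        exact h6)
    refine h5.trans ?_
    have h7 : 0 ≤ C * Real.exp (n * β) := by positivity
    nlinarith only [hinv, hinv0, huv, h7]
  have hs1 := hshort p (3 / 20) (by rw [abs_le]; constructor <;> linarith only [hinv, hinv0, hp3, hp4]) (by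
    intro x hx
    rw [Set.mem_uIoc] at hx
    have hx1 : x ≤ 151 / 1000 := by rcases hx with hx | hx <;> linarith only [hinv, hinv0, hx, hp3, hx.1, hx.2]
    have hx2 : 149 / 1000 ≤ x := by rcases hx with hx | hx <;> linarith only [hp4, hx, hinv, hinv0, hx.1, hx.2]
    rw [abs_of_neg (by linarith only [hinv, hinv0, hx1])]
    constructor <;> linarith only [hx1, hx2])
  have hs2 := hshort (7 / 20) q (by rw [abs_le]; constructor <;> linarith only [hinv, hinv0, hq4, hq3]) (by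
    intro x hx
    rw [Set.mem_uIoc] at hx
    have hx1 : x ≤ 351 / 1000 := by rcases hx with hx | hx <;> linarith only [hq3, hx, hinv, hinv0, hx.1, hx.2]
    have hx2 : 349 / 1000 ≤ x := by rcases hx with hx | hx <;> linarith only [hinv, hinv0, hx, hq4, hx.1, hx.2]
    rw [abs_of_pos (by linarith only [hinv, hinv0, hx2])]
    constructor <;> linarith only [hx2, hx1])
  -- the other terms
  have hrest : ‖∑ y ∈ range n \ Ico a b, term n y ζ ζ'‖ ≤
      n * (C' * (n : ℝ) ^ K' * Real.exp (n * β)) := by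
    refine (norm_sum_le _ _).trans ?_
    refine (Finset.sum_le_card_nsmul _ _ (C' * (n : ℝ) ^ K' * Real.exp (n * β)) ?_).trans ?_
    · intro y hy
      rw [mem_sdiff, mem_range, mem_Ico] at hy
      refine (hA n y (by omega) hy.1 ζ ζ' hi0 (by linarith only [hi1, hinv, hinv0]) (by linarith only [hζ, hinv, hinv0]) hi0' (by linarith only [hi1', hinv, hinv0])
        (by linarith only [hζ', hinv, hinv0])).trans ?_
      apply mul_le_mul_of_nonneg_left _ (by positivity)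
      apply Real.exp_le_exp.2
      apply mul_le_mul_of_nonneg_left _ hn0.le
      have hyn : (y : ℝ) < n := by exact_mod_cast hy.1
      apply h1 _ (by positivity) (by rw [div_le_iff₀ hn0]; linarith only [hyn])
      by_contra hcon
      push Not at hcon
      apply hy.2
      rw [abs_lt] at hcon
      obtain ⟨c1, c2⟩ := hcon
      have c3 : (y : ℝ) / n < 7 / 20 := by linarith only [hinv, hinv0, c2]
      have c4 : 3 / 20 < (y : ℝ) / n := by linarith only [hinv, hinv0, c1]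
      rw [div_lt_iff₀ hn0] at c3
      rw [lt_div_iff₀ hn0] at c4
      constructor
      · rw [ha]
        apply Nat.ceil_le.2
        linarith only [c4]
      · rw [hb]
        apply Nat.lt_succ_of_le
        apply Nat.le_floor
        linarith only [c3]
    · rw [nsmul_eq_mul]
      apply mul_le_mul_of_nonneg_right _ (by positivity)
      have h5 : (range n \ Ico a b).card ≤ (range n).card := card_le_card sdiff_subset
      rw [card_range] at h5
      exact_mod_cast h5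
  have hSS : SS n ζ ζ' = ∑ y ∈ range n \ Ico a b, term n y ζ ζ' + ∑ y ∈ Ico a b, g y := by
    rw [SS, ← sum_sdiff (s₁ := Ico a b) (s₂ := range n) (by
      intro y hy
      rw [mem_Ico] at hy
      rw [mem_range]
      omega), sum_congr rfl hterm]
  have hexp1 : Real.exp (-(2 * Real.pi * (1 / 50 * n))) *
      (1 / (n : ℝ) ^ 2 * (C * Real.exp (n * (β + 2 * Real.pi * (1 / 50))))) =
      1 / (n : ℝ) ^ 2 * (C * Real.exp (n * β)) := by
    have : Real.exp (n * β) = Real.exp (-(2 * Real.pi * (1 / 50 * n))) *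
        Real.exp (n * (β + 2 * Real.pi * (1 / 50))) := by
      rw [← Real.exp_add]
      congr 1
      ring
    rw [this]
    ring
  rw [hI] at hw
  have hMM : MX n τ ζ ζ' = 1 / n * ∫ x in (3 / 20 : ℝ)..(7 / 20),
    Complex.exp (Tn n ((x : ℂ) + τ * Complex.I) ζ ζ') := rfl
  set X1 : ℂ := ∑ y ∈ range n \ Ico a b, term n y ζ ζ' with hX1
  set X2 : ℂ := ∑ y ∈ Ico a b, g y with hX2
  set I1 : ℂ := ∫ x in p..(3 / 20 : ℝ), Complex.exp (Tn n ((x : ℂ) + τ * Complex.I) ζ ζ') with hI1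
  set I2 : ℂ := ∫ x in (3 / 20 : ℝ)..(7 / 20), Complex.exp (Tn n ((x : ℂ) + τ * Complex.I) ζ ζ') with hI2
  set I3 : ℂ := ∫ x in (7 / 20 : ℝ)..q, Complex.exp (Tn n ((x : ℂ) + τ * Complex.I) ζ ζ') with hI3
  have hdec : SS n ζ ζ' - MX n τ ζ ζ' = X1 + (X2 - 1 / n * (I1 + I2 + I3)) +
      (1 / n * I1 + 1 / n * I3) := by
    rw [hSS, hMM]
    ring
  rw [hsplit] at hw
  have hnn : ‖(1 : ℂ) / n‖ = 1 / (n : ℝ) := by
    rw [norm_div, norm_one, Complex.norm_natCast]
  have E0 : 0 ≤ Real.exp (n * β) := (Real.exp_pos _).le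
  have hbd : ((b : ℝ) - a) ≤ n / 2 := by linarith only [hnR, hinv, hinv0, ha1, hb1]
  have f1 : 8 * (1 / 50 * (n : ℝ)) * (1 / (n : ℝ) ^ 2 * (C * Real.exp (n * β))) ≤
      C * Real.exp (n * β) * (1 / n) := by
    have e : 8 * (1 / 50 * (n : ℝ)) * (1 / (n : ℝ) ^ 2 * (C * Real.exp (n * β))) =
        8 / 50 * (C * Real.exp (n * β) * (1 / n)) := by
      field_simp
    rw [e]
    have : 0 ≤ C * Real.exp (n * β) * (1 / n) := by positivity
    linarith only [this]
  have f2 : 4 * ((b : ℝ) - a) * (1 / (n : ℝ) ^ 2 * (C * Real.exp (n * β))) ≤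
      2 * (C * Real.exp (n * β) * (1 / n)) := by
    calc 4 * ((b : ℝ) - a) * (1 / (n : ℝ) ^ 2 * (C * Real.exp (n * β))) ≤
        4 * (n / 2) * (1 / (n : ℝ) ^ 2 * (C * Real.exp (n * β))) := by gcongr
      _ = 2 * (C * Real.exp (n * β) * (1 / n)) := by
        field_simp
        ring
  have f4 : ‖X1 + (X2 - 1 / n * (I1 + I2 + I3)) + (1 / n * I1 + 1 / n * I3)‖ ≤
      n * (C' * (n : ℝ) ^ K' * Real.exp (n * β)) + 5 * (C * Real.exp (n * β) * (1 / n)) := by
    calc ‖X1 + (X2 - 1 / n * (I1 + I2 + I3)) + (1 / n * I1 + 1 / n * I3)‖ ≤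
        ‖X1‖ + ‖X2 - 1 / n * (I1 + I2 + I3)‖ + (‖(1 : ℂ) / n‖ * ‖I1‖ + ‖(1 : ℂ) / n‖ * ‖I3‖) := by
          rw [← norm_mul, ← norm_mul]
          exact norm_add₃_le.trans (add_le_add le_rfl (norm_add_le _ _))
      _ ≤ n * (C' * (n : ℝ) ^ K' * Real.exp (n * β)) + (C * Real.exp (n * β) * (1 / n) +
          2 * (C * Real.exp (n * β) * (1 / n))) + (1 / n * (C * Real.exp (n * β)) +
            1 / n * (C * Real.exp (n * β))) := by
          refine add_le_add (add_le_add hrest (hw.trans ?_)) ?_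
          · rw [mul_assoc (4 * ((b : ℝ) - a)), hexp1]
            exact add_le_add f1 f2
          · rw [hnn]
            exact add_le_add (mul_le_mul_of_nonneg_left hs1 hinv0.le)
              (mul_le_mul_of_nonneg_left hs2 hinv0.le)
      _ = _ := by ring
  rw [hdec]
  refine f4.trans ?_
  have g1 : 5 * (C * Real.exp (n * β) * (1 / n)) ≤ C * Real.exp (n * β) := by
    have : 0 ≤ C * Real.exp (n * β) := by positivity
    nlinarith only [this, hinv]
  have g2 : (1 : ℝ) ≤ (n : ℝ) ^ (K' + 1) := one_le_pow₀ (by linarith only [hnR, hinv, hinv0])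
  have g3 : C * Real.exp (n * β) ≤ C * (n : ℝ) ^ (K' + 1) * Real.exp (n * β) := by
    have : 0 ≤ C * Real.exp (n * β) := by positivity
    nlinarith only [hinv, hinv0, g1, g2]
  calc n * (C' * (n : ℝ) ^ K' * Real.exp (n * β)) + 5 * (C * Real.exp (n * β) * (1 / n)) ≤
      n * (C' * (n : ℝ) ^ K' * Real.exp (n * β)) + C * (n : ℝ) ^ (K' + 1) * Real.exp (n * β) := by
        linarith only [g1, g3]
    _ = (C' + C) * (n : ℝ) ^ (K' + 1) * Real.exp (n * β) := by ring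

end Pool.Agent.Work.MP_b30479_gt.LT
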