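import Pool.Agent.Work.MP_b30479_gt.LT.Far

/-!
# Explicit facts on the real ring function

`Rr ρ x σ = -2 Lr 0 x + Lr ρ (x + 1/2 + σ) + Lr ρ (x + 1/2 - σ) - π ρ`, so that
`tr ρ x σ σ' = Rr ρ x σ + Rr ρ x σ'`.
-/

namespace Pool.Agent.Work.MP_b30479_gt.LT

open Finset VOL AX MeasureTheory

/-- one ring of `tr` -/
noncomputable def Rr (ρ x σ : ℝ) : ℝ :=
  -2 * DT.Lr 0 x + (DT.Lr ρ (x + 1 / 2 + σ) + DT.Lr ρ (x + 1 / 2 - σ)) - Real.pi * ρ

theorem tr_eq_Rr (ρ x σ σ' : ℝ) : tr ρ x σ σ' = Rr ρ x σ + Rr ρ x σ' := by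
  unfold tr Rr
  ring

theorem Rr_neg (ρ x σ : ℝ) : Rr ρ x (-σ) = Rr ρ x σ := by
  unfold Rr
  rw [← sub_eq_add_neg, sub_neg_eq_add]
  ring

theorem Rr_abs (ρ x σ : ℝ) : Rr ρ x |σ| = Rr ρ x σ := by
  rcases abs_choice σ with h | h
  · rw [h]
  · rw [h, Rr_neg]

theorem Rr_zero (x σ : ℝ) : Rr 0 x σ = DT.H 0 (1 / 2 - x) σ 0 := by
  rw [← ring_eq]
  unfold Rr
  ring

theorem ts_eq_Rr : ts = 2 * Rr 0 (1 / 4) 0 := by
  rw [ts_eq, tr_eq_Rr]
  ring

/-- decreasing in `|σ|` -/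
theorem Rr_anti {x σ σ' : ℝ} (h0 : 0 ≤ x) (h1 : x ≤ 1 / 2) (h2 : |σ| ≤ |σ'|) (h3 : |σ'| ≤ 1 / 2) :
    Rr 0 x σ' ≤ Rr 0 x σ := by
  rw [Rr_zero, Rr_zero]
  exact DT.H_zero_anti 0 (by linarith only [h1]) (by linarith only [h0]) h2 h3

theorem Rr_at_half {x : ℝ} : Rr 0 x (1 / 2) = 0 := by
  have h := DT.Lr_add_one (ρ := 0) le_rfl x
  unfold Rr
  rw [show x + 1 / 2 + 1 / 2 = x + 1 by ring, show x + 1 / 2 - 1 / 2 = x by ring, h]
  ring

/-- nonpositive to the right of `1/2` -/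
theorem Rr_nonpos {x σ : ℝ} (h0 : 1 / 2 ≤ x) (h1 : x ≤ 1) (h3 : |σ| ≤ 1 / 2) :
    Rr 0 x σ ≤ 0 := by
  have h4 : |σ| ≤ |(1 / 2 : ℝ)| := by
    rw [abs_of_pos (by norm_num : (0 : ℝ) < 1 / 2)]
    exact h3
  have h := DT.realAx_mono 0 (η := 1 / 2 - x) (by linarith only [h1]) (by linarith only [h0]) h4 (by norm_num)
  rw [← Rr_zero, ← Rr_zero, Rr_at_half] at h
  exact h

theorem Rr_nonneg {x σ : ℝ} (h0 : 0 ≤ x) (h1 : x ≤ 1 / 2) (h3 : |σ| ≤ 1 / 2) :
    0 ≤ Rr 0 x σ := by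
  have h4 : |σ| ≤ |(1 / 2 : ℝ)| := by
    rw [abs_of_pos (by norm_num : (0 : ℝ) < 1 / 2)]
    exact h3
  have h := Rr_anti h0 h1 h4 (by norm_num)
  rw [Rr_at_half] at h
  exact h

/-- `log (cos (a - b) / cos (a + b)) ≥ 2 tan a tan b` -/
theorem log_cos_diff {a b : ℝ} (ha : 0 ≤ a) (hb : 0 ≤ b) (hab : a + b < Real.pi / 2) :
    2 * (Real.tan a * Real.tan b) ≤ Real.log (Real.cos (a - b)) - Real.log (Real.cos (a + b)) := by
  have hca : 0 < Real.cos a := Real.cos_pos_of_mem_Ioo ⟨by linarith only [ha, hb, hab], by linarith only [hb, hab]⟩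
  have hcb : 0 < Real.cos b := Real.cos_pos_of_mem_Ioo ⟨by linarith only [ha, hb, hab], by linarith only [ha, hab]⟩
  have hcab : 0 < Real.cos (a + b) := Real.cos_pos_of_mem_Ioo ⟨by linarith only [ha, hb, hab], by linarith only [hab]⟩
  have ta : 0 ≤ Real.tan a := Real.tan_nonneg_of_nonneg_of_le_pi_div_two ha (by linarith only [hb, hab])
  have tb : 0 ≤ Real.tan b := Real.tan_nonneg_of_nonneg_of_le_pi_div_two hb (by linarith only [ha, hab])
  set u := Real.tan a * Real.tan b with hu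
  have hu0 : 0 ≤ u := mul_nonneg ta tb
  have e0 : u * (Real.cos a * Real.cos b) = Real.sin a * Real.sin b := by
    rw [hu, Real.tan_eq_sin_div_cos, Real.tan_eq_sin_div_cos]
    field_simp
  have e1 : Real.cos (a - b) = Real.cos a * Real.cos b * (1 + u) := by
    rw [Real.cos_sub]; linarith only [e0]
  have e2 : Real.cos (a + b) = Real.cos a * Real.cos b * (1 - u) := by
    rw [Real.cos_add]; linarith only [e0]
  have hu1 : u < 1 := by
    rw [e2] at hcab
    have := (mul_pos_iff_of_pos_left (mul_pos hca hcb)).1 hcab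
    linarith only [this]
  have hcc : Real.cos a * Real.cos b ≠ 0 := by positivity
  rw [e1, e2, Real.log_mul hcc (by linarith only [hu0] : (1 + u) ≠ 0), Real.log_mul hcc
    (by linarith only [hu1] : (1 - u) ≠ 0)]
  have h := Real.hasSum_log_sub_log_of_abs_lt_one (x := u) (by rw [abs_of_nonneg hu0]; exact hu1)
  have h2 := h.summable.le_tsum 0 (fun k _ => by positivity)
  rw [h.tsum_eq] at h2
  norm_num at h2
  linarith only [h2]

/-- the derivative in `σ` -/
theorem hasDerivAt_Rr_sigma {x s : ℝ} (h1 : 0 < x + 1 / 2 - s) (h2 : x + 1 / 2 + s < 1)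
    (hs : 0 ≤ s) : HasDerivAt (fun s => Rr 0 x s)
      (DT.el 0 (x + 1 / 2 + s) - DT.el 0 (x + 1 / 2 - s)) s := by
  have hpi := Real.pi_pos
  have n1 : Real.sin (Real.pi * (x + 1 / 2 + s)) ≠ 0 :=
    (Real.sin_pos_of_pos_of_lt_pi (by apply mul_pos hpi; linarith only [h1, hs]) (by nlinarith only [h2, hpi])).ne'
  have n2 : Real.sin (Real.pi * (x + 1 / 2 - s)) ≠ 0 :=
    (Real.sin_pos_of_pos_of_lt_pi (by apply mul_pos hpi; linarith only [h1]) (by nlinarith only [h2, hpi, hs])).ne'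
  have l1 : HasDerivAt (fun s : ℝ => x + 1 / 2 + s) 1 s := (hasDerivAt_id s).const_add _
  have l2 : HasDerivAt (fun s : ℝ => x + 1 / 2 - s) (-1) s := (hasDerivAt_id s).const_sub _
  have m1 := (DT.hasDerivAt_Lr_zero n1).comp s l1
  have m2 := (DT.hasDerivAt_Lr_zero n2).comp s l2
  have m3 := (((m1.add m2).const_add (-2 * DT.Lr 0 x)).sub_const (Real.pi * 0))
  refine m3.congr_deriv ?_
  ring

theorem el_cos {v : ℝ} (h : 0 < Real.cos (Real.pi * v)) : DT.el 0 (v + 1 / 2) =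
    Real.log 2 + Real.log (Real.cos (Real.pi * v)) := by
  rw [DT.el_zero, Lob.ff, show Real.pi * (v + 1 / 2) = Real.pi * v + Real.pi / 2 by ring,
    Real.sin_add_pi_div_two, Real.log_mul (by norm_num) h.ne']

theorem continuous_Rr : Continuous fun p : ℝ × ℝ × ℝ => Rr p.1 p.2.1 p.2.2 := by
  have hL : ∀ {f g : ℝ × ℝ × ℝ → ℝ}, Continuous f → Continuous g →
      Continuous fun p => DT.Lr (f p) (g p) := by
    intro f g hf hg
    exact Continuous.comp (g := fun q : ℝ × ℝ => DT.Lr q.1 q.2) (f := fun p => (f p, g p))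
      DT.continuous_Lr (hf.prodMk hg)
  have cρ : Continuous fun p : ℝ × ℝ × ℝ => p.1 := by fun_prop
  have c0 : Continuous fun _ : ℝ × ℝ × ℝ => (0 : ℝ) := continuous_const
  have cx : Continuous fun p : ℝ × ℝ × ℝ => p.2.1 := by fun_prop
  have c1 : Continuous fun p : ℝ × ℝ × ℝ => p.2.1 + 1 / 2 + p.2.2 := by fun_prop
  have c2 : Continuous fun p : ℝ × ℝ × ℝ => p.2.1 + 1 / 2 - p.2.2 := by fun_prop
  have c5 : Continuous fun p : ℝ × ℝ × ℝ => Real.pi * p.1 := by fun_prop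
  have d0 := hL c0 cx
  have d1 := hL cρ c1
  have d2 := hL cρ c2
  have d5 := ((continuous_const (y := (-2 : ℝ))).mul d0)
  exact (d5.add (d1.add d2)).sub c5

/-- the loss in `σ` -/
theorem Rr_sigma {x σ : ℝ} (h0 : 0 ≤ x) (h1 : x + |σ| ≤ 1 / 2) :
    Rr 0 x σ + Real.pi * σ ^ 2 * Real.tan (Real.pi * x) ≤ Rr 0 x 0 := by
  have hpi := Real.pi_pos
  have key : AntitoneOn (fun s => Rr 0 x s + Real.pi * s ^ 2 * Real.tan (Real.pi * x))
      (Set.Icc 0 (1 / 2 - x)) := by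
    apply antitoneOn_of_hasDerivWithinAt_nonpos (convex_Icc _ _)
      (f' := fun s => (DT.el 0 (x + 1 / 2 + s) - DT.el 0 (x + 1 / 2 - s)) +
        Real.pi * (2 * s) * Real.tan (Real.pi * x))
    · apply Continuous.continuousOn
      have c1 : Continuous fun s : ℝ => Rr 0 x s := by
        have c : Continuous fun s : ℝ => ((0, x, s) : ℝ × ℝ × ℝ) := by fun_prop
        exact Continuous.comp continuous_Rr c
      exact c1.add (by fun_prop)
    · intro s hs
      rw [interior_Icc] at hs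
      have d1 := hasDerivAt_Rr_sigma (x := x) (s := s) (by linarith only [h0, hs, hs.1, hs.2])
        (by linarith only [hs, hs.2]) hs.1.le
      have d2 : HasDerivAt (fun s : ℝ => Real.pi * s ^ 2 * Real.tan (Real.pi * x))
          (Real.pi * (2 * s) * Real.tan (Real.pi * x)) s := by
        have := (((hasDerivAt_pow 2 s).const_mul Real.pi).mul_const (Real.tan (Real.pi * x)))
        refine this.congr_deriv ?_
        norm_num
      exact (d1.add d2).hasDerivWithinAt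
    · intro s hs
      rw [interior_Icc] at hs
      have i0 : 0 ≤ Real.pi * x := by positivity
      have i1 : 0 ≤ Real.pi * s := mul_nonneg hpi.le hs.1.le
      have i2 : Real.pi * x + Real.pi * s < Real.pi / 2 := by nlinarith only [hpi, hs, hs.2]
      have i3 := log_cos_diff i0 i1 i2
      have c1 : 0 < Real.cos (Real.pi * (x + s)) :=
        Real.cos_pos_of_mem_Ioo ⟨by nlinarith only [hpi, i0, i1], by nlinarith only [i2]⟩
      have c2 : 0 < Real.cos (Real.pi * (x - s)) :=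
        Real.cos_pos_of_mem_Ioo ⟨by nlinarith only [i0, i2], by nlinarith only [i1, i2]⟩
      have e1 := el_cos c1
      have e2 := el_cos c2
      rw [show x + s + 1 / 2 = x + 1 / 2 + s by ring, show Real.pi * (x + s) =
        Real.pi * x + Real.pi * s by ring] at e1
      rw [show x - s + 1 / 2 = x + 1 / 2 - s by ring, show Real.pi * (x - s) =
        Real.pi * x - Real.pi * s by ring] at e2
      have t0 : 0 ≤ Real.tan (Real.pi * x) :=
        Real.tan_nonneg_of_nonneg_of_le_pi_div_two i0 (by linarith only [i1, i2])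
      have t1 : Real.pi * s ≤ Real.tan (Real.pi * s) := Real.le_tan i1 (by linarith only [i0, i2])
      have t2 := mul_le_mul_of_nonneg_left t1 t0
      rw [e1, e2]
      linarith only [i3, t2]
  have h2 : (0 : ℝ) ∈ Set.Icc 0 (1 / 2 - x) := ⟨le_rfl, by linarith only [h1, abs_nonneg σ]⟩
  have h3 : |σ| ∈ Set.Icc 0 (1 / 2 - x) := ⟨abs_nonneg σ, by linarith only [h1]⟩
  have h4 := key h2 h3 (abs_nonneg σ)
  simp only [sq_abs, Rr_abs] at h4
  linarith only [h4]

theorem Rr_symm (x : ℝ) : Rr 0 (1 / 2 - x) 0 = Rr 0 x 0 := by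
  have h1 := DT.Lr_one_sub (ρ := 0) le_rfl x
  have h2 := DT.Lr_one_sub (ρ := 0) le_rfl (1 / 2 - x)
  unfold Rr
  rw [show 1 / 2 - x + 1 / 2 + 0 = 1 - x by ring, show 1 / 2 - x + 1 / 2 - 0 = 1 - x by ring,
    show x + 1 / 2 + 0 = 1 - (1 / 2 - x) by ring, show x + 1 / 2 - 0 = 1 - (1 / 2 - x) by ring,
    h1, h2]
  ring

theorem hasDerivAt_Rr_x {x : ℝ} (h0 : 0 < x) (h1 : x < 1 / 2) :
    HasDerivAt (fun x => Rr 0 x 0) (2 * DT.el 0 (x + 1 / 2) - 2 * DT.el 0 x) x := by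
  have hpi := Real.pi_pos
  have n1 : Real.sin (Real.pi * (x + 1 / 2 + 0)) ≠ 0 :=
    (Real.sin_pos_of_pos_of_lt_pi (by apply mul_pos hpi; linarith only [h0, h1]) (by nlinarith only [h1, hpi])).ne'
  have n2 : Real.sin (Real.pi * (x + 1 / 2 - 0)) ≠ 0 :=
    (Real.sin_pos_of_pos_of_lt_pi (by apply mul_pos hpi; linarith only [h0, h1]) (by nlinarith only [h1, hpi])).ne'
  have n3 : Real.sin (Real.pi * x) ≠ 0 :=
    (Real.sin_pos_of_pos_of_lt_pi (by positivity) (by nlinarith only [hpi, h1])).ne'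
  have l1 : HasDerivAt (fun x : ℝ => x + 1 / 2 + 0) 1 x :=
    ((hasDerivAt_id x).add_const _).add_const _
  have l2 : HasDerivAt (fun x : ℝ => x + 1 / 2 - 0) 1 x :=
    ((hasDerivAt_id x).add_const _).sub_const _
  have m1 := (DT.hasDerivAt_Lr_zero n1).comp x l1
  have m2 := (DT.hasDerivAt_Lr_zero n2).comp x l2
  have m3 := ((((DT.hasDerivAt_Lr_zero n3).const_mul (-2)).add (m1.add m2)).sub_const
    (Real.pi * 0))
  refine m3.congr_deriv ?_
  rw [add_zero, sub_zero]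
  ring

/-- the loss in `x` -/
theorem Rr_x {x : ℝ} (h0 : 0 ≤ x) (h1 : x ≤ 1 / 2) :
    Rr 0 x 0 + 2 * Real.pi * (x - 1 / 4) ^ 2 ≤ Rr 0 (1 / 4) 0 := by
  have hpi := Real.pi_pos
  have key : AntitoneOn (fun t => Rr 0 t 0 + 2 * Real.pi * (t - 1 / 4) ^ 2)
      (Set.Icc (1 / 4) (1 / 2)) := by
    apply antitoneOn_of_hasDerivWithinAt_nonpos (convex_Icc _ _)
      (f' := fun t => (2 * DT.el 0 (t + 1 / 2) - 2 * DT.el 0 t) +
        2 * Real.pi * (2 * (t - 1 / 4)))
    · apply Continuous.continuousOn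
      have c1 : Continuous fun s : ℝ => Rr 0 s 0 := by
        have c : Continuous fun s : ℝ => ((0, s, 0) : ℝ × ℝ × ℝ) := by fun_prop
        exact Continuous.comp continuous_Rr c
      exact c1.add (by fun_prop)
    · intro t ht
      rw [interior_Icc] at ht
      have d1 := hasDerivAt_Rr_x (x := t) (by linarith only [ht, ht.1]) ht.2
      have d2 : HasDerivAt (fun t : ℝ => 2 * Real.pi * (t - 1 / 4) ^ 2)
          (2 * Real.pi * (2 * (t - 1 / 4))) t := by
        have := ((((hasDerivAt_id t).sub_const (1 / 4)).pow 2).const_mul (2 * Real.pi))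
        refine this.congr_deriv ?_
        norm_num
      exact (d1.add d2).hasDerivWithinAt
    · intro t ht
      rw [interior_Icc] at ht
      have i0 : 0 ≤ Real.pi / 4 := by positivity
      have i1 : 0 ≤ Real.pi * (t - 1 / 4) := mul_nonneg hpi.le (by linarith only [ht, ht.1])
      have i2 : Real.pi / 4 + Real.pi * (t - 1 / 4) < Real.pi / 2 := by nlinarith only [hpi, ht, ht.2]
      have i3 := log_cos_diff i0 i1 i2
      have c1 : 0 < Real.cos (Real.pi * t) :=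
        Real.cos_pos_of_mem_Ioo ⟨by nlinarith only [hpi, i1, ht.1], by nlinarith only [i2, ht.2]⟩
      have s1 : 0 < Real.sin (Real.pi * t) :=
        Real.sin_pos_of_pos_of_lt_pi (by nlinarith only [hpi, i1, ht.1]) (by nlinarith only [hpi, i2, ht.2])
      have e1 := el_cos c1
      have e2 : DT.el 0 t = Real.log 2 + Real.log (Real.sin (Real.pi * t)) := by
        rw [DT.el_zero, Lob.ff, Real.log_mul (by norm_num) s1.ne']
      rw [show Real.pi / 4 + Real.pi * (t - 1 / 4) = Real.pi * t by ring,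
        show Real.pi / 4 - Real.pi * (t - 1 / 4) = Real.pi / 2 - Real.pi * t by ring,
        Real.cos_pi_div_two_sub, Real.tan_pi_div_four, one_mul] at i3
      have t1 : Real.pi * (t - 1 / 4) ≤ Real.tan (Real.pi * (t - 1 / 4)) :=
        Real.le_tan i1 (by linarith only [hpi, i2])
      rw [e1, e2]
      linarith only [i3, t1]
  have m0 : (1 / 4 : ℝ) ∈ Set.Icc (1 / 4 : ℝ) (1 / 2) := ⟨le_rfl, by norm_num⟩
  rcases le_total (1 / 4) x with h | h
  · have h4 := key m0 ⟨h, h1⟩ h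
    simp only [sub_self] at h4
    linarith only [h4]
  · have h4 := key m0 (b := 1 / 2 - x) ⟨by linarith only [h], by linarith only [h0]⟩ (by linarith only [h])
    simp only [sub_self] at h4
    rw [Rr_symm] at h4
    nlinarith only [h4]

/-- (a): the loss on the triangle -/
theorem Rr_tri {x σ : ℝ} (h0 : 0 ≤ x) (h1 : x + |σ| ≤ 1 / 2) :
    Rr 0 x σ ≤ Rr 0 (1 / 4) 0 - 2 * Real.pi * (x - 1 / 4) ^ 2 -
      Real.pi * σ ^ 2 * Real.tan (Real.pi * x) := by
  have h2 := Rr_sigma h0 h1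
  have h3 := Rr_x h0 (by linarith only [h1, abs_nonneg σ])
  linarith only [h2, h3]

/-- the maximum is at least `π/8` -/
theorem Rr_max_ge : Real.pi / 8 ≤ Rr 0 (1 / 4) 0 := by
  have h := Rr_x (x := 0) le_rfl (by norm_num)
  have e : Rr 0 0 0 = 0 := by
    have h3 := DT.Lr_half (ρ := 0) le_rfl
    unfold Rr
    rw [zero_add, add_zero, sub_zero, h3, DT.Lr_zero_right]
    ring
  rw [e] at h
  linarith only [h]

/-- `tan (π/8) ≥ 2/5` -/
theorem tan_pi_eight : 2 / 5 ≤ Real.tan (Real.pi / 8) := by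
  have hpi := Real.pi_pos
  have h := Real.lt_tan (x := Real.pi / 8) (by positivity) (by linarith only [hpi])
  have := Real.pi_gt_d2
  by_contra hc
  push Not at hc
  -- `tan (π/4) = 2t/(1-t²) = 1`
  have t0 : 0 < Real.tan (Real.pi / 8) := by linarith only [h, this, hc, div_pos hpi (by norm_num : (0 : ℝ) < 8)]
  have hc8 : 0 < Real.cos (Real.pi / 8) := Real.cos_pos_of_mem_Ioo ⟨by linarith only [h, this, hc], by linarith only [h, this, hc]⟩
  have e1 : Real.tan (2 * (Real.pi / 8)) = 2 * Real.tan (Real.pi / 8) /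
      (1 - Real.tan (Real.pi / 8) ^ 2) := Real.tan_two_mul
  rw [show 2 * (Real.pi / 8) = Real.pi / 4 by ring, Real.tan_pi_div_four,
    eq_div_iff (by nlinarith only [h, this, hc, hpi])] at e1
  nlinarith only [h, this, hc, e1, hpi]

/-- (d): an explicit gap on the whole rectangle -/
theorem Rr_gap {x σ : ℝ} (h0 : 0 ≤ x) (h1 : x ≤ 1) (h2 : |σ| ≤ 1 / 2) :
    Rr 0 x σ ≤ Rr 0 (1 / 4) 0 - 3 / 10 * ((x - 1 / 4) ^ 2 + σ ^ 2) := by
  have hpi := Real.pi_gt_d2
  have hσ : σ ^ 2 ≤ 1 / 4 := by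
    rw [← sq_abs]
    nlinarith only [h2, abs_nonneg σ]
  rcases le_total x (1 / 2) with hx | hx
  · -- reduce to the triangle
    have key : ∀ s : ℝ, 0 ≤ s → x + s ≤ 1 / 2 → ∀ q : ℝ, q ≤ 1 / 4 →
        (q = s ^ 2 ∨ s = 1 / 2 - x) → 3 / 10 * ((x - 1 / 4) ^ 2 + q) ≤
        2 * Real.pi * (x - 1 / 4) ^ 2 + Real.pi * s ^ 2 * Real.tan (Real.pi * x) := by
      intro s hs0 hs1 q hq hqs
      have t0 : 0 ≤ Real.tan (Real.pi * x) :=
        Real.tan_nonneg_of_nonneg_of_le_pi_div_two (by positivity) (by nlinarith only [hx, hpi])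
      have t1 : 0 ≤ Real.pi * s ^ 2 * Real.tan (Real.pi * x) := by positivity
      rcases le_total x (1 / 8) with c1 | c1
      · nlinarith only [hq, t1, hpi, h0, hx, c1]
      rcases le_total (3 / 8) x with c2 | c2
      · nlinarith only [hq, t1, hpi, h0, c2, hx, c1]
      have t2 : Real.tan (Real.pi / 8) ≤ Real.tan (Real.pi * x) := by
        rcases eq_or_lt_of_le c1 with c3 | c3
        · rw [← c3]
          apply le_of_eq
          congr 1
          ring
        · exact (Real.tan_lt_tan_of_nonneg_of_lt_pi_div_two (by positivity) (by nlinarith only [c2, hpi, hx])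
            (by nlinarith only [c3, hpi, c1])).le
      have t3 := tan_pi_eight
      rcases hqs with hqs | hqs
      · rw [hqs]
        have : 3 / 10 * s ^ 2 ≤ Real.pi * s ^ 2 * Real.tan (Real.pi * x) := by
          have : 3 / 10 ≤ Real.pi * Real.tan (Real.pi * x) := by nlinarith only [t2, t3, hpi, t0]
          nlinarith only [this, sq_nonneg s]
        nlinarith only [this, hpi, sq_nonneg (x - 1 / 4)]
      · rw [hqs]
        rcases le_total x (1 / 4) with c3 | c3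
        · have i1 : 1 / 16 ≤ (1 / 2 - x) ^ 2 := by nlinarith only [h1, c3, hx]
          have i2 : 314 / 100 * (1 / 16) ≤ Real.pi * (1 / 2 - x) ^ 2 := by nlinarith only [i1, hpi]
          have i3 : 314 / 100 * (1 / 16) * (2 / 5) ≤
              Real.pi * (1 / 2 - x) ^ 2 * Real.tan (Real.pi * x) := by
            apply mul_le_mul i2 (by linarith only [t2, t3]) (by norm_num) (by positivity)
          nlinarith only [hq, i3, hpi, sq_nonneg (x - 1 / 4)]
        · have t4 : 1 ≤ Real.tan (Real.pi * x) := by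
            rw [← Real.tan_pi_div_four]
            rcases eq_or_lt_of_le c3 with c4 | c4
            · rw [← c4]
              apply le_of_eq
              congr 1
              ring
            · exact (Real.tan_lt_tan_of_nonneg_of_lt_pi_div_two (by positivity) (by nlinarith only [c2, c4, hpi, hx])
                (by nlinarith only [c4, hpi, c3])).le
          have i3 : 314 / 100 * (1 / 2 - x) ^ 2 ≤
              Real.pi * (1 / 2 - x) ^ 2 * Real.tan (Real.pi * x) := by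
            have : 314 / 100 * (1 / 2 - x) ^ 2 * 1 ≤
                Real.pi * (1 / 2 - x) ^ 2 * Real.tan (Real.pi * x) := by
              apply mul_le_mul _ t4 (by norm_num) (by positivity)
              apply mul_le_mul_of_nonneg_right _ (sq_nonneg _)
              norm_num at hpi ⊢
              linarith only [hpi]
            linarith only [this]
          have i4 : 314 / 50 * (x - 1 / 4) ^ 2 ≤ 2 * Real.pi * (x - 1 / 4) ^ 2 := by
            apply mul_le_mul_of_nonneg_right _ (sq_nonneg _)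
            norm_num at hpi ⊢
            linarith only [hpi]
          nlinarith only [hq, c2, i3, i4, sq_nonneg (12 * x - 4)]
    rcases le_total (x + |σ|) (1 / 2) with hc | hc
    · have h3 := Rr_tri h0 hc
      have h4 := key |σ| (abs_nonneg σ) hc (σ ^ 2) hσ (Or.inl (sq_abs σ).symm)
      rw [sq_abs] at h4
      linarith only [h3, h4]
    · have h3 := Rr_tri (x := x) (σ := 1 / 2 - x) h0 (by
        rw [abs_of_nonneg (by linarith only [hx])]; linarith only [])
      have h4 := key (1 / 2 - x) (by linarith only [hx]) (by linarith only []) (σ ^ 2) hσ (Or.inr rfl)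
      have h5 := Rr_anti (x := x) (σ := 1 / 2 - x) (σ' := σ) h0 hx (by
        rw [abs_of_nonneg (by linarith only [hx])]; linarith only [hc]) h2
      linarith only [h3, h4, h5]
  · have h3 := Rr_nonpos hx h1 h2
    have h4 := Rr_max_ge
    nlinarith only [h1, hpi, hσ, h3, h4, h0]

/-! ### heights -/

/-- the gain by the height grows with `x` -/
theorem Rr_height_mono {ρ ρ' x x' σ : ℝ} (hρ : 0 ≤ ρ) (hρ' : ρ ≤ ρ') (hx : x ≤ x') :
    Rr ρ' x σ - Rr ρ x σ ≤ Rr ρ' x' σ - Rr ρ x' σ := by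
  have key : ∀ a b : ℝ, a ≤ b → DT.Lr ρ b - DT.Lr ρ a ≤ DT.Lr ρ' b - DT.Lr ρ' a := by
    intro a b hab
    rw [DT.Lr_sub, DT.Lr_sub]
    apply intervalIntegral.integral_mono_ae hab (DT.el_intble ρ a b) (DT.el_intble ρ' a b)
    filter_upwards [DT.LrCont.ae_sin_ne] with v hv
    exact DT.el_mono hρ hρ' (fun _ => hv)
  have h1 := key (x + 1 / 2 + σ) (x' + 1 / 2 + σ) (by linarith only [hx])
  have h2 := key (x + 1 / 2 - σ) (x' + 1 / 2 - σ) (by linarith only [hx])
  unfold Rr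
  linarith only [h1, h2]

theorem Rr_at_zero {ρ : ℝ} (hρ : 0 ≤ ρ) (σ : ℝ) : Rr ρ 0 σ = 0 := by
  have h3 := DT.Lr_half_add hρ σ
  unfold Rr
  rw [zero_add, h3, DT.Lr_zero_right]
  ring

theorem Rr_half_left {ρ : ℝ} (hρ : 0 ≤ ρ) (σ : ℝ) : Rr ρ (1 / 2) σ = Real.pi * ρ := by
  have h1 := DT.Lr_add_one hρ σ
  have h2 := DT.Lr_one_sub hρ σ
  have h3 := DT.Lr_half (ρ := 0) le_rfl
  unfold Rr
  rw [show (1 / 2 + 1 / 2 + σ : ℝ) = σ + 1 by ring, show (1 / 2 + 1 / 2 - σ : ℝ) = 1 - σ by ring,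
    h1, h2, h3]
  ring

theorem Rr_one_left {ρ : ℝ} (hρ : 0 ≤ ρ) (σ : ℝ) : Rr ρ 1 σ = 2 * Real.pi * ρ := by
  have h1 := DT.Lr_add_one hρ (1 / 2 + σ)
  have h2 := DT.Lr_add_one hρ (1 / 2 - σ)
  have h3 := DT.Lr_one (ρ := 0) le_rfl
  have h4 := DT.Lr_half_add hρ σ
  unfold Rr
  rw [show (1 + 1 / 2 + σ : ℝ) = 1 / 2 + σ + 1 by ring,
    show (1 + 1 / 2 - σ : ℝ) = 1 / 2 - σ + 1 by ring, h1, h2, h3]
  linarith only [h4]

/-- (e): monotone in the height -/
theorem Rr_mono_height {ρ ρ' x σ : ℝ} (hρ : 0 ≤ ρ) (hρ' : ρ ≤ ρ') (hx : 0 ≤ x) :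
    Rr ρ x σ ≤ Rr ρ' x σ := by
  have h := Rr_height_mono (σ := σ) hρ hρ' hx
  rw [Rr_at_zero hρ, Rr_at_zero (hρ.trans hρ')] at h
  linarith only [h]

/-- the gain is at most `π (ρ' - ρ)` for `x ≤ 1/2` -/
theorem Rr_height_half {ρ ρ' x σ : ℝ} (hρ : 0 ≤ ρ) (hρ' : ρ ≤ ρ') (hx : x ≤ 1 / 2) :
    Rr ρ' x σ ≤ Rr ρ x σ + Real.pi * (ρ' - ρ) := by
  have h := Rr_height_mono (σ := σ) hρ hρ' hx
  rw [Rr_half_left hρ, Rr_half_left (hρ.trans hρ')] at h
  linarith only [h]

/-- the gain is at most `2π (ρ' - ρ)` for `x ≤ 1` -/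
theorem Rr_height_one {ρ ρ' x σ : ℝ} (hρ : 0 ≤ ρ) (hρ' : ρ ≤ ρ') (hx : x ≤ 1) :
    Rr ρ' x σ ≤ Rr ρ x σ + 2 * Real.pi * (ρ' - ρ) := by
  have h := Rr_height_mono (σ := σ) hρ hρ' hx
  rw [Rr_one_left hρ, Rr_one_left (hρ.trans hρ')] at h
  linarith only [h]

/-- the gap with a height, `0 ≤ x ≤ 1` -/
theorem Rr_gap_height {ρ x σ : ℝ} (hρ : 0 ≤ ρ) (h0 : 0 ≤ x) (h1 : x ≤ 1) (h2 : |σ| ≤ 1 / 2) :
    Rr ρ x σ ≤ Rr 0 (1 / 4) 0 - 3 / 10 * ((x - 1 / 4) ^ 2 + σ ^ 2) + 2 * Real.pi * ρ := by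
  have h3 := Rr_gap h0 h1 h2
  have h4 := Rr_height_one (σ := σ) le_rfl hρ h1
  linarith only [h3, h4]

end Pool.Agent.Work.MP_b30479_gt.LT
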