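import Pool.Agent.Work.MP_b30479_gt.LT.XDefs

/-!
# Explicit facts on the real ring function, second part
-/

namespace Pool.Agent.Work.MP_b30479_gt.LT

open Finset VOL AX MeasureTheory

theorem rs_eq : rs = Rr 0 (1 / 4) 0 := by
  have h := ts_eq_Rr
  unfold ts at h
  unfold rs
  linarith only [h]

theorem rs_ge : Real.pi / 8 ≤ rs := by
  rw [rs_eq]
  exact Rr_max_ge

/-- tangent line of the tangent function at `π/4` -/
theorem tan_ge {x : ℝ} (h0 : 0 ≤ x) (h1 : x < 1 / 2) :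
    1 + 2 * Real.pi * (x - 1 / 4) ≤ Real.tan (Real.pi * x) := by
  have hpi := Real.pi_pos
  have hpi4 := Real.pi_lt_four
  have hc : 0 < Real.cos (Real.pi * x) :=
    Real.cos_pos_of_mem_Ioo ⟨by nlinarith only [hpi, h0], by nlinarith only [h1, hpi]⟩
  rw [Real.tan_eq_sin_div_cos, le_div_iff₀ hc]
  obtain ⟨h, hh⟩ : ∃ h, h = Real.pi * (x - 1 / 4) := ⟨_, rfl⟩
  have ha : Real.pi * x = Real.pi / 4 + h := by rw [hh]; ring
  have hq : 1 + 2 * Real.pi * (x - 1 / 4) = 1 + 2 * h := by rw [hh]; ring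
  rw [hq, ha, Real.sin_add, Real.cos_add, Real.sin_pi_div_four, Real.cos_pi_div_four]
  have hs2 : 0 < Real.sqrt 2 / 2 := by positivity
  have key : 0 ≤ Real.sin h - h * Real.cos h + h * Real.sin h := by
    rcases le_total 0 h with hp | hn
    · have hlt : h < Real.pi / 2 := by rw [hh]; nlinarith only [hpi, h1]
      have hch : 0 < Real.cos h := Real.cos_pos_of_mem_Ioo ⟨by linarith only [hpi, hp], hlt⟩
      have h1 := Real.le_tan hp hlt
      rw [Real.tan_eq_sin_div_cos, le_div_iff₀ hch] at h1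
      have h2 : 0 ≤ Real.sin h := Real.sin_nonneg_of_nonneg_of_le_pi hp (by linarith only [hpi, hlt])
      nlinarith only [h1, hp, h2]
    · obtain ⟨k, hk⟩ : ∃ k, k = -h := ⟨_, rfl⟩
      have hk0 : 0 ≤ k := by linarith only [hn, hk]
      have hk1 : k ≤ 1 := by
        rw [hk, hh]; nlinarith only [hpi4, h0, hpi]
      have e : h = -k := by linarith only [hk]
      rw [e, Real.sin_neg, Real.cos_neg]
      have h1 := Real.one_sub_sq_div_two_le_cos (x := k)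
      have h2 : Real.sin k ≤ k := Real.sin_le hk0
      have h3 : 0 ≤ Real.sin k := Real.sin_nonneg_of_nonneg_of_le_pi hk0 (by
        have := Real.pi_gt_three
        linarith only [hpi4, hk1, this])
      nlinarith only [h2, hk1, h1, h3, hk0, hn, hk, mul_nonneg hk0 (sub_nonneg.mpr hk1)]
  nlinarith only [hs2, key]

theorem Rr_le_eighth {x σ : ℝ} (h0 : 0 ≤ x) (h1 : x ≤ 1 / 2) (h : 1 / 8 ≤ |σ|) (h' : |σ| ≤ 1 / 2) :
    Rr 0 x σ ≤ rs - 9 / 200 := by
  have hpi := Real.pi_gt_d2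
  have hpi' := Real.pi_lt_d2
  rw [rs_eq]
  rcases le_total x (3 / 8) with hx | hx
  · have h2 : Rr 0 x σ ≤ Rr 0 x (1 / 8) :=
      Rr_anti h0 h1 (by rw [abs_of_pos (by norm_num : (0 : ℝ) < 1 / 8)]; exact h) h'
    have h3 := Rr_tri (x := x) (σ := 1 / 8) h0
      (by rw [abs_of_pos (by norm_num : (0 : ℝ) < 1 / 8)]; linarith only [hx])
    have h4 := tan_ge h0 (by linarith only [hpi, hpi', hx] : x < 1 / 2)
    have h5 : Real.pi * (1 / 8) ^ 2 * (1 + 2 * Real.pi * (x - 1 / 4)) ≤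
        Real.pi * (1 / 8) ^ 2 * Real.tan (Real.pi * x) :=
      mul_le_mul_of_nonneg_left h4 (by positivity)
    have h6 : 2 * Real.pi * (x - 1 / 4) ^ 2 +
        Real.pi * (1 / 8) ^ 2 * (1 + 2 * Real.pi * (x - 1 / 4)) =
        2 * Real.pi * ((x - 1 / 4) + Real.pi / 128) ^ 2 +
          Real.pi * (1 / 64 - Real.pi ^ 2 / 8192) := by ring
    have h7 : 0 ≤ 2 * Real.pi * ((x - 1 / 4) + Real.pi / 128) ^ 2 := by positivity
    have h8 : Real.pi ^ 2 ≤ 993 / 100 := by nlinarith only [hpi, hpi']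
    have h9 : 9 / 200 ≤ Real.pi * (1 / 64 - Real.pi ^ 2 / 8192) := by
      have : (1 / 64 - 993 / 819200 : ℝ) ≤ 1 / 64 - Real.pi ^ 2 / 8192 := by linarith only [h8]
      calc (9 / 200 : ℝ) ≤ 3.14 * (1 / 64 - 993 / 819200) := by norm_num
        _ ≤ Real.pi * (1 / 64 - Real.pi ^ 2 / 8192) :=
          mul_le_mul hpi.le this (by norm_num) (by positivity)
    linarith only [h2, h3, h5, h7, h9]
  · have h2 : Rr 0 x σ ≤ Rr 0 x 0 := Rr_anti h0 h1 (by rw [abs_zero]; positivity) h'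
    have h3 := Rr_x h0 h1
    have h4 : (1 / 8 : ℝ) ^ 2 ≤ (x - 1 / 4) ^ 2 := by
      apply pow_le_pow_left₀ (by norm_num); linarith only [hx]
    nlinarith only [hpi, hpi', h2, h3, h4]

theorem Rr_le_sixth {x σ : ℝ} (h0 : 0 ≤ x) (h1 : x ≤ 1 / 2) (h : 1 / 6 ≤ |σ|) (h' : |σ| ≤ 1 / 2) :
    Rr 0 x σ ≤ rs - 3 / 40 := by
  have hpi := Real.pi_gt_d2
  have hpi' := Real.pi_lt_d2
  rw [rs_eq]
  rcases le_total x (1 / 3) with hx | hx
  · have h2 : Rr 0 x σ ≤ Rr 0 x (1 / 6) :=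
      Rr_anti h0 h1 (by rw [abs_of_pos (by norm_num : (0 : ℝ) < 1 / 6)]; exact h) h'
    have h3 := Rr_tri (x := x) (σ := 1 / 6) h0
      (by rw [abs_of_pos (by norm_num : (0 : ℝ) < 1 / 6)]; linarith only [hx])
    have h4 := tan_ge h0 (by linarith only [hpi, hpi', hx] : x < 1 / 2)
    have h5 : Real.pi * (1 / 6) ^ 2 * (1 + 2 * Real.pi * (x - 1 / 4)) ≤
        Real.pi * (1 / 6) ^ 2 * Real.tan (Real.pi * x) :=
      mul_le_mul_of_nonneg_left h4 (by positivity)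
    have h6 : 2 * Real.pi * (x - 1 / 4) ^ 2 +
        Real.pi * (1 / 6) ^ 2 * (1 + 2 * Real.pi * (x - 1 / 4)) =
        2 * Real.pi * ((x - 1 / 4) + Real.pi / 72) ^ 2 +
          Real.pi * (1 / 36 - Real.pi ^ 2 / 2592) := by ring
    have h7 : 0 ≤ 2 * Real.pi * ((x - 1 / 4) + Real.pi / 72) ^ 2 := by positivity
    have h8 : Real.pi ^ 2 ≤ 993 / 100 := by nlinarith only [hpi, hpi']
    have h9 : 3 / 40 ≤ Real.pi * (1 / 36 - Real.pi ^ 2 / 2592) := by
      have : (1 / 36 - 993 / 259200 : ℝ) ≤ 1 / 36 - Real.pi ^ 2 / 2592 := by linarith only [h8]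
      calc (3 / 40 : ℝ) ≤ 3.14 * (1 / 36 - 993 / 259200) := by norm_num
        _ ≤ Real.pi * (1 / 36 - Real.pi ^ 2 / 2592) :=
          mul_le_mul hpi.le this (by norm_num) (by positivity)
    linarith only [h2, h3, h5, h7, h9]
  rcases le_total x (9 / 25) with hx2 | hx2
  · have hs : |(1 / 2 - x : ℝ)| = 1 / 2 - x := abs_of_nonneg (by linarith only [h1])
    have h2 : Rr 0 x σ ≤ Rr 0 x (1 / 2 - x) := Rr_anti h0 h1 (by rw [hs]; linarith only [h, hx]) h'
    have h3 := Rr_tri (x := x) (σ := 1 / 2 - x) h0 (by rw [hs]; linarith only [])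
    have h4 := tan_ge h0 (by linarith only [hpi, hpi', hx2] : x < 1 / 2)
    have h5 : (3 / 2 : ℝ) ≤ Real.tan (Real.pi * x) := by nlinarith only [hpi, hpi', hx, h4, hx2, h0]
    have h6 : (7 / 50 : ℝ) ^ 2 ≤ (1 / 2 - x) ^ 2 := by
      apply pow_le_pow_left₀ (by norm_num); linarith only [hx2]
    have h7 : (1 / 12 : ℝ) ^ 2 ≤ (x - 1 / 4) ^ 2 := by
      apply pow_le_pow_left₀ (by norm_num); linarith only [hx]
    have h8 : 3.14 * (7 / 50 : ℝ) ^ 2 * (3 / 2) ≤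
        Real.pi * (1 / 2 - x) ^ 2 * Real.tan (Real.pi * x) := by
      apply mul_le_mul (mul_le_mul hpi.le h6 (by norm_num) (by linarith only [hpi, hpi'])) h5 (by norm_num)
      positivity
    have h9 : 2 * 3.14 * (1 / 12 : ℝ) ^ 2 ≤ 2 * Real.pi * (x - 1 / 4) ^ 2 := by
      apply mul_le_mul (by linarith only [hpi]) h7 (by norm_num) (by linarith only [hpi, hpi'])
    norm_num at h8 h9
    linarith only [hpi, hpi', h2, h3, h8, h9]
  · have h2 : Rr 0 x σ ≤ Rr 0 x 0 := Rr_anti h0 h1 (by rw [abs_zero]; positivity) h'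
    have h3 := Rr_x h0 h1
    have h4 : (11 / 100 : ℝ) ^ 2 ≤ (x - 1 / 4) ^ 2 := by
      apply pow_le_pow_left₀ (by norm_num); linarith only [hx2]
    have h9 : 2 * 3.14 * (11 / 100 : ℝ) ^ 2 ≤ 2 * Real.pi * (x - 1 / 4) ^ 2 := by
      apply mul_le_mul (by linarith only [hpi]) h4 (by norm_num) (by linarith only [hpi, hpi'])
    norm_num at h9
    linarith only [hpi, hpi', h2, h3, h9]

end Pool.Agent.Work.MP_b30479_gt.LT
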